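import Pool.Agent.Run7.h226.OutL

/-!
# Dimensions of the images
-/

set_option linter.unusedSectionVars false

namespace Run7.h226.Wts

open Matrix Pool.Agent.N996.BP Pool.Agent.N996.FP ComplexOrder Module

variable {ι : Type} [Fintype ι] [DecidableEq ι] {h : Submodule ℂ (Matrix ι ι ℂ)}
  {V U : Submodule ℂ (ι → ℂ)} {x y g N S : Matrix ι ι ℂ} {𝔞 𝔟 : Submodule ℂ (Matrix ι ι ℂ)}
  {n : ℕ}

/-- The dimension of the image of a stable subspace is the `d`-th part of its dimension. -/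
def DimP (V : Submodule ℂ (ι → ℂ)) (𝔞 : Submodule ℂ (Matrix ι ι ℂ)) (F : Matrix ι ι ℂ) (d : ℕ) :
    Prop :=
  ∀ U : Submodule ℂ (ι → ℂ), U ≤ V → (∀ a ∈ 𝔞, ∀ u ∈ U, a *ᵥ u ∈ U) →
    finrank ℂ (U.map (Matrix.mulVecLin F)) * d = finrank ℂ U

/-- An eigenspace in `V`. -/
def VE (V : Submodule ℂ (ι → ℂ)) (xa : Matrix ι ι ℂ) (d : ℝ) : Submodule ℂ (ι → ℂ) where
  carrier := {v | v ∈ V ∧ xa *ᵥ v = (d : ℂ) • v}
  add_mem' := by
    rintro u w ⟨hu, hu'⟩ ⟨hw, hw'⟩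
    exact ⟨V.add_mem hu hw, by rw [Matrix.mulVec_add, hu', hw', smul_add]⟩
  zero_mem' := ⟨V.zero_mem, by simp⟩
  smul_mem' := by
    rintro r w ⟨hw, hw'⟩
    exact ⟨V.smul_mem r hw, by rw [Matrix.mulVec_smul, hw', smul_comm]⟩

lemma mem_VE {xa : Matrix ι ι ℂ} {d : ℝ} {v : ι → ℂ} :
    v ∈ VE V xa d ↔ v ∈ V ∧ xa *ᵥ v = (d : ℂ) • v := Iff.rfl

lemma frk_le {p q : Submodule ℂ (ι → ℂ)} {f g : Matrix ι ι ℂ} {κ : ℂ} (hκ : κ ≠ 0)
    (h1 : ∀ v ∈ p, f *ᵥ v ∈ q) (h2 : ∀ v ∈ p, g *ᵥ (f *ᵥ v) = κ • v) :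
    finrank ℂ p ≤ finrank ℂ q := by
  refine LinearMap.finrank_le_finrank_of_injective
    (f := (Matrix.mulVecLin f).restrict (p := p) (q := q) h1) ?_
  rw [← LinearMap.ker_eq_bot, LinearMap.ker_eq_bot']
  rintro ⟨v, hv⟩ h0
  have h3 : f *ᵥ v = 0 := congrArg Subtype.val h0
  have h4 := h2 v hv
  rw [h3, Matrix.mulVec_zero] at h4
  rcases smul_eq_zero.1 h4.symm with h5 | h5
  · exact absurd h5 hκ
  · exact Subtype.ext h5

lemma finrank_iSup {κ E : Type} [Fintype κ] [DecidableEq κ] [AddCommGroup E] [Module ℂ E]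
    [FiniteDimensional ℂ E] (p : κ → Submodule ℂ E) (hp : iSupIndep p) :
    finrank ℂ (⨆ i, p i : Submodule ℂ E) = ∑ i, finrank ℂ (p i) := by
  rw [Submodule.iSup_eq_range_dfinsupp_lsum, LinearMap.finrank_range_of_inj
    hp.dfinsupp_lsum_injective]
  exact Module.finrank_directSum (R := ℂ) (fun i => p i)

/-- The components of the weights. -/
lemma comp_PA (hM : Mdl h V) (hx : IsReg h x) (hI : IsInv h V N) (hNc : N ∈ ct h x)
    (hS : IsTop h x V S) :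
    ∀ T ∈ wts h x V, ∃ T' ∈ PA h x V S (gen h N), T - T' ∈ cpl h (gen h N) := by
  have hid := gen_id hM hI.mem
  by_contra hcon
  push Not at hcon
  have hfin : {T | T ∈ wts h x V ∧ ∀ T' ∈ PA h x V S (gen h N), T - T' ∉ cpl h (gen h N)}.Finite :=
    (wts_finite hM hx).subset fun T hT => hT.1
  obtain ⟨T', hT', hn'⟩ := hcon
  obtain ⟨T, ⟨hT, hn⟩, hmax⟩ := Set.exists_max_image _ (fun T => ip T x) hfin ⟨T', hT', hn'⟩
  have hTS : T ≠ S := by
    rintro rfl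
    refine hn T ⟨hT, by rw [sub_self]; exact Submodule.zero_mem _⟩ ?_
    rw [sub_self]; exact Submodule.zero_mem _
  have hTw := hT
  obtain ⟨v, hv, hv0, hvT⟩ := hT
  obtain ⟨a, e, hs, he, hea, hev⟩ := exists_up hM hx hS hv hv0 hvT hTS
  have he0 : e ≠ 0 := by rintro rfl; exact hev (Matrix.zero_mulVec v)
  have hrv := simple_rv hs he hea he0
  have hup := wt_root_mem hM hx hv hvT hrv hev
  have hval := rv_val hM hx hrv hea
  have hlt : ip T x < ip (T + Rt e) x := by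
    rw [ip_add, hval]; have := hs.pos; linarith
  obtain ⟨T₁, hT₁, hT₁c⟩ : ∃ T₁ ∈ PA h x V S (gen h N), T + Rt e - T₁ ∈ cpl h (gen h N) := by
    by_contra h1
    push Not at h1
    exact absurd (hmax (T + Rt e) ⟨hup, h1⟩) (not_le.2 hlt)
  rcases root_dich hM hx hid hs.pos.ne' he hea with h4 | h4
  · have hR : Rt e ∈ gen h N := Rt_mem hM hid h4
    have hsq := sq0 hM hx hI hNc hrv h4
    have h6 := (A5 hM hx hrv hsq hTw).2 hup
    have h7 : ip (T + Rt e - T₁) (Rt e) = 0 := by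
      rw [ip_comm]; exact cpl_ip hR (hrv.herm hM.la hx) hT₁c
    rw [ip_sub, ip_add] at h7
    have h8 : T₁ - Rt e ∈ wts h x V := (A4 hM hx hrv hsq hT₁.1).1 (by linarith)
    refine hn (T₁ - Rt e) ⟨h8, ?_⟩ ?_
    · have : T₁ - Rt e - S = (T₁ - S) - Rt e := by abel
      rw [this]
      exact Submodule.sub_mem _ hT₁.2 hR
    · have : T - (T₁ - Rt e) = T + Rt e - T₁ := by abel
      rw [this]
      exact hT₁c
  · have hR : Rt e ∈ cpl h (gen h N) := Rt_mem hM (cpl_id hM hid) h4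
    refine hn T₁ hT₁ ?_
    have : T - T₁ = (T + Rt e - T₁) - Rt e := by abel
    rw [this]
    exact Submodule.sub_mem _ hT₁c hR

section main

variable (hM : Mdl h V) (hx : IsReg h x) (hI : IsInv h V N) (hNc : N ∈ ct h x)
  (hS : IsTop h x V S) {xa xb : Matrix ι ι ℂ} (hxa : xa ∈ gen h N) (hxb : xb ∈ cpl h (gen h N))
  (hxx : x = xa + xb) (hxaH : xaᴴ = xa) (hxxa : x * xa = xa * x)

include hM hx hI hNc hS hxa hxb hxx hxaH hxxa

lemma PA_inj {T T' : Matrix ι ι ℂ} (hT : T ∈ PA h x V S (gen h N))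
    (hT' : T' ∈ PA h x V S (gen h N)) (he : ip T xa = ip T' xa) : T = T' := by
  have key : ∀ T ∈ PA h x V S (gen h N), ip T xb = ip S xb := by
    intro T hT
    have h1 : ip (T - S) xb = 0 := by
      refine cpl_ip hT.2 ?_ hxb
      rw [Matrix.conjTranspose_sub, wts_herm hT.1, wts_herm hS.mem]
    rw [ip_sub] at h1
    linarith
  refine wts_inj hM hx hT.1 hT'.1 ?_
  rw [hxx, ip_add', ip_add', key T hT, key T' hT', he]

lemma cpl_xa {T T' : Matrix ι ι ℂ} (hc : T - T' ∈ cpl h (gen h N)) : ip T xa = ip T' xa := by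
  have h1 : ip (T - T') xa = 0 := by
    rw [ip_comm]
    exact cpl_ip hxa hxaH hc
  rw [ip_sub] at h1
  linarith

lemma wt_xa {v : ι → ℂ} {T : Matrix ι ι ℂ} (hT : IsWt h x v T) :
    xa *ᵥ v = (ip T xa : ℂ) • v := by
  have hid := gen_id hM hI.mem
  rw [hT.val xa ⟨hid.le hxa, hxxa⟩, tr_ip hT.herm hxaH]

/-- The weight vectors in the eigenspaces. -/
lemma wt_VE {T T' : Matrix ι ι ℂ} (hT : T ∈ PA h x V S (gen h N)) {v : ι → ℂ} (hv0 : v ≠ 0)
    (hT' : IsWt h x v T') (hv : v ∈ VE V xa (ip T xa)) : T' - T ∈ cpl h (gen h N) := by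
  obtain ⟨T'', hT'', hc⟩ := comp_PA hM hx hI hNc hS T' ⟨v, hv.1, hv0, hT'⟩
  have h1 := wt_xa hM hx hI hNc hS hxa hxb hxx hxaH hxxa hT'
  rw [hv.2] at h1
  have h2 : ((ip T xa : ℂ) - ip T' xa) • v = 0 := by rw [sub_smul, h1, sub_self]
  have h3 : ip T xa = ip T' xa := by
    rcases smul_eq_zero.1 h2 with h4 | h4
    · have := sub_eq_zero.1 h4
      exact_mod_cast this
    · exact absurd h4 hv0
  have h4 := cpl_xa hM hx hI hNc hS hxa hxb hxx hxaH hxxa hc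
  have h5 := PA_inj hM hx hI hNc hS hxa hxb hxx hxaH hxxa hT hT'' (by rw [h3, h4])
  rw [h5]
  exact hc

/-- Induction on the weight vectors of the eigenspaces. -/
lemma VE_ind {T : Matrix ι ι ℂ} (hT : T ∈ PA h x V S (gen h N)) {P : (ι → ℂ) → Prop} (h0 : P 0)
    (hadd : ∀ v w, P v → P w → P (v + w))
    (he : ∀ v ∈ V, v ≠ 0 → ∀ T', IsWt h x v T' → T' - T ∈ cpl h (gen h N) → P v) {v : ι → ℂ}
    (hv : v ∈ VE V xa (ip T xa)) : P v := by
  refine wt_ind hM hx (W := VE V xa (ip T xa)) ?_ h0 hadd ?_ hv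
  · rintro v ⟨hv, hv'⟩
    refine ⟨hM.stab x hx.mem v hv, ?_⟩
    rw [Matrix.mulVec_mulVec, ← hxxa, ← Matrix.mulVec_mulVec, hv', Matrix.mulVec_smul]
  · intro v hv hv0 T' hT'
    exact he v hv.1 hv0 T' hT' (wt_VE hM hx hI hNc hS hxa hxb hxx hxaH hxxa hT hv0 hT' hv)

/-- Lowering and raising operators on the eigenspaces. -/
lemma VE_step {e T : Matrix ι ι ℂ} (he : IsRV h x e) (hea : e ∈ gen h N)
    (hT : T ∈ PA h x V S (gen h N)) (hT' : T - Rt e ∈ PA h x V S (gen h N)) :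
    ∃ κ : ℂ, κ ≠ 0 ∧ (∀ v ∈ VE V xa (ip T xa), eᴴ *ᵥ v ∈ VE V xa (ip (T - Rt e) xa) ∧
      e *ᵥ (eᴴ *ᵥ v) = κ • v) ∧
      (∀ v ∈ VE V xa (ip (T - Rt e) xa), e *ᵥ v ∈ VE V xa (ip T xa) ∧
        eᴴ *ᵥ (e *ᵥ v) = κ • v) := by
  have hid := gen_id hM hI.mem
  have hsq := sq0 hM hx hI hNc he hea
  have hRH := he.herm hM.la hx
  have hR : Rt e ∈ gen h N := Rt_mem hM hid hea
  have hpos := Rt_pos hM hx he
  have hval := (A4 hM hx he hsq hT.1).2 hT'.1
  have hE : e ∈ EA xa ((ip (Rt e) xa : ℝ) : ℂ) := by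
    have h1 := he.val hM.la hx (t := xa) ⟨hid.le hxa, hxxa⟩
    rw [tr_ip hRH hxaH] at h1
    exact h1
  have hE' := EA_star hxaH hE
  have hcp : ∀ T₁ T₂ : Matrix ι ι ℂ, T₁ - T₂ ∈ cpl h (gen h N) → ip T₁ (Rt e) = ip T₂ (Rt e) := by
    intro T₁ T₂ hc
    have h1 : ip (T₁ - T₂) (Rt e) = 0 := by
      rw [ip_comm]; exact cpl_ip hR hRH hc
    rw [ip_sub] at h1
    linarith
  have hbr : ∀ v : ι → ℂ, ∀ T₁, IsWt h x v T₁ →
      e *ᵥ (eᴴ *ᵥ v) - eᴴ *ᵥ (e *ᵥ v) = (nsq e * (ip T₁ (Rt e) : ℂ)) • v := by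
    intro v T₁ hT₁
    have h1 : br e eᴴ *ᵥ v = (nsq e * (ip T₁ (Rt e) : ℂ)) • v := by
      rw [br_Rt he.ne, Matrix.smul_mulVec, hT₁.val _ (he.ct hM.la hx), tr_ip hT₁.herm hRH,
        smul_smul]
    rw [← h1, br, Matrix.sub_mulVec, Matrix.mulVec_mulVec, Matrix.mulVec_mulVec]
  refine ⟨nsq e * ((ip (Rt e) (Rt e) / 2 : ℝ) : ℂ), ?_, ?_, ?_⟩
  · refine mul_ne_zero (nsq_pos he.ne).ne' ?_
    rw [Complex.ofReal_ne_zero]
    exact (half_pos hpos).ne'
  · intro v hv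
    refine ⟨⟨hM.stab _ (hM.la.star _ he.mem) v hv.1, ?_⟩, ?_⟩
    · rw [EA_vec hE' hv.2, ip_sub, sub_eq_add_neg]
    · refine VE_ind hM hx hI hNc hS hxa hxb hxx hxaH hxxa hT
        (P := fun v => e *ᵥ (eᴴ *ᵥ v) = (nsq e * ((ip (Rt e) (Rt e) / 2 : ℝ) : ℂ)) • v)
        (by rw [Matrix.mulVec_zero, Matrix.mulVec_zero, smul_zero])
        (fun v w hv hw => by rw [Matrix.mulVec_add, Matrix.mulVec_add, hv, hw, smul_add]) ?_ hv
      intro v hv hv0 T₁ hT₁ hc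
      have h1 := hcp T₁ T hc
      have h2 : e *ᵥ v = 0 := by
        by_contra h0
        have h3 := A2 hM hx he hsq hv hT₁ h0
        rw [h1] at h3
        linarith
      have h3 := hbr v T₁ hT₁
      rw [h2, Matrix.mulVec_zero, sub_zero, h1] at h3
      rw [h3]
      congr 3
      linarith
  · intro v hv
    refine ⟨⟨hM.stab _ he.mem v hv.1, ?_⟩, ?_⟩
    · rw [EA_vec hE hv.2, ip_sub, sub_add_cancel]
    · refine VE_ind hM hx hI hNc hS hxa hxb hxx hxaH hxxa hT'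
        (P := fun v => eᴴ *ᵥ (e *ᵥ v) = (nsq e * ((ip (Rt e) (Rt e) / 2 : ℝ) : ℂ)) • v)
        (by rw [Matrix.mulVec_zero, Matrix.mulVec_zero, smul_zero])
        (fun v w hv hw => by rw [Matrix.mulVec_add, Matrix.mulVec_add, hv, hw, smul_add]) ?_ hv
      intro v hv hv0 T₁ hT₁ hc
      have h1 := hcp T₁ (T - Rt e) hc
      rw [ip_sub] at h1
      have h2 : eᴴ *ᵥ v = 0 := by
        by_contra h0
        have h3 := A1 hM hx he hsq hv hT₁ h0
        rw [h1] at h3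
        linarith
      have h3 := hbr v T₁ hT₁
      rw [h2, Matrix.mulVec_zero, zero_sub, h1] at h3
      rw [← neg_neg (eᴴ *ᵥ (e *ᵥ v)), h3, ← neg_smul, ← mul_neg, ← Complex.ofReal_neg]
      congr 3
      linarith

lemma PA_sub {e T : Matrix ι ι ℂ} (he : IsRV h x e) (hea : e ∈ gen h N)
    (hT : T ∈ PA h x V S (gen h N)) (hv : 2 * ip T (Rt e) = ip (Rt e) (Rt e)) :
    T - Rt e ∈ PA h x V S (gen h N) := by
  have hid := gen_id hM hI.mem
  refine ⟨(A4 hM hx he (sq0 hM hx hI hNc he hea) hT.1).1 hv, ?_⟩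
  have : T - Rt e - S = (T - S) - Rt e := by abel
  rw [this]
  exact Submodule.sub_mem _ hT.2 (Rt_mem hM hid hea)

/-- All eigenspaces have the same dimension. -/
lemma VE_eq (hU : ∀ a ∈ gen h N, ∀ u ∈ U, a *ᵥ u ∈ U) :
    ∀ T ∈ PA h x V S (gen h N), finrank ℂ (U ⊓ VE V xa (ip T xa) : Submodule ℂ (ι → ℂ)) =
      finrank ℂ (U ⊓ VE V xa (ip S xa) : Submodule ℂ (ι → ℂ)) := by
  have hid := gen_id hM hI.mem
  by_contra hcon
  push Not at hcon
  have hfin : {T | T ∈ PA h x V S (gen h N) ∧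
      finrank ℂ (U ⊓ VE V xa (ip T xa) : Submodule ℂ (ι → ℂ)) ≠
      finrank ℂ (U ⊓ VE V xa (ip S xa) : Submodule ℂ (ι → ℂ))}.Finite :=
    (wts_finite hM hx).subset fun T hT => hT.1.1
  obtain ⟨T', hT', hn'⟩ := hcon
  obtain ⟨T, ⟨hT, hn⟩, hmax⟩ := Set.exists_max_image _ (fun T => ip T x) hfin ⟨T', hT', hn'⟩
  have hTS : T ≠ S := by rintro rfl; exact hn rfl
  obtain ⟨β, hβ, hup⟩ := up_a hM hx hid hS hT.1 hT.2 hTS
  obtain ⟨a, e, hs, he, hea, hex, he0, rfl⟩ := hβ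
  have hrv := simple_rv hs he hex he0
  have hval := rv_val hM hx hrv hex
  have hPA : T + Rt e ∈ PA h x V S (gen h N) := by
    refine ⟨hup, ?_⟩
    have : T + Rt e - S = (T - S) + Rt e := by abel
    rw [this]
    exact Submodule.add_mem _ hT.2 (Rt_mem hM hid hea)
  have h1 : finrank ℂ (U ⊓ VE V xa (ip (T + Rt e) xa) : Submodule ℂ (ι → ℂ)) =
      finrank ℂ (U ⊓ VE V xa (ip S xa) : Submodule ℂ (ι → ℂ)) := by
    by_contra h2
    have h3 := hmax (T + Rt e) ⟨hPA, h2⟩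
    simp only [ip_add] at h3
    rw [hval] at h3
    have := hs.pos
    linarith
  apply hn
  rw [← h1]
  have e1 : T + Rt e - Rt e = T := by abel
  obtain ⟨κ, hκ, h2, h3⟩ := VE_step hM hx hI hNc hS hxa hxb hxx hxaH hxxa hrv hea hPA
    (by rw [e1]; exact hT)
  rw [e1] at h2 h3
  apply le_antisymm
  · exact frk_le (f := e) (g := eᴴ) hκ
      (fun v hv => ⟨hU e hea v hv.1, (h3 v hv.2).1⟩) (fun v hv => (h3 v hv.2).2)
  · exact frk_le (f := eᴴ) (g := e) hκ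
      (fun v hv => ⟨hU _ (hid.star hM hea) v hv.1, (h2 v hv.2).1⟩) (fun v hv => (h2 v hv.2).2)

/-- The eigenspaces generate. -/
lemma VE_sup (hUV : U ≤ V) (hU : ∀ a ∈ gen h N, ∀ u ∈ U, a *ᵥ u ∈ U) :
    (⨆ T : PA h x V S (gen h N), U ⊓ VE V xa (ip (T : Matrix ι ι ℂ) xa) :
      Submodule ℂ (ι → ℂ)) = U := by
  apply le_antisymm
  · exact iSup_le fun T => inf_le_left
  intro u hu
  refine vec_ind hxaH (W := U) (fun z hz => hU xa hxa z hz)
    (P := fun u => u ∈ (⨆ T : PA h x V S (gen h N), U ⊓ VE V xa (ip (T : Matrix ι ι ℂ) xa) :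
      Submodule ℂ (ι → ℂ))) (Submodule.zero_mem _)
    (fun v w hv hw => Submodule.add_mem _ hv hw) ?_ hu
  intro d z hz hzd
  by_cases hex : ∃ T ∈ PA h x V S (gen h N), ip T xa = d
  · obtain ⟨T, hT, hTd⟩ := hex
    refine Submodule.mem_iSup_of_mem ⟨T, hT⟩ ⟨hz, hUV hz, ?_⟩
    change xa *ᵥ z = ((ip T xa : ℝ) : ℂ) • z
    rw [hTd]
    exact hzd
  · have h0 : z = 0 := by
      refine wt_ind hM hx (W := VE V xa d) ?_ (P := fun z => z = 0) rfl
        (fun v w hv hw => by rw [hv, hw, add_zero]) ?_ (show z ∈ VE V xa d from ⟨hUV hz, hzd⟩)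
      · rintro v ⟨hv, hv'⟩
        refine ⟨hM.stab x hx.mem v hv, ?_⟩
        rw [Matrix.mulVec_mulVec, ← hxxa, ← Matrix.mulVec_mulVec, hv', Matrix.mulVec_smul]
      · intro v hv hv0 T' hT'
        exfalso
        obtain ⟨T'', hT'', hc⟩ := comp_PA hM hx hI hNc hS T' ⟨v, hv.1, hv0, hT'⟩
        have h1 := wt_xa hM hx hI hNc hS hxa hxb hxx hxaH hxxa hT'
        rw [hv.2] at h1
        have h2 : ((d : ℂ) - ip T' xa) • v = 0 := by rw [sub_smul, h1, sub_self]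
        have h3 : d = ip T' xa := by
          rcases smul_eq_zero.1 h2 with h4 | h4
          · have := sub_eq_zero.1 h4
            exact_mod_cast this
          · exact absurd h4 hv0
        exact hex ⟨T'', hT'', by
          rw [h3, cpl_xa hM hx hI hNc hS hxa hxb hxx hxaH hxxa hc]⟩
    rw [h0]
    exact Submodule.zero_mem _

/-- The dimension of a stable subspace. -/
lemma VE_dim (hUV : U ≤ V) (hU : ∀ a ∈ gen h N, ∀ u ∈ U, a *ᵥ u ∈ U) :
    finrank ℂ U = (PA h x V S (gen h N)).ncard *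
      finrank ℂ (U ⊓ VE V xa (ip S xa) : Submodule ℂ (ι → ℂ)) := by
  classical
  have hfin : (PA h x V S (gen h N)).Finite := (wts_finite hM hx).subset fun T hT => hT.1
  have : Fintype (PA h x V S (gen h N)) := hfin.fintype
  have hind : iSupIndep fun T : PA h x V S (gen h N) =>
      (U ⊓ VE V xa (ip (T : Matrix ι ι ℂ) xa) : Submodule ℂ (ι → ℂ)) := by
    have h1 := Module.End.eigenspaces_iSupIndep (Matrix.mulVecLin xa : Module.End ℂ (ι → ℂ))
    have h2 := h1.comp (f := fun T : PA h x V S (gen h N) =>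
      ((ip (T : Matrix ι ι ℂ) xa : ℝ) : ℂ)) (fun T T' hTT => Subtype.ext
        (PA_inj hM hx hI hNc hS hxa hxb hxx hxaH hxxa T.2 T'.2 (Complex.ofReal_injective hTT)))
    refine h2.mono fun T => ?_
    intro v hv
    rw [Function.comp_apply, Module.End.mem_eigenspace_iff]
    exact hv.2.2
  have h1 := finrank_iSup _ hind
  rw [VE_sup hM hx hI hNc hS hxa hxb hxx hxaH hxxa hUV hU] at h1
  rw [h1, Finset.sum_congr rfl fun T _ =>
    VE_eq hM hx hI hNc hS hxa hxb hxx hxaH hxxa hU T.1 T.2, Finset.sum_const, smul_eq_mul,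
    Finset.card_univ, ← Nat.card_eq_fintype_card, Nat.card_coe_set_eq]

/-- The product of the lowering operators is injective on the eigenspace. -/
lemma low_inj {Ls : List (Matrix ι ι ℂ)} (O : OL h V (gen h N) x Ls) {T : Matrix ι ι ℂ}
    (hT : T ∈ PA h x V S (gen h N)) (hv : ∀ e ∈ Ls, 2 * ip T (Rt e) = ip (Rt e) (Rt e)) :
    T - (Ls.map Rt).sum ∈ PA h x V S (gen h N) ∧ ∀ v ∈ VE V xa (ip T xa),
      low Ls *ᵥ v ∈ VE V xa (ip (T - (Ls.map Rt).sum) xa) ∧ (low Ls *ᵥ v = 0 → v = 0) := by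
  induction Ls with
  | nil =>
    rw [List.map_nil, List.sum_nil, sub_zero]
    refine ⟨hT, fun v hv => ?_⟩
    rw [low_nil, Matrix.one_mulVec]
    exact ⟨hv, id⟩
  | cons e Ls ih =>
    obtain ⟨h1, h2⟩ := ih O.tail fun f hf => hv f (List.mem_cons_of_mem _ hf)
    have he := O.rv e List.mem_cons_self
    have hea := O.mem e List.mem_cons_self
    have h3 := PA_sub hM hx hI hNc hS hxa hxb hxx hxaH hxxa he hea h1 (by
      rw [ip_sub, O.orth_sum, sub_zero]; exact hv e List.mem_cons_self)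
    have e1 : T - ((e :: Ls).map Rt).sum = T - (Ls.map Rt).sum - Rt e := by
      rw [List.map_cons, List.sum_cons]; abel
    rw [e1]
    obtain ⟨κ, hκ, h4, _⟩ := VE_step hM hx hI hNc hS hxa hxb hxx hxaH hxxa he hea h1 h3
    refine ⟨h3, fun v hv => ?_⟩
    obtain ⟨h5, h6⟩ := h2 v hv
    obtain ⟨h7, h8⟩ := h4 _ h5
    rw [low_cons, ← Matrix.mulVec_mulVec]
    refine ⟨h7, fun h0 => h6 ?_⟩
    rw [h0, Matrix.mulVec_zero] at h8
    rcases smul_eq_zero.1 h8.symm with h9 | h9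
    · exact absurd h9 hκ
    · exact h9

end main

/-- **The dimension of the image.** -/
theorem dimP (hM : Mdl h V) (hx : IsReg h x) (hI : IsInv h V N) (hNc : N ∈ ct h x)
    (hS : IsTop h x V S) {Ls : List (Matrix ι ι ℂ)} (O : OL h V (gen h N) x Ls)
    {T₀ : Matrix ι ι ℂ} (hT₀ : T₀ ∈ PA h x V S (gen h N))
    (hv : ∀ e ∈ Ls, 2 * ip T₀ (Rt e) = ip (Rt e) (Rt e))
    (hk : ∀ v ∈ V, ∀ T, IsWt h x v T → low Ls *ᵥ v ≠ 0 → T - T₀ ∈ cpl h (gen h N)) :
    DimP V (gen h N) (low Ls) (PA h x V S (gen h N)).ncard := by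
  intro U hUV hU
  have hid := gen_id hM hI.mem
  obtain ⟨xa, hxa, xb, hxb, hxx, hxaH, hxbH, hc1, hc2⟩ := x_dec hM hx hid
  have hdim := VE_dim hM hx hI hNc hS hxa hxb hxx hxaH hc1 hUV hU
  have heq := VE_eq hM hx hI hNc hS hxa hxb hxx hxaH hc1 hU T₀ hT₀
  have hsup := VE_sup hM hx hI hNc hS hxa hxb hxx hxaH hc1 hUV hU
  have hinj := low_inj hM hx hI hNc hS hxa hxb hxx hxaH hc1 O hT₀ hv
  -- the other eigenspaces are killed
  have hkill : ∀ T ∈ PA h x V S (gen h N), T ≠ T₀ → ∀ v ∈ VE V xa (ip T xa),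
      low Ls *ᵥ v = 0 := by
    intro T hT hne v hv
    refine VE_ind hM hx hI hNc hS hxa hxb hxx hxaH hc1 hT (P := fun v => low Ls *ᵥ v = 0)
      (Matrix.mulVec_zero _) (fun v w hv hw => by rw [Matrix.mulVec_add, hv, hw, add_zero]) ?_ hv
    intro v hv hv0 T' hT' hc
    by_contra h0
    have h1 := hk v hv T' hT' h0
    have h2 := Submodule.sub_mem _ h1 hc
    have e1 : T' - T₀ - (T' - T) = T - T₀ := by abel
    rw [e1] at h2
    have h3 : T - T₀ ∈ gen h N := by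
      have := Submodule.sub_mem _ hT.2 hT₀.2
      have e2 : T - S - (T₀ - S) = T - T₀ := by abel
      rwa [e2] at this
    exact hne (sub_eq_zero.1 (cpl_disj h3 h2))
  have hmap : U.map (Matrix.mulVecLin (low Ls)) =
      (U ⊓ VE V xa (ip T₀ xa)).map (Matrix.mulVecLin (low Ls)) := by
    apply le_antisymm
    · have key : ∀ u ∈ (⨆ T : PA h x V S (gen h N), U ⊓ VE V xa (ip (T : Matrix ι ι ℂ) xa) :
          Submodule ℂ (ι → ℂ)), Matrix.mulVecLin (low Ls) u ∈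
          (U ⊓ VE V xa (ip T₀ xa)).map (Matrix.mulVecLin (low Ls)) := by
        intro u hu
        refine Submodule.iSup_induction _ (motive := fun u => Matrix.mulVecLin (low Ls) u ∈
          (U ⊓ VE V xa (ip T₀ xa)).map (Matrix.mulVecLin (low Ls))) hu ?_ ?_ ?_
        · intro T u hu
          by_cases hTT : (T : Matrix ι ι ℂ) = T₀
          · rw [hTT] at hu
            exact Submodule.mem_map_of_mem hu
          · have h1 := hkill T T.2 hTT u hu.2
            change low Ls *ᵥ u ∈ _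
            rw [h1]
            exact Submodule.zero_mem _
        · rw [map_zero]; exact Submodule.zero_mem _
        · intro u w hu hw
          rw [map_add]
          exact Submodule.add_mem _ hu hw
      rintro _ ⟨u, hu, rfl⟩
      refine key u ?_
      rw [hsup]
      exact hu
    · exact Submodule.map_mono inf_le_left
  have hfr : finrank ℂ ((U ⊓ VE V xa (ip T₀ xa)).map (Matrix.mulVecLin (low Ls))) =
      finrank ℂ (U ⊓ VE V xa (ip T₀ xa) : Submodule ℂ (ι → ℂ)) := by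
    rw [← LinearMap.range_domRestrict]
    refine LinearMap.finrank_range_of_inj ?_
    rw [← LinearMap.ker_eq_bot, LinearMap.ker_eq_bot']
    rintro ⟨v, hv⟩ h0
    exact Subtype.ext ((hinj.2 v hv.2).2 h0)
  rw [hmap, hfr, heq, hdim, mul_comm]

end Run7.h226.Wts
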