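import Pool.Agent.Run7.h226.Nob
import Pool.Agent.Run7.h226.Dim

/-!
# Bad lists in all ideals: the sign and the dimension
-/

set_option linter.unusedSectionVars false

namespace Run7.h226.Wts

open Matrix Pool.Agent.N996.BP Pool.Agent.N996.FP ComplexOrder Module

variable {ι : Type} [Fintype ι] [DecidableEq ι] {h : Submodule ℂ (Matrix ι ι ℂ)}
  {V : Submodule ℂ (ι → ℂ)} {x : Matrix ι ι ℂ} {𝔞 𝔰 : Submodule ℂ (Matrix ι ι ℂ)}
  {Q Q' : Matrix ι ι ℂ}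

/-- Good pairs with a sign and a dimension. -/
structure GoodL (h : Submodule ℂ (Matrix ι ι ℂ)) (V : Submodule ℂ (ι → ℂ)) (Q : Matrix ι ι ℂ)
    (l d : ℕ) (𝔰 : Submodule ℂ (Matrix ι ι ℂ)) (G : Matrix ι ι ℂ) (t : ℕ) : Prop where
  id : IsId h 𝔰
  mem : G ∈ alg 𝔰
  ne : ∃ v ∈ V, G *ᵥ v ≠ 0
  one : ∀ b ∈ alg 𝔰, ∃ c : ℂ, ∀ v ∈ V, G *ᵥ (b *ᵥ (G *ᵥ v)) = c • (G *ᵥ v)
  adj : G * Q = (-1 : ℂ) ^ (t * l) • (Q * Gᵀ)
  dim : finrank ℂ (V.map (Matrix.mulVecLin G)) * d ^ t = finrank ℂ V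

lemma list_adj {Q : Matrix ι ι ℂ} (L : List (Matrix ι ι ℂ))
    (hL : ∀ f ∈ L, f * Q + Q * fᵀ = 0) :
    L.prod * Q = (-1 : ℂ) ^ L.length • (Q * (L.reverse.prod)ᵀ) := by
  induction L with
  | nil => simp
  | cons f L ih =>
    have h1 : f * Q = -(Q * fᵀ) := eq_neg_of_add_eq_zero_left (hL f List.mem_cons_self)
    have h2 := ih fun g hg => hL g (List.mem_cons_of_mem _ hg)
    rw [List.prod_cons, List.reverse_cons, List.prod_append, List.prod_singleton,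
      Matrix.mul_assoc, h2, Matrix.mul_smul, ← Matrix.mul_assoc, h1, Matrix.transpose_mul,
      List.length_cons, pow_succ, mul_neg_one, neg_smul, Matrix.neg_mul, smul_neg,
      Matrix.mul_assoc]

/-- The step. -/
lemma GoodL.step (hM : Mdl h V) (hA : Alt h V Q Q') {l d t : ℕ} {G : Matrix ι ι ℂ}
    (hG : GoodL h V Q l d 𝔰 G t) (ha : IsSim h 𝔞) {L : List (Matrix ι ι ℂ)}
    (hL : BadL V 𝔞 L) (hl : L.length = l) (hd : DimP V 𝔞 L.prod d) (hn : ¬ 𝔞 ≤ 𝔰) :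
    GoodL h V Q l d (𝔰 ⊔ 𝔞) (G * L.prod) (t + 1) := by
  obtain ⟨F, hF⟩ : ∃ F, F = L.prod := ⟨_, rfl⟩
  have hc := comm_of_sim hM hG.id ha hn
  have hFa : F ∈ alg 𝔞 := by
    rw [hF]; exact Subalgebra.list_prod_mem _ fun f hf => sub_alg (hL.mem f hf)
  have hle1 : ∀ {b : Matrix ι ι ℂ}, b ∈ alg 𝔰 → b ∈ alg (𝔰 ⊔ 𝔞) := fun hb =>
    Algebra.adjoin_mono (fun z hz => Submodule.mem_sup_left hz) hb
  have hle2 : ∀ {b : Matrix ι ι ℂ}, b ∈ alg 𝔞 → b ∈ alg (𝔰 ⊔ 𝔞) := fun hb =>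
    Algebra.adjoin_mono (fun z hz => Submodule.mem_sup_right hz) hb
  have hFG : F * G = G * F := alg_comm hc hFa hG.mem
  have hstG : ∀ v ∈ V, G *ᵥ v ∈ V := alg_stab hM hG.id.le hG.mem
  have hstF : ∀ v ∈ V, F *ᵥ v ∈ V := alg_stab hM ha.id.le hFa
  have hne := hL.ne
  have hone := hL.one
  have hrev := hL.rev
  rw [← hF] at hne hone hrev hd ⊢
  refine ⟨sup_id hG.id ha.id, Subalgebra.mul_mem _ (hle1 hG.mem) (hle2 hFa), ?_, ?_, ?_, ?_⟩
  · -- nonvanishing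
    by_contra hcon
    push Not at hcon
    let Y : Submodule ℂ (ι → ℂ) :=
      { carrier := {w | w ∈ V ∧ F *ᵥ w = 0}
        add_mem' := by
          rintro u w ⟨hu, hu'⟩ ⟨hw, hw'⟩
          exact ⟨V.add_mem hu hw, by rw [Matrix.mulVec_add, hu', hw', add_zero]⟩
        zero_mem' := ⟨V.zero_mem, Matrix.mulVec_zero _⟩
        smul_mem' := by
          rintro r w ⟨hw, hw'⟩
          exact ⟨V.smul_mem r hw, by rw [Matrix.mulVec_smul, hw', smul_zero]⟩ }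
    have hYV : Y = V := by
      refine burn hM ha.id (Y := Y) (W₀ := V.map (Matrix.mulVecLin G)) (fun w hw => hw.1) ?_ ?_ ?_ ?_
      · rintro b hb w ⟨hw, hw'⟩
        refine ⟨hM.stab b hb.1 w hw, ?_⟩
        have h1 : F * b = b * F :=
          alg_comm (𝔞 := 𝔞) (𝔰 := cpl h 𝔞) (fun a haa s hs => cpl_comm hM ha.id haa hs) hFa
            (sub_alg hb)
        rw [Matrix.mulVec_mulVec, h1, ← Matrix.mulVec_mulVec, hw', Matrix.mulVec_zero]
      · rintro _ ⟨v, hv, rfl⟩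
        refine ⟨hstG v hv, ?_⟩
        change F *ᵥ (G *ᵥ v) = 0
        rw [Matrix.mulVec_mulVec, hFG]
        exact hcon v hv
      · rintro a haa _ ⟨v, hv, rfl⟩
        refine ⟨a *ᵥ v, hM.stab a (ha.id.le haa) v hv, ?_⟩
        change G *ᵥ (a *ᵥ v) = a *ᵥ (G *ᵥ v)
        rw [Matrix.mulVec_mulVec, Matrix.mulVec_mulVec, alg_comm hc (sub_alg haa) hG.mem]
      · obtain ⟨v, hv, hv0⟩ := hG.ne
        intro h0
        have h1 : G *ᵥ v ∈ V.map (Matrix.mulVecLin G) := ⟨v, hv, rfl⟩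
        rw [h0, Submodule.mem_bot] at h1
        exact hv0 h1
    obtain ⟨v, hv, hv0⟩ := hne
    rw [← hYV] at hv
    exact hv0 hv.2
  · intro b hb
    have h1 := alg_sup hc hb
    have hmem : ∀ {b : Matrix ι ι ℂ}, b ∈ Submodule.span ℂ {z | ∃ s ∈ alg 𝔰, ∃ a ∈ alg 𝔞,
        z = s * a} → b ∈ alg (𝔰 ⊔ 𝔞) := by
      intro b hb
      refine (Submodule.span_le.2 ?_ : _ ≤ Subalgebra.toSubmodule (alg (𝔰 ⊔ 𝔞))) hb
      rintro _ ⟨s, hs, a, ha, rfl⟩
      exact Subalgebra.mul_mem _ (hle1 hs) (hle2 ha)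
    induction h1 using Submodule.span_induction with
    | mem b hb' =>
      obtain ⟨s, hs, a, haa, rfl⟩ := hb'
      obtain ⟨c, hc1⟩ := hG.one s hs
      obtain ⟨e, hd1⟩ := hone a haa
      refine ⟨c * e, fun v hv => ?_⟩
      have e1 : F * s = s * F := alg_comm hc hFa hs
      have e2 : a * G = G * a := alg_comm hc haa hG.mem
      have e3 : G * F * (s * a) * (G * F) = (G * s * G) * (F * a * F) := by
        calc G * F * (s * a) * (G * F) =
            G * (F * s) * (a * G) * F := by simp only [Matrix.mul_assoc]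
          _ = G * s * (F * G) * a * F := by
              rw [e1, e2]; simp only [Matrix.mul_assoc]
          _ = _ := by rw [hFG]; simp only [Matrix.mul_assoc]
      have e4 : (G * F) *ᵥ ((s * a) *ᵥ ((G * F) *ᵥ v)) =
          (G * F * (s * a) * (G * F)) *ᵥ v := by
        rw [Matrix.mulVec_mulVec, Matrix.mulVec_mulVec, Matrix.mul_assoc]
      rw [e4, e3, ← Matrix.mulVec_mulVec]
      have e5 : (F * a * F) *ᵥ v = e • (F *ᵥ v) := by
        rw [← hd1 v hv, Matrix.mulVec_mulVec, Matrix.mulVec_mulVec, Matrix.mul_assoc]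
      have e6 : ∀ w ∈ V, (G * s * G) *ᵥ w = c • (G *ᵥ w) := fun w hw => by
        rw [← hc1 w hw, Matrix.mulVec_mulVec, Matrix.mulVec_mulVec, Matrix.mul_assoc]
      rw [e5, e6 _ (V.smul_mem e (hstF v hv)), Matrix.mulVec_smul, smul_smul,
        Matrix.mulVec_mulVec]
    | zero =>
      exact ⟨0, fun v hv => by rw [Matrix.zero_mulVec, Matrix.mulVec_zero, zero_smul]⟩
    | add p q hp' hq' hp hq =>
      obtain ⟨c, hc1⟩ := hp (hmem hp')
      obtain ⟨e, hd1⟩ := hq (hmem hq')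
      refine ⟨c + e, fun v hv => ?_⟩
      rw [Matrix.add_mulVec, Matrix.mulVec_add, hc1 v hv, hd1 v hv, add_smul]
    | smul r p hp' hp =>
      obtain ⟨c, hc1⟩ := hp (hmem hp')
      refine ⟨r * c, fun v hv => ?_⟩
      rw [Matrix.smul_mulVec, Matrix.mulVec_smul, hc1 v hv, mul_smul]
  · have e1 : F * Q = (-1 : ℂ) ^ l • (Q * Fᵀ) := by
      have h1 := list_adj (Q := Q) L fun f hf => hA.skew f (ha.id.le (hL.mem f hf))
      rw [hrev, hl, ← hF] at h1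
      exact h1
    calc G * F * Q = G * (F * Q) := by rw [Matrix.mul_assoc]
      _ = (-1 : ℂ) ^ l • ((G * Q) * Fᵀ) := by rw [e1, Matrix.mul_smul, Matrix.mul_assoc]
      _ = (-1 : ℂ) ^ ((t + 1) * l) • (Q * (Gᵀ * Fᵀ)) := by
          rw [hG.adj, Matrix.smul_mul, smul_smul, Matrix.mul_assoc, ← pow_add]
          congr 2
          ring
      _ = (-1 : ℂ) ^ ((t + 1) * l) • (Q * (F * G)ᵀ) := by rw [Matrix.transpose_mul F G]
      _ = _ := by rw [hFG]
  · have h1 : V.map (Matrix.mulVecLin (G * F)) =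
        (V.map (Matrix.mulVecLin G)).map (Matrix.mulVecLin F) := by
      rw [← Submodule.map_comp]
      congr 1
      rw [← hFG, Matrix.mulVecLin_mul]
    have h2 := hd (V.map (Matrix.mulVecLin G)) (by
      rintro _ ⟨v, hv, rfl⟩
      exact hstG v hv) (by
      rintro a haa _ ⟨v, hv, rfl⟩
      refine ⟨a *ᵥ v, hM.stab a (ha.id.le haa) v hv, ?_⟩
      change G *ᵥ (a *ᵥ v) = a *ᵥ (G *ᵥ v)
      rw [Matrix.mulVec_mulVec, Matrix.mulVec_mulVec, alg_comm hc (sub_alg haa) hG.mem])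
    rw [h1, pow_succ', ← mul_assoc, h2, hG.dim]

/-- Good elements for the whole Lie algebra. -/
lemma GoodL.final (hM : Mdl h V) (hA : Alt h V Q Q') {l d t : ℕ} {G : Matrix ι ι ℂ}
    (hG : GoodL h V Q l d h G t) : Odd (t * l) ∧ d ^ t = finrank ℂ V := by
  constructor
  · by_contra hcon
    rw [Nat.not_odd_iff_even] at hcon
    have h1 : Good h V Q h G := ⟨hG.id, hG.mem, hG.ne, hG.one, by
      rw [hG.adj, hcon.neg_one_pow, one_smul]⟩
    exact h1.absurd hM hA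
  · obtain ⟨u, hu, hGu⟩ := hG.ne
    have hst : ∀ v ∈ V, G *ᵥ v ∈ V := alg_stab hM le_rfl hG.mem
    -- irreducibility
    have hirr : (Submodule.map (LinearMap.applyₗ (R := ℂ) (G *ᵥ u) ∘ₗ Matrix.mulVecBilin ℂ ℂ)
        (Subalgebra.toSubmodule (alg h))) = V := by
      refine hM.irr _ ?_ ?_ ?_
      · rintro _ ⟨b, hb, rfl⟩
        exact alg_stab hM le_rfl hb _ (hst u hu)
      · rintro z hz _ ⟨b, hb, rfl⟩
        refine ⟨z * b, Subalgebra.mul_mem _ (sub_alg hz) hb, ?_⟩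
        exact (Matrix.mulVec_mulVec _ _ _).symm
      · intro h0
        have h1 : G *ᵥ u ∈ (Submodule.map (LinearMap.applyₗ (R := ℂ) (G *ᵥ u) ∘ₗ
            Matrix.mulVecBilin ℂ ℂ) (Subalgebra.toSubmodule (alg h))) :=
          ⟨1, Subalgebra.one_mem _, Matrix.one_mulVec _⟩
        rw [h0, Submodule.mem_bot] at h1
        exact hGu h1
    have hrank : ∀ v ∈ V, ∃ c : ℂ, G *ᵥ v = c • (G *ᵥ u) := by
      intro v hv
      rw [← hirr] at hv
      obtain ⟨b, hb, hbv⟩ := hv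
      obtain ⟨c, hc⟩ := hG.one b hb
      refine ⟨c, ?_⟩
      rw [← hc u hu, ← hbv]
      rfl
    have h1 : V.map (Matrix.mulVecLin G) = Submodule.span ℂ {G *ᵥ u} := by
      apply le_antisymm
      · rintro _ ⟨v, hv, rfl⟩
        obtain ⟨c, hc⟩ := hrank v hv
        rw [Submodule.mem_span_singleton]
        exact ⟨c, hc.symm⟩
      · rw [Submodule.span_singleton_le_iff_mem]
        exact ⟨u, hu, rfl⟩
    have h2 := hG.dim
    rw [h1, finrank_span_singleton hGu, one_mul] at h2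
    exact h2

/-- **Bad lists in all ideals.** -/
theorem all_bads (hM : Mdl h V) (hA : Alt h V Q Q') {l d : ℕ}
    {I : Set (Submodule ℂ (Matrix ι ι ℂ))}
    (hI : ∀ 𝔞 ∈ I, IsSim h 𝔞 ∧ ∃ L, BadL V 𝔞 L ∧ L.length = l ∧ DimP V 𝔞 L.prod d)
    (hI0 : ∀ z ∈ h, (∀ 𝔞 ∈ I, z ∈ cpl h 𝔞) → z = 0) :
    ∃ t : ℕ, Odd (t * l) ∧ d ^ t = finrank ℂ V := by
  have hbot : IsId h ⊥ := ⟨bot_le, fun z _ a ha => by
    rw [Submodule.mem_bot] at ha ⊢
    rw [ha, br_zero_right]⟩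
  have hstart : GoodL h V Q l d ⊥ 1 0 := by
    refine ⟨hbot, Subalgebra.one_mem _, ?_, ?_, ?_, ?_⟩
    · obtain ⟨v, hv, hv0⟩ := (Submodule.ne_bot_iff _).1 hM.ne
      exact ⟨v, hv, by rw [Matrix.one_mulVec]; exact hv0⟩
    · intro b hb
      rw [alg] at hb
      have h1 : ∃ c : ℂ, b = c • (1 : Matrix ι ι ℂ) := by
        induction hb using Algebra.adjoin_induction with
        | mem z hz => exact ⟨0, by rw [zero_smul]; exact (Submodule.mem_bot ℂ).1 hz⟩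
        | algebraMap r => exact ⟨r, Algebra.algebraMap_eq_smul_one r⟩
        | add u w _ _ hu hw =>
          obtain ⟨c, rfl⟩ := hu
          obtain ⟨d, rfl⟩ := hw
          exact ⟨c + d, by rw [add_smul]⟩
        | mul u w _ _ hu hw =>
          obtain ⟨c, rfl⟩ := hu
          obtain ⟨d, rfl⟩ := hw
          exact ⟨c * d, by rw [Matrix.smul_mul, Matrix.one_mul, smul_smul]⟩
      obtain ⟨c, rfl⟩ := h1
      refine ⟨c, fun v _ => ?_⟩
      rw [Matrix.one_mulVec, Matrix.one_mulVec, Matrix.smul_mulVec, Matrix.one_mulVec]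
    · rw [Matrix.transpose_one, Matrix.one_mul, Matrix.mul_one, zero_mul, pow_zero, one_smul]
    · rw [Matrix.mulVecLin_one, Submodule.map_id, pow_zero, mul_one]
  obtain ⟨𝔰, ⟨G, t, hG⟩, hmax⟩ := set_has_maximal_iff_noetherian.2
    (inferInstance : IsNoetherian ℂ (Matrix ι ι ℂ)) {𝔰 | ∃ G t, GoodL h V Q l d 𝔰 G t}
    ⟨⊥, 1, 0, hstart⟩
  have hall : ∀ 𝔞 ∈ I, 𝔞 ≤ 𝔰 := by
    intro 𝔞 ha
    by_contra hn
    obtain ⟨hs, L, hL, hl, hd⟩ := hI 𝔞 ha
    have h1 := hG.step hM hA hs hL hl hd hn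
    refine hmax (𝔰 ⊔ 𝔞) ⟨_, _, h1⟩ ?_
    refine lt_of_le_of_ne le_sup_left ?_
    intro h2
    apply hn
    rw [h2]
    exact le_sup_right
  have hh : 𝔰 = h := by
    apply le_antisymm hG.id.le
    intro z hz
    obtain ⟨a, ha, b, hb, rfl⟩ := cpl_dec hG.id hz
    have : b = 0 := hI0 b hb.1 fun 𝔞 h𝔞 => ⟨hb.1, fun c hc => hb.2 c (hall 𝔞 h𝔞 hc)⟩
    rw [this, add_zero]
    exact ha
  rw [hh] at hG
  exact ⟨t, hG.final hM hA⟩

end Run7.h226.Wts
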