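import Pool.Agent.Run7.h226.Sim

/-!
# Exterior powers inside the tensor powers
-/

set_option linter.unusedSectionVars false

namespace Run7.h226.Wts

open Matrix Pool.Agent.N996.BP Pool.Agent.N996.FP

variable {ι : Type} [Fintype ι] [DecidableEq ι] {h : Submodule ℂ (Matrix ι ι ℂ)}
  {V : Submodule ℂ (ι → ℂ)} {x : Matrix ι ι ℂ}

/-- The antisymmetric tensors. -/
noncomputable def altPi (V : Submodule ℂ (ι → ℂ)) (k : ℕ) :
    V [⋀^Fin k]→ₗ[ℂ] ((Fin k → ι) → ℂ) :=
  AlternatingMap.pi fun i => (Matrix.detRowAlternating (n := Fin k) (R := ℂ)).compLinearMap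
    ((LinearMap.funLeft ℂ ℂ i) ∘ₗ V.subtype)

lemma altPi_apply (k : ℕ) (v : Fin k → V) (i : Fin k → ι) :
    altPi V k v i = (Matrix.of fun a b => (v a : ι → ℂ) (i b)).det := rfl

lemma slot_mulVec (k : ℕ) (m : Fin k) (z : Matrix ι ι ℂ) (D : (Fin k → ι) → ℂ) (i : Fin k → ι) :
    (slot m z *ᵥ D) i = ∑ c, z (i m) c * D (Function.update i m c) := by
  rw [Matrix.mulVec, dotProduct]
  have h1 : ∀ j : Fin k → ι, slot m z i j * D j =
      if Function.update i m (j m) = j then z (i m) (j m) * D j else 0 := by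
    intro j
    rw [slot_apply]
    split_ifs with h
    · have h2 : ∏ n ∈ Finset.univ.erase m, (1 : Matrix ι ι ℂ) (i n) (j n) = 1 := by
        refine Finset.prod_eq_one fun n hn => ?_
        have h3 := congrFun h n
        rw [Function.update_of_ne (Finset.ne_of_mem_erase hn)] at h3
        rw [h3, Matrix.one_apply_eq]
      rw [h2, mul_one]
    · obtain ⟨n, hn⟩ := Function.ne_iff.1 h
      have hnm : n ≠ m := by
        rintro rfl
        exact hn (Function.update_self _ _ _)
      rw [Function.update_of_ne hnm] at hn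
      have h2 : ∏ n ∈ Finset.univ.erase m, (1 : Matrix ι ι ℂ) (i n) (j n) = 0 :=
        Finset.prod_eq_zero (Finset.mem_erase.2 ⟨hnm, Finset.mem_univ n⟩)
          (Matrix.one_apply_ne hn)
      rw [h2, mul_zero, zero_mul]
  rw [Finset.sum_congr rfl fun j _ => h1 j, ← Finset.sum_filter]
  symm
  refine Finset.sum_bij (fun c _ => Function.update i m c) ?_ ?_ ?_ ?_
  · intro c _
    rw [Finset.mem_filter]
    exact ⟨Finset.mem_univ _, by rw [Function.update_self]⟩
  · intro c _ c' _ h
    have := congrFun h m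
    rwa [Function.update_self, Function.update_self] at this
  · intro j hj
    exact ⟨j m, Finset.mem_univ _, (Finset.mem_filter.1 hj).2⟩
  · intro c _
    rw [Function.update_self]

/-- The action of the Lie algebra. -/
lemma altPi_act (hV : ∀ z ∈ h, ∀ v ∈ V, z *ᵥ v ∈ V) (k : ℕ) (z : Matrix ι ι ℂ) (hz : z ∈ h)
    (v : Fin k → V) : dkL (Fin k) z *ᵥ altPi V k v =
      ∑ j, altPi V k (Function.update v j ⟨z *ᵥ (v j : ι → ℂ), hV z hz _ (v j).2⟩) := by
  funext i
  obtain ⟨M, hM⟩ : ∃ M : Matrix (Fin k) (Fin k) ℂ, M = Matrix.of fun a b => (v a : ι → ℂ) (i b) :=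
    ⟨_, rfl⟩
  obtain ⟨M', hM'⟩ : ∃ M' : Matrix (Fin k) (Fin k) ℂ,
    M' = Matrix.of fun a b => (z *ᵥ (v a : ι → ℂ)) (i b) := ⟨_, rfl⟩
  have h1 : (dkL (Fin k) z *ᵥ altPi V k v) i = ∑ m, (M.updateCol m fun a => M' a m).det := by
    change (dk (Fin k) z *ᵥ altPi V k v) i = _
    rw [dk, Matrix.sum_mulVec, Finset.sum_apply]
    refine Finset.sum_congr rfl fun m _ => ?_
    rw [slot_mulVec]
    have h2 : ∀ c, altPi V k v (Function.update i m c) =
        (M.updateCol m fun a => (v a : ι → ℂ) c).det := by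
      intro c
      rw [altPi_apply]
      congr 1
      ext a b
      rw [Matrix.of_apply, Matrix.updateCol_apply]
      by_cases hb : b = m
      · subst hb; rw [Function.update_self, if_pos rfl]
      · rw [Function.update_of_ne hb, if_neg hb, hM, Matrix.of_apply]
    rw [Finset.sum_congr rfl fun c _ => by rw [h2]]
    have h3 : ∀ c, z (i m) c * (M.updateCol m fun a => (v a : ι → ℂ) c).det =
        Matrix.cramer M (z (i m) c • fun a => (v a : ι → ℂ) c) m := by
      intro c
      rw [map_smul, Pi.smul_apply, Matrix.cramer_apply, smul_eq_mul]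
    rw [Finset.sum_congr rfl fun c _ => h3 c, ← Finset.sum_apply, ← map_sum,
      Matrix.cramer_apply]
    congr 2
    funext a
    rw [Finset.sum_apply, hM', Matrix.of_apply, Matrix.mulVec, dotProduct]
    rfl
  have h2 : (∑ j, altPi V k (Function.update v j ⟨z *ᵥ (v j : ι → ℂ), hV z hz _ (v j).2⟩)) i =
      ∑ j, (M.updateRow j (M' j)).det := by
    rw [Finset.sum_apply]
    refine Finset.sum_congr rfl fun j _ => ?_
    rw [altPi_apply]
    congr 1
    ext a b
    rw [Matrix.of_apply, Matrix.updateRow_apply]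
    by_cases ha : a = j
    · subst ha; rw [Function.update_self, if_pos rfl, hM']; rfl
    · rw [Function.update_of_ne ha, if_neg ha, hM, Matrix.of_apply]
  rw [h1, h2]
  have h3 : ∀ m, (M.updateCol m fun a => M' a m).det = ∑ a, M.adjugate m a * M' a m := by
    intro m
    rw [← Matrix.cramer_apply, Matrix.cramer_eq_adjugate_mulVec]
    rfl
  have h4 : ∀ j, (M.updateRow j (M' j)).det = ∑ b, M.adjugate b j * M' j b := by
    intro j
    rw [← Matrix.cramer_transpose_apply, Matrix.cramer_eq_adjugate_mulVec,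
      ← Matrix.adjugate_transpose]
    rfl
  rw [Finset.sum_congr rfl fun m _ => h3 m, Finset.sum_congr rfl fun j _ => h4 j,
    Finset.sum_comm]

/-- The antisymmetric tensors of linearly independent vectors do not vanish. -/
lemma altPi_ne (k : ℕ) (v : Fin k → V) (hv : LinearIndependent ℂ v) : altPi V k v ≠ 0 := by
  classical
  intro h0
  have hv' : LinearIndependent ℂ fun a => (v a : ι → ℂ) :=
    hv.map' V.subtype (Submodule.ker_subtype V)
  -- dual functionals
  obtain ⟨φ, hφ⟩ : ∃ φ : Matrix ι (Fin k) ℂ, (Matrix.of fun a c => (v a : ι → ℂ) c) * φ = 1 := by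
    obtain ⟨L, hL⟩ := (Fintype.linearCombination ℂ (fun a => (v a : ι → ℂ))).exists_leftInverse_of_injective
      (by
        rw [LinearMap.ker_eq_bot]
        exact hv'.fintypeLinearCombination_injective)
    refine ⟨Matrix.of fun c b => L (Pi.single c 1) b, ?_⟩
    ext a b
    rw [Matrix.mul_apply]
    have h1 := congrFun (congrArg (fun f => f (Pi.single a 1)) hL) b
    change L (Fintype.linearCombination ℂ (fun a => (v a : ι → ℂ)) (Pi.single a 1)) b = _ at h1
    rw [Fintype.linearCombination_apply_single, one_smul] at h1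
    have h2 : (v a : ι → ℂ) = ∑ c, (v a : ι → ℂ) c • Pi.single (M := fun _ => ℂ) c (1 : ℂ) := by
      funext c
      rw [Finset.sum_apply, Finset.sum_eq_single c]
      · simp
      · intro b _ hb; simp [Pi.single_apply, Ne.symm hb]
      · intro h; exact absurd (Finset.mem_univ c) h
    have h3 : L (v a : ι → ℂ) b = ∑ c, (v a : ι → ℂ) c * L (Pi.single c 1) b := by
      conv_lhs => rw [h2]
      rw [map_sum, Finset.sum_apply]
      refine Finset.sum_congr rfl fun c _ => ?_
      rw [map_smul]
      rfl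
    have h4 : (LinearMap.id : (Fin k → ℂ) →ₗ[ℂ] (Fin k → ℂ)) (Pi.single a 1) b =
        (1 : Matrix (Fin k) (Fin k) ℂ) a b := by
      rw [LinearMap.id_apply, Matrix.one_apply, Pi.single_apply]
      simp only [eq_comm]
    rw [← h4]
    exact h3.symm.trans h1
  have h1 : (1 : ℂ) = ∑ i : Fin k → ι, (∏ b, φ (i b) b) * altPi V k v i := by
    have h2 : (1 : ℂ) = ((Matrix.of fun a c => (v a : ι → ℂ) c) * φ)ᵀ.det := by
      rw [hφ, Matrix.transpose_one, Matrix.det_one]
    have h3 : ((Matrix.of fun a c => (v a : ι → ℂ) c) * φ)ᵀ =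
        fun b => ∑ c, φ c b • fun a => (v a : ι → ℂ) c := by
      ext b a
      rw [Matrix.transpose_apply, Matrix.mul_apply, Finset.sum_apply]
      refine Finset.sum_congr rfl fun c _ => ?_
      rw [Matrix.of_apply, Pi.smul_apply, smul_eq_mul, mul_comm]
    rw [h2, h3]
    change (Matrix.detRowAlternating (n := Fin k) (R := ℂ)).toMultilinearMap
      (fun b => ∑ c, φ c b • fun a => (v a : ι → ℂ) c) = _
    rw [MultilinearMap.map_sum]
    refine Finset.sum_congr rfl fun i _ => ?_
    rw [MultilinearMap.map_smul_univ, smul_eq_mul, altPi_apply]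
    congr 1
    rw [← Matrix.det_transpose]
    rfl
  rw [h0] at h1
  simp at h1

end Run7.h226.Wts
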