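import Pool.Agent.Run7.h226.Lsm

/-!
# Arrays of letters
-/

set_option linter.unusedSectionVars false

open CategoryTheory AlgebraicGeometry TensorProduct

universe u

namespace Run7.h226.Geo

open Module Matrix
open Pool.Agent.H914 Pool.Agent.H914.VarClass Pool.Agent.H914.VarClass.Obj
  Pool.Agent.H914.WeilCohomology
open Pool.Agent.Y133.Half Pool.Agent.Y121.AH
open Pool.Agent.N996.BP Pool.Agent.N996.BP.Geo Pool.Agent.N996.FP Pool.Agent.N996.FP.Geo
open Run7.h226.Phs Run7.h226.Wts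

section Arr

variable {ι : Type} [Fintype ι] [DecidableEq ι] {deg : ι → ℕ} {o : ι} {R : Type*}
  {κ : Type} [Fintype κ]

/-- The extension of an array by zero. -/
def xA [Zero R] (v : (κ → Lt deg o) → R) : (κ → ι) → R :=
  fun w => if h : ∀ k, w k = o ∨ deg (w k) = 1 then v (fun k => ⟨w k, h k⟩) else 0

lemma xA_in [Zero R] (v : (κ → Lt deg o) → R) (w : κ → Lt deg o) :
    xA v (fun k => (w k).1) = v w := by
  rw [xA, dif_pos fun k => (w k).2]

lemma xA_out [Zero R] (v : (κ → Lt deg o) → R) {w : κ → ι}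
    (h : ¬ ∀ k, w k = o ∨ deg (w k) = 1) : xA v w = 0 := by
  rw [xA, dif_neg h]

lemma xA_inj [Zero R] {v v' : (κ → Lt deg o) → R} (h : xA v = xA v') : v = v' := by
  funext w
  rw [← xA_in v, h, xA_in]

lemma xA_add [AddMonoid R] (v v' : (κ → Lt deg o) → R) : xA (v + v') = xA v + xA v' := by
  funext w
  by_cases h : ∀ k, w k = o ∨ deg (w k) = 1
  · simp only [xA, dif_pos h, Pi.add_apply]
  · rw [Pi.add_apply, xA_out _ h, xA_out _ h, xA_out _ h, add_zero]

lemma xA_zero [Zero R] : xA (0 : (κ → Lt deg o) → R) = 0 := by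
  funext w
  by_cases h : ∀ k, w k = o ∨ deg (w k) = 1
  · simp only [xA, dif_pos h, Pi.zero_apply]
  · rw [xA_out _ h]; rfl

lemma xA_smul [MonoidWithZero R] (c : R) (v : (κ → Lt deg o) → R) : xA (c • v) = c • xA v := by
  funext w
  by_cases h : ∀ k, w k = o ∨ deg (w k) = 1
  · simp only [xA, dif_pos h, Pi.smul_apply]
  · rw [Pi.smul_apply, xA_out _ h, xA_out _ h, smul_zero]

lemma xA_sum [AddCommMonoid R] {α : Type*} (s : Finset α) (f : α → (κ → Lt deg o) → R) :
    xA (∑ i ∈ s, f i) = ∑ i ∈ s, xA (f i) := by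
  classical
  induction s using Finset.induction_on with
  | empty => rw [Finset.sum_empty, Finset.sum_empty, xA_zero]
  | insert a s ha ih => rw [Finset.sum_insert ha, Finset.sum_insert ha, xA_add, ih]

lemma sum_xA [DecidableEq κ] [Semiring R] (f : (κ → ι) → R) (v : (κ → Lt deg o) → R) :
    ∑ w, f w * xA v w = ∑ w : κ → Lt deg o, f (fun k => (w k).1) * v w := by
  classical
  symm
  refine Finset.sum_of_injOn (fun (w : κ → Lt deg o) => fun k => (w k).1) ?_ ?_ ?_ ?_
  · intro w _ w' _ h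
    funext k
    exact Subtype.ext (congrFun h k)
  · intro w _
    exact Finset.mem_coe.2 (Finset.mem_univ _)
  · intro w _ hw
    rw [xA_out, mul_zero]
    intro h
    exact hw ⟨fun k => ⟨w k, h k⟩, Finset.mem_coe.2 (Finset.mem_univ _), rfl⟩
  · intro w _
    rw [xA_in]

lemma ca_xA (v : (κ → Lt deg o) → ℚ) : ca (xA v) = xA (ca v) := by
  funext w
  by_cases h : ∀ k, w k = o ∨ deg (w k) = 1
  · simp only [ca, xA, dif_pos h]
  · rw [ca, xA_out _ h, xA_out _ h, Rat.cast_zero]

/-- The entries of a matrix which is compatible with the extension by zero. -/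
lemma ent_of {G : Matrix ι ι ℂ} {g : Matrix (Lt deg o) (Lt deg o) ℂ}
    (h : ∀ v : Lt deg o → ℂ, G *ᵥ ext v = ext (g *ᵥ v)) (i : ι) (j : Lt deg o) :
    G i j.1 = if hi : i = o ∨ deg i = 1 then g ⟨i, hi⟩ j else 0 := by
  have h1 := congrFun (h (Pi.single j 1)) i
  have h2 : ext (Pi.single j 1 : Lt deg o → ℂ) = Pi.single j.1 1 := by
    funext l
    by_cases hl : l = o ∨ deg l = 1
    · rw [ext, dif_pos hl, Pi.single_apply, Pi.single_apply]
      by_cases h3 : l = j.1
      · rw [if_pos h3, if_pos (Subtype.ext h3)]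
      · rw [if_neg h3, if_neg fun h' => h3 (congrArg Subtype.val h')]
    · rw [ext_out _ hl, Pi.single_apply, if_neg]
      rintro rfl
      exact hl j.2
  rw [h2, Matrix.mulVec_single_one, Matrix.mulVec_single_one] at h1
  refine h1.trans ?_
  rfl

lemma kp_xA [DecidableEq κ] {G : Matrix ι ι ℂ} {g : Matrix (Lt deg o) (Lt deg o) ℂ}
    (h : ∀ v : Lt deg o → ℂ, G *ᵥ ext v = ext (g *ᵥ v)) (v : (κ → Lt deg o) → ℂ) :
    kp κ G *ᵥ xA v = xA (kp κ g *ᵥ v) := by
  funext w
  rw [Matrix.mulVec, dotProduct, sum_xA]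
  by_cases hw : ∀ k, w k = o ∨ deg (w k) = 1
  · simp only [xA, dif_pos hw]
    rw [Matrix.mulVec, dotProduct]
    refine Finset.sum_congr rfl fun w' _ => ?_
    congr 1
    rw [kp_apply, kp_apply]
    refine Finset.prod_congr rfl fun k _ => ?_
    rw [ent_of h, dif_pos (hw k)]
  · rw [xA_out _ hw]
    obtain ⟨l, hl⟩ := not_forall.1 hw
    refine Finset.sum_eq_zero fun w' _ => ?_
    rw [kp_apply, Finset.prod_eq_zero (Finset.mem_univ l), zero_mul]
    rw [ent_of h, dif_neg hl]

lemma rei_xA {l : Type} [Fintype l] [Zero R] (σ : κ ≃ l) (v : (κ → Lt deg o) → R) :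
    rei σ (xA v) = xA (rei σ v) := by
  funext w
  rw [rei]
  by_cases h : ∀ k, w k = o ∨ deg (w k) = 1
  · have h' : ∀ k, (w ∘ σ) k = o ∨ deg ((w ∘ σ) k) = 1 := fun k => h (σ k)
    simp only [xA, dif_pos h, dif_pos h', rei]
    rfl
  · have h' : ¬ ∀ k, (w ∘ σ) k = o ∨ deg ((w ∘ σ) k) = 1 := by
      intro h1
      apply h
      intro k
      have h2 := h1 (σ.symm k)
      rw [Function.comp_apply, σ.apply_symm_apply] at h2
      exact h2
    rw [xA_out _ h, xA_out _ h']

lemma tens_xA {l : Type} [Fintype l] [CommRing R] (a : (κ → Lt deg o) → R)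
    (b : (l → Lt deg o) → R) : tens (xA a) (xA b) = xA (tens a b) := by
  funext w
  rw [tens]
  by_cases h : ∀ k, w k = o ∨ deg (w k) = 1
  · have h1 : ∀ k, (w ∘ Sum.inl) k = o ∨ deg ((w ∘ Sum.inl) k) = 1 := fun k => h (Sum.inl k)
    have h2 : ∀ k, (w ∘ Sum.inr) k = o ∨ deg ((w ∘ Sum.inr) k) = 1 := fun k => h (Sum.inr k)
    simp only [xA, dif_pos h, dif_pos h1, dif_pos h2, tens]
    rfl
  · rw [xA_out _ h]
    by_cases h1 : ∀ k, (w ∘ Sum.inl) k = o ∨ deg ((w ∘ Sum.inl) k) = 1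
    · have h2 : ¬ ∀ k, (w ∘ Sum.inr) k = o ∨ deg ((w ∘ Sum.inr) k) = 1 := by
        intro h2
        apply h
        rintro (k | k)
        · exact h1 k
        · exact h2 k
      rw [xA_out _ h2, mul_zero]
    · rw [xA_out _ h1, zero_mul]

end Arr

section Part

variable {ι : Type} [Fintype ι] [DecidableEq ι] {deg : ι → ℕ} {o : ι} {p : ι → Fin 2}

lemma part_xA {n : ℕ} (ε : Fin (n + 1) → Fin 2) (v : (Fin (n + 1) → Lt deg o) → ℚ) :
    part p ε (xA v) = xA (part (fun j : Lt deg o => p j.1) ε v) := by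
  funext w
  by_cases h : ∀ k, w k = o ∨ deg (w k) = 1
  · rw [part, xA, xA, dif_pos h, dif_pos h, part]
    rfl
  · rw [part, xA_out _ h, xA_out _ h, ite_self]

lemma part_add {n : ℕ} (ε : Fin (n + 1) → Fin 2) (v v' : (Fin (n + 1) → ι) → ℚ) :
    part p ε (v + v') = part p ε v + part p ε v' := by
  funext w
  rw [Pi.add_apply, part, part, part, Pi.add_apply]
  split_ifs
  · rfl
  · rw [add_zero]

lemma part_smul {n : ℕ} (ε : Fin (n + 1) → Fin 2) (r : ℚ) (v : (Fin (n + 1) → ι) → ℚ) :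
    part p ε (r • v) = r • part p ε v := by
  funext w
  rw [Pi.smul_apply, part, part, Pi.smul_apply]
  split_ifs
  · rfl
  · rw [smul_zero]

lemma part_zero {n : ℕ} (ε : Fin (n + 1) → Fin 2) :
    part p ε (0 : (Fin (n + 1) → ι) → ℚ) = 0 := by
  funext w
  rw [part, Pi.zero_apply, ite_self]

lemma part_rei {n : ℕ} (σ : Equiv.Perm (Fin (n + 1))) (ε : Fin (n + 1) → Fin 2)
    (v : (Fin (n + 1) → ι) → ℚ) : part p ε (rei σ v) = rei σ (part p (ε ∘ σ) v) := by
  funext w
  rw [part, rei, rei, part]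
  refine if_congr ?_ rfl rfl
  constructor
  · intro h; rw [← h]; rfl
  · intro h
    funext k
    have h1 := congrFun h (σ.symm k)
    simpa using h1

lemma part_tens {n m : ℕ} (ε : Fin (n + m + 1 + 1) → Fin 2) (a : (Fin (n + 1) → ι) → ℚ)
    (b : (Fin (m + 1) → ι) → ℚ) : part p ε (rei (ce n m) (tens a b)) =
      rei (ce n m) (tens (part p (fun i => ε (ce n m (Sum.inl i))) a)
        (part p (fun i => ε (ce n m (Sum.inr i))) b)) := by
  funext w
  rw [part, rei, rei, tens, tens, part, part]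
  by_cases h : p ∘ w = ε
  · rw [if_pos h, if_pos, if_pos]
    · rw [← h]; rfl
    · rw [← h]; rfl
  · rw [if_neg h]
    by_cases h1 : p ∘ (w ∘ ce n m) ∘ Sum.inl = fun i => ε (ce n m (Sum.inl i))
    · rw [if_neg (c := p ∘ (w ∘ ce n m) ∘ Sum.inr = fun i => ε (ce n m (Sum.inr i))), mul_zero]
      · intro h2
        apply h
        funext k
        obtain ⟨s, rfl⟩ := (ce n m).surjective k
        rcases s with s | s
        · exact congrFun h1 s
        · exact congrFun h2 s
    · rw [if_neg h1, zero_mul]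

lemma sum4 {α β M : Type} [Fintype α] [Fintype β] [AddCommMonoid M] (f : α → α → β → β → M) :
    ∑ b, ∑ c, ∑ x, ∑ y, f b c x y = ∑ x, ∑ y, ∑ b, ∑ c, f b c x y :=
  calc ∑ b, ∑ c, ∑ x, ∑ y, f b c x y = ∑ b, ∑ x, ∑ c, ∑ y, f b c x y :=
        Finset.sum_congr rfl fun _ _ => Finset.sum_comm
    _ = ∑ x, ∑ b, ∑ c, ∑ y, f b c x y := Finset.sum_comm
    _ = ∑ x, ∑ b, ∑ y, ∑ c, f b c x y :=
        Finset.sum_congr rfl fun x _ => Finset.sum_congr rfl fun _ _ => Finset.sum_comm
    _ = ∑ x, ∑ y, ∑ b, ∑ c, f b c x y := Finset.sum_congr rfl fun _ _ => Finset.sum_comm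

lemma part_ctr {n : ℕ} (ε : Fin (n + 1) → Fin 2) (Q : Matrix ι ι ℚ)
    (a : (Fin (n + 2 + 1) → ι) → ℚ) : part p ε (ctr Q a) =
      ∑ b : Fin 2, ∑ c : Fin 2, ctr Q (part p (sn ε b c) a) := by
  funext w
  rw [Finset.sum_apply]
  simp only [Finset.sum_apply, ctr, part]
  have h1 : ∀ x y, (p ∘ sn w x y) = sn (p ∘ w) (p x) (p y) := by
    intro x y
    funext k
    rw [Function.comp_apply]
    refine Fin.lastCases ?_ (fun k => ?_) k
    · simp [sn]
    · refine Fin.lastCases ?_ (fun k => ?_) k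
      · simp [sn]
      · simp [sn]
  have h2 : ∀ (b c b' c' : Fin 2), sn (p ∘ w) b c = sn ε b' c' ↔
      (p ∘ w = ε ∧ b = b' ∧ c = c') := by
    intro b c b' c'
    constructor
    · intro h
      refine ⟨?_, ?_, ?_⟩
      · funext k
        have h3 := congrFun h k.castSucc.castSucc
        simpa [sn] using h3
      · have h3 := congrFun h (Fin.last (n + 1)).castSucc
        simpa [sn] using h3
      · have h3 := congrFun h (Fin.last (n + 2))
        simpa [sn] using h3
    · rintro ⟨h3, rfl, rfl⟩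
      rw [h3]
  simp only [h1, h2]
  by_cases h : p ∘ w = ε
  · simp only [h, true_and, if_true]
    have h3 : ∀ x y, ∑ b : Fin 2, ∑ c : Fin 2, Q x y * (if p x = b ∧ p y = c then a (sn w x y) else 0)
        = Q x y * a (sn w x y) := by
      intro x y
      rw [Finset.sum_eq_single (p x), Finset.sum_eq_single (p y), if_pos ⟨rfl, rfl⟩]
      · intro c _ hc
        rw [if_neg fun h => hc h.2.symm, mul_zero]
      · intro h; exact absurd (Finset.mem_univ _) h
      · intro b _ hb
        refine Finset.sum_eq_zero fun c _ => ?_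
        rw [if_neg fun h => hb h.1.symm, mul_zero]
      · intro h; exact absurd (Finset.mem_univ _) h
    rw [sum4]
    exact Finset.sum_congr rfl fun x _ => Finset.sum_congr rfl fun y _ => (h3 x y).symm
  · simp only [h, false_and, if_false, mul_zero, Finset.sum_const_zero]

end Part

end Run7.h226.Geo
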