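import Pool.Agent.N996.FP.Defs

/-!
# Generation by the Hodge classes of small codimension: definitions
-/

open CategoryTheory AlgebraicGeometry

universe u

namespace Run7.h226

open Pool.Agent.H914 Pool.Agent.H914.VarClass Pool.Agent.H914.VarClass.Obj
  Pool.Agent.H914.WeilCohomology
open Pool.Agent.Y121.AHS
open Pool.Agent.Y133.Half (pw)
open Pool.Agent.N996.FP

/-- Every endomorphism of the rational Hodge structure `V` of weight one with decomposition `pq` is
the multiplication by an element of the field `K`. -/
def ScalarEnds {K A : Type} [Field K] [Algebra K ℂ] [Ring A] [Algebra K A] (V : Submodule K A)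
    (pq : ℤ → ℤ → Submodule ℂ (Ext K ℂ A)) : Prop :=
  ∀ f : A →ₗ[K] A, IsEnd V pq f → ∃ r : K, ∀ c ∈ V, f c = r • c

variable {k : Type u} [Field k] {𝒱 : VarClass k} {ops : CycleOps 𝒱}

/-- Every endomorphism of the rational Hodge structure `H^1(X)` is the multiplication by a rational
number. (For an abelian variety: the ring of its endomorphisms is the ring of integers.) -/
def OnlyScalars (T : HodgeTheory ops) (X : 𝒱.Obj) : Prop :=
  ScalarEnds (T.W.gr X 1) (T.pq X)

/-- The classes on the powers of `X` which are generated by the Hodge classes of codimension at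
most `d` on `X ^ (N + 1)`: the smallest system of classes which contains these classes and is
stable under linear combinations and cup products, pull-backs along coordinate maps, and
push-forwards along the projections `X ^ (n + 2) → X ^ (n + 1)` that forget the last factor. -/
inductive GeneratedUpTo (T : HodgeTheory ops) (X : 𝒱.Obj) (N d : ℕ) :
    ∀ n : ℕ, T.W.H (pw X n) → Prop
  | hodge {j : ℕ} {c : T.W.H (pw X N)} : j ≤ d → IsHodge T (pw X N) j c →
      GeneratedUpTo T X N d N c
  | add {n : ℕ} {c c' : T.W.H (pw X n)} : GeneratedUpTo T X N d n c →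
      GeneratedUpTo T X N d n c' → GeneratedUpTo T X N d n (c + c')
  | smul {n : ℕ} (r : T.W.K) {c : T.W.H (pw X n)} : GeneratedUpTo T X N d n c →
      GeneratedUpTo T X N d n (r • c)
  | mul {n : ℕ} {c c' : T.W.H (pw X n)} : GeneratedUpTo T X N d n c →
      GeneratedUpTo T X N d n c' → GeneratedUpTo T X N d n (c * c')
  | pull {n m : ℕ} (f : pw X m ⟶ pw X n) {c : T.W.H (pw X n)} : IsCoordinateMap f →
      GeneratedUpTo T X N d n c → GeneratedUpTo T X N d m (pull T.W f c)
  | push {n : ℕ} {c : T.W.H (pw X (n + 1))} : GeneratedUpTo T X N d (n + 1) c →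
      GeneratedUpTo T X N d n (push T.W (fst (pw X n) X) c)

/-- The Hodge conjecture in codimension at most `d` for `X`: every Hodge class of codimension at
most `d` on `X` is the class of an algebraic cycle (with rational coefficients). -/
def HodgeConjectureUpTo (T : HodgeTheory ops) (X : 𝒱.Obj) (d : ℕ) : Prop :=
  ∀ j ≤ d, ∀ c : T.W.H X, IsHodge T X j c → ∃ z, X.IsCyc j z ∧ T.W.cl X z = c

/-- The number `n` is an odd power of the central binomial coefficient `C(4k + 2, 2k + 1)` for some
`k ≥ 1`: `20, 252, 3432, 8000, 48620, …`. -/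
def IsExceptional (n : ℕ) : Prop :=
  ∃ k s : ℕ, 1 ≤ k ∧ Odd s ∧ n = Nat.choose (4 * k + 2) (2 * k + 1) ^ s

end Run7.h226
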