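import Mathlib

/-!
# Weights of a minuscule representation and automorphisms: the combinatorial part

`P` is a finite set of weights on which the simple roots in `B` (connected) take only the values
`-1, 0, 1`, `S` is the highest weight and `α` is an isometry which permutes the weights and the
simple roots. If `α` fixes the highest weights of the second and the third exterior power, then
either `α` fixes all weights or the representation looks like the vector representation of an even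
orthogonal group.
-/

namespace Run7.h226.Comb

variable {E : Type*} [AddCommGroup E] [Module ℝ E]

/-- The data. -/
structure WD (b : LinearMap.BilinForm ℝ E) (f : E →ₗ[ℝ] ℝ) (B P : Set E) (α : E →ₗ[ℝ] E)
    (S : E) : Prop where
  symm : ∀ u v, b u v = b v u
  pos : ∀ v, v ≠ 0 → 0 < b v v
  iso : ∀ u v, b (α u) (α v) = b u v
  aP : ∀ T ∈ P, α T ∈ P
  aB : ∀ β ∈ B, α β ∈ B
  aB' : ∀ ε ∈ B, ∃ ε₁ ∈ B, α ε₁ = ε
  obt : ∀ β ∈ B, ∀ γ ∈ B, β ≠ γ → b β γ ≤ 0
  fpos : ∀ β ∈ B, 0 < f β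
  tri : ∀ T ∈ P, ∀ β ∈ B, 2 * b T β = b β β ∨ 2 * b T β = 0 ∨ 2 * b T β = - b β β
  dn : ∀ T ∈ P, ∀ β ∈ B, 2 * b T β = b β β ↔ T - β ∈ P
  up : ∀ T ∈ P, ∀ β ∈ B, 2 * b T β = - b β β ↔ T + β ∈ P
  fin : P.Finite
  SP : S ∈ P
  aS : α S = S
  ex : ∀ T ∈ P, T ≠ S → ∃ β ∈ B, T + β ∈ P
  top : ∀ β ∈ B, S + β ∉ P
  w2 : ∀ β ∈ B, S - β ∈ P → α (S - β) = S - β
  con : ∀ D : Set E, D ⊆ B → D.Nonempty → (∀ γ ∈ D, ∀ ε ∈ B, b γ ε ≠ 0 → ε ∈ D) → B ⊆ D

variable {b : LinearMap.BilinForm ℝ E} {f : E →ₗ[ℝ] ℝ} {B P : Set E} {α : E →ₗ[ℝ] E} {S : E}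

namespace WD

variable (h : WD b f B P α S)

include h

lemma inj {u v : E} (huv : α u = α v) : u = v := by
  by_contra hne
  have h1 := h.pos _ (sub_ne_zero.2 hne)
  rw [← h.iso, map_sub, huv, sub_self, map_zero] at h1
  exact lt_irrefl _ h1

lemma bpos {β : E} (hβ : β ∈ B) : 0 < b β β := by
  refine h.pos _ ?_
  rintro rfl
  have := h.fpos _ hβ
  rw [map_zero] at this
  exact lt_irrefl _ this

/-- A vector with positive value of `f` and nonpositive square does not exist. -/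
lemma no {w : E} (hf : 0 < f w) (hw : b w w ≤ 0) : False := by
  have h0 : w ≠ 0 := by
    rintro rfl
    rw [map_zero] at hf
    exact lt_irrefl _ hf
  exact absurd (h.pos _ h0) (not_lt.2 hw)

/-- The strict Cauchy-Schwarz inequality. -/
lemma cs {s d : E} (hs : 0 < f s) (hd : 0 < f d) (hsd : b s d ≤ 0) :
    (b s d) ^ 2 < b s s * b d d := by
  have hd0 : d ≠ 0 := by
    rintro rfl
    rw [map_zero] at hd
    exact lt_irrefl _ hd
  have hdd := h.pos _ hd0
  obtain ⟨w, hw⟩ : ∃ w, w = s - (b s d / b d d) • d := ⟨_, rfl⟩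
  have hfw : 0 < f w := by
    rw [hw, map_sub, map_smul, smul_eq_mul]
    have : b s d / b d d ≤ 0 := div_nonpos_of_nonpos_of_nonneg hsd hdd.le
    nlinarith
  have hw0 : w ≠ 0 := by
    intro h0
    rw [h0, map_zero] at hfw
    exact lt_irrefl _ hfw
  have h1 := h.pos _ hw0
  have h2 : b w w = b s s - (b s d) ^ 2 / b d d := by
    rw [hw]
    simp only [map_sub, map_smul, LinearMap.sub_apply, LinearMap.smul_apply, smul_eq_mul]
    rw [h.symm d s]
    field_simp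
    ring
  rw [h2, sub_pos, div_lt_iff₀ hdd] at h1
  exact h1

end WD

/-- The vector `s`. -/
noncomputable def sv (β β' : E) (D : Finset E) : E := β + β' + (2 : ℝ) • ∑ γ ∈ D, γ

lemma b_sv (β β' : E) (D : Finset E) (v : E) :
    b (sv β β' D) v = b β v + b β' v + 2 * ∑ γ ∈ D, b γ v := by
  rw [sv, map_add, map_add, map_smul, map_sum, LinearMap.add_apply, LinearMap.add_apply,
    LinearMap.smul_apply, LinearMap.sum_apply, smul_eq_mul]

lemma sv_insert {β β' δ : E} {D : Finset E} [DecidableEq E] (hδ : δ ∉ D) :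
    sv β β' (insert δ D) = sv β β' D + (2 : ℝ) • δ := by
  rw [sv, sv, Finset.sum_insert hδ, smul_add]
  abel

/-- The starting point of the chain. -/
structure Ctx (b : LinearMap.BilinForm ℝ E) (f : E →ₗ[ℝ] ℝ) (B P : Set E) (α : E →ₗ[ℝ] E)
    (c : ℝ) (T₀ β β' : E) : Prop where
  c0 : 0 < c
  T0P : T₀ ∈ P
  βB : β ∈ B
  βB' : β' ∈ B
  ne : β ≠ β'
  bb : b β β = 2 * c
  bb' : b β' β' = 2 * c
  bo : b β β' = 0
  p1 : b T₀ β = c
  p2 : b T₀ β' = c
  aβ : α β = β'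
  fix : ∀ T ∈ P, f T₀ ≤ f T → α T = T
  uniq0 : ∀ γ ∈ B, T₀ - β + γ ∈ P → γ = β

/-- The chain from the weight `T₀`. -/
structure Chain (b : LinearMap.BilinForm ℝ E) (f : E →ₗ[ℝ] ℝ) (B P : Set E) (α : E →ₗ[ℝ] E)
    (c : ℝ) (T₀ β β' δ₁ U d : E) (D : Finset E) : Prop where
  sub : ∀ γ ∈ D, γ ∈ B
  nb : β ∉ D
  nb' : β' ∉ D
  dD : d ∈ D
  UP : U ∈ P
  Ueq : U = T₀ + ∑ γ ∈ D, γ
  nm : ∀ γ ∈ D, b γ γ = 2 * c
  s0 : ∀ γ ∈ D, γ ≠ d → b (sv β β' D) γ = 0
  sd : b (sv β β' D) d = 2 * c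
  sb : b (sv β β' D) β = 0
  sb' : b (sv β β' D) β' = 0
  ss : b (sv β β' D) (sv β β' D) = 4 * c
  u0 : ∀ γ ∈ D, b ((2 : ℝ) • T₀ - β - β') γ = 0
  mir : U - sv β β' D ∈ P
  uniq : ∀ γ ∈ B, U - d + γ ∈ P → γ = d
  fU : f T₀ ≤ f U
  fixD : ∀ γ ∈ D, α γ = γ
  d1 : δ₁ ∈ D
  d1b : b β δ₁ = - c
  d1b' : b β' δ₁ = - c
  d1T : b T₀ δ₁ = - c
  wt : ∀ γ ∈ D, ∃ W ∈ P, W + γ ∈ P
  two : D = {δ₁} ∨ ∃ δ₂ ∈ D, b δ₁ δ₂ = - c ∧ b T₀ δ₂ = 0 ∧ b β δ₂ = 0 ∧ b β' δ₂ = 0

namespace Chain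

variable {c : ℝ} {T₀ β β' δ₁ U d : E} {D : Finset E}

lemma two_U (K : Chain b f B P α c T₀ β β' δ₁ U d D) (v : E) :
    2 * b U v = b ((2 : ℝ) • T₀ - β - β') v + b (sv β β' D) v := by
  rw [K.Ueq, sv]
  simp only [map_add, map_sub, map_smul, LinearMap.add_apply, LinearMap.sub_apply,
    LinearMap.smul_apply, smul_eq_mul]
  ring

/-- The properties of the next simple root. -/
lemma key (h : WD b f B P α S) (C : Ctx b f B P α c T₀ β β')
    (K : Chain b f B P α c T₀ β β' δ₁ U d D) {δ : E} (hδ : δ ∈ B) (hU : U + δ ∈ P) :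
    b δ δ = 2 * c ∧ b d δ = - c ∧ (∀ γ ∈ D, γ ≠ d → b γ δ = 0) ∧ b β δ = 0 ∧ b β' δ = 0 ∧
      δ ∉ D ∧ δ ≠ β ∧ δ ≠ β' := by
  classical
  have c0 := C.c0
  have hδδ := h.bpos hδ
  have e0 : 2 * b U δ = - b δ δ := (h.up U K.UP δ hδ).2 hU
  have ud := K.u0 d K.dD
  have nd := K.nm d K.dD
  have e1 : 2 * b U d = 2 * c := by rw [K.two_U, ud, K.sd]; ring
  have hdB := K.sub d K.dD
  have hUd : U - d ∈ P := (h.dn U K.UP d hdB).1 (by rw [e1, nd])
  have hδd : δ ≠ d := by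
    rintro rfl
    linarith
  have hδD : δ ∉ D := by
    intro hm
    have e2 : 2 * b U δ = 0 := by rw [K.two_U, K.u0 δ hm, K.s0 δ hm hδd]; ring
    linarith
  have uβ : b ((2 : ℝ) • T₀ - β - β') β = 0 := by
    simp only [map_sub, map_smul, LinearMap.sub_apply, LinearMap.smul_apply, smul_eq_mul]
    rw [C.p1, C.bb, h.symm β' β, C.bo]; ring
  have uβ' : b ((2 : ℝ) • T₀ - β - β') β' = 0 := by
    simp only [map_sub, map_smul, LinearMap.sub_apply, LinearMap.smul_apply, smul_eq_mul]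
    rw [C.p2, C.bb', C.bo]; ring
  have eβ : 2 * b U β = 0 := by rw [K.two_U, uβ, K.sb]; ring
  have eβ' : 2 * b U β' = 0 := by rw [K.two_U, uβ', K.sb']; ring
  have hδβ : δ ≠ β := by rintro rfl; linarith
  have hδβ' : δ ≠ β' := by rintro rfl; linarith
  have e3 : ¬ 2 * b (U - d) δ = - b δ δ := by
    intro h1
    exact hδd (K.uniq δ hδ ((h.up _ hUd δ hδ).1 h1))
  have e4 : b (U - d) δ = b U δ - b d δ := by rw [map_sub, LinearMap.sub_apply]
  have hdδ : b d δ ≤ 0 := h.obt _ hdB _ hδ (Ne.symm hδd)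
  have hle : ∀ γ ∈ D, b γ δ ≤ 0 := fun γ hγ => h.obt _ (K.sub γ hγ) _ hδ (by
    rintro rfl; exact hδD hγ)
  have hβδ : b β δ ≤ 0 := h.obt _ C.βB _ hδ (Ne.symm hδβ)
  have hβδ' : b β' δ ≤ 0 := h.obt _ C.βB' _ hδ (Ne.symm hδβ')
  have hsum : ∑ γ ∈ D, b γ δ = b d δ + ∑ γ ∈ D.erase d, b γ δ :=
    (Finset.add_sum_erase D (fun γ => b γ δ) K.dD).symm
  have herase : ∑ γ ∈ D.erase d, b γ δ ≤ 0 :=
    Finset.sum_nonpos fun γ hγ => hle γ (Finset.mem_of_mem_erase hγ)
  have hsδ : b (sv β β' D) δ = b β δ + b β' δ + 2 * (b d δ + ∑ γ ∈ D.erase d, b γ δ) := by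
    rw [b_sv, hsum]
  have hfs : 0 < f (sv β β' D) := by
    rw [sv, map_add, map_add, map_smul, map_sum, smul_eq_mul]
    have h1 := h.fpos _ C.βB
    have h2 := h.fpos _ C.βB'
    have h3 : 0 ≤ ∑ γ ∈ D, f γ := Finset.sum_nonneg fun γ hγ => (h.fpos γ (K.sub γ hγ)).le
    linarith
  have hcs := h.cs hfs (h.fpos _ hδ) (show b (sv β β' D) δ ≤ 0 by rw [hsδ]; linarith)
  rw [K.ss] at hcs
  have e5 : b (U + δ) d = b U d + b δ d := by rw [map_add, LinearMap.add_apply]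
  have e6 := h.tri _ hU d hdB
  rw [e5, nd, h.symm δ d] at e6
  have e7 := h.tri _ hUd δ hδ
  rw [e4] at e7 e3
  -- the main case distinction
  have main : b δ δ = 2 * c ∧ b d δ = - c := by
    rcases e7 with e7 | e7 | e7
    · -- `m = 2`
      exfalso
      have m2 : 2 * b d δ = - 2 * b δ δ := by linarith
      rcases e6 with e6 | e6 | e6
      · linarith
      · have n1 : b d δ = - c := by linarith
        have n2 : b δ δ = c := by linarith
        have n3 : b (sv β β' D) δ ≤ - 2 * c := by rw [hsδ]; linarith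
        rw [n2] at hcs
        nlinarith
      · have n1 : b d δ = - 2 * c := by linarith
        have n2 : b δ δ = 2 * c := by linarith
        have n3 : b (sv β β' D) δ ≤ - 4 * c := by rw [hsδ]; linarith
        rw [n2] at hcs
        nlinarith
    · have m1 : 2 * b d δ = - b δ δ := by linarith
      rcases e6 with e6 | e6 | e6
      · linarith
      · exact ⟨by linarith, by linarith⟩
      · exfalso
        have n1 : b d δ = - 2 * c := by linarith
        have n2 : b δ δ = 4 * c := by linarith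
        have n3 : b (sv β β' D) δ ≤ - 4 * c := by rw [hsδ]; linarith
        rw [n2] at hcs
        nlinarith
    · exact absurd e7 e3
  obtain ⟨m1, m2⟩ := main
  rw [m1] at hcs
  refine ⟨m1, m2, ?_, ?_, ?_, hδD, hδβ, hδβ'⟩
  · intro γ hγ hγd
    have g1 : 2 * b U γ = 0 := by rw [K.two_U, K.u0 γ hγ, K.s0 γ hγ hγd]; ring
    have g2 := h.tri _ hU γ (K.sub γ hγ)
    rw [map_add, LinearMap.add_apply, K.nm γ hγ, h.symm δ γ] at g2
    have g3 := hle γ hγ
    have g4 : ∑ γ ∈ D.erase d, b γ δ ≤ b γ δ := by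
      have hm : γ ∈ D.erase d := Finset.mem_erase.2 ⟨hγd, hγ⟩
      rw [← Finset.add_sum_erase _ (fun γ => b γ δ) hm]
      have : ∑ x ∈ (D.erase d).erase γ, b x δ ≤ 0 := Finset.sum_nonpos fun x hx =>
        hle x (Finset.mem_of_mem_erase (Finset.mem_of_mem_erase hx))
      linarith
    rcases g2 with g2 | g2 | g2
    · linarith
    · linarith
    · exfalso
      have n3 : b (sv β β' D) δ ≤ - 4 * c := by rw [hsδ]; linarith
      nlinarith
  · have g2 := h.tri _ hU β C.βB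
    rw [map_add, LinearMap.add_apply, C.bb, h.symm δ β] at g2
    rcases g2 with g2 | g2 | g2
    · linarith
    · linarith
    · exfalso
      have n3 : b (sv β β' D) δ ≤ - 3 * c := by rw [hsδ]; linarith
      nlinarith
  · have g2 := h.tri _ hU β' C.βB'
    rw [map_add, LinearMap.add_apply, C.bb', h.symm δ β'] at g2
    rcases g2 with g2 | g2 | g2
    · linarith
    · linarith
    · exfalso
      have n3 : b (sv β β' D) δ ≤ - 3 * c := by rw [hsδ]; linarith
      nlinarith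

lemma sum_key (h : WD b f B P α S) (C : Ctx b f B P α c T₀ β β')
    (K : Chain b f B P α c T₀ β β' δ₁ U d D) {δ : E} (hδ : δ ∈ B) (hU : U + δ ∈ P) :
    b (sv β β' D) δ = - 2 * c := by
  classical
  obtain ⟨m1, m2, m3, m4, m5, m6, m7, m8⟩ := K.key h C hδ hU
  rw [b_sv, m4, m5, ← Finset.add_sum_erase D (fun γ => b γ δ) K.dD, m2,
    Finset.sum_eq_zero fun γ hγ => m3 γ (Finset.mem_of_mem_erase hγ)
      (Finset.ne_of_mem_erase hγ)]
  ring

lemma fs_pos (h : WD b f B P α S) (C : Ctx b f B P α c T₀ β β')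
    (K : Chain b f B P α c T₀ β β' δ₁ U d D) : 0 < f (sv β β' D) := by
  rw [sv, map_add, map_add, map_smul, map_sum, smul_eq_mul]
  have h1 := h.fpos _ C.βB
  have h2 := h.fpos _ C.βB'
  have h3 : 0 ≤ ∑ γ ∈ D, f γ := Finset.sum_nonneg fun γ hγ => (h.fpos γ (K.sub γ hγ)).le
  linarith

/-- The next step of the chain. -/
lemma step [DecidableEq E] (h : WD b f B P α S) (C : Ctx b f B P α c T₀ β β')
    (K : Chain b f B P α c T₀ β β' δ₁ U d D) {δ : E} (hδ : δ ∈ B) (hU : U + δ ∈ P) :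
    Chain b f B P α c T₀ β β' δ₁ (U + δ) δ (insert δ D) := by
  obtain ⟨m1, m2, m3, m4, m5, m6, m7, m8⟩ := K.key h C hδ hU
  have hs := K.sum_key h C hδ hU
  have c0 := C.c0
  have e0 : 2 * b U δ = - b δ δ := (h.up U K.UP δ hδ).2 hU
  have hf := h.fpos δ hδ
  have ud : b ((2 : ℝ) • T₀ - β - β') δ = 0 := by
    have h1 := K.two_U δ
    rw [hs] at h1
    linarith
  refine ⟨?_, ?_, ?_, Finset.mem_insert_self _ _, hU, ?_, ?_, ?_, ?_, ?_, ?_, ?_, ?_, ?_, ?_,
    ?_, ?_, Finset.mem_insert_of_mem K.d1, K.d1b, K.d1b', K.d1T, ?_, ?_⟩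
  · intro γ hγ
    rcases Finset.mem_insert.1 hγ with rfl | hγ
    · exact hδ
    · exact K.sub γ hγ
  · intro hm
    rcases Finset.mem_insert.1 hm with h1 | h1
    · exact m7 h1.symm
    · exact K.nb h1
  · intro hm
    rcases Finset.mem_insert.1 hm with h1 | h1
    · exact m8 h1.symm
    · exact K.nb' h1
  · rw [Finset.sum_insert m6, K.Ueq]; abel
  · intro γ hγ
    rcases Finset.mem_insert.1 hγ with rfl | hγ
    · exact m1
    · exact K.nm γ hγ
  · intro γ hγ hγδ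
    rw [sv_insert m6, map_add, map_smul, LinearMap.add_apply, LinearMap.smul_apply, smul_eq_mul]
    have hγ' : γ ∈ D := (Finset.mem_insert.1 hγ).resolve_left hγδ
    by_cases hγd : γ = d
    · rw [hγd, K.sd, h.symm δ d, m2]; ring
    · rw [K.s0 γ hγ' hγd, h.symm δ γ, m3 γ hγ' hγd]; ring
  · rw [sv_insert m6, map_add, map_smul, LinearMap.add_apply, LinearMap.smul_apply, smul_eq_mul,
      hs, m1]; ring
  · rw [sv_insert m6, map_add, map_smul, LinearMap.add_apply, LinearMap.smul_apply, smul_eq_mul,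
      K.sb, h.symm δ β, m4]; ring
  · rw [sv_insert m6, map_add, map_smul, LinearMap.add_apply, LinearMap.smul_apply, smul_eq_mul,
      K.sb', h.symm δ β', m5]; ring
  · rw [sv_insert m6]
    simp only [map_add, map_smul, LinearMap.add_apply, LinearMap.smul_apply, smul_eq_mul]
    rw [K.ss, h.symm δ (sv β β' D), hs, m1]; ring
  · intro γ hγ
    rcases Finset.mem_insert.1 hγ with rfl | hγ
    · exact ud
    · exact K.u0 γ hγ
  · have e1 : U + δ - sv β β' (insert δ D) = U - sv β β' D - δ := by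
      rw [sv_insert m6, two_smul]; abel
    rw [e1, ← h.dn _ K.mir δ hδ, map_sub, LinearMap.sub_apply, hs, m1]
    linarith
  · intro γ hγ hm
    have hm' : U + γ ∈ P := by rwa [add_sub_cancel_right] at hm
    by_contra hne
    obtain ⟨n1, n2, n3, n4, n5, n6, n7, n8⟩ := K.key h C hγ hm'
    have hs' := K.sum_key h C hγ hm'
    have ho := h.obt γ hγ δ hδ hne
    refine h.no (w := sv β β' D + δ + γ) ?_ ?_
    · rw [map_add, map_add]
      have := K.fs_pos h C
      have := h.fpos γ hγ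
      linarith
    · simp only [map_add, LinearMap.add_apply]
      rw [K.ss, h.symm δ (sv β β' D), h.symm γ (sv β β' D), hs, hs', m1, n1, h.symm δ γ]
      linarith
  · have := K.fU
    rw [map_add]; linarith
  · intro γ hγ
    rcases Finset.mem_insert.1 hγ with rfl | hγ
    · have h1 := C.fix U K.UP K.fU
      have h2 := C.fix (U + γ) hU (by rw [map_add]; have := K.fU; linarith)
      rw [map_add, h1] at h2
      exact add_left_cancel h2
    · exact K.fixD γ hγ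
  · intro γ hγ
    rcases Finset.mem_insert.1 hγ with rfl | hγ
    · exact ⟨U, K.UP, hU⟩
    · exact K.wt γ hγ
  · right
    rcases K.two with h1 | ⟨δ₂, h1, h2, h3, h4, h5⟩
    · have hd : d = δ₁ := by
        have := K.dD
        rw [h1, Finset.mem_singleton] at this
        exact this
      refine ⟨δ, Finset.mem_insert_self _ _, by rw [← hd]; exact m2, ?_, m4, m5⟩
      have h2 : U = T₀ + δ₁ := by rw [K.Ueq, h1, Finset.sum_singleton]
      rw [h2, map_add, LinearMap.add_apply, ← hd, m2, m1] at e0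
      linarith
    · exact ⟨δ₂, Finset.mem_insert_of_mem h1, h2, h3, h4, h5⟩

/-- The first step. -/
lemma start_key (h : WD b f B P α S) (C : Ctx b f B P α c T₀ β β') {δ : E} (hδ : δ ∈ B)
    (hU : T₀ + δ ∈ P) : b δ δ = 2 * c ∧ b β δ = - c ∧ b β' δ = - c ∧ δ ≠ β ∧ δ ≠ β' ∧
      α δ = δ := by
  have c0 := C.c0
  have hδδ := h.bpos hδ
  have hf := h.fpos δ hδ
  have e0 : 2 * b T₀ δ = - b δ δ := (h.up T₀ C.T0P δ hδ).2 hU
  have hδβ : δ ≠ β := by
    rintro rfl
    have := C.p1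
    have := C.bb
    linarith
  have hδβ' : δ ≠ β' := by
    rintro rfl
    have := C.p2
    have := C.bb'
    linarith
  have f0 := C.fix T₀ C.T0P le_rfl
  have f1 := C.fix (T₀ + δ) hU (by rw [map_add]; linarith)
  have fδ : α δ = δ := by
    rw [map_add, f0] at f1
    exact add_left_cancel f1
  have hT : T₀ - β ∈ P := (h.dn T₀ C.T0P β C.βB).1 (by rw [C.p1, C.bb])
  have hT' : T₀ - β - β' ∈ P := (h.dn _ hT β' C.βB').1 (by
    rw [map_sub, LinearMap.sub_apply, C.p2, C.bo, C.bb']; ring)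
  have e1 : b β' δ = b β δ := by rw [← C.aβ, ← fδ, h.iso, fδ]
  have e2 : ¬ 2 * b (T₀ - β) δ = - b δ δ := fun h1 =>
    hδβ (C.uniq0 δ hδ ((h.up _ hT δ hδ).1 h1))
  have e3 := h.tri _ hT δ hδ
  have e4 := h.tri _ hT' δ hδ
  simp only [map_sub, LinearMap.sub_apply] at e2 e3 e4
  rw [e1] at e4
  have hβδ : b β δ ≤ 0 := h.obt _ C.βB _ hδ (Ne.symm hδβ)
  have m1 : 2 * b β δ = - b δ δ := by
    rcases e3 with e3 | e3 | e3
    · exfalso
      rcases e4 with e4 | e4 | e4 <;> linarith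
    · linarith
    · exact absurd e3 e2
  have e5 := h.tri _ hU β C.βB
  rw [map_add, LinearMap.add_apply, C.p1, C.bb, h.symm δ β] at e5
  have m2 : b δ δ = 2 * c := by
    rcases e5 with e5 | e5 | e5
    · linarith
    · linarith
    · exfalso
      have n1 : b δ δ = 4 * c := by linarith
      refine h.no (w := δ + β + β') ?_ ?_
      · rw [map_add, map_add]
        have := h.fpos _ C.βB
        have := h.fpos _ C.βB'
        linarith
      · simp only [map_add, LinearMap.add_apply]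
        rw [h.symm δ β, h.symm δ β', h.symm β' β, e1, C.bb, C.bb', C.bo]
        linarith
  exact ⟨m2, by linarith, by rw [e1]; linarith, hδβ, hδβ', fδ⟩

lemma start [DecidableEq E] (h : WD b f B P α S) (C : Ctx b f B P α c T₀ β β') {δ : E}
    (hδ : δ ∈ B) (hU : T₀ + δ ∈ P) :
    Chain b f B P α c T₀ β β' δ (T₀ + δ) δ {δ} := by
  obtain ⟨m1, m2, m3, m4, m5, m6⟩ := start_key h C hδ hU
  have c0 := C.c0
  have hf := h.fpos δ hδ
  have hT : T₀ - β ∈ P := (h.dn T₀ C.T0P β C.βB).1 (by rw [C.p1, C.bb])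
  have hT' : T₀ - β - β' ∈ P := (h.dn _ hT β' C.βB').1 (by
    rw [map_sub, LinearMap.sub_apply, C.p2, C.bo, C.bb']; ring)
  have e0 : 2 * b T₀ δ = - b δ δ := (h.up T₀ C.T0P δ hδ).2 hU
  have hsv : sv β β' {δ} = β + β' + (2 : ℝ) • δ := by rw [sv, Finset.sum_singleton]
  have hs : ∀ v, b (sv β β' {δ}) v = b β v + b β' v + 2 * b δ v := by
    intro v; rw [b_sv, Finset.sum_singleton]
  have hsδ : b (sv β β' {δ}) δ = 2 * c := by rw [hs, m1, m2, m3]; ring
  have hsβ : b (sv β β' {δ}) β = 0 := by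
    rw [hs, C.bb, h.symm β' β, C.bo, h.symm δ β, m2]; ring
  have hsβ' : b (sv β β' {δ}) β' = 0 := by
    rw [hs, C.bb', C.bo, h.symm δ β', m3]; ring
  refine ⟨?_, ?_, ?_, Finset.mem_singleton_self _, hU, ?_, ?_, ?_, hsδ, hsβ, hsβ', ?_, ?_, ?_,
    ?_, ?_, ?_, Finset.mem_singleton_self _, m2, m3, by linarith, ?_, Or.inl rfl⟩
  · intro γ hγ; rw [Finset.mem_singleton.1 hγ]; exact hδ
  · rw [Finset.mem_singleton]; exact Ne.symm m4
  · rw [Finset.mem_singleton]; exact Ne.symm m5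
  · rw [Finset.sum_singleton]
  · intro γ hγ; rw [Finset.mem_singleton.1 hγ]; exact m1
  · intro γ hγ hne; exact absurd (Finset.mem_singleton.1 hγ) hne
  · have gen : ∀ w : E, b w (β + β' + (2 : ℝ) • δ) = b w β + b w β' + 2 * b w δ := by
      intro w; rw [map_add, map_add, map_smul, smul_eq_mul]
    have h1 := gen (sv β β' {δ})
    rw [← hsv] at h1
    rw [h1, hsδ, hsβ, hsβ']; ring
  · intro γ hγ
    rw [Finset.mem_singleton.1 hγ]
    simp only [map_sub, map_smul, LinearMap.sub_apply, LinearMap.smul_apply, smul_eq_mul]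
    rw [m2, m3]; linarith
  · have h1 : T₀ + δ - sv β β' {δ} = T₀ - β - β' - δ := by rw [hsv, two_smul]; abel
    rw [h1, ← h.dn _ hT' δ hδ]
    simp only [map_sub, LinearMap.sub_apply]
    rw [m2, m3]; linarith
  · intro γ hγ hm
    have hm' : T₀ + γ ∈ P := by rwa [add_sub_cancel_right] at hm
    by_contra hne
    obtain ⟨n1, n2, n3, n4, n5, n6⟩ := start_key h C hγ hm'
    have ho := h.obt γ hγ δ hδ hne
    refine h.no (w := β + β' + δ + γ) ?_ ?_
    · simp only [map_add]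
      have := h.fpos _ C.βB
      have := h.fpos _ C.βB'
      have := h.fpos γ hγ
      linarith
    · simp only [map_add, LinearMap.add_apply]
      rw [h.symm β' β, h.symm δ β, h.symm δ β', h.symm γ β, h.symm γ β', h.symm δ γ, C.bb, C.bb',
        C.bo, m1, m2, m3, n1, n2, n3]
      linarith
  · rw [map_add]; linarith
  · intro γ hγ; rw [Finset.mem_singleton.1 hγ]; exact m6
  · intro γ hγ; rw [Finset.mem_singleton.1 hγ]; exact ⟨T₀, C.T0P, hU⟩

end Chain

section final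

variable {c : ℝ} {T₀ β β' δ₁ d : E} {D : Finset E}

lemma T0_eq (K : Chain b f B P α c T₀ β β' δ₁ S d D) (v : E) :
    b T₀ v = b S v - ∑ γ ∈ D, b γ v := by
  have h1 := congrArg (fun w => b w v) K.Ueq
  simp only [map_add, map_sum, LinearMap.add_apply, LinearMap.sum_apply] at h1
  linarith

/-- Simple roots adjacent to the chain. -/
lemma adj (h : WD b f B P α S) (C : Ctx b f B P α c T₀ β β')
    (K : Chain b f B P α c T₀ β β' δ₁ S d D) {ε : E} (hε : ε ∈ B) (h1 : ε ∉ D) (h2 : ε ≠ β)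
    (h3 : ε ≠ β') : (∀ γ ∈ D, b γ ε = 0) ∧ 0 ≤ b S ε ∧
      2 * b S ε - 2 * b β ε - 2 * b β' ε ≤ b ε ε ∧
      (b β ε = 0 ∨ 2 * b β ε ≤ - b ε ε) := by
  classical
  have hεε := h.bpos hε
  have hS := h.tri S h.SP ε hε
  have hS0 : 0 ≤ b S ε := by
    rcases hS with hS | hS | hS
    · linarith
    · linarith
    · exact absurd ((h.up S h.SP ε hε).1 hS) (h.top ε hε)
  have hm := h.tri _ K.mir ε hε
  have hm' : 2 * b S ε - 2 * b (sv β β' D) ε ≤ b ε ε := by
    rw [map_sub, LinearMap.sub_apply] at hm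
    rcases hm with hm | hm | hm <;> linarith
  have int : ∀ γ ∈ B, (∃ W ∈ P, W + γ ∈ P) → γ ≠ ε → b γ ε = 0 ∨ 2 * b γ ε ≤ - b ε ε := by
    rintro γ hγ ⟨W, hW, hW'⟩ hne
    have g1 := h.tri W hW ε hε
    have g2 := h.tri _ hW' ε hε
    have g3 := h.obt γ hγ ε hε hne
    rw [map_add, LinearMap.add_apply] at g2
    rcases g1 with g1 | g1 | g1 <;> rcases g2 with g2 | g2 | g2
    · left; linarith
    · right; linarith
    · right; linarith
    · exfalso; linarith
    · left; linarith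
    · right; linarith
    · exfalso; linarith
    · exfalso; linarith
    · left; linarith
  have hT : T₀ - β ∈ P := (h.dn T₀ C.T0P β C.βB).1 (by rw [C.p1, C.bb])
  have iβ := int β C.βB ⟨T₀ - β, hT, by rw [sub_add_cancel]; exact C.T0P⟩ (Ne.symm h2)
  have oβ := h.obt β C.βB ε hε (Ne.symm h2)
  have oβ' := h.obt β' C.βB' ε hε (Ne.symm h3)
  have hle : ∀ γ ∈ D, b γ ε ≤ 0 := fun γ hγ => h.obt _ (K.sub γ hγ) _ hε (by
    rintro rfl; exact h1 hγ)
  have hD : ∀ γ ∈ D, b γ ε = 0 := by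
    intro γ hγ
    rcases int γ (K.sub γ hγ) (K.wt γ hγ) (by rintro rfl; exact h1 hγ) with g | g
    · exact g
    · exfalso
      rw [b_sv, ← Finset.add_sum_erase D (fun γ => b γ ε) hγ] at hm'
      have : ∑ x ∈ D.erase γ, b x ε ≤ 0 := Finset.sum_nonpos fun x hx =>
        hle x (Finset.mem_of_mem_erase hx)
      linarith
  refine ⟨hD, hS0, ?_, iβ⟩
  rw [b_sv, Finset.sum_eq_zero hD] at hm'
  linarith

/-- No other simple root is adjacent to `β`. -/
lemma noadj (h : WD b f B P α S) (C : Ctx b f B P α c T₀ β β')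
    (K : Chain b f B P α c T₀ β β' δ₁ S d D) {δ₂ : E} (hδ₂ : δ₂ ∈ D) (k1 : b δ₁ δ₂ = - c)
    (k2 : b T₀ δ₂ = 0) (k3 : b β δ₂ = 0) (k4 : b β' δ₂ = 0) {ε : E} (hε : ε ∈ B)
    (h1 : ε ∉ D) (h2 : ε ≠ β) (h3 : ε ≠ β') : b β ε = 0 := by
  by_contra hne
  have c0 := C.c0
  have hεε := h.bpos hε
  obtain ⟨a1, a2, a3, a4⟩ := adj h C K hε h1 h2 h3
  have oβ' := h.obt β' C.βB' ε hε (Ne.symm h3)
  have a5 : 2 * b β ε ≤ - b ε ε := a4.resolve_left hne
  have e1 : 2 * b β ε = - b ε ε := by linarith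
  have e2 : b S ε = 0 := by linarith
  have e3 : b β' ε = 0 := by linarith
  obtain ⟨ε', hε'⟩ : ∃ ε', ε' = α ε := ⟨_, rfl⟩
  have hεB' : ε' ∈ B := by rw [hε']; exact h.aB ε hε
  have q1 : ε' ∉ D := by
    intro hm
    have g1 := K.fixD ε' hm
    have g2 : ε' = ε := h.inj (by rw [g1, hε'])
    rw [g2] at hm
    exact h1 hm
  have q2 : ε' ≠ β := by
    intro g
    have g1 := h.iso β ε
    rw [C.aβ, ← hε', g, h.symm, C.bo] at g1
    exact hne g1.symm
  have q3 : ε' ≠ β' := by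
    intro g
    rw [hε', ← C.aβ] at g
    exact h2 (h.inj g)
  obtain ⟨b1, b2, b3, b4⟩ := adj h C K hεB' q1 q2 q3
  have nε : b ε' ε' = b ε ε := by rw [hε', h.iso]
  have f1 : b β' ε' = b β ε := by rw [hε', ← C.aβ, h.iso]
  have oβ : b β ε' ≤ 0 := h.obt β C.βB ε' hεB' (Ne.symm q2)
  have f2 : b β ε' = 0 := by linarith
  have f3 : b S ε' = 0 := by linarith
  have hεε' : ε ≠ ε' := by
    rintro g
    rw [← g] at f2
    exact hne f2
  have oε := h.obt ε hε ε' hεB' hεε'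
  have t1 : b T₀ ε = 0 := by rw [T0_eq K, Finset.sum_eq_zero a1, e2]; ring
  have t2 : b T₀ ε' = 0 := by rw [T0_eq K, Finset.sum_eq_zero b1, f3]; ring
  have d1 := K.nm δ₁ K.d1
  have dε := a1 δ₁ K.d1
  have dε' := b1 δ₁ K.d1
  have hδ₁ := K.sub δ₁ K.d1
  have sy := h.symm
  have r0 : T₀ - β ∈ P := (h.dn T₀ C.T0P β C.βB).1 (by rw [C.p1, C.bb])
  have r1 : T₀ - β - β' ∈ P := (h.dn _ r0 β' C.βB').1 (by
    rw [map_sub, LinearMap.sub_apply, C.p2, C.bo, C.bb']; ring)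
  have r2 : T₀ - β - β' - δ₁ ∈ P := (h.dn _ r1 δ₁ hδ₁).1 (by
    simp only [map_sub, LinearMap.sub_apply]
    rw [K.d1T, K.d1b, K.d1b', d1]; ring)
  have r3 : T₀ - β - β' - δ₁ - ε ∈ P := (h.dn _ r2 ε hε).1 (by
    simp only [map_sub, LinearMap.sub_apply]
    rw [t1, e3, dε]; linarith)
  have z1 : b ε ε' = 0 := by
    have := h.tri _ r3 ε' hεB'
    simp only [map_sub, LinearMap.sub_apply] at this
    rw [t2, f2, f1, dε', nε] at this
    rcases this with g | g | g <;> linarith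
  have r4 : T₀ - β - β' - δ₁ - ε - ε' ∈ P := (h.dn _ r3 ε' hεB').1 (by
    simp only [map_sub, LinearMap.sub_apply]
    rw [t2, f2, f1, dε', nε, z1]; linarith)
  have v1 : 2 * b (T₀ - β - β' - δ₁ - ε - ε') β = b ε ε := by
    simp only [map_sub, LinearMap.sub_apply]
    rw [C.p1, C.bb, sy β' β, C.bo, sy δ₁ β, K.d1b, sy ε β, sy ε' β, f2]; linarith
  have w1 : b ε ε = 2 * c := by
    have := h.tri _ r4 β C.βB
    rw [v1, C.bb] at this
    rcases this with g | g | g <;> linarith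
  have r5 : T₀ - β - β' - δ₁ - ε - ε' - β ∈ P := (h.dn _ r4 β C.βB).1 (by rw [v1, C.bb, w1])
  have r6 : T₀ - β - β' - δ₁ - ε - ε' - β - β' ∈ P := (h.dn _ r5 β' C.βB').1 (by
    simp only [map_sub, LinearMap.sub_apply]
    rw [C.p2, C.bo, C.bb', sy δ₁ β', K.d1b', sy ε β', e3, sy ε' β', f1]; linarith)
  have r7 : T₀ - β - β' - δ₁ - ε - ε' - β - β' - δ₁ ∈ P := (h.dn _ r6 δ₁ hδ₁).1 (by
    simp only [map_sub, LinearMap.sub_apply]
    rw [K.d1T, K.d1b, K.d1b', d1, sy ε δ₁, dε, sy ε' δ₁, dε']; ring)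
  have := h.tri _ r7 δ₂ (K.sub δ₂ hδ₂)
  simp only [map_sub, LinearMap.sub_apply] at this
  rw [k1, k2, k3, k4, K.nm δ₂ hδ₂, sy ε δ₂, a1 δ₂ hδ₂ |> fun g => g, sy ε' δ₂,
    b1 δ₂ hδ₂] at this
  rcases this with g | g | g <;> linarith

end final

/-- **The three cases.** -/
theorem pre (h : WD b f B P α S) : (∀ T ∈ P, α T = T) ∨
    (∃ c T₀ β β' δ₁ d, Ctx b f B P α c T₀ β β' ∧ Chain b f B P α c T₀ β β' δ₁ S d {δ₁}) ∨
    ∃ T₀ ∈ P, ∃ β ∈ B, ∃ β' ∈ B, β ≠ β' ∧ b β β' = 0 ∧ b β β = b β' β' ∧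
      2 * b T₀ β = b β β ∧ 2 * b T₀ β' = b β' β' ∧
      ∀ ε ∈ B, b ((2 : ℝ) • T₀ - β - β') ε = 0 := by
  classical
  by_cases hall : ∀ T ∈ P, α T = T
  · exact Or.inl hall
  right
  push Not at hall
  obtain ⟨T', hT'P, hT'⟩ := hall
  -- a maximal weight which is not fixed
  obtain ⟨T, ⟨hT, hTa⟩, hmax⟩ : ∃ T ∈ {T | T ∈ P ∧ α T ≠ T},
      ∀ U ∈ {T | T ∈ P ∧ α T ≠ T}, f U ≤ f T :=
    Set.exists_max_image _ f (h.fin.subset fun T hT => hT.1) ⟨T', hT'P, hT'⟩
  have hfix : ∀ U ∈ P, f T < f U → α U = U := by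
    intro U hU hlt
    by_contra hne
    exact absurd (hmax U ⟨hU, hne⟩) (not_le.2 hlt)
  have hTS : T ≠ S := by rintro rfl; exact hTa h.aS
  obtain ⟨β, hβ, hT0⟩ := h.ex T hT hTS
  have hfβ := h.fpos β hβ
  obtain ⟨T₀, hT₀⟩ : ∃ T₀, T₀ = T + β := ⟨_, rfl⟩
  rw [← hT₀] at hT0
  have eT : T = T₀ - β := by rw [hT₀, add_sub_cancel_right]
  have fT0 : f T < f T₀ := by rw [hT₀, map_add]; linarith
  have aT0 := hfix T₀ hT0 fT0
  obtain ⟨β', hβ'⟩ : ∃ β', β' = α β := ⟨_, rfl⟩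
  have hβB' : β' ∈ B := by rw [hβ']; exact h.aB β hβ
  have aT : α T = T₀ - β' := by rw [eT, map_sub, aT0, hβ']
  have hne : β ≠ β' := by
    intro g
    apply hTa
    rw [aT, ← g, eT]
  have aTP : T₀ - β' ∈ P := by rw [← aT]; exact h.aP T hT
  obtain ⟨c, hc⟩ : ∃ c, b β β = 2 * c := ⟨b β β / 2, by ring⟩
  have c0 : 0 < c := by have := h.bpos hβ; linarith
  have hc' : b β' β' = 2 * c := by rw [hβ', h.iso, hc]
  have hTP : T₀ - β ∈ P := by rw [← eT]; exact hT
  have p1 : b T₀ β = c := by have := (h.dn T₀ hT0 β hβ).2 hTP; linarith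
  have p2 : b T₀ β' = c := by have := (h.dn T₀ hT0 β' hβB').2 aTP; linarith
  have ho := h.obt β hβ β' hβB' hne
  have bo : b β β' = 0 := by
    have := h.tri _ hTP β' hβB'
    rw [map_sub, LinearMap.sub_apply, p2, hc'] at this
    rcases this with g | g | g <;> linarith
  have uniq0 : ∀ γ ∈ B, T₀ - β + γ ∈ P → γ = β := by
    intro γ hγ hm
    by_contra hγβ
    have hfγ := h.fpos γ hγ
    rw [← eT] at hm
    have g1 := hfix _ hm (by rw [map_add]; linarith)
    rw [map_add, aT] at g1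
    -- `γ + β' = β + α γ`
    have g2 : γ + β' = β + α γ := by
      have : T₀ = T + β := hT₀
      rw [this] at g1
      have h3 : T + β - β' + α γ = T + γ := g1
      have h4 : β - β' + α γ = γ := by
        have h5 : T + (β - β' + α γ) = T + γ := by rw [← h3]; abel
        exact add_left_cancel h5
      calc γ + β' = (β - β' + α γ) + β' := by rw [h4]
        _ = β + α γ := by abel
    have hαγ := h.aB γ hγ
    have n1 : γ ≠ α γ := by
      intro g3
      rw [← g3, add_comm] at g2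
      exact hne (add_right_cancel g2).symm
    have n2 : β' ≠ α γ := by
      intro g3
      rw [hβ'] at g3
      exact hγβ (h.inj g3).symm
    have o1 := h.obt γ hγ β hβ hγβ
    have o2 := h.obt γ hγ (α γ) hαγ n1
    have o3 := h.obt β' hβB' β hβ (Ne.symm hne)
    have o4 := h.obt β' hβB' (α γ) hαγ n2
    refine h.no (w := γ + β') ?_ ?_
    · rw [map_add]
      have := h.fpos β' hβB'
      linarith
    · have g3 : b (γ + β') (γ + β') = b (γ + β') (β + α γ) := by rw [← g2]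
      rw [g3]
      simp only [map_add, LinearMap.add_apply]
      linarith
  have C : Ctx b f B P α c T₀ β β' :=
    { c0 := c0
      T0P := hT0
      βB := hβ
      βB' := hβB'
      ne := hne
      bb := hc
      bb' := hc'
      bo := bo
      p1 := p1
      p2 := p2
      aβ := hβ'.symm
      fix := fun U hU hle => hfix U hU (lt_of_lt_of_le fT0 hle)
      uniq0 := uniq0 }
  have hT0S : T₀ ≠ S := by
    intro g
    have g1 := h.w2 β hβ (by rw [← g]; exact hTP)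
    rw [← g, ← eT] at g1
    exact hTa g1
  obtain ⟨δ₁, hδ₁, hT1⟩ := h.ex T₀ hT0 hT0S
  have K1 := Chain.start h C hδ₁ hT1
  -- the end of the chain
  obtain ⟨U, ⟨hU, d, D, K⟩, hUmax⟩ : ∃ U ∈ {U | U ∈ P ∧ ∃ d D, Chain b f B P α c T₀ β β' δ₁ U d D},
      ∀ U' ∈ {U | U ∈ P ∧ ∃ d D, Chain b f B P α c T₀ β β' δ₁ U d D}, f U' ≤ f U :=
    Set.exists_max_image _ f (h.fin.subset fun T hT => hT.1) ⟨T₀ + δ₁, hT1, _, _, K1⟩
  have hUS : U = S := by
    by_contra hne
    obtain ⟨δ, hδ, hm⟩ := h.ex U hU hne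
    have := hUmax (U + δ) ⟨hm, _, _, K.step h C hδ hm⟩
    rw [map_add] at this
    have := h.fpos δ hδ
    linarith
  subst hUS
  -- the chain has at least two members
  rcases K.two with hD | htwo
  · left
    rw [hD] at K
    exact ⟨c, T₀, β, β', δ₁, d, C, K⟩
  right
  obtain ⟨δ₂, hδ₂, k1, k2, k3, k4⟩ := htwo
  have na := fun {ε : E} => noadj h C K hδ₂ k1 k2 k3 k4 (ε := ε)
  have na' : ∀ ε ∈ B, ε ∉ D → ε ≠ β → ε ≠ β' → b β' ε = 0 := by
    intro ε hε h1 h2 h3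
    by_contra hne'
    obtain ⟨ε₁, hε₁, e1⟩ := h.aB' ε hε
    have g1 : b β ε₁ = b β' ε := by rw [← h.iso β ε₁, e1, ← hβ']
    have g2 : ε₁ ∉ D := by
      intro hm
      have := K.fixD ε₁ hm
      rw [e1] at this
      rw [← this] at hm
      exact h1 hm
    have g3 : ε₁ ≠ β := by
      rintro rfl
      rw [← hβ'] at e1
      exact h3 e1.symm
    have g4 : ε₁ ≠ β' := by
      intro g
      rw [g, bo] at g1
      exact hne' g1.symm
    rw [na hε₁ g2 g3 g4] at g1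
    exact hne' g1.symm
  have hB : B ⊆ {γ | γ = β ∨ γ = β' ∨ γ ∈ D} := by
    refine h.con _ ?_ ⟨β, Or.inl rfl⟩ ?_
    · rintro γ (rfl | rfl | hγ)
      · exact hβ
      · exact hβB'
      · exact K.sub γ hγ
    · rintro γ hγ ε hε hne'
      by_contra hcon
      have hcon' : ε ≠ β ∧ ε ≠ β' ∧ ε ∉ D := by
        refine ⟨fun g => hcon (Or.inl g), fun g => hcon (Or.inr (Or.inl g)),
          fun g => hcon (Or.inr (Or.inr g))⟩
      obtain ⟨g1, g2, g3⟩ := hcon'
      rcases hγ with rfl | rfl | hγ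
      · exact hne' (na hε g3 g1 g2)
      · exact hne' (na' ε hε g3 g1 g2)
      · exact hne' ((adj h C K hε g3 g1 g2).1 γ hγ)
  refine ⟨T₀, hT0, β, hβ, β', hβB', hne, bo, by rw [hc, hc'], by rw [p1, hc], by rw [p2, hc'],
    ?_⟩
  intro ε hε
  rcases hB hε with rfl | rfl | hm
  · simp only [map_sub, map_smul, LinearMap.sub_apply, LinearMap.smul_apply, smul_eq_mul]
    rw [p1, hc, h.symm β' ε, bo]; ring
  · simp only [map_sub, map_smul, LinearMap.sub_apply, LinearMap.smul_apply, smul_eq_mul]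
    rw [p2, hc', bo]; ring
  · exact K.u0 ε hm

/-- **The dichotomy.** -/
theorem dichotomy (h : WD b f B P α S) (w3 : ∀ δ ∈ B, ∀ β ∈ B, S - δ ∈ P → S - β ∉ P →
    S - δ - β ∈ P → α (S - δ - β) = S - δ - β) : (∀ T ∈ P, α T = T) ∨
    ∃ T₀ ∈ P, ∃ β ∈ B, ∃ β' ∈ B, β ≠ β' ∧ b β β' = 0 ∧ b β β = b β' β' ∧
      2 * b T₀ β = b β β ∧ 2 * b T₀ β' = b β' β' ∧
      ∀ ε ∈ B, b ((2 : ℝ) • T₀ - β - β') ε = 0 := by
  rcases pre h with h1 | ⟨c, T₀, β, β', δ₁, d, C, K⟩ | h1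
  · exact Or.inl h1
  · exfalso
    have c0 := C.c0
    have e1 : S = T₀ + δ₁ := by rw [K.Ueq, Finset.sum_singleton]
    have e2 : S - δ₁ = T₀ := by rw [e1, add_sub_cancel_right]
    have e3 : S - β ∉ P := by
      rw [← h.dn S h.SP β C.βB, e1, map_add, LinearMap.add_apply, C.p1, h.symm δ₁ β, K.d1b, C.bb]
      intro g
      linarith
    have hTP : T₀ - β ∈ P := (h.dn T₀ C.T0P β C.βB).1 (by rw [C.p1, C.bb])
    have e4 := w3 δ₁ (K.sub δ₁ K.d1) β C.βB (by rw [e2]; exact C.T0P) e3 (by rw [e2]; exact hTP)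
    rw [e2, map_sub, C.fix T₀ C.T0P le_rfl, C.aβ] at e4
    exact C.ne (sub_right_injective e4).symm
  · exact Or.inr h1

end Run7.h226.Comb
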