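import Pool.Agent.Run7.h226.Comb

/-!
# Chains of simple roots of type `A`
-/

set_option linter.unusedSectionVars false

namespace Run7.h226.Comb

variable {E : Type*} [AddCommGroup E] [Module ℝ E]
variable {b : LinearMap.BilinForm ℝ E} {f : E →ₗ[ℝ] ℝ} {B P : Set E} {α : E →ₗ[ℝ] E} {S : E}

/-- Chains of simple roots of type `A` which are symmetric with respect to the automorphism. -/
structure Chn (b : LinearMap.BilinForm ℝ E) (B : Set E) (α : E →ₗ[ℝ] E) (S : E) (c : ℝ) (k : ℕ)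
    (w : ℤ → E) : Prop where
  c0 : 0 < c
  mem : ∀ i : ℤ, -(k : ℤ) ≤ i → i ≤ k → w i ∈ B
  gram : ∀ i j : ℤ, -(k : ℤ) ≤ i → i ≤ k → -(k : ℤ) ≤ j → j ≤ k →
    b (w i) (w j) = if i = j then 2 * c else if i = j + 1 ∨ j = i + 1 then - c else 0
  lab : ∀ i : ℤ, -(k : ℤ) ≤ i → i ≤ k → b S (w i) = if i = 0 then c else 0
  al : ∀ i : ℤ, -(k : ℤ) ≤ i → i ≤ k → α (w i) = w (-i)

/-- The number of letters of `A` which are larger than `l`. -/
def gt (A : Finset ℤ) (l : ℤ) : ℝ := ((A.filter fun j => l < j).card : ℝ)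

/-- The coefficients. -/
noncomputable def nn (k : ℕ) (A : Finset ℤ) (l : ℤ) : ℝ := gt A l - gt (Finset.Icc (-(k : ℤ)) 0) l

/-- The weights. -/
noncomputable def TA (S : E) (k : ℕ) (w : ℤ → E) (A : Finset ℤ) : E :=
  S - ∑ l ∈ Finset.Icc (-(k : ℤ)) k, nn k A l • w l

lemma gt_sub (A : Finset ℤ) (l : ℤ) : gt A (l - 1) - gt A l = if l ∈ A then 1 else 0 := by
  have h1 : (A.filter fun j => l - 1 < j) = (A.filter fun j => l < j) ∪ A.filter fun j => j = l := by
    ext j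
    simp only [Finset.mem_filter, Finset.mem_union]
    constructor
    · rintro ⟨h1, h2⟩
      by_cases h3 : j = l
      · exact Or.inr ⟨h1, h3⟩
      · exact Or.inl ⟨h1, by omega⟩
    · rintro (⟨h1, h2⟩ | ⟨h1, h2⟩)
      · exact ⟨h1, by omega⟩
      · exact ⟨h1, by omega⟩
  have h2 : Disjoint (A.filter fun j => l < j) (A.filter fun j => j = l) := by
    rw [Finset.disjoint_filter]
    intro j _ h1 h2
    omega
  rw [gt, gt, h1, Finset.card_union_of_disjoint h2, Nat.cast_add, add_sub_cancel_left]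
  rw [Finset.filter_eq']
  split_ifs <;> simp

lemma gt_all {A : Finset ℤ} {m l : ℤ} (hA : ∀ j ∈ A, m ≤ j) (hl : l < m) : gt A l = A.card := by
  rw [gt, Finset.filter_true_of_mem]
  intro j hj
  have := hA j hj
  omega

lemma gt_none {A : Finset ℤ} {m l : ℤ} (hA : ∀ j ∈ A, j ≤ m) (hl : m ≤ l) : gt A l = 0 := by
  rw [gt, Finset.filter_false_of_mem]
  · simp
  · intro j hj
    have := hA j hj
    omega

lemma card_A0 (k : ℕ) : (Finset.Icc (-(k : ℤ)) 0).card = k + 1 := by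
  rw [Int.card_Icc]; omega

variable {c : ℝ} {k : ℕ} {w : ℤ → E} {A : Finset ℤ}

/-- Admissible sets of letters. -/
def Adm (k : ℕ) (A : Finset ℤ) : Prop := A ⊆ Finset.Icc (-(k : ℤ)) (k + 1) ∧ A.card = k + 1

lemma Adm.bd (hA : Adm k A) {j : ℤ} (hj : j ∈ A) : -(k : ℤ) ≤ j ∧ j ≤ k + 1 := by
  have := hA.1 hj
  rwa [Finset.mem_Icc] at this

lemma adm_A0 (k : ℕ) : Adm k (Finset.Icc (-(k : ℤ)) 0) := by
  refine ⟨?_, card_A0 k⟩
  intro j hj
  rw [Finset.mem_Icc] at hj ⊢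
  omega

lemma nn_lo (hA : Adm k A) {l : ℤ} (hl : l < -(k : ℤ)) : nn k A l = 0 := by
  rw [nn, gt_all (fun j hj => (hA.bd hj).1) hl,
    gt_all (fun j hj => (Finset.mem_Icc.1 hj).1) hl, hA.2, card_A0, sub_self]

lemma nn_hi (hA : Adm k A) {l : ℤ} (hl : (k : ℤ) < l) : nn k A l = 0 := by
  rw [nn, gt_none (m := k + 1) (fun j hj => (hA.bd hj).2) (by omega),
    gt_none (m := 0) (fun j hj => (Finset.mem_Icc.1 hj).2) (by omega), sub_self]

lemma nn_sub (k : ℕ) (A : Finset ℤ) (l : ℤ) : nn k A (l - 1) - nn k A l =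
    (if l ∈ A then 1 else 0) - (if l ∈ Finset.Icc (-(k : ℤ)) 0 then 1 else 0) := by
  have h1 := gt_sub A l
  have h2 := gt_sub (Finset.Icc (-(k : ℤ)) 0) l
  rw [nn, nn, ← h1, ← h2]; ring

lemma b_TA (S : E) (k : ℕ) (w : ℤ → E) (A : Finset ℤ) (v : E) :
    b (TA S k w A) v = b S v - ∑ l ∈ Finset.Icc (-(k : ℤ)) k, nn k A l * b (w l) v := by
  rw [TA, map_sub, LinearMap.sub_apply, map_sum, LinearMap.sum_apply]
  congr 1
  refine Finset.sum_congr rfl fun l _ => ?_
  rw [map_smul, LinearMap.smul_apply, smul_eq_mul]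

/-- Sums over the chain. -/
lemma sum_three (F : ℤ → ℝ) (hlo : ∀ l : ℤ, l < -(k : ℤ) → F l = 0)
    (hhi : ∀ l : ℤ, (k : ℤ) < l → F l = 0) (c : ℝ) {i : ℤ} (hi : -(k : ℤ) ≤ i) (hi' : i ≤ k) :
    ∑ l ∈ Finset.Icc (-(k : ℤ)) k,
      F l * (if l = i then 2 * c else if l = i + 1 ∨ i = l + 1 then - c else 0) =
      2 * c * F i - c * F (i - 1) - c * F (i + 1) := by
  have h1 : ∀ l ∈ Finset.Icc (-(k : ℤ)) k,
      F l * (if l = i then 2 * c else if l = i + 1 ∨ i = l + 1 then - c else 0) =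
      (if l = i then 2 * c * F l else 0) + (if l = i + 1 then - c * F l else 0) +
        (if l = i - 1 then - c * F l else 0) := by
    intro l _
    by_cases h1 : l = i
    · have h2 : ¬ l = i + 1 := by omega
      have h3 : ¬ l = i - 1 := by omega
      rw [if_pos h1, if_pos h1, if_neg h2, if_neg h3]; ring
    · by_cases h2 : l = i + 1
      · have h3 : ¬ l = i - 1 := by omega
        rw [if_neg h1, if_neg h1, if_pos (Or.inl h2), if_pos h2, if_neg h3]; ring
      · by_cases h3 : l = i - 1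
        · have h4 : i = l + 1 := by omega
          rw [if_neg h1, if_neg h1, if_pos (Or.inr h4), if_neg h2, if_pos h3]; ring
        · have h4 : ¬ (l = i + 1 ∨ i = l + 1) := by omega
          rw [if_neg h1, if_neg h1, if_neg h4, if_neg h2, if_neg h3]; ring
  rw [Finset.sum_congr rfl h1, Finset.sum_add_distrib, Finset.sum_add_distrib,
    Finset.sum_ite_eq', Finset.sum_ite_eq', Finset.sum_ite_eq']
  have m1 : i ∈ Finset.Icc (-(k : ℤ)) k := Finset.mem_Icc.2 ⟨hi, hi'⟩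
  rw [if_pos m1]
  have m2 : (if i + 1 ∈ Finset.Icc (-(k : ℤ)) k then - c * F (i + 1) else 0) =
      - c * F (i + 1) := by
    split_ifs with h
    · rfl
    · rw [hhi (i + 1) (by rw [Finset.mem_Icc] at h; omega), mul_zero]
  have m3 : (if i - 1 ∈ Finset.Icc (-(k : ℤ)) k then - c * F (i - 1) else 0) =
      - c * F (i - 1) := by
    split_ifs with h
    · rfl
    · rw [hlo (i - 1) (by rw [Finset.mem_Icc] at h; omega), mul_zero]
  rw [m2, m3]
  ring

namespace Chn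

variable (K : Chn b B α S c k w)

include K

/-- The labels of the weights. -/
lemma lab_TA (hA : Adm k A) {i : ℤ} (hi : -(k : ℤ) ≤ i) (hi' : i ≤ k) :
    b (TA S k w A) (w i) = c * ((if i ∈ A then 1 else 0) - (if i + 1 ∈ A then 1 else 0)) := by
  have h1 : ∑ l ∈ Finset.Icc (-(k : ℤ)) k, nn k A l * b (w l) (w i) =
      2 * c * nn k A i - c * nn k A (i - 1) - c * nn k A (i + 1) := by
    rw [← sum_three (k := k) (nn k A) (fun l hl => nn_lo hA hl) (fun l hl => nn_hi hA hl) c hi hi']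
    refine Finset.sum_congr rfl fun l hl => ?_
    rw [Finset.mem_Icc] at hl
    rw [K.gram l i hl.1 hl.2 hi hi']
  rw [b_TA, h1, K.lab i hi hi']
  have h2 := nn_sub k A i
  have h3 := nn_sub k A (i + 1)
  rw [add_sub_cancel_right] at h3
  have h4 : ((if i ∈ Finset.Icc (-(k : ℤ)) 0 then 1 else 0) : ℝ) -
      (if i + 1 ∈ Finset.Icc (-(k : ℤ)) 0 then 1 else 0) = if i = 0 then 1 else 0 := by
    simp only [Finset.mem_Icc]
    by_cases e1 : i = 0
    · rw [if_pos (by omega), if_neg (by omega), if_pos e1]; ring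
    · by_cases e2 : i < 0
      · rw [if_pos (by omega), if_pos (by omega), if_neg e1]; ring
      · rw [if_neg (by omega), if_neg (by omega), if_neg e1]; ring
  have h5 : (if i = 0 then c else 0) = c * (if i = 0 then (1 : ℝ) else 0) := by
    split_ifs <;> ring
  rw [h5, ← h4]
  have h6 : nn k A (i - 1) = nn k A i + ((if i ∈ A then 1 else 0) -
      (if i ∈ Finset.Icc (-(k : ℤ)) 0 then 1 else 0)) := by rw [← h2]; ring
  have h7 : nn k A (i + 1) = nn k A i - ((if i + 1 ∈ A then 1 else 0) -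
      (if i + 1 ∈ Finset.Icc (-(k : ℤ)) 0 then 1 else 0)) := by rw [← h3]; ring
  rw [h6, h7]
  ring

lemma TA_A0 : TA S k w (Finset.Icc (-(k : ℤ)) 0) = S := by
  rw [TA, Finset.sum_eq_zero, sub_zero]
  intro l _
  rw [nn, sub_self, zero_smul]

/-- The move of a letter. -/
lemma TA_move {i : ℤ} (hi : -(k : ℤ) ≤ i) (hi' : i ≤ k) (h1 : i ∈ A) (h2 : i + 1 ∉ A) :
    TA S k w (insert (i + 1) (A.erase i)) = TA S k w A - w i := by
  have h3 : ∀ l, nn k (insert (i + 1) (A.erase i)) l = nn k A l + if l = i then 1 else 0 := by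
    intro l
    have e1 : (insert (i + 1) (A.erase i)).filter (fun j => l < j) =
        if l < i + 1 then insert (i + 1) ((A.erase i).filter fun j => l < j) else
          (A.erase i).filter fun j => l < j := by
      rw [Finset.filter_insert]
    have e2 : (A.erase i).filter (fun j => l < j) = (A.filter fun j => l < j).erase i := by
      rw [Finset.filter_erase]
    have e3 : i + 1 ∉ (A.filter fun j => l < j).erase i := by
      rw [Finset.mem_erase, Finset.mem_filter]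
      tauto
    rw [nn, nn, gt, gt, gt, e1, e2]
    by_cases g1 : l < i
    · rw [if_pos (by omega), Finset.card_insert_of_notMem e3, if_neg (by omega),
        Finset.card_erase_add_one (Finset.mem_filter.2 ⟨h1, g1⟩), add_zero]
    · by_cases g2 : l = i
      · rw [if_pos (by omega), Finset.card_insert_of_notMem e3, if_pos g2,
          Finset.erase_eq_of_notMem (by rw [Finset.mem_filter]; tauto)]
        push_cast; ring
      · rw [if_neg (by omega), if_neg g2,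
          Finset.erase_eq_of_notMem (by rw [Finset.mem_filter]; tauto), add_zero]
  rw [TA, TA]
  have h4 : ∑ l ∈ Finset.Icc (-(k : ℤ)) k, nn k (insert (i + 1) (A.erase i)) l • w l =
      (∑ l ∈ Finset.Icc (-(k : ℤ)) k, nn k A l • w l) + w i := by
    rw [Finset.sum_congr rfl fun l _ => by rw [h3 l, add_smul], Finset.sum_add_distrib]
    congr 1
    rw [Finset.sum_congr rfl (g := fun l => if l = i then w l else 0) fun l _ => by
      split_ifs
      · rw [one_smul]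
      · rw [zero_smul]]
    rw [Finset.sum_ite_eq', if_pos (Finset.mem_Icc.2 ⟨hi, hi'⟩)]
  rw [h4]
  abel

end Chn

lemma adm_move {i : ℤ} (hA : Adm k A) (hi : -(k : ℤ) ≤ i) (hi' : i ≤ k) (h1 : i ∈ A)
    (h2 : i + 1 ∉ A) : Adm k (insert (i + 1) (A.erase i)) := by
  refine ⟨?_, ?_⟩
  · intro j hj
    rcases Finset.mem_insert.1 hj with rfl | hj
    · rw [Finset.mem_Icc]; omega
    · exact hA.1 (Finset.mem_of_mem_erase hj)
  · rw [Finset.card_insert_of_notMem (by rw [Finset.mem_erase]; tauto),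
      Finset.card_erase_add_one h1, hA.2]

/-- A letter which can be moved upwards. -/
lemma exists_move (hA : Adm k A) (hne : A ≠ Finset.Icc (-(k : ℤ)) 0) :
    ∃ j ∈ A, j - 1 ∉ A ∧ -(k : ℤ) ≤ j - 1 := by
  by_contra hcon
  push Not at hcon
  apply hne
  have hA0 : A.Nonempty := by
    rw [← Finset.card_pos, hA.2]; omega
  obtain ⟨m, hm, hmax⟩ := A.exists_max_image id hA0
  have hmb := hA.bd hm
  have hdn : ∀ n : ℕ, -(k : ℤ) ≤ m - n → m - n ∈ A := by
    intro n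
    induction n with
    | zero => intro _; simpa using hm
    | succ n ih =>
      intro h1
      have h2 := ih (by push_cast at h1 ⊢; omega)
      have h3 := mt (hcon _ h2) (by push_cast at h1 ⊢; omega)
      rw [not_not] at h3
      have e1 : m - (n : ℤ) - 1 = m - ((n + 1 : ℕ) : ℤ) := by push_cast; ring
      rwa [e1] at h3
  have hAeq : A = Finset.Icc (-(k : ℤ)) m := by
    ext j
    rw [Finset.mem_Icc]
    constructor
    · intro hj
      exact ⟨(hA.bd hj).1, hmax j hj⟩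
    · rintro ⟨h1, h2⟩
      have h3 := hdn (m - j).toNat (by omega)
      have e1 : m - ((m - j).toNat : ℤ) = j := by omega
      rwa [e1] at h3
  have hc := hA.2
  rw [hAeq, Int.card_Icc] at hc
  have : m = 0 := by omega
  rw [hAeq, this]

namespace Chn

variable (K : Chn b B α S c k w)

include K

/-- The weights are in `P`. -/
lemma TA_mem (h : WD b f B P α S) (hA : Adm k A) : TA S k w A ∈ P := by
  obtain ⟨n, hn⟩ : ∃ n : ℕ, (∑ j ∈ A, (j + k)).toNat = n := ⟨_, rfl⟩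
  induction n using Nat.strong_induction_on generalizing A with
  | _ n ih =>
    by_cases h0 : A = Finset.Icc (-(k : ℤ)) 0
    · rw [h0, K.TA_A0]; exact h.SP
    obtain ⟨j, hj, hj1, hj2⟩ := exists_move hA h0
    have hjb := hA.bd hj
    -- the set before the move
    obtain ⟨A', hA'⟩ : ∃ A', A' = insert (j - 1) (A.erase j) := ⟨_, rfl⟩
    have m1 : j - 1 ∈ A' := by rw [hA']; exact Finset.mem_insert_self _ _
    have m2 : j ∉ A' := by
      rw [hA', Finset.mem_insert, Finset.mem_erase]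
      rintro (h1 | ⟨h1, _⟩)
      · omega
      · exact h1 rfl
    have hadm : Adm k A' := by
      refine ⟨?_, ?_⟩
      · intro i hi
        rw [hA'] at hi
        rcases Finset.mem_insert.1 hi with rfl | hi
        · rw [Finset.mem_Icc]; omega
        · exact hA.1 (Finset.mem_of_mem_erase hi)
      · rw [hA', Finset.card_insert_of_notMem (by rw [Finset.mem_erase]; tauto),
          Finset.card_erase_add_one hj, hA.2]
    have hback : insert (j - 1 + 1) (A'.erase (j - 1)) = A := by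
      rw [sub_add_cancel, hA', Finset.erase_insert (by rw [Finset.mem_erase]; tauto),
        Finset.insert_erase hj]
    have hsum : ∑ i ∈ A', (i + (k : ℤ)) = (∑ i ∈ A, (i + (k : ℤ))) - 1 := by
      rw [hA', Finset.sum_insert (by rw [Finset.mem_erase]; tauto),
        ← Finset.add_sum_erase A (fun i => i + (k : ℤ)) hj]
      ring
    have hpos : 0 ≤ ∑ i ∈ A', (i + (k : ℤ)) := Finset.sum_nonneg fun i hi => by
      have := (hadm.bd hi).1
      omega
    have h1 := ih (∑ i ∈ A', (i + (k : ℤ))).toNat (by omega) hadm rfl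
    have h2 := K.TA_move (A := A') hj2 (by omega) m1 (by rw [sub_add_cancel]; exact m2)
    rw [hback] at h2
    rw [h2]
    refine (h.dn _ h1 _ (K.mem _ hj2 (by omega))).1 ?_
    rw [K.lab_TA hadm hj2 (by omega), K.gram _ _ hj2 (by omega) hj2 (by omega), if_pos m1,
      sub_add_cancel, if_neg m2, if_pos rfl]
    ring

/-- Different sets of letters give different weights. -/
lemma TA_inj {A' : Finset ℤ} (hA : Adm k A) (hA' : Adm k A') (he : TA S k w A = TA S k w A') :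
    A = A' := by
  have c0 := K.c0
  -- the difference of the indicator functions is constant
  have h1 : ∀ i : ℤ, -(k : ℤ) ≤ i → i ≤ k →
      ((if i ∈ A then 1 else 0 : ℝ) - (if i ∈ A' then 1 else 0)) =
      (if i + 1 ∈ A then 1 else 0) - (if i + 1 ∈ A' then 1 else 0) := by
    intro i hi hi'
    have h2 := K.lab_TA hA hi hi'
    rw [he, K.lab_TA hA' hi hi'] at h2
    have h3 := mul_left_cancel₀ c0.ne' h2
    linarith
  have h2 : ∀ n : ℕ, (n : ℤ) ≤ 2 * k + 1 →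
      ((if -(k : ℤ) + n ∈ A then 1 else 0 : ℝ) - (if -(k : ℤ) + n ∈ A' then 1 else 0)) =
      (if -(k : ℤ) ∈ A then 1 else 0) - (if -(k : ℤ) ∈ A' then 1 else 0) := by
    intro n
    induction n with
    | zero => intro _; simp
    | succ n ih =>
      intro hn
      have h3 := ih (by push_cast at hn ⊢; omega)
      have h4 := h1 (-(k : ℤ) + n) (by omega) (by push_cast at hn ⊢; omega)
      have e1 : -(k : ℤ) + n + 1 = -(k : ℤ) + ((n + 1 : ℕ) : ℤ) := by push_cast; ring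
      rw [e1] at h4
      rw [← h4, h3]
  obtain ⟨d, hd⟩ : ∃ d : ℝ, d = (if -(k : ℤ) ∈ A then 1 else 0) -
      (if -(k : ℤ) ∈ A' then 1 else 0) := ⟨_, rfl⟩
  have h3 : ∀ j ∈ Finset.Icc (-(k : ℤ)) (k + 1),
      ((if j ∈ A then 1 else 0 : ℝ) - (if j ∈ A' then 1 else 0)) = d := by
    intro j hj
    rw [Finset.mem_Icc] at hj
    have h4 := h2 (j + k).toNat (by omega)
    have e1 : -(k : ℤ) + ((j + k).toNat : ℤ) = j := by omega
    rw [e1] at h4
    rw [h4, hd]
  have h4 : ∀ A : Finset ℤ, Adm k A →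
      ∑ j ∈ Finset.Icc (-(k : ℤ)) (k + 1), (if j ∈ A then 1 else 0 : ℝ) = k + 1 := by
    intro A hA
    rw [Finset.sum_boole, Finset.filter_mem_eq_inter, Finset.inter_eq_right.2 hA.1, hA.2]
    push_cast; ring
  have h5 : ∑ j ∈ Finset.Icc (-(k : ℤ)) (k + 1), ((if j ∈ A then 1 else 0 : ℝ) -
      (if j ∈ A' then 1 else 0)) = 0 := by
    rw [Finset.sum_sub_distrib, h4 A hA, h4 A' hA', sub_self]
  rw [Finset.sum_congr rfl h3, Finset.sum_const, nsmul_eq_mul] at h5
  have hd0 : d = 0 := by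
    rcases mul_eq_zero.1 h5 with h6 | h6
    · exfalso
      rw [Nat.cast_eq_zero, Finset.card_eq_zero] at h6
      have : -(k : ℤ) ∈ Finset.Icc (-(k : ℤ)) (k + 1) := by rw [Finset.mem_Icc]; omega
      rw [h6] at this
      exact absurd this (Finset.notMem_empty _)
    · exact h6
  ext j
  by_cases hj : j ∈ Finset.Icc (-(k : ℤ)) (k + 1)
  · have h6 := h3 j hj
    rw [hd0] at h6
    by_cases g1 : j ∈ A
    · by_cases g2 : j ∈ A'
      · exact ⟨fun _ => g2, fun _ => g1⟩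
      · exfalso
        rw [if_pos g1, if_neg g2] at h6
        norm_num at h6
    · by_cases g2 : j ∈ A'
      · exfalso
        rw [if_neg g1, if_pos g2] at h6
        norm_num at h6
      · exact ⟨fun g => absurd g g1, fun g => absurd g g2⟩
  · constructor
    · intro h6; exact absurd (hA.1 h6) hj
    · intro h6; exact absurd (hA'.1 h6) hj

/-- The number of weights. -/
lemma card_le (h : WD b f B P α S) : Nat.choose (2 * k + 2) (k + 1) ≤ P.ncard := by
  have h1 : ((Finset.powersetCard (k + 1) (Finset.Icc (-(k : ℤ)) (k + 1))).card) =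
      Nat.choose (2 * k + 2) (k + 1) := by
    rw [Finset.card_powersetCard, Int.card_Icc]
    congr 1
    omega
  rw [← h1, ← Set.ncard_coe_finset]
  refine Set.ncard_le_ncard_of_injOn (TA S k w) ?_ ?_ h.fin
  · intro A hA
    rw [Finset.mem_coe, Finset.mem_powersetCard] at hA
    exact K.TA_mem h hA
  · intro A hA A' hA' he
    rw [Finset.mem_coe, Finset.mem_powersetCard] at hA hA'
    exact K.TA_inj hA hA' he

lemma k_lt (h : WD b f B P α S) : k < P.ncard := by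
  have h1 := K.card_le h
  have h2 := Nat.choose_le_middle 1 (2 * k + 2)
  rw [Nat.choose_one_right] at h2
  have h3 : (2 * k + 2) / 2 = k + 1 := by omega
  rw [h3] at h2
  omega

end Chn

/-- The lowest weight. -/
lemma nn_bot {l : ℤ} (hl : -(k : ℤ) ≤ l) (hl' : l ≤ k) :
    nn k (Finset.Icc (1 : ℤ) (k + 1)) l = k + 1 - |(l : ℝ)| := by
  have e1 : ((Finset.Icc (1 : ℤ) (k + 1)).filter fun j => l < j) =
      Finset.Icc (max 1 (l + 1)) (k + 1) := by
    ext j
    simp only [Finset.mem_filter, Finset.mem_Icc, max_le_iff]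
    omega
  have e2 : ((Finset.Icc (-(k : ℤ)) 0).filter fun j => l < j) = Finset.Icc (l + 1) 0 := by
    ext j
    simp only [Finset.mem_filter, Finset.mem_Icc]
    omega
  rw [nn, gt, gt, e1, e2, Int.card_Icc, Int.card_Icc]
  rcases le_or_gt 0 l with h0 | h0
  · have e3 : max 1 (l + 1) = l + 1 := max_eq_right (by omega)
    have e4 : ((k : ℤ) + 1 + 1 - (l + 1)).toNat = ((k : ℤ) + 1 - l).toNat := by congr 1; ring
    have e5 : ((0 : ℤ) + 1 - (l + 1)).toNat = 0 := by omega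
    have e6 : ((((k : ℤ) + 1 - l).toNat : ℤ) : ℝ) = (((k : ℤ) + 1 - l : ℤ) : ℝ) := by
      rw [Int.toNat_of_nonneg (by omega)]
    have e7 : (0 : ℝ) ≤ (l : ℝ) := by exact_mod_cast h0
    rw [e3, e4, e5, abs_of_nonneg e7]
    push_cast at e6 ⊢
    rw [e6]
    ring
  · have e3 : max 1 (l + 1) = 1 := max_eq_left (by omega)
    have e4 : ((k : ℤ) + 1 + 1 - 1).toNat = k + 1 := by omega
    have e5 : ((0 : ℤ) + 1 - (l + 1)).toNat = (-l).toNat := by congr 1; ring
    have e6 : (((-l).toNat : ℤ) : ℝ) = ((-l : ℤ) : ℝ) := by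
      rw [Int.toNat_of_nonneg (by omega)]
    have e7 : (l : ℝ) < 0 := by exact_mod_cast h0
    rw [e3, e4, e5, abs_of_neg e7]
    push_cast at e6 ⊢
    rw [e6]

lemma adm_bot (k : ℕ) : Adm k (Finset.Icc (1 : ℤ) (k + 1)) := by
  refine ⟨?_, ?_⟩
  · intro j hj
    rw [Finset.mem_Icc] at hj ⊢
    omega
  · rw [Int.card_Icc]; omega

namespace Chn

variable (K : Chn b B α S c k w)

include K

/-- Integrality. -/
lemma int0 (h : WD b f B P α S) {γ : E} (hγ : γ ∈ B) {i : ℤ} (hi : 0 ≤ i) (hi' : i ≤ k)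
    (hne : w i ≠ γ) (h0 : b (w i) γ ≠ 0) : 2 * b (w i) γ ≤ - b γ γ := by
  have hA : Adm k (Finset.Icc (i - k) i) := by
    refine ⟨?_, ?_⟩
    · intro j hj
      rw [Finset.mem_Icc] at hj ⊢
      omega
    · rw [Int.card_Icc]; omega
  have m1 : i ∈ Finset.Icc (i - k) i := by rw [Finset.mem_Icc]; omega
  have m2 : i + 1 ∉ Finset.Icc (i - (k : ℤ)) i := by rw [Finset.mem_Icc]; omega
  have h1 := K.TA_mem h hA
  have h2 := K.TA_mem h (adm_move hA (by omega) hi' m1 m2)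
  rw [K.TA_move (by omega) hi' m1 m2] at h2
  have g1 := h.tri _ h1 γ hγ
  have g2 := h.tri _ h2 γ hγ
  have g3 := h.obt _ (K.mem i (by omega) hi') γ hγ hne
  have g4 := h.bpos hγ
  rw [map_sub, LinearMap.sub_apply] at g2
  by_contra hcon
  push Not at hcon
  apply h0
  rcases g1 with g1 | g1 | g1 <;> rcases g2 with g2 | g2 | g2 <;> linarith

lemma int (h : WD b f B P α S) {γ : E} (hγ : γ ∈ B) {i : ℤ} (hi : -(k : ℤ) ≤ i) (hi' : i ≤ k)
    (hne : w i ≠ γ) (h0 : b (w i) γ ≠ 0) : 2 * b (w i) γ ≤ - b γ γ := by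
  rcases le_or_gt 0 i with h1 | h1
  · exact K.int0 h hγ h1 hi' hne h0
  · have h2 : b (w (-i)) (α γ) = b (w i) γ := by rw [← K.al i hi hi', h.iso]
    have h3 := K.int0 h (h.aB γ hγ) (i := -i) (by omega) (by omega) (by
      intro g
      rw [← K.al i hi hi'] at g
      exact hne (h.inj g)) (by rw [h2]; exact h0)
    rw [h2, h.iso] at h3
    exact h3

/-- Simple roots adjacent to the chain. -/
lemma nbr (h : WD b f B P α S) {γ : E} (hγ : γ ∈ B)
    (hn : ∀ i : ℤ, -(k : ℤ) ≤ i → i ≤ k → w i ≠ γ) {i : ℤ} (hi : -(k : ℤ) ≤ i) (hi' : i ≤ k)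
    (h0 : b (w i) γ ≠ 0) :
    b S γ = 0 ∧ (i = k ∨ i = -(k : ℤ)) ∧ 2 * b (w i) γ = - b γ γ ∧
      (∀ j : ℤ, -(k : ℤ) ≤ j → j ≤ k → j ≠ i → b (w j) γ = 0) ∧
      2 * b (TA S k w (Finset.Icc (1 : ℤ) (k + 1))) γ = b γ γ := by
  have hγγ := h.bpos hγ
  have hint := K.int h hγ hi hi' (hn i hi hi') h0
  have hle : ∀ j ∈ Finset.Icc (-(k : ℤ)) k, b (w j) γ ≤ 0 := by
    intro j hj
    rw [Finset.mem_Icc] at hj
    exact h.obt _ (K.mem j hj.1 hj.2) γ hγ (hn j hj.1 hj.2)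
  have hS0 : 0 ≤ b S γ := by
    rcases h.tri S h.SP γ hγ with g | g | g
    · linarith
    · linarith
    · exact absurd ((h.up S h.SP γ hγ).1 g) (h.top γ hγ)
  have hbot := h.tri _ (K.TA_mem h (adm_bot k)) γ hγ
  have hval : b (TA S k w (Finset.Icc (1 : ℤ) (k + 1))) γ =
      b S γ + ∑ l ∈ Finset.Icc (-(k : ℤ)) k, ((k : ℝ) + 1 - |(l : ℝ)|) * (- b (w l) γ) := by
    rw [b_TA, sub_eq_add_neg, ← Finset.sum_neg_distrib]
    congr 1
    refine Finset.sum_congr rfl fun l hl => ?_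
    rw [Finset.mem_Icc] at hl
    rw [nn_bot hl.1 hl.2]; ring
  have hab : ∀ l : ℤ, -(k : ℤ) ≤ l → l ≤ k → |(l : ℝ)| ≤ k := by
    intro l h1 h2
    rw [abs_le]
    exact ⟨by exact_mod_cast h1, by exact_mod_cast h2⟩
  have hF : ∀ l ∈ Finset.Icc (-(k : ℤ)) k, 0 ≤ ((k : ℝ) + 1 - |(l : ℝ)|) * (- b (w l) γ) := by
    intro l hl
    have h1 := hle l hl
    rw [Finset.mem_Icc] at hl
    have h2 := hab l hl.1 hl.2
    exact mul_nonneg (by linarith) (by linarith)
  have him : i ∈ Finset.Icc (-(k : ℤ)) k := Finset.mem_Icc.2 ⟨hi, hi'⟩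
  have hsum := Finset.add_sum_erase (Finset.Icc (-(k : ℤ)) k)
    (fun l => ((k : ℝ) + 1 - |(l : ℝ)|) * (- b (w l) γ)) him
  have herase : 0 ≤ ∑ l ∈ (Finset.Icc (-(k : ℤ)) k).erase i,
      ((k : ℝ) + 1 - |(l : ℝ)|) * (- b (w l) γ) :=
    Finset.sum_nonneg fun l hl => hF l (Finset.mem_of_mem_erase hl)
  have hup : 2 * b (TA S k w (Finset.Icc (1 : ℤ) (k + 1))) γ ≤ b γ γ := by
    rcases hbot with g | g | g <;> linarith
  have hai : 0 < - b (w i) γ := by linarith
  have hki : (0 : ℝ) ≤ k - |(i : ℝ)| := by linarith [hab i hi hi']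
  have hprod : 0 ≤ ((k : ℝ) - |(i : ℝ)|) * (- b (w i) γ) := mul_nonneg hki hai.le
  have hexp : ((k : ℝ) + 1 - |(i : ℝ)|) * (- b (w i) γ) =
      ((k : ℝ) - |(i : ℝ)|) * (- b (w i) γ) + (- b (w i) γ) := by ring
  rw [hexp] at hsum
  rw [hval, ← hsum] at hup
  have e1 : b S γ = 0 := by linarith
  have e2 : ((k : ℝ) - |(i : ℝ)|) * (- b (w i) γ) = 0 := by linarith
  have e3 : ∑ l ∈ (Finset.Icc (-(k : ℤ)) k).erase i,
      ((k : ℝ) + 1 - |(l : ℝ)|) * (- b (w l) γ) = 0 := by linarith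
  have e4 : 2 * b (w i) γ = - b γ γ := by linarith
  have e5 : |(i : ℝ)| = k := by
    rcases mul_eq_zero.1 e2 with g | g
    · linarith
    · exact absurd g hai.ne'
  refine ⟨e1, ?_, e4, ?_, ?_⟩
  · rcases abs_eq (Nat.cast_nonneg k) |>.1 e5 with g | g
    · left; exact_mod_cast g
    · right
      have g' : (i : ℝ) = ((-(k : ℤ) : ℤ) : ℝ) := by rw [g]; push_cast; ring
      exact_mod_cast g'
  · intro j hj hj' hji
    have hjm : j ∈ (Finset.Icc (-(k : ℤ)) k).erase i :=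
      Finset.mem_erase.2 ⟨hji, Finset.mem_Icc.2 ⟨hj, hj'⟩⟩
    have g1 := (Finset.sum_eq_zero_iff_of_nonneg fun l hl =>
      hF l (Finset.mem_of_mem_erase hl)).1 e3 j hjm
    have g2 := hab j hj hj'
    rcases mul_eq_zero.1 g1 with g | g
    · linarith
    · linarith
  · rw [hval, ← hsum, e1, e2, e3]
    linarith

lemma bot_sub (h : WD b f B P α S) {γ : E} (hγ : γ ∈ B)
    (hn : ∀ i : ℤ, -(k : ℤ) ≤ i → i ≤ k → w i ≠ γ) {i : ℤ} (hi : -(k : ℤ) ≤ i) (hi' : i ≤ k)
    (h0 : b (w i) γ ≠ 0) : TA S k w (Finset.Icc (1 : ℤ) (k + 1)) - γ ∈ P :=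
  (h.dn _ (K.TA_mem h (adm_bot k)) γ hγ).1 (K.nbr h hγ hn hi hi' h0).2.2.2.2

lemma lab_bot (hk : 1 ≤ k) {i : ℤ} (h1 : i = k ∨ i = -(k : ℤ)) :
    b (TA S k w (Finset.Icc (1 : ℤ) (k + 1))) (w i) = 0 := by
  rw [K.lab_TA (adm_bot k) (by omega) (by omega)]
  simp only [Finset.mem_Icc]
  rcases h1 with rfl | rfl
  · rw [if_pos (by omega), if_pos (by omega), sub_self, mul_zero]
  · rw [if_neg (by omega), if_neg (by omega), sub_self, mul_zero]

/-- The length of the adjacent simple roots. -/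
lemma nbr_len (h : WD b f B P α S) (hk : 1 ≤ k) {γ : E} (hγ : γ ∈ B)
    (hn : ∀ i : ℤ, -(k : ℤ) ≤ i → i ≤ k → w i ≠ γ) {i : ℤ} (hi : -(k : ℤ) ≤ i) (hi' : i ≤ k)
    (h0 : b (w i) γ ≠ 0) : b γ γ = 2 * c ∧ b (w i) γ = - c := by
  obtain ⟨_, h1, h2, _, _⟩ := K.nbr h hγ hn hi hi' h0
  have h3 := K.bot_sub h hγ hn hi hi' h0
  have h4 := h.tri _ h3 (w i) (K.mem i hi hi')
  have hγγ := h.bpos hγ
  have c0 := K.c0
  rw [map_sub, LinearMap.sub_apply, K.lab_bot hk h1, h.symm γ (w i), K.gram i i hi hi' hi hi',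
    if_pos rfl] at h4
  have h5 : b γ γ = 2 * c := by
    rcases h4 with g | g | g <;> linarith
  exact ⟨h5, by linarith⟩

/-- Two adjacent simple roots. -/
lemma nbr_two (h : WD b f B P α S) (hk : 1 ≤ k) {γ γ' : E} (hγ : γ ∈ B)
    (hn : ∀ i : ℤ, -(k : ℤ) ≤ i → i ≤ k → w i ≠ γ) {i : ℤ} (hi : -(k : ℤ) ≤ i) (hi' : i ≤ k)
    (h0 : b (w i) γ ≠ 0) (hγ' : γ' ∈ B)
    (hn' : ∀ i : ℤ, -(k : ℤ) ≤ i → i ≤ k → w i ≠ γ') {j : ℤ} (hj : -(k : ℤ) ≤ j) (hj' : j ≤ k)
    (h0' : b (w j) γ' ≠ 0) (hne : γ ≠ γ') : b γ γ' = 0 ∧ i ≠ j := by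
  obtain ⟨_, h1, _, _, _⟩ := K.nbr h hγ hn hi hi' h0
  obtain ⟨_, _, _, _, h2⟩ := K.nbr h hγ' hn' hj hj' h0'
  obtain ⟨l1, l2⟩ := K.nbr_len h hk hγ hn hi hi' h0
  obtain ⟨l3, l4⟩ := K.nbr_len h hk hγ' hn' hj hj' h0'
  have c0 := K.c0
  have h3 := K.bot_sub h hγ hn hi hi' h0
  have h4 := h.tri _ h3 γ' hγ'
  have h5 := h.obt γ hγ γ' hγ' hne
  rw [map_sub, LinearMap.sub_apply] at h4
  have h6 : b γ γ' = 0 := by
    rcases h4 with g | g | g <;> linarith
  refine ⟨h6, ?_⟩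
  rintro rfl
  have h7 : TA S k w (Finset.Icc (1 : ℤ) (k + 1)) - γ - γ' ∈ P := by
    refine (h.dn _ h3 γ' hγ').1 ?_
    rw [map_sub, LinearMap.sub_apply, h6, sub_zero]
    exact h2
  have h8 := h.tri _ h7 (w i) (K.mem i hi hi')
  rw [map_sub, map_sub, LinearMap.sub_apply, LinearMap.sub_apply, K.lab_bot hk h1,
    h.symm γ (w i), h.symm γ' (w i), K.gram i i hi hi' hi hi', if_pos rfl, l2, l4] at h8
  rcases h8 with g | g | g <;> linarith

/-- The extension of the chain. -/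
lemma extend (h : WD b f B P α S) (hk : 1 ≤ k) {γ : E} (hγ : γ ∈ B)
    (hn : ∀ i : ℤ, -(k : ℤ) ≤ i → i ≤ k → w i ≠ γ) {i : ℤ} (hi : -(k : ℤ) ≤ i) (hi' : i ≤ k)
    (h0 : b (w i) γ ≠ 0) : ∃ w', Chn b B α S c (k + 1) w' := by
  -- the reflected root
  have hrefl : ∀ γ ∈ B, (∀ i : ℤ, -(k : ℤ) ≤ i → i ≤ k → w i ≠ γ) →
      (α γ ∈ B ∧ ∀ i : ℤ, -(k : ℤ) ≤ i → i ≤ k → w i ≠ α γ) := by
    intro γ hγ hn
    refine ⟨h.aB γ hγ, fun j hj hj' g => ?_⟩
    have h1 := K.al (-j) (by omega) (by omega)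
    rw [neg_neg, g] at h1
    exact hn (-j) (by omega) (by omega) (h.inj h1)
  have hb : ∀ γ, ∀ i : ℤ, -(k : ℤ) ≤ i → i ≤ k → b (w (-i)) (α γ) = b (w i) γ := by
    intro γ i hi hi'
    rw [← K.al i hi hi', h.iso]
  -- a root adjacent to the upper end
  obtain ⟨γ, hγ, hn, h0⟩ : ∃ γ ∈ B, (∀ i : ℤ, -(k : ℤ) ≤ i → i ≤ k → w i ≠ γ) ∧
      b (w k) γ ≠ 0 := by
    rcases (K.nbr h hγ hn hi hi' h0).2.1 with g | g
    · exact ⟨γ, hγ, hn, by rw [← g]; exact h0⟩
    · obtain ⟨h1, h2⟩ := hrefl γ hγ hn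
      refine ⟨α γ, h1, h2, ?_⟩
      have h3 := hb γ i hi hi'
      rw [g, neg_neg] at h3
      rw [h3, ← g]
      exact h0
  obtain ⟨γ', hγe⟩ : ∃ γ', γ' = α γ := ⟨_, rfl⟩
  obtain ⟨hγ', hn'⟩ := hrefl γ hγ hn
  rw [← hγe] at hγ' hn'
  have k1 : -(k : ℤ) ≤ k := by omega
  have h0' : b (w (-(k : ℤ))) γ' ≠ 0 := by
    rw [hγe, hb γ k k1 le_rfl]; exact h0
  obtain ⟨a1, _, _, a2, _⟩ := K.nbr h hγ hn k1 le_rfl h0
  obtain ⟨a1', _, _, a2', _⟩ := K.nbr h hγ' hn' le_rfl k1 h0'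
  obtain ⟨l1, l2⟩ := K.nbr_len h hk hγ hn k1 le_rfl h0
  obtain ⟨l1', l2'⟩ := K.nbr_len h hk hγ' hn' le_rfl k1 h0'
  have hne : γ ≠ γ' := by
    intro g
    apply h0'
    rw [← g]
    exact a2 _ le_rfl k1 (by omega)
  have hgg := (K.nbr_two h hk hγ hn k1 le_rfl h0 hγ' hn' le_rfl k1 h0' hne).1
  -- the automorphism is an involution
  have hinv : α γ' = γ := by
    by_contra hcon
    obtain ⟨hγ'', hn''⟩ := hrefl γ' hγ' hn'
    have h0'' : b (w k) (α γ') ≠ 0 := by
      have h3 := hb γ' (-(k : ℤ)) le_rfl k1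
      rw [neg_neg] at h3
      rw [h3]; exact h0'
    exact (K.nbr_two h hk hγ'' hn'' k1 le_rfl h0'' hγ hn k1 le_rfl h0 hcon).2 rfl
  have b1 : ∀ j : ℤ, -(k : ℤ) ≤ j → j ≤ k → b (w j) γ = if j = k then - c else 0 := by
    intro j hj hj'
    split_ifs with g
    · rw [g]; exact l2
    · exact a2 j hj hj' g
  have b2 : ∀ j : ℤ, -(k : ℤ) ≤ j → j ≤ k → b (w j) γ' = if j = -(k : ℤ) then - c else 0 := by
    intro j hj hj'
    split_ifs with g
    · rw [g]; exact l2'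
    · exact a2' j hj hj' g
  obtain ⟨w', hw'⟩ : ∃ w' : ℤ → E, w' = fun i : ℤ => if i = k + 1 then γ else
    if i = -((k : ℤ) + 1) then γ' else w i := ⟨_, rfl⟩
  have v1 : w' (k + 1) = γ := by rw [hw']; exact if_pos rfl
  have v2 : w' (-((k : ℤ) + 1)) = γ' := by
    rw [hw']
    change (if -((k : ℤ) + 1) = k + 1 then γ else _) = _
    rw [if_neg (by omega), if_pos rfl]
  have v3 : ∀ i : ℤ, -(k : ℤ) ≤ i → i ≤ k → w' i = w i := by
    intro i hi hi'
    rw [hw']
    change (if i = k + 1 then γ else _) = _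
    rw [if_neg (by omega), if_neg (by omega)]
  have cases : ∀ i : ℤ, -((k + 1 : ℕ) : ℤ) ≤ i → i ≤ ((k + 1 : ℕ) : ℤ) →
      i = k + 1 ∨ i = -((k : ℤ) + 1) ∨ (-(k : ℤ) ≤ i ∧ i ≤ k) := by
    intro i hi hi'
    push_cast at hi hi'
    omega
  refine ⟨w', K.c0, ?_, ?_, ?_, ?_⟩
  · intro i hi hi'
    rcases cases i hi hi' with rfl | rfl | ⟨g1, g2⟩
    · rw [v1]; exact hγ
    · rw [v2]; exact hγ'
    · rw [v3 i g1 g2]; exact K.mem i g1 g2
  · intro i j hi hi' hj hj'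
    rcases cases i hi hi' with rfl | rfl | ⟨g1, g2⟩
    · rcases cases j hj hj' with rfl | rfl | ⟨g3, g4⟩
      · rw [v1, if_pos rfl, l1]
      · rw [v1, v2, hgg, if_neg (by omega), if_neg (by omega)]
      · rw [v1, v3 j g3 g4, h.symm, b1 j g3 g4, if_neg (by omega : ¬ (k : ℤ) + 1 = j)]
        by_cases e : j = k
        · rw [if_pos e, if_pos (by omega)]
        · rw [if_neg e, if_neg (by omega)]
    · rcases cases j hj hj' with rfl | rfl | ⟨g3, g4⟩
      · rw [v1, v2, h.symm, hgg, if_neg (by omega), if_neg (by omega)]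
      · rw [v2, if_pos rfl, l1']
      · rw [v2, v3 j g3 g4, h.symm, b2 j g3 g4, if_neg (by omega : ¬ -((k : ℤ) + 1) = j)]
        by_cases e : j = -(k : ℤ)
        · rw [if_pos e, if_pos (by omega)]
        · rw [if_neg e, if_neg (by omega)]
    · rcases cases j hj hj' with rfl | rfl | ⟨g3, g4⟩
      · rw [v1, v3 i g1 g2, b1 i g1 g2, if_neg (by omega : ¬ i = (k : ℤ) + 1)]
        by_cases e : i = k
        · rw [if_pos e, if_pos (by omega)]
        · rw [if_neg e, if_neg (by omega)]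
      · rw [v2, v3 i g1 g2, b2 i g1 g2, if_neg (by omega : ¬ i = -((k : ℤ) + 1))]
        by_cases e : i = -(k : ℤ)
        · rw [if_pos e, if_pos (by omega)]
        · rw [if_neg e, if_neg (by omega)]
      · rw [v3 i g1 g2, v3 j g3 g4]
        exact K.gram i j g1 g2 g3 g4
  · intro i hi hi'
    rcases cases i hi hi' with rfl | rfl | ⟨g1, g2⟩
    · rw [v1, a1, if_neg (by omega)]
    · rw [v2, a1', if_neg (by omega)]
    · rw [v3 i g1 g2]; exact K.lab i g1 g2
  · intro i hi hi'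
    rcases cases i hi hi' with rfl | rfl | ⟨g1, g2⟩
    · rw [v1, v2, hγe]
    · rw [v2, neg_neg, v1, hinv]
    · rw [v3 i g1 g2, v3 (-i) (by omega) (by omega)]; exact K.al i g1 g2

/-- The weight in the middle of the chain, if the chain contains all simple roots. -/
lemma full (h : WD b f B P α S) (hk : 1 ≤ k)
    (hB : ∀ γ ∈ B, ∃ i : ℤ, -(k : ℤ) ≤ i ∧ i ≤ k ∧ w i = γ) :
    ∃ T₀ ∈ P, ∃ D : Finset E, (∀ γ ∈ D, γ ∈ B) ∧ (∀ γ ∈ D, ∀ γ' ∈ D, γ ≠ γ' → b γ γ' = 0) ∧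
      (∀ γ ∈ D, 2 * b T₀ γ = b γ γ) ∧ (∀ ε ∈ B, 2 * b T₀ ε = ∑ γ ∈ D, b γ ε) ∧
      D.card = k + 1 ∧ P.ncard = Nat.choose (2 * k + 2) (k + 1) := by
  classical
  -- all weights
  have hall : ∀ T ∈ P, ∃ A, Adm k A ∧ T = TA S k w A := by
    by_contra hcon
    push Not at hcon
    obtain ⟨T', hT', hcon'⟩ := hcon
    obtain ⟨T, ⟨hT, hTn⟩, hmax⟩ : ∃ T ∈ {T | T ∈ P ∧ ∀ A, Adm k A → T ≠ TA S k w A},
        ∀ U ∈ {T | T ∈ P ∧ ∀ A, Adm k A → T ≠ TA S k w A}, f U ≤ f T :=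
      Set.exists_max_image _ f (h.fin.subset fun T hT => hT.1) ⟨T', hT', hcon'⟩
    have hTS : T ≠ S := by
      rintro rfl
      exact hTn _ (adm_A0 k) K.TA_A0.symm
    obtain ⟨β, hβ, hup⟩ := h.ex T hT hTS
    have h1 : ∃ A, Adm k A ∧ T + β = TA S k w A := by
      by_contra h2
      push Not at h2
      have h3 := hmax (T + β) ⟨hup, h2⟩
      rw [map_add] at h3
      have := h.fpos β hβ
      linarith
    obtain ⟨A, hA, hTA⟩ := h1
    obtain ⟨i, hi, hi', hiβ⟩ := hB β hβ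
    have h2 : TA S k w A - w i = T := by rw [← hTA, hiβ, add_sub_cancel_right]
    have h3 := (h.dn _ (K.TA_mem h hA) (w i) (K.mem i hi hi')).2 (by rw [h2]; exact hT)
    rw [K.lab_TA hA hi hi', K.gram i i hi hi' hi hi', if_pos rfl] at h3
    have c0 := K.c0
    have h4 : i ∈ A ∧ i + 1 ∉ A := by
      by_cases g1 : i ∈ A <;> by_cases g2 : i + 1 ∈ A
      · rw [if_pos g1, if_pos g2] at h3; linarith
      · exact ⟨g1, g2⟩
      · rw [if_neg g1, if_pos g2] at h3; linarith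
      · rw [if_neg g1, if_neg g2] at h3; linarith
    refine hTn _ (adm_move hA hi hi' h4.1 h4.2) ?_
    rw [K.TA_move hi hi' h4.1 h4.2, h2]
  have hncard : P.ncard = Nat.choose (2 * k + 2) (k + 1) := by
    have h1 : ((Finset.powersetCard (k + 1) (Finset.Icc (-(k : ℤ)) (k + 1))).card) =
        Nat.choose (2 * k + 2) (k + 1) := by
      rw [Finset.card_powersetCard, Int.card_Icc]
      congr 1
      omega
    rw [← h1, ← Set.ncard_coe_finset]
    have h2 : P = TA S k w '' (Finset.powersetCard (k + 1) (Finset.Icc (-(k : ℤ)) (k + 1)) :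
        Finset (Finset ℤ)) := by
      ext T
      constructor
      · intro hT
        obtain ⟨A, hA, rfl⟩ := hall T hT
        exact ⟨A, by rw [Finset.mem_coe, Finset.mem_powersetCard]; exact hA, rfl⟩
      · rintro ⟨A, hA, rfl⟩
        rw [Finset.mem_coe, Finset.mem_powersetCard] at hA
        exact K.TA_mem h hA
    rw [h2, Set.InjOn.ncard_image]
    intro A hA A' hA' he
    rw [Finset.mem_coe, Finset.mem_powersetCard] at hA hA'
    exact K.TA_inj hA hA' he
  -- the set of letters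
  obtain ⟨L, hL⟩ : ∃ L : Finset ℤ, L = (Finset.range (k + 1)).image
      (fun n : ℕ => -(k : ℤ) + 2 * n) := ⟨_, rfl⟩
  have hLm : ∀ j : ℤ, j ∈ L ↔ ∃ n : ℕ, n ≤ k ∧ j = -(k : ℤ) + 2 * n := by
    intro j
    rw [hL, Finset.mem_image]
    constructor
    · rintro ⟨n, hn, rfl⟩
      exact ⟨n, by rw [Finset.mem_range] at hn; omega, rfl⟩
    · rintro ⟨n, hn, rfl⟩
      exact ⟨n, by rw [Finset.mem_range]; omega, rfl⟩
  have hLc : L.card = k + 1 := by
    rw [hL, Finset.card_image_of_injective _ (fun a b hab => by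
      have h1 : -(k : ℤ) + 2 * (a : ℤ) = -(k : ℤ) + 2 * (b : ℤ) := hab
      omega), Finset.card_range]
  have hLb : ∀ j ∈ L, -(k : ℤ) ≤ j ∧ j ≤ k := by
    intro j hj
    obtain ⟨n, hn, rfl⟩ := (hLm j).1 hj
    omega
  have hLA : Adm k L := by
    refine ⟨fun j hj => ?_, hLc⟩
    have := hLb j hj
    rw [Finset.mem_Icc]; omega
  -- membership of neighbours
  have hL1 : ∀ i : ℤ, -(k : ℤ) ≤ i → i ≤ k → (i ∈ L ∧ i + 1 ∉ L) ∨
      (i ∉ L ∧ i + 1 ∈ L ∧ i - 1 ∈ L ∧ i + 1 ≤ k ∧ -(k : ℤ) ≤ i - 1) := by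
    intro i hi hi'
    rcases Int.even_or_odd (i + k) with ⟨m, hm⟩ | ⟨m, hm⟩
    · left
      refine ⟨(hLm i).2 ⟨m.toNat, by omega, by omega⟩, fun h1 => ?_⟩
      obtain ⟨n, hn, hn'⟩ := (hLm _).1 h1
      omega
    · right
      refine ⟨fun h1 => ?_, (hLm _).2 ⟨(m + 1).toNat, by omega, by omega⟩,
        (hLm _).2 ⟨m.toNat, by omega, by omega⟩, by omega, by omega⟩
      obtain ⟨n, hn, hn'⟩ := (hLm _).1 h1
      omega
  have hwinj : ∀ i : ℤ, -(k : ℤ) ≤ i → i ≤ k → ∀ j : ℤ, -(k : ℤ) ≤ j → j ≤ k → w i = w j →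
      i = j := by
    intro i hi hi' j hj hj' he
    have h1 := K.gram i i hi hi' hi hi'
    have h2 := K.gram i j hi hi' hj hj'
    rw [← he, h1, if_pos rfl] at h2
    have c0 := K.c0
    by_contra hne
    rw [if_neg hne] at h2
    split_ifs at h2 <;> linarith
  have hsum : ∀ ε, ∑ γ ∈ L.image w, b γ ε = ∑ j ∈ L, b (w j) ε := by
    intro ε
    rw [Finset.sum_image]
    intro i hi j hj he
    have h1 := hLb i hi
    have h2 := hLb j hj
    exact hwinj i h1.1 h1.2 j h2.1 h2.2 he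
  refine ⟨TA S k w L, K.TA_mem h hLA, L.image w, ?_, ?_, ?_, ?_, ?_, hncard⟩
  · intro γ hγ
    obtain ⟨i, hi, rfl⟩ := Finset.mem_image.1 hγ
    exact K.mem i (hLb i hi).1 (hLb i hi).2
  · intro γ hγ γ' hγ' hne
    obtain ⟨i, hi, rfl⟩ := Finset.mem_image.1 hγ
    obtain ⟨j, hj, rfl⟩ := Finset.mem_image.1 hγ'
    have h1 := hLb i hi
    have h2 := hLb j hj
    have h3 : i ≠ j := by rintro rfl; exact hne rfl
    obtain ⟨n, hn, hn'⟩ := (hLm _).1 hi
    obtain ⟨m, hm, hm'⟩ := (hLm _).1 hj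
    rw [K.gram i j h1.1 h1.2 h2.1 h2.2, if_neg h3, if_neg (by omega)]
  · intro γ hγ
    obtain ⟨i, hi, rfl⟩ := Finset.mem_image.1 hγ
    have h1 := hLb i hi
    have h2 := hL1 i h1.1 h1.2
    have h3 : i + 1 ∉ L := by
      rcases h2 with g | g
      · exact g.2
      · exact absurd hi g.1
    rw [K.lab_TA hLA h1.1 h1.2, if_pos hi, if_neg h3, K.gram i i h1.1 h1.2 h1.1 h1.2, if_pos rfl]
    ring
  · intro ε hε
    obtain ⟨i, hi, hi', rfl⟩ := hB ε hε
    have h1 : ∑ j ∈ L, b (w j) (w i) = 2 * (c * ((if i ∈ L then 1 else 0) -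
        (if i + 1 ∈ L then 1 else 0))) := by
      rcases hL1 i hi hi' with ⟨g1, g2⟩ | ⟨g1, g2, g3, g4, g5⟩
      · rw [if_pos g1, if_neg g2, Finset.sum_eq_single i]
        · rw [K.gram i i hi hi' hi hi', if_pos rfl]; ring
        · intro j hj hji
          have h2 := hLb j hj
          obtain ⟨n, hn, hn'⟩ := (hLm _).1 hj
          obtain ⟨m, hm, hm'⟩ := (hLm _).1 g1
          rw [K.gram j i h2.1 h2.2 hi hi', if_neg hji, if_neg (by omega)]
        · intro g; exact absurd g1 g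
      · rw [if_neg g1, if_pos g2]
        have h3 : ∑ j ∈ L, b (w j) (w i) = ∑ j ∈ L, ((if j = i + 1 then - c else 0) +
            (if j = i - 1 then - c else 0)) := by
          refine Finset.sum_congr rfl fun j hj => ?_
          have h2 := hLb j hj
          have h4 : j ≠ i := by rintro rfl; exact g1 hj
          rw [K.gram j i h2.1 h2.2 hi hi', if_neg h4]
          by_cases e1 : j = i + 1
          · rw [if_pos (Or.inl e1), if_pos e1, if_neg (by omega), add_zero]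
          · by_cases e2 : j = i - 1
            · rw [if_pos (Or.inr (by omega)), if_neg e1, if_pos e2, zero_add]
            · rw [if_neg (by omega), if_neg e1, if_neg e2, add_zero]
        rw [h3, Finset.sum_add_distrib, Finset.sum_ite_eq', Finset.sum_ite_eq', if_pos g2,
          if_pos g3]
        ring
    rw [hsum, h1, K.lab_TA hLA hi hi']
  · rw [Finset.card_image_of_injOn, hLc]
    intro i hi j hj he
    have h1 := hLb i hi
    have h2 := hLb j hj
    exact hwinj i h1.1 h1.2 j h2.1 h2.2 he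

end Chn

/-- The first chain. -/
lemma chn_start {T₀ β β' δ₁ d : E} (h : WD b f B P α S) (C : Ctx b f B P α c T₀ β β')
    (K : Chain b f B P α c T₀ β β' δ₁ S d {δ₁}) : ∃ w, Chn b B α S c 1 w := by
  have c0 := C.c0
  have hS : S = T₀ + δ₁ := by rw [K.Ueq, Finset.sum_singleton]
  have hδB := K.sub δ₁ K.d1
  have hδδ := K.nm δ₁ K.d1
  have hδα := K.fixD δ₁ K.d1
  have hαS := C.fix T₀ C.T0P le_rfl
  have hTP : T₀ - β ∈ P := (h.dn T₀ C.T0P β C.βB).1 (by rw [C.p1, C.bb])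
  have hTP' : T₀ - β - β' ∈ P := (h.dn _ hTP β' C.βB').1 (by
    rw [map_sub, LinearMap.sub_apply, C.p2, C.bo, C.bb']; ring)
  -- the automorphism is an involution
  have hinv : α β' = β := by
    by_contra hcon
    obtain ⟨γ, hγ⟩ : ∃ γ, γ = α β' := ⟨_, rfl⟩
    rw [← hγ] at hcon
    have hγB : γ ∈ B := by rw [hγ]; exact h.aB β' C.βB'
    have e1 : b γ γ = 2 * c := by rw [hγ, h.iso, C.bb']
    have e2 : b T₀ γ = c := by rw [hγ]; nth_rewrite 1 [← hαS]; rw [h.iso, C.p2]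
    have e3 : b γ δ₁ = - c := by rw [hγ]; nth_rewrite 1 [← hδα]; rw [h.iso, K.d1b']
    have n1 : β' ≠ γ := by
      intro g
      have : α β = α β' := by rw [C.aβ, ← hγ, ← g]
      exact C.ne (h.inj this)
    have o1 := h.obt β C.βB γ hγB (Ne.symm hcon)
    have o2 := h.obt β' C.βB' γ hγB n1
    have h1 := h.tri _ hTP' γ hγB
    simp only [map_sub, LinearMap.sub_apply] at h1
    rw [e1, e2] at h1
    have h2 : b β γ = 0 ∧ b β' γ = 0 := by
      constructor
      · rcases h1 with g | g | g <;> linarith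
      · rcases h1 with g | g | g <;> linarith
    have h3 : T₀ - β - β' - γ ∈ P := by
      refine (h.dn _ hTP' γ hγB).1 ?_
      simp only [map_sub, LinearMap.sub_apply]
      rw [e1, e2, h2.1, h2.2]; ring
    have h4 := h.tri _ h3 δ₁ hδB
    simp only [map_sub, LinearMap.sub_apply] at h4
    rw [K.d1T, K.d1b, K.d1b', e3, hδδ] at h4
    rcases h4 with g | g | g <;> linarith
  have hbS : ∀ v, b S v = b T₀ v + b δ₁ v := by
    intro v
    rw [hS, map_add, LinearMap.add_apply]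
  obtain ⟨w, hw⟩ : ∃ w : ℤ → E, w = fun i : ℤ => if i = 0 then δ₁ else if i = 1 then β else β' :=
    ⟨_, rfl⟩
  have v0 : w 0 = δ₁ := by rw [hw]; exact if_pos rfl
  have v1 : w 1 = β := by rw [hw]; simp
  have v2 : w (-1) = β' := by rw [hw]; simp
  have cases : ∀ i : ℤ, -((1 : ℕ) : ℤ) ≤ i → i ≤ ((1 : ℕ) : ℤ) → i = 0 ∨ i = 1 ∨ i = -1 := by
    intro i hi hi'
    push_cast at hi hi'
    omega
  have sy := h.symm
  refine ⟨w, c0, ?_, ?_, ?_, ?_⟩
  · intro i hi hi'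
    rcases cases i hi hi' with rfl | rfl | rfl
    · rw [v0]; exact hδB
    · rw [v1]; exact C.βB
    · rw [v2]; exact C.βB'
  · intro i j hi hi' hj hj'
    rcases cases i hi hi' with rfl | rfl | rfl <;> rcases cases j hj hj' with rfl | rfl | rfl
    · rw [v0, hδδ, if_pos rfl]
    · rw [v0, v1, sy, K.d1b, if_neg (by omega), if_pos (by omega)]
    · rw [v0, v2, sy, K.d1b', if_neg (by omega), if_pos (by omega)]
    · rw [v0, v1, K.d1b, if_neg (by omega), if_pos (by omega)]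
    · rw [v1, C.bb, if_pos rfl]
    · rw [v1, v2, C.bo, if_neg (by omega), if_neg (by omega)]
    · rw [v0, v2, K.d1b', if_neg (by omega), if_pos (by omega)]
    · rw [v1, v2, sy, C.bo, if_neg (by omega), if_neg (by omega)]
    · rw [v2, C.bb', if_pos rfl]
  · intro i hi hi'
    rcases cases i hi hi' with rfl | rfl | rfl
    · rw [v0, hbS, K.d1T, hδδ, if_pos rfl]; ring
    · rw [v1, hbS, C.p1, sy, K.d1b, if_neg (by omega)]; ring
    · rw [v2, hbS, C.p2, sy, K.d1b', if_neg (by omega)]; ring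
  · intro i hi hi'
    rcases cases i hi hi' with rfl | rfl | rfl
    · rw [neg_zero, v0]; exact hδα
    · rw [v1, v2]; exact C.aβ
    · rw [v2, neg_neg, v1]; exact hinv

/-- **The trichotomy.** -/
theorem trichotomy (h : WD b f B P α S) : (∀ T ∈ P, α T = T) ∨
    ∃ T₀ ∈ P, ∃ D : Finset E, (∀ γ ∈ D, γ ∈ B) ∧ (∀ γ ∈ D, ∀ γ' ∈ D, γ ≠ γ' → b γ γ' = 0) ∧
      (∀ γ ∈ D, 2 * b T₀ γ = b γ γ) ∧ (∀ ε ∈ B, 2 * b T₀ ε = ∑ γ ∈ D, b γ ε) ∧
      (Even D.card ∨ ∃ k : ℕ, 1 ≤ k ∧ D.card = 2 * k + 1 ∧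
        P.ncard = Nat.choose (4 * k + 2) (2 * k + 1)) := by
  classical
  rcases pre h with h1 | ⟨c, T₀, β, β', δ₁, d, C, K⟩ | ⟨T₀, hT₀, β, hβ, β', hβ', h1, h2, h3, h4,
    h5, h6⟩
  · exact Or.inl h1
  · right
    -- a maximal chain
    obtain ⟨w₁, K₁⟩ := chn_start h C K
    have hex : ∃ k : ℕ, 1 ≤ k ∧ (∃ w, Chn b B α S c k w) ∧ ¬ ∃ w, Chn b B α S c (k + 1) w := by
      by_contra hcon
      push Not at hcon
      have h1 : ∀ k : ℕ, ∃ w, Chn b B α S c (k + 1) w := by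
        intro k
        induction k with
        | zero => exact ⟨w₁, K₁⟩
        | succ k ih => exact hcon (k + 1) (by omega) ih
      obtain ⟨w, K'⟩ := h1 P.ncard
      have := K'.k_lt h
      omega
    obtain ⟨k, hk, ⟨w, K'⟩, hmax⟩ := hex
    have hB : ∀ γ ∈ B, ∃ i : ℤ, -(k : ℤ) ≤ i ∧ i ≤ k ∧ w i = γ := by
      have h1 := h.con {γ | ∃ i : ℤ, -(k : ℤ) ≤ i ∧ i ≤ k ∧ w i = γ} ?_ ?_ ?_
      · exact fun γ hγ => h1 hγ
      · rintro _ ⟨i, hi, hi', rfl⟩
        exact K'.mem i hi hi'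
      · exact ⟨w 0, 0, by omega, by omega, rfl⟩
      · rintro _ ⟨i, hi, hi', rfl⟩ ε hε hne
        by_contra hcon
        have hn : ∀ j : ℤ, -(k : ℤ) ≤ j → j ≤ k → w j ≠ ε := by
          intro j hj hj' g
          exact hcon ⟨j, hj, hj', g⟩
        exact hmax (K'.extend h hk hε hn hi hi' hne)
    obtain ⟨T₀, hT₀, D, d1, d2, d3, d4, d5, d6⟩ := K'.full h hk hB
    refine ⟨T₀, hT₀, D, d1, d2, d3, d4, ?_⟩
    rcases Nat.even_or_odd (k + 1) with h1 | ⟨m, hm⟩
    · left; rw [d5]; exact h1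
    · right
      refine ⟨m, by omega, by rw [d5, hm], ?_⟩
      rw [d6]
      congr 1
      omega
  · right
    refine ⟨T₀, hT₀, {β, β'}, ?_, ?_, ?_, ?_, ?_⟩
    · intro γ hγ
      rw [Finset.mem_insert, Finset.mem_singleton] at hγ
      rcases hγ with rfl | rfl
      · exact hβ
      · exact hβ'
    · intro γ hγ γ' hγ' hne
      rw [Finset.mem_insert, Finset.mem_singleton] at hγ hγ'
      rcases hγ with rfl | rfl <;> rcases hγ' with rfl | rfl
      · exact absurd rfl hne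
      · exact h2
      · rw [h.symm]; exact h2
      · exact absurd rfl hne
    · intro γ hγ
      rw [Finset.mem_insert, Finset.mem_singleton] at hγ
      rcases hγ with rfl | rfl
      · exact h4
      · exact h5
    · intro ε hε
      have h7 := h6 ε hε
      simp only [map_sub, map_smul, LinearMap.sub_apply, LinearMap.smul_apply, smul_eq_mul] at h7
      rw [Finset.sum_pair h1]
      linarith
    · left
      rw [Finset.card_pair h1]
      exact even_two

end Run7.h226.Comb
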