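import Pool.Agent.Run7.h226.Minu

/-!
# The conjugate regular element
-/

set_option linter.unusedSectionVars false

namespace Run7.h226.Wts

open Matrix Pool.Agent.N996.BP Pool.Agent.N996.FP ComplexOrder

variable {ι : Type} [Fintype ι] [DecidableEq ι] {h : Submodule ℂ (Matrix ι ι ℂ)}
  {V : Submodule ℂ (ι → ℂ)} {x y g N : Matrix ι ι ℂ} {𝔞 𝔟 : Submodule ℂ (Matrix ι ι ℂ)}
  {n : ℕ}

/-- The data. -/
structure Gd (n : ℕ) (h : Submodule ℂ (Matrix ι ι ℂ)) (V : Submodule ℂ (ι → ℂ))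
    (x y g : Matrix ι ι ℂ) : Prop where
  C : Cj n h x y g gᴴ
  gV : ∀ v ∈ V, g *ᵥ v ∈ V
  gh : ∀ z ∈ h, g * z * gᴴ ∈ h
  gh' : ∀ z ∈ h, gᴴ * z * g ∈ h

lemma EA_conj {g g' x e : Matrix ι ι ℂ} (hg : g' * g = 1) {d : ℂ} (he : e ∈ EA x d) :
    g * e * g' ∈ EA (g * x * g') d := by
  rw [mem_EA] at he ⊢
  have e1 : g * x * g' * (g * e * g') = g * (x * e) * g' := by
    calc g * x * g' * (g * e * g') = g * x * (g' * g) * e * g' := by simp only [Matrix.mul_assoc]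
      _ = _ := by rw [hg, Matrix.mul_one]; simp only [Matrix.mul_assoc]
  have e2 : g * e * g' * (g * x * g') = g * (e * x) * g' := by
    calc g * e * g' * (g * x * g') = g * e * (g' * g) * x * g' := by simp only [Matrix.mul_assoc]
      _ = _ := by rw [hg, Matrix.mul_one]; simp only [Matrix.mul_assoc]
  rw [e1, e2, ← Matrix.sub_mul, ← Matrix.mul_sub, he, Matrix.mul_smul, Matrix.smul_mul]

lemma conj_inv {g g' e : Matrix ι ι ℂ} (hg : g' * g = 1) : g' * (g * e * g') * g = e := by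
  calc g' * (g * e * g') * g = (g' * g) * e * (g' * g) := by simp only [Matrix.mul_assoc]
    _ = e := by rw [hg, Matrix.one_mul, Matrix.mul_one]

lemma br_conj {g g' : Matrix ι ι ℂ} (hg : g' * g = 1) (a b : Matrix ι ι ℂ) :
    br (g * a * g') (g * b * g') = g * br a b * g' := by
  have e1 : g * a * g' * (g * b * g') = g * (a * b) * g' := by
    calc g * a * g' * (g * b * g') = g * a * (g' * g) * b * g' := by simp only [Matrix.mul_assoc]
      _ = _ := by rw [hg, Matrix.mul_one]; simp only [Matrix.mul_assoc]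
  have e2 : g * b * g' * (g * a * g') = g * (b * a) * g' := by
    calc g * b * g' * (g * a * g') = g * b * (g' * g) * a * g' := by simp only [Matrix.mul_assoc]
      _ = _ := by rw [hg, Matrix.mul_one]; simp only [Matrix.mul_assoc]
  rw [br, br, e1, e2, ← Matrix.sub_mul, ← Matrix.mul_sub]

lemma tr_conj {g g' : Matrix ι ι ℂ} (hg : g' * g = 1) (a b : Matrix ι ι ℂ) :
    ((g * a * g') * (g * b * g')).trace = (a * b).trace := by
  have e1 : g * a * g' * (g * b * g') = g * (a * b) * g' := by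
    calc g * a * g' * (g * b * g') = g * a * (g' * g) * b * g' := by simp only [Matrix.mul_assoc]
      _ = _ := by rw [hg, Matrix.mul_one]; simp only [Matrix.mul_assoc]
  rw [e1, Matrix.trace_mul_comm, ← Matrix.mul_assoc, hg, Matrix.one_mul]

lemma ip_conj {g g' : Matrix ι ι ℂ} (hg : g' * g = 1) (a b : Matrix ι ι ℂ) :
    ip (g * a * g') (g * b * g') = ip a b := by
  rw [ip, tr_conj hg, ip]

namespace Gd

variable (G : Gd n h V x y g)

include G

lemma u1 : g * gᴴ = 1 := G.C.inv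

lemma u2 : gᴴ * g = 1 := mul_eq_one_comm.1 G.C.inv

lemma hy : y = g * x * gᴴ := G.C.yx

lemma hx' : x = gᴴ * y * g := by
  rw [G.hy, conj_inv G.u2]

lemma y_reg (hx : IsReg h x) : IsReg h y where
  mem := G.C.mem
  herm := G.C.herm
  reg t ht htH hty d := by
    have h1 : gᴴ * t * g ∈ h := G.gh' t ht
    have h2 : (gᴴ * t * g)ᴴ = gᴴ * t * g := by
      rw [Matrix.conjTranspose_mul, Matrix.conjTranspose_mul, htH,
        Matrix.conjTranspose_conjTranspose, Matrix.mul_assoc]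
    have h3 : x * (gᴴ * t * g) = (gᴴ * t * g) * x := by
      have e0 : br y t = 0 := br_eq_zero.2 hty
      have e1 := br_conj G.u1 y t
      rw [e0, Matrix.mul_zero, Matrix.zero_mul, ← G.hx'] at e1
      exact br_eq_zero.1 e1
    obtain ⟨c, hc⟩ := hx.reg _ h1 h2 h3 d
    refine ⟨c, fun z hz => ?_⟩
    have h4 := EA_conj G.u1 hz
    rw [← G.hx'] at h4
    have h5 := EA_conj G.u2 (hc _ h4)
    rw [conj_inv G.u1, conj_inv G.u1] at h5
    exact h5

lemma ct_eq (hM : Mdl h V) (hx : IsReg h x) : ct h y = ct h x := by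
  have hy := G.y_reg hx
  apply le_antisymm
  · intro t ht
    refine ⟨ht.1, ?_⟩
    exact (hy.comm hM.la.star ht.1 ht.2 (g := x) G.C.comm.symm).symm
  · intro t ht
    refine ⟨ht.1, ?_⟩
    exact (hx.comm hM.la.star ht.1 ht.2 (g := y) G.C.comm).symm

lemma wt_iff (hM : Mdl h V) (hx : IsReg h x) {v : ι → ℂ} {T : Matrix ι ι ℂ} :
    IsWt h y v T ↔ IsWt h x v T := by
  have e := G.ct_eq hM hx
  constructor
  · intro hT
    exact ⟨by rw [← e]; exact hT.mem, hT.herm, fun t ht => hT.val t (by rw [e]; exact ht)⟩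
  · intro hT
    exact ⟨by rw [e]; exact hT.mem, hT.herm, fun t ht => hT.val t (by rw [← e]; exact ht)⟩

lemma wts_eq (hM : Mdl h V) (hx : IsReg h x) : wts h y V = wts h x V := by
  ext T
  constructor
  · rintro ⟨v, hv, hv0, hT⟩
    exact ⟨v, hv, hv0, (G.wt_iff hM hx).1 hT⟩
  · rintro ⟨v, hv, hv0, hT⟩
    exact ⟨v, hv, hv0, (G.wt_iff hM hx).2 hT⟩

lemma ct_conj' (hM : Mdl h V) (hx : IsReg h x) {t : Matrix ι ι ℂ} (ht : t ∈ ct h x) :
    gᴴ * t * g ∈ ct h x := by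
  refine ⟨G.gh' t ht.1, ?_⟩
  rw [← G.ct_eq hM hx] at ht
  have e0 : br y t = 0 := br_eq_zero.2 ht.2
  have e1 := br_conj G.u1 y t
  rw [e0, Matrix.mul_zero, Matrix.zero_mul, ← G.hx'] at e1
  exact br_eq_zero.1 e1

lemma ct_conj (hM : Mdl h V) (hx : IsReg h x) {t : Matrix ι ι ℂ} (ht : t ∈ ct h x) :
    g * t * gᴴ ∈ ct h x := by
  rw [← G.ct_eq hM hx]
  refine ⟨G.gh t ht.1, ?_⟩
  have e0 : br x t = 0 := br_eq_zero.2 ht.2
  have e1 := br_conj G.u2 x t
  rw [e0, Matrix.mul_zero, Matrix.zero_mul, ← G.hy] at e1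
  exact br_eq_zero.1 e1

/-- The action on the weights. -/
lemma al_wt (hM : Mdl h V) (hx : IsReg h x) {v : ι → ℂ} {T : Matrix ι ι ℂ}
    (hT : IsWt h x v T) : IsWt h x (g *ᵥ v) (g * T * gᴴ) where
  mem := G.ct_conj hM hx hT.mem
  herm := by
    rw [Matrix.conjTranspose_mul, Matrix.conjTranspose_mul, hT.herm,
      Matrix.conjTranspose_conjTranspose, Matrix.mul_assoc]
  val t ht := by
    have h1 := hT.val _ (G.ct_conj' hM hx ht)
    have h2 : t * g = g * (gᴴ * t * g) := by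
      calc t * g = (g * gᴴ) * t * g := by rw [G.u1, Matrix.one_mul]
        _ = _ := by simp only [Matrix.mul_assoc]
    rw [Matrix.mulVec_mulVec, h2, ← Matrix.mulVec_mulVec, h1, Matrix.mulVec_smul]
    congr 1
    calc (T * (gᴴ * t * g)).trace = ((T * gᴴ * t) * g).trace := by simp only [Matrix.mul_assoc]
      _ = (g * (T * gᴴ * t)).trace := by rw [Matrix.trace_mul_comm]
      _ = _ := by simp only [Matrix.mul_assoc]

lemma gv_ne {v : ι → ℂ} (hv : v ≠ 0) : g *ᵥ v ≠ 0 := by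
  intro h0
  apply hv
  have : (gᴴ * g) *ᵥ v = 0 := by rw [← Matrix.mulVec_mulVec, h0, Matrix.mulVec_zero]
  rwa [G.u2, Matrix.one_mulVec] at this

lemma al_mem (hM : Mdl h V) (hx : IsReg h x) {T : Matrix ι ι ℂ} (hT : T ∈ wts h x V) :
    g * T * gᴴ ∈ wts h x V := by
  obtain ⟨v, hv, hv0, hT⟩ := hT
  exact ⟨g *ᵥ v, G.gV v hv, G.gv_ne hv0, G.al_wt hM hx hT⟩

/-- Weights with the same values at `x` and `y` are fixed. -/
lemma al_fix (hM : Mdl h V) (hx : IsReg h x) {T : Matrix ι ι ℂ} (hT : T ∈ wts h x V)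
    (he : ip T x = ip T y) : g * T * gᴴ = T := by
  have h1 := G.al_mem hM hx hT
  rw [← G.wts_eq hM hx] at h1 hT
  refine wts_inj hM (G.y_reg hx) h1 hT ?_
  rw [← he, G.hy, ip_conj G.u2]

/-- Positive root vectors are mapped to positive root vectors. -/
lemma pos1 (hM : Mdl h V) (hx : IsReg h x) {a : ℝ} (ha : 0 < a) {e : Matrix ι ι ℂ} (he : e ∈ h)
    (hea : e ∈ EA x a) (he0 : e ≠ 0) : ∃ b : ℝ, 0 < b ∧ g * e * gᴴ ∈ EA x b := by
  have h1 : g * e * gᴴ ∈ EA y a := by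
    rw [G.hy]; exact EA_conj G.u2 hea
  obtain ⟨c, hc⟩ := (G.y_reg hx).reg x hx.mem hx.herm G.C.comm.symm a
  have h2 := hc _ h1
  have h3 : g * e * gᴴ ≠ 0 := by
    intro h0
    apply he0
    rw [← conj_inv G.u2 (e := e), h0, Matrix.mul_zero, Matrix.zero_mul]
  have h4 := G.C.pos c a _ (G.gh e he) h3 h2 h1
  have h5 : c ≠ 0 := by
    intro h0
    rw [h0, Complex.ofReal_zero] at h2
    have h6 := hx.comm hM.la.star G.C.mem G.C.comm (EA_zero h2)
    have h7 : y * (g * e * gᴴ) - g * e * gᴴ * y = (a : ℂ) • (g * e * gᴴ) := h1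
    rw [h6, sub_self] at h7
    rcases smul_eq_zero.1 h7.symm with h8 | h8
    · exact ha.ne' (by exact_mod_cast h8)
    · exact h3 h8
  refine ⟨c, lt_of_le_of_ne ?_ h5.symm, h2⟩
  by_contra hneg
  push Not at hneg
  nlinarith

lemma pos2 (hM : Mdl h V) (hx : IsReg h x) {a : ℝ} (ha : 0 < a) {e : Matrix ι ι ℂ} (he : e ∈ h)
    (hea : e ∈ EA x a) (he0 : e ≠ 0) : ∃ b : ℝ, 0 < b ∧ gᴴ * e * g ∈ EA x b := by
  obtain ⟨c, hc⟩ := hx.reg y G.C.mem G.C.herm G.C.comm a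
  have h1 := hc _ hea
  have h2 := EA_conj G.u1 h1
  rw [← G.hx'] at h2
  have h4 := G.C.pos a c _ he he0 hea h1
  have h5 : c ≠ 0 := by
    intro h0
    rw [h0, Complex.ofReal_zero] at h1
    have h6 := (G.y_reg hx).comm hM.la.star hx.mem G.C.comm.symm (EA_zero h1)
    have h7 : x * e - e * x = (a : ℂ) • e := hea
    rw [h6, sub_self] at h7
    rcases smul_eq_zero.1 h7.symm with h8 | h8
    · exact ha.ne' (by exact_mod_cast h8)
    · exact he0 h8
  refine ⟨c, lt_of_le_of_ne ?_ h5.symm, h2⟩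
  by_contra hneg
  push Not at hneg
  nlinarith

end Gd

/-- Simple roots are mapped to simple roots. -/
lemma simple_tr (hM : Mdl h V) (hx : IsReg h x) {g g' : Matrix ι ι ℂ} (hg : g' * g = 1)
    (h1 : ∀ z ∈ h, g * z * g' ∈ h) (h2 : ∀ z ∈ h, g' * z * g ∈ h)
    (h3 : ∀ a : ℝ, 0 < a → ∀ e ∈ h, e ∈ EA x a → e ≠ 0 → ∃ b : ℝ, 0 < b ∧ g * e * g' ∈ EA x b)
    (h4 : ∀ a : ℝ, 0 < a → ∀ e ∈ h, e ∈ EA x a → e ≠ 0 → ∃ b : ℝ, 0 < b ∧ g' * e * g ∈ EA x b)
    {a : ℝ} (hs : IsSimple h x a) {e : Matrix ι ι ℂ} (he : e ∈ h) (hea : e ∈ EA x a)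
    (he0 : e ≠ 0) : ∃ b : ℝ, IsSimple h x b ∧ g * e * g' ∈ EA x b := by
  have hg' : g * g' = 1 := mul_eq_one_comm.1 hg
  obtain ⟨b, hb, hb'⟩ := h3 a hs.pos e he hea he0
  have hne : g * e * g' ≠ 0 := by
    intro h0
    apply he0
    rw [← conj_inv hg (e := e), h0, Matrix.mul_zero, Matrix.zero_mul]
  refine ⟨b, ⟨hb, ⟨_, h1 e he, hb', hne⟩, ?_⟩, hb'⟩
  intro b₁ c₁ hb₁ hc₁ hbc u hu hub w hw hwc
  by_contra h0
  have hu0 : u ≠ 0 := by rintro rfl; exact h0 (br_zero_left w)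
  have hw0 : w ≠ 0 := by rintro rfl; exact h0 (br_zero_right u)
  obtain ⟨r, hr, hr'⟩ := h4 b₁ hb₁ u hu hub hu0
  obtain ⟨s, hs', hs''⟩ := h4 c₁ hc₁ w hw hwc hw0
  have e1 : br u w ∈ EA x b := by
    have := EA_br hub hwc
    rwa [← Complex.ofReal_add, hbc] at this
  obtain ⟨c, hc⟩ := root_unique hM.la hx hb.ne' (h1 e he) hb' hne (hM.la.lie u hu w hw) e1
  have hc0 : c ≠ 0 := by rintro rfl; rw [zero_smul] at hc; exact h0 hc
  have e2 : br (g' * u * g) (g' * w * g) = c • e := by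
    rw [br_conj hg', hc, Matrix.mul_smul, Matrix.smul_mul, conj_inv hg]
  have e3 : br (g' * u * g) (g' * w * g) ∈ EA x ((r + s : ℝ) : ℂ) := by
    have := EA_br hr' hs''
    rwa [← Complex.ofReal_add] at this
  have e4 : r + s = a := by
    rw [e2] at e3
    have e5 : e ∈ EA x ((r + s : ℝ) : ℂ) := by
      have := (EA x ((r + s : ℝ) : ℂ)).smul_mem c⁻¹ e3
      rwa [smul_smul, inv_mul_cancel₀ hc0, one_smul] at this
    have e6 : ((r + s : ℝ) : ℂ) • e = (a : ℂ) • e := by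
      rw [← mem_EA.1 e5, ← mem_EA.1 hea]
    have e7 : (((r + s : ℝ) : ℂ) - a) • e = 0 := by rw [sub_smul, e6, sub_self]
    rcases smul_eq_zero.1 e7 with e8 | e8
    · have := sub_eq_zero.1 e8
      exact_mod_cast this
    · exact absurd e8 he0
  have e5 := hs.ind r s hr hs' e4 _ (h2 u hu) hr' _ (h2 w hw) hs''
  rw [e2] at e5
  rcases smul_eq_zero.1 e5 with e6 | e6
  · exact hc0 e6
  · exact he0 e6

lemma nsq_conj {g g' : Matrix ι ι ℂ} (hg : g' * g = 1) (hgg : gᴴ = g') (e : Matrix ι ι ℂ) :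
    nsq (g * e * g') = nsq e := by
  have h1 : (g * e * g')ᴴ = g * eᴴ * g' := by
    rw [← hgg, Matrix.conjTranspose_mul, Matrix.conjTranspose_mul,
      Matrix.conjTranspose_conjTranspose, Matrix.mul_assoc]
  rw [nsq, h1, tr_conj hg, nsq]

lemma Rt_conj {g g' : Matrix ι ι ℂ} (hg : g' * g = 1) (hgg : gᴴ = g') (e : Matrix ι ι ℂ) :
    Rt (g * e * g') = g * Rt e * g' := by
  have h1 : (g * e * g')ᴴ = g * eᴴ * g' := by
    rw [← hgg, Matrix.conjTranspose_mul, Matrix.conjTranspose_mul,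
      Matrix.conjTranspose_conjTranspose, Matrix.mul_assoc]
  rw [Rt, nsq_conj hg hgg, h1, br_conj hg, Rt, Matrix.mul_smul, Matrix.smul_mul]

namespace Gd

variable (G : Gd n h V x y g)

include G

/-- The action on the simple roots. -/
lemma al_srt (hM : Mdl h V) (hx : IsReg h x) (ha : ∀ z ∈ 𝔞, g * z * gᴴ ∈ 𝔞)
    {R : Matrix ι ι ℂ} (hR : R ∈ srt h 𝔞 x) : g * R * gᴴ ∈ srt h 𝔞 x := by
  obtain ⟨a, e, hs, he, hea, hex, he0, rfl⟩ := hR
  obtain ⟨b, hb, hb'⟩ := simple_tr hM hx G.u2 G.gh G.gh'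
    (fun a ha e he hea he0 => G.pos1 hM hx ha he hea he0)
    (fun a ha e he hea he0 => G.pos2 hM hx ha he hea he0) hs he hex he0
  refine ⟨b, g * e * gᴴ, hb, G.gh e he, ha e hea, hb', ?_, ?_⟩
  · intro h0
    apply he0
    rw [← conj_inv G.u2 (e := e), h0, Matrix.mul_zero, Matrix.zero_mul]
  · rw [Rt_conj G.u2 rfl]

lemma al_srt' (hM : Mdl h V) (hx : IsReg h x) (ha : ∀ z ∈ 𝔞, gᴴ * z * g ∈ 𝔞)
    {R : Matrix ι ι ℂ} (hR : R ∈ srt h 𝔞 x) : gᴴ * R * g ∈ srt h 𝔞 x := by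
  obtain ⟨a, e, hs, he, hea, hex, he0, rfl⟩ := hR
  obtain ⟨b, hb, hb'⟩ := simple_tr hM hx G.u1 G.gh' G.gh
    (fun a ha e he hea he0 => G.pos2 hM hx ha he hea he0)
    (fun a ha e he hea he0 => G.pos1 hM hx ha he hea he0) hs he hex he0
  refine ⟨b, gᴴ * e * g, hb, G.gh' e he, ha e hea, hb', ?_, ?_⟩
  · intro h0
    apply he0
    rw [← conj_inv G.u1 (e := e), h0, Matrix.mul_zero, Matrix.zero_mul]
  · rw [Rt_conj G.u1 (Matrix.conjTranspose_conjTranspose g)]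

end Gd

end Run7.h226.Wts
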