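import Pool.Agent.Run7.h226.Conj

/-!
# Connectivity
-/

set_option linter.unusedSectionVars false

namespace Run7.h226.Wts

open Matrix Pool.Agent.N996.BP Pool.Agent.N996.FP ComplexOrder

variable {ι : Type} [Fintype ι] [DecidableEq ι] {h : Submodule ℂ (Matrix ι ι ℂ)}
  {V : Submodule ℂ (ι → ℂ)} {x y g N : Matrix ι ι ℂ} {𝔞 𝔟 : Submodule ℂ (Matrix ι ι ℂ)}

/-- Subspaces stable under the simple root vectors are stable under positive root vectors. -/
lemma gen_pos (hM : Mdl h V) (hx : IsReg h x) {𝔩 : Submodule ℂ (Matrix ι ι ℂ)}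
    (h2 : ∀ a, IsSimple h x a → ∀ e ∈ h, e ∈ EA x a → ∀ z ∈ 𝔩, br e z ∈ 𝔩) :
    ∀ a : ℝ, 0 < a → ∀ e ∈ h, e ∈ EA x a → ∀ z ∈ 𝔩, br e z ∈ 𝔩 := by
  by_contra hcon
  push Not at hcon
  obtain ⟨a', ha', e', he', hea', z', hz', hbad'⟩ := hcon
  -- a minimal bad value
  have hfin : {a : ℝ | 0 < a ∧ ∃ e ∈ h, e ∈ EA x a ∧ ∃ z ∈ 𝔩, br e z ∉ 𝔩}.Finite := by
    refine (finite_vals h x).subset ?_
    rintro a ⟨_, e, he, hea, z, hz, hbad⟩
    refine ⟨e, he, hea, ?_⟩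
    rintro rfl
    rw [br_zero_left] at hbad
    exact hbad 𝔩.zero_mem
  obtain ⟨a, ⟨ha, e, he, hea, z, hz, hbad⟩, hmin⟩ := Set.exists_min_image _ (fun a => a) hfin
    ⟨a', ha', e', he', hea', z', hz', hbad'⟩
  have he0 : e ≠ 0 := by
    rintro rfl
    rw [br_zero_left] at hbad
    exact hbad 𝔩.zero_mem
  have hns : ¬ IsSimple h x a := fun hs => hbad (h2 a hs e he hea z hz)
  have hex : ∃ b c : ℝ, 0 < b ∧ 0 < c ∧ b + c = a ∧ ∃ u ∈ h, u ∈ EA x b ∧ ∃ w ∈ h, w ∈ EA x c ∧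
      br u w ≠ 0 := by
    by_contra h1
    push Not at h1
    exact hns ⟨ha, ⟨e, he, hea, he0⟩, fun b c hb hc hbc u hu hub w hw hwc =>
      h1 b c hb hc hbc u hu hub w hw hwc⟩
  obtain ⟨b, c, hb, hc, hbc, u, hu, hub, w, hw, hwc, huw⟩ := hex
  have hgood : ∀ b : ℝ, 0 < b → b < a → ∀ e ∈ h, e ∈ EA x b → ∀ z ∈ 𝔩, br e z ∈ 𝔩 := by
    intro b hb hba e he heb z hz
    by_contra hb'
    exact absurd (hmin b ⟨hb, e, he, heb, z, hz, hb'⟩) (not_le.2 hba)
  have h3 : br u w ∈ EA x a := by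
    have := EA_br hub hwc
    rwa [← Complex.ofReal_add, hbc] at this
  obtain ⟨r, hr⟩ := root_unique hM.la hx ha.ne' (hM.la.lie u hu w hw) h3 huw he hea
  apply hbad
  rw [hr, br_smul_left]
  refine 𝔩.smul_mem _ ?_
  have e1 := br_jac u w z
  have e2 : br (br u w) z = br u (br w z) - br w (br u z) := by rw [e1]; abel
  rw [e2]
  exact 𝔩.sub_mem (hgood b hb (by linarith) u hu hub _ (hgood c hc (by linarith) w hw hwc z hz))
    (hgood c hc (by linarith) w hw hwc _ (hgood b hb (by linarith) u hu hub z hz))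

/-- Subspaces stable under the Cartan subalgebra, the simple root vectors and adjoints are
ideals. -/
lemma gen_simple (hM : Mdl h V) (hx : IsReg h x) {𝔩 : Submodule ℂ (Matrix ι ι ℂ)}
    (h0 : ∀ z ∈ 𝔩, zᴴ ∈ 𝔩) (h1 : ∀ t ∈ ct h x, ∀ z ∈ 𝔩, br t z ∈ 𝔩)
    (h2 : ∀ a, IsSimple h x a → ∀ e ∈ h, e ∈ EA x a → ∀ z ∈ 𝔩, br e z ∈ 𝔩) :
    ∀ w ∈ h, ∀ z ∈ 𝔩, br w z ∈ 𝔩 := by
  intro w hw z hz
  refine ad_ind hx.herm (h := h) (fun z hz => hM.la.lie x hx.mem z hz)
    (P := fun w => br w z ∈ 𝔩) (by rw [br_zero_left]; exact 𝔩.zero_mem)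
    (fun u w hu hw => by rw [br_add_left]; exact 𝔩.add_mem hu hw) ?_ hw
  intro d w hw hd
  rcases lt_trichotomy d 0 with hd0 | hd0 | hd0
  · have h3 : wᴴ ∈ EA x ((-d : ℝ) : ℂ) := EA_star hx.herm hd
    have h4 := gen_pos hM hx h2 (-d) (by linarith) _ (hM.la.star w hw) h3 zᴴ (h0 z hz)
    have h5 := h0 _ h4
    rw [br_star, Matrix.conjTranspose_conjTranspose, Matrix.conjTranspose_conjTranspose,
      br_swap] at h5
    have h6 := 𝔩.neg_mem h5
    rwa [neg_neg] at h6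
  · refine h1 w ⟨hw, ?_⟩ z hz
    have : x * w - w * x = 0 := by rw [hd, hd0, Complex.ofReal_zero, zero_smul]
    exact sub_eq_zero.1 this
  · exact gen_pos hM hx h2 d hd0 w hw hd z hz

/-- Root vectors belong to the ideal or to the complement. -/
lemma root_dich (hM : Mdl h V) (hx : IsReg h x) (ha : IsId h 𝔞) {a : ℝ} (ha0 : a ≠ 0)
    {e : Matrix ι ι ℂ} (he : e ∈ h) (hea : e ∈ EA x a) : e ∈ 𝔞 ∨ e ∈ cpl h 𝔞 := by
  obtain ⟨e₁, he₁, e₂, he₂, hee⟩ := cpl_dec ha he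
  have h1 : br x e = (a : ℂ) • e := hea
  have h2 : br x e₁ + br x e₂ = (a : ℂ) • e₁ + (a : ℂ) • e₂ := by
    rw [← br_add_right, ← smul_add, ← hee, h1]
  obtain ⟨h3, h4⟩ := dec_uniq (ha.lb x hx.mem e₁ he₁) ((cpl_id hM ha).lb x hx.mem e₂ he₂)
    (𝔞.smul_mem _ he₁) ((cpl h 𝔞).smul_mem _ he₂) h2
  by_cases h5 : e₁ = 0
  · right; rw [hee, h5, zero_add]; exact he₂
  left
  obtain ⟨c, hc⟩ := root_unique hM.la hx ha0 (ha.le he₁) h3 h5 he₂.1 h4
  have h6 : e₂ = 0 := cpl_disj (by rw [hc]; exact 𝔞.smul_mem _ he₁) he₂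
  rw [hee, h6, add_zero]
  exact he₁

/-- Root vectors for different simple roots: the difference is not a root. -/
lemma br_simple' (hM : Mdl h V) (hx : IsReg h x) {a d : ℝ} (hs : IsSimple h x a)
    (hs' : IsSimple h x d) (hne : a ≠ d) {e f : Matrix ι ι ℂ} (he : e ∈ h) (hea : e ∈ EA x a)
    (hf : f ∈ h) (hfd : f ∈ EA x d) : br e fᴴ = 0 := by
  rcases lt_or_gt_of_ne hne with hlt | hlt
  · exact br_simple hM hx hs.pos hs' hlt he hea hf hfd
  · have h1 := br_simple hM hx hs'.pos hs hlt hf hfd he hea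
    have h2 : (br f eᴴ)ᴴ = 0 := by rw [h1, Matrix.conjTranspose_zero]
    rwa [br_star, Matrix.conjTranspose_conjTranspose] at h2

/-- Orthogonal simple root vectors commute. -/
lemma br_orth (hM : Mdl h V) (hx : IsReg h x) {a d : ℝ} (hs : IsSimple h x a)
    (hs' : IsSimple h x d) (hne : a ≠ d) {e f : Matrix ι ι ℂ} (he : e ∈ h) (hea : e ∈ EA x a)
    (he0 : e ≠ 0) (hf : f ∈ h) (hfd : f ∈ EA x d) (hf0 : f ≠ 0) (ho : ip (Rt e) (Rt f) = 0) :
    br e f = 0 := by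
  have hre := simple_rv hs he hea he0
  have hrf := simple_rv hs' hf hfd hf0
  have h1 := nsq_br e f
  have h2 : br eᴴ f = 0 := by
    have h3 := br_simple' hM hx hs' hs hne.symm hf hfd he hea
    rw [br_swap, h3, neg_zero]
  have h3 : br (br e eᴴ) f = 0 := by
    rw [br_Rt he0, br_smul_left, hrf.val hM.la hx (hre.ct hM.la hx),
      tr_ip (hrf.herm hM.la hx) (hre.herm hM.la hx), ip_comm, ho, Complex.ofReal_zero, zero_smul,
      smul_zero]
  rw [h2, h3, Matrix.mul_zero, Matrix.trace_zero, neg_zero] at h1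
  have h4 : nsq (0 : Matrix ι ι ℂ) = 0 := by rw [nsq, Matrix.mul_zero, Matrix.trace_zero]
  rw [h4, sub_zero] at h1
  exact nsq_eq_zero h1

/-- The commutator with the adjoint is nonzero. -/
lemma br_self_ne (hM : Mdl h V) (hx : IsReg h x) {e : Matrix ι ι ℂ} (he : IsRV h x e) :
    br e eᴴ ≠ 0 := by
  rw [br_Rt he.ne]
  intro h0
  rcases smul_eq_zero.1 h0 with h1 | h1
  · exact (nsq_pos he.ne).ne' h1
  · exact he.Rt_ne hM.la hx h1

/-- **The simple roots of a simple ideal are connected.** -/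
theorem srt_con (hM : Mdl h V) (hx : IsReg h x) (ha : IsSim h 𝔞) {D : Set (Matrix ι ι ℂ)}
    (hD : D ⊆ srt h 𝔞 x) (hne : D.Nonempty)
    (hcl : ∀ γ ∈ D, ∀ ε ∈ srt h 𝔞 x, ip γ ε ≠ 0 → ε ∈ D) : srt h 𝔞 x ⊆ D := by
  by_contra hcon
  rw [Set.not_subset] at hcon
  obtain ⟨ε, hε, hεD⟩ := hcon
  -- the centraliser of the root vectors outside of `D`
  let 𝔷 : Submodule ℂ (Matrix ι ι ℂ) :=
    { carrier := {z | z ∈ 𝔞 ∧ ∀ a, IsSimple h x a → ∀ e ∈ h, e ∈ 𝔞 → e ∈ EA x a → Rt e ∉ D →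
        br e z = 0 ∧ br eᴴ z = 0}
      add_mem' := by
        rintro u w ⟨hu, hu'⟩ ⟨hw, hw'⟩
        refine ⟨𝔞.add_mem hu hw, fun a hs e he hea hex hn => ?_⟩
        obtain ⟨h1, h2⟩ := hu' a hs e he hea hex hn
        obtain ⟨h3, h4⟩ := hw' a hs e he hea hex hn
        rw [br_add_right, br_add_right, h1, h2, h3, h4, add_zero]
        exact ⟨rfl, rfl⟩
      zero_mem' := ⟨𝔞.zero_mem, fun a hs e he hea hex hn => ⟨br_zero_right _, br_zero_right _⟩⟩
      smul_mem' := by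
        rintro r w ⟨hw, hw'⟩
        refine ⟨𝔞.smul_mem r hw, fun a hs e he hea hex hn => ?_⟩
        obtain ⟨h3, h4⟩ := hw' a hs e he hea hex hn
        rw [br_smul_right, br_smul_right, h3, h4, smul_zero]
        exact ⟨rfl, rfl⟩ }
  have hz_star : ∀ z ∈ 𝔷, zᴴ ∈ 𝔷 := by
    rintro z ⟨hz, hz'⟩
    refine ⟨ha.id.star hM hz, fun a hs e he hea hex hn => ?_⟩
    obtain ⟨h1, h2⟩ := hz' a hs e he hea hex hn
    constructor
    · have h3 : (br eᴴ z)ᴴ = 0 := by rw [h2, Matrix.conjTranspose_zero]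
      rw [br_star, Matrix.conjTranspose_conjTranspose, br_swap, neg_eq_zero] at h3
      exact h3
    · have h3 : (br e z)ᴴ = 0 := by rw [h1, Matrix.conjTranspose_zero]
      rw [br_star, br_swap, neg_eq_zero] at h3
      exact h3
  -- membership under a commuting element
  have hcomm : ∀ w ∈ h, (∀ a, IsSimple h x a → ∀ e ∈ h, e ∈ 𝔞 → e ∈ EA x a → Rt e ∉ D →
      (∃ c : ℂ, br e w = c • e) ∧ (∃ c : ℂ, br eᴴ w = c • eᴴ)) → ∀ z ∈ 𝔷, br w z ∈ 𝔷 := by
    rintro w hw hw' z ⟨hz, hz'⟩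
    refine ⟨ha.id.lb w hw z hz, fun a hs e he hea hex hn => ?_⟩
    obtain ⟨h1, h2⟩ := hz' a hs e he hea hex hn
    obtain ⟨⟨c, hc⟩, ⟨c', hc'⟩⟩ := hw' a hs e he hea hex hn
    constructor
    · rw [br_jac, h1, hc, br_smul_left, h1, smul_zero, br_zero_right, add_zero]
    · rw [br_jac, h2, hc', br_smul_left, h2, smul_zero, br_zero_right, add_zero]
  have hid : IsId h 𝔷 := by
    refine ⟨fun z hz => ha.id.le hz.1, ?_⟩
    refine gen_simple hM hx hz_star ?_ ?_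
    · intro t ht z hz
      refine hcomm t ht.1 (fun a hs e he hea hex hn => ?_) z hz
      by_cases he0 : e = 0
      · rw [he0]
        refine ⟨⟨0, by rw [br_zero_left, smul_zero]⟩, ⟨0, ?_⟩⟩
        rw [Matrix.conjTranspose_zero, br_zero_left, smul_zero]
      have hrv := simple_rv hs he hex he0
      refine ⟨⟨-(Rt e * t).trace, ?_⟩, ⟨-(Rt eᴴ * t).trace, ?_⟩⟩
      · rw [br_swap, hrv.val hM.la hx ht, neg_smul]
      · rw [br_swap, (hrv.star hM.la hx).1.val hM.la hx ht, neg_smul]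
    · intro a hs e he hex z hz
      by_cases he0 : e = 0
      · rw [he0, br_zero_left]; exact 𝔷.zero_mem
      rcases root_dich hM hx ha.id hs.pos.ne' he hex with hea | heb
      · by_cases hn : Rt e ∈ D
        · -- orthogonal
          refine hcomm e he (fun b hs' f hf hfa hfb hn' => ?_) z hz
          by_cases hf0 : f = 0
          · rw [hf0]
            refine ⟨⟨0, by rw [br_zero_left, smul_zero]⟩, ⟨0, ?_⟩⟩
            rw [Matrix.conjTranspose_zero, br_zero_left, smul_zero]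
          have hab : b ≠ a := by
            rintro rfl
            obtain ⟨c, hc⟩ := root_unique hM.la hx hs.pos.ne' he hex he0 hf hfb
            have hc0 : c ≠ 0 := by rintro rfl; rw [zero_smul] at hc; exact hf0 hc
            rw [hc, Rt_smul hc0] at hn'
            exact hn' hn
          have ho : ip (Rt e) (Rt f) = 0 := by
            by_contra h0
            exact hn' (hcl _ hn _ ⟨b, f, hs', hf, hfa, hfb, hf0, rfl⟩ h0)
          refine ⟨⟨0, ?_⟩, ⟨0, ?_⟩⟩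
          · rw [zero_smul]
            exact br_orth hM hx hs' hs hab hf hfb hf0 he hex he0 (by rw [ip_comm]; exact ho)
          · rw [zero_smul]
            have h1 := br_simple' hM hx hs hs' hab.symm he hex hf hfb
            rw [br_swap, h1, neg_zero]
        · rw [(hz.2 a hs e he hea hex hn).1]
          exact 𝔷.zero_mem
      · have h1 : br e z = 0 := by
          rw [br_swap, br_eq_zero.2 (cpl_comm hM ha.id hz.1 heb), neg_zero]
        rw [h1]
        exact 𝔷.zero_mem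
  have h𝔷 : 𝔷 = 𝔞 := by
    refine ha.sim 𝔷 hid (fun z hz => hz.1) ?_
    obtain ⟨γ, hγ⟩ := hne
    obtain ⟨a, e, hs, he, hea, hex, he0, hγe⟩ := hD hγ
    have hmem : e ∈ 𝔷 := by
      refine ⟨hea, fun b hs' f hf hfa hfb hn' => ?_⟩
      by_cases hf0 : f = 0
      · rw [hf0, Matrix.conjTranspose_zero, br_zero_left]; exact ⟨rfl, rfl⟩
      have hab : b ≠ a := by
        rintro rfl
        obtain ⟨c, hc⟩ := root_unique hM.la hx hs.pos.ne' he hex he0 hf hfb
        have hc0 : c ≠ 0 := by rintro rfl; rw [zero_smul] at hc; exact hf0 hc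
        rw [hc, Rt_smul hc0, ← hγe] at hn'
        exact hn' hγ
      have ho : ip (Rt e) (Rt f) = 0 := by
        by_contra h0
        refine hn' (hcl _ hγ _ ⟨b, f, hs', hf, hfa, hfb, hf0, rfl⟩ ?_)
        rw [hγe]; exact h0
      refine ⟨br_orth hM hx hs' hs hab hf hfb hf0 he hex he0 (by rw [ip_comm]; exact ho), ?_⟩
      have h1 := br_simple' hM hx hs hs' hab.symm he hex hf hfb
      rw [br_swap, h1, neg_zero]
    intro h0
    rw [h0, Submodule.mem_bot] at hmem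
    exact he0 hmem
  obtain ⟨a, e, hs, he, hea, hex, he0, hεe⟩ := hε
  have h1 : e ∈ 𝔷 := by rw [h𝔷]; exact hea
  rw [hεe] at hεD
  have h2 := (h1.2 a hs e he hea hex hεD).2
  rw [br_swap, neg_eq_zero] at h2
  exact br_self_ne hM hx (simple_rv hs he hex he0) h2

end Run7.h226.Wts
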