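import Pool.Agent.Run7.h226.Gal
import Pool.Agent.N996.BP.Core

/-!
# Families containing the Hodge classes of degree at most six
-/

set_option linter.unusedSectionVars false

namespace Run7.h226.Wts

open Matrix Pool.Agent.N996.BP Pool.Agent.N996.FP

variable {ι : Type} [Fintype ι] [DecidableEq ι]
variable {H : HData ι} {A : ∀ n : ℕ, Submodule ℚ ((Fin (n + 1) → ι) → ℚ)}

/-- Exceptional dimensions. -/
def Exc (n : ℕ) : Prop :=
  ∃ k s : ℕ, 1 ≤ k ∧ Odd s ∧ n = Nat.choose (4 * k + 2) (2 * k + 1) ^ s

/-- **The core theorem.** A family of Hodge classes containing all Hodge classes of degree at most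
six, or of degree at most four if the dimension is not exceptional, contains all Hodge classes. -/
theorem coreN (hH : Sml H) (hA : RFam H A) {m : ℕ} (hm : 2 ≤ m)
    (hd : m = 2 → ∀ d, Fintype.card ι = d + 1 → ¬ Exc d)
    (hN : ∀ n, n + 1 ≤ 2 * m → BB H (Fin (n + 1)) ≤ A n) (n : ℕ) : BB H (Fin (n + 1)) ≤ A n := by
  classical
  intro h hh
  have hfam := hA.isFam hN (by omega)
  have h1 : (fun i => (h i : ℝ)) ∈ AR A (Fin (n + 1)) := by
    refine mem_of_fixed (κ := Fin (n + 1)) hfam _ ?_ ?_
    · have h1 := hh Complex.I Complex.I_ne_zero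
      rw [← cR_C, kp_cR] at h1
      ext i
      have h2 := congrFun h1 i
      rw [Matrix.mulVec, dotProduct] at h2 ⊢
      have h3 : ((∑ j, kp (Fin (n + 1)) H.D.C i j * (h j : ℝ) : ℝ) : ℂ) = (((h i : ℝ)) : ℂ) := by
        push_cast
        exact h2
      exact_mod_cast h3
    · intro g hg
      have h2 : g ∈ So H := by
        rcases hH.fixm hm (p := g) (fun κ _ _ hκ a ha => by
          have h4 := hg κ _ (AR_of (hA.of_small hN hκ ha))
          simp only [Complex.ofReal_ratCast] at h4
          exact h4) with h5 | ⟨h5, k, s, hk, hs, h6⟩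
        · exact h5
        · exact absurd ⟨k, s, hk, hs, h6⟩ (hd h5 _ (finrank_Vn H).symm)
      have h3 := h2 (Fin (n + 1)) h hh
      simp only [Complex.ofReal_ratCast]
      exact h3
  rw [← hA.mem_iff]
  exact descent _ h1

end Run7.h226.Wts
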