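import Pool.Agent.Run7.h226.Out

/-!
# The decomposition
-/

set_option linter.unusedSectionVars false

namespace Run7.h226.Wts

open Matrix Pool.Agent.N996.BP Pool.Agent.N996.FP ComplexOrder NormedSpace

variable {ι : Type} [Fintype ι] [DecidableEq ι] {h : Submodule ℂ (Matrix ι ι ℂ)}
  {V : Submodule ℂ (ι → ℂ)} {x : Matrix ι ι ℂ}

/-- Existence of regular elements which commute with given commuting elements. -/
lemma exists_reg {J : Set (Matrix ι ι ℂ)}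
    (hJ : ∀ N ∈ J, N ∈ h ∧ Nᴴ = N ∧ N ≠ 0) (hc : ∀ N ∈ J, ∀ N' ∈ J, N * N' = N' * N) :
    ∃ x, IsReg h x ∧ ∀ N ∈ J, N ∈ ct h x := by
  let 𝔠 : Submodule ℂ (Matrix ι ι ℂ) :=
    { carrier := {z | z ∈ h ∧ ∀ N ∈ J, z * N = N * z}
      add_mem' := by
        rintro u w ⟨hu, hu'⟩ ⟨hw, hw'⟩
        exact ⟨h.add_mem hu hw, fun N hN => by
          rw [Matrix.add_mul, Matrix.mul_add, hu' N hN, hw' N hN]⟩
      zero_mem' := ⟨h.zero_mem, fun N _ => by rw [Matrix.zero_mul, Matrix.mul_zero]⟩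
      smul_mem' := by
        rintro r w ⟨hw, hw'⟩
        exact ⟨h.smul_mem r hw, fun N hN => by
          rw [Matrix.smul_mul, Matrix.mul_smul, hw' N hN]⟩ }
  obtain ⟨x, hx, hxH, hreg⟩ := exists_regular 𝔠
  have hcomm : ∀ N ∈ J, ∀ t : Matrix ι ι ℂ, x * t = t * x → t * N = N * t := by
    intro N hN t ht
    have hNc : N ∈ 𝔠 := ⟨(hJ N hN).1, fun N' hN' => hc N hN N' hN'⟩
    obtain ⟨c, hc'⟩ := hreg N hNc (hJ N hN).2.1 (hx.2 N hN) 0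
    have h0 : ∀ t : Matrix ι ι ℂ, x * t = t * x → t ∈ EA x ((0 : ℝ) : ℂ) := by
      intro t ht
      rw [mem_EA, ht, sub_self, Complex.ofReal_zero, zero_smul]
    have h1 := hc' N (h0 N (hx.2 N hN))
    rw [mem_EA, sub_self] at h1
    rcases smul_eq_zero.1 h1.symm with h2 | h2
    · have h3 := hc' t (h0 t ht)
      rw [mem_EA, h2, zero_smul, sub_eq_zero] at h3
      exact h3.symm
    · exact absurd h2 (hJ N hN).2.2
  refine ⟨x, ⟨hx.1, hxH, ?_⟩, fun N hN => ⟨(hJ N hN).1, hx.2 N hN⟩⟩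
  intro t ht htH htx d
  exact hreg t ⟨ht, fun N hN => hcomm N hN t htx⟩ htH htx d

/-- Tensors of degree one. -/
noncomputable def T1 (ι : Type) [Fintype ι] : (ι → ℂ) →ₗ[ℂ] ((Fin 1 → ι) → ℂ) where
  toFun v := fun i => v (i 0)
  map_add' _ _ := rfl
  map_smul' _ _ := rfl

lemma T1_pt (v : ι → ℂ) : T1 ι v = pt (fun _ : Fin 1 => v) := by
  funext i
  rw [pt, Fin.prod_univ_one]
  rfl

lemma T1_inj : Function.Injective (T1 ι) := by
  intro a b hab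
  funext i
  exact congrFun hab (fun _ => i)

lemma T1_kp (q : Matrix ι ι ℂ) (v : ι → ℂ) : kp (Fin 1) q *ᵥ T1 ι v = T1 ι (q *ᵥ v) := by
  rw [T1_pt, T1_pt, kp_pt]

lemma T1_dk (q : Matrix ι ι ℂ) (v : ι → ℂ) : dkL (Fin 1) q *ᵥ T1 ι v = T1 ι (q *ᵥ v) := by
  rw [T1_pt, T1_pt]
  change dk (Fin 1) q *ᵥ _ = _
  rw [dk_pt, Fin.sum_univ_one]
  congr 1
  funext k
  rw [Subsingleton.elim k 0, Function.update_self]

lemma V_of_pres (hM : Mdl h V) {q : Matrix ι ι ℂ} (hq : Pres h (dkL (Fin 1)) (kp (Fin 1) q)) :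
    ∀ v ∈ V, q *ᵥ v ∈ V := by
  intro v hv
  have h1 := hq (V.map (T1 ι)) ?_ (T1 ι v) (Submodule.mem_map_of_mem hv)
  · rw [T1_kp] at h1
    obtain ⟨w, hw, hwq⟩ := h1
    rw [← T1_inj hwq]
    exact hw
  · rintro z hz _ ⟨w, hw, rfl⟩
    rw [T1_dk]
    exact Submodule.mem_map_of_mem (hM.stab z hz w hw)

variable {St : Submonoid (Matrix ι ι ℂ)} {n : ℕ}

/-- **The decomposition.** -/
theorem exists_gd (hn : 1 ≤ n) (hM : Mdl h V) (hS : IsGrp h St) (hx : IsReg h x) {p p' : Matrix ι ι ℂ}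
    (hp : p * p' = 1) (hSt : ∀ k ≤ n, ∀ q ∈ St, Pres h (dkL (Fin k)) (kp (Fin k) q))
    (hP : ∀ k ≤ n, Pres h (dkL (Fin k)) (kp (Fin k) p))
    (hSid : ∀ q ∈ St, ∀ q', q * q' = 1 → ∀ 𝔞, IsId h 𝔞 → ∀ z ∈ 𝔞, q * z * q' ∈ 𝔞)
    (hpid : ∀ 𝔞, IsId h 𝔞 → ∀ z ∈ 𝔞, p * z * p' ∈ 𝔞)
    (hpid' : ∀ 𝔞, IsId h 𝔞 → ∀ z ∈ 𝔞, p' * z * p ∈ 𝔞) :
    ∃ y g, Gd n h V x y g ∧ (∀ 𝔞, IsId h 𝔞 → ∀ z ∈ 𝔞, g * z * gᴴ ∈ 𝔞 ∧ gᴴ * z * g ∈ 𝔞) ∧
      (x * g = g * x → ∃ q ∈ St, ∃ q' ∈ St, q * q' = 1 ∧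
        ∀ w ∈ h, (q' * p) * w = w * (q' * p)) := by
  have hh := hM.la
  have hidh : IsId h h := ⟨le_rfl, hh.lie⟩
  have h1 := hpid h hidh
  have h2 := hpid' h hidh
  have hp' : p' * p = 1 := mul_eq_one_comm.1 hp
  obtain ⟨U, d, s₁, s₂, hU, hd, hPP, hs₁, hs₂, hE, hE'⟩ := polar hh hp h1 h2
  have hs12 : s₂ * s₁ = s₁ * s₂ := hs₂ s₁ hs₁
  have hU' : U * Uᴴ = 1 := mul_eq_one_comm.1 hU
  -- the exponentials
  obtain ⟨E, hEd⟩ : ∃ E, E = exp (-(s₁ + s₂)) := ⟨_, rfl⟩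
  obtain ⟨F, hFd⟩ : ∃ F, F = exp (s₁ + s₂) := ⟨_, rfl⟩
  rw [← hEd] at hE'
  rw [← hFd] at hE
  have hEF : E * F = 1 := by
    rw [hEd, hFd]
    exact (exp_ns _).2
  have hFE : F * E = 1 := mul_eq_one_comm.1 hEF
  have hEH : Eᴴ = E := by
    rw [hE', fn, Matrix.conjTranspose_mul, Matrix.conjTranspose_mul,
      Matrix.conjTranspose_conjTranspose, Matrix.diagonal_conjTranspose]
    have : star (fun i => (((Real.sqrt (d i))⁻¹ : ℝ) : ℂ)) =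
        fun i => (((Real.sqrt (d i))⁻¹ : ℝ) : ℂ) := by
      funext i; simp
    rw [this]
    simp only [Matrix.mul_assoc]
  obtain ⟨k, hk⟩ : ∃ k, k = p * E := ⟨_, rfl⟩
  have hkk : kᴴ * k = 1 := by
    rw [hk, Matrix.conjTranspose_mul, hEH]
    calc E * pᴴ * (p * E) = E * (pᴴ * p) * E := by simp only [Matrix.mul_assoc]
      _ = 1 := by
        rw [hPP, hE', fn_mul hU, fn_mul hU, ← fn_one hU']
        congr 1
        funext i
        have h3 := Real.mul_self_sqrt (hd i).le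
        have h4 := (Real.sqrt_pos.2 (hd i)).ne'
        rw [← Complex.ofReal_mul, ← Complex.ofReal_mul, ← Complex.ofReal_one]
        congr 1
        obtain ⟨r, hr⟩ : ∃ r, r = Real.sqrt (d i) := ⟨_, rfl⟩
        rw [← hr] at h3 h4 ⊢
        rw [← h3]
        field_simp
  have hkk' : k * kᴴ = 1 := mul_eq_one_comm.1 hkk
  have hpk : p = k * F := by rw [hk, Matrix.mul_assoc, hEF, Matrix.mul_one]
  -- `E` and `F` normalise the ideals
  have hexp : F = exp s₁ * exp s₂ := by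
    rw [hFd, Matrix.exp_add_of_commute _ _ hs12.symm]
  have hexp' : E = exp (-s₁) * exp (-s₂) := by
    have hc12 : Commute s₁ s₂ := hs12.symm
    rw [hEd, neg_add, Matrix.exp_add_of_commute _ _ hc12.neg_left.neg_right]
  have hns : ∀ s : Matrix ι ι ℂ, exp s * exp (-s) = 1 ∧ exp (-s) * exp s = 1 := exp_ns
  have hcs₂ : ∀ z ∈ h, exp s₂ * z = z * exp s₂ := fun z hz => exp_comm (hs₂ z hz)
  have hcs₂' : ∀ z ∈ h, exp (-s₂) * z = z * exp (-s₂) := fun z hz => exp_comm (by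
    rw [Matrix.neg_mul, Matrix.mul_neg, hs₂ z hz])
  have hc1 : exp (-s₂) * exp s₁ = exp s₁ * exp (-s₂) := by
    rw [exp_comm (a := -s₂) (b := exp s₁)]
    exact (exp_comm (a := s₁) (b := -s₂) (by
      rw [Matrix.neg_mul, Matrix.mul_neg, hs12])).symm
  have hc2 : exp s₂ * exp (-s₁) = exp (-s₁) * exp s₂ := by
    rw [exp_comm (a := s₂) (b := exp (-s₁))]
    exact (exp_comm (a := -s₁) (b := s₂) (by
      rw [Matrix.neg_mul, Matrix.mul_neg, hs12])).symm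
  have hEid : ∀ 𝔞, IsId h 𝔞 → ∀ z ∈ 𝔞, E * z * F ∈ 𝔞 := by
    intro 𝔞 ha z hz
    have e1 : E * z * F = exp (-s₁) * z * exp s₁ := by
      rw [hexp, hexp']
      calc exp (-s₁) * exp (-s₂) * z * (exp s₁ * exp s₂) =
          exp (-s₁) * (exp (-s₂) * z) * exp s₁ * exp s₂ := by simp only [Matrix.mul_assoc]
        _ = exp (-s₁) * z * (exp (-s₂) * exp s₁) * exp s₂ := by
            rw [hcs₂' z (ha.le hz)]; simp only [Matrix.mul_assoc]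
        _ = exp (-s₁) * z * exp s₁ * (exp (-s₂) * exp s₂) := by
            rw [hc1]; simp only [Matrix.mul_assoc]
        _ = _ := by rw [(hns s₂).2, Matrix.mul_one]
    rw [e1]
    exact hSid _ (hS.exp _ (Submodule.neg_mem _ hs₁)) _ (hns s₁).2 𝔞 ha z hz
  have hFid : ∀ 𝔞, IsId h 𝔞 → ∀ z ∈ 𝔞, F * z * E ∈ 𝔞 := by
    intro 𝔞 ha z hz
    have e1 : F * z * E = exp s₁ * z * exp (-s₁) := by
      rw [hexp, hexp']
      calc exp s₁ * exp s₂ * z * (exp (-s₁) * exp (-s₂)) =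
          exp s₁ * (exp s₂ * z) * exp (-s₁) * exp (-s₂) := by simp only [Matrix.mul_assoc]
        _ = exp s₁ * z * (exp s₂ * exp (-s₁)) * exp (-s₂) := by
            rw [hcs₂ z (ha.le hz)]; simp only [Matrix.mul_assoc]
        _ = exp s₁ * z * exp (-s₁) * (exp s₂ * exp (-s₂)) := by
            rw [hc2]; simp only [Matrix.mul_assoc]
        _ = _ := by rw [(hns s₂).1, Matrix.mul_one]
    rw [e1]
    exact hSid _ (hS.exp _ hs₁) _ (hns s₁).1 𝔞 ha z hz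
  have hkH : kᴴ = F * p' := by
    calc kᴴ = kᴴ * (p * p') := by rw [hp, Matrix.mul_one]
      _ = (kᴴ * k) * F * p' := by rw [hpk]; simp only [Matrix.mul_assoc]
      _ = _ := by rw [hkk, Matrix.one_mul]
  have hkid : ∀ 𝔞, IsId h 𝔞 → ∀ z ∈ 𝔞, k * z * kᴴ ∈ 𝔞 := by
    intro 𝔞 ha z hz
    have e2 : k * z * kᴴ = p * (E * z * F) * p' := by
      rw [hkH, hk]; simp only [Matrix.mul_assoc]
    rw [e2]
    exact hpid 𝔞 ha _ (hEid 𝔞 ha z hz)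
  have hkid' : ∀ 𝔞, IsId h 𝔞 → ∀ z ∈ 𝔞, kᴴ * z * k ∈ 𝔞 := by
    intro 𝔞 ha z hz
    have e2 : kᴴ * z * k = F * (p' * z * p) * E := by
      rw [hkH, hk]; simp only [Matrix.mul_assoc]
    rw [e2]
    exact hFid 𝔞 ha _ (hpid' 𝔞 ha z hz)
  obtain ⟨u, hu, y, hyh, hy, hyH, hxy, hpos⟩ := exists_max hh hx hS.isCG (hkid h hidh)
  have huu' : u * uᴴ = 1 := mul_eq_one_comm.1 hu.1
  have huSt : uᴴ ∈ St := by
    obtain ⟨u', hu', huu⟩ := hS.inv u hu.2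
    have : u' = uᴴ := by
      calc u' = (uᴴ * u) * u' := by rw [hu.1, Matrix.one_mul]
        _ = uᴴ := by rw [Matrix.mul_assoc, huu, Matrix.mul_one]
    rw [← this]
    exact hu'
  obtain ⟨g, hg⟩ : ∃ g, g = u * k := ⟨_, rfl⟩
  rw [← hg] at hy
  have hgg : gᴴ * g = 1 := by
    rw [hg, Matrix.conjTranspose_mul]
    calc kᴴ * uᴴ * (u * k) = kᴴ * (uᴴ * u) * k := by simp only [Matrix.mul_assoc]
      _ = 1 := by rw [hu.1, Matrix.mul_one, hkk]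
  have hgg' : g * gᴴ = 1 := mul_eq_one_comm.1 hgg
  have hgid : ∀ 𝔞, IsId h 𝔞 → ∀ z ∈ 𝔞, g * z * gᴴ ∈ 𝔞 := by
    intro 𝔞 ha z hz
    have e1 : g * z * gᴴ = u * (k * z * kᴴ) * uᴴ := by
      rw [hg, Matrix.conjTranspose_mul]; simp only [Matrix.mul_assoc]
    rw [e1]
    exact hSid u hu.2 _ huu' 𝔞 ha _ (hkid 𝔞 ha z hz)
  have hgid' : ∀ 𝔞, IsId h 𝔞 → ∀ z ∈ 𝔞, gᴴ * z * g ∈ 𝔞 := by
    intro 𝔞 ha z hz
    have e1 : gᴴ * z * g = kᴴ * (uᴴ * z * u) * k := by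
      rw [hg, Matrix.conjTranspose_mul]; simp only [Matrix.mul_assoc]
    rw [e1]
    exact hkid' 𝔞 ha _ (hSid uᴴ huSt _ hu.1 𝔞 ha _ hz)
  -- `g` preserves the stable subspaces
  have hgP : ∀ m ≤ n, Pres h (dkL (Fin m)) (kp (Fin m) g) ∧
      Pres h (dkL (Fin m)) (kp (Fin m) gᴴ) := by
    intro m hm
    have a2 : ∀ a : Matrix ι ι ℂ, dkL (Fin m) aᴴ = (dkL (Fin m) a)ᴴ :=
      fun a => dk_conjTranspose (κ := Fin m) a
    have b1 : Pres h (dkL (Fin m)) (kp (Fin m) (pᴴ * p)) := by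
      rw [kp_mul, kp_conjT]
      exact (Pres.adj hh a2 (hP m hm)).mul (hP m hm)
    have b2 : Pres h (dkL (Fin m)) (kp (Fin m) E) := by
      intro W hW v hv
      rw [hE']
      refine sqrt_mem U hU d hd W ?_ v hv
      rw [← hPP]
      exact b1 W hW
    have b3 : Pres h (dkL (Fin m)) (kp (Fin m) g) := by
      rw [hg, hk, kp_mul, kp_mul]
      exact (hSt m hm u hu.2).mul ((hP m hm).mul b2)
    have b4 : Pres h (dkL (Fin m)) (kp (Fin m) gᴴ) := by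
      rw [kp_conjT]
      exact Pres.adj hh a2 b3
    exact ⟨b3, b4⟩
  have hC : Cj n h x y g gᴴ := ⟨hgg', hy, hyh, hyH, hxy, hpos, hgP⟩
  refine ⟨y, g, ⟨hC, V_of_pres hM (hgP 1 hn).1, hgid h hidh, hgid' h hidh⟩,
    fun 𝔞 ha z hz => ⟨hgid 𝔞 ha z hz, hgid' 𝔞 ha z hz⟩, ?_⟩
  intro hxg
  obtain ⟨s, hs, hsH, hcomm⟩ := exists_inner hh hx hgg hxg (hgid h hidh)
  obtain ⟨z, hz⟩ : ∃ z, z = exp (-s) * g := ⟨_, rfl⟩
  rw [← hz] at hcomm
  have hsneg : -s ∈ h := Submodule.neg_mem _ hs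
  have hs₁neg : -s₁ ∈ h := Submodule.neg_mem _ hs₁
  refine ⟨uᴴ * exp s * exp s₁, St.mul_mem (St.mul_mem huSt (hS.exp s hs)) (hS.exp s₁ hs₁),
    exp (-s₁) * (exp (-s) * u), St.mul_mem (hS.exp _ hs₁neg) (St.mul_mem (hS.exp _ hsneg) hu.2),
    ?_, ?_⟩
  · calc uᴴ * exp s * exp s₁ * (exp (-s₁) * (exp (-s) * u)) =
        uᴴ * exp s * (exp s₁ * exp (-s₁)) * exp (-s) * u := by simp only [Matrix.mul_assoc]
      _ = uᴴ * (exp s * exp (-s)) * u := by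
          rw [(hns s₁).1, Matrix.mul_one]; simp only [Matrix.mul_assoc]
      _ = 1 := by rw [(hns s).1, Matrix.mul_one, hu.1]
  · have e1 : exp (-s₁) * (exp (-s) * u) * p = z * exp s₂ := by
      calc exp (-s₁) * (exp (-s) * u) * p = exp (-s₁) * (exp (-s) * (u * k)) * F := by
            rw [hpk]; simp only [Matrix.mul_assoc]
        _ = exp (-s₁) * z * (exp s₁ * exp s₂) := by rw [← hg, ← hz, hexp]
        _ = (exp (-s₁) * z) * exp s₁ * exp s₂ := by simp only [Matrix.mul_assoc]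
        _ = z * (exp (-s₁) * exp s₁) * exp s₂ := by
            rw [exp_comm (a := -s₁) (b := z) (by
              rw [Matrix.neg_mul, Matrix.mul_neg, hcomm s₁ hs₁])]
            simp only [Matrix.mul_assoc]
        _ = z * exp s₂ := by rw [(hns s₁).2, Matrix.mul_one]
    intro w hw
    rw [e1]
    calc z * exp s₂ * w = z * (exp s₂ * w) := by rw [Matrix.mul_assoc]
      _ = (z * w) * exp s₂ := by rw [hcs₂ w hw, Matrix.mul_assoc]
      _ = w * (z * exp s₂) := by rw [hcomm w hw, Matrix.mul_assoc]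

/-- If the components of `y - x` in sufficiently many ideals vanish then `g` commutes with `x`. -/
lemma xg_of {y g : Matrix ι ι ℂ} (hM : Mdl h V) (hx : IsReg h x) (G : Gd n h V x y g)
    {J : Set (Matrix ι ι ℂ)}
    (hJ : ∀ z ∈ h, (∀ N ∈ J, z ∈ cpl h (gen h N)) → z = 0)
    (h0 : ∀ N ∈ J, y - x ∈ cpl h (gen h N)) : x * g = g * x := by
  have h1 := hJ _ (h.sub_mem G.C.mem hx.mem) h0
  have h2 : y = x := sub_eq_zero.1 h1
  have hy := G.hy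
  rw [h2] at hy
  calc x * g = (g * x * gᴴ) * g := by rw [← hy]
    _ = g * x * (gᴴ * g) := by simp only [Matrix.mul_assoc]
    _ = g * x := by rw [G.u2, Matrix.mul_one]

/-- **The main theorem on matrices which preserve the stable subspaces of the tensor powers of
degree at most three.** -/
theorem inner_or_bad (hM : Mdl h V) (hS : IsGrp h St) {J : Set (Matrix ι ι ℂ)}
    (hJ : ∀ N ∈ J, IsInv h V N) (hJc : ∀ N ∈ J, ∀ N' ∈ J, N * N' = N' * N)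
    (hJ0 : ∀ z ∈ h, (∀ N ∈ J, z ∈ cpl h (gen h N)) → z = 0) {p p' : Matrix ι ι ℂ}
    (hp : p * p' = 1) (hSt : ∀ k ≤ 3, ∀ q ∈ St, Pres h (dkL (Fin k)) (kp (Fin k) q))
    (hP : ∀ k ≤ 3, Pres h (dkL (Fin k)) (kp (Fin k) p))
    (hSid : ∀ q ∈ St, ∀ q', q * q' = 1 → ∀ 𝔞, IsId h 𝔞 → ∀ z ∈ 𝔞, q * z * q' ∈ 𝔞)
    (hpid : ∀ 𝔞, IsId h 𝔞 → ∀ z ∈ 𝔞, p * z * p' ∈ 𝔞)
    (hpid' : ∀ 𝔞, IsId h 𝔞 → ∀ z ∈ 𝔞, p' * z * p ∈ 𝔞) :
    (∃ q ∈ St, ∃ q' ∈ St, q * q' = 1 ∧ ∀ w ∈ h, (q' * p) * w = w * (q' * p)) ∨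
      ∃ N ∈ J, ∃ f f', Bad V (gen h N) f f' := by
  have hne : ∀ N ∈ J, N ≠ 0 := by
    rintro N hN rfl
    apply hM.ne
    rw [Submodule.eq_bot_iff]
    intro v hv
    rw [← (hJ _ hN).sq v hv, Matrix.zero_mulVec]
  obtain ⟨x, hx, hxN⟩ := exists_reg (h := h) (J := J)
    (fun N hN => ⟨(hJ N hN).mem, (hJ N hN).herm, hne N hN⟩) hJc
  obtain ⟨y, g, G, hid, hfin⟩ := exists_gd (n := 3) (by norm_num) hM hS hx hp hSt hP hSid hpid hpid'
  obtain ⟨S, hSt'⟩ := exists_top hM hx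
  by_cases hbad : ∃ N ∈ J, ∃ f f', Bad V (gen h N) f f'
  · exact Or.inr hbad
  left
  apply hfin
  refine xg_of hM hx G hJ0 fun N hN => ?_
  have hidN := gen_id hM (hJ N hN).mem
  rcases dich hM hx G (hJ N hN) (hxN N hN) (fun z hz => (hid _ hidN z hz).1)
      (fun z hz => (hid _ hidN z hz).2) hSt' (by norm_num) with h1 |
      ⟨T₀, hT₀, _, β, hβ, β', hβ', h2, h3, h4, h5, h6, h7⟩
  · exact out1 hM hx G hidN hSt' h1
  · exfalso
    apply hbad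
    obtain ⟨f, f', hf⟩ := out2 hM hx (hJ N hN) (hxN N hN) hSt' hT₀ hβ hβ' h2 h3 h5 h6 h7
    exact ⟨N, hN, f, f', hf⟩

end Run7.h226.Wts
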