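import Pool.Agent.Run7.h226.Dcp
import Pool.Agent.Run7.h226.Dim

/-!
# The decomposition and the outcomes, with the degree
-/

set_option linter.unusedSectionVars false

namespace Run7.h226.Wts

open Matrix Pool.Agent.N996.BP Pool.Agent.N996.FP ComplexOrder NormedSpace

variable {ι : Type} [Fintype ι] [DecidableEq ι] {h : Submodule ℂ (Matrix ι ι ℂ)}
  {V : Submodule ℂ (ι → ℂ)} {x : Matrix ι ι ℂ} {St : Submonoid (Matrix ι ι ℂ)}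

/-- **The main theorem on matrices which preserve the stable subspaces of the tensor powers of
degree at most `n`.** -/
theorem inner_or_badL (hM : Mdl h V) (hS : IsGrp h St) {J : Set (Matrix ι ι ℂ)}
    (hJ : ∀ N ∈ J, IsInv h V N) (hJc : ∀ N ∈ J, ∀ N' ∈ J, N * N' = N' * N)
    (hJ0 : ∀ z ∈ h, (∀ N ∈ J, z ∈ cpl h (gen h N)) → z = 0) {p p' : Matrix ι ι ℂ} {n : ℕ}
    (hn : 2 ≤ n)
    (hp : p * p' = 1) (hSt : ∀ k ≤ n, ∀ q ∈ St, Pres h (dkL (Fin k)) (kp (Fin k) q))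
    (hP : ∀ k ≤ n, Pres h (dkL (Fin k)) (kp (Fin k) p))
    (hSid : ∀ q ∈ St, ∀ q', q * q' = 1 → ∀ 𝔞, IsId h 𝔞 → ∀ z ∈ 𝔞, q * z * q' ∈ 𝔞)
    (hpid : ∀ 𝔞, IsId h 𝔞 → ∀ z ∈ 𝔞, p * z * p' ∈ 𝔞)
    (hpid' : ∀ 𝔞, IsId h 𝔞 → ∀ z ∈ 𝔞, p' * z * p ∈ 𝔞) :
    (∃ q ∈ St, ∃ q' ∈ St, q * q' = 1 ∧ ∀ w ∈ h, (q' * p) * w = w * (q' * p)) ∨
      ∃ N ∈ J, ∃ L d, BadL V (gen h N) L ∧ DimP V (gen h N) L.prod d ∧
        (Even L.length ∨ n = 2 ∧ ∃ k : ℕ, 1 ≤ k ∧ L.length = 2 * k + 1 ∧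
          d = Nat.choose (4 * k + 2) (2 * k + 1)) := by
  have hne : ∀ N ∈ J, N ≠ 0 := by
    rintro N hN rfl
    apply hM.ne
    rw [Submodule.eq_bot_iff]
    intro v hv
    rw [← (hJ _ hN).sq v hv, Matrix.zero_mulVec]
  obtain ⟨x, hx, hxN⟩ := exists_reg (h := h) (J := J)
    (fun N hN => ⟨(hJ N hN).mem, (hJ N hN).herm, hne N hN⟩) hJc
  obtain ⟨y, g, G, hid, hfin⟩ := exists_gd (n := n) (by omega) hM hS hx hp hSt hP hSid hpid hpid'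
  obtain ⟨S, hSt'⟩ := exists_top hM hx
  by_cases hbad : ∃ N ∈ J, ∃ L d, BadL V (gen h N) L ∧ DimP V (gen h N) L.prod d ∧
        (Even L.length ∨ n = 2 ∧ ∃ k : ℕ, 1 ≤ k ∧ L.length = 2 * k + 1 ∧
          d = Nat.choose (4 * k + 2) (2 * k + 1))
  · exact Or.inr hbad
  left
  apply hfin
  refine xg_of hM hx G hJ0 fun N hN => ?_
  have hidN := gen_id hM (hJ N hN).mem
  rcases trich' hM hx G (hJ N hN) (hxN N hN) (fun z hz => (hid _ hidN z hz).1)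
      (fun z hz => (hid _ hidN z hz).2) hSt' hn with h1 | ⟨T₀, D, H, hc⟩
  · exact out1 hM hx G hidN hSt' h1
  · exfalso
    apply hbad
    obtain ⟨Ls, O, h1, h2, h3, h4⟩ := outL hM hx (hJ N hN) (hxN N hN) hSt' H
    have h5 := dimP hM hx (hJ N hN) (hxN N hN) hSt' O H.mem (fun e he => (h2 e he).2) h3
    refine ⟨N, hN, _, _, h4, h5, ?_⟩
    rw [List.length_map, h1]
    exact hc

end Run7.h226.Wts
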