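import Pool.Agent.Run7.h226.Main3
import Pool.Agent.Run7.h226.Cdefs
import Pool.Agent.N996.FP.Fin2

/-!
# Generation by the Hodge classes of codimension at most three
-/

set_option linter.unusedSectionVars false

open CategoryTheory AlgebraicGeometry TensorProduct

universe u

namespace Run7.h226

open Module
open Pool.Agent.H914 Pool.Agent.H914.VarClass Pool.Agent.H914.VarClass.Obj
  Pool.Agent.H914.WeilCohomology
open Pool.Agent.Y121.AHS
open Pool.Agent.Y133.Half (pw ClassPred Sys pfst)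
open Pool.Agent.Y121.AH (hodgePred)
open Pool.Agent.N996 Pool.Agent.N996.FP Pool.Agent.N996.BP.Geo Pool.Agent.N996.FP.Geo

variable {k : Type u} [Field k] {𝒱 : VarClass k} {ops : CycleOps 𝒱}

section Triv

variable {T : Pool.Agent.Y121.AH.HodgeTheory ops} {X : 𝒱.Obj}

/-- The cohomology of points. -/
lemma triv_coh (hgen : Algebra.adjoin T.W.K (T.W.gr X 1 : Set (T.W.H X)) = ⊤)
    (hb : finrank T.W.K (T.W.gr X 1) = 2 * X.dim) (hg : X.dim = 0) :
    ∀ (n : ℕ) (c : T.W.H (pw X n)), ∃ r : T.W.K, c = r • (1 : T.W.H (pw X n))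
  | 0, c => by
    have h0 : T.W.gr X 1 = ⊥ := Submodule.finrank_eq_zero.1 (by rw [hb, hg])
    have h1 : (show T.W.H X from c) ∈ Algebra.adjoin T.W.K (T.W.gr X 1 : Set (T.W.H X)) := by
      rw [hgen]; trivial
    rw [h0] at h1
    have h2 : Algebra.adjoin T.W.K (((⊥ : Submodule T.W.K (T.W.H X)) : Set (T.W.H X))) = ⊥ := by
      rw [eq_bot_iff, Algebra.adjoin_le_iff]
      intro x hx
      rw [(Submodule.mem_bot T.W.K).1 hx]
      exact Subalgebra.zero_mem _
    rw [h2, Algebra.mem_bot] at h1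
    obtain ⟨r, hr⟩ := h1
    refine ⟨r, ?_⟩
    rw [← Algebra.algebraMap_eq_smul_one]
    exact hr.symm
  | n + 1, c => by
    have key : ∀ c : T.W.H ((pw X n).prod X), ∃ r : T.W.K, c = r • (1 : T.W.H ((pw X n).prod X)) := by
      intro c
      refine T.W.kunneth_induction (p := fun c => ∃ r : T.W.K,
        c = r • (1 : T.W.H ((pw X n).prod X))) ?_ ?_ c
      · rintro a b ⟨r, hr⟩ ⟨s, hs⟩
        exact ⟨r + s, by rw [add_smul, ← hr, ← hs]⟩
      · intro i j a _ b _
        obtain ⟨r, hr⟩ := triv_coh hgen hb hg n a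
        obtain ⟨s, hs⟩ := triv_coh hgen hb hg 0 b
        have hs' : b = s • (1 : T.W.H X) := hs
        refine ⟨r * s, ?_⟩
        rw [hr, hs', map_smul, map_smul, map_one, map_one, smul_mul_smul_comm, one_mul]
    exact key c

/-- **The theorem for families.** -/
theorem mainN' {ψ : LinearMap.BilinForm T.W.K (T.W.H X)}
    (hψ : BP.IsPHS (tauT T) (Fx T X) ψ X.dim)
    (hgen : Algebra.adjoin T.W.K (T.W.gr X 1 : Set (T.W.H X)) = ⊤)
    (hb : finrank T.W.K (T.W.gr X 1) = 2 * X.dim)
    (hsc : ∀ f, End1 T X f → ∃ r : T.W.K, ∀ c ∈ T.W.gr X 1, f c = r • c) (S : CSys T.W X)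
    (hle : ∀ n, S.C n ≤ (hodgePred T).sp (pw X n)) {m N : ℕ} (hm : 2 ≤ m) (hN : N + 1 = 2 * m)
    (hexc : m = 2 → ¬ Wts.Exc (2 * X.dim))
    (h : ∀ j ≤ m, ∀ c, Pool.Agent.Y121.AH.IsHodge T (pw X N) j c → c ∈ S.C N) (n : ℕ) :
    (hodgePred T).sp (pw X n) ≤ S.C n := by
  rcases Nat.eq_zero_or_pos X.dim with h0 | h0
  · have h1 : (1 : T.W.H (pw X N)) ∈ S.C N := h 0 (Nat.zero_le _) _ isHodge_one
    obtain ⟨f, hf⟩ := exists_cd (X := X) N n
    have h2 : (1 : T.W.H (pw X n)) ∈ S.C n := by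
      have h3 := S.map f hf h1
      rwa [map_one] at h3
    intro c _
    obtain ⟨r, rfl⟩ := triv_coh hgen hb h0 n c
    exact Submodule.smul_mem _ _ h2
  · exact Geo.mainN hψ hgen hb h0 hsc S hle hm hN hexc h n

end Triv

variable {T : HodgeTheory ops} {X Y : 𝒱.Obj}

variable {m N : ℕ}

/-- **The theorem for families.** -/
theorem cod_c {ψ : RForm T.W X} (hψ : IsPolarisation T X ψ) (hX : OfAbelianType T X)
    (hE : OnlyScalars T X) (hm : 2 ≤ m) (hN : N + 1 = 2 * m)
    (hexc : m = 2 → ¬ IsExceptional (2 * X.dim)) (S : CSys (toH T).W X)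
    (hle : ∀ n, S.C n ≤ (hodgePred (toH T)).sp (pw X n))
    (h : ∀ j ≤ m, ∀ c, IsHodge T (pw X N) j c → c ∈ S.C N) :
    ∀ n, (hodgePred (toH T)).sp (pw X n) ≤ S.C n :=
  mainN' (T := toH T) hψ.toBP.isPHS hX.1 hX.2 (fun f hf => hE f (isEnd_iff.2 hf)) S hle hm hN
    hexc fun j hj c hc => h j hj c hc

/-- The family of the generated classes. -/
def genSys (T : HodgeTheory ops) (X : 𝒱.Obj) (N d : ℕ) : CSys (toH T).W X where
  C n :=
    { carrier := {c | GeneratedUpTo T X N d n c}
      add_mem' := fun ha hb => GeneratedUpTo.add ha hb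
      zero_mem' := by
        have h1 : IsHodge T (pw X N) 0 (0 : T.W.H (pw X N)) :=
          ⟨Submodule.zero_mem _, by
            change Pool.Agent.Y121.AH.em (toH T).W ℂ (0 : (toH T).W.H (pw X N)) ∈ _
            rw [Pool.Agent.Y121.AH.em_zero]
            exact Submodule.zero_mem _⟩
        obtain ⟨f, hf⟩ := exists_cd (X := X) N n
        have h2 : GeneratedUpTo T X N d n (FP.pull T.W f (0 : T.W.H (pw X N))) :=
          GeneratedUpTo.pull f (isCoordinateMap_iff.2 (BP.isCoordinateMap_iff.2 hf))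
            (GeneratedUpTo.hodge (Nat.zero_le _) h1)
        have h3 : FP.pull T.W f (0 : T.W.H (pw X N)) = 0 := map_zero (T.W.map f)
        rw [h3] at h2
        exact h2
      smul_mem' := fun r _ ha => GeneratedUpTo.smul r ha }
  mul h h' := GeneratedUpTo.mul h h'
  map f hf _ h := GeneratedUpTo.pull f (isCoordinateMap_iff.2 (BP.isCoordinateMap_iff.2 hf)) h
  push h := GeneratedUpTo.push h

lemma genUp_le {N d n : ℕ} {c : T.W.H (pw X n)} (h : GeneratedUpTo T X N d n c) :
    (show (toH T).W.H (pw X n) from c) ∈ (hodgePred (toH T)).sp (pw X n) := by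
  have h1 : Generated T X N n c := by
    induction h with
    | hodge _ h => exact Generated.hodge h
    | add _ _ ih ih' => exact Generated.add ih ih'
    | smul r _ ih => exact Generated.smul r ih
    | mul _ _ ih ih' => exact Generated.mul ih ih'
    | pull f hf _ ih => exact Generated.pull f hf ih
    | push _ ih => exact Generated.push ih
  have h2 := generated_iff.1 h1
  have h3 : Gnr (toH T) X N n c := by
    clear h h1
    induction h2 with
    | hodge h => exact Gnr.hodge h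
    | add _ _ ih ih' => exact Gnr.add ih ih'
    | smul r _ ih => exact Gnr.smul r ih
    | mul _ _ ih ih' => exact Gnr.mul ih ih'
    | pull f hf _ ih => exact Gnr.map f (BP.isCoordinateMap_iff.1 hf) ih
    | push _ ih => exact Gnr.push ih
  exact gnr_le h3

/-- **Generation of the Hodge classes on the powers.** -/
theorem generated_cod {ψ : RForm T.W X} (hψ : IsPolarisation T X ψ) (hX : OfAbelianType T X)
    (hE : OnlyScalars T X) (hm : 2 ≤ m) (hN : N + 1 = 2 * m)
    (hexc : m = 2 → ¬ IsExceptional (2 * X.dim)) {n j : ℕ} {c : T.W.H (pw X n)}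
    (hc : IsHodge T (pw X n) j c) : GeneratedUpTo T X N m n c := by
  have h1 := cod_c hψ hX hE hm hN hexc (genSys T X N m) (fun n c hc => genUp_le hc)
    (fun j hj c hc => GeneratedUpTo.hodge hj hc) n
  exact h1 (ClassPred.sp_of (Q := hodgePred (toH T)) hc)

/-- **The Hodge conjecture for the powers.** -/
theorem hodge_cod {ψ : RForm T.W X} (hψ : IsPolarisation T X ψ) (hX : OfAbelianType T X)
    (hE : OnlyScalars T X) (hm : 2 ≤ m) (hN : N + 1 = 2 * m)
    (hexc : m = 2 → ¬ IsExceptional (2 * X.dim)) (h : HodgeConjectureUpTo T (pw X N) m) (n : ℕ) :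
    HodgeConjecture T (pw X n) := by
  have h1 := cod_c hψ hX hE hm hN hexc ((Pool.Agent.Y133.Half.algSys T.W).csys X)
    (fun n => ClassPred.alg_le (Q := hodgePred (toH T)))
    (fun j hj c hc => by
      obtain ⟨z, hz, rfl⟩ := h j hj c hc
      change T.W.cl (pw X N) z ∈ Pool.Agent.H281R3.HT.algSpan T.W (pw X N)
      exact Submodule.subset_span (Set.mem_iUnion.2 ⟨j, z, hz, rfl⟩)) n
  exact hodgeConjecture_BP.2 (BP.hodgeConjecture_iff.2 h1)

end Run7.h226
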