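import Pool.Agent.Run7.h226.Ars
import Pool.Agent.Run7.h226.Core3

/-!
# The family of the arrays of classes
-/

set_option linter.unusedSectionVars false

open CategoryTheory AlgebraicGeometry TensorProduct

universe u

namespace Run7.h226.Geo

open Module Matrix
open Pool.Agent.H914 Pool.Agent.H914.VarClass Pool.Agent.H914.VarClass.Obj
  Pool.Agent.H914.WeilCohomology
open Pool.Agent.Y133.Half Pool.Agent.Y121.AH
open Pool.Agent.N996.BP Pool.Agent.N996.BP.Geo Pool.Agent.N996.FP Pool.Agent.N996.FP.Geo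
open Run7.h226.Phs Run7.h226.Wts

variable {k : Type u} [Field k] {𝒱 : VarClass k} {ops : CycleOps 𝒱} {T : HodgeTheory ops}
  {X : 𝒱.Obj} {ψ : LinearMap.BilinForm T.W.K (T.W.H X)}
  {ι : Type} [Fintype ι] [DecidableEq ι] {e : Basis ι T.W.K (T.W.H X)} {deg : ι → ℕ} {o : ι}
  {p : ι → Fin 2}

lemma ctr_xA {n : ℕ} (Q : Matrix ι ι ℚ) (b : (Fin (n + 2 + 1) → Lt deg o) → ℚ) :
    ctr Q (xA b) = xA (ctr (fun i j : Lt deg o => Q i.1 j.1) b) := by
  funext w
  have h2 : ∀ (w : Fin (n + 1) → ι) (x y : ι), (∀ k, sn w x y k = o ∨ deg (sn w x y k) = 1) ↔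
      (∀ k, w k = o ∨ deg (w k) = 1) ∧ (x = o ∨ deg x = 1) ∧ (y = o ∨ deg y = 1) := by
    intro w x y
    constructor
    · intro h
      refine ⟨fun k => ?_, ?_, ?_⟩
      · have h3 := h k.castSucc.castSucc
        simpa [sn] using h3
      · have h3 := h (Fin.last (n + 1)).castSucc
        simpa [sn] using h3
      · have h3 := h (Fin.last (n + 2))
        simpa [sn] using h3
    · rintro ⟨h1, h2, h3⟩ k
      refine Fin.lastCases ?_ (fun k => ?_) k
      · simpa [sn] using h3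
      · refine Fin.lastCases ?_ (fun k => ?_) k
        · simpa [sn] using h2
        · simpa [sn] using h1 k
  rw [ctr]
  by_cases h : ∀ k, w k = o ∨ deg (w k) = 1
  · have h3 : ∀ x, ∑ y, Q x y * xA b (sn w x y) = ∑ y : ι, Q x y * ext (fun y : Lt deg o =>
        ext (fun x : Lt deg o => b (sn (fun k => (⟨w k, h k⟩ : Lt deg o)) x y)) x) y := by
      intro x
      refine Finset.sum_congr rfl fun y _ => ?_
      congr 1
      by_cases hx : x = o ∨ deg x = 1
      · by_cases hy : y = o ∨ deg y = 1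
        · rw [xA, dif_pos ((h2 w x y).2 ⟨h, hx, hy⟩), ext, dif_pos hy, ext, dif_pos hx]
          congr 1
          funext k
          refine Subtype.ext ?_
          refine Fin.lastCases ?_ (fun k => ?_) k
          · simp [sn]
          · refine Fin.lastCases ?_ (fun k => ?_) k
            · simp [sn]
            · simp [sn]
        · rw [xA_out _ fun h4 => hy ((h2 w x y).1 h4).2.2, ext_out _ hy]
      · rw [xA_out _ fun h4 => hx ((h2 w x y).1 h4).2.1]
        by_cases hy : y = o ∨ deg y = 1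
        · rw [ext, dif_pos hy, ext_out _ hx]
        · rw [ext_out _ hy]
    rw [Finset.sum_congr rfl fun x _ => h3 x, xA, dif_pos h, ctr]
    simp only [sum_ext]
    have h4 : ∀ x : ι, ∑ j : Lt deg o, Q x j.1 * ext (fun x : Lt deg o =>
        b (sn (fun k => (⟨w k, h k⟩ : Lt deg o)) x j)) x =
        1 * ext (fun x : Lt deg o => ∑ j : Lt deg o, Q x.1 j.1 *
          b (sn (fun k => (⟨w k, h k⟩ : Lt deg o)) x j)) x := by
      intro x
      rw [one_mul]
      by_cases hx : x = o ∨ deg x = 1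
      · simp only [ext, dif_pos hx]
      · rw [ext_out _ hx]
        refine Finset.sum_eq_zero fun j _ => ?_
        rw [ext_out _ hx, mul_zero]
    rw [Finset.sum_congr rfl fun x _ => h4 x]
    refine (sum_ext (fun _ : ι => (1 : ℚ)) _).trans ?_
    simp only [one_mul]
  · rw [xA_out _ h]
    refine Finset.sum_eq_zero fun x _ => Finset.sum_eq_zero fun y _ => ?_
    rw [xA_out _ fun h4 => h ((h2 w x y).1 h4).1, mul_zero]

/-- The arrays with classes in the system. -/
noncomputable def fam (e : Basis ι T.W.K (T.W.H X)) (deg : ι → ℕ) (o : ι) (p : ι → Fin 2)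
    (S : CSys T.W X) (n : ℕ) : Submodule ℚ ((Fin (n + 1) → Lt deg o) → ℚ) where
  carrier := {a | ∀ ε, xA (part (fun j : Lt deg o => p j.1) ε a) ∈ arrc e S n}
  add_mem' {a b} ha hb ε := by
    rw [part_add, xA_add]
    exact Submodule.add_mem _ (ha ε) (hb ε)
  zero_mem' ε := by
    rw [part_zero, xA_zero]
    exact Submodule.zero_mem _
  smul_mem' r a ha ε := by
    rw [part_smul, xA_smul]
    exact Submodule.smul_mem _ _ (ha ε)

variable {S : CSys T.W X}

/-- The class of an array of the family belongs to the system. -/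
lemma fam_clw {n : ℕ} {a : (Fin (n + 1) → Lt deg o) → ℚ} (ha : a ∈ fam e deg o p S n) :
    xA a ∈ arrc e S n := by
  rw [← sum_part (fun j : Lt deg o => p j.1) a, xA_sum]
  exact Submodule.sum_mem _ fun ε _ => ha ε

/-- Hodge classes in coordinates. -/
lemma inv_xA (hψ : IsPHS (tauT T) (Fx T X) ψ X.dim) (ho : e o = 1) {H : HData (Lt deg o)}
    (hl : ∀ t : ℂ, t ≠ 0 → ∀ v : Lt deg o → ℂ,
      mG hψ.int e (fun k => t ^ k) *ᵥ ext v = ext (H.l t *ᵥ v)) {n : ℕ}
    (a : (Fin (n + 1) → Lt deg o) → ℚ) : Inv T (pw X n) (clw e n (xA a)) ↔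
      a ∈ BB H (Fin (n + 1)) := by
  obtain ⟨HF, -, -, hHF⟩ := hψ.exists_hdata e o (by rw [ho]; exact one_F)
  have h1 := inv_cls (hF := hψ.int) e hHF n (xA a)
  refine Iff.trans h1 ?_
  have h2 : ∀ t : ℂ, t ≠ 0 → (kp (Fin (n + 1)) (HF.l t) *ᵥ ca (xA a) = ca (xA a) ↔
      kp (Fin (n + 1)) (H.l t) *ᵥ ca a = ca a) := by
    intro t ht
    rw [ca_xA, hHF t ht, kp_xA (hl t ht)]
    exact ⟨fun h => xA_inj h, fun h => by rw [h]⟩
  constructor
  · intro h t ht
    exact (h2 t ht).1 (h t ht)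
  · intro h t ht
    exact (h2 t ht).2 (h t ht)

/-- **The family.** -/
theorem rfam (hψ : IsPHS (tauT T) (Fx T X) ψ X.dim) (hdeg : ∀ j, e j ∈ T.W.gr X (deg j))
    (hp : ∀ j, e j ∈ PH T.W X (p j : ℕ)) (ho : e o = 1) {H : HData (Lt deg o)}
    (hl : ∀ t : ℂ, t ≠ 0 → ∀ v : Lt deg o → ℂ,
      mG hψ.int e (fun k => t ^ k) *ᵥ ext v = ext (H.l t *ᵥ v))
    (hle : ∀ n, S.C n ≤ (hodgePred T).sp (pw X n))
    {q : T.W.H (X.prod X)} (hq : (show T.W.H (pw X 1) from q) ∈ S.C 1)
    (hev : q ∈ PH T.W (X.prod X) 0)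
    (hqQ : ∀ i j : Lt deg o, T.W.tr (X.prod X) (xp T.W (e i.1) (e j.1) * q) =
      ((H.Qr i j : ℚ) : T.W.K)) :
    RFam H (fam e deg o p S) where
  perm := by
    intro n σ a ha ε
    rw [part_rei, ← rei_xA, ← part_xA]
    obtain ⟨s, hs, h⟩ := clw_perm hp n σ (ε ∘ σ)
    have h2 : clw e n (rei σ (part p (ε ∘ σ) (xA a))) =
        s⁻¹ • T.W.map (tau X n σ) (clw e n (part p (ε ∘ σ) (xA a))) := by
      rw [h, smul_smul, inv_mul_cancel₀ hs, one_smul]
    rw [mem_arrc, h2]
    refine Submodule.smul_mem _ _ (S.map _ (isCd_tau _ _) ?_)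
    have h3 := ha (ε ∘ σ)
    rw [← part_xA] at h3
    exact h3
  tens := by
    intro n m a b ha hb ε
    rw [part_tens, ← rei_xA, ← tens_xA]
    exact arrc_tens e n m (ha _) (hb _)
  contr := by
    intro n a ha ε
    choose Q hQ using fun i j : ι => T.rat (T.W.tr (X.prod X) (xp T.W (e i) (e j) * q))
    have h0 : H.Qr = fun i j : Lt deg o => Matrix.of Q i.1 j.1 := by
      ext i j
      have h1 := (hQ i.1 j.1).trans (hqQ i j)
      exact (Rat.cast_injective h1).symm
    rw [part_ctr, xA_sum]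
    refine Submodule.sum_mem _ fun b _ => ?_
    rw [xA_sum]
    refine Submodule.sum_mem _ fun c _ => ?_
    rw [h0, ← ctr_xA]
    exact arrc_contr (fun j => ⟨deg j, PH.of (hdeg j)⟩) hq hev (fun i j => (hQ i j).symm) n (ha _)
  le := by
    intro n a ha
    rw [← inv_xA hψ ho hl]
    rw [inv_iff]
    exact hle n (fam_clw ha)

end Run7.h226.Geo
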