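import Pool.Agent.Run7.h226.Hdt
import Pool.Agent.Run7.h226.AllB
import Pool.Agent.Run7.h226.DcpL

/-!
# The Galois action and the main theorem on arrays
-/

set_option linter.unusedSectionVars false

namespace Run7.h226.Wts

open Matrix Pool.Agent.N996.BP Pool.Agent.N996.FP ComplexConjugate ComplexOrder Module

variable {ι : Type} [Fintype ι] [DecidableEq ι] {H : HData ι}
  {𝔞 𝔰 : Submodule ℂ (Matrix ι ι ℂ)}

/-! ### Ideals are preserved -/

lemma Am_dk {w z : Matrix ι ι ℂ} (hw : w ∈ ho H) :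
    dk (Unit ⊕ Unit) w *ᵥ Am H z = Am H (br w z) := by
  have h1 : Am H z = arr (Matrix.of fun i j : Unit → ι => (z * cQ H.Qir) (i ()) (j ())) := rfl
  have h2 : Am H (br w z) =
      arr (Matrix.of fun i j : Unit → ι => (br w z * cQ H.Qir) (i ()) (j ())) := rfl
  have h3 : mat (dk (Unit ⊕ Unit) w *ᵥ Am H z) = mat (Am H (br w z)) := by
    rw [mat_dk, h1, h2, mat_arr, mat_arr]
    have h4 : br w z * cQ H.Qir = w * (z * cQ H.Qir) + (z * cQ H.Qir) * wᵀ := by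
      have h5 : cQ H.Qir * wᵀ = -(w * cQ H.Qir) := eq_neg_of_add_eq_zero_right (ho_skew hw)
      have h6 : z * cQ H.Qir * wᵀ = z * (cQ H.Qir * wᵀ) := Matrix.mul_assoc _ _ _
      rw [br, Matrix.sub_mul, h6, h5, Matrix.mul_neg, Matrix.mul_assoc, Matrix.mul_assoc,
        ← sub_eq_add_neg]
    rw [h4]
    ext i j
    rw [Matrix.add_apply, Matrix.mul_apply, Matrix.mul_apply, Matrix.of_apply, Matrix.add_apply,
      Matrix.mul_apply, Matrix.mul_apply]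
    simp only [dk_unit, Matrix.transpose_apply, Matrix.of_apply]
    rw [← (Equiv.funUnique Unit ι).sum_comp, ← (Equiv.funUnique Unit ι).sum_comp]
    rfl
  have h4 := congrArg arr h3
  have hma : ∀ a : (Unit ⊕ Unit → ι) → ℂ, arr (mat a) = a := by
    intro a
    funext i
    rw [arr, mat_apply]
    congr 1
    exact Sum.elim_comp_inl_inr i
  rwa [hma, hma] at h4

/-- Ideals are preserved by matrices which fix the Hodge classes. -/
lemma ad_ideal {p p' : Matrix ι ι ℂ} (hp : p * p' = 1) (h2 : Fixes H (cj H p) (Unit ⊕ Unit))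
    (h4 : Fixes H (cj H p) ((Unit ⊕ Unit) ⊕ (Unit ⊕ Unit))) (ha : IsId (hn H) 𝔞)
    {z : Matrix ι ι ℂ} (hz : z ∈ 𝔞) : p * z * p' ∈ 𝔞 := by
  have hp' : cj H p' * cj H p = 1 := by
    rw [← cj_mul, mul_eq_one_comm.1 hp, cj_one]
  -- the ideal in the original coordinates
  let 𝔯 : Submodule ℂ (Matrix ι ι ℂ) :=
    { carrier := {z | cji H z ∈ 𝔞}
      add_mem' := by
        intro a b ha hb
        change cji H (a + b) ∈ 𝔞
        rw [cji, Matrix.mul_add, Matrix.add_mul]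
        exact 𝔞.add_mem ha hb
      zero_mem' := by
        change cji H 0 ∈ 𝔞
        rw [cji, Matrix.mul_zero, Matrix.zero_mul]
        exact 𝔞.zero_mem
      smul_mem' := by
        intro c a ha
        change cji H (c • a) ∈ 𝔞
        rw [cji_smul]
        exact 𝔞.smul_mem c ha }
  have hst : ∀ w ∈ ho H, ∀ v ∈ 𝔯.map (Am H), dk (Unit ⊕ Unit) w *ᵥ v ∈ 𝔯.map (Am H) := by
    rintro w hw _ ⟨z, hz, rfl⟩
    rw [Am_dk hw]
    refine ⟨br w z, ?_, rfl⟩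
    change cji H (br w z) ∈ 𝔞
    rw [cji_br]
    exact ha.lb _ (by rw [mem_hn, cj_cji]; exact hw) _ hz
  obtain ⟨z', hz', heq⟩ := GA_stable hst (mem_GA h4) (Am H (cj H z))
    ⟨cj H z, by change cji H (cj H z) ∈ 𝔞; rw [cji_cj]; exact hz, rfl⟩
  rw [Am_kp H hp' (fix_Q H h2)] at heq
  have h5 : z' * cQ H.Qir = cj H p * cj H z * cj H p' * cQ H.Qir := by
    ext i j
    exact congrFun heq (Sum.elim (fun _ => i) fun _ => j)
  have hQQ : cQ H.Qir * cQ H.Qr = 1 := mul_eq_one_comm.1 (by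
    rw [← cQ_mul, H.Qr_Qir, cQ_one])
  have h6 : z' = cj H p * cj H z * cj H p' := by
    calc z' = z' * cQ H.Qir * cQ H.Qr := by rw [Matrix.mul_assoc, hQQ, Matrix.mul_one]
      _ = cj H p * cj H z * cj H p' * (cQ H.Qir * cQ H.Qr) := by rw [h5, Matrix.mul_assoc]
      _ = _ := by rw [hQQ, Matrix.mul_one]
  have h7 : cji H z' ∈ 𝔞 := hz'
  rw [h6, ← cj_mul, ← cj_mul, cji_cj] at h7
  exact h7

/-! ### The Galois action -/

variable (H)

/-- The action of the automorphisms of the field. -/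
noncomputable def gal (σ : ℂ ≃+* ℂ) (z : Matrix ι ι ℂ) : Matrix ι ι ℂ := cji H ((cj H z).map σ)

variable {H}

lemma gal_mul (σ : ℂ ≃+* ℂ) (a b : Matrix ι ι ℂ) : gal H σ (a * b) = gal H σ a * gal H σ b := by
  rw [gal, cj_mul, map_mul', cji_mul]
  rfl

lemma gal_add (σ : ℂ ≃+* ℂ) (a b : Matrix ι ι ℂ) : gal H σ (a + b) = gal H σ a + gal H σ b := by
  have h1 : (cj H (a + b)).map σ = (cj H a).map σ + (cj H b).map σ := by
    rw [cj, Matrix.mul_add, Matrix.add_mul]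
    ext i j
    simp only [Matrix.map_apply, Matrix.add_apply, map_add]
    rfl
  rw [gal, h1, cji, Matrix.mul_add, Matrix.add_mul]
  rfl

lemma gal_smul (σ : ℂ ≃+* ℂ) (c : ℂ) (a : Matrix ι ι ℂ) :
    gal H σ (c • a) = σ c • gal H σ a := by
  have h1 : (cj H (c • a)).map σ = σ c • (cj H a).map σ := by
    rw [cj, Matrix.mul_smul, Matrix.smul_mul]
    ext i j
    simp only [Matrix.map_apply, Matrix.smul_apply, smul_eq_mul, map_mul]
    rfl
  rw [gal, h1, cji_smul]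
  rfl

lemma gal_one (σ : ℂ ≃+* ℂ) : gal H σ 1 = 1 := by
  rw [gal, cj_one, map_one', cji_one]

lemma gal_zero (σ : ℂ ≃+* ℂ) : gal H σ 0 = 0 := by
  have h := gal_smul (H := H) σ 0 0
  rwa [zero_smul, map_zero, zero_smul] at h

lemma gal_sub (σ : ℂ ≃+* ℂ) (a b : Matrix ι ι ℂ) : gal H σ (a - b) = gal H σ a - gal H σ b := by
  have h1 := gal_add (H := H) σ a ((-1 : ℂ) • b)
  rw [gal_smul, map_neg, map_one, neg_smul, neg_smul, one_smul, one_smul, ← sub_eq_add_neg,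
    ← sub_eq_add_neg] at h1
  exact h1

lemma gal_inv (σ : ℂ ≃+* ℂ) (a : Matrix ι ι ℂ) : gal H σ.symm (gal H σ a) = a := by
  rw [gal, gal, cj_cji, Matrix.map_map]
  have e1 : (⇑σ.symm ∘ ⇑σ) = id := by ext; simp
  rw [e1, Matrix.map_id, cji_cj]

lemma gal_inv' (σ : ℂ ≃+* ℂ) (a : Matrix ι ι ℂ) : gal H σ (gal H σ.symm a) = a := by
  rw [gal, gal, cj_cji, Matrix.map_map]
  have e1 : (⇑σ ∘ ⇑σ.symm) = id := by ext; simp
  rw [e1, Matrix.map_id, cji_cj]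

lemma gal_comp (σ τ : ℂ ≃+* ℂ) (a : Matrix ι ι ℂ) :
    gal H τ (gal H σ a) = gal H (σ.trans τ) a := by
  rw [gal, gal, cj_cji, Matrix.map_map]
  rfl

lemma gal_br (σ : ℂ ≃+* ℂ) (a b : Matrix ι ι ℂ) :
    gal H σ (br a b) = br (gal H σ a) (gal H σ b) := by
  rw [br, gal_sub, gal_mul, gal_mul, br]

lemma gal_hn (σ : ℂ ≃+* ℂ) {a : Matrix ι ι ℂ} (ha : a ∈ hn H) : gal H σ a ∈ hn H := by
  rw [mem_hn, gal, cj_cji]
  exact ho_map σ ha

lemma gal_En (σ : ℂ ≃+* ℂ) : gal H σ (En H) = En H := by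
  rw [gal, cj_En, cQ_map, En]

variable (H)

/-- Conjugate subspaces. -/
noncomputable def galI (σ : ℂ ≃+* ℂ) (𝔞 : Submodule ℂ (Matrix ι ι ℂ)) :
    Submodule ℂ (Matrix ι ι ℂ) where
  carrier := {z | gal H σ.symm z ∈ 𝔞}
  add_mem' {a b} ha hb := by
    change gal H σ.symm (a + b) ∈ 𝔞
    rw [gal_add]
    exact 𝔞.add_mem ha hb
  zero_mem' := by
    change gal H σ.symm 0 ∈ 𝔞
    rw [gal_zero]
    exact 𝔞.zero_mem
  smul_mem' c a ha := by
    change gal H σ.symm (c • a) ∈ 𝔞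
    rw [gal_smul]
    exact 𝔞.smul_mem _ ha

variable {H}

lemma mem_galI {σ : ℂ ≃+* ℂ} {z : Matrix ι ι ℂ} : z ∈ galI H σ 𝔞 ↔ gal H σ.symm z ∈ 𝔞 := Iff.rfl

lemma gal_mem {σ : ℂ ≃+* ℂ} {z : Matrix ι ι ℂ} (hz : z ∈ 𝔞) : gal H σ z ∈ galI H σ 𝔞 := by
  rw [mem_galI, gal_inv]
  exact hz

lemma galI_id (σ : ℂ ≃+* ℂ) (ha : IsId (hn H) 𝔞) : IsId (hn H) (galI H σ 𝔞) where
  le z hz := by
    have h1 := gal_hn σ (ha.le hz)
    rwa [gal_inv'] at h1
  lb z hz w hw := by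
    rw [mem_galI, gal_br]
    exact ha.lb _ (gal_hn _ hz) _ hw

lemma galI_galI (σ τ : ℂ ≃+* ℂ) : galI H τ (galI H σ 𝔞) = galI H (σ.trans τ) 𝔞 := by
  ext z
  rw [mem_galI, mem_galI, gal_comp, mem_galI]
  rfl

lemma galI_refl : galI H (RingEquiv.refl ℂ) 𝔞 = 𝔞 := by
  ext z
  rw [mem_galI]
  have : gal H (RingEquiv.refl ℂ).symm z = z := by
    rw [gal]
    have : (cj H z).map (RingEquiv.refl ℂ).symm = cj H z := by ext i j; rfl
    rw [this, cji_cj]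
  rw [this]

lemma galI_mono {σ : ℂ ≃+* ℂ} (h : 𝔰 ≤ 𝔞) : galI H σ 𝔰 ≤ galI H σ 𝔞 := fun _ hz => h hz

lemma galI_symm (σ : ℂ ≃+* ℂ) : galI H σ (galI H σ.symm 𝔞) = 𝔞 := by
  rw [galI_galI]
  have : σ.symm.trans σ = RingEquiv.refl ℂ := by ext; simp
  rw [this, galI_refl]

lemma galI_symm' (σ : ℂ ≃+* ℂ) : galI H σ.symm (galI H σ 𝔞) = 𝔞 := by
  rw [galI_galI]
  have : σ.trans σ.symm = RingEquiv.refl ℂ := by ext; simp
  rw [this, galI_refl]

lemma galI_bot (σ : ℂ ≃+* ℂ) : galI H σ ⊥ = ⊥ := by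
  rw [eq_bot_iff]
  intro z hz
  rw [mem_galI, Submodule.mem_bot] at hz
  rw [Submodule.mem_bot, ← gal_inv' (H := H) σ z, hz, gal_zero]

lemma galI_sim (σ : ℂ ≃+* ℂ) (ha : IsSim (hn H) 𝔞) : IsSim (hn H) (galI H σ 𝔞) where
  id := galI_id σ ha.id
  ne h0 := by
    apply ha.ne
    rw [← galI_symm' (H := H) (𝔞 := 𝔞) σ, h0, galI_bot]
  sim 𝔠 hc hle hne := by
    have h1 := ha.sim (galI H σ.symm 𝔠) (galI_id _ hc) (by
      rw [← galI_symm' (H := H) (𝔞 := 𝔞) σ]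
      exact galI_mono hle) (fun h0 => hne (by
        rw [← galI_symm (H := H) (𝔞 := 𝔠) σ, h0, galI_bot]))
    rw [← h1, galI_symm]

lemma gal_alg (σ : ℂ ≃+* ℂ) {b : Matrix ι ι ℂ} (hb : b ∈ alg (galI H σ 𝔞)) :
    gal H σ.symm b ∈ alg 𝔞 := by
  rw [alg] at hb
  induction hb using Algebra.adjoin_induction with
  | mem z hz => exact sub_alg hz
  | algebraMap r =>
    rw [Algebra.algebraMap_eq_smul_one, gal_smul, gal_one]
    exact Subalgebra.smul_mem _ (Subalgebra.one_mem _) _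
  | add u w _ _ hu hw => rw [gal_add]; exact Subalgebra.add_mem _ hu hw
  | mul u w _ _ hu hw => rw [gal_mul]; exact Subalgebra.mul_mem _ hu hw

lemma gal_eq_on (σ : ℂ ≃+* ℂ) {a b : Matrix ι ι ℂ} (h : ∀ v ∈ Vn H, a *ᵥ v = b *ᵥ v) :
    ∀ v ∈ Vn H, gal H σ a *ᵥ v = gal H σ b *ᵥ v := by
  rw [eq_on] at h ⊢
  have h1 := congrArg (gal H σ) h
  rwa [gal_mul, gal_mul, gal_sub, gal_one, gal_En] at h1

lemma gal_prod (σ : ℂ ≃+* ℂ) (L : List (Matrix ι ι ℂ)) :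
    (L.map (gal H σ)).prod = gal H σ L.prod := by
  induction L with
  | nil => rw [List.map_nil, List.prod_nil, gal_one]
  | cons f L ih => rw [List.map_cons, List.prod_cons, List.prod_cons, gal_mul, ih]

/-- Bad lists are transported by the Galois action. -/
lemma gal_bad (σ : ℂ ≃+* ℂ) {L : List (Matrix ι ι ℂ)} (hL : BadL (Vn H) 𝔞 L) :
    BadL (Vn H) (galI H σ 𝔞) (L.map (gal H σ)) where
  mem f hf := by
    obtain ⟨f', hf', rfl⟩ := List.mem_map.1 hf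
    exact gal_mem (hL.mem f' hf')
  rev := by rw [← List.map_reverse, gal_prod, gal_prod, hL.rev]
  ne := by
    by_contra hcon
    push Not at hcon
    obtain ⟨v, hv, hv0⟩ := hL.ne
    have h1 := gal_eq_on σ.symm (a := gal H σ L.prod) (b := 0) (fun v hv => by
      rw [← gal_prod, hcon v hv, Matrix.zero_mulVec]) v hv
    rw [gal_inv, gal_zero, Matrix.zero_mulVec] at h1
    exact hv0 h1
  one b hb := by
    obtain ⟨c, hc⟩ := hL.one _ (gal_alg σ hb)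
    refine ⟨σ c, fun v hv => ?_⟩
    have h1 := gal_eq_on σ (a := L.prod * (gal H σ.symm b) * L.prod) (b := c • L.prod)
      (fun v hv => by
        rw [← Matrix.mulVec_mulVec, ← Matrix.mulVec_mulVec, hc v hv, Matrix.smul_mulVec]) v hv
    rw [gal_smul, gal_mul, gal_mul, gal_inv', ← Matrix.mulVec_mulVec,
      ← Matrix.mulVec_mulVec, Matrix.smul_mulVec, ← gal_prod] at h1
    exact h1

/-! ### The action on the vectors -/

variable (H)

/-- The action of the automorphisms of the field on the vectors. -/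
noncomputable def gv (σ : ℂ ≃+* ℂ) (v : ι → ℂ) : ι → ℂ :=
  Mm H *ᵥ fun i => σ ((Mi H *ᵥ v) i)

variable {H}

lemma gv_add (σ : ℂ ≃+* ℂ) (v w : ι → ℂ) : gv H σ (v + w) = gv H σ v + gv H σ w := by
  rw [gv, gv, gv, ← Matrix.mulVec_add]
  congr 1
  funext i
  rw [Matrix.mulVec_add, Pi.add_apply, map_add, Pi.add_apply]

lemma gv_smul (σ : ℂ ≃+* ℂ) (c : ℂ) (v : ι → ℂ) : gv H σ (c • v) = σ c • gv H σ v := by
  rw [gv, gv, ← Matrix.mulVec_smul]
  congr 1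
  funext i
  rw [Matrix.mulVec_smul, Pi.smul_apply, smul_eq_mul, map_mul, Pi.smul_apply, smul_eq_mul]

lemma Mi_gv (σ : ℂ ≃+* ℂ) (v : ι → ℂ) : Mi H *ᵥ gv H σ v = fun i => σ ((Mi H *ᵥ v) i) := by
  rw [gv, Matrix.mulVec_mulVec, Mi_Mm, Matrix.one_mulVec]

lemma gv_comp (σ τ : ℂ ≃+* ℂ) (v : ι → ℂ) : gv H τ (gv H σ v) = gv H (σ.trans τ) v := by
  rw [gv, Mi_gv, gv]
  rfl

lemma gv_inv (σ : ℂ ≃+* ℂ) (v : ι → ℂ) : gv H σ.symm (gv H σ v) = v := by
  rw [gv_comp, gv]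
  have h1 : (fun i => (σ.trans σ.symm) ((Mi H *ᵥ v) i)) = Mi H *ᵥ v := by
    funext i; simp
  rw [h1, Matrix.mulVec_mulVec, Mm_Mi, Matrix.one_mulVec]

lemma gv_inv' (σ : ℂ ≃+* ℂ) (v : ι → ℂ) : gv H σ (gv H σ.symm v) = v := gv_inv σ.symm v

lemma map_mulVec' (σ : ℂ ≃+* ℂ) (z : Matrix ι ι ℂ) (v : ι → ℂ) :
    (z.map σ) *ᵥ (fun i => σ (v i)) = fun i => σ ((z *ᵥ v) i) := by
  funext i
  rw [Matrix.mulVec, dotProduct, Matrix.mulVec, dotProduct, map_sum]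
  refine Finset.sum_congr rfl fun j _ => ?_
  rw [Matrix.map_apply, map_mul]

lemma gal_gv (σ : ℂ ≃+* ℂ) (z : Matrix ι ι ℂ) (v : ι → ℂ) :
    gal H σ z *ᵥ gv H σ v = gv H σ (z *ᵥ v) := by
  have e1 : cj H z *ᵥ (Mi H *ᵥ v) = Mi H *ᵥ (z *ᵥ v) := by
    rw [cj, Matrix.mulVec_mulVec, Matrix.mul_assoc, Mm_Mi, Matrix.mul_one, Matrix.mulVec_mulVec]
  rw [gal, gv, cji, Matrix.mulVec_mulVec, Matrix.mul_assoc, Mi_Mm, Matrix.mul_one,
    ← Matrix.mulVec_mulVec, map_mulVec', gv, e1]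

lemma gv_Vn {σ : ℂ ≃+* ℂ} {v : ι → ℂ} (hv : v ∈ Vn H) : gv H σ v ∈ Vn H := by
  rw [mem_Vn] at hv ⊢
  rw [← gal_En (H := H) σ, gal_gv, hv]
  have h1 := gv_smul (H := H) σ 0 0
  rwa [map_zero, zero_smul, zero_smul] at h1

variable (H)

/-- The preimage of a subspace. -/
noncomputable def gco (σ : ℂ ≃+* ℂ) (U : Submodule ℂ (ι → ℂ)) : Submodule ℂ (ι → ℂ) where
  carrier := {v | gv H σ v ∈ U}
  add_mem' {a b} ha hb := by
    change gv H σ (a + b) ∈ U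
    rw [gv_add]
    exact U.add_mem ha hb
  zero_mem' := by
    change gv H σ 0 ∈ U
    have h1 := gv_smul (H := H) σ 0 0
    rw [map_zero, zero_smul, zero_smul] at h1
    rw [h1]
    exact U.zero_mem
  smul_mem' c a ha := by
    change gv H σ (c • a) ∈ U
    rw [gv_smul]
    exact U.smul_mem _ ha

variable {H}

lemma mem_gco {σ : ℂ ≃+* ℂ} {U : Submodule ℂ (ι → ℂ)} {v : ι → ℂ} :
    v ∈ gco H σ U ↔ gv H σ v ∈ U := Iff.rfl

lemma finrank_gco (σ : ℂ ≃+* ℂ) (U : Submodule ℂ (ι → ℂ)) :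
    finrank ℂ (gco H σ U) = finrank ℂ U := by
  let j : gco H σ U ≃+ U :=
    { toFun := fun v => ⟨gv H σ v, v.2⟩
      invFun := fun u => ⟨gv H σ.symm u, by rw [mem_gco, gv_inv']; exact u.2⟩
      left_inv := fun v => Subtype.ext (gv_inv σ _)
      right_inv := fun u => Subtype.ext (gv_inv' σ _)
      map_add' := fun v w => Subtype.ext (gv_add σ _ _) }
  exact congrArg Cardinal.toNat (rank_eq_of_equiv_equiv (σ : ℂ → ℂ) j σ.bijective
    fun r v => Subtype.ext (gv_smul σ r _))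

/-- Dimensions are transported by the Galois action. -/
lemma gal_dim (σ : ℂ ≃+* ℂ) {F : Matrix ι ι ℂ} {d : ℕ} (hd : DimP (Vn H) 𝔞 F d) :
    DimP (Vn H) (galI H σ 𝔞) (gal H σ F) d := by
  intro U hU ha
  have h1 := hd (gco H σ U) ?_ ?_
  · have e1 : gco H σ (U.map (Matrix.mulVecLin (gal H σ F))) =
        (gco H σ U).map (Matrix.mulVecLin F) := by
      ext v
      constructor
      · rintro ⟨u, hu, huv⟩
        refine ⟨gv H σ.symm u, ?_, ?_⟩
        · change gv H σ (gv H σ.symm u) ∈ U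
          rw [gv_inv']
          exact hu
        · have h2 : gal H σ F *ᵥ u = gv H σ v := huv
          have h3 := gal_gv (H := H) σ F (gv H σ.symm u)
          rw [gv_inv', h2] at h3
          have h4 := congrArg (gv H σ.symm) h3
          rw [gv_inv, gv_inv] at h4
          exact h4.symm
      · rintro ⟨u, hu, rfl⟩
        exact ⟨gv H σ u, hu, gal_gv σ F u⟩
    rw [← e1, finrank_gco, finrank_gco] at h1
    exact h1
  · intro v hv
    have h2 := gv_Vn (σ := σ.symm) (hU hv)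
    rwa [gv_inv] at h2
  · intro a haa u hu
    rw [mem_gco, ← gal_gv]
    exact ha _ (gal_mem haa) _ hu

/-! ### The main theorem -/

lemma Fixes_card {p : Matrix ι ι ℂ} {N : ℕ}
    (hp : ∀ (κ : Type) [Fintype κ] [DecidableEq κ], Fintype.card κ ≤ N → Fixes H p κ)
    (κ : Type) [Fintype κ] [DecidableEq κ] (h : Fintype.card κ ≤ N) : Fixes H p κ := hp κ h

/-- The grading generates the first ideal. -/
noncomputable def a0 (H : HData ι) : Submodule ℂ (Matrix ι ι ℂ) :=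
  gen (hn H) (cji H (Ng H (RingEquiv.refl ℂ)))

lemma Ng_hn (σ : ℂ ≃+* ℂ) : cji H (Ng H σ) ∈ hn H := by
  rw [mem_hn, cj_cji]; exact Ng_mem σ

lemma gal_Ng (σ : ℂ ≃+* ℂ) : gal H σ (cji H (Ng H (RingEquiv.refl ℂ))) = cji H (Ng H σ) := by
  rw [gal, cj_cji, Ng_map σ]

/-- **Matrices which fix the Hodge classes of small degree.** -/
theorem Sml.fixm (hH : Sml H) {m : ℕ} (hm : 2 ≤ m) {p : Matrix ι ι ℂ}
    (hp : ∀ (κ : Type) [Fintype κ] [DecidableEq κ], Fintype.card κ ≤ 2 * m → Fixes H p κ) :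
    p ∈ So H ∨ (m = 2 ∧ ∃ k s : ℕ, 1 ≤ k ∧ Odd s ∧
      finrank ℂ (Vn H) = Nat.choose (4 * k + 2) (2 * k + 1) ^ s) := by
  have hM := hH.mdl
  have hS := isGrp_Sn H
  have hsim0 : IsSim (hn H) (a0 H) :=
    gen_sim hM (Ng_hn _) Ng_herm (hH.inv_on _)
  obtain ⟨p', hp', hpp⟩ := Fixes.inv (hp (Unit ⊕ Unit) (by
    rw [Fintype.card_sum, Fintype.card_unit]; omega))
  have hpf' : ∀ (κ : Type) [Fintype κ] [DecidableEq κ], Fintype.card κ ≤ 2 * m → Fixes H p' κ :=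
    fun κ _ _ h => Fixes.of_inv hp' (hp κ h)
  have c2 : Fintype.card (Unit ⊕ Unit) ≤ 2 * m := by
    rw [Fintype.card_sum, Fintype.card_unit]; omega
  have c4 : Fintype.card ((Unit ⊕ Unit) ⊕ (Unit ⊕ Unit)) ≤ 2 * m := by
    rw [Fintype.card_sum, Fintype.card_sum, Fintype.card_unit]; omega
  have hnn : cji H p * cji H p' = 1 := by rw [← cji_mul, hpp, cji_one]
  have hnn' : cji H p' * cji H p = 1 := by rw [← cji_mul, hp', cji_one]
  have hSid : ∀ q ∈ Sn H, ∀ q', q * q' = 1 → ∀ 𝔞, IsId (hn H) 𝔞 → ∀ z ∈ 𝔞, q * z * q' ∈ 𝔞 :=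
    fun q hq q' hqq 𝔞 ha z hz => ad_ideal hqq (hq (Unit ⊕ Unit))
      (hq ((Unit ⊕ Unit) ⊕ (Unit ⊕ Unit))) ha hz
  have hSt : ∀ k ≤ m, ∀ q ∈ Sn H, Pres (hn H) (dkL (Fin k)) (kp (Fin k) q) :=
    fun k _ q hq => pres_fix H (hq (Fin k ⊕ Fin k))
  have hP : ∀ k ≤ m, Pres (hn H) (dkL (Fin k)) (kp (Fin k) (cji H p)) := by
    intro k hk
    refine pres_fix H ?_
    rw [cj_cji]
    refine hp _ ?_
    rw [Fintype.card_sum, Fintype.card_fin]
    omega
  have hSV : ∀ q ∈ Sn H, ∀ v ∈ Vn H, q *ᵥ v ∈ Vn H := fun q hq =>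
    V_of_pres hM (hSt 1 (by omega) q hq)
  -- the conjugate ideals and Hermitian elements
  have hex : ∀ σ : ℂ ≃+* ℂ, ∃ N ∈ galI H σ (a0 H), IsInv (hn H) (Vn H) N := by
    intro σ
    refine exists_herm hM hS hSV hSid (galI_id σ hsim0.id) (N₀ := cji H (Ng H σ)) ?_
      (hH.inv_on σ)
    rw [← gal_Ng σ]
    exact gal_mem (gen_mem _)
  let I : Set (Submodule ℂ (Matrix ι ι ℂ)) := {𝔞 | ∃ σ : ℂ ≃+* ℂ, 𝔞 = galI H σ (a0 H)}
  have hI : ∀ 𝔞 ∈ I, ∃ N, N ∈ 𝔞 ∧ IsInv (hn H) (Vn H) N := by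
    rintro _ ⟨σ, rfl⟩
    obtain ⟨N, h1, h2⟩ := hex σ
    exact ⟨N, h1, h2⟩
  have hIs : ∀ 𝔞 ∈ I, IsSim (hn H) 𝔞 := by
    rintro _ ⟨σ, rfl⟩
    exact galI_sim σ hsim0
  choose! N hN1 hN2 using hI
  have hNgen : ∀ 𝔞 ∈ I, gen (hn H) (N 𝔞) = 𝔞 := by
    intro 𝔞 ha
    refine (hIs 𝔞 ha).sim _ (gen_id hM (hN2 𝔞 ha).mem) (gen_le (hIs 𝔞 ha).id (hN1 𝔞 ha)) ?_
    intro h0
    have h1 := gen_mem (h := hn H) (N 𝔞)
    rw [h0, Submodule.mem_bot] at h1
    apply hM.ne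
    rw [Submodule.eq_bot_iff]
    intro v hv
    rw [← (hN2 𝔞 ha).sq v hv, h1, Matrix.zero_mulVec]
  have hcover : ∀ z ∈ hn H, (∀ 𝔞 ∈ I, z ∈ cpl (hn H) 𝔞) → z = 0 := by
    intro z hz h0
    refine hM.cen z hz fun w hw => ?_
    have h1 : ∀ σ : ℂ ≃+* ℂ, cj H z * Ng H σ = Ng H σ * cj H z := by
      intro σ
      have h2 := h0 (galI H σ (a0 H)) ⟨σ, rfl⟩
      have h3 : cji H (Ng H σ) ∈ galI H σ (a0 H) := by
        rw [← gal_Ng σ]; exact gal_mem (gen_mem _)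
      have h4 := cpl_comm hM (galI_id σ hsim0.id) h3 h2
      have h5 := congrArg (cj H) h4
      rw [cj_mul, cj_mul, cj_cji] at h5
      exact h5.symm
    have h2 := ho_of_GG (fun g hg => comm_GG' h1 hg) (mem_hn H |>.1 hw)
    have h3 := congrArg (cji H) h2
    rwa [cji_mul, cji_mul, cji_cj, cji_cj] at h3
  -- the dichotomy
  have g1 : ∀ M ∈ {M | ∃ 𝔞 ∈ I, M = N 𝔞}, IsInv (hn H) (Vn H) M := by
    rintro _ ⟨𝔞, ha, rfl⟩
    exact hN2 𝔞 ha
  have g2 : ∀ M ∈ {M | ∃ 𝔞 ∈ I, M = N 𝔞}, ∀ M' ∈ {M | ∃ 𝔞 ∈ I, M = N 𝔞},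
      M * M' = M' * M := by
    rintro _ ⟨𝔞, ha, rfl⟩ _ ⟨𝔟, hb, rfl⟩
    by_cases h : 𝔞 = 𝔟
    · rw [h]
    · have h1 : ¬ 𝔞 ≤ 𝔟 := by
        intro hle
        exact h ((hIs 𝔟 hb).sim 𝔞 (hIs 𝔞 ha).id hle (hIs 𝔞 ha).ne)
      exact comm_of_sim hM (hIs 𝔟 hb).id (hIs 𝔞 ha) h1 _ (hN1 𝔞 ha) _ (hN1 𝔟 hb)
  have g3 : ∀ z ∈ hn H, (∀ M ∈ {M | ∃ 𝔞 ∈ I, M = N 𝔞}, z ∈ cpl (hn H) (gen (hn H) M)) →
      z = 0 := by
    intro z hz h0
    refine hcover z hz fun 𝔞 ha => ?_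
    have h1 := h0 (N 𝔞) ⟨𝔞, ha, rfl⟩
    rwa [hNgen 𝔞 ha] at h1
  have g4 : ∀ 𝔞, IsId (hn H) 𝔞 → ∀ z ∈ 𝔞, cji H p * z * cji H p' ∈ 𝔞 := by
    intro 𝔞 ha z hz
    exact ad_ideal hnn (by rw [cj_cji]; exact hp _ c2) (by rw [cj_cji]; exact hp _ c4) ha hz
  have g5 : ∀ 𝔞, IsId (hn H) 𝔞 → ∀ z ∈ 𝔞, cji H p' * z * cji H p ∈ 𝔞 := by
    intro 𝔞 ha z hz
    exact ad_ideal hnn' (by rw [cj_cji]; exact hpf' _ c2) (by rw [cj_cji]; exact hpf' _ c4) ha hz
  rcases inner_or_badL hM hS g1 g2 g3 hm hnn hSt hP hSid g4 g5 with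
    h1 | ⟨M, ⟨𝔞, ha, rfl⟩, L, d, hbad, hdim, hc⟩
  · -- inner
    left
    obtain ⟨q, hq, q', hq', hqq, hc⟩ := h1
    obtain ⟨a, b, hab⟩ := hH.exists_comb hc
    obtain ⟨r, hr⟩ : ∃ r, r = cj H q' * p := ⟨_, rfl⟩
    have hrab : r = a • (1 : Matrix ι ι ℂ) + b • cQ (E0 H) := by
      have h2 := congrArg (cj H) hab
      rw [cj_mul, cj_cji, ← hr] at h2
      rw [h2, cj, Matrix.mul_add, Matrix.add_mul, Matrix.mul_smul, Matrix.smul_mul,
        Matrix.mul_one, Mi_Mm, Matrix.mul_smul, Matrix.smul_mul]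
      congr 2
      rw [← cj_En]
      rfl
    have hrfix : ∀ (κ : Type) [Fintype κ] [DecidableEq κ], Fintype.card κ ≤ 2 * m →
        Fixes H r κ := by
      intro κ _ _ hκ α hα
      rw [hr, kp_mul, ← Matrix.mulVec_mulVec, hp κ hκ α hα]
      exact hq' κ α hα
    -- the unit
    have h2 := (hrfix Unit (by rw [Fintype.card_unit]; omega)).ucol
    have hab1 : a + b = 1 := by
      have h3 := h2 H.D.o
      rw [if_pos rfl, hrab, cQ_E0, Matrix.add_apply, Matrix.smul_apply, Matrix.smul_apply,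
        Matrix.one_apply_eq, Matrix.diagonal_apply_eq, if_pos rfl] at h3
      simpa using h3
    -- the form
    have hQ := fix_Q H (hrfix (Unit ⊕ Unit) c2)
    have hrt : rᵀ = r := by
      rw [hrab, cQ_E0, Matrix.transpose_add, Matrix.transpose_smul, Matrix.transpose_smul,
        Matrix.transpose_one, Matrix.diagonal_transpose]
    have hQQ : cQ H.Qr * cQ H.Qir = 1 := by rw [← cQ_mul, H.Qr_Qir, cQ_one]
    have hQQ' : cQ H.Qir * cQ H.Qr = 1 := mul_eq_one_comm.1 hQQ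
    have hE0t : (cQ (E0 H))ᵀ = cQ (E0 H) := by rw [cQ_E0, Matrix.diagonal_transpose]
    have hEQ : cQ (E0 H) * cQ H.Qir = cQ H.Qir * cQ (E0 H) := by
      have h3 := hH.E0_Q
      rw [hE0t] at h3
      calc cQ (E0 H) * cQ H.Qir = cQ H.Qir * (cQ H.Qr * cQ (E0 H)) * cQ H.Qir := by
            rw [← Matrix.mul_assoc, hQQ', Matrix.one_mul]
        _ = cQ H.Qir * cQ (E0 H) * (cQ H.Qr * cQ H.Qir) := by
            rw [← h3]; simp only [Matrix.mul_assoc]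
        _ = _ := by rw [hQQ, Matrix.mul_one]
    have hrQ : r * cQ H.Qir = cQ H.Qir * r := by
      rw [hrab, Matrix.add_mul, Matrix.mul_add, Matrix.smul_mul, Matrix.mul_smul, Matrix.one_mul,
        Matrix.mul_one, Matrix.smul_mul, Matrix.mul_smul, hEQ]
    have hrr : r * r = 1 := by
      rw [hrt, hrQ, Matrix.mul_assoc] at hQ
      calc r * r = cQ H.Qr * (cQ H.Qir * (r * r)) := by
            rw [← Matrix.mul_assoc, hQQ, Matrix.one_mul]
        _ = 1 := by rw [hQ, hQQ]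
    have ha2 : a * a = 1 := by
      obtain ⟨i, hi⟩ := hH.ne
      have h3 := congrFun (congrFun hrr i) i
      have h4 : r = Matrix.diagonal fun i => a + b * (if i = H.D.o then 1 else 0) := by
        rw [hrab, cQ_E0, ← Matrix.diagonal_one, ← Matrix.diagonal_smul, ← Matrix.diagonal_smul,
          Matrix.diagonal_add]
        congr 1
        funext i
        simp
      rw [h4, Matrix.diagonal_mul_diagonal, Matrix.diagonal_apply_eq, Matrix.one_apply_eq,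
        if_neg hi, mul_zero, add_zero] at h3
      exact h3
    have hrSo : r ∈ So H := by
      rcases mul_self_eq_one_iff.1 ha2 with h3 | h3
      · have hb : b = 0 := by rw [h3] at hab1; simpa using hab1
        rw [hrab, h3, hb, one_smul, zero_smul, add_zero]
        exact Submonoid.one_mem _
      · have hb : b = 2 := by
          rw [h3] at hab1
          have : b = 1 - -1 := eq_sub_of_add_eq' hab1
          rw [this]; norm_num
        have h4 : r = H.l (-1) := by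
          rw [hrab, hH.l_neg, h3, hb, neg_smul, one_smul]
          abel
        rw [h4]
        exact GG_So (Submonoid.subset_closure (l_mem_gens H (by norm_num)))
    have h3 : p = cj H q * r := by
      rw [hr, ← Matrix.mul_assoc, ← cj_mul, hqq, cj_one, Matrix.one_mul]
    rw [h3]
    exact Submonoid.mul_mem _ hq hrSo
  · -- bad
    rw [hNgen 𝔞 ha] at hbad hdim
    obtain ⟨σ, rfl⟩ := ha
    obtain ⟨t, ht1, ht2⟩ := all_bads hM hH.alt (l := L.length) (d := d) (I := I) (by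
      rintro _ ⟨τ, rfl⟩
      refine ⟨galI_sim τ hsim0, ?_⟩
      have h2 := gal_bad (σ.symm.trans τ) hbad
      have h2' := gal_dim (σ.symm.trans τ) hdim
      rw [galI_galI] at h2 h2'
      have h3 : σ.trans (σ.symm.trans τ) = τ := by ext x; simp
      rw [h3] at h2 h2'
      rw [← gal_prod] at h2'
      exact ⟨_, h2, List.length_map _, h2'⟩) hcover
    rcases hc with hc | ⟨h2, k, hk, hk1, hk2⟩
    · exfalso
      have h1 : Even (t * L.length) := hc.mul_left t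
      exact (Nat.not_odd_iff_even.2 h1) ht1
    · right
      refine ⟨h2, k, t, hk, Nat.Odd.of_mul_left ht1, ?_⟩
      rw [← ht2, hk2]

/-- **Matrices which fix the Hodge classes of degree at most six fix all Hodge classes.** -/
theorem Sml.fix3 (hH : Sml H) {p : Matrix ι ι ℂ}
    (hp : ∀ (κ : Type) [Fintype κ] [DecidableEq κ], Fintype.card κ ≤ 6 → Fixes H p κ) :
    p ∈ So H := by
  rcases hH.fixm (m := 3) (by norm_num) hp with h1 | ⟨h1, _⟩
  · exact h1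
  · norm_num at h1

/-- The dimension of the part of weight one. -/
lemma finrank_Vn (H : HData ι) : finrank ℂ (Vn H) + 1 = Fintype.card ι := by
  have h1 := LinearMap.finrank_range_add_finrank_ker (Matrix.mulVecLin (En H))
  rw [Module.finrank_fintype_fun_eq_card] at h1
  have h2 : LinearMap.range (Matrix.mulVecLin (En H)) =
      Submodule.span ℂ {Mm H *ᵥ (Pi.single H.D.o 1)} := by
    have key : ∀ v : ι → ℂ, En H *ᵥ v = (Mi H *ᵥ v) H.D.o • (Mm H *ᵥ (Pi.single H.D.o 1)) := by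
      intro v
      rw [En, cji, ← Matrix.mulVec_mulVec, ← Matrix.mulVec_mulVec, ← Matrix.mulVec_smul]
      congr 1
      rw [cQ_E0]
      funext j
      rw [Matrix.mulVec_diagonal, Pi.smul_apply, smul_eq_mul]
      by_cases h : j = H.D.o
      · rw [if_pos h, h, Pi.single_eq_same, one_mul, mul_one]
      · rw [if_neg h, Pi.single_eq_of_ne h, zero_mul, mul_zero]
    apply le_antisymm
    · rintro _ ⟨v, rfl⟩
      change En H *ᵥ v ∈ _
      rw [key]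
      exact Submodule.smul_mem _ _ (Submodule.mem_span_singleton_self _)
    · rw [Submodule.span_singleton_le_iff_mem]
      refine ⟨Mm H *ᵥ (Pi.single H.D.o 1), ?_⟩
      change En H *ᵥ _ = _
      rw [key, Matrix.mulVec_mulVec, Mi_Mm, Matrix.one_mulVec, Pi.single_eq_same, one_smul]
  have h3 : Mm H *ᵥ (Pi.single H.D.o 1 : ι → ℂ) ≠ 0 := by
    intro h0
    have h4 : Mi H *ᵥ (Mm H *ᵥ (Pi.single H.D.o 1 : ι → ℂ)) = 0 := by
      rw [h0, Matrix.mulVec_zero]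
    rw [Matrix.mulVec_mulVec, Mi_Mm, Matrix.one_mulVec] at h4
    have h5 := congrFun h4 H.D.o
    rw [Pi.single_eq_same] at h5
    exact one_ne_zero h5
  rw [h2, finrank_span_singleton h3] at h1
  rw [Vn]
  omega

/-- **Matrices which fix the Hodge classes of degree at most four.** -/
theorem Sml.fix2 (hH : Sml H) (hd : ¬ ∃ k s : ℕ, 1 ≤ k ∧ Odd s ∧
      Fintype.card ι = Nat.choose (4 * k + 2) (2 * k + 1) ^ s + 1) {p : Matrix ι ι ℂ}
    (hp : ∀ (κ : Type) [Fintype κ] [DecidableEq κ], Fintype.card κ ≤ 4 → Fixes H p κ) :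
    p ∈ So H := by
  rcases hH.fixm (m := 2) (by norm_num) hp with h1 | ⟨_, k, s, hk, hs, h1⟩
  · exact h1
  · exfalso
    refine hd ⟨k, s, hk, hs, ?_⟩
    rw [← finrank_Vn H, h1]

end Run7.h226.Wts
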