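import Pool.Agent.Run7.h226.Herm
import Pool.Agent.N996.FP.Sd
import Pool.Agent.N996.FP.Wsp

/-!
# The Lie algebra of a Hodge structure of weight one with few endomorphisms
-/

set_option linter.unusedSectionVars false

namespace Run7.h226.Wts

open Matrix Pool.Agent.N996.BP Pool.Agent.N996.FP ComplexConjugate ComplexOrder

variable {ι : Type} [Fintype ι] [DecidableEq ι] (H : HData ι)

/-- The projector to the distinguished vector. -/
def E0 : Matrix ι ι ℚ := Matrix.diagonal fun i => if i = H.D.o then 1 else 0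

lemma cQ_E0 : cQ (E0 H) = Matrix.diagonal fun i => if i = H.D.o then 1 else 0 := by
  ext i j
  rw [cQ, Matrix.map_apply, E0, Matrix.diagonal_apply, Matrix.diagonal_apply]
  split_ifs <;> simp

lemma E0_mul : cQ (E0 H) * cQ (E0 H) = cQ (E0 H) := by
  rw [cQ_E0, Matrix.diagonal_mul_diagonal]
  congr 1
  funext i
  split_ifs <;> simp

/-- Hodge structures which are the sum of the unit and a Hodge structure of weight one with few
endomorphisms. -/
structure Sml : Prop where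
  w1 : H.w = 1
  pi0 : H.π 0 = cQ (E0 H)
  ne : ∃ i, i ≠ H.D.o
  sc : ∀ x : Matrix ι ι ℚ, IsHE H x → ∃ a b : ℚ, x = a • (1 : Matrix ι ι ℚ) + b • E0 H

variable {H}

lemma Sml.sum3 (hH : Sml H) {M : Type*} [AddCommMonoid M] (f : ℤ → M) :
    ∑ k ∈ wr H, f k = f (-1) + f 0 + f 1 := by
  have h1 : wr H = {-1, 0, 1} := by
    rw [wr, hH.w1]
    rfl
  rw [h1, Finset.sum_insert (by decide), Finset.sum_insert (by decide), Finset.sum_singleton,
    add_assoc]

lemma Sml.mem3 (hH : Sml H) {k : ℤ} (hk : k = -1 ∨ k = 0 ∨ k = 1) : k ∈ wr H := by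
  rw [wr, hH.w1, Finset.mem_Icc]
  push_cast
  omega

lemma ho_o {z : Matrix ι ι ℂ} (hz : z ∈ ho H) (i : ι) : z i H.D.o = 0 := by
  have h1 := congrFun (hz Unit _ (uni_BB Unit)) (fun _ => i)
  rw [Matrix.mulVec, dotProduct, sum_unit] at h1
  simp only [dk_unit, ca, uni, Fintype.prod_unique, Pi.zero_apply] at h1
  rw [Finset.sum_eq_single H.D.o] at h1
  · simpa using h1
  · intro j _ hj
    rw [if_neg hj]
    simp
  · intro h; exact absurd (Finset.mem_univ _) h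

lemma ho_E0 {z : Matrix ι ι ℂ} (hz : z ∈ ho H) : z * cQ (E0 H) = 0 := by
  rw [cQ_E0]
  ext i j
  rw [Matrix.mul_diagonal, Matrix.zero_apply]
  by_cases h : j = H.D.o
  · rw [h, ho_o hz, zero_mul]
  · rw [if_neg h, mul_zero]

lemma Sml.E0_HE (hH : Sml H) : IsHE H (E0 H) := by
  intro t _
  have h0 : (0 : ℤ) ∈ Finset.Icc (-(H.w : ℤ)) (H.w : ℤ) := hH.mem3 (Or.inr (Or.inl rfl))
  rw [← hH.pi0, H.l_apply, Finset.sum_mul, Finset.mul_sum]
  refine Finset.sum_congr rfl fun k hk => ?_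
  rw [Matrix.smul_mul, Matrix.mul_smul, H.hmul k hk 0 h0, H.hmul 0 h0 k hk]
  by_cases h : k = 0
  · rw [if_pos h, if_pos h.symm, h]
  · rw [if_neg h, if_neg (Ne.symm h)]

lemma Sml.E0_ho (hH : Sml H) {z : Matrix ι ι ℂ} (hz : z ∈ ho H) : cQ (E0 H) * z = 0 := by
  rw [← hH.E0_HE.comm_ho hz, ho_E0 hz]

variable (H)

/-- The projector in orthonormal coordinates. -/
noncomputable def En : Matrix ι ι ℂ := cji H (cQ (E0 H))

lemma En_mul : En H * En H = En H := by rw [En, ← cji_mul, E0_mul]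

/-- The part of weight one in orthonormal coordinates. -/
noncomputable def Vn : Submodule ℂ (ι → ℂ) := LinearMap.ker (Matrix.mulVecLin (En H))

variable {H}

lemma mem_Vn {v : ι → ℂ} : v ∈ Vn H ↔ En H *ᵥ v = 0 := Iff.rfl

lemma hn_En {w : Matrix ι ι ℂ} (hw : w ∈ hn H) : w * En H = 0 := by
  have h1 := ho_E0 (mem_hn H |>.1 hw)
  have h2 := congrArg (cji H) h1
  rw [cji_mul, cji_cj] at h2
  rw [En, h2, cji, Matrix.mul_zero, Matrix.zero_mul]

lemma Sml.En_hn (hH : Sml H) {w : Matrix ι ι ℂ} (hw : w ∈ hn H) : En H * w = 0 := by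
  have h1 := hH.E0_ho (mem_hn H |>.1 hw)
  have h2 := congrArg (cji H) h1
  rw [cji_mul, cji_cj] at h2
  rw [En, h2, cji, Matrix.mul_zero, Matrix.zero_mul]

lemma cj_En : cj H (En H) = cQ (E0 H) := by rw [En, cj_cji]

lemma one_sub_mem (v : ι → ℂ) : (1 - En H) *ᵥ v ∈ Vn H := by
  rw [mem_Vn, Matrix.mulVec_mulVec, Matrix.mul_sub, Matrix.mul_one, En_mul, sub_self,
    Matrix.zero_mulVec]

lemma one_sub_Vn {v : ι → ℂ} (hv : v ∈ Vn H) : (1 - En H) *ᵥ v = v := by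
  rw [Matrix.sub_mulVec, Matrix.one_mulVec, mem_Vn.1 hv, sub_zero]

/-- Equality on the part of weight one. -/
lemma eq_on {a b : Matrix ι ι ℂ} : (∀ v ∈ Vn H, a *ᵥ v = b *ᵥ v) ↔
    a * (1 - En H) = b * (1 - En H) := by
  constructor
  · intro h
    apply Matrix.mulVec_injective
    funext v
    rw [← Matrix.mulVec_mulVec, ← Matrix.mulVec_mulVec]
    exact h _ (one_sub_mem v)
  · intro h v hv
    have h1 := congrArg (fun M => M *ᵥ v) h
    simp only [← Matrix.mulVec_mulVec] at h1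
    rwa [one_sub_Vn hv] at h1

lemma Sml.exists_comb (hH : Sml H) {z : Matrix ι ι ℂ} (hz : ∀ w ∈ hn H, z * w = w * z) :
    ∃ a b : ℂ, z = a • (1 : Matrix ι ι ℂ) + b • En H := by
  have h3 : ∀ w ∈ ho H, cj H z * w = w * cj H z := by
    intro w hw
    have h4 := hz (cji H w) (by rw [mem_hn, cj_cji]; exact hw)
    have h5 := congrArg (cj H) h4
    rwa [cj_mul, cj_mul, cj_cji] at h5
  have h4 := comm_span fun g hg => comm_GG h3 hg
  have key : ∀ u ∈ Submodule.span ℂ (cQ '' {x | IsHE H x}), ∃ a b : ℂ,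
      u = a • (1 : Matrix ι ι ℂ) + b • cQ (E0 H) := by
    intro u hu
    induction hu using Submodule.span_induction with
    | mem x hx =>
      obtain ⟨y, hy, rfl⟩ := hx
      obtain ⟨a, b, rfl⟩ := hH.sc y hy
      refine ⟨a, b, ?_⟩
      ext i j
      simp only [cQ, Matrix.map_apply, Matrix.add_apply, Matrix.smul_apply, smul_eq_mul,
        Matrix.one_apply, Rat.cast_add, Rat.cast_mul]
      split_ifs <;> simp
    | zero => exact ⟨0, 0, by rw [zero_smul, zero_smul, add_zero]⟩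
    | add p q _ _ hp hq =>
      obtain ⟨a, b, rfl⟩ := hp
      obtain ⟨c, d, rfl⟩ := hq
      exact ⟨a + c, b + d, by rw [add_smul, add_smul]; abel⟩
    | smul r p _ hp =>
      obtain ⟨a, b, rfl⟩ := hp
      exact ⟨r * a, r * b, by rw [smul_add, smul_smul, smul_smul]⟩
  obtain ⟨a, b, hab⟩ := key _ h4
  refine ⟨a, b, ?_⟩
  have h5 := congrArg (cji H) hab
  rw [cji_cj] at h5
  rw [h5, cji, Matrix.mul_add, Matrix.add_mul, Matrix.mul_smul, Matrix.smul_mul, Matrix.mul_one,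
    Mm_Mi, Matrix.mul_smul, Matrix.smul_mul]
  rfl

lemma Sml.Vn_ne (hH : Sml H) : Vn H ≠ ⊥ := by
  obtain ⟨i, hi⟩ := hH.ne
  intro h0
  have h1 : Mm H *ᵥ (Pi.single i 1) ∈ Vn H := by
    rw [mem_Vn, En, cji, Matrix.mulVec_mulVec, Matrix.mul_assoc, Mi_Mm, Matrix.mul_one,
      ← Matrix.mulVec_mulVec]
    have : cQ (E0 H) *ᵥ (Pi.single i 1) = 0 := by
      rw [cQ_E0]
      funext j
      rw [Matrix.mulVec_diagonal, Pi.zero_apply]
      by_cases h : j = H.D.o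
      · rw [if_pos h, Pi.single_eq_of_ne (by rw [h]; exact Ne.symm hi), mul_zero]
      · rw [if_neg h, zero_mul]
    rw [this, Matrix.mulVec_zero]
  rw [h0, Submodule.mem_bot] at h1
  have h2 : (Pi.single i 1 : ι → ℂ) = 0 := by
    have h3 : Mi H *ᵥ (Mm H *ᵥ (Pi.single i 1)) = 0 := by rw [h1, Matrix.mulVec_zero]
    rwa [Matrix.mulVec_mulVec, Mi_Mm, Matrix.one_mulVec] at h3
  have h3 := congrFun h2 i
  rw [Pi.single_eq_same] at h3
  exact one_ne_zero h3

/-- **The module.** -/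
theorem Sml.mdl (hH : Sml H) : Mdl (hn H) (Vn H) where
  la := isLA_hn H
  stab w hw v _ := by
    rw [mem_Vn, Matrix.mulVec_mulVec, hH.En_hn hw, Matrix.zero_mulVec]
  faith w hw h0 := by
    have h1 : w * (1 - En H) = 0 * (1 - En H) := eq_on.1 fun v hv => by
      rw [h0 v hv, Matrix.zero_mulVec]
    rwa [Matrix.mul_sub, Matrix.mul_one, hn_En hw, sub_zero, Matrix.zero_mul] at h1
  irr W hWV hW hne := by
    obtain ⟨E, hE1, hE2, hE3⟩ := exists_projector W (hn H : Set (Matrix ι ι ℂ))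
      (isLA_hn H).star hW
    obtain ⟨a, b, hab⟩ := hH.exists_comb (z := E) fun w hw => (hE3 w hw).symm
    have hV : ∀ v ∈ Vn H, E *ᵥ v = a • v := by
      intro v hv
      rw [hab, Matrix.add_mulVec, Matrix.smul_mulVec, Matrix.one_mulVec, Matrix.smul_mulVec,
        mem_Vn.1 hv, smul_zero, add_zero]
    obtain ⟨w, hw, hw0⟩ := (Submodule.ne_bot_iff _).1 hne
    have h1 : E *ᵥ w = w := by
      have h2 := hE2 w (w - E *ᵥ w) (W.sub_mem hw (hE1 w))
      exact (sub_eq_zero.1 (dotProduct_star_self_eq_zero.1 h2)).symm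
    have ha : a = 1 := by
      rw [hV w (hWV hw)] at h1
      have h2 : (a - 1) • w = 0 := by rw [sub_smul, h1, one_smul, sub_self]
      rcases smul_eq_zero.1 h2 with h3 | h3
      · exact sub_eq_zero.1 h3
      · exact absurd h3 hw0
    refine le_antisymm hWV fun v hv => ?_
    have h2 := hV v hv
    rw [ha, one_smul] at h2
    rw [← h2]
    exact hE1 v
  ne := hH.Vn_ne
  cen z hz hc := by
    obtain ⟨a, b, hab⟩ := hH.exists_comb hc
    have h1 := hn_En hz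
    rw [hab, Matrix.add_mul, Matrix.smul_mul, Matrix.one_mul, Matrix.smul_mul, En_mul,
      ← add_smul] at h1
    have hEn : En H ≠ 0 := by
      intro h0
      have h2 : cQ (E0 H) = 0 := by
        rw [← cj_En, h0, cj, Matrix.mul_zero, Matrix.zero_mul]
      have h3 := congrFun (congrFun h2 H.D.o) H.D.o
      rw [cQ_E0, Matrix.diagonal_apply_eq, if_pos rfl, Matrix.zero_apply] at h3
      exact one_ne_zero h3
    have h2 : a + b = 0 := by
      rcases smul_eq_zero.1 h1 with h3 | h3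
      · exact h3
      · exact absurd h3 hEn
    -- the trace
    have h3 : (cj H z).trace = 0 := by
      have h4 := ho_skew (mem_hn H |>.1 hz)
      have hQQ : cQ H.Qr * cQ H.Qir = 1 := by rw [← cQ_mul, H.Qr_Qir, cQ_one]
      have hQQ' : cQ H.Qir * cQ H.Qr = 1 := mul_eq_one_comm.1 hQQ
      have h5 : cj H z = -(cQ H.Qir * (cj H z)ᵀ * cQ H.Qr) := by
        have h6 : cj H z * cQ H.Qir = -(cQ H.Qir * (cj H z)ᵀ) := eq_neg_of_add_eq_zero_left h4
        calc cj H z = cj H z * cQ H.Qir * cQ H.Qr := by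
              rw [Matrix.mul_assoc, hQQ', Matrix.mul_one]
          _ = _ := by rw [h6, Matrix.neg_mul]
      have h6 : (cj H z).trace = -(cj H z).trace := by
        nth_rewrite 1 [h5]
        rw [Matrix.trace_neg, Matrix.trace_mul_comm, ← Matrix.mul_assoc, hQQ, Matrix.one_mul,
          Matrix.trace_transpose]
      exact self_eq_neg.1 h6
    rw [cj_trace, hab, Matrix.trace_add, Matrix.trace_smul, Matrix.trace_smul, Matrix.trace_one]
      at h3
    have h4 : (En H).trace = 1 := by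
      rw [← cj_trace (H := H), cj_En, cQ_E0, Matrix.trace_diagonal]
      simp
    rw [h4, smul_eq_mul, smul_eq_mul, mul_one] at h3
    have h5 : a * ((Fintype.card ι : ℂ) - 1) = 0 := by
      have : a * ((Fintype.card ι : ℂ) - 1) = (a * (Fintype.card ι : ℂ) + b) - (a + b) := by ring
      rw [this, h3, h2, sub_zero]
    have h6 : (Fintype.card ι : ℂ) - 1 ≠ 0 := by
      obtain ⟨i, hi⟩ := hH.ne
      have h7 : 1 < Fintype.card ι := Fintype.one_lt_card_iff.2 ⟨i, H.D.o, hi⟩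
      intro h0
      have h8 : (Fintype.card ι : ℂ) = 1 := sub_eq_zero.1 h0
      have h9 : Fintype.card ι = 1 := by exact_mod_cast h8
      omega
    have ha : a = 0 := by
      rcases mul_eq_zero.1 h5 with h7 | h7
      · exact h7
      · exact absurd h7 h6
    have hb : b = 0 := by rw [ha, zero_add] at h2; exact h2
    rw [hab, ha, hb, zero_smul, zero_smul, add_zero]

/-- The square of the grading. -/
lemma Sml.Ng_sq (hH : Sml H) (σ : ℂ ≃+* ℂ) : Ng H σ * Ng H σ = 1 - cQ (E0 H) := by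
  have hid := isIdem_map (H := H) σ
  have e1 : (H.π 0).map σ = cQ (E0 H) := by rw [hH.pi0, cQ_map]
  have m1 : (-1 : ℤ) ∈ wr H := hH.mem3 (Or.inl rfl)
  have m3 : (1 : ℤ) ∈ wr H := hH.mem3 (Or.inr (Or.inr rfl))
  have h1 : (H.π (-1)).map σ + (H.π 0).map σ + (H.π 1).map σ = 1 := by
    rw [← hid.one, hH.sum3]
  have h2 : Ng H σ = (H.π 1).map σ - (H.π (-1)).map σ := by
    rw [Ng, hH.sum3]
    push_cast
    rw [zero_smul, add_zero, one_smul, neg_smul, one_smul]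
    abel
  have p1 := hid.mul (-1) m1 (-1) m1
  have p2 := hid.mul (-1) m1 1 m3
  have p3 := hid.mul 1 m3 (-1) m1
  have p4 := hid.mul 1 m3 1 m3
  rw [if_pos rfl] at p1 p4
  rw [if_neg (by decide)] at p2 p3
  rw [h2, Matrix.sub_mul, Matrix.mul_sub, Matrix.mul_sub, p1, p2, p3, p4, sub_zero, zero_sub,
    sub_neg_eq_add, ← e1, ← h1]
  abel

lemma Sml.inv_on (hH : Sml H) (σ : ℂ ≃+* ℂ) :
    ∀ v ∈ Vn H, cji H (Ng H σ) *ᵥ (cji H (Ng H σ) *ᵥ v) = v := by
  intro v hv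
  have h1 : cji H (Ng H σ) * cji H (Ng H σ) = 1 - En H := by
    rw [← cji_mul, hH.Ng_sq, En]
    have : cji H (1 - cQ (E0 H)) = cji H 1 - cji H (cQ (E0 H)) := by
      rw [cji, cji, cji, Matrix.mul_sub, Matrix.sub_mul]
    rw [this, cji_one]
  rw [Matrix.mulVec_mulVec, h1, one_sub_Vn hv]

/-! ### The form -/

lemma Qt_eq : (cQ H.Qr)ᵀ = cQ H.Qr * (H.l Complex.I * H.l Complex.I) := by
  have h1 := H.l_tr Complex.I_ne_zero
  have h2 : (cQ H.Qr)ᵀ * H.l Complex.I = (H.l Complex.I⁻¹)ᵀ * (cQ H.Qr)ᵀ := by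
    have := congrArg Matrix.transpose h1
    rwa [Matrix.transpose_mul, Matrix.transpose_mul, Matrix.transpose_transpose] at this
  have h3 : (H.l Complex.I)ᵀ * (cQ H.Qr)ᵀ = cQ H.Qr * H.l Complex.I := by
    have hS : (cR H.D.S)ᵀ = cR H.D.S := by
      have := H.D.S_tr
      nth_rewrite 2 [← this]
      rfl
    have hS2 : cR H.D.S = cQ H.Qr * H.l Complex.I := by
      rw [H.D.S_eq, cR_mul, cR_Q, cR_C]
    rw [hS2, Matrix.transpose_mul] at hS
    exact hS
  calc (cQ H.Qr)ᵀ = (H.l Complex.I⁻¹ * H.l Complex.I)ᵀ * (cQ H.Qr)ᵀ := by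
        rw [H.l_inv' Complex.I_ne_zero, Matrix.transpose_one, Matrix.one_mul]
    _ = (H.l Complex.I)ᵀ * ((H.l Complex.I⁻¹)ᵀ * (cQ H.Qr)ᵀ) := by
        rw [Matrix.transpose_mul, Matrix.mul_assoc]
    _ = ((H.l Complex.I)ᵀ * (cQ H.Qr)ᵀ) * H.l Complex.I := by rw [← h2, Matrix.mul_assoc]
    _ = _ := by rw [h3, Matrix.mul_assoc]

lemma Sml.l_neg (hH : Sml H) : H.l (-1) = (2 : ℂ) • cQ (E0 H) - 1 := by
  have h1 : H.π (-1) + H.π 0 + H.π 1 = 1 := by
    rw [← H.h1]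
    exact (hH.sum3 fun k => H.π k).symm
  have h2 : H.l (-1) = (-1 : ℂ) ^ (-1 : ℤ) • H.π (-1) + (-1 : ℂ) ^ (0 : ℤ) • H.π 0 +
      (-1 : ℂ) ^ (1 : ℤ) • H.π 1 := hH.sum3 fun k => (-1 : ℂ) ^ k • H.π k
  rw [h2, ← hH.pi0, ← h1]
  norm_num
  rw [two_smul]
  abel

lemma Sml.II (hH : Sml H) : H.l Complex.I * H.l Complex.I = (2 : ℂ) • cQ (E0 H) - 1 := by
  rw [H.l_mul, Complex.I_mul_I, hH.l_neg]

/-- The form in orthonormal coordinates. -/
noncomputable def Qn (H : HData ι) : Matrix ι ι ℂ := Mm H * cQ H.Qir * (Mm H)ᵀ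

/-- Its inverse. -/
noncomputable def Qn' (H : HData ι) : Matrix ι ι ℂ := (Mi H)ᵀ * cQ H.Qr * Mi H

lemma Sml.E0_Q (hH : Sml H) : (cQ (E0 H))ᵀ * cQ H.Qr = cQ H.Qr * cQ (E0 H) := by
  have h0 : (0 : ℤ) ∈ Finset.Icc (-(H.w : ℤ)) (H.w : ℤ) := hH.mem3 (Or.inr (Or.inl rfl))
  have h1 := H.hπQ 0 h0
  rwa [neg_zero, hH.pi0] at h1

theorem Sml.alt (hH : Sml H) : Alt (hn H) (Vn H) (Qn H) (Qn' H) where
  inv := by
    have hQQ : cQ H.Qr * cQ H.Qir = 1 := by rw [← cQ_mul, H.Qr_Qir, cQ_one]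
    have hQQ' : cQ H.Qir * cQ H.Qr = 1 := mul_eq_one_comm.1 hQQ
    have h1 : (Mm H)ᵀ * (Mi H)ᵀ = 1 := by
      rw [← Matrix.transpose_mul, Mi_Mm, Matrix.transpose_one]
    calc Mm H * cQ H.Qir * (Mm H)ᵀ * ((Mi H)ᵀ * cQ H.Qr * Mi H) =
        Mm H * cQ H.Qir * ((Mm H)ᵀ * (Mi H)ᵀ) * cQ H.Qr * Mi H := by
          simp only [Matrix.mul_assoc]
      _ = Mm H * (cQ H.Qir * cQ H.Qr) * Mi H := by
          rw [h1, Matrix.mul_one]; simp only [Matrix.mul_assoc]
      _ = 1 := by rw [hQQ', Matrix.mul_one, Mm_Mi]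
  skew z hz := by
    have h1 := ho_skew (mem_hn H |>.1 hz)
    have h2 : z * Mm H = Mm H * cj H z := by
      rw [cj, ← Matrix.mul_assoc, ← Matrix.mul_assoc, Mm_Mi, Matrix.one_mul]
    have h3 : (Mm H)ᵀ * zᵀ = (cj H z)ᵀ * (Mm H)ᵀ := by
      rw [← Matrix.transpose_mul, h2, Matrix.transpose_mul]
    calc z * (Mm H * cQ H.Qir * (Mm H)ᵀ) + Mm H * cQ H.Qir * (Mm H)ᵀ * zᵀ =
        (z * Mm H) * cQ H.Qir * (Mm H)ᵀ + Mm H * cQ H.Qir * ((Mm H)ᵀ * zᵀ) := by
          simp only [Matrix.mul_assoc]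
      _ = Mm H * (cj H z * cQ H.Qir + cQ H.Qir * (cj H z)ᵀ) * (Mm H)ᵀ := by
          rw [h2, h3, Matrix.mul_add, Matrix.add_mul]; simp only [Matrix.mul_assoc]
      _ = 0 := by rw [h1, Matrix.mul_zero, Matrix.zero_mul]
  alt v hv := by
    obtain ⟨u, hu⟩ : ∃ u, u = Mi H *ᵥ v := ⟨_, rfl⟩
    have hu0 : cQ (E0 H) *ᵥ u = 0 := by
      have h1 := mem_Vn.1 hv
      have h2 := congrArg (fun w => Mi H *ᵥ w) h1
      simp only [Matrix.mulVec_zero] at h2
      rw [En, cji, Matrix.mulVec_mulVec] at h2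
      have e1 : Mi H * (Mm H * cQ (E0 H) * Mi H) = cQ (E0 H) * Mi H := by
        rw [← Matrix.mul_assoc, ← Matrix.mul_assoc, Mi_Mm, Matrix.one_mul]
      rw [e1, ← Matrix.mulVec_mulVec, ← hu] at h2
      exact h2
    have h1 : v ⬝ᵥ (Qn' H *ᵥ v) = u ⬝ᵥ (cQ H.Qr *ᵥ u) := by
      rw [Qn', ← Matrix.mulVec_mulVec, ← Matrix.mulVec_mulVec, ← hu, Matrix.dotProduct_mulVec,
        Matrix.vecMul_transpose, ← hu]
    have h2 : u ⬝ᵥ (cQ H.Qr *ᵥ u) = -(u ⬝ᵥ (cQ H.Qr *ᵥ u)) := by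
      have h3 : u ⬝ᵥ (cQ H.Qr *ᵥ u) = u ⬝ᵥ ((cQ H.Qr)ᵀ *ᵥ u) := by
        rw [Matrix.dotProduct_mulVec, dotProduct_comm, Matrix.mulVec_transpose]
      have h4 : (cQ H.Qr)ᵀ *ᵥ u = -(cQ H.Qr *ᵥ u) := by
        rw [Qt_eq, hH.II, ← Matrix.mulVec_mulVec, Matrix.sub_mulVec, Matrix.smul_mulVec, hu0,
          smul_zero, Matrix.one_mulVec, zero_sub, Matrix.mulVec_neg]
      nth_rewrite 1 [h3]
      rw [h4, dotProduct_neg]
    rw [h1]
    exact self_eq_neg.1 h2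
  nd w hw hw0 := by
    by_contra hcon
    push Not at hcon
    have hall : ∀ v : ι → ℂ, w ⬝ᵥ (Qn' H *ᵥ v) = 0 := by
      intro v
      have h1 := hcon _ (one_sub_mem (H := H) v)
      have h2 : w ⬝ᵥ (Qn' H *ᵥ (En H *ᵥ v)) = 0 := by
        have e1 : Qn' H * En H = (En H)ᵀ * Qn' H := by
          have e0 : (Mm H)ᵀ * (Mi H)ᵀ = 1 := by
            rw [← Matrix.transpose_mul, Mi_Mm, Matrix.transpose_one]
          rw [Qn', En, cji, Matrix.transpose_mul, Matrix.transpose_mul]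
          calc (Mi H)ᵀ * cQ H.Qr * Mi H * (Mm H * cQ (E0 H) * Mi H) =
              (Mi H)ᵀ * cQ H.Qr * (Mi H * Mm H) * cQ (E0 H) * Mi H := by
                simp only [Matrix.mul_assoc]
            _ = (Mi H)ᵀ * (cQ H.Qr * cQ (E0 H)) * Mi H := by
                rw [Mi_Mm, Matrix.mul_one]; simp only [Matrix.mul_assoc]
            _ = (Mi H)ᵀ * ((cQ (E0 H))ᵀ * cQ H.Qr) * Mi H := by rw [hH.E0_Q]
            _ = (Mi H)ᵀ * (cQ (E0 H))ᵀ * ((Mm H)ᵀ * (Mi H)ᵀ) * cQ H.Qr * Mi H := by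
                rw [e0, Matrix.mul_one]; simp only [Matrix.mul_assoc]
            _ = _ := by simp only [Matrix.mul_assoc]
        rw [Matrix.mulVec_mulVec, e1, ← Matrix.mulVec_mulVec, Matrix.dotProduct_mulVec,
          Matrix.vecMul_transpose, mem_Vn.1 hw, zero_dotProduct]
      rw [Matrix.sub_mulVec, Matrix.one_mulVec, Matrix.mulVec_sub, dotProduct_sub, h2,
        sub_zero] at h1
      exact h1
    have h1 : w ᵥ* Qn' H = 0 := by
      funext j
      have h2 := hall (Pi.single j 1)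
      rw [Matrix.dotProduct_mulVec] at h2
      simpa using h2
    have h3 : Qn' H * Qn H = 1 := mul_eq_one_comm.1 (by
      -- the inverse
      have hQQ : cQ H.Qr * cQ H.Qir = 1 := by rw [← cQ_mul, H.Qr_Qir, cQ_one]
      have hQQ' : cQ H.Qir * cQ H.Qr = 1 := mul_eq_one_comm.1 hQQ
      have h1 : (Mm H)ᵀ * (Mi H)ᵀ = 1 := by
        rw [← Matrix.transpose_mul, Mi_Mm, Matrix.transpose_one]
      calc Mm H * cQ H.Qir * (Mm H)ᵀ * ((Mi H)ᵀ * cQ H.Qr * Mi H) =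
          Mm H * cQ H.Qir * ((Mm H)ᵀ * (Mi H)ᵀ) * cQ H.Qr * Mi H := by
            simp only [Matrix.mul_assoc]
        _ = Mm H * (cQ H.Qir * cQ H.Qr) * Mi H := by
            rw [h1, Matrix.mul_one]; simp only [Matrix.mul_assoc]
        _ = 1 := by rw [hQQ', Matrix.mul_one, Mm_Mi])
    apply hw0
    rw [← Matrix.vecMul_one w, ← h3, ← Matrix.vecMul_vecMul, h1, Matrix.zero_vecMul]

end Run7.h226.Wts
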