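import Pool.Agent.Run7.h226.Nob

/-!
# Hermitian elements with square one
-/

set_option linter.unusedSectionVars false

namespace Run7.h226.Wts

open Matrix Pool.Agent.N996.BP Pool.Agent.N996.FP ComplexOrder NormedSpace

variable {ι : Type} [Fintype ι] [DecidableEq ι] {h : Submodule ℂ (Matrix ι ι ℂ)}
  {V : Submodule ℂ (ι → ℂ)} {x : Matrix ι ι ℂ} {𝔞 𝔰 : Submodule ℂ (Matrix ι ι ℂ)}
  {St : Submonoid (Matrix ι ι ℂ)}

lemma entry_le (M : Matrix ι ι ℂ) (i j : ι) : ‖M i j‖ ^ 2 ≤ (nsq M).re := by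
  have h1 : (nsq M).re = ∑ b, ∑ a, ‖M a b‖ ^ 2 := by
    have : nsq M = ((∑ b, ∑ a, ‖M a b‖ ^ 2 : ℝ) : ℂ) := by
      rw [nsq, Matrix.trace]
      push_cast
      refine Finset.sum_congr rfl fun b _ => ?_
      rw [Matrix.diag_apply, Matrix.mul_apply]
      refine Finset.sum_congr rfl fun a _ => ?_
      rw [Matrix.conjTranspose_apply]
      exact Complex.conj_mul' (M a b)
    rw [this, Complex.ofReal_re]
  rw [h1]
  refine le_trans ?_ (Finset.single_le_sum (f := fun b => ∑ a, ‖M a b‖ ^ 2)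
    (fun b _ => Finset.sum_nonneg fun a _ => sq_nonneg _) (Finset.mem_univ j))
  exact Finset.single_le_sum (f := fun a => ‖M a j‖ ^ 2) (fun a _ => sq_nonneg _)
    (Finset.mem_univ i)

lemma compact_ball (C : ℝ) : IsCompact {M : Matrix ι ι ℂ | (nsq M).re ≤ C} := by
  have h1 : IsCompact {u : Matrix ι ι ℂ | ∀ i j, u i j ∈ Metric.closedBall (0 : ℂ) (|C| + 1)} := by
    have h2 : {u : Matrix ι ι ℂ | ∀ i j, u i j ∈ Metric.closedBall (0 : ℂ) (|C| + 1)} =
        Set.univ.pi fun _ : ι => Set.univ.pi fun _ : ι =>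
          Metric.closedBall (0 : ℂ) (|C| + 1) := by
      ext u
      exact ⟨fun hu i _ j _ => hu i j, fun hu i j => hu i trivial j trivial⟩
    rw [h2]
    exact isCompact_univ_pi fun _ => isCompact_univ_pi fun _ => isCompact_closedBall _ _
  refine h1.of_isClosed_subset ?_ ?_
  · refine isClosed_le ?_ continuous_const
    have h1 : Continuous fun u : Matrix ι ι ℂ => uᴴ * u :=
      (continuous_id.matrix_conjTranspose).matrix_mul continuous_id
    exact Complex.continuous_re.comp h1.matrix_trace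
  · intro M hM i j
    rw [mem_closedBall_zero_iff]
    have h2 := entry_le M i j
    have h3 : ‖M i j‖ ^ 2 ≤ C := h2.trans hM
    have h4 := norm_nonneg (M i j)
    have h5 := le_abs_self C
    by_contra h6
    push Not at h6
    nlinarith [abs_nonneg C]

/-- **Existence of Hermitian elements with square one.** -/
theorem exists_herm (hM : Mdl h V) (hS : IsGrp h St) (hSV : ∀ q ∈ St, ∀ v ∈ V, q *ᵥ v ∈ V)
    (hSid : ∀ q ∈ St, ∀ q', q * q' = 1 → ∀ 𝔞, IsId h 𝔞 → ∀ z ∈ 𝔞, q * z * q' ∈ 𝔞)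
    (ha : IsId h 𝔞) {N₀ : Matrix ι ι ℂ} (hN₀ : N₀ ∈ 𝔞) (hsq : ∀ v ∈ V, N₀ *ᵥ (N₀ *ᵥ v) = v) :
    ∃ N ∈ 𝔞, IsInv h V N := by
  obtain ⟨C, hC⟩ : ∃ C, C = (nsq N₀).re := ⟨_, rfl⟩
  have hcl : IsClosed {M : Matrix ι ι ℂ | M ∈ 𝔞 ∧ ∀ v ∈ V, M *ᵥ (M *ᵥ v) = v} := by
    have e1 : {M : Matrix ι ι ℂ | M ∈ 𝔞 ∧ ∀ v ∈ V, M *ᵥ (M *ᵥ v) = v} =
        (𝔞 : Set (Matrix ι ι ℂ)) ∩ ⋂ v ∈ V, {M : Matrix ι ι ℂ | M *ᵥ (M *ᵥ v) = v} := by
      ext M
      simp only [Set.mem_inter_iff, Set.mem_iInter]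
      exact Iff.rfl
    rw [e1]
    refine (Submodule.closed_of_finiteDimensional 𝔞).inter ?_
    refine isClosed_iInter fun v => isClosed_iInter fun _ => ?_
    refine isClosed_eq ?_ continuous_const
    exact continuous_id.matrix_mulVec (continuous_id.matrix_mulVec continuous_const)
  have hcpt : IsCompact ({M : Matrix ι ι ℂ | (nsq M).re ≤ C} ∩
      {M : Matrix ι ι ℂ | M ∈ 𝔞 ∧ ∀ v ∈ V, M *ᵥ (M *ᵥ v) = v}) := (compact_ball C).inter_right hcl
  have hcont : ContinuousOn (fun M : Matrix ι ι ℂ => (nsq M).re) ({M | (nsq M).re ≤ C} ∩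
      {M : Matrix ι ι ℂ | M ∈ 𝔞 ∧ ∀ v ∈ V, M *ᵥ (M *ᵥ v) = v}) := by
    apply Continuous.continuousOn
    have h1 : Continuous fun u : Matrix ι ι ℂ => uᴴ * u :=
      (continuous_id.matrix_conjTranspose).matrix_mul continuous_id
    exact Complex.continuous_re.comp h1.matrix_trace
  obtain ⟨M, ⟨hMC, hMa, hMsq⟩, hmin⟩ := hcpt.exists_isMinOn
    ⟨N₀, (show (nsq N₀).re ≤ C from hC.ge), hN₀, hsq⟩ hcont
  have hmin' : ∀ M' ∈ 𝔞, (∀ v ∈ V, M' *ᵥ (M' *ᵥ v) = v) → (nsq M).re ≤ (nsq M').re := by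
    intro M' h1 h2
    by_cases h3 : (nsq M').re ≤ C
    · exact hmin ⟨h3, h1, h2⟩
    · push Not at h3
      exact le_trans hMC h3.le
  have hMh : M ∈ h := ha.le hMa
  -- the commutator
  obtain ⟨c, hc⟩ : ∃ c, c = br M Mᴴ := ⟨_, rfl⟩
  have hch : c ∈ h := by rw [hc]; exact hM.la.lie M hMh _ (hM.la.star M hMh)
  have hcH : cᴴ = c := by rw [hc, br_star, Matrix.conjTranspose_conjTranspose]
  have hc0 : c = 0 := by
    have h1 : ∀ t : ℝ, (exp (t • ((2 : ℝ) • c)) * M * exp (t • (-((2 : ℝ) • c))) * (-Mᴴ)).trace.re ≤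
        (M * (-Mᴴ)).trace.re := by
      intro t
      have hs : t • c ∈ h := by
        have : t • c = (t : ℂ) • c := (Complex.coe_smul _ _).symm
        rw [this]
        exact h.smul_mem _ hch
      have hsH : (t • c)ᴴ = t • c := by rw [Matrix.conjTranspose_smul, hcH, star_trivial]
      have hen := exp_ns (t • c)
      have h2 := hmin' (exp (t • c) * M * exp (-(t • c)))
        (hSid _ (hS.exp _ hs) _ hen.1 𝔞 ha M hMa) (by
          intro v hv
          have hv' : exp (-(t • c)) *ᵥ v ∈ V := hSV _ (hS.exp _ (h.neg_mem hs)) v hv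
          have e1 : (exp (t • c) * M * exp (-(t • c))) *ᵥ
              ((exp (t • c) * M * exp (-(t • c))) *ᵥ v) =
              exp (t • c) *ᵥ (M *ᵥ (M *ᵥ (exp (-(t • c)) *ᵥ v))) := by
            simp only [Matrix.mulVec_mulVec]
            congr 1
            calc exp (t • c) * M * exp (-(t • c)) * (exp (t • c) * M * exp (-(t • c))) =
                exp (t • c) * M * (exp (-(t • c)) * exp (t • c)) * M * exp (-(t • c)) := by
                  simp only [Matrix.mul_assoc]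
              _ = _ := by rw [hen.2, Matrix.mul_one]; simp only [Matrix.mul_assoc]
          rw [e1, hMsq _ hv', Matrix.mulVec_mulVec, hen.1, Matrix.one_mulVec])
      have h3 : nsq (exp (t • c) * M * exp (-(t • c))) =
          (exp (t • ((2 : ℝ) • c)) * M * exp (t • (-((2 : ℝ) • c))) * Mᴴ).trace := by
        have e1 : (exp (t • c))ᴴ = exp (t • c) := by
          rw [← Matrix.exp_conjTranspose, hsH]
        have e2 : (exp (-(t • c)))ᴴ = exp (-(t • c)) := by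
          rw [← Matrix.exp_conjTranspose, Matrix.conjTranspose_neg, hsH]
        have e3 : exp (t • ((2 : ℝ) • c)) = exp (t • c) * exp (t • c) := by
          rw [← Matrix.exp_add_of_commute _ _ (Commute.refl _)]
          congr 1
          rw [smul_comm, two_smul]
        have e4 : exp (t • (-((2 : ℝ) • c))) = exp (-(t • c)) * exp (-(t • c)) := by
          rw [← Matrix.exp_add_of_commute _ _ (Commute.refl _)]
          congr 1
          rw [smul_neg, smul_comm, two_smul, neg_add]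
        rw [nsq, Matrix.conjTranspose_mul, Matrix.conjTranspose_mul, e1, e2, e3, e4]
        have e5 : exp (-(t • c)) * (Mᴴ * exp (t • c)) * (exp (t • c) * M * exp (-(t • c))) =
            exp (-(t • c)) * (Mᴴ * (exp (t • c) * exp (t • c) * M * exp (-(t • c)))) := by
          simp only [Matrix.mul_assoc]
        rw [e5, Matrix.trace_mul_comm]
        have e6 : Mᴴ * (exp (t • c) * exp (t • c) * M * exp (-(t • c))) * exp (-(t • c)) =
            Mᴴ * (exp (t • c) * exp (t • c) * M * (exp (-(t • c)) * exp (-(t • c)))) := by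
          simp only [Matrix.mul_assoc]
        rw [e6, Matrix.trace_mul_comm]
      rw [h3] at h2
      have h4 : (M * Mᴴ).trace = nsq M := by rw [Matrix.trace_mul_comm, nsq]
      rw [Matrix.mul_neg, Matrix.mul_neg, Matrix.trace_neg, Matrix.trace_neg, Complex.neg_re,
        Complex.neg_re, h4]
      linarith
    have h2 := (max_cond h1).1
    have h3 : (((2 : ℝ) • c * M - M * (2 : ℝ) • c) * -Mᴴ).trace = -2 * nsq c := by
      have e1 : ((2 : ℝ) • c * M - M * (2 : ℝ) • c) = (2 : ℂ) • br c M := by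
        rw [br, smul_sub, Matrix.smul_mul, Matrix.mul_smul]
        rfl
      rw [e1, Matrix.mul_neg, Matrix.trace_neg, Matrix.smul_mul, Matrix.trace_smul, tr_br, ← hc,
        nsq, hcH, smul_eq_mul]
      ring
    rw [h3] at h2
    have h4 : (nsq c).re = 0 := by
      have h5 : (-2 * nsq c).re = -2 * (nsq c).re := by
        have : (-2 : ℂ) = ((-2 : ℝ) : ℂ) := by push_cast; ring
        rw [this, Complex.re_ofReal_mul]
      rw [h5] at h2
      linarith
    apply nsq_eq_zero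
    rw [← nsq_real, h4, Complex.ofReal_zero]
  have hcomm : M * Mᴴ = Mᴴ * M := by
    rw [hc] at hc0
    exact br_eq_zero.1 hc0
  -- the adjoint also has square one
  have hVst : ∀ v ∈ V, Mᴴ *ᵥ v ∈ V := fun v hv => hM.stab _ (hM.la.star M hMh) v hv
  have hVs : ∀ v ∈ V, M *ᵥ v ∈ V := fun v hv => hM.stab _ hMh v hv
  have hMH : ∀ v ∈ V, Mᴴ *ᵥ (Mᴴ *ᵥ v) = v := by
    intro v hv
    obtain ⟨w, hw⟩ : ∃ w, w = Mᴴ *ᵥ (Mᴴ *ᵥ v) - v := ⟨_, rfl⟩
    have hwV : w ∈ V := by rw [hw]; exact V.sub_mem (hVst _ (hVst v hv)) hv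
    have h1 : star w ⬝ᵥ w = 0 := by
      have e1 : star w ⬝ᵥ (Mᴴ *ᵥ (Mᴴ *ᵥ v)) = star w ⬝ᵥ v := by
        rw [Matrix.dotProduct_mulVec, Matrix.dotProduct_mulVec, ← Matrix.star_mulVec,
          ← Matrix.star_mulVec, hMsq w hwV]
      nth_rewrite 2 [hw]
      rw [dotProduct_sub, e1, sub_self]
    have h2 := dotProduct_star_self_eq_zero.1 h1
    rw [hw] at h2
    exact sub_eq_zero.1 h2
  have hPP : ∀ v ∈ V, M *ᵥ (Mᴴ *ᵥ v) = v := by
    intro v hv
    obtain ⟨w, hw⟩ : ∃ w, w = M *ᵥ (Mᴴ *ᵥ v) - v := ⟨_, rfl⟩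
    have hwV : w ∈ V := by rw [hw]; exact V.sub_mem (hVs _ (hVst v hv)) hv
    have e1 : M *ᵥ (Mᴴ *ᵥ (M *ᵥ (Mᴴ *ᵥ v))) = v := by
      have e2 : Mᴴ *ᵥ (M *ᵥ (Mᴴ *ᵥ v)) = M *ᵥ (Mᴴ *ᵥ (Mᴴ *ᵥ v)) := by
        rw [Matrix.mulVec_mulVec (Mᴴ *ᵥ v), Matrix.mulVec_mulVec (Mᴴ *ᵥ v), hcomm]
      rw [e2, hMH v hv, hMsq v hv]
    have e3 : M *ᵥ (Mᴴ *ᵥ w) = -w := by
      nth_rewrite 1 [hw]
      rw [Matrix.mulVec_sub, Matrix.mulVec_sub, e1, hw]
      abel
    have e4 : star (Mᴴ *ᵥ w) ⬝ᵥ (Mᴴ *ᵥ w) = -(star w ⬝ᵥ w) := by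
      rw [Matrix.star_mulVec, Matrix.conjTranspose_conjTranspose, ← Matrix.dotProduct_mulVec, e3,
        dotProduct_neg]
    have e5 : 0 ≤ star (Mᴴ *ᵥ w) ⬝ᵥ (Mᴴ *ᵥ w) := dotProduct_star_self_nonneg _
    have e6 : 0 ≤ star w ⬝ᵥ w := dotProduct_star_self_nonneg _
    have e7 : star w ⬝ᵥ w = 0 := by
      rw [e4] at e5
      exact le_antisymm (neg_nonneg.1 e5) e6
    have h2 := dotProduct_star_self_eq_zero.1 e7
    rw [hw] at h2
    exact sub_eq_zero.1 h2
  have hHerm : Mᴴ = M := by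
    rw [← sub_eq_zero]
    refine hM.faith _ (h.sub_mem (hM.la.star M hMh) hMh) fun v hv => ?_
    have h1 : M *ᵥ (M *ᵥ (Mᴴ *ᵥ v)) = M *ᵥ v := by rw [hPP v hv]
    rw [hMsq _ (hVst v hv)] at h1
    rw [Matrix.sub_mulVec, h1, sub_self]
  exact ⟨M, hMa, hMh, hHerm, hMsq⟩

end Run7.h226.Wts
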