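import Pool.Agent.Run7.h226.Top3

/-!
# Ideals
-/

set_option linter.unusedSectionVars false

namespace Run7.h226.Wts

open Matrix Pool.Agent.N996.BP Pool.Agent.N996.FP ComplexOrder

variable {ι : Type} [Fintype ι] [DecidableEq ι] {h : Submodule ℂ (Matrix ι ι ℂ)}
  {V : Submodule ℂ (ι → ℂ)} {x : Matrix ι ι ℂ} {𝔞 𝔟 : Submodule ℂ (Matrix ι ι ℂ)}

/-- Ideals. -/
structure IsId (h 𝔞 : Submodule ℂ (Matrix ι ι ℂ)) : Prop where
  le : 𝔞 ≤ h
  lb : ∀ z ∈ h, ∀ a ∈ 𝔞, br z a ∈ 𝔞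

/-- The orthogonal complement. -/
def cpl (h 𝔞 : Submodule ℂ (Matrix ι ι ℂ)) : Submodule ℂ (Matrix ι ι ℂ) where
  carrier := {z | z ∈ h ∧ ∀ a ∈ 𝔞, (aᴴ * z).trace = 0}
  add_mem' {z w} hz hw := ⟨h.add_mem hz.1 hw.1, fun a ha => by
    rw [Matrix.mul_add, Matrix.trace_add, hz.2 a ha, hw.2 a ha, add_zero]⟩
  zero_mem' := ⟨h.zero_mem, fun a _ => by rw [Matrix.mul_zero, Matrix.trace_zero]⟩
  smul_mem' c z hz := ⟨h.smul_mem c hz.1, fun a ha => by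
    rw [Matrix.mul_smul, Matrix.trace_smul, hz.2 a ha, smul_zero]⟩

lemma mem_cpl {z : Matrix ι ι ℂ} : z ∈ cpl h 𝔞 ↔ z ∈ h ∧ ∀ a ∈ 𝔞, (aᴴ * z).trace = 0 := Iff.rfl

lemma IsId.lb' (ha : IsId h 𝔞) {z a : Matrix ι ι ℂ} (hz : z ∈ h) (haa : a ∈ 𝔞) :
    br a z ∈ 𝔞 := by
  rw [br_swap]
  exact 𝔞.neg_mem (ha.lb z hz a haa)

lemma cpl_id (hM : Mdl h V) (ha : IsId h 𝔞) : IsId h (cpl h 𝔞) where
  le z hz := hz.1
  lb w hw z hz := by
    refine ⟨hM.la.lie w hw z hz.1, fun a haa => ?_⟩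
    have h1 := hz.2 _ (ha.lb wᴴ (hM.la.star w hw) a haa)
    rw [br_star, Matrix.conjTranspose_conjTranspose, tr_br] at h1
    exact h1

lemma cpl_disj {z : Matrix ι ι ℂ} (h1 : z ∈ 𝔞) (h2 : z ∈ cpl h 𝔞) : z = 0 :=
  nsq_eq_zero (h2.2 z h1)

lemma cpl_dec (ha : IsId h 𝔞) {z : Matrix ι ι ℂ} (hz : z ∈ h) :
    ∃ a ∈ 𝔞, ∃ b ∈ cpl h 𝔞, z = a + b := by
  obtain ⟨a, haa, hort⟩ := exists_orthM 𝔞 z
  exact ⟨a, haa, z - a, ⟨h.sub_mem hz (ha.le haa), hort⟩, by abel⟩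

lemma cpl_comm (hM : Mdl h V) (ha : IsId h 𝔞) {a b : Matrix ι ι ℂ} (haa : a ∈ 𝔞)
    (hb : b ∈ cpl h 𝔞) : a * b = b * a := by
  have h1 : br a b ∈ 𝔞 := ha.lb' hb.1 haa
  have h2 : br a b ∈ cpl h 𝔞 := (cpl_id hM ha).lb a (ha.le haa) b hb
  exact sub_eq_zero.1 (cpl_disj h1 h2)

/-- Elements commuting with the ideal and the complement vanish. -/
lemma cen2 (hM : Mdl h V) (ha : IsId h 𝔞) {z : Matrix ι ι ℂ} (hz : z ∈ h)
    (h1 : ∀ a ∈ 𝔞, z * a = a * z) (h2 : ∀ b ∈ cpl h 𝔞, z * b = b * z) : z = 0 := by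
  refine hM.cen z hz fun w hw => ?_
  obtain ⟨a, haa, b, hb, rfl⟩ := cpl_dec ha hw
  rw [Matrix.mul_add, Matrix.add_mul, h1 a haa, h2 b hb]

/-- Ideals are perfect. -/
lemma perf (hM : Mdl h V) (ha : IsId h 𝔞) : 𝔞 ≤ Submodule.span ℂ {z | ∃ a ∈ 𝔞, ∃ b ∈ 𝔞,
    z = br a b} := by
  obtain ⟨𝔠, h𝔠⟩ : ∃ 𝔠, 𝔠 = Submodule.span ℂ {z | ∃ a ∈ 𝔞, ∃ b ∈ 𝔞, z = br a b} := ⟨_, rfl⟩
  rw [← h𝔠]
  have hle : 𝔠 ≤ 𝔞 := by
    rw [h𝔠]
    refine Submodule.span_le.2 ?_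
    rintro _ ⟨a, haa, b, hb, rfl⟩
    exact ha.lb a (ha.le haa) b hb
  have hc : IsId h 𝔠 := by
    refine ⟨hle.trans ha.le, fun z hz c hcc => ?_⟩
    rw [h𝔠] at hcc ⊢
    induction hcc using Submodule.span_induction with
    | mem c hc =>
      obtain ⟨a, haa, b, hb, rfl⟩ := hc
      rw [br_jac]
      exact Submodule.add_mem _ (Submodule.subset_span ⟨_, ha.lb z hz a haa, b, hb, rfl⟩)
        (Submodule.subset_span ⟨a, haa, _, ha.lb z hz b hb, rfl⟩)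
    | zero => simp only [br, Matrix.mul_zero, Matrix.zero_mul, sub_zero]; exact Submodule.zero_mem _
    | add u v _ _ hu hv =>
      have : br z (u + v) = br z u + br z v := by
        simp only [br, Matrix.mul_add, Matrix.add_mul]; abel
      rw [this]; exact Submodule.add_mem _ hu hv
    | smul r u _ hu =>
      have : br z (r • u) = r • br z u := by
        simp only [br, Matrix.mul_smul, Matrix.smul_mul, smul_sub]
      rw [this]; exact Submodule.smul_mem _ r hu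
  intro c hcc
  obtain ⟨c', hc', d, hd, rfl⟩ := cpl_dec hc (ha.le hcc)
  have hda : d ∈ 𝔞 := by
    have := 𝔞.sub_mem hcc (hle hc')
    rwa [add_sub_cancel_left] at this
  have hd0 : d = 0 := by
    refine cen2 hM ha hd.1 (fun a haa => ?_) (fun b hb => cpl_comm hM ha hda hb)
    have h1 : br d a ∈ 𝔠 := by
      rw [h𝔠]; exact Submodule.subset_span ⟨d, hda, a, haa, rfl⟩
    have h2 : br d a ∈ cpl h 𝔠 := (cpl_id hM hc).lb' (ha.le haa) hd
    exact sub_eq_zero.1 (cpl_disj h1 h2)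
  rw [hd0, add_zero]
  exact hc'

/-- Ideals are stable under adjoints. -/
lemma IsId.star (hM : Mdl h V) (ha : IsId h 𝔞) {c : Matrix ι ι ℂ} (hc : c ∈ 𝔞) : cᴴ ∈ 𝔞 := by
  have key : ∀ d ∈ cpl h 𝔞, (c * d).trace = 0 := by
    intro d hd
    have h1 := perf hM ha hc
    induction h1 using Submodule.span_induction with
    | mem c hm =>
      obtain ⟨a, haa, b, hb, rfl⟩ := hm
      rw [tr_br, br, cpl_comm hM ha hb hd, sub_self, Matrix.mul_zero, Matrix.trace_zero]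
    | zero => rw [Matrix.zero_mul, Matrix.trace_zero]
    | add u v hu' hv' hu hv =>
      have hle : Submodule.span ℂ {z | ∃ a ∈ 𝔞, ∃ b ∈ 𝔞, z = br a b} ≤ 𝔞 := by
        refine Submodule.span_le.2 ?_
        rintro _ ⟨a, haa, b, hb, rfl⟩
        exact ha.lb a (ha.le haa) b hb
      rw [Matrix.add_mul, Matrix.trace_add, hu (hle hu'), hv (hle hv'), add_zero]
    | smul r u hu' hu =>
      have hle : Submodule.span ℂ {z | ∃ a ∈ 𝔞, ∃ b ∈ 𝔞, z = br a b} ≤ 𝔞 := by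
        refine Submodule.span_le.2 ?_
        rintro _ ⟨a, haa, b, hb, rfl⟩
        exact ha.lb a (ha.le haa) b hb
      rw [Matrix.smul_mul, Matrix.trace_smul, hu (hle hu'), smul_zero]
  obtain ⟨c₁, hc₁, d, hd, hcd⟩ := cpl_dec ha (hM.la.star c (ha.le hc))
  have h1 : d = cᴴ - c₁ := by rw [hcd]; abel
  have h2 : nsq d = 0 := by
    have h3 : nsq d = (dᴴ * cᴴ).trace - (dᴴ * c₁).trace := by
      rw [nsq]
      nth_rewrite 2 [h1]
      rw [Matrix.mul_sub, Matrix.trace_sub]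
    have h4 : (dᴴ * cᴴ).trace = 0 := by
      rw [← Matrix.conjTranspose_mul, Matrix.trace_conjTranspose, key d hd, star_zero]
    have h5 : (dᴴ * c₁).trace = 0 := by
      have h6 : dᴴ * c₁ = (c₁ᴴ * d)ᴴ := by
        rw [Matrix.conjTranspose_mul, Matrix.conjTranspose_conjTranspose]
      rw [h6, Matrix.trace_conjTranspose, hd.2 c₁ hc₁, star_zero]
    rw [h3, h4, h5, sub_zero]
  rw [hcd, nsq_eq_zero h2, add_zero]
  exact hc₁

lemma IsId.la (hM : Mdl h V) (ha : IsId h 𝔞) : IsLA 𝔞 where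
  lie a haa b hb := ha.lb a (ha.le haa) b hb
  star a haa := ha.star hM haa

/-- Hermitian components. -/
lemma dec_herm (hM : Mdl h V) (ha : IsId h 𝔞) {z a b : Matrix ι ι ℂ} (hz : zᴴ = z)
    (haa : a ∈ 𝔞) (hb : b ∈ cpl h 𝔞) (hab : z = a + b) : aᴴ = a ∧ bᴴ = b := by
  have h1 := ha.star hM haa
  have h2 := (cpl_id hM ha).star hM hb
  have h3 : aᴴ + bᴴ = a + b := by rw [← Matrix.conjTranspose_add, ← hab, hz]
  have h4 : aᴴ - a = b - bᴴ := by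
    rw [sub_eq_sub_iff_add_eq_add, h3, add_comm]
  have h5 : aᴴ - a = 0 := cpl_disj (𝔞.sub_mem h1 haa) (by
    rw [h4]; exact (cpl h 𝔞).sub_mem hb h2)
  have h6 : b - bᴴ = 0 := by rw [← h4, h5]
  exact ⟨sub_eq_zero.1 h5, (sub_eq_zero.1 h6).symm⟩

/-- Commuting components. -/
lemma dec_comm (hM : Mdl h V) (ha : IsId h 𝔞) {z a b t : Matrix ι ι ℂ} (ht : t ∈ h)
    (haa : a ∈ 𝔞) (hb : b ∈ cpl h 𝔞) (hab : z = a + b) (hz : t * z = z * t) :
    t * a = a * t ∧ t * b = b * t := by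
  have h1 := ha.lb t ht a haa
  have h2 := (cpl_id hM ha).lb t ht b hb
  have h3 : br t a + br t b = 0 := by
    have : br t z = 0 := by rw [br, hz, sub_self]
    rw [hab] at this
    rw [← this]
    simp only [br, Matrix.mul_add, Matrix.add_mul]; abel
  have h4 : br t a = 0 := cpl_disj h1 (by
    rw [eq_neg_of_add_eq_zero_left h3]; exact (cpl h 𝔞).neg_mem h2)
  have h5 : br t b = 0 := by rw [h4, zero_add] at h3; exact h3
  exact ⟨sub_eq_zero.1 h4, sub_eq_zero.1 h5⟩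

lemma dec_uniq {a b a' b' : Matrix ι ι ℂ} (haa : a ∈ 𝔞) (hb : b ∈ cpl h 𝔞) (haa' : a' ∈ 𝔞)
    (hb' : b' ∈ cpl h 𝔞) (hab : a + b = a' + b') : a = a' ∧ b = b' := by
  have h4 : a - a' = b' - b := by
    rw [sub_eq_sub_iff_add_eq_add, hab, add_comm]
  have h5 : a - a' = 0 := cpl_disj (𝔞.sub_mem haa haa') (by
    rw [h4]; exact (cpl h 𝔞).sub_mem hb' hb)
  have h6 : b' - b = 0 := by rw [← h4, h5]
  exact ⟨sub_eq_zero.1 h5, (sub_eq_zero.1 h6).symm⟩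

/-- A subspace stable under the complement which contains a nonzero subspace stable under the
ideal is everything. -/
lemma burn (hM : Mdl h V) (ha : IsId h 𝔞) {Y W₀ : Submodule ℂ (ι → ℂ)} (hYV : Y ≤ V)
    (hY : ∀ b ∈ cpl h 𝔞, ∀ v ∈ Y, b *ᵥ v ∈ Y) (hW : W₀ ≤ Y) (hW' : ∀ a ∈ 𝔞, ∀ v ∈ W₀, a *ᵥ v ∈ W₀)
    (h0 : W₀ ≠ ⊥) : Y = V := by
  obtain ⟨Z, hZ⟩ : ∃ Z : Submodule ℂ (ι → ℂ), Z = sSup {W | W ≤ Y ∧ ∀ a ∈ 𝔞, ∀ v ∈ W,
      a *ᵥ v ∈ W} := ⟨_, rfl⟩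
  have hZY : Z ≤ Y := by rw [hZ]; exact sSup_le fun W hW => hW.1
  have hWZ : W₀ ≤ Z := by rw [hZ]; exact le_sSup ⟨hW, hW'⟩
  have hZa : ∀ a ∈ 𝔞, ∀ v ∈ Z, a *ᵥ v ∈ Z := by
    intro a haa
    have h1 : Z ≤ Z.comap (Matrix.mulVecLin a) := by
      nth_rewrite 1 [hZ]
      refine sSup_le fun W hW v hv => ?_
      have : W ≤ Z := by rw [hZ]; exact le_sSup hW
      exact this (hW.2 a haa v hv)
    exact fun v hv => h1 hv
  have hZb : ∀ b ∈ cpl h 𝔞, ∀ v ∈ Z, b *ᵥ v ∈ Z := by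
    intro b hb
    have h1 : Z ≤ Z.comap (Matrix.mulVecLin b) := by
      nth_rewrite 1 [hZ]
      refine sSup_le fun W hW => ?_
      rw [← Submodule.map_le_iff_le_comap, hZ]
      refine le_sSup ⟨?_, ?_⟩
      · rw [Submodule.map_le_iff_le_comap]
        intro v hv
        exact hY b hb v (hW.1 hv)
      · rintro a haa _ ⟨v, hv, rfl⟩
        refine ⟨a *ᵥ v, hW.2 a haa v hv, ?_⟩
        change b *ᵥ (a *ᵥ v) = a *ᵥ (b *ᵥ v)
        rw [Matrix.mulVec_mulVec, Matrix.mulVec_mulVec, cpl_comm hM ha haa hb]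
    exact fun v hv => h1 hv
  have hZV : Z = V := by
    refine hM.irr Z (hZY.trans hYV) (fun z hz v hv => ?_) (fun h1 => h0 ?_)
    · obtain ⟨a, haa, b, hb, rfl⟩ := cpl_dec ha hz
      rw [Matrix.add_mulVec]
      exact Z.add_mem (hZa a haa v hv) (hZb b hb v hv)
    · rw [h1] at hWZ
      exact (Submodule.eq_bot_iff _).2 fun v hv => (Submodule.mem_bot ℂ).1 (hWZ hv)
  exact le_antisymm hYV (hZV ▸ hZY)

/-- An element acting on `V` as a scalar vanishes. -/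
lemma scal_zero (hM : Mdl h V) {z : Matrix ι ι ℂ} (hz : z ∈ h) {c : ℂ}
    (hc : ∀ v ∈ V, z *ᵥ v = c • v) : z = 0 := by
  refine hM.cen z hz fun w hw => ?_
  have h1 : br z w = 0 := hM.faith _ (hM.la.lie z hz w hw) fun v hv => by
    rw [br, Matrix.sub_mulVec, ← Matrix.mulVec_mulVec, ← Matrix.mulVec_mulVec,
      hc v hv, hc _ (hM.stab w hw v hv), Matrix.mulVec_smul, sub_self]
  exact sub_eq_zero.1 h1

/-- Nonzero Hermitian elements have two different eigenvalues on `V`. -/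
lemma two_eig (hM : Mdl h V) {z : Matrix ι ι ℂ} (hz : z ∈ h) (hH : zᴴ = z) (h0 : z ≠ 0) :
    ∃ (b b' : ℝ) (v v' : ι → ℂ), b ≠ b' ∧ v ∈ V ∧ v ≠ 0 ∧ v' ∈ V ∧ v' ≠ 0 ∧
      z *ᵥ v = (b : ℂ) • v ∧ z *ᵥ v' = (b' : ℂ) • v' := by
  by_contra hcon
  push Not at hcon
  -- an eigenvalue
  have hex : ∃ (b : ℝ) (v : ι → ℂ), v ∈ V ∧ v ≠ 0 ∧ z *ᵥ v = (b : ℂ) • v := by
    by_contra h1
    push Not at h1
    apply hM.ne
    rw [Submodule.eq_bot_iff]
    intro v hv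
    refine vec_ind hH (W := V) (fun v hv => hM.stab z hz v hv) (P := fun v => v = 0) rfl
      (fun v w hv hw => by rw [hv, hw, add_zero]) ?_ hv
    intro d v hv hd
    by_contra hv0
    exact h1 d v hv hv0 hd
  obtain ⟨b, v, hv, hv0, hb⟩ := hex
  refine h0 (scal_zero hM hz (c := (b : ℂ)) fun w hw => ?_)
  refine vec_ind hH (W := V) (fun v hv => hM.stab z hz v hv)
    (P := fun w => z *ᵥ w = (b : ℂ) • w) (by rw [Matrix.mulVec_zero, smul_zero])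
    (fun v w hv hw => by rw [Matrix.mulVec_add, hv, hw, smul_add]) ?_ hw
  intro d w hw hd
  by_cases hw0 : w = 0
  · rw [hw0, Matrix.mulVec_zero, smul_zero]
  by_cases hbd : b = d
  · rw [hd, hbd]
  · exact absurd hd (hcon b d v w hbd hv hv0 hw hw0 hb)

/-- **Elements with square one belong to one of the ideals.** -/
lemma level_one (hM : Mdl h V) (ha : IsId h 𝔞) {N : Matrix ι ι ℂ} (hN : N ∈ h) (hNH : Nᴴ = N)
    (hNN : ∀ v ∈ V, N *ᵥ (N *ᵥ v) = v) : N ∈ 𝔞 ∨ N ∈ cpl h 𝔞 := by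
  obtain ⟨c, hc, d, hd, hcd⟩ := cpl_dec ha hN
  obtain ⟨hcH, hdH⟩ := dec_herm hM ha hNH hc hd hcd
  have hcomm := cpl_comm hM ha hc hd
  by_cases hd0 : d = 0
  · left; rw [hcd, hd0, add_zero]; exact hc
  right
  obtain ⟨b, b', v, v', hbb, hv, hv0, hv', hv0', hb, hb'⟩ := two_eig hM hd.1 hdH hd0
  have key : ∀ (b : ℝ) (v : ι → ℂ), v ∈ V → v ≠ 0 → d *ᵥ v = (b : ℂ) • v → ∀ w ∈ V,
      c *ᵥ (c *ᵥ w) + (2 * (b : ℂ)) • (c *ᵥ w) + ((b : ℂ) * b) • w = w := by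
    intro b v hv hv0 hb
    let Y : Submodule ℂ (ι → ℂ) :=
      { carrier := {w | w ∈ V ∧ c *ᵥ (c *ᵥ w) + (2 * (b : ℂ)) • (c *ᵥ w) + ((b : ℂ) * b) • w = w}
        add_mem' := by
          rintro u w ⟨hu, hu'⟩ ⟨hw, hw'⟩
          refine ⟨V.add_mem hu hw, ?_⟩
          nth_rewrite 4 [← hu']
          nth_rewrite 4 [← hw']
          simp only [Matrix.mulVec_add, smul_add]
          abel
        zero_mem' := ⟨V.zero_mem, by simp⟩
        smul_mem' := by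
          rintro r w ⟨hw, hw'⟩
          refine ⟨V.smul_mem r hw, ?_⟩
          nth_rewrite 4 [← hw']
          simp only [Matrix.mulVec_smul, smul_add, smul_comm r] }
    let W₀ : Submodule ℂ (ι → ℂ) :=
      { carrier := {w | w ∈ V ∧ d *ᵥ w = (b : ℂ) • w}
        add_mem' := by
          rintro u w ⟨hu, hu'⟩ ⟨hw, hw'⟩
          exact ⟨V.add_mem hu hw, by rw [Matrix.mulVec_add, hu', hw', smul_add]⟩
        zero_mem' := ⟨V.zero_mem, by simp⟩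
        smul_mem' := by
          rintro r w ⟨hw, hw'⟩
          exact ⟨V.smul_mem r hw, by rw [Matrix.mulVec_smul, hw', smul_comm]⟩ }
    have hYV : Y = V := by
      refine burn hM ha (Y := Y) (W₀ := W₀) (fun w hw => hw.1) ?_ ?_ ?_ ?_
      · rintro u hu w ⟨hw, hw'⟩
        refine ⟨hM.stab u hu.1 w hw, ?_⟩
        have e1 : ∀ w : ι → ℂ, c *ᵥ (u *ᵥ w) = u *ᵥ (c *ᵥ w) := fun w => by
          rw [Matrix.mulVec_mulVec, Matrix.mulVec_mulVec, cpl_comm hM ha hc hu]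
        rw [e1, e1]
        nth_rewrite 4 [← hw']
        simp only [Matrix.mulVec_add, Matrix.mulVec_smul]
      · rintro w ⟨hw, hw'⟩
        refine ⟨hw, ?_⟩
        have e1 := hNN w hw
        have e2 : N *ᵥ w = c *ᵥ w + (b : ℂ) • w := by rw [hcd, Matrix.add_mulVec, hw']
        have e3 : d *ᵥ (c *ᵥ w) = (b : ℂ) • (c *ᵥ w) := by
          rw [Matrix.mulVec_mulVec, ← hcomm, ← Matrix.mulVec_mulVec, hw', Matrix.mulVec_smul]
        rw [e2, Matrix.mulVec_add, Matrix.mulVec_smul, e2, hcd, Matrix.add_mulVec, e3] at e1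
        nth_rewrite 4 [← e1]
        simp only [smul_add, smul_smul, two_mul, add_smul]
        abel
      · rintro a haa w ⟨hw, hw'⟩
        refine ⟨hM.stab a (ha.le haa) w hw, ?_⟩
        rw [Matrix.mulVec_mulVec, ← cpl_comm hM ha haa hd, ← Matrix.mulVec_mulVec, hw',
          Matrix.mulVec_smul]
      · intro h1
        have : v ∈ W₀ := ⟨hv, hb⟩
        rw [h1, Submodule.mem_bot] at this
        exact hv0 this
    intro w hw
    rw [← hYV] at hw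
    exact hw.2
  have hc0 : c = 0 := by
    refine scal_zero hM (ha.le hc) (c := -((b : ℂ) + b') / 2) fun w hw => ?_
    have e1 := key b v hv hv0 hb w hw
    have e2 := key b' v' hv' hv0' hb' w hw
    have e3 : (2 * ((b : ℂ) - b')) • (c *ᵥ w) = ((b' : ℂ) * b' - b * b) • w := by
      have e4 : c *ᵥ (c *ᵥ w) + (2 * (b : ℂ)) • (c *ᵥ w) + ((b : ℂ) * b) • w =
          c *ᵥ (c *ᵥ w) + (2 * (b' : ℂ)) • (c *ᵥ w) + ((b' : ℂ) * b') • w := by rw [e1, e2]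
      rw [add_assoc, add_assoc] at e4
      have e5 := add_left_cancel e4
      rw [mul_sub, sub_smul, sub_smul, sub_eq_sub_iff_add_eq_add, e5]
      abel
    have hne : (b : ℂ) - b' ≠ 0 := by
      rw [sub_ne_zero]
      intro h1
      exact hbb (by exact_mod_cast h1)
    have e6 : c *ᵥ w = (2 * ((b : ℂ) - b'))⁻¹ • ((2 * ((b : ℂ) - b')) • (c *ᵥ w)) := by
      rw [smul_smul, inv_mul_cancel₀ (mul_ne_zero two_ne_zero hne), one_smul]
    rw [e6, e3, smul_smul]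
    congr 1
    field_simp
    ring
  rw [hcd, hc0, zero_add]
  exact hd

/-- Simple ideals. -/
structure IsSim (h 𝔞 : Submodule ℂ (Matrix ι ι ℂ)) : Prop where
  id : IsId h 𝔞
  ne : 𝔞 ≠ ⊥
  sim : ∀ 𝔠, IsId h 𝔠 → 𝔠 ≤ 𝔞 → 𝔠 ≠ ⊥ → 𝔠 = 𝔞

/-- The ideal generated by an element. -/
def gen (h : Submodule ℂ (Matrix ι ι ℂ)) (N : Matrix ι ι ℂ) : Submodule ℂ (Matrix ι ι ℂ) :=
  sInf {𝔠 | IsId h 𝔠 ∧ N ∈ 𝔠}

lemma gen_mem (N : Matrix ι ι ℂ) : N ∈ gen h N := by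
  rw [gen, Submodule.mem_sInf]
  exact fun 𝔠 h𝔠 => h𝔠.2

lemma gen_le {N : Matrix ι ι ℂ} {𝔠 : Submodule ℂ (Matrix ι ι ℂ)} (hc : IsId h 𝔠) (hN : N ∈ 𝔠) :
    gen h N ≤ 𝔠 := sInf_le ⟨hc, hN⟩

lemma gen_id (hM : Mdl h V) {N : Matrix ι ι ℂ} (hN : N ∈ h) : IsId h (gen h N) where
  le := gen_le ⟨le_rfl, hM.la.lie⟩ hN
  lb z hz a ha := by
    rw [gen, Submodule.mem_sInf] at ha ⊢
    intro 𝔠 h𝔠
    exact h𝔠.1.lb z hz a (ha 𝔠 h𝔠)

/-- The ideal generated by an element with square one is simple. -/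
lemma gen_sim (hM : Mdl h V) {N : Matrix ι ι ℂ} (hN : N ∈ h) (hNH : Nᴴ = N)
    (hNN : ∀ v ∈ V, N *ᵥ (N *ᵥ v) = v) : IsSim h (gen h N) where
  id := gen_id hM hN
  ne := by
    intro h0
    have h1 := gen_mem (h := h) N
    rw [h0, Submodule.mem_bot] at h1
    apply hM.ne
    rw [Submodule.eq_bot_iff]
    intro v hv
    rw [← hNN v hv, h1, Matrix.zero_mulVec]
  sim 𝔠 hc hle hne := by
    rcases level_one hM hc hN hNH hNN with h1 | h1
    · exact le_antisymm hle (gen_le hc h1)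
    · exfalso
      apply hne
      rw [Submodule.eq_bot_iff]
      intro z hz
      exact cpl_disj hz (gen_le (cpl_id hM hc) h1 (hle hz))

end Run7.h226.Wts
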