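import Pool.Agent.Run7.h226.Fml

/-!
# The form given by a divisor
-/

set_option linter.unusedSectionVars false

open CategoryTheory AlgebraicGeometry TensorProduct

universe u

namespace Run7.h226.Geo

open Module Matrix
open Pool.Agent.H914 Pool.Agent.H914.VarClass Pool.Agent.H914.VarClass.Obj
  Pool.Agent.H914.WeilCohomology
open Pool.Agent.Y133.Half Pool.Agent.Y121.AH
open Pool.Agent.N996.BP Pool.Agent.N996.BP.Geo Pool.Agent.N996.FP Pool.Agent.N996.FP.Geo
open Run7.h226.Phs Run7.h226.Wts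

variable {k : Type u} [Field k] {𝒱 : VarClass k} {ops : CycleOps 𝒱} {T : HodgeTheory ops}
  {X : 𝒱.Obj} {ψ : LinearMap.BilinForm T.W.K (T.W.H X)}
  {ι : Type} [Fintype ι] [DecidableEq ι] {e : Basis ι T.W.K (T.W.H X)} {deg : ι → ℕ} {o : ι}
  {p : ι → Fin 2}

section Form

variable {W : WeilCohomology.{u, 0} ops} {D : X.Cycles}

/-- The class `θ^(g-1) + θ^g` of the divisor. -/
noncomputable def wc (W : WeilCohomology.{u, 0} ops) (X : 𝒱.Obj) (D : X.Cycles) : W.H X :=
  W.cl X D ^ (X.dim - 1) + W.cl X D ^ X.dim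

lemma pow_gr (hD : X.IsCyc 1 D) : ∀ n : ℕ, W.cl X D ^ n ∈ W.gr X (2 * n)
  | 0 => by rw [pow_zero]; exact W.one_mem X
  | n + 1 => by
    rw [pow_succ, show 2 * (n + 1) = 2 * n + 2 * 1 by ring]
    exact W.mul_mem (pow_gr hD n) (W.cl_mem hD)

lemma pow_PH (hD : X.IsCyc 1 D) (n : ℕ) : W.cl X D ^ n ∈ PH W X 0 :=
  PH.of' (by omega) (pow_gr hD n)

lemma wc_PH (hD : X.IsCyc 1 D) : wc W X D ∈ PH W X 0 :=
  Submodule.add_mem _ (pow_PH hD _) (pow_PH hD _)

lemma tr_top (hD : X.IsCyc 1 D) (hHL : HardLefschetz W X D) [Nontrivial (W.H X)] :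
    W.tr X (W.cl X D ^ X.dim) ≠ 0 := by
  intro h
  have h1 : W.cl X D ^ X.dim = 0 := by
    apply W.nondeg
    intro b
    refine gr_induction (W.isInternal X) (p := fun b => W.tr X (W.cl X D ^ X.dim * b) = 0) ?_ ?_ b
    · intro i b hb
      by_cases hi : i = 0
      · rw [hi, W.gr_zero, Submodule.mem_span_singleton] at hb
        obtain ⟨r, rfl⟩ := hb
        rw [mul_smul_comm, mul_one, map_smul, h, smul_zero]
      · exact W.tr_eq_zero (W.mul_mem (pow_gr hD _) hb) (by omega)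
    · intro a b ha hb
      rw [mul_add, map_add, ha, hb, add_zero]
  have h2 := hl_inj hHL (Nat.zero_le _) (W.one_mem X) (by rw [Nat.sub_zero, mul_one]; exact h1)
  exact one_ne_zero h2

/-- The form is not degenerate in degree one. -/
lemma one_nondeg (hD : X.IsCyc 1 D) (hHL : HardLefschetz W X D) (hg : 1 ≤ X.dim) {x : W.H X}
    (hx : x ∈ W.gr X 1) (h : ∀ y ∈ W.gr X 1, W.tr X (y * (W.cl X D ^ (X.dim - 1) * x)) = 0) :
    x = 0 := by
  refine hl_inj hHL hg hx ?_
  apply W.nondeg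
  intro b
  refine gr_induction (W.isInternal X) (p := fun b =>
    W.tr X (W.cl X D ^ (X.dim - 1) * x * b) = 0) ?_ ?_ b
  · intro i b hb
    have h1 := W.mul_mem (pow_gr hD (X.dim - 1)) hx
    by_cases hi : i = 1
    · subst hi
      rw [W.comm h1 hb, map_smul, h b hb, smul_zero]
    · exact W.tr_eq_zero (W.mul_mem h1 hb) (by omega)
  · intro a b ha hb
    rw [mul_add, map_add, ha, hb, add_zero]

end Form

variable {D : X.Cycles} {V : Matrix (Lt deg o) (Lt deg o) ℚ}

/-- The matrix of the form is invertible. -/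
lemma V_inv (hD : X.IsCyc 1 D) (hHL : HardLefschetz T.W X D) (hg : 1 ≤ X.dim)
    (hdeg : ∀ j, e j ∈ T.W.gr X (deg j)) (ho : e o = 1)
    (hV : ∀ i j, ((V i j : ℚ) : T.W.K) = T.W.tr X (e i.1 * e j.1 * wc T.W X D)) :
    ∃ Vi : Matrix (Lt deg o) (Lt deg o) ℚ, V * Vi = 1 := by
  have hnt : Nontrivial (T.W.H X) := ⟨⟨e o, 0, e.ne_zero o⟩⟩
  have key : ∀ v : Lt deg o → ℚ, V *ᵥ v = 0 → v = 0 := by
    intro v hv
    set x : T.W.H X := ∑ j, ((v j : ℚ) : T.W.K) • e j.1 with hx
    have h1 : ∀ i : Lt deg o, T.W.tr X (e i.1 * x * wc T.W X D) = 0 := by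
      intro i
      have h2 := congrArg (fun q : ℚ => (q : T.W.K)) (congrFun hv i)
      simp only [Matrix.mulVec, dotProduct, Pi.zero_apply, Rat.cast_sum, Rat.cast_mul,
        Rat.cast_zero] at h2
      rw [hx, Finset.mul_sum, Finset.sum_mul, map_sum, ← h2]
      refine Finset.sum_congr rfl fun j _ => ?_
      rw [hV, mul_smul_comm, smul_mul_assoc, map_smul, smul_eq_mul, mul_comm]
    let jo : Lt deg o := ⟨o, Or.inl rfl⟩
    set x1 : T.W.H X := ∑ j ∈ Finset.univ.erase jo, ((v j : ℚ) : T.W.K) • e j.1 with hx1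
    have hxx : x = ((v jo : ℚ) : T.W.K) • (1 : T.W.H X) + x1 := by
      rw [hx, hx1, ← Finset.add_sum_erase _ _ (Finset.mem_univ jo), ho]
    have hx1g : x1 ∈ T.W.gr X 1 := by
      refine Submodule.sum_mem _ fun j hj => Submodule.smul_mem _ _ ?_
      have h2 := hdeg j.1
      rcases j.2 with h3 | h3
      · exact absurd (Subtype.ext h3) (Finset.ne_of_mem_erase hj)
      · rwa [h3] at h2
    have hv0 : v jo = 0 := by
      have h2 := h1 jo
      rw [ho, one_mul, hxx, add_mul, map_add, smul_mul_assoc, one_mul, map_smul, wc, map_add,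
        T.W.tr_eq_zero (pow_gr hD (X.dim - 1)) (by omega), zero_add, mul_add, map_add,
        T.W.tr_eq_zero (T.W.mul_mem hx1g (pow_gr hD (X.dim - 1))) (by omega),
        T.W.tr_eq_zero (T.W.mul_mem hx1g (pow_gr hD X.dim)) (by omega), add_zero, add_zero,
        smul_eq_mul] at h2
      have h3 := (mul_eq_zero.1 h2).resolve_right (tr_top hD hHL)
      exact_mod_cast h3
    have hx0 : x1 = 0 := by
      refine one_nondeg hD hHL hg hx1g fun y hy => ?_
      have h2 : ∀ i : Lt deg o, deg i.1 = 1 →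
          T.W.tr X (e i.1 * (T.W.cl X D ^ (X.dim - 1) * x1)) = 0 := by
        intro i hi
        have h3 := h1 i
        have h4 : e i.1 ∈ T.W.gr X 1 := by have h5 := hdeg i.1; rwa [hi] at h5
        rw [hxx, hv0, Rat.cast_zero, zero_smul, zero_add, wc, mul_add, map_add,
          T.W.tr_eq_zero (T.W.mul_mem (T.W.mul_mem h4 hx1g) (pow_gr hD X.dim)) (by omega),
          add_zero, mul_assoc, ← (PH.even_comm (pow_PH hD (X.dim - 1)) x1)] at h3
        exact h3
      rw [← e.sum_repr y, Finset.sum_mul, map_sum]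
      refine Finset.sum_eq_zero fun i _ => ?_
      by_cases hi : deg i = 1
      · rw [smul_mul_assoc, map_smul, h2 ⟨i, Or.inr hi⟩ hi, smul_zero]
      · rw [repr_gr (T.W.isInternal X) hdeg hy hi, zero_smul, zero_mul, map_zero]
    have hx00 : x = 0 := by rw [hxx, hv0, hx0, Rat.cast_zero, zero_smul, add_zero]
    funext j
    have h2 : e.repr x j.1 = ((v j : ℚ) : T.W.K) := by
      rw [hx, map_sum, Finsupp.coe_finsetSum, Finset.sum_apply, Finset.sum_eq_single j]
      · rw [map_smul, Basis.repr_self, Finsupp.smul_apply, Finsupp.single_eq_same, smul_eq_mul,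
          mul_one]
      · intro l _ hl
        rw [map_smul, Basis.repr_self, Finsupp.smul_apply,
          Finsupp.single_eq_of_ne (fun h => hl (Subtype.ext h).symm), smul_zero]
      · intro h; exact absurd (Finset.mem_univ _) h
    rw [hx00, map_zero, Finsupp.coe_zero, Pi.zero_apply] at h2
    rw [Pi.zero_apply]
    exact_mod_cast h2.symm
  have h1 : Function.Injective V.mulVec := by
    intro a b hab
    have h2 := key (a - b) (by rw [Matrix.mulVec_sub, sub_eq_zero]; exact hab)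
    exact sub_eq_zero.1 h2
  have h2 : IsUnit V := Matrix.mulVec_injective_iff_isUnit.1 h1
  exact ⟨V⁻¹, Matrix.mul_nonsing_inv V ((Matrix.isUnit_iff_isUnit_det V).1 h2)⟩

variable {H : HData (Lt deg o)}

lemma lop_letter (hψ : IsPHS (tauT T) (Fx T X) ψ X.dim)
    (hl : ∀ t : ℂ, t ≠ 0 → ∀ v : Lt deg o → ℂ,
      mG hψ.int e (fun k => t ^ k) *ᵥ ext v = ext (H.l t *ᵥ v)) {t : ℂ} (ht : t ≠ 0)
    (i : Lt deg o) : lop T t X (em T.W ℂ (e i.1)) =
      ∑ a : Lt deg o, cc T (H.l t a i) • em T.W ℂ (e a.1) := by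
  have h1 : dG hψ.int (fun k => t ^ k) ((1 : ℂ) ⊗ₜ[T.W.K] e i.1) =
      ∑ a : Lt deg o, H.l t a i • ((1 : ℂ) ⊗ₜ[T.W.K] e a.1) := by
    apply crd_inj e
    rw [crd_dG, crd_ext_single, hl t ht, Matrix.mulVec_single_one]
    rw [← ecr_apply, map_sum]
    funext j
    rw [Finset.sum_apply]
    by_cases hj : j = o ∨ deg j = 1
    · rw [ext, dif_pos hj, Finset.sum_eq_single ⟨j, hj⟩]
      · rw [map_smul, Pi.smul_apply, ecr_apply, crd_tm, if_pos rfl, smul_eq_mul, mul_one]
        rfl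
      · intro a _ ha
        rw [map_smul, Pi.smul_apply, ecr_apply, crd_tm, if_neg fun h => ha (Subtype.ext h),
          smul_zero]
      · intro h; exact absurd (Finset.mem_univ _) h
    · rw [ext_out _ hj]
      symm
      refine Finset.sum_eq_zero fun a _ => ?_
      rw [map_smul, Pi.smul_apply, ecr_apply, crd_tm, if_neg, smul_zero]
      rintro rfl
      exact hj a.2
  exact h1

/-- The form is invariant. -/
lemma V_hodge (hψ : IsPHS (tauT T) (Fx T X) ψ X.dim) (hD : X.IsCyc 1 D)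
    (hl : ∀ t : ℂ, t ≠ 0 → ∀ v : Lt deg o → ℂ,
      mG hψ.int e (fun k => t ^ k) *ᵥ ext v = ext (H.l t *ᵥ v))
    (hV : ∀ i j, ((V i j : ℚ) : T.W.K) = T.W.tr X (e i.1 * e j.1 * wc T.W X D)) {t : ℂ}
    (ht : t ≠ 0) : (H.l t)ᵀ * cQ V * H.l t = cQ V := by
  have hw : lop T t X (em T.W ℂ (wc T.W X D)) = em T.W ℂ (wc T.W X D) := by
    rw [wc, em_add, map_add]
    have h1 := (IsHodge.cl (T := T) hD).pow (X.dim - 1)
    have h2 := (IsHodge.cl (T := T) hD).pow X.dim
    rw [lop_hodge h1, lop_hodge h2]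
  have hval : ∀ a b : Lt deg o, (CW T).tr X (em T.W ℂ (e a.1) * em T.W ℂ (e b.1) *
      em T.W ℂ (wc T.W X D)) = cc T (cQ V a b) := by
    intro a b
    rw [← em_mul, ← em_mul, em_tr, ← hV, ex_rat]
    rfl
  ext i j
  have h1 : (CW T).tr X (lop T t X (em T.W ℂ (e i.1) * em T.W ℂ (e j.1) *
      em T.W ℂ (wc T.W X D))) = cc T (cQ V i j) := by
    rw [tr_lop, hval]
  rw [lop_mul ht, lop_mul ht, hw, lop_letter hψ hl ht, lop_letter hψ hl ht, Finset.sum_mul_sum,
    Finset.sum_mul, map_sum] at h1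
  have h2 : ∀ a : Lt deg o, (CW T).tr X ((∑ b : Lt deg o, cc T (H.l t a i) • em T.W ℂ (e a.1) *
      cc T (H.l t b j) • em T.W ℂ (e b.1)) * em T.W ℂ (wc T.W X D)) =
      cc T (∑ b, H.l t a i * cQ V a b * H.l t b j) := by
    intro a
    rw [Finset.sum_mul, map_sum]
    have h3 : ∀ b : Lt deg o, (CW T).tr X (cc T (H.l t a i) • em T.W ℂ (e a.1) *
      cc T (H.l t b j) • em T.W ℂ (e b.1) * em T.W ℂ (wc T.W X D)) =
        cc T (H.l t a i * cQ V a b * H.l t b j) := by
      intro b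
      rw [smul_mul_smul_comm, smul_mul_assoc, map_smul, hval, smul_eq_mul]
      change (H.l t a i * H.l t b j) * cQ V a b = H.l t a i * cQ V a b * H.l t b j
      ring
    rw [Finset.sum_congr rfl fun b _ => h3 b]
    rfl
  rw [Finset.sum_congr rfl fun a _ => h2 a] at h1
  have h4 : ∑ a, ∑ b, H.l t a i * cQ V a b * H.l t b j = cQ V i j := h1
  rw [← h4, Matrix.mul_apply, Finset.sum_comm]
  refine Finset.sum_congr rfl fun b _ => ?_
  rw [Matrix.mul_apply, Finset.sum_mul]
  exact Finset.sum_congr rfl fun a _ => rfl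

end Run7.h226.Geo
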