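import Pool.Agent.Run7.h226.Kap

/-!
# The class of the contraction
-/

set_option linter.unusedSectionVars false

open CategoryTheory AlgebraicGeometry TensorProduct

universe u

namespace Run7.h226.Geo

open Module Matrix
open Pool.Agent.H914 Pool.Agent.H914.VarClass Pool.Agent.H914.VarClass.Obj
  Pool.Agent.H914.WeilCohomology
open Pool.Agent.Y133.Half Pool.Agent.Y121.AH
open Pool.Agent.N996.BP Pool.Agent.N996.BP.Geo Pool.Agent.N996.FP Pool.Agent.N996.FP.Geo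
open Run7.h226.Phs Run7.h226.Wts

section Mat

variable {κ : Type} [Fintype κ] [DecidableEq κ]

lemma sum_w2 {M : Type*} [AddCommMonoid M] (f : κ → κ → M) :
    ∑ v : Fin (1 + 1) → κ, f (v 0) (v 1) = ∑ a, ∑ b, f a b := by
  rw [← Fintype.sum_prod_type']
  exact Fintype.sum_equiv (finTwoArrowEquiv κ) _ _ fun v => rfl

/-- The array of a matrix. -/
def a2 (P : Matrix κ κ ℚ) : (Fin (1 + 1) → κ) → ℚ := fun w => P (w 0) (w 1)

lemma a2_BB {H : HData κ} {P : Matrix κ κ ℚ}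
    (hP : ∀ t : ℂ, t ≠ 0 → H.l t * cQ P * (H.l t)ᵀ = cQ P) : a2 P ∈ BB H (Fin (1 + 1)) := by
  intro t ht
  funext v
  have h1 := sum_two (H.l t)ᵀ (cQ P) v
  rw [Matrix.transpose_transpose, hP t ht] at h1
  refine Eq.trans ?_ h1
  rw [Matrix.mulVec, dotProduct]
  refine Finset.sum_congr rfl fun w _ => ?_
  rw [kp_apply, kp_apply]
  rfl

variable {H : HData κ} {V Vi : Matrix κ κ ℚ}

/-- The sign. -/
noncomputable def Sg (H : HData κ) : Matrix κ κ ℚ := diagonal fun i => if i = H.D.o then 1 else -1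

lemma cQ_Sg (hneg : H.l (-1) = (2 : ℂ) • cQ (E0 H) - 1) : cQ (Sg H) = H.l (-1) := by
  rw [hneg, cQ_E0]
  ext i j
  rw [cQ, Matrix.map_apply, Sg, Matrix.diagonal_apply, Matrix.sub_apply, Matrix.smul_apply,
    Matrix.diagonal_apply, Matrix.one_apply]
  split_ifs <;> norm_num

lemma cQ_tr (M : Matrix κ κ ℚ) : cQ Mᵀ = (cQ M)ᵀ := rfl

/-- The matrix of the contraction is a Hodge class. -/
lemma P_hodge (hneg : H.l (-1) = (2 : ℂ) • cQ (E0 H) - 1) (hVi : V * Vi = 1)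
    (hV : ∀ t : ℂ, t ≠ 0 → (H.l t)ᵀ * cQ V * H.l t = cQ V) {t : ℂ} (ht : t ≠ 0) :
    H.l t * cQ (Sg H * Vi * H.Qr * Viᵀ) * (H.l t)ᵀ = cQ (Sg H * Vi * H.Qr * Viᵀ) := by
  have hVi' : cQ V * cQ Vi = 1 := by rw [← cQ_mul, hVi, cQ_one]
  have hViV : cQ Vi * cQ V = 1 := mul_eq_one_comm.1 hVi'
  -- `l Vi = Vi (l⁻¹)ᵀ`
  have h1 : H.l t * cQ Vi = cQ Vi * (H.l t⁻¹)ᵀ := by
    have h2 := hV t⁻¹ (inv_ne_zero ht)
    have h3 : cQ V * H.l t = (H.l t⁻¹)ᵀ * cQ V := by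
      conv_lhs => rw [← h2]
      rw [Matrix.mul_assoc, H.l_inv' ht, Matrix.mul_one]
    calc H.l t * cQ Vi = cQ Vi * (cQ V * H.l t) * cQ Vi := by
          rw [← Matrix.mul_assoc (cQ Vi), hViV, Matrix.one_mul]
      _ = cQ Vi * ((H.l t⁻¹)ᵀ * cQ V) * cQ Vi := by rw [h3]
      _ = cQ Vi * (H.l t⁻¹)ᵀ := by
          rw [Matrix.mul_assoc, Matrix.mul_assoc, hVi', Matrix.mul_one]
  have h2 : (cQ Vi)ᵀ * (H.l t)ᵀ = H.l t⁻¹ * (cQ Vi)ᵀ := by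
    rw [← Matrix.transpose_mul, h1, Matrix.transpose_mul, Matrix.transpose_transpose]
  have h3 : H.l t * cQ (Sg H) = cQ (Sg H) * H.l t := by
    rw [cQ_Sg hneg, HData.l_mul, HData.l_mul, mul_comm]
  have h4 : (H.l t⁻¹)ᵀ * cQ H.Qr * H.l t⁻¹ = cQ H.Qr := H.l_Q (inv_ne_zero ht)
  rw [cQ_mul, cQ_mul, cQ_mul, cQ_tr]
  calc H.l t * (cQ (Sg H) * cQ Vi * cQ H.Qr * (cQ Vi)ᵀ) * (H.l t)ᵀ
      = (H.l t * cQ (Sg H)) * cQ Vi * cQ H.Qr * ((cQ Vi)ᵀ * (H.l t)ᵀ) := by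
        simp only [Matrix.mul_assoc]
    _ = cQ (Sg H) * (H.l t * cQ Vi) * cQ H.Qr * (H.l t⁻¹ * (cQ Vi)ᵀ) := by
        rw [h3, h2]; simp only [Matrix.mul_assoc]
    _ = cQ (Sg H) * cQ Vi * ((H.l t⁻¹)ᵀ * cQ H.Qr * H.l t⁻¹) * (cQ Vi)ᵀ := by
        rw [h1]; simp only [Matrix.mul_assoc]
    _ = cQ (Sg H) * cQ Vi * cQ H.Qr * (cQ Vi)ᵀ := by rw [h4]

lemma Q_par (hneg : H.l (-1) = (2 : ℂ) • cQ (E0 H) - 1) :
    (Sg H)ᵀ * H.Qr * Sg H = H.Qr := by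
  apply AData.cQ_inj
  rw [cQ_mul, cQ_mul, cQ_tr, cQ_Sg hneg]
  exact H.l_Q (neg_ne_zero.2 one_ne_zero)

lemma Q_off (hneg : H.l (-1) = (2 : ℂ) • cQ (E0 H) - 1) {i : κ} (hi : i ≠ H.D.o) :
    H.Qr i H.D.o = 0 := by
  have h1 := congrFun (congrFun (Q_par hneg) i) H.D.o
  rw [Sg, Matrix.diagonal_transpose, Matrix.mul_diagonal, Matrix.diagonal_mul, if_pos rfl,
    if_neg hi] at h1
  linarith

/-- **The identity of the contraction.** -/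
lemma contr_id (hneg : H.l (-1) = (2 : ℂ) • cQ (E0 H) - 1) (hVi : V * Vi = 1) {p : κ → ℕ}
    (hp0 : p H.D.o = 0) (hp1 : ∀ i, i ≠ H.D.o → p i = 1) (hVp : ∀ i j, p i ≠ p j → V i j = 0)
    (i j : κ) : ∑ a, ∑ b, (Sg H * Vi * H.Qr * Viᵀ) a b * ((-1) ^ (p j * p a) * V i a * V j b) =
      H.Qr i j := by
  have hVS : V * Sg H = Sg H * V := by
    ext i j
    rw [Sg, Matrix.mul_diagonal, Matrix.diagonal_mul]
    by_cases hi : i = H.D.o
    · by_cases hj : j = H.D.o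
      · rw [if_pos hi, if_pos hj, mul_one, one_mul]
      · rw [hVp i j (by rw [hi, hp0, hp1 j hj]; norm_num), zero_mul, mul_zero]
    · by_cases hj : j = H.D.o
      · rw [hVp i j (by rw [hj, hp0, hp1 i hi]; norm_num), zero_mul, mul_zero]
      · rw [if_neg hi, if_neg hj, mul_comm]
  have h1 : ∀ a b, (Sg H * Vi * H.Qr * Viᵀ) a b * ((-1) ^ (p j * p a) * V i a * V j b) =
      (-1) ^ (p j * p i) * (V i a * (Sg H * Vi * H.Qr * Viᵀ) a b * Vᵀ b j) := by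
    intro a b
    rw [Matrix.transpose_apply]
    by_cases h : p i = p a
    · rw [h]; ring
    · rw [hVp i a h]; ring
  have h2 : ∑ a, ∑ b, V i a * (Sg H * Vi * H.Qr * Viᵀ) a b * Vᵀ b j =
      (V * (Sg H * Vi * H.Qr * Viᵀ) * Vᵀ) i j := by
    rw [Matrix.mul_apply, Finset.sum_comm]
    refine Finset.sum_congr rfl fun b _ => ?_
    rw [Matrix.mul_apply, Finset.sum_mul]
  have h3 : V * (Sg H * Vi * H.Qr * Viᵀ) * Vᵀ = Sg H * H.Qr := by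
    have h4 : Viᵀ * Vᵀ = 1 := by rw [← Matrix.transpose_mul, hVi, Matrix.transpose_one]
    calc V * (Sg H * Vi * H.Qr * Viᵀ) * Vᵀ = (V * Sg H) * Vi * H.Qr * (Viᵀ * Vᵀ) := by
          simp only [Matrix.mul_assoc]
      _ = Sg H * (V * Vi) * H.Qr := by rw [hVS, h4, Matrix.mul_one]; simp only [Matrix.mul_assoc]
      _ = Sg H * H.Qr := by rw [hVi, Matrix.mul_one]
  simp only [h1, ← Finset.mul_sum]
  rw [h2, h3, Sg, Matrix.diagonal_mul]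
  by_cases hi : i = H.D.o
  · rw [if_pos hi, hi, hp0, mul_zero, pow_zero, one_mul, one_mul]
  · by_cases hj : j = H.D.o
    · rw [hj, Q_off hneg hi]
      ring
    · rw [if_neg hi, hp1 i hi, hp1 j hj]
      ring

end Mat

end Run7.h226.Geo
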