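import Pool.Agent.Run7.h226.Spn

/-!
# The codimension three theorem for families
-/

set_option linter.unusedSectionVars false

open CategoryTheory AlgebraicGeometry TensorProduct

universe u

namespace Run7.h226.Geo

open Module Matrix
open Pool.Agent.H914 Pool.Agent.H914.VarClass Pool.Agent.H914.VarClass.Obj
  Pool.Agent.H914.WeilCohomology
open Pool.Agent.Y133.Half Pool.Agent.Y121.AH
open Pool.Agent.N996.BP Pool.Agent.N996.BP.Geo Pool.Agent.N996.FP Pool.Agent.N996.FP.Geo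
open Run7.h226.Phs Run7.h226.Wts

variable {k : Type u} [Field k] {𝒱 : VarClass k} {ops : CycleOps 𝒱} {T : HodgeTheory ops}
  {X : 𝒱.Obj} {ψ : LinearMap.BilinForm T.W.K (T.W.H X)}
  {ι : Type} [Fintype ι] [DecidableEq ι] {e : Basis ι T.W.K (T.W.H X)} {deg : ι → ℕ} {o : ι}

lemma sum_xA' {R M : Type*} [Semiring R] [AddCommMonoid M] [Module R M] {κ : Type} [Fintype κ]
    [DecidableEq κ] (f : (κ → ι) → M) (v : (κ → Lt deg o) → R) :
    ∑ w, xA v w • f w = ∑ w : κ → Lt deg o, v w • f (fun k => (w k).1) := by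
  classical
  symm
  refine Finset.sum_of_injOn (fun (w : κ → Lt deg o) => fun k => (w k).1) ?_ ?_ ?_ ?_
  · intro w _ w' _ h
    funext k
    exact Subtype.ext (congrFun h k)
  · intro w _
    exact Finset.mem_coe.2 (Finset.mem_univ _)
  · intro w _ hw
    rw [xA_out, zero_smul]
    intro h
    exact hw ⟨fun k => ⟨w k, h k⟩, Finset.mem_coe.2 (Finset.mem_univ _), rfl⟩
  · intro w _
    rw [xA_in]

section Lift

variable {n m : ℕ} {g : Fin (m + 1) → Fin (n + 1)}
  {L : Matrix (Fin (n + 1) → ι) (Fin (m + 1) → Lt deg o) ℚ}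

/-- The map given by the matrix. -/
lemma map_L (hL : ∀ j w, ((L j w : ℚ) : T.W.K) =
      (wb e n).repr (T.W.map (dl X g) (wb e m fun k => (w k).1)) j)
    (w : Fin (m + 1) → Lt deg o) : T.W.map (dl X g) (wb e m fun k => (w k).1) =
      ∑ j, ((L j w : ℚ) : T.W.K) • wb e n j := by
  conv_lhs => rw [← (wb e n).sum_repr (T.W.map (dl X g) (wb e m fun k => (w k).1))]
  exact Finset.sum_congr rfl fun j _ => by rw [hL]

lemma clw_L (hL : ∀ j w, ((L j w : ℚ) : T.W.K) =
      (wb e n).repr (T.W.map (dl X g) (wb e m fun k => (w k).1)) j)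
    (a : (Fin (m + 1) → Lt deg o) → ℚ) :
    T.W.map (dl X g) (clw e m (xA a)) = clw e n (L *ᵥ a) := by
  have h1 : clw e m (xA a) = ∑ w : Fin (m + 1) → Lt deg o, ((a w : ℚ) : T.W.K) •
      wb e m (fun k => (w k).1) := by
    rw [clw, ← sum_xA' (fun w => wb e m w) (fun w => ((a w : ℚ) : T.W.K))]
    refine Finset.sum_congr rfl fun w _ => ?_
    congr 1
    by_cases h : ∀ k, w k = o ∨ deg (w k) = 1
    · rw [xA, xA, dif_pos h, dif_pos h]
    · rw [xA_out _ h, xA_out _ h, Rat.cast_zero]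
  rw [h1, map_sum, clw]
  simp only [map_smul, map_L hL, Finset.smul_sum, smul_smul]
  rw [Finset.sum_comm]
  refine Finset.sum_congr rfl fun j _ => ?_
  rw [← Finset.sum_smul]
  congr 1
  rw [Matrix.mulVec, dotProduct, Rat.cast_sum]
  refine Finset.sum_congr rfl fun w _ => ?_
  rw [Rat.cast_mul, mul_comm]

lemma emb_L (hL : ∀ j w, ((L j w : ℚ) : T.W.K) =
      (wb e n).repr (T.W.map (dl X g) (wb e m fun k => (w k).1)) j)
    (z : (Fin (m + 1) → Lt deg o) → ℂ) :
    (CW T).map (dl X g) (emb e m (xA z)) = emb e n (cQ L *ᵥ z) := by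
  have h1 : emb e m (xA z) = ∑ w : Fin (m + 1) → Lt deg o, cc T (z w) •
      em T.W ℂ (wb e m (fun k => (w k).1)) := by
    exact sum_xA' (R := (CW T).K) (fun w => em T.W ℂ (wb e m w)) z
  have h2 : ∀ w : Fin (m + 1) → Lt deg o, (CW T).map (dl X g) (cc T (z w) •
      em T.W ℂ (wb e m (fun k => (w k).1))) =
      ∑ j, cc T (cQ L j w * z w) • em T.W ℂ (wb e n j) := by
    intro w
    rw [map_smul, em_map, map_L hL]
    have h3 : em T.W ℂ (∑ j, ((L j w : ℚ) : T.W.K) • wb e n j) =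
        ∑ j, cc T (cQ L j w) • em T.W ℂ (wb e n j) := by
      have h4 : ∀ s : Finset (Fin (n + 1) → ι), em T.W ℂ (∑ j ∈ s, ((L j w : ℚ) : T.W.K) •
          wb e n j) = ∑ j ∈ s, cc T (cQ L j w) • em T.W ℂ (wb e n j) := by
        intro s
        induction s using Finset.induction_on with
        | empty => rw [Finset.sum_empty, Finset.sum_empty, em_zero]
        | insert a s ha ih =>
          rw [Finset.sum_insert ha, Finset.sum_insert ha, em_add, ih, em_smul, ex_rat]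
          rfl
      exact h4 _
    rw [h3, Finset.smul_sum]
    refine Finset.sum_congr rfl fun j _ => ?_
    rw [smul_smul, mul_comm]
    rfl
  rw [h1, map_sum, Finset.sum_congr rfl fun w _ => h2 w, Finset.sum_comm]
  refine Finset.sum_congr rfl fun j _ => ?_
  rw [← Finset.sum_smul]
  rfl

/-- The map given by the matrix is equivariant. -/
lemma L_eq {H : HData (Lt deg o)} {HF : HData ι} (hψ : IsPHS (tauT T) (Fx T X) ψ X.dim)
    (hHF : ∀ t : ℂ, t ≠ 0 → HF.l t = mG hψ.int e (fun k => t ^ k))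
    (hl : ∀ t : ℂ, t ≠ 0 → ∀ v : Lt deg o → ℂ,
      mG hψ.int e (fun k => t ^ k) *ᵥ ext v = ext (H.l t *ᵥ v))
    (hL : ∀ j w, ((L j w : ℚ) : T.W.K) =
      (wb e n).repr (T.W.map (dl X g) (wb e m fun k => (w k).1)) j) {t : ℂ} (ht : t ≠ 0) :
    cQ L * kp (Fin (m + 1)) (H.l t) = kp (Fin (n + 1)) (HF.l t) * cQ L := by
  have key : ∀ z : (Fin (m + 1) → Lt deg o) → ℂ,
      cQ L *ᵥ (kp (Fin (m + 1)) (H.l t) *ᵥ z) = kp (Fin (n + 1)) (HF.l t) *ᵥ (cQ L *ᵥ z) := by
    intro z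
    apply emb_inj e n
    rw [← lop_emb (hF := hψ.int) e hHF ht, ← emb_L hL, ← emb_L hL, lop_map,
      lop_emb (hF := hψ.int) e hHF ht]
    congr 2
    rw [hHF t ht, kp_xA (hl t ht)]
  ext j w
  have h1 := congrFun (key (Pi.single w 1)) j
  rw [Matrix.mulVec_mulVec, Matrix.mulVec_mulVec, Matrix.mulVec_single_one,
    Matrix.mulVec_single_one] at h1
  exact h1

end Lift

/-- **The theorem for families.** -/
theorem mainN (hψ : IsPHS (tauT T) (Fx T X) ψ X.dim)
    (hgen : Algebra.adjoin T.W.K (T.W.gr X 1 : Set (T.W.H X)) = ⊤)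
    (hb : finrank T.W.K (T.W.gr X 1) = 2 * X.dim) (hg : 1 ≤ X.dim)
    (hsc : ∀ f, End1 T X f → ∃ r : T.W.K, ∀ c ∈ T.W.gr X 1, f c = r • c) (S : CSys T.W X)
    (hle : ∀ n, S.C n ≤ (hodgePred T).sp (pw X n)) {m N : ℕ} (hm : 2 ≤ m) (hN : N + 1 = 2 * m)
    (hexc : m = 2 → ¬ Exc (2 * X.dim))
    (h : ∀ j ≤ m, ∀ c, IsHodge T (pw X N) j c → c ∈ S.C N) (n : ℕ) :
    (hodgePred T).sp (pw X n) ≤ S.C n := by
  classical
  have hnt : Nontrivial (T.W.H X) := by
    by_contra hn
    rw [not_nontrivial_iff_subsingleton] at hn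
    have h1 : finrank T.W.K (T.W.gr X 1) = 0 := finrank_zero_of_subsingleton
    omega
  obtain ⟨ι, hι, hιd, e, o, deg, ho, hdeg⟩ := exists_ubasis T.W X
  have hd : deg o = 0 := by
    by_contra hd
    have h1 := hdeg o
    rw [ho] at h1
    have h2 : Pool.Agent.H914.proj (T.W.isInternal X) 0 (1 : T.W.H X) = 1 :=
      Pool.Agent.H914.proj_same _ (T.W.one_mem X)
    rw [Pool.Agent.H914.proj_ne _ h1 hd] at h2
    exact one_ne_zero h2.symm
  let p : ι → Fin 2 := fun j => ⟨deg j % 2, Nat.mod_lt _ two_pos⟩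
  have hp : ∀ j, (p j : ℕ) = deg j % 2 := fun j => rfl
  have hpH : ∀ j, e j ∈ PH T.W X (p j : ℕ) := fun j =>
    PH.of' (by rw [hp]; omega) (hdeg j)
  have hne : ∃ j, deg j = 1 := by
    by_contra hn
    push Not at hn
    have h1 := finrank_gr (T.W.isInternal X) hdeg 1
    rw [hb, Fintype.card_eq_zero_iff.2 ⟨fun j => hn j.1 j.2⟩] at h1
    omega
  obtain ⟨H, hHo, hw, hl⟩ := exists_h0 hψ hdeg ho hd
  have hsml : Sml H := sml_of hψ hdeg ho hd hHo hw hl hne hsc
  have h5 : ∀ j ≤ (N + 1) / 2, ∀ c, IsHodge T (pw X N) j c → c ∈ S.C N := by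
    intro j hj
    exact h j (by omega)
  obtain ⟨q, hq, hqQ⟩ := exists_qq hψ hdeg hp ho hd hHo hl (by omega) hg h5
  have hqE : q ∈ PH T.W (X.prod X) 0 := (hodgePred T).sys.even (hle 1 hq)
  have hfam := rfam hψ hdeg hpH ho hl hle hq hqE hqQ
  -- the number of letters
  have hcard : Fintype.card (Lt deg o) = 2 * X.dim + 1 := by
    have h1 := finrank_gr (T.W.isInternal X) hdeg 1
    rw [hb] at h1
    have h2 : Fintype.card (Lt deg o) = Fintype.card {j : ι // j = o} +
        Fintype.card {j : ι // deg j = 1} := by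
      refine Fintype.card_subtype_or_disjoint _ _ ?_
      rw [Pi.disjoint_iff]
      intro j
      rw [Prop.disjoint_iff]
      rintro ⟨rfl, h3⟩
      omega
    rw [h2, h1, Fintype.card_subtype_eq, add_comm]
  have hall := coreN hsml hfam hm (fun h2 d hd' => by
    have h3 : d = 2 * X.dim := by omega
    rw [h3]; exact hexc h2) fun n hn => small hψ hdeg hp ho hd hHo hl h5 (by omega)
  -- lifting
  obtain ⟨HF, -, -, hHF⟩ := hψ.exists_hdata e o (by rw [ho]; exact one_F)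
  have hsp := span_Gn hgen hdeg ho n
  obtain ⟨s', hs', hs⟩ := (Submodule.fg_span_iff_fg_span_finset_subset (Gn e deg o n)).1
    (by rw [hsp]; exact Module.Finite.fg_top)
  rw [hsp] at hs
  choose mm g w hmg using fun x : {x // x ∈ s'} => hs' x.2
  choose L hL using fun (x : {x // x ∈ s'}) (j : Fin (n + 1) → ι)
    (w : Fin (mm x + 1) → Lt deg o) =>
      T.rat ((wb e n).repr (T.W.map (dl X (g x)) (wb e (mm x) fun k => (w k).1)) j)
  have hdual : ∀ y : (Fin (n + 1) → ι) → ℚ, (∀ x, (Matrix.of (L x))ᵀ *ᵥ y = 0) → y = 0 := by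
    intro y hy
    let φ : T.W.H (pw X n) →ₗ[T.W.K] T.W.K := (wb e n).constr T.W.K fun j => ((y j : ℚ) : T.W.K)
    have hφ : ∀ x ∈ s', φ x = 0 := by
      intro x hx
      have h1 := hmg ⟨x, hx⟩
      have h2 : x = T.W.map (dl X (g ⟨x, hx⟩)) (wb e (mm ⟨x, hx⟩) fun k => (w ⟨x, hx⟩ k).1) :=
        h1.symm
      rw [h2, map_L (L := (L ⟨x, hx⟩ : Matrix _ _ ℚ)) (hL ⟨x, hx⟩), map_sum]
      have h3 := congrFun (hy ⟨x, hx⟩) (w ⟨x, hx⟩)
      rw [Matrix.mulVec, dotProduct, Pi.zero_apply] at h3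
      have h4 := congrArg (fun q : ℚ => (q : T.W.K)) h3
      simp only [Rat.cast_sum, Rat.cast_mul, Rat.cast_zero] at h4
      rw [← h4]
      refine Finset.sum_congr rfl fun j _ => ?_
      rw [map_smul, Basis.constr_basis, smul_eq_mul]
      rfl
    have h1 : φ = 0 := by
      have h2 : (⊤ : Submodule T.W.K (T.W.H (pw X n))) ≤ LinearMap.ker φ := by
        rw [hs, Submodule.span_le]
        intro x hx
        exact hφ x hx
      ext x
      exact LinearMap.mem_ker.1 (h2 (Submodule.mem_top (x := x)))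
    funext j
    have h2 : φ (wb e n j) = ((y j : ℚ) : T.W.K) := Basis.constr_basis _ _ _ _
    rw [h1, LinearMap.zero_apply] at h2
    rw [Pi.zero_apply]
    exact_mod_cast h2.symm
  intro c hc
  have hinv : Inv T (pw X n) c := inv_iff.2 hc
  obtain ⟨c', rfl⟩ := cls_surj e n c
  have hc' := (inv_cls (hF := hψ.int) e hHF n c').1 hinv
  obtain ⟨a, ha, hsum⟩ := lift (H := H) (fun x => Matrix.of (L x))
    (fun t => kp (Fin (n + 1)) (HF.l t)) (fun t ht => kp_inv_mul (HF.l_inv' ht))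
    (fun t ht x => L_eq hψ hHF hl (hL x) ht) hdual c' (fun t ht => hc' t ht)
  have h1 : cls e n c' = ∑ x, T.W.map (dl X (g x)) (clw e (mm x) (xA (a x))) := by
    have h2 : cls e n c' = clw e n c' := rfl
    rw [h2, ← hsum, clw_sum]
    exact Finset.sum_congr rfl fun x _ => (clw_L (hL x) (a x)).symm
  rw [h1]
  exact Submodule.sum_mem _ fun x _ => S.map _ (isCd_dl _) (fam_clw (hall _ (ha x)))

end Run7.h226.Geo
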