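import Pool.Agent.Run7.h226.Phs
import Pool.Agent.Run7.h226.Hdt
import Pool.Agent.N996.FP.Geo2

/-!
# The Hodge structure spanned by the unit and the classes of degree one
-/

set_option linter.unusedSectionVars false

open CategoryTheory AlgebraicGeometry TensorProduct

universe u

namespace Run7.h226.Geo

open Module Matrix
open Pool.Agent.H914 Pool.Agent.H914.VarClass Pool.Agent.H914.VarClass.Obj
  Pool.Agent.H914.WeilCohomology
open Pool.Agent.Y133.Half Pool.Agent.Y121.AH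
open Pool.Agent.N996.BP Pool.Agent.N996.BP.Geo Pool.Agent.N996.FP Pool.Agent.N996.FP.Geo
open Run7.h226.Phs Run7.h226.Wts

/-- The letters: the unit and the classes of degree one. -/
abbrev Lt {ι : Type} (deg : ι → ℕ) (o : ι) : Type := {j : ι // j = o ∨ deg j = 1}

section Ext

variable {ι : Type} [Fintype ι] [DecidableEq ι] {deg : ι → ℕ} {o : ι} {R : Type*}

/-- The extension of a vector by zero. -/
def ext [Zero R] (v : Lt deg o → R) : ι → R :=
  fun i => if h : i = o ∨ deg i = 1 then v ⟨i, h⟩ else 0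

lemma ext_in [Zero R] (v : Lt deg o → R) (i : Lt deg o) : ext v i.1 = v i := by
  rw [ext, dif_pos i.2]

lemma ext_out [Zero R] (v : Lt deg o → R) {i : ι} (h : ¬ (i = o ∨ deg i = 1)) : ext v i = 0 := by
  rw [ext, dif_neg h]

lemma ext_inj [Zero R] {v w : Lt deg o → R} (h : ext v = ext w) : v = w := by
  funext i
  rw [← ext_in v, h, ext_in]

lemma exists_ext [Zero R] {u : ι → R} (h : ∀ i, ¬ (i = o ∨ deg i = 1) → u i = 0) :
    ∃ v : Lt deg o → R, u = ext v := by
  refine ⟨fun i => u i.1, ?_⟩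
  funext i
  by_cases hi : i = o ∨ deg i = 1
  · rw [ext, dif_pos hi]
  · rw [ext_out _ hi, h i hi]

lemma ext_smul [MonoidWithZero R] (c : R) (v : Lt deg o → R) : ext (c • v) = c • ext v := by
  funext i
  by_cases hi : i = o ∨ deg i = 1
  · rw [ext, dif_pos hi, Pi.smul_apply, Pi.smul_apply, ext, dif_pos hi]
  · rw [ext_out _ hi, Pi.smul_apply, ext_out _ hi, smul_zero]

/-- The extension of a matrix by zero. -/
def extM [Zero R] (x : Matrix (Lt deg o) (Lt deg o) R) : Matrix ι ι R :=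
  fun i j => if h : (i = o ∨ deg i = 1) ∧ (j = o ∨ deg j = 1) then x ⟨i, h.1⟩ ⟨j, h.2⟩ else 0

lemma extM_in [Zero R] (x : Matrix (Lt deg o) (Lt deg o) R) (i j : Lt deg o) :
    extM x i.1 j.1 = x i j := by
  rw [extM, dif_pos ⟨i.2, j.2⟩]

lemma extM_out [Zero R] (x : Matrix (Lt deg o) (Lt deg o) R) {i : ι} (j : ι)
    (h : ¬ (i = o ∨ deg i = 1)) : extM x i j = 0 := by
  rw [extM, dif_neg fun h' => h h'.1]

lemma sum_ext [Semiring R] (f : ι → R) (v : Lt deg o → R) :
    ∑ j, f j * ext v j = ∑ j : Lt deg o, f j.1 * v j := by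
  classical
  have h1 : ∑ j : Lt deg o, f j.1 * v j =
      ∑ j ∈ Finset.univ.filter (fun j => j = o ∨ deg j = 1), f j * ext v j := by
    rw [← Finset.sum_subtype_eq_sum_filter]
    refine Finset.sum_bij (fun j _ => (⟨j.1, j.2⟩ : Subtype (fun j => j = o ∨ deg j = 1)))
      (fun j _ => by simp) (fun a _ b _ h => by simpa using h)
      (fun b _ => ⟨⟨b.1, b.2⟩, Finset.mem_univ _, rfl⟩) (fun j _ => by rw [ext_in])
  rw [h1]
  symm
  refine Finset.sum_subset (Finset.filter_subset _ _) fun j _ hj => ?_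
  rw [Finset.mem_filter, not_and] at hj
  rw [ext_out _ (hj (Finset.mem_univ _)), mul_zero]

lemma extM_mul [Semiring R] (x : Matrix (Lt deg o) (Lt deg o) R) (v : Lt deg o → R) :
    extM x *ᵥ ext v = ext (x *ᵥ v) := by
  funext i
  rw [Matrix.mulVec, dotProduct, sum_ext]
  by_cases hi : i = o ∨ deg i = 1
  · rw [ext, dif_pos hi, Matrix.mulVec, dotProduct]
    refine Finset.sum_congr rfl fun j _ => ?_
    rw [extM, dif_pos ⟨hi, j.2⟩]
  · rw [ext_out _ hi]
    refine Finset.sum_eq_zero fun j _ => ?_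
    rw [extM_out x _ hi, zero_mul]

lemma cQ_extM (x : Matrix (Lt deg o) (Lt deg o) ℚ) : cQ (extM x) = extM (cQ x) := by
  ext i j
  rw [cQ, Matrix.map_apply, extM, extM]
  split_ifs with h
  · rw [cQ, Matrix.map_apply]
  · exact Rat.cast_zero

end Ext

variable {k : Type u} [Field k] {𝒱 : VarClass k} {ops : CycleOps 𝒱} {T : HodgeTheory ops}
  {X : 𝒱.Obj} {ψ : LinearMap.BilinForm T.W.K (T.W.H X)}
  {ι : Type} [Fintype ι] [DecidableEq ι] {e : Basis ι T.W.K (T.W.H X)} {deg : ι → ℕ} {o : ι}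

/-- The space spanned by the letters. -/
def Us (e : Basis ι T.W.K (T.W.H X)) (deg : ι → ℕ) (o : ι) : Submodule T.W.K (T.W.H X) :=
  Submodule.span T.W.K (Set.range fun j : Lt deg o => e j.1)

/-- The basis of the letters. -/
noncomputable def es (e : Basis ι T.W.K (T.W.H X)) (deg : ι → ℕ) (o : ι) :
    Basis (Lt deg o) T.W.K (Us e deg o) :=
  Basis.span (e.linearIndependent.comp (Subtype.val : Lt deg o → ι) Subtype.val_injective)

lemma es_apply (j : Lt deg o) : (es e deg o j : T.W.H X) = e j.1 := by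
  exact congrArg Subtype.val (Basis.span_apply
    (e.linearIndependent.comp (Subtype.val : Lt deg o → ι) Subtype.val_injective) j)

lemma crd_tm (i j : ι) : crd e ((1 : ℂ) ⊗ₜ[T.W.K] e i) j = if i = j then 1 else 0 := by
  rw [crd_tmul, Basis.repr_self, Finsupp.single_apply, one_mul]
  split_ifs
  · exact map_one _
  · exact map_zero _

lemma mem_Us {x : ℂ ⊗[T.W.K] T.W.H X} : x ∈ (Us e deg o).baseChange ℂ ↔
    ∀ j, ¬ (j = o ∨ deg j = 1) → crd e x j = 0 := by
  constructor
  · intro hx j hj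
    rw [Us, Submodule.baseChange_span] at hx
    induction hx using Submodule.span_induction with
    | mem x hx =>
      obtain ⟨_, ⟨i, rfl⟩, rfl⟩ := hx
      change crd e ((1 : ℂ) ⊗ₜ[T.W.K] e i.1) j = 0
      rw [crd_tm, if_neg]
      rintro rfl
      exact hj i.2
    | zero => rw [crd_zero]; rfl
    | add x y _ _ hx hy => rw [crd_add, Pi.add_apply, hx, hy, add_zero]
    | smul c x _ hx =>
      rw [← ecr_apply, map_smul, Pi.smul_apply, ecr_apply, hx, smul_zero]
  · intro h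
    rw [crd_sum e x]
    refine Submodule.sum_mem _ fun j _ => ?_
    by_cases hj : j = o ∨ deg j = 1
    · exact Submodule.smul_mem _ _ (Submodule.tmul_mem_baseChange_of_mem _
        (Submodule.subset_span ⟨⟨j, hj⟩, rfl⟩))
    · rw [h j hj, zero_smul]
      exact Submodule.zero_mem _

lemma Fx_gr {p q : ℤ} {i : ℕ} (h : p + q = i) {x : ℂ ⊗[T.W.K] T.W.H X}
    (hx : x ∈ Fx T X (p, q)) : x ∈ (T.W.gr X i).baseChange ℂ :=
  T.dec.le X h hx

lemma one_F : (1 : ℂ) ⊗ₜ[T.W.K] (1 : T.W.H X) ∈ Fx T X (0, 0) := by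
  have h := (isHodge_one (T := T) (X := X)).2
  exact h

/-- The Hodge structure of the letters is stable. -/
lemma pr_Us (hψ : IsPHS (tauT T) (Fx T X) ψ X.dim) (hdeg : ∀ j, e j ∈ T.W.gr X (deg j))
    (ho : e o = 1) (r : ℤ × ℤ) : ∀ x ∈ (Us e deg o).baseChange ℂ,
      hψ.pr r x ∈ (Us e deg o).baseChange ℂ := by
  intro x hx
  rw [Us, Submodule.baseChange_span] at hx
  induction hx using Submodule.span_induction with
  | mem x hx =>
    obtain ⟨_, ⟨i, rfl⟩, rfl⟩ := hx
    change hψ.pr r ((1 : ℂ) ⊗ₜ[T.W.K] e i.1) ∈ _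
    have h0 : (1 : ℂ) ⊗ₜ[T.W.K] e i.1 ∈ (Us e deg o).baseChange ℂ :=
      Submodule.tmul_mem_baseChange_of_mem _ (Submodule.subset_span ⟨i, rfl⟩)
    rcases i.2 with hi | hi
    · have h1 : (1 : ℂ) ⊗ₜ[T.W.K] e i.1 ∈ Fx T X (0, 0) := by
        rw [hi, ho]
        exact one_F
      by_cases hr : r = (0, 0)
      · rw [hr, hψ.pr_same h1]
        exact h0
      · rw [hψ.pr_ne h1 (Ne.symm hr)]
        exact Submodule.zero_mem _
    · have h1 : (1 : ℂ) ⊗ₜ[T.W.K] e i.1 ∈ (T.W.gr X 1).baseChange ℂ :=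
        Submodule.tmul_mem_baseChange_of_mem _ (by have h2 := hdeg i.1; rw [hi] at h2; exact h2)
      by_cases hr : r.1 + r.2 = ((1 : ℕ) : ℤ)
      · rw [mem_Us]
        intro j hj
        refine crd_gr (T.W.isInternal X) hdeg (Fx_gr hr (hψ.pr_mem r _)) fun h => hj (Or.inr h)
      · rw [pr_gr hψ h1 hr]
        exact Submodule.zero_mem _
  | zero => rw [map_zero]; exact Submodule.zero_mem _
  | add x y _ _ hx hy => rw [map_add]; exact Submodule.add_mem _ hx hy
  | smul c x _ hx => rw [map_smul]; exact Submodule.smul_mem _ _ hx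

lemma rg_Us (hψ : IsPHS (tauT T) (Fx T X) ψ X.dim) (hdeg : ∀ j, e j ∈ T.W.gr X (deg j))
    (hd : deg o = 0) (p q : ℤ) : ∀ x ∈ (Us e deg o).baseChange ℂ, x ∈ Fx T X (p, q) → x ≠ 0 →
      0 ≤ p ∧ p ≤ (1 : ℕ) ∧ 0 ≤ q ∧ q ≤ (1 : ℕ) := by
  intro x hx hxF hx0
  have h1 : Fx T X (p, q) ≠ ⊥ := fun h => hx0 ((Submodule.mem_bot ℂ).1 (h ▸ hxF))
  obtain ⟨hp, _, hq, _⟩ := hψ.range p q h1
  have h2 : p + q ≤ 1 := by
    by_contra hpq
    apply hx0
    apply crd_inj e
    rw [crd_zero]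
    funext j
    have hi : p + q = ((p + q).toNat : ℤ) := (Int.toNat_of_nonneg (by omega)).symm
    by_cases hj : j = o ∨ deg j = 1
    · refine crd_gr (T.W.isInternal X) hdeg (Fx_gr hi hxF) ?_
      rcases hj with rfl | hj
      · rw [hd]; omega
      · rw [hj]; omega
    · exact mem_Us.1 hx j hj
  push_cast
  omega

/-- **The Hodge structure of the letters in coordinates.** -/
theorem exists_h0 (hψ : IsPHS (tauT T) (Fx T X) ψ X.dim) (hdeg : ∀ j, e j ∈ T.W.gr X (deg j))
    (ho : e o = 1) (hd : deg o = 0) : ∃ H : HData (Lt deg o), H.D.o = ⟨o, Or.inl rfl⟩ ∧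
      H.w = 1 ∧ ∀ t : ℂ, t ≠ 0 → ∀ v : Lt deg o → ℂ,
        mG hψ.int e (fun k => t ^ k) *ᵥ ext v = ext (H.l t *ᵥ v) := by
  have hs := sub hψ (Us e deg o) (pr_Us hψ hdeg ho) (rg_Us hψ hdeg hd)
  obtain ⟨H, h1, h2, h3, -⟩ := hs.exists_hdata2 (es e deg o) ⟨o, Or.inl rfl⟩ (by
    change jU _ ((1 : ℂ) ⊗ₜ[T.W.K] es e deg o ⟨o, Or.inl rfl⟩) ∈ Fx T X (0, 0)
    rw [jU_tmul, es_apply, ho]
    exact one_F)
  refine ⟨H, h1, h2, fun t ht v => ?_⟩
  obtain ⟨y, hy⟩ := crd_surj (es e deg o) v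
  have h4 : ∀ y, crd e (jU (Us e deg o) y) = ext (crd (es e deg o) y) := by
    intro y
    refine tmul_ind (P := fun y => crd e (jU (Us e deg o) y) = ext (crd (es e deg o) y)) ?_ ?_ y
    · intro z u
      rw [jU_tmul]
      have h5 : ∀ i, ((es e deg o).repr u i : T.W.K) = e.repr (u : T.W.H X) i.1 := by
        intro i
        have h6 : (u : T.W.H X) = ∑ j, (es e deg o).repr u j • e j.1 := by
          conv_lhs => rw [← (es e deg o).sum_repr u]
          rw [Submodule.coe_sum]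
          refine Finset.sum_congr rfl fun j _ => ?_
          rw [Submodule.coe_smul, es_apply]
        rw [h6, map_sum, Finsupp.coe_finsetSum, Finset.sum_apply, Finset.sum_eq_single i]
        · rw [map_smul, Basis.repr_self, Finsupp.smul_apply, Finsupp.single_eq_same, smul_eq_mul,
            mul_one]
        · intro j _ hj
          rw [map_smul, Basis.repr_self, Finsupp.smul_apply,
            Finsupp.single_eq_of_ne (fun h => hj (Subtype.ext h).symm), smul_zero]
        · intro h; exact absurd (Finset.mem_univ _) h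
      funext i
      by_cases hi : i = o ∨ deg i = 1
      · rw [ext, dif_pos hi, crd_tmul, crd_tmul, h5]
      · rw [ext_out _ hi]
        have h6 : (z ⊗ₜ[T.W.K] (u : T.W.H X)) ∈ (Us e deg o).baseChange ℂ :=
          Submodule.tmul_mem_baseChange_of_mem _ u.2
        exact mem_Us.1 h6 i hi
    · intro a b ha hb
      rw [map_add, crd_add, ha, hb, crd_add]
      funext i
      by_cases hi : i = o ∨ deg i = 1
      · simp only [Pi.add_apply, ext, dif_pos hi]
      · rw [Pi.add_apply, ext_out _ hi, ext_out _ hi, ext_out _ hi, add_zero]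
  rw [← hy, ← h4, ← crd_dG, ← jU_dG hψ.int (Us e deg o) hs.int, h4, crd_dG, h3 t ht]

end Run7.h226.Geo
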