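import Pool.Agent.Run7.h226.Core3
import Pool.Agent.N996.BP.PHS2

/-!
# Lifting of Hodge classes
-/

set_option linter.unusedSectionVars false

namespace Run7.h226.Wts

open Matrix Pool.Agent.N996.BP Pool.Agent.N996.FP

variable {κ : Type} [Fintype κ] [DecidableEq κ] {H : HData κ}
  {J : Type} [Fintype J] [DecidableEq J] {σ : Type} [Fintype σ] {m : σ → ℕ}

/-- The inverse of the form. -/
lemma Qi_eq : H.D.Qi = H.D.C * (H.D.Mi * H.D.Miᵀ) := by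
  have h1 : H.D.Q * (H.D.C * (H.D.Mi * H.D.Miᵀ)) = 1 := by
    rw [← Matrix.mul_assoc, ← H.D.hS]
    exact H.D.S_Si
  calc H.D.Qi = H.D.Qi * (H.D.Q * (H.D.C * (H.D.Mi * H.D.Miᵀ))) := by rw [h1, Matrix.mul_one]
    _ = H.D.C * (H.D.Mi * H.D.Miᵀ) := by rw [← Matrix.mul_assoc, H.D.hQ', Matrix.one_mul]

/-- The real matrix of a rational matrix. -/
def qR {a b : Type*} (M : Matrix a b ℚ) : Matrix a b ℝ := M.map fun x : ℚ => (x : ℝ)

lemma qR_mul {a b c : Type*} [Fintype b] (M : Matrix a b ℚ) (N : Matrix b c ℚ) :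
    qR (M * N) = qR M * qR N := by
  ext i j
  simp [qR, Matrix.mul_apply]

lemma qR_vec {a b : Type*} [Fintype b] (M : Matrix a b ℚ) (v : b → ℚ) :
    qR M *ᵥ (fun i => (v i : ℝ)) = fun i => ((M *ᵥ v) i : ℝ) := by
  funext i
  simp [qR, Matrix.mulVec, dotProduct]

lemma cR_vec {a b : Type*} [Fintype b] (M : Matrix a b ℝ) (v : b → ℝ) :
    cR M *ᵥ (fun i => (v i : ℂ)) = fun i => ((M *ᵥ v) i : ℂ) := by
  funext i
  simp [cR, Matrix.mulVec, dotProduct]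

lemma cQ_vec {a b : Type*} [Fintype b] (M : Matrix a b ℚ) (v : b → ℚ) :
    cQ M *ᵥ (fun i => (v i : ℂ)) = fun i => ((M *ᵥ v) i : ℂ) := by
  funext i
  simp [cQ, Matrix.mulVec, dotProduct]

lemma cQ_sum {a b : Type*} (s : Finset σ) (f : σ → Matrix a b ℚ) :
    cQ (∑ i ∈ s, f i) = ∑ i ∈ s, cQ (f i) := by
  ext i j
  simp [cQ, Matrix.sum_apply]

lemma cR_sum {a b : Type*} (s : Finset σ) (f : σ → Matrix a b ℝ) :
    cR (∑ i ∈ s, f i) = ∑ i ∈ s, cR (f i) := by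
  ext i j
  simp [cR, Matrix.sum_apply]

lemma kp_cR' {n : ℕ} (M : Matrix κ κ ℝ) : kp (Fin (n + 1)) (cR M) = cR (kp (Fin (n + 1)) M) := by
  ext i j
  simp [kp_apply, cR]

/-- **Lifting of Hodge classes.** A Hodge class which is a sum of images of rational arrays under
equivariant maps is a sum of images of Hodge classes. -/
theorem lift (L : ∀ s : σ, Matrix J (Fin (m s + 1) → κ) ℚ) (G : ℂ → Matrix J J ℂ)
    (hG : ∀ t : ℂ, t ≠ 0 → G t⁻¹ * G t = 1)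
    (hL : ∀ t : ℂ, t ≠ 0 → ∀ s, cQ (L s) * kp (Fin (m s + 1)) (H.l t) = G t * cQ (L s))
    (hs : ∀ y : J → ℚ, (∀ s, (L s)ᵀ *ᵥ y = 0) → y = 0) (c : J → ℚ)
    (hc : ∀ t : ℂ, t ≠ 0 → G t *ᵥ (fun j => (c j : ℂ)) = fun j => (c j : ℂ)) :
    ∃ a : ∀ s, (Fin (m s + 1) → κ) → ℚ, (∀ s, a s ∈ BB H (Fin (m s + 1))) ∧
      ∑ s, L s *ᵥ a s = c := by
  classical
  set N : Matrix J J ℚ := ∑ s, L s * kp (Fin (m s + 1)) H.Qir * (L s)ᵀ with hN
  set Z : ∀ s : σ, Matrix J (Fin (m s + 1) → κ) ℝ :=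
    fun s => qR (L s) * kp (Fin (m s + 1)) H.D.Mi with hZ
  have hI : Complex.I ≠ 0 := Complex.I_ne_zero
  have hNG : cQ N = G Complex.I * cR (∑ s, Z s * (Z s)ᵀ) := by
    rw [hN, cQ_sum, cR_sum, Finset.mul_sum]
    refine Finset.sum_congr rfl fun s _ => ?_
    have h1 : cQ (kp (Fin (m s + 1)) H.Qir) = kp (Fin (m s + 1)) (H.l Complex.I) *
        (kp (Fin (m s + 1)) (cR H.D.Mi) * (kp (Fin (m s + 1)) (cR H.D.Mi))ᵀ) := by
      rw [← kp_cQ, ← kp_transpose, ← kp_mul, ← kp_mul]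
      congr 1
      have h2 : cQ H.Qir = cR H.D.Qi := by
        rw [H.hQir]
        exact (IsPHS.cR_cQ H.Qir).symm
      rw [h2, Qi_eq, cR_mul, cR_mul, cR_C]
      rfl
    have h3 : cR (qR (L s)) = cQ (L s) := IsPHS.cR_cQ (L s)
    have h4 : cR (Z s) = cQ (L s) * kp (Fin (m s + 1)) (cR H.D.Mi) := by
      rw [hZ]
      simp only
      rw [cR_mul, h3, kp_cR']
    have h5 : cR (Z s)ᵀ = (cR (Z s))ᵀ := rfl
    rw [cQ_mul, cQ_mul, h1, cR_mul, h5, h4, Matrix.transpose_mul]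
    have h6 : cQ (L s)ᵀ = (cQ (L s))ᵀ := rfl
    rw [h6]
    calc cQ (L s) * (kp (Fin (m s + 1)) (H.l Complex.I) *
          (kp (Fin (m s + 1)) (cR H.D.Mi) * (kp (Fin (m s + 1)) (cR H.D.Mi))ᵀ)) * (cQ (L s))ᵀ =
        (cQ (L s) * kp (Fin (m s + 1)) (H.l Complex.I)) *
          (kp (Fin (m s + 1)) (cR H.D.Mi) * (kp (Fin (m s + 1)) (cR H.D.Mi))ᵀ) * (cQ (L s))ᵀ := by
          simp only [Matrix.mul_assoc]
      _ = G Complex.I * (cQ (L s) * kp (Fin (m s + 1)) (cR H.D.Mi) *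
          ((kp (Fin (m s + 1)) (cR H.D.Mi))ᵀ * (cQ (L s))ᵀ)) := by
          rw [hL _ hI]
          simp only [Matrix.mul_assoc]
  -- the matrix is invertible
  have hinj : ∀ y : J → ℚ, N *ᵥ y = 0 → y = 0 := by
    intro y hy
    apply hs
    have h1 : cR (∑ s, Z s * (Z s)ᵀ) *ᵥ (fun j => ((y j : ℝ) : ℂ)) = 0 := by
      have h2 : cQ N *ᵥ (fun j => (y j : ℂ)) = 0 := by
        rw [cQ_vec, hy]
        funext i
        rw [Pi.zero_apply, Rat.cast_zero]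
        rfl
      rw [hNG] at h2
      have h3 := congrArg (fun v => G Complex.I⁻¹ *ᵥ v) h2
      simp only [Matrix.mulVec_zero] at h3
      rw [← Matrix.mulVec_mulVec, Matrix.mulVec_mulVec, hG _ hI, Matrix.one_mulVec] at h3
      simpa using h3
    have h2 : (∑ s, Z s * (Z s)ᵀ) *ᵥ (fun j => (y j : ℝ)) = 0 := by
      rw [cR_vec] at h1
      funext i
      have h3 := congrFun h1 i
      simp only [Pi.zero_apply] at h3
      exact_mod_cast h3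
    have h3 : ∑ s, ((Z s)ᵀ *ᵥ (fun j => (y j : ℝ))) ⬝ᵥ ((Z s)ᵀ *ᵥ (fun j => (y j : ℝ))) = 0 := by
      have h4 : (fun j => (y j : ℝ)) ⬝ᵥ ((∑ s, Z s * (Z s)ᵀ) *ᵥ (fun j => (y j : ℝ))) = 0 := by
        rw [h2, dotProduct_zero]
      rw [Matrix.sum_mulVec, dotProduct_sum] at h4
      rw [← h4]
      refine Finset.sum_congr rfl fun s _ => ?_
      rw [← Matrix.mulVec_mulVec, Matrix.dotProduct_mulVec (fun j => (y j : ℝ)) (Z s),
        ← Matrix.mulVec_transpose]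
    intro s
    have h4 : ((Z s)ᵀ *ᵥ (fun j => (y j : ℝ))) ⬝ᵥ ((Z s)ᵀ *ᵥ (fun j => (y j : ℝ))) = 0 :=
      (Finset.sum_eq_zero_iff_of_nonneg (fun s _ =>
        Finset.sum_nonneg fun i _ => mul_self_nonneg _)).1 h3 s (Finset.mem_univ s)
    have h5 := dotProduct_self_eq_zero.1 h4
    rw [hZ] at h5
    simp only at h5
    rw [Matrix.transpose_mul, ← Matrix.mulVec_mulVec] at h5
    have h6 : (qR (L s))ᵀ *ᵥ (fun j => (y j : ℝ)) = 0 := by
      have h7 := congrArg (fun v => (kp (Fin (m s + 1)) H.D.M)ᵀ *ᵥ v) h5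
      simp only [Matrix.mulVec_zero] at h7
      rw [Matrix.mulVec_mulVec, ← Matrix.transpose_mul, kp_inv_mul H.D.hM', Matrix.transpose_one,
        Matrix.one_mulVec] at h7
      exact h7
    have h7 : (qR (L s))ᵀ = qR (L s)ᵀ := rfl
    rw [h7, qR_vec] at h6
    funext i
    have h8 := congrFun h6 i
    simp only [Pi.zero_apply] at h8
    rw [Pi.zero_apply]
    exact_mod_cast h8
  have h1 : Function.Injective N.mulVec := by
    intro a b hab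
    have h2 := hinj (a - b) (by rw [Matrix.mulVec_sub, sub_eq_zero]; exact hab)
    exact sub_eq_zero.1 h2
  have h2 : IsUnit N := Matrix.mulVec_injective_iff_isUnit.1 h1
  have hNi : N * N⁻¹ = 1 := Matrix.mul_nonsing_inv N ((Matrix.isUnit_iff_isUnit_det N).1 h2)
  have hNi' : N⁻¹ * N = 1 := mul_eq_one_comm.1 hNi
  -- the invariance of the matrix
  have hinv : ∀ t : ℂ, t ≠ 0 → G t * cQ N * (G t)ᵀ = cQ N := by
    intro t ht
    rw [hN, cQ_sum, Finset.mul_sum, Finset.sum_mul]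
    refine Finset.sum_congr rfl fun s _ => ?_
    have h6 : cQ (L s)ᵀ = (cQ (L s))ᵀ := rfl
    have h7 : kp (Fin (m s + 1)) (H.l t) * cQ (kp (Fin (m s + 1)) H.Qir) *
        (kp (Fin (m s + 1)) (H.l t))ᵀ = cQ (kp (Fin (m s + 1)) H.Qir) := by
      rw [← kp_cQ, ← kp_transpose, ← kp_mul, ← kp_mul]
      congr 1
      have h8 := H.l_Q ht
      have h9 : cQ H.Qr * cQ H.Qir = 1 := by rw [← cQ_mul, H.Qr_Qir, cQ_one]
      have h10 : cQ H.Qir * cQ H.Qr = 1 := mul_eq_one_comm.1 h9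
      have h11 : cQ H.Qir * ((H.l t)ᵀ * cQ H.Qr) * H.l t = 1 := by
        rw [Matrix.mul_assoc, h8, h10]
      have h12 : H.l t * (cQ H.Qir * ((H.l t)ᵀ * cQ H.Qr)) = 1 := mul_eq_one_comm.1 h11
      calc H.l t * cQ H.Qir * (H.l t)ᵀ =
          H.l t * (cQ H.Qir * ((H.l t)ᵀ * cQ H.Qr)) * cQ H.Qir := by
            simp only [Matrix.mul_assoc]
            rw [h9, Matrix.mul_one]
        _ = cQ H.Qir := by rw [h12, Matrix.one_mul]
    rw [cQ_mul, cQ_mul, h6]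
    calc G t * (cQ (L s) * cQ (kp (Fin (m s + 1)) H.Qir) * (cQ (L s))ᵀ) * (G t)ᵀ =
        (G t * cQ (L s)) * cQ (kp (Fin (m s + 1)) H.Qir) * (G t * cQ (L s))ᵀ := by
          rw [Matrix.transpose_mul]
          simp only [Matrix.mul_assoc]
      _ = cQ (L s) * (kp (Fin (m s + 1)) (H.l t) * cQ (kp (Fin (m s + 1)) H.Qir) *
          (kp (Fin (m s + 1)) (H.l t))ᵀ) * (cQ (L s))ᵀ := by
          rw [← hL t ht, Matrix.transpose_mul]
          simp only [Matrix.mul_assoc]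
      _ = cQ (L s) * cQ (kp (Fin (m s + 1)) H.Qir) * (cQ (L s))ᵀ := by rw [h7]
  -- the dual vector
  set y : J → ℚ := N⁻¹ *ᵥ c with hy
  have hyG : ∀ t : ℂ, t ≠ 0 → (G t)ᵀ *ᵥ (fun j => (y j : ℂ)) = fun j => (y j : ℂ) := by
    intro t ht
    have h3 : cQ N * cQ N⁻¹ = 1 := by rw [← cQ_mul, hNi, cQ_one]
    have h4 : cQ N⁻¹ * cQ N = 1 := mul_eq_one_comm.1 h3
    have h5 : (fun j => (y j : ℂ)) = cQ N⁻¹ *ᵥ fun j => (c j : ℂ) := by
      rw [hy, cQ_vec]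
    have h6 : G t⁻¹ * cQ N = cQ N * (G t)ᵀ := by
      conv_lhs => rw [← hinv t ht]
      rw [← Matrix.mul_assoc, ← Matrix.mul_assoc, hG t ht, Matrix.one_mul]
    have h7 : (G t)ᵀ * cQ N⁻¹ = cQ N⁻¹ * G t⁻¹ := by
      calc (G t)ᵀ * cQ N⁻¹ = cQ N⁻¹ * (cQ N * (G t)ᵀ) * cQ N⁻¹ := by
            rw [← Matrix.mul_assoc (cQ N⁻¹), h4, Matrix.one_mul]
        _ = cQ N⁻¹ * (G t⁻¹ * cQ N) * cQ N⁻¹ := by rw [h6]
        _ = cQ N⁻¹ * G t⁻¹ := by
            rw [Matrix.mul_assoc, Matrix.mul_assoc, h3, Matrix.mul_one]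
    rw [h5, Matrix.mulVec_mulVec, h7, ← Matrix.mulVec_mulVec, hc _ (inv_ne_zero ht)]
  refine ⟨fun s => kp (Fin (m s + 1)) H.Qir *ᵥ ((L s)ᵀ *ᵥ y), fun s t ht => ?_, ?_⟩
  · have h3 : ca (kp (Fin (m s + 1)) H.Qir *ᵥ ((L s)ᵀ *ᵥ y)) =
        cQ (kp (Fin (m s + 1)) H.Qir) *ᵥ ((cQ (L s))ᵀ *ᵥ fun j => (y j : ℂ)) := by
      have h4 : (cQ (L s))ᵀ = cQ (L s)ᵀ := rfl
      rw [h4, cQ_vec, cQ_vec]
      rfl
    have h5 : kp (Fin (m s + 1)) (H.l t) * cQ (kp (Fin (m s + 1)) H.Qir) =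
        cQ (kp (Fin (m s + 1)) H.Qir) * (kp (Fin (m s + 1)) (H.l t⁻¹))ᵀ := by
      rw [← kp_cQ, ← kp_transpose, ← kp_mul, ← kp_mul]
      congr 1
      have h8 := H.l_tr (inv_ne_zero ht)
      rw [inv_inv] at h8
      have h9 : cQ H.Qr * cQ H.Qir = 1 := by rw [← cQ_mul, H.Qr_Qir, cQ_one]
      have h10 : cQ H.Qir * cQ H.Qr = 1 := mul_eq_one_comm.1 h9
      calc H.l t * cQ H.Qir = cQ H.Qir * (cQ H.Qr * H.l t) * cQ H.Qir := by
            rw [← Matrix.mul_assoc (cQ H.Qir), h10, Matrix.one_mul]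
        _ = cQ H.Qir * ((H.l t⁻¹)ᵀ * cQ H.Qr) * cQ H.Qir := by rw [h8]
        _ = cQ H.Qir * (H.l t⁻¹)ᵀ := by
            rw [Matrix.mul_assoc, Matrix.mul_assoc, h9, Matrix.mul_one]
    rw [h3, Matrix.mulVec_mulVec, h5, ← Matrix.mulVec_mulVec]
    congr 1
    rw [Matrix.mulVec_mulVec, ← Matrix.transpose_mul, hL _ (inv_ne_zero ht) s,
      Matrix.transpose_mul, ← Matrix.mulVec_mulVec, hyG _ (inv_ne_zero ht)]
  · have h3 : ∑ s, L s *ᵥ (kp (Fin (m s + 1)) H.Qir *ᵥ ((L s)ᵀ *ᵥ y)) = N *ᵥ y := by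
      rw [hN, Matrix.sum_mulVec]
      refine Finset.sum_congr rfl fun s _ => ?_
      rw [Matrix.mulVec_mulVec, Matrix.mulVec_mulVec]
    rw [h3, hy, Matrix.mulVec_mulVec, hNi, Matrix.one_mulVec]

end Run7.h226.Wts
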