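import Pool.Agent.Run7.h226.Lets
import Pool.Agent.N996.FP.Geo4

/-!
# Few endomorphisms in degree one
-/

set_option linter.unusedSectionVars false

open CategoryTheory AlgebraicGeometry TensorProduct

universe u

namespace Run7.h226.Geo

open Module Matrix
open Pool.Agent.H914 Pool.Agent.H914.VarClass Pool.Agent.H914.VarClass.Obj
  Pool.Agent.H914.WeilCohomology
open Pool.Agent.Y133.Half Pool.Agent.Y121.AH
open Pool.Agent.N996.BP Pool.Agent.N996.BP.Geo Pool.Agent.N996.FP Pool.Agent.N996.FP.Geo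
open Run7.h226.Phs Run7.h226.Wts

variable {k : Type u} [Field k] {𝒱 : VarClass k} {ops : CycleOps 𝒱} {T : HodgeTheory ops}
  {X : 𝒱.Obj} {ψ : LinearMap.BilinForm T.W.K (T.W.H X)}
  {ι : Type} [Fintype ι] [DecidableEq ι] {e : Basis ι T.W.K (T.W.H X)} {deg : ι → ℕ} {o : ι}
  {H : HData (Lt deg o)}

lemma crd_ext_single (j : Lt deg o) :
    crd e ((1 : ℂ) ⊗ₜ[T.W.K] e j.1) = ext (Pi.single j (1 : ℂ) : Lt deg o → ℂ) := by
  funext i
  rw [crd_tm]
  by_cases hi : i = o ∨ deg i = 1
  · rw [ext, dif_pos hi, Pi.single_apply]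
    by_cases h : j.1 = i
    · rw [if_pos h, if_pos (Subtype.ext h.symm)]
    · rw [if_neg h, if_neg fun h' => h (congrArg Subtype.val h').symm]
  · rw [ext_out _ hi, if_neg]
    rintro rfl
    exact hi j.2

/-- The operator `-1`. -/
lemma l_neg (hψ : IsPHS (tauT T) (Fx T X) ψ X.dim) (hdeg : ∀ j, e j ∈ T.W.gr X (deg j))
    (ho : e o = 1) (hHo : H.D.o = ⟨o, Or.inl rfl⟩)
    (hl : ∀ t : ℂ, t ≠ 0 → ∀ v : Lt deg o → ℂ,
      mG hψ.int e (fun k => t ^ k) *ᵥ ext v = ext (H.l t *ᵥ v)) :
    H.l (-1) = (2 : ℂ) • cQ (E0 H) - 1 := by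
  have key : ∀ j : Lt deg o, H.l (-1) *ᵥ (Pi.single j (1 : ℂ)) =
      ((2 : ℂ) • cQ (E0 H) - 1) *ᵥ (Pi.single j (1 : ℂ)) := by
    intro j
    apply ext_inj
    rw [← hl (-1) (neg_ne_zero.2 one_ne_zero), ← crd_ext_single (e := e), ← crd_dG]
    rcases j.2 with hj | hj
    · have h1 : (1 : ℂ) ⊗ₜ[T.W.K] e j.1 ∈ Fx T X (0, 0) := by
        rw [hj, ho]
        exact one_F
      have h2 : j = H.D.o := by rw [hHo]; exact Subtype.ext hj
      rw [dG_apply hψ.int _ h1, sub_self, zpow_zero, one_smul, crd_ext_single]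
      congr 1
      rw [cQ_E0, Matrix.sub_mulVec, Matrix.smul_mulVec, Matrix.one_mulVec]
      funext i
      rw [Pi.sub_apply, Pi.smul_apply, Matrix.mulVec_diagonal, h2]
      by_cases hi : i = H.D.o
      · rw [hi, Pi.single_eq_same, if_pos rfl]; norm_num
      · rw [Pi.single_eq_of_ne hi]; simp
    · have h1 : (1 : ℂ) ⊗ₜ[T.W.K] e j.1 ∈ (T.W.gr X 1).baseChange ℂ :=
        Submodule.tmul_mem_baseChange_of_mem _ (by have h2 := hdeg j.1; rw [hj] at h2; exact h2)
      rw [lneg_gr (i := 1) (by norm_num) h1 hψ.int]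
      have h2 : crd e (-((1 : ℂ) ⊗ₜ[T.W.K] e j.1)) = - ext (Pi.single j (1 : ℂ) : Lt deg o → ℂ) := by
        rw [← crd_ext_single (e := e), ← ecr_apply, map_neg, ecr_apply]
      have h3 : j ≠ H.D.o ∨ j = H.D.o := by tauto
      rcases h3 with h3 | h3
      · rw [h2, cQ_E0, Matrix.sub_mulVec, Matrix.smul_mulVec, Matrix.one_mulVec]
        have h4 : (Matrix.diagonal fun i => if i = H.D.o then (1 : ℂ) else 0) *ᵥ
            (Pi.single j (1 : ℂ)) = 0 := by
          funext i
          rw [Matrix.mulVec_diagonal]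
          by_cases hi : i = j
          · rw [hi, if_neg h3, zero_mul]; rfl
          · rw [Pi.single_eq_of_ne hi, mul_zero]; rfl
        rw [h4, smul_zero, zero_sub]
        have h5 : (-(Pi.single j (1 : ℂ)) : Lt deg o → ℂ) = (-1 : ℂ) • Pi.single j (1 : ℂ) := by
          rw [neg_smul, one_smul]
        rw [h5, ext_smul, neg_smul, one_smul]
      · exfalso
        rw [hHo] at h3
        have h4 : j.1 = o := congrArg Subtype.val h3
        have h5 : (1 : ℂ) ⊗ₜ[T.W.K] e j.1 ∈ Fx T X (0, 0) := by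
          rw [h4, ho]
          exact one_F
        have h6 := dG_apply hψ.int (fun k => (-1 : ℂ) ^ k) h5
        rw [lneg_gr (i := 1) (by norm_num) h1 hψ.int, sub_self, zpow_zero, one_smul] at h6
        have h7 : (2 : ℂ) • ((1 : ℂ) ⊗ₜ[T.W.K] e j.1) = 0 := by
          rw [two_smul]
          nth_rewrite 1 [← h6]
          rw [neg_add_cancel]
        have h8 := (smul_eq_zero.1 h7).resolve_left two_ne_zero
        have h9 := congrFun (congrArg (crd e) h8) j.1
        rw [crd_tm, if_pos rfl, crd_zero] at h9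
        exact one_ne_zero h9
  ext i j
  have h1 := congrFun (key j) i
  rw [Matrix.mulVec_single_one, Matrix.mulVec_single_one] at h1
  exact h1

lemma pi_zero (hψ : IsPHS (tauT T) (Fx T X) ψ X.dim) (hdeg : ∀ j, e j ∈ T.W.gr X (deg j))
    (ho : e o = 1) (hHo : H.D.o = ⟨o, Or.inl rfl⟩) (hw : H.w = 1)
    (hl : ∀ t : ℂ, t ≠ 0 → ∀ v : Lt deg o → ℂ,
      mG hψ.int e (fun k => t ^ k) *ᵥ ext v = ext (H.l t *ᵥ v)) :
    H.π 0 = cQ (E0 H) := by
  have h1 : ∀ t : ℂ, H.l t = t ^ (-1 : ℤ) • H.π (-1) + H.π 0 + t • H.π 1 := by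
    intro t
    have h2 : Finset.Icc (-(H.w : ℤ)) H.w = {-1, 0, 1} := by
      rw [hw]
      rfl
    rw [HData.l_apply, h2, Finset.sum_insert (by decide), Finset.sum_insert (by decide),
      Finset.sum_singleton, zpow_zero, one_smul, zpow_one, add_assoc]
  have h2 := h1 1
  have h3 := h1 (-1)
  rw [HData.l_one] at h2
  rw [l_neg hψ hdeg ho hHo hl] at h3
  have h4 : (2 : ℂ) • H.π 0 = (2 : ℂ) • cQ (E0 H) := by
    have h5 := congrArg₂ (· + ·) h2 h3
    norm_num at h5
    rw [two_smul, ← sub_eq_zero]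
    rw [← sub_eq_zero] at h5
    have h6 : (2 : ℂ) • cQ (E0 H) - (H.π 0 + H.π 0) =
        (2 : ℂ) • cQ (E0 H) -
          (H.π (-1) + H.π 0 + H.π 1 + (-H.π (-1) + H.π 0 + -H.π 1)) := by abel
    rw [← neg_sub, h6, h5, neg_zero]
  exact smul_right_injective _ (two_ne_zero : (2 : ℂ) ≠ 0) h4

lemma crd_ext_smul (z : ℂ) (x : ℂ ⊗[T.W.K] T.W.H X) : crd e (z • x) = z • crd e x := by
  rw [← ecr_apply, map_smul, ecr_apply]

/-- **Few endomorphisms.** -/
theorem sml_of (hψ : IsPHS (tauT T) (Fx T X) ψ X.dim) (hdeg : ∀ j, e j ∈ T.W.gr X (deg j))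
    (ho : e o = 1) (hd : deg o = 0) (hHo : H.D.o = ⟨o, Or.inl rfl⟩) (hw : H.w = 1)
    (hl : ∀ t : ℂ, t ≠ 0 → ∀ v : Lt deg o → ℂ,
      mG hψ.int e (fun k => t ^ k) *ᵥ ext v = ext (H.l t *ᵥ v))
    (hne : ∃ j, deg j = 1)
    (hsc : ∀ f, End1 T X f → ∃ r : T.W.K, ∀ c ∈ T.W.gr X 1, f c = r • c) : Sml H where
  w1 := hw
  pi0 := pi_zero hψ hdeg ho hHo hw hl
  ne := by
    obtain ⟨j, hj⟩ := hne
    refine ⟨⟨j, Or.inr hj⟩, ?_⟩
    rw [hHo]
    intro h
    have h1 : j = o := congrArg Subtype.val h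
    rw [h1, hd] at hj
    exact absurd hj (by norm_num)
  sc := by
    intro x hx
    -- the idempotent commutes with `x`
    have hE : E0 H * x = x * E0 H := by
      have h1 := hx (-1) (neg_ne_zero.2 one_ne_zero)
      rw [l_neg hψ hdeg ho hHo hl, Matrix.sub_mul, Matrix.mul_sub, Matrix.one_mul, Matrix.mul_one,
        sub_left_inj, Matrix.smul_mul, Matrix.mul_smul, ← cQ_mul, ← cQ_mul] at h1
      exact AData.cQ_inj (smul_right_injective _ (two_ne_zero : (2 : ℂ) ≠ 0) h1)
    have hEE : E0 H * E0 H = E0 H := by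
      apply AData.cQ_inj
      rw [cQ_mul, E0_mul]
    have hEl : ∀ t : ℂ, t ≠ 0 → H.l t * cQ (E0 H) = cQ (E0 H) * H.l t := by
      intro t ht
      have h1 := H.l_mul (s := t) (t := -1)
      have h2 := H.l_mul (s := -1) (t := t)
      rw [mul_comm, ← h2, l_neg hψ hdeg ho hHo hl, Matrix.sub_mul, Matrix.mul_sub, Matrix.one_mul,
        Matrix.mul_one, sub_left_inj, Matrix.smul_mul, Matrix.mul_smul] at h1
      exact smul_right_injective _ (two_ne_zero : (2 : ℂ) ≠ 0) h1
    set y : Matrix (Lt deg o) (Lt deg o) ℚ := x * (1 - E0 H) with hy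
    have hyE : y * E0 H = 0 := by
      rw [hy, Matrix.mul_assoc, Matrix.sub_mul, Matrix.one_mul, hEE, sub_self, Matrix.mul_zero]
    have hEy : E0 H * y = 0 := by
      rw [hy, ← Matrix.mul_assoc, hE, Matrix.mul_assoc, Matrix.mul_sub, Matrix.mul_one, hEE,
        sub_self, Matrix.mul_zero]
    have hyl : ∀ t : ℂ, t ≠ 0 → H.l t * cQ y = cQ y * H.l t := by
      intro t ht
      have h1 : cQ (1 - E0 H) = 1 - cQ (E0 H) := by
        ext i j
        simp only [cQ, Matrix.map_apply, Matrix.sub_apply, Rat.cast_sub]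
        rw [Matrix.one_apply, Matrix.one_apply]
        split_ifs <;> simp
      rw [hy, cQ_mul, h1, ← Matrix.mul_assoc, hx t ht, Matrix.mul_assoc, Matrix.mul_assoc,
        Matrix.mul_sub, Matrix.mul_one, hEl t ht, Matrix.sub_mul, Matrix.one_mul]
    have hyo : ∀ i : Lt deg o, y i H.D.o = 0 := by
      intro i
      have h1 := congrFun (congrFun hyE i) H.D.o
      rw [E0, Matrix.mul_diagonal, if_pos rfl, mul_one] at h1
      exact h1
    have hyo' : ∀ i : Lt deg o, y H.D.o i = 0 := by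
      intro i
      have h1 := congrFun (congrFun hEy H.D.o) i
      rw [E0, Matrix.diagonal_mul, if_pos rfl, one_mul] at h1
      exact h1
    have hdeg1 : ∀ i : Lt deg o, i ≠ H.D.o → deg i.1 = 1 := by
      intro i hi
      rcases i.2 with h | h
      · exact absurd (by rw [hHo]; exact Subtype.ext h) hi
      · exact h
    -- the endomorphism
    have hV : ∀ z : ℂ ⊗[T.W.K] T.W.H X,
        (lmap e (extM y)).baseChange ℂ z ∈ (T.W.gr X 1).baseChange ℂ := by
      intro z
      refine gr_crd hdeg fun j hj => ?_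
      rw [crd_lmap, cQ_extM, Matrix.mulVec, dotProduct]
      refine Finset.sum_eq_zero fun i _ => ?_
      by_cases h : (j = o ∨ deg j = 1) ∧ (i = o ∨ deg i = 1)
      · rw [extM, dif_pos h, cQ, Matrix.map_apply]
        have h1 : (⟨j, h.1⟩ : Lt deg o) = H.D.o := by
          by_contra h2
          exact hj (hdeg1 _ h2)
        rw [h1, hyo', Rat.cast_zero, zero_mul]
      · rw [extM, dif_neg h, zero_mul]
    have hf : End1 T X (lmap e (extM y)) := by
      constructor
      · intro c _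
        have h1 := hV ((1 : ℂ) ⊗ₜ[T.W.K] c)
        rw [LinearMap.baseChange_tmul] at h1
        refine gr_repr hdeg fun j hj => ?_
        have h2 := crd_gr (T.W.isInternal X) hdeg h1 hj
        rw [crd_tmul, one_mul] at h2
        exact (map_eq_zero_iff _ (algebraMap T.W.K ℂ).injective).1 h2
      · intro p q hpq z hz
        refine mem_F_of_eig hψ hpq (hV z) ?_
        have h1 : z ∈ (T.W.gr X 1).baseChange ℂ := Fx_gr (i := 1) (by push_cast; exact hpq) hz
        obtain ⟨v, hv⟩ := exists_ext (deg := deg) (o := o) (u := crd e z) (fun i hi =>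
          crd_gr (T.W.isInternal X) hdeg h1 fun h => hi (Or.inr h))
        have h2 : H.l 2 *ᵥ v = (2 : ℂ) ^ (p - q) • v := by
          apply ext_inj
          rw [← hl 2 two_ne_zero, ← hv, ← crd_dG, dG_apply hψ.int _ hz, crd_ext_smul, hv, ext_smul]
        apply crd_inj e
        rw [crd_dG, crd_lmap, cQ_extM, hv, extM_mul, hl 2 two_ne_zero, Matrix.mulVec_mulVec,
          hyl 2 two_ne_zero, ← Matrix.mulVec_mulVec, h2, crd_ext_smul, crd_lmap, cQ_extM, hv,
          extM_mul, Matrix.mulVec_smul, ext_smul]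
    obtain ⟨r, hr⟩ := hsc _ hf
    obtain ⟨q, hq⟩ := T.rat r
    have hyq : y = q • (1 - E0 H) := by
      ext i j
      by_cases hj : j = H.D.o
      · rw [hj, hyo, Matrix.smul_apply, Matrix.sub_apply, E0, Matrix.diagonal_apply,
          Matrix.one_apply]
        by_cases hi : i = H.D.o
        · simp [hi]
        · simp [hi]
      · have h1 := hr (e j.1) (by have h2 := hdeg j.1; rw [hdeg1 j hj] at h2; exact h2)
        have h2 : e.repr (lmap e (extM y) (e j.1)) i.1 = ((y i j : ℚ) : T.W.K) := by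
          rw [lmap, Matrix.toLin_self, map_sum, Finsupp.coe_finsetSum, Finset.sum_apply,
            Finset.sum_eq_single i.1]
          · rw [map_smul, Basis.repr_self, Finsupp.smul_apply, Finsupp.single_eq_same, smul_eq_mul,
              mul_one, Matrix.map_apply, extM_in]
          · intro l _ hl'
            rw [map_smul, Basis.repr_self, Finsupp.smul_apply,
              Finsupp.single_eq_of_ne (Ne.symm hl'), smul_zero]
          · intro h; exact absurd (Finset.mem_univ _) h
        rw [h1, map_smul, Basis.repr_self, Finsupp.smul_apply, Finsupp.single_apply, smul_eq_mul,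
          ← hq] at h2
        have h3 : ((q * (if j.1 = i.1 then 1 else 0) : ℚ) : T.W.K) = ((y i j : ℚ) : T.W.K) := by
          rw [← h2]
          split_ifs <;> simp
        have h4 := Rat.cast_injective h3
        rw [← h4, Matrix.smul_apply, Matrix.sub_apply, E0, Matrix.diagonal_apply,
          Matrix.one_apply, smul_eq_mul]
        congr 1
        by_cases hi : i = j
        · rw [if_pos (congrArg Subtype.val hi).symm, if_pos hi, if_pos hi, if_neg (hi ▸ hj),
            sub_zero]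
        · rw [if_neg fun h => hi (Subtype.ext h).symm, if_neg hi, if_neg hi, sub_zero]
    refine ⟨q, x H.D.o H.D.o - q, ?_⟩
    have h1 : x = y + x * E0 H := by
      rw [hy, Matrix.mul_sub, Matrix.mul_one, sub_add_cancel]
    have h2 : x * E0 H = x H.D.o H.D.o • E0 H := by
      have h3 : x * E0 H = E0 H * x * E0 H := by
        rw [hE, Matrix.mul_assoc, hEE]
      rw [h3]
      ext i j
      rw [E0, Matrix.mul_diagonal, Matrix.diagonal_mul, Matrix.smul_apply, Matrix.diagonal_apply,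
        smul_eq_mul]
      by_cases hi : i = H.D.o
      · by_cases hj : j = H.D.o
        · rw [hi, hj, if_pos rfl, if_pos rfl, one_mul, mul_one]
        · rw [if_neg hj, mul_zero, if_neg fun h => hj (h.symm.trans hi), mul_zero]
      · rw [if_neg hi, zero_mul, zero_mul]
        by_cases hij : i = j
        · rw [if_pos hij, mul_zero]
        · rw [if_neg hij, mul_zero]
    rw [h2, hyq] at h1
    refine h1.trans ?_
    module

end Run7.h226.Geo
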