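import Pool.Agent.Run7.h226.Ideal

/-!
# The operator with square one
-/

set_option linter.unusedSectionVars false

namespace Run7.h226.Wts

open Matrix Pool.Agent.N996.BP Pool.Agent.N996.FP ComplexOrder

variable {ι : Type} [Fintype ι] [DecidableEq ι] {h : Submodule ℂ (Matrix ι ι ℂ)}
  {V : Submodule ℂ (ι → ℂ)} {x N : Matrix ι ι ℂ} {𝔞 𝔟 : Submodule ℂ (Matrix ι ι ℂ)}

/-- A Hermitian element with square one on `V`. -/
structure IsInv (h : Submodule ℂ (Matrix ι ι ℂ)) (V : Submodule ℂ (ι → ℂ))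
    (N : Matrix ι ι ℂ) : Prop where
  mem : N ∈ h
  herm : Nᴴ = N
  sq : ∀ v ∈ V, N *ᵥ (N *ᵥ v) = v

lemma br_add_left (a b c : Matrix ι ι ℂ) : br (a + b) c = br a c + br b c := by
  simp only [br, Matrix.add_mul, Matrix.mul_add]; abel

lemma br_add_right (a b c : Matrix ι ι ℂ) : br a (b + c) = br a b + br a c := by
  simp only [br, Matrix.add_mul, Matrix.mul_add]; abel

lemma br_smul_right (r : ℂ) (a b : Matrix ι ι ℂ) : br a (r • b) = r • br a b := by
  simp only [br, Matrix.smul_mul, Matrix.mul_smul, smul_sub]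

lemma br_smul_left (r : ℂ) (a b : Matrix ι ι ℂ) : br (r • a) b = r • br a b := by
  simp only [br, Matrix.smul_mul, Matrix.mul_smul, smul_sub]

lemma br_zero_right (a : Matrix ι ι ℂ) : br a 0 = 0 := by
  simp only [br, Matrix.mul_zero, Matrix.zero_mul, sub_zero]

lemma br_zero_left (a : Matrix ι ι ℂ) : br 0 a = 0 := by
  simp only [br, Matrix.mul_zero, Matrix.zero_mul, sub_zero]

lemma br_eq_zero {a b : Matrix ι ι ℂ} : br a b = 0 ↔ a * b = b * a := sub_eq_zero

/-- The decomposition of `h` under the adjoint action of a Hermitian element. -/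
lemma kp_dec (hM : Mdl h V) (hN : N ∈ h) (hNH : Nᴴ = N) {z : Matrix ι ι ℂ} (hz : z ∈ h) :
    ∃ k ∈ h, br N k = 0 ∧ ∃ w ∈ h, z = k + br N w := by
  refine ad_ind hNH (h := h) (fun z hz => hM.la.lie N hN z hz)
    (P := fun z => ∃ k ∈ h, br N k = 0 ∧ ∃ w ∈ h, z = k + br N w) ?_ ?_ ?_ hz
  · exact ⟨0, h.zero_mem, br_zero_right N, 0, h.zero_mem, by rw [br_zero_right, add_zero]⟩
  · rintro z w ⟨k, hk, hk', u, hu, rfl⟩ ⟨k₁, hk₁, hk₁', u₁, hu₁, rfl⟩
    refine ⟨k + k₁, h.add_mem hk hk₁, by rw [br_add_right, hk', hk₁', add_zero], u + u₁,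
      h.add_mem hu hu₁, ?_⟩
    rw [br_add_right]; abel
  · intro d z hz hd
    by_cases hd0 : d = 0
    · refine ⟨z, hz, ?_, 0, h.zero_mem, by rw [br_zero_right, add_zero]⟩
      rw [br, hd, hd0, Complex.ofReal_zero, zero_smul]
    · refine ⟨0, h.zero_mem, br_zero_right N, ((d : ℂ)⁻¹) • z, h.smul_mem _ hz, ?_⟩
      rw [br_smul_right, br, hd, smul_smul, inv_mul_cancel₀ (by exact_mod_cast hd0), one_smul,
        zero_add]

/-- **Elements of the simple ideal which commute with all `[N, z]` vanish.** -/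
lemma noncomm (hM : Mdl h V) (hN : N ∈ h) (hNH : Nᴴ = N) {R : Matrix ι ι ℂ}
    (hR : R ∈ gen h N) (h0 : ∀ z ∈ h, br R (br N z) = 0) : R = 0 := by
  have hRh : R ∈ h := (gen_id hM hN).le hR
  let 𝔲 : Submodule ℂ (Matrix ι ι ℂ) :=
    { carrier := {u | u ∈ h ∧ ∀ z ∈ h, br u (br N z) = 0}
      add_mem' := by
        rintro u w ⟨hu, hu'⟩ ⟨hw, hw'⟩
        exact ⟨h.add_mem hu hw, fun z hz => by rw [br_add_left, hu' z hz, hw' z hz, add_zero]⟩
      zero_mem' := ⟨h.zero_mem, fun z _ => br_zero_left _⟩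
      smul_mem' := by
        rintro r w ⟨hw, hw'⟩
        exact ⟨h.smul_mem r hw, fun z hz => by rw [br_smul_left, hw' z hz, smul_zero]⟩ }
  have hu_star : ∀ u ∈ 𝔲, uᴴ ∈ 𝔲 := by
    rintro u ⟨hu, hu'⟩
    refine ⟨hM.la.star u hu, fun z hz => ?_⟩
    have h1 := hu' zᴴ (hM.la.star z hz)
    have h2 : (br u (br N zᴴ))ᴴ = 0 := by rw [h1, Matrix.conjTranspose_zero]
    rw [br_star, br_star, Matrix.conjTranspose_conjTranspose, hNH, br_swap, br_swap z N] at h2
    rw [neg_eq_zero] at h2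
    have h3 : br uᴴ (-br N z) = -br uᴴ (br N z) := by
      have := br_smul_right (-1) uᴴ (br N z)
      rwa [neg_smul, neg_smul, one_smul, one_smul] at this
    rw [h3, neg_eq_zero] at h2
    exact h2
  have hNu : ∀ u ∈ 𝔲, br N u = 0 := by
    rintro u hu
    apply nsq_eq_zero
    have h1 := (hu_star u hu).2 u hu.1
    have h2 : nsq (br N u) = (br uᴴ N * br N u).trace := by
      rw [nsq, br_star, hNH]
    rw [h2, br_swap uᴴ N, Matrix.neg_mul, Matrix.trace_neg, tr_br, h1, Matrix.mul_zero,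
      Matrix.trace_zero, neg_zero]
  have hid : IsId h 𝔲 := by
    refine ⟨fun u hu => hu.1, fun z hz u hu => ⟨hM.la.lie z hz u hu.1, fun w hw => ?_⟩⟩
    -- decompose z
    obtain ⟨k, hk, hk', z', hz', rfl⟩ := kp_dec hM hN hNH hz
    have e1 : br (k + br N z') u = br k u := by
      rw [br_add_left, br_swap (br N z') u, hu.2 z' hz', neg_zero, add_zero]
    rw [e1]
    -- [[k,u],[N,w]] = [k,[u,[N,w]]] - [u,[k,[N,w]]]
    have e2 := br_jac k u (br N w)
    rw [hu.2 w hw, br_zero_right] at e2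
    have e3 : br k (br N w) = br N (br k w) := by
      have := br_jac k N w
      rw [br_swap k N, hk', neg_zero, br_zero_left, zero_add] at this
      exact this
    rw [e3, hu.2 _ (hM.la.lie k hk w hw), add_zero] at e2
    exact e2.symm
  have hNc : N ∈ cpl h 𝔲 := by
    obtain ⟨n₁, hn₁, n₂, hn₂, hn⟩ := cpl_dec hid hN
    have h1 : n₁ = 0 := by
      refine cen2 hM hid hn₁.1 (fun a ha => ?_) (fun b hb => cpl_comm hM hid hn₁ hb)
      have e1 : br N a = 0 := hNu a ha
      rw [hn, br_add_left] at e1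
      have e2 : br n₂ a = 0 := br_eq_zero.2 (cpl_comm hM hid ha hn₂).symm
      rw [e2, add_zero] at e1
      exact br_eq_zero.1 e1
    rw [hn, h1, zero_add]
    exact hn₂
  have hRc : R ∈ cpl h 𝔲 := gen_le (cpl_id hM hid) hNc hR
  exact cpl_disj (show R ∈ 𝔲 from ⟨hRh, h0⟩) hRc

/-- The values of the weights at `N`. -/
lemma nu_val (hM : Mdl h V) (hI : IsInv h V N) (hNc : N ∈ ct h x) {T : Matrix ι ι ℂ}
    (hT : T ∈ wts h x V) : ip T N = 1 ∨ ip T N = -1 := by
  obtain ⟨v, hv, hv0, hT⟩ := hT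
  have h1 := hT.val N hNc
  rw [tr_ip hT.herm hI.herm] at h1
  have h2 := hI.sq v hv
  rw [h1, Matrix.mulVec_smul, h1, smul_smul] at h2
  have h3 : ((ip T N : ℂ) * (ip T N : ℂ) - 1) • v = 0 := by
    rw [sub_smul, h2, one_smul, sub_self]
  rcases smul_eq_zero.1 h3 with h4 | h4
  · have h5 : ip T N * ip T N = 1 := by
      have := sub_eq_zero.1 h4
      exact_mod_cast this
    exact mul_self_eq_one_iff.1 h5
  · exact absurd h4 hv0

/-- The values of the roots at `N`. -/
lemma ip_Rt_N (hM : Mdl h V) (hx : IsReg h x) (hI : IsInv h V N) (hNc : N ∈ ct h x)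
    {e : Matrix ι ι ℂ} (he : IsRV h x e) : br N e = (ip (Rt e) N : ℂ) • e := by
  rw [he.val hM.la hx hNc, tr_ip (he.herm hM.la hx) hI.herm]

/-- Root vectors which do not commute with `N` have square zero. -/
lemma sq0_of_ne (hM : Mdl h V) (hx : IsReg h x) (hI : IsInv h V N) (hNc : N ∈ ct h x)
    {e : Matrix ι ι ℂ} (he : IsRV h x e) (hne : ip (Rt e) N ≠ 0) : Sq0 V e := by
  intro v hv
  refine wt_ind hM hx (W := V) (fun v hv => hM.stab x hx.mem v hv)
    (P := fun v => e *ᵥ (e *ᵥ v) = 0) (by rw [Matrix.mulVec_zero, Matrix.mulVec_zero])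
    (fun v w hv hw => by rw [Matrix.mulVec_add, Matrix.mulVec_add, hv, hw, add_zero]) ?_ hv
  intro v hv hv0 T hT
  by_contra h0
  have h1 : e *ᵥ v ≠ 0 := fun h1 => h0 (by rw [h1, Matrix.mulVec_zero])
  have hT0 : T ∈ wts h x V := ⟨v, hv, hv0, hT⟩
  have hT1 : T + Rt e ∈ wts h x V := wt_root_mem hM hx hv hT he h1
  have hT2 : T + Rt e + Rt e ∈ wts h x V :=
    wt_root_mem hM hx (hM.stab e he.mem v hv) (wt_root hM hx hT he) he h0
  have n0 := nu_val hM hI hNc hT0
  have n1 := nu_val hM hI hNc hT1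
  have n2 := nu_val hM hI hNc hT2
  rw [ip_add] at n1
  rw [ip_add, ip_add] at n2
  rcases n0 with n0 | n0 <;> rcases n1 with n1 | n1 <;> rcases n2 with n2 | n2 <;>
    (apply hne; linarith)

/-- The value of a root at `N` is `0` or `±2`; the general tool. -/
lemma nu_of (hM : Mdl h V) (hx : IsReg h x) (hI : IsInv h V N) (hNc : N ∈ ct h x)
    {f : Matrix ι ι ℂ} (hf : IsRV h x f) (hne : ip (Rt f) N ≠ 0) {T : Matrix ι ι ℂ}
    (hT : T ∈ wts h x V) :
    (2 * ip T (Rt f) = ip (Rt f) (Rt f) → 2 * ip T N = ip (Rt f) N) ∧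
    (2 * ip T (Rt f) = - ip (Rt f) (Rt f) → 2 * ip T N = -ip (Rt f) N) := by
  have h0 := sq0_of_ne hM hx hI hNc hf hne
  constructor
  · intro h1
    have h2 := (A4 hM hx hf h0 hT).1 h1
    have n0 := nu_val hM hI hNc hT
    have n1 := nu_val hM hI hNc h2
    rw [ip_sub] at n1
    rcases n0 with n0 | n0 <;> rcases n1 with n1 | n1 <;>
      first
        | (exfalso; apply hne; linarith)
        | linarith
  · intro h1
    have h2 := (A5 hM hx hf h0 hT).1 h1
    have n0 := nu_val hM hI hNc hT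
    have n1 := nu_val hM hI hNc h2
    rw [ip_add] at n1
    rcases n0 with n0 | n0 <;> rcases n1 with n1 | n1 <;>
      first
        | (exfalso; apply hne; linarith)
        | linarith

/-- There are root vectors which do not commute with `N` nor with `R`. -/
lemma exists_f (hM : Mdl h V) (hx : IsReg h x) (hI : IsInv h V N) (hNc : N ∈ ct h x)
    {R : Matrix ι ι ℂ} (hR : R ∈ gen h N) (hRc : R ∈ ct h x) (hRH : Rᴴ = R) (hR0 : R ≠ 0) :
    ∃ f, IsRV h x f ∧ ip (Rt f) N ≠ 0 ∧ ip R (Rt f) ≠ 0 := by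
  by_contra hcon
  push Not at hcon
  refine hR0 (noncomm hM hI.mem hI.herm hR fun z hz => ?_)
  refine ad_ind hx.herm (h := h) (fun z hz => hM.la.lie x hx.mem z hz)
    (P := fun z => br R (br N z) = 0) ?_ ?_ ?_ hz
  · rw [br_zero_right, br_zero_right]
  · intro z w hz hw
    rw [br_add_right, br_add_right, hz, hw, add_zero]
  · intro d z hz hd
    by_cases hz0 : z = 0
    · rw [hz0, br_zero_right, br_zero_right]
    by_cases hd0 : d = 0
    · have h1 : x * z = z * x := by
        have : x * z - z * x = 0 := by rw [hd, hd0, Complex.ofReal_zero, zero_smul]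
        exact sub_eq_zero.1 this
      have h2 : N * z = z * N := hx.comm hM.la.star hNc.1 hNc.2 h1
      rw [br_eq_zero.2 h2, br_zero_right]
    · have hf : IsRV h x z := ⟨hz, hz0, d, hd0, hd⟩
      rw [ip_Rt_N hM hx hI hNc hf, br_smul_right]
      by_cases hn : ip (Rt z) N = 0
      · rw [hn, Complex.ofReal_zero, zero_smul]
      · have h1 := hcon z hf hn
        rw [hf.val hM.la hx hRc, tr_ip (hf.herm hM.la hx) hRH, ip_comm (Rt z) R, h1,
          Complex.ofReal_zero, zero_smul, smul_zero]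

/-- **The root vectors of the simple ideal have square zero on `V`.** -/
theorem sq0 (hM : Mdl h V) (hx : IsReg h x) (hI : IsInv h V N) (hNc : N ∈ ct h x)
    {e : Matrix ι ι ℂ} (he : IsRV h x e) (hea : e ∈ gen h N) : Sq0 V e := by
  by_cases hne : ip (Rt e) N = 0
  swap
  · exact sq0_of_ne hM hx hI hNc he hne
  have hR : Rt e ∈ gen h N := by
    have hid := gen_id hM hI.mem
    exact Submodule.smul_mem _ _ (hid.lb e he.mem _ (hid.star hM hea))
  obtain ⟨f, hf, hf1, hf2⟩ := exists_f hM hx hI hNc hR (he.ct hM.la hx) (he.herm hM.la hx)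
    (he.Rt_ne hM.la hx)
  have hf0 := sq0_of_ne hM hx hI hNc hf hf1
  intro v hv
  refine wt_ind hM hx (W := V) (fun v hv => hM.stab x hx.mem v hv)
    (P := fun v => e *ᵥ (e *ᵥ v) = 0) (by rw [Matrix.mulVec_zero, Matrix.mulVec_zero])
    (fun v w hv hw => by rw [Matrix.mulVec_add, Matrix.mulVec_add, hv, hw, add_zero]) ?_ hv
  intro v hv hv0 T hT
  by_contra h0
  have h1 : e *ᵥ v ≠ 0 := fun h1 => h0 (by rw [h1, Matrix.mulVec_zero])
  have hT0 : T ∈ wts h x V := ⟨v, hv, hv0, hT⟩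
  have hT1 : T + Rt e ∈ wts h x V := wt_root_mem hM hx hv hT he h1
  have hT2 : T + Rt e + Rt e ∈ wts h x V :=
    wt_root_mem hM hx (hM.stab e he.mem v hv) (wt_root hM hx hT he) he h0
  have a0 := A3 hM hx hf hf0 hT0
  have a1 := A3 hM hx hf hf0 hT1
  have a2 := A3 hM hx hf hf0 hT2
  have b0 := nu_of hM hx hI hNc hf hf1 hT0
  have b2 := nu_of hM hx hI hNc hf hf1 hT2
  rw [ip_add (T + Rt e) (Rt e) N, ip_add T (Rt e) N, hne, add_zero, add_zero] at b2
  rw [ip_add] at a1
  rw [ip_add, ip_add] at a2 b2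
  have hpos := Rt_pos hM hx hf
  rcases a0 with a0 | a0 | a0
  · rcases a2 with a2 | a2 | a2
    · apply hf2; linarith
    · rcases a1 with a1 | a1 | a1 <;> first | (exfalso; apply hf2; linarith) | (exfalso; linarith) | skip
    · have := b0.1 a0
      have := b2.2 a2
      apply hf1; linarith
  · rcases a2 with a2 | a2 | a2
    · rcases a1 with a1 | a1 | a1 <;> first | (exfalso; apply hf2; linarith) | (exfalso; linarith) | skip
    · apply hf2; linarith
    · rcases a1 with a1 | a1 | a1 <;> first | (exfalso; apply hf2; linarith) | (exfalso; linarith) | skip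
  · rcases a2 with a2 | a2 | a2
    · have := b0.2 a0
      have := b2.1 a2
      apply hf1; linarith
    · rcases a1 with a1 | a1 | a1 <;> first | (exfalso; apply hf2; linarith) | (exfalso; linarith) | skip
    · apply hf2; linarith

end Run7.h226.Wts
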