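import Pool.Agent.Run7.h226.Dcp

/-!
# Bad elements in all ideals contradict the alternating form
-/

set_option linter.unusedSectionVars false

namespace Run7.h226.Wts

open Matrix Pool.Agent.N996.BP Pool.Agent.N996.FP ComplexOrder

variable {ι : Type} [Fintype ι] [DecidableEq ι] {h : Submodule ℂ (Matrix ι ι ℂ)}
  {V : Submodule ℂ (ι → ℂ)} {x : Matrix ι ι ℂ} {𝔞 𝔰 : Submodule ℂ (Matrix ι ι ℂ)}

/-- The algebra generated by a space of matrices. -/
def alg (𝔞 : Submodule ℂ (Matrix ι ι ℂ)) : Subalgebra ℂ (Matrix ι ι ℂ) :=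
  Algebra.adjoin ℂ (𝔞 : Set (Matrix ι ι ℂ))

lemma sub_alg {z : Matrix ι ι ℂ} (hz : z ∈ 𝔞) : z ∈ alg 𝔞 := Algebra.subset_adjoin hz

lemma alg_stab (hM : Mdl h V) (ha : 𝔞 ≤ h) {b : Matrix ι ι ℂ} (hb : b ∈ alg 𝔞) :
    ∀ v ∈ V, b *ᵥ v ∈ V := by
  rw [alg] at hb
  induction hb using Algebra.adjoin_induction with
  | mem z hz => exact hM.stab z (ha hz)
  | algebraMap r =>
    intro v hv
    rw [Algebra.algebraMap_eq_smul_one, Matrix.smul_mulVec, Matrix.one_mulVec]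
    exact V.smul_mem r hv
  | add u w _ _ hu hw =>
    intro v hv
    rw [Matrix.add_mulVec]
    exact V.add_mem (hu v hv) (hw v hv)
  | mul u w _ _ hu hw =>
    intro v hv
    rw [← Matrix.mulVec_mulVec]
    exact hu _ (hw v hv)

/-- Commuting spaces generate commuting algebras. -/
lemma alg_comm (hc : ∀ a ∈ 𝔞, ∀ s ∈ 𝔰, a * s = s * a) {b c : Matrix ι ι ℂ} (hb : b ∈ alg 𝔞)
    (hc' : c ∈ alg 𝔰) : b * c = c * b := by
  have h1 : ∀ a ∈ 𝔞, a * c = c * a := by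
    intro a ha
    rw [alg] at hc'
    induction hc' using Algebra.adjoin_induction with
    | mem z hz => exact hc a ha z hz
    | algebraMap r =>
      rw [Algebra.algebraMap_eq_smul_one, Matrix.smul_mul, Matrix.mul_smul, Matrix.one_mul,
        Matrix.mul_one]
    | add u w _ _ hu hw => rw [Matrix.mul_add, Matrix.add_mul, hu, hw]
    | mul u w _ _ hu hw => rw [← Matrix.mul_assoc, hu, Matrix.mul_assoc, hw, Matrix.mul_assoc]
  rw [alg] at hb
  induction hb using Algebra.adjoin_induction with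
  | mem z hz => exact h1 z hz
  | algebraMap r =>
    rw [Algebra.algebraMap_eq_smul_one, Matrix.smul_mul, Matrix.mul_smul, Matrix.one_mul,
      Matrix.mul_one]
  | add u w _ _ hu hw => rw [Matrix.mul_add, Matrix.add_mul, hu, hw]
  | mul u w _ _ hu hw => rw [Matrix.mul_assoc, hw, ← Matrix.mul_assoc, hu, Matrix.mul_assoc]

/-- The algebra generated by two commuting spaces. -/
lemma alg_sup (hc : ∀ a ∈ 𝔞, ∀ s ∈ 𝔰, a * s = s * a) {b : Matrix ι ι ℂ} (hb : b ∈ alg (𝔰 ⊔ 𝔞)) :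
    b ∈ Submodule.span ℂ {z | ∃ s ∈ alg 𝔰, ∃ a ∈ alg 𝔞, z = s * a} := by
  rw [alg] at hb
  induction hb using Algebra.adjoin_induction with
  | mem z hz =>
    obtain ⟨s, hs, a, ha, rfl⟩ := Submodule.mem_sup.1 hz
    refine Submodule.add_mem _ ?_ ?_
    · exact Submodule.subset_span ⟨s, sub_alg hs, 1, Subalgebra.one_mem _, by rw [Matrix.mul_one]⟩
    · exact Submodule.subset_span ⟨1, Subalgebra.one_mem _, a, sub_alg ha, by rw [Matrix.one_mul]⟩
  | algebraMap r =>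
    rw [Algebra.algebraMap_eq_smul_one]
    refine Submodule.smul_mem _ r ?_
    exact Submodule.subset_span ⟨1, Subalgebra.one_mem _, 1, Subalgebra.one_mem _,
      by rw [Matrix.one_mul]⟩
  | add u w _ _ hu hw => exact Submodule.add_mem _ hu hw
  | mul u w hu' hw' hu hw =>
    clear hu' hw'
    induction hu using Submodule.span_induction with
    | mem u hu =>
      obtain ⟨s, hs, a, ha, rfl⟩ := hu
      induction hw using Submodule.span_induction with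
      | mem w hw =>
        obtain ⟨s', hs', a', ha', rfl⟩ := hw
        refine Submodule.subset_span ⟨s * s', Subalgebra.mul_mem _ hs hs', a * a',
          Subalgebra.mul_mem _ ha ha', ?_⟩
        calc s * a * (s' * a') = s * (a * s') * a' := by simp only [Matrix.mul_assoc]
          _ = s * (s' * a) * a' := by rw [alg_comm hc ha hs']
          _ = _ := by simp only [Matrix.mul_assoc]
      | zero => rw [Matrix.mul_zero]; exact Submodule.zero_mem _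
      | add p q _ _ hp hq => rw [Matrix.mul_add]; exact Submodule.add_mem _ hp hq
      | smul r p _ hp => rw [Matrix.mul_smul]; exact Submodule.smul_mem _ r hp
    | zero => rw [Matrix.zero_mul]; exact Submodule.zero_mem _
    | add p q _ _ hp hq => rw [Matrix.add_mul]; exact Submodule.add_mem _ hp hq
    | smul r p _ hp => rw [Matrix.smul_mul]; exact Submodule.smul_mem _ r hp

/-- The alternating form. -/
structure Alt (h : Submodule ℂ (Matrix ι ι ℂ)) (V : Submodule ℂ (ι → ℂ))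
    (Q Q' : Matrix ι ι ℂ) : Prop where
  inv : Q * Q' = 1
  skew : ∀ z ∈ h, z * Q + Q * zᵀ = 0
  alt : ∀ v ∈ V, v ⬝ᵥ (Q' *ᵥ v) = 0
  nd : ∀ w ∈ V, w ≠ 0 → ∃ v ∈ V, w ⬝ᵥ (Q' *ᵥ v) ≠ 0

/-- Good pairs. -/
structure Good (h : Submodule ℂ (Matrix ι ι ℂ)) (V : Submodule ℂ (ι → ℂ)) (Q : Matrix ι ι ℂ)
    (𝔰 : Submodule ℂ (Matrix ι ι ℂ)) (G : Matrix ι ι ℂ) : Prop where
  id : IsId h 𝔰
  mem : G ∈ alg 𝔰
  ne : ∃ v ∈ V, G *ᵥ v ≠ 0
  one : ∀ b ∈ alg 𝔰, ∃ c : ℂ, ∀ v ∈ V, G *ᵥ (b *ᵥ (G *ᵥ v)) = c • (G *ᵥ v)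
  adj : G * Q = Q * Gᵀ

variable {Q Q' : Matrix ι ι ℂ}

lemma sup_id (h1 : IsId h 𝔰) (h2 : IsId h 𝔞) : IsId h (𝔰 ⊔ 𝔞) where
  le := sup_le h1.le h2.le
  lb z hz w hw := by
    obtain ⟨s, hs, a, ha, rfl⟩ := Submodule.mem_sup.1 hw
    rw [br_add_right]
    exact Submodule.add_mem _ (Submodule.mem_sup_left (h1.lb z hz s hs))
      (Submodule.mem_sup_right (h2.lb z hz a ha))

lemma inf_id (h1 : IsId h 𝔰) (h2 : IsId h 𝔞) : IsId h (𝔰 ⊓ 𝔞) where
  le := inf_le_left.trans h1.le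
  lb z hz w hw := ⟨h1.lb z hz w hw.1, h2.lb z hz w hw.2⟩

lemma comm_of_sim (hM : Mdl h V) (h1 : IsId h 𝔰) (h2 : IsSim h 𝔞) (hn : ¬ 𝔞 ≤ 𝔰) :
    ∀ a ∈ 𝔞, ∀ s ∈ 𝔰, a * s = s * a := by
  have h3 : 𝔰 ⊓ 𝔞 = ⊥ := by
    by_contra h0
    have := h2.sim (𝔰 ⊓ 𝔞) (inf_id h1 h2.id) inf_le_right h0
    apply hn
    rw [← this]
    exact inf_le_left
  intro a ha s hs
  have h4 : br a s ∈ 𝔰 ⊓ 𝔞 := ⟨h1.lb a (h2.id.le ha) s hs, by
    rw [br_swap]
    exact 𝔞.neg_mem (h2.id.lb s (h1.le hs) a ha)⟩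
  rw [h3, Submodule.mem_bot] at h4
  exact br_eq_zero.1 h4

/-- The step. -/
lemma Good.step (hM : Mdl h V) (hA : Alt h V Q Q') {G : Matrix ι ι ℂ} (hG : Good h V Q 𝔰 G)
    (ha : IsSim h 𝔞) {f f' : Matrix ι ι ℂ} (hf : Bad V 𝔞 f f') (hn : ¬ 𝔞 ≤ 𝔰) :
    Good h V Q (𝔰 ⊔ 𝔞) (G * (f * f')) := by
  have hc := comm_of_sim hM hG.id ha hn
  have hFa : f * f' ∈ alg 𝔞 := Subalgebra.mul_mem _ (sub_alg hf.f1) (sub_alg hf.f2)
  have hle1 : ∀ {b : Matrix ι ι ℂ}, b ∈ alg 𝔰 → b ∈ alg (𝔰 ⊔ 𝔞) := fun hb =>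
    Algebra.adjoin_mono (fun z hz => Submodule.mem_sup_left hz) hb
  have hle2 : ∀ {b : Matrix ι ι ℂ}, b ∈ alg 𝔞 → b ∈ alg (𝔰 ⊔ 𝔞) := fun hb =>
    Algebra.adjoin_mono (fun z hz => Submodule.mem_sup_right hz) hb
  have hFG : (f * f') * G = G * (f * f') := alg_comm hc hFa hG.mem
  have hstG : ∀ v ∈ V, G *ᵥ v ∈ V := alg_stab hM hG.id.le hG.mem
  have hstF : ∀ v ∈ V, (f * f') *ᵥ v ∈ V := alg_stab hM ha.id.le hFa
  refine ⟨sup_id hG.id ha.id, Subalgebra.mul_mem _ (hle1 hG.mem) (hle2 hFa), ?_, ?_, ?_⟩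
  · -- nonvanishing
    by_contra hcon
    push Not at hcon
    let Y : Submodule ℂ (ι → ℂ) :=
      { carrier := {w | w ∈ V ∧ (f * f') *ᵥ w = 0}
        add_mem' := by
          rintro u w ⟨hu, hu'⟩ ⟨hw, hw'⟩
          exact ⟨V.add_mem hu hw, by rw [Matrix.mulVec_add, hu', hw', add_zero]⟩
        zero_mem' := ⟨V.zero_mem, Matrix.mulVec_zero _⟩
        smul_mem' := by
          rintro r w ⟨hw, hw'⟩
          exact ⟨V.smul_mem r hw, by rw [Matrix.mulVec_smul, hw', smul_zero]⟩ }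
    have hYV : Y = V := by
      refine burn hM ha.id (Y := Y) (W₀ := V.map (Matrix.mulVecLin G)) (fun w hw => hw.1) ?_ ?_ ?_ ?_
      · rintro b hb w ⟨hw, hw'⟩
        refine ⟨hM.stab b hb.1 w hw, ?_⟩
        have h1 : (f * f') * b = b * (f * f') :=
          alg_comm (𝔞 := 𝔞) (𝔰 := cpl h 𝔞) (fun a haa s hs => cpl_comm hM ha.id haa hs) hFa
            (sub_alg hb)
        rw [Matrix.mulVec_mulVec, h1, ← Matrix.mulVec_mulVec, hw', Matrix.mulVec_zero]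
      · rintro _ ⟨v, hv, rfl⟩
        refine ⟨hstG v hv, ?_⟩
        change (f * f') *ᵥ (G *ᵥ v) = 0
        rw [Matrix.mulVec_mulVec, hFG]
        exact hcon v hv
      · rintro a haa _ ⟨v, hv, rfl⟩
        refine ⟨a *ᵥ v, hM.stab a (ha.id.le haa) v hv, ?_⟩
        change G *ᵥ (a *ᵥ v) = a *ᵥ (G *ᵥ v)
        rw [Matrix.mulVec_mulVec, Matrix.mulVec_mulVec, alg_comm hc (sub_alg haa) hG.mem]
      · obtain ⟨v, hv, hv0⟩ := hG.ne
        intro h0
        have h1 : G *ᵥ v ∈ V.map (Matrix.mulVecLin G) := ⟨v, hv, rfl⟩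
        rw [h0, Submodule.mem_bot] at h1
        exact hv0 h1
    obtain ⟨v, hv, hv0⟩ := hf.ne
    rw [← hYV] at hv
    exact hv0 hv.2
  · intro b hb
    have h1 := alg_sup hc hb
    induction h1 using Submodule.span_induction with
    | mem b hb' =>
      obtain ⟨s, hs, a, haa, rfl⟩ := hb'
      obtain ⟨c, hc1⟩ := hG.one s hs
      obtain ⟨d, hd1⟩ := hf.one a haa
      refine ⟨c * d, fun v hv => ?_⟩
      have e1 : (f * f') * s = s * (f * f') := alg_comm hc hFa hs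
      have e2 : a * G = G * a := alg_comm hc haa hG.mem
      have e3 : G * (f * f') * (s * a) * (G * (f * f')) =
          (G * s * G) * ((f * f') * a * (f * f')) := by
        calc G * (f * f') * (s * a) * (G * (f * f')) =
            G * ((f * f') * s) * (a * G) * (f * f') := by simp only [Matrix.mul_assoc]
          _ = G * s * ((f * f') * G) * a * (f * f') := by
              rw [e1, e2]; simp only [Matrix.mul_assoc]
          _ = _ := by rw [hFG]; simp only [Matrix.mul_assoc]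
      have e4 : (G * (f * f')) *ᵥ ((s * a) *ᵥ ((G * (f * f')) *ᵥ v)) =
          (G * (f * f') * (s * a) * (G * (f * f'))) *ᵥ v := by
        rw [Matrix.mulVec_mulVec, Matrix.mulVec_mulVec, Matrix.mul_assoc]
      rw [e4, e3, ← Matrix.mulVec_mulVec]
      have e5 : ((f * f') * a * (f * f')) *ᵥ v = d • ((f * f') *ᵥ v) := by
        rw [← hd1 v hv, Matrix.mulVec_mulVec, Matrix.mulVec_mulVec, Matrix.mul_assoc]
      have e6 : ∀ w ∈ V, (G * s * G) *ᵥ w = c • (G *ᵥ w) := fun w hw => by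
        rw [← hc1 w hw, Matrix.mulVec_mulVec, Matrix.mulVec_mulVec, Matrix.mul_assoc]
      rw [e5, e6 _ (V.smul_mem d (hstF v hv)), Matrix.mulVec_smul, smul_smul,
        Matrix.mulVec_mulVec]
    | zero =>
      exact ⟨0, fun v hv => by rw [Matrix.zero_mulVec, Matrix.mulVec_zero, zero_smul]⟩
    | add p q hp' hq' hp hq =>
      have hmem : ∀ {b : Matrix ι ι ℂ}, b ∈ Submodule.span ℂ {z | ∃ s ∈ alg 𝔰, ∃ a ∈ alg 𝔞,
          z = s * a} → b ∈ alg (𝔰 ⊔ 𝔞) := by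
        intro b hb
        refine (Submodule.span_le.2 ?_ : _ ≤ Subalgebra.toSubmodule (alg (𝔰 ⊔ 𝔞))) hb
        rintro _ ⟨s, hs, a, ha, rfl⟩
        exact Subalgebra.mul_mem _ (hle1 hs) (hle2 ha)
      obtain ⟨c, hc1⟩ := hp (hmem hp')
      obtain ⟨d, hd1⟩ := hq (hmem hq')
      refine ⟨c + d, fun v hv => ?_⟩
      rw [Matrix.add_mulVec, Matrix.mulVec_add, hc1 v hv, hd1 v hv, add_smul]
    | smul r p hp' hp =>
      have hmem : ∀ {b : Matrix ι ι ℂ}, b ∈ Submodule.span ℂ {z | ∃ s ∈ alg 𝔰, ∃ a ∈ alg 𝔞,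
          z = s * a} → b ∈ alg (𝔰 ⊔ 𝔞) := by
        intro b hb
        refine (Submodule.span_le.2 ?_ : _ ≤ Subalgebra.toSubmodule (alg (𝔰 ⊔ 𝔞))) hb
        rintro _ ⟨s, hs, a, ha, rfl⟩
        exact Subalgebra.mul_mem _ (hle1 hs) (hle2 ha)
      obtain ⟨c, hc1⟩ := hp (hmem hp')
      refine ⟨r * c, fun v hv => ?_⟩
      rw [Matrix.smul_mulVec, Matrix.mulVec_smul, hc1 v hv, mul_smul]
  · have e1 : f * f' * Q = Q * (f * f')ᵀ := by
      have h1 : f * Q = -(Q * fᵀ) := eq_neg_of_add_eq_zero_left (hA.skew f (ha.id.le hf.f1))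
      have h2 : f' * Q = -(Q * f'ᵀ) := eq_neg_of_add_eq_zero_left (hA.skew f' (ha.id.le hf.f2))
      calc f * f' * Q = f * (f' * Q) := by rw [Matrix.mul_assoc]
        _ = -((f * Q) * f'ᵀ) := by rw [h2, Matrix.mul_neg, Matrix.mul_assoc]
        _ = Q * (fᵀ * f'ᵀ) := by rw [h1, Matrix.neg_mul, neg_neg, Matrix.mul_assoc]
        _ = Q * (f' * f)ᵀ := by rw [Matrix.transpose_mul]
        _ = _ := by rw [hf.comm]
    calc G * (f * f') * Q = G * (f * f' * Q) := by rw [Matrix.mul_assoc]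
      _ = (G * Q) * (f * f')ᵀ := by rw [e1, Matrix.mul_assoc]
      _ = Q * (Gᵀ * (f * f')ᵀ) := by rw [hG.adj, Matrix.mul_assoc]
      _ = Q * ((f * f') * G)ᵀ := by rw [Matrix.transpose_mul (f * f') G]
      _ = _ := by rw [hFG]

/-- Good elements for the whole Lie algebra do not exist. -/
lemma Good.absurd (hM : Mdl h V) (hA : Alt h V Q Q') {G : Matrix ι ι ℂ} (hG : Good h V Q h G) :
    False := by
  obtain ⟨u, hu, hGu⟩ := hG.ne
  have hst : ∀ v ∈ V, G *ᵥ v ∈ V := alg_stab hM le_rfl hG.mem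
  -- irreducibility
  have hirr : (Submodule.map (LinearMap.applyₗ (R := ℂ) (G *ᵥ u) ∘ₗ Matrix.mulVecBilin ℂ ℂ)
      (Subalgebra.toSubmodule (alg h))) = V := by
    refine hM.irr _ ?_ ?_ ?_
    · rintro _ ⟨b, hb, rfl⟩
      exact alg_stab hM le_rfl hb _ (hst u hu)
    · rintro z hz _ ⟨b, hb, rfl⟩
      refine ⟨z * b, Subalgebra.mul_mem _ (sub_alg hz) hb, ?_⟩
      exact (Matrix.mulVec_mulVec _ _ _).symm
    · intro h0
      have h1 : G *ᵥ u ∈ (Submodule.map (LinearMap.applyₗ (R := ℂ) (G *ᵥ u) ∘ₗ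
          Matrix.mulVecBilin ℂ ℂ) (Subalgebra.toSubmodule (alg h))) :=
        ⟨1, Subalgebra.one_mem _, Matrix.one_mulVec _⟩
      rw [h0, Submodule.mem_bot] at h1
      exact hGu h1
  have hrank : ∀ v ∈ V, ∃ c : ℂ, G *ᵥ v = c • (G *ᵥ u) := by
    intro v hv
    rw [← hirr] at hv
    obtain ⟨b, hb, hbv⟩ := hv
    obtain ⟨c, hc⟩ := hG.one b hb
    refine ⟨c, ?_⟩
    rw [← hc u hu, ← hbv]
    rfl
  -- the form
  have hQQ : Q' * Q = 1 := mul_eq_one_comm.1 hA.inv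
  have hadj : Q' * G = Gᵀ * Q' := by
    calc Q' * G = Q' * (G * Q) * Q' := by
          rw [Matrix.mul_assoc, Matrix.mul_assoc, hA.inv, Matrix.mul_one]
      _ = (Q' * Q) * Gᵀ * Q' := by rw [hG.adj]; simp only [Matrix.mul_assoc]
      _ = _ := by rw [hQQ, Matrix.one_mul]
  have hB : ∀ a b : ι → ℂ, a ⬝ᵥ (Q' *ᵥ (G *ᵥ b)) = (G *ᵥ a) ⬝ᵥ (Q' *ᵥ b) := by
    intro a b
    rw [Matrix.mulVec_mulVec, hadj, ← Matrix.mulVec_mulVec, Matrix.dotProduct_mulVec,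
      Matrix.vecMul_transpose]
  have hsk : ∀ a ∈ V, ∀ b ∈ V, a ⬝ᵥ (Q' *ᵥ b) = -(b ⬝ᵥ (Q' *ᵥ a)) := by
    intro a ha b hb
    have h1 := hA.alt (a + b) (V.add_mem ha hb)
    rw [Matrix.mulVec_add, add_dotProduct, dotProduct_add, dotProduct_add, hA.alt a ha,
      hA.alt b hb, zero_add, add_zero] at h1
    exact eq_neg_of_add_eq_zero_left h1
  obtain ⟨w, hw⟩ : ∃ w, w = G *ᵥ u := ⟨_, rfl⟩
  rw [← hw] at hGu hrank
  have hwV : w ∈ V := by rw [hw]; exact hst u hu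
  obtain ⟨v, hv, hwv⟩ := hA.nd w hwV hGu
  -- the product vanishes
  have hprod : ∀ a ∈ V, ∀ c : ℂ, G *ᵥ a = c • w → c * (w ⬝ᵥ (Q' *ᵥ a)) = 0 := by
    intro a ha c hc
    have h1 := hB a a
    rw [hc, Matrix.mulVec_smul, dotProduct_smul, smul_dotProduct, hsk a ha w hwV] at h1
    rw [smul_eq_mul, smul_eq_mul, mul_neg] at h1
    have h2 : 2 * (c * (w ⬝ᵥ (Q' *ᵥ a))) = 0 := by
      rw [two_mul]
      nth_rewrite 1 [← h1]
      ring
    rcases mul_eq_zero.1 h2 with h3 | h3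
    · norm_num at h3
    · exact h3
  obtain ⟨c, hc⟩ := hrank v hv
  have h1 := hprod v hv c hc
  have hc0 : c = 0 := by
    rcases mul_eq_zero.1 h1 with h2 | h2
    · exact h2
    · exact (hwv h2).elim
  have h2 := hprod u hu 1 (by rw [one_smul, hw])
  rw [one_mul] at h2
  have h3 := hprod (u + v) (V.add_mem hu hv) 1 (by
    rw [Matrix.mulVec_add, hc, hc0, zero_smul, add_zero, one_smul, hw])
  rw [one_mul, Matrix.mulVec_add, dotProduct_add, h2, zero_add] at h3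
  exact hwv h3

/-- **Bad elements in all ideals are impossible.** -/
theorem no_bads (hM : Mdl h V) (hA : Alt h V Q Q')
    {I : Set (Submodule ℂ (Matrix ι ι ℂ))} (hI : ∀ 𝔞 ∈ I, IsSim h 𝔞 ∧ ∃ f f', Bad V 𝔞 f f')
    (hI0 : ∀ z ∈ h, (∀ 𝔞 ∈ I, z ∈ cpl h 𝔞) → z = 0) : False := by
  have hbot : IsId h ⊥ := ⟨bot_le, fun z _ a ha => by
    rw [Submodule.mem_bot] at ha ⊢
    rw [ha, br_zero_right]⟩
  have hstart : Good h V Q ⊥ 1 := by
    refine ⟨hbot, Subalgebra.one_mem _, ?_, ?_, ?_⟩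
    · obtain ⟨v, hv, hv0⟩ := (Submodule.ne_bot_iff _).1 hM.ne
      exact ⟨v, hv, by rw [Matrix.one_mulVec]; exact hv0⟩
    · intro b hb
      rw [alg] at hb
      have h1 : ∃ c : ℂ, b = c • (1 : Matrix ι ι ℂ) := by
        induction hb using Algebra.adjoin_induction with
        | mem z hz => exact ⟨0, by rw [zero_smul]; exact (Submodule.mem_bot ℂ).1 hz⟩
        | algebraMap r => exact ⟨r, Algebra.algebraMap_eq_smul_one r⟩
        | add u w _ _ hu hw =>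
          obtain ⟨c, rfl⟩ := hu
          obtain ⟨d, rfl⟩ := hw
          exact ⟨c + d, by rw [add_smul]⟩
        | mul u w _ _ hu hw =>
          obtain ⟨c, rfl⟩ := hu
          obtain ⟨d, rfl⟩ := hw
          exact ⟨c * d, by rw [Matrix.smul_mul, Matrix.one_mul, smul_smul]⟩
      obtain ⟨c, rfl⟩ := h1
      refine ⟨c, fun v _ => ?_⟩
      rw [Matrix.one_mulVec, Matrix.one_mulVec, Matrix.smul_mulVec, Matrix.one_mulVec]
    · rw [Matrix.transpose_one, Matrix.one_mul, Matrix.mul_one]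
  obtain ⟨𝔰, ⟨G, hG⟩, hmax⟩ := set_has_maximal_iff_noetherian.2
    (inferInstance : IsNoetherian ℂ (Matrix ι ι ℂ)) {𝔰 | ∃ G, Good h V Q 𝔰 G} ⟨⊥, 1, hstart⟩
  have hall : ∀ 𝔞 ∈ I, 𝔞 ≤ 𝔰 := by
    intro 𝔞 ha
    by_contra hn
    obtain ⟨hs, f, f', hf⟩ := hI 𝔞 ha
    have h1 := hG.step hM hA hs hf hn
    refine hmax (𝔰 ⊔ 𝔞) ⟨_, h1⟩ ?_
    refine lt_of_le_of_ne le_sup_left ?_
    intro h2
    apply hn
    rw [h2]
    exact le_sup_right
  have hh : 𝔰 = h := by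
    apply le_antisymm hG.id.le
    intro z hz
    obtain ⟨a, ha, b, hb, rfl⟩ := cpl_dec hG.id hz
    have : b = 0 := hI0 b hb.1 fun 𝔞 h𝔞 => ⟨hb.1, fun c hc => hb.2 c (hall 𝔞 h𝔞 hc)⟩
    rw [this, add_zero]
    exact ha
  rw [hh] at hG
  exact hG.absurd hM hA

end Run7.h226.Wts
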