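import Pool.Agent.Run7.h226.Star

/-!
# The two outcomes
-/

set_option linter.unusedSectionVars false

namespace Run7.h226.Wts

open Matrix Pool.Agent.N996.BP Pool.Agent.N996.FP ComplexOrder

variable {ι : Type} [Fintype ι] [DecidableEq ι] {h : Submodule ℂ (Matrix ι ι ℂ)}
  {V : Submodule ℂ (ι → ℂ)} {x y g N S : Matrix ι ι ℂ} {𝔞 𝔟 : Submodule ℂ (Matrix ι ι ℂ)}
  {n : ℕ}

/-- **The first outcome.** -/
theorem out1 (hM : Mdl h V) (hx : IsReg h x) (G : Gd n h V x y g) (ha : IsId h 𝔞)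
    (hS : IsTop h x V S) (hfix : ∀ T ∈ wts h x V, T - S ∈ 𝔞 → g * T * gᴴ = T) :
    y - x ∈ cpl h 𝔞 := by
  have hz : y - x ∈ h := h.sub_mem G.C.mem hx.mem
  obtain ⟨z₁, hz₁, z₂, hz₂, hzz⟩ := cpl_dec ha hz
  have hxz : x * (y - x) = (y - x) * x := by
    rw [Matrix.mul_sub, Matrix.sub_mul, G.C.comm]
  obtain ⟨hc1, hc2⟩ := dec_comm hM ha hx.mem hz₁ hz₂ hzz hxz
  have hzH : (y - x)ᴴ = y - x := by rw [Matrix.conjTranspose_sub, G.C.herm, hx.herm]
  obtain ⟨hz₁H, hz₂H⟩ := dec_herm hM ha hzH hz₁ hz₂ hzz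
  -- the submodule
  obtain ⟨W₀, hW₀⟩ : ∃ W₀ : Submodule ℂ (ι → ℂ), W₀ = Submodule.span ℂ
      {v | v ∈ V ∧ ∃ T, T - S ∈ 𝔞 ∧ IsWt h x v T} := ⟨_, rfl⟩
  have hW₀V : W₀ ≤ V := by
    rw [hW₀]
    exact Submodule.span_le.2 fun v hv => hv.1
  have hst : ∀ a ∈ 𝔞, ∀ v ∈ W₀, a *ᵥ v ∈ W₀ := by
    intro a haa v hv
    rw [hW₀] at hv
    induction hv using Submodule.span_induction with
    | mem v hv =>
      obtain ⟨hv, T, hTS, hT⟩ := hv
      refine ad_ind hx.herm (h := 𝔞) (fun z hz => ha.lb x hx.mem z hz)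
        (P := fun a => a *ᵥ v ∈ W₀) (by rw [Matrix.zero_mulVec]; exact W₀.zero_mem)
        (fun z w hz hw => by rw [Matrix.add_mulVec]; exact W₀.add_mem hz hw) ?_ haa
      intro d z hz hd
      by_cases hd0 : d = 0
      · have h1 : z ∈ ct h x := ⟨ha.le hz, by
          have : x * z - z * x = 0 := by rw [hd, hd0, Complex.ofReal_zero, zero_smul]
          exact sub_eq_zero.1 this⟩
        rw [hT.val z h1, hW₀]
        exact Submodule.smul_mem _ _ (Submodule.subset_span ⟨hv, T, hTS, hT⟩)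
      by_cases hz0 : z = 0
      · rw [hz0, Matrix.zero_mulVec]; exact W₀.zero_mem
      have hrv : IsRV h x z := ⟨ha.le hz, hz0, d, hd0, hd⟩
      rw [hW₀]
      refine Submodule.subset_span ⟨hM.stab z (ha.le hz) v hv, T + Rt z, ?_,
        wt_root hM hx hT hrv⟩
      have : T + Rt z - S = (T - S) + Rt z := by abel
      rw [this]
      exact 𝔞.add_mem hTS (Rt_mem hM ha hz)
    | zero => rw [Matrix.mulVec_zero]; exact W₀.zero_mem
    | add u w _ _ hu hw => rw [Matrix.mulVec_add]; exact W₀.add_mem hu hw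
    | smul r u _ hu => rw [Matrix.mulVec_smul]; exact W₀.smul_mem r hu
  have hval : ∀ v ∈ W₀, z₁ *ᵥ v = (-(ip S z₂ : ℂ)) • v := by
    intro v hv
    rw [hW₀] at hv
    induction hv using Submodule.span_induction with
    | mem v hv =>
      obtain ⟨hv, T, hTS, hT⟩ := hv
      by_cases hv0 : v = 0
      · rw [hv0, Matrix.mulVec_zero, smul_zero]
      have h1 := hfix T ⟨v, hv, hv0, hT⟩ hTS
      have h2 : ip T y = ip T x := by
        nth_rewrite 1 [← h1]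
        rw [G.hy, ip_conj G.u2]
      have h3 : (y - x) *ᵥ v = 0 := by
        rw [Matrix.sub_mulVec, wt_y G.C hT, wt_x hx hT, h2, sub_self]
      have h4 : z₂ *ᵥ v = (ip S z₂ : ℂ) • v := by
        rw [hT.val z₂ ⟨hz₂.1, hc2⟩, tr_ip hT.herm hz₂H]
        have h5 : ip (T - S) z₂ = 0 := by
          refine cpl_ip hTS ?_ hz₂
          rw [Matrix.conjTranspose_sub, hT.herm, wts_herm hS.mem]
        rw [ip_sub] at h5
        rw [sub_eq_zero.1 h5]
      have h5 : z₁ *ᵥ v = (y - x) *ᵥ v - z₂ *ᵥ v := by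
        rw [hzz, Matrix.add_mulVec]; abel
      rw [h5, h3, h4, zero_sub, neg_smul]
    | zero => rw [Matrix.mulVec_zero, smul_zero]
    | add u w _ _ hu hw => rw [Matrix.mulVec_add, hu, hw, smul_add]
    | smul r u _ hu => rw [Matrix.mulVec_smul, hu, smul_comm]
  let Y : Submodule ℂ (ι → ℂ) :=
    { carrier := {w | w ∈ V ∧ z₁ *ᵥ w = (-(ip S z₂ : ℂ)) • w}
      add_mem' := by
        rintro u w ⟨hu, hu'⟩ ⟨hw, hw'⟩
        exact ⟨V.add_mem hu hw, by rw [Matrix.mulVec_add, hu', hw', smul_add]⟩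
      zero_mem' := ⟨V.zero_mem, by simp⟩
      smul_mem' := by
        rintro r w ⟨hw, hw'⟩
        exact ⟨V.smul_mem r hw, by rw [Matrix.mulVec_smul, hw', smul_comm]⟩ }
  have hYV : Y = V := by
    refine burn hM ha (Y := Y) (W₀ := W₀) (fun w hw => hw.1) ?_ (fun v hv => ⟨hW₀V hv, hval v hv⟩)
      hst ?_
    · rintro b hb w ⟨hw, hw'⟩
      refine ⟨hM.stab b hb.1 w hw, ?_⟩
      rw [Matrix.mulVec_mulVec, cpl_comm hM ha hz₁ hb, ← Matrix.mulVec_mulVec, hw',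
        Matrix.mulVec_smul]
    · obtain ⟨v, hv, hv0, hvS⟩ := hS.mem
      intro h0
      have h1 : v ∈ W₀ := by
        rw [hW₀]
        exact Submodule.subset_span ⟨hv, S, by rw [sub_self]; exact 𝔞.zero_mem, hvS⟩
      rw [h0, Submodule.mem_bot] at h1
      exact hv0 h1
  have hz₁0 : z₁ = 0 := by
    refine scal_zero hM (ha.le hz₁) (c := -(ip S z₂ : ℂ)) fun v hv => ?_
    rw [← hYV] at hv
    exact hv.2
  rw [hzz, hz₁0, zero_add]
  exact hz₂

/-- Elements of the Cartan subalgebra of the ideal orthogonal to the simple roots vanish. -/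
lemma orth_zero (hM : Mdl h V) (hx : IsReg h x) (ha : IsId h 𝔞) {q : Matrix ι ι ℂ}
    (hq : q ∈ 𝔞) (hqH : qᴴ = q) (hqx : x * q = q * x)
    (h0 : ∀ ε ∈ srt h 𝔞 x, ip ε q = 0) : q = 0 := by
  have hqc : q ∈ ct h x := ⟨ha.le hq, hqx⟩
  have hid : IsId h (Submodule.span ℂ {q}) := by
    refine ⟨(Submodule.span_singleton_le_iff_mem _ _).2 (ha.le hq), ?_⟩
    refine gen_simple hM hx ?_ ?_ ?_
    · intro z hz
      obtain ⟨c, rfl⟩ := Submodule.mem_span_singleton.1 hz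
      rw [Matrix.conjTranspose_smul, hqH]
      exact Submodule.smul_mem _ _ (Submodule.mem_span_singleton_self q)
    · intro t ht z hz
      obtain ⟨c, rfl⟩ := Submodule.mem_span_singleton.1 hz
      have h1 : t * q = q * t := hx.comm hM.la.star ht.1 ht.2 hqx
      rw [br_smul_right, br_eq_zero.2 h1, smul_zero]
      exact Submodule.zero_mem _
    · intro a hs e he hea z hz
      obtain ⟨c, rfl⟩ := Submodule.mem_span_singleton.1 hz
      have h1 : br e q = 0 := by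
        by_cases he0 : e = 0
        · rw [he0, br_zero_left]
        rcases root_dich hM hx ha hs.pos.ne' he hea with h2 | h2
        · have hrv := simple_rv hs he hea he0
          rw [br_swap, hrv.val hM.la hx hqc, tr_ip (hrv.herm hM.la hx) hqH,
            h0 _ ⟨a, e, hs, he, h2, hea, he0, rfl⟩, Complex.ofReal_zero, zero_smul, neg_zero]
        · rw [br_swap, br_eq_zero.2 (cpl_comm hM ha hq h2), neg_zero]
      rw [br_smul_right, h1, smul_zero]
      exact Submodule.zero_mem _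
  have h1 := perf hM hid (Submodule.mem_span_singleton_self q)
  have h2 : Submodule.span ℂ {z : Matrix ι ι ℂ | ∃ a ∈ Submodule.span ℂ {q},
      ∃ b ∈ Submodule.span ℂ {q}, z = br a b} ≤ ⊥ := by
    refine Submodule.span_le.2 ?_
    rintro _ ⟨a, haa, b, hb, rfl⟩
    obtain ⟨c, rfl⟩ := Submodule.mem_span_singleton.1 haa
    obtain ⟨d, rfl⟩ := Submodule.mem_span_singleton.1 hb
    rw [br_smul_right, br_smul_left, br_eq_zero.2 rfl, smul_zero, smul_zero]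
    exact Submodule.zero_mem _
  exact (Submodule.mem_bot ℂ).1 (h2 h1)

/-- The components of the weights in the ideal have the same length. -/
lemma eq_len (hM : Mdl h V) (hx : IsReg h x) (hI : IsInv h V N) (hNc : N ∈ ct h x)
    (hS : IsTop h x V S) {S₁ : Matrix ι ι ℂ} (hS₁ : S₁ ∈ gen h N)
    (hS₂ : S - S₁ ∈ cpl h (gen h N)) :
    ∀ T ∈ wts h x V, ∀ T₁ ∈ gen h N, T - T₁ ∈ cpl h (gen h N) → ip T₁ T₁ = ip S₁ S₁ := by
  have hid := gen_id hM hI.mem
  by_contra hcon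
  push Not at hcon
  have hfin : {T | T ∈ wts h x V ∧ ∃ T₁ ∈ gen h N, T - T₁ ∈ cpl h (gen h N) ∧
      ip T₁ T₁ ≠ ip S₁ S₁}.Finite := (wts_finite hM hx).subset fun T hT => hT.1
  obtain ⟨T', hT', T₁', hT₁', hd', hne'⟩ := hcon
  obtain ⟨T, ⟨hT, T₁, hT₁, hd, hne⟩, hmax⟩ := Set.exists_max_image _ (fun T => ip T x) hfin
    ⟨T', hT', T₁', hT₁', hd', hne'⟩
  have hTS : T ≠ S := by
    rintro rfl
    apply hne
    have h1 := dec_uniq hT₁ hd hS₁ hS₂ (by abel)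
    rw [h1.1]
  have hTw := hT
  obtain ⟨v, hv, hv0, hvT⟩ := hT
  obtain ⟨a, e, hs, he, hea, hev⟩ := exists_up hM hx hS hv hv0 hvT hTS
  have he0 : e ≠ 0 := by rintro rfl; exact hev (Matrix.zero_mulVec v)
  have hrv := simple_rv hs he hea he0
  have hup := wt_root_mem hM hx hv hvT hrv hev
  have hval := rv_val hM hx hrv hea
  have hlt : ip T x < ip (T + Rt e) x := by
    rw [ip_add, hval]; have := hs.pos; linarith
  have hgood : ∀ U₁ ∈ gen h N, T + Rt e - U₁ ∈ cpl h (gen h N) → ip U₁ U₁ = ip S₁ S₁ := by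
    intro U₁ hU₁ hU
    by_contra h1
    exact absurd (hmax (T + Rt e) ⟨hup, U₁, hU₁, hU, h1⟩) (not_le.2 hlt)
  apply hne
  rcases root_dich hM hx hid hs.pos.ne' he hea with h4 | h4
  · have hR : Rt e ∈ gen h N := Rt_mem hM hid h4
    have h5 := hgood (T₁ + Rt e) (Submodule.add_mem _ hT₁ hR) (by
      have : T + Rt e - (T₁ + Rt e) = T - T₁ := by abel
      rw [this]; exact hd)
    have h6 := (A5 hM hx hrv (sq0 hM hx hI hNc hrv h4) hTw).2 hup
    have h7 : ip (T - T₁) (Rt e) = 0 := by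
      rw [ip_comm]; exact cpl_ip hR (hrv.herm hM.la hx) hd
    rw [ip_sub] at h7
    rw [ip_add, ip_add', ip_add', ip_comm (Rt e) T₁] at h5
    linarith
  · have hR : Rt e ∈ cpl h (gen h N) := Rt_mem hM (cpl_id hM hid) h4
    refine hgood T₁ hT₁ ?_
    have : T + Rt e - T₁ = (T - T₁) + Rt e := by abel
    rw [this]
    exact Submodule.add_mem _ hd hR

/-- The weights in direction `t`. -/
structure Ext (h : Submodule ℂ (Matrix ι ι ℂ)) (V : Submodule ℂ (ι → ℂ)) (x : Matrix ι ι ℂ)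
    (𝔞 : Submodule ℂ (Matrix ι ι ℂ)) (t : Matrix ι ι ℂ) (m : ℝ) : Prop where
  mem : t ∈ 𝔞
  herm : tᴴ = t
  comm : x * t = t * x
  le : ∀ T ∈ wts h x V, ip T t ≤ m
  eq : ∀ T ∈ wts h x V, ip T t = m → T - t ∈ cpl h 𝔞

lemma mk_Ext (hM : Mdl h V) (hx : IsReg h x) (hI : IsInv h V N) (hNc : N ∈ ct h x)
    (hS : IsTop h x V S) {t T₀ : Matrix ι ι ℂ} (ht : t ∈ gen h N) (htH : tᴴ = t)
    (htx : x * t = t * x) (hT₀ : T₀ ∈ wts h x V) (h0 : T₀ - t ∈ cpl h (gen h N)) :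
    Ext h V x (gen h N) t (ip t t) := by
  have hid := gen_id hM hI.mem
  obtain ⟨S₁, hS₁, S₂, hS₂, hSS⟩ := cpl_dec hid (wts_ct hS.mem).1
  have hS₂' : S - S₁ ∈ cpl h (gen h N) := by
    rw [hSS, add_sub_cancel_left]; exact hS₂
  have hlen := eq_len hM hx hI hNc hS hS₁ hS₂'
  have h1 := hlen T₀ hT₀ t ht h0
  have key : ∀ T ∈ wts h x V, ∀ T₁ ∈ gen h N, T - T₁ ∈ cpl h (gen h N) → T₁ᴴ = T₁ →
      ip T t = ip T₁ t ∧ ip (T₁ - t) (T₁ - t) = 2 * (ip t t - ip T t) := by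
    intro T hT T₁ hT₁ hd hT₁H
    have h2 : ip (T - T₁) t = 0 := by
      rw [ip_comm]; exact cpl_ip ht htH hd
    rw [ip_sub] at h2
    have h3 := hlen T hT T₁ hT₁ hd
    refine ⟨by linarith, ?_⟩
    rw [ip_sub, ip_sub', ip_sub', ip_comm t T₁]
    linarith
  have hcomp : ∀ T ∈ wts h x V, ∃ T₁ ∈ gen h N, T - T₁ ∈ cpl h (gen h N) ∧ T₁ᴴ = T₁ := by
    intro T hT
    obtain ⟨T₁, hT₁, T₂, hT₂, hTT⟩ := cpl_dec hid (wts_ct hT).1
    obtain ⟨h2, _⟩ := dec_herm hM hid (wts_herm hT) hT₁ hT₂ hTT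
    exact ⟨T₁, hT₁, by rw [hTT, add_sub_cancel_left]; exact hT₂, h2⟩
  refine ⟨ht, htH, htx, ?_, ?_⟩
  · intro T hT
    obtain ⟨T₁, hT₁, hd, hT₁H⟩ := hcomp T hT
    obtain ⟨h2, h3⟩ := key T hT T₁ hT₁ hd hT₁H
    by_cases h4 : T₁ - t = 0
    · rw [h4, ip_zero] at h3; linarith
    · have := ip_self_pos (A := T₁ - t) (by rw [Matrix.conjTranspose_sub, hT₁H, htH]) h4
      linarith
  · intro T hT hm
    obtain ⟨T₁, hT₁, hd, hT₁H⟩ := hcomp T hT
    obtain ⟨h2, h3⟩ := key T hT T₁ hT₁ hd hT₁H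
    have h4 : T₁ - t = 0 := by
      by_contra h4
      have := ip_self_pos (A := T₁ - t) (by rw [Matrix.conjTranspose_sub, hT₁H, htH]) h4
      linarith
    rw [← sub_eq_zero.1 h4]
    exact hd

namespace Ext

variable {t : Matrix ι ι ℂ} {m : ℝ} (E : Ext h V x 𝔞 t m)

include E

lemma tct (ha : IsId h 𝔞) : t ∈ ct h x := ⟨ha.le E.mem, E.comm⟩

lemma wt_val (ha : IsId h 𝔞) {v : ι → ℂ} {T : Matrix ι ι ℂ} (hT : IsWt h x v T) :
    t *ᵥ v = (ip T t : ℂ) • v := by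
  rw [hT.val t (E.tct ha), tr_ip hT.herm E.herm]

/-- Induction on the weight vectors of the extreme eigenspace. -/
lemma ind (hM : Mdl h V) (hx : IsReg h x) (ha : IsId h 𝔞) {P : (ι → ℂ) → Prop} (h0 : P 0)
    (hadd : ∀ v w, P v → P w → P (v + w))
    (he : ∀ v ∈ V, v ≠ 0 → ∀ T, IsWt h x v T → ip T t = m → P v) {v : ι → ℂ} (hv : v ∈ V)
    (hm : t *ᵥ v = (m : ℂ) • v) : P v := by
  let W : Submodule ℂ (ι → ℂ) :=
    { carrier := {w | w ∈ V ∧ t *ᵥ w = (m : ℂ) • w}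
      add_mem' := by
        rintro u w ⟨hu, hu'⟩ ⟨hw, hw'⟩
        exact ⟨V.add_mem hu hw, by rw [Matrix.mulVec_add, hu', hw', smul_add]⟩
      zero_mem' := ⟨V.zero_mem, by simp⟩
      smul_mem' := by
        rintro r w ⟨hw, hw'⟩
        exact ⟨V.smul_mem r hw, by rw [Matrix.mulVec_smul, hw', smul_comm]⟩ }
  refine wt_ind hM hx (W := W) ?_ h0 hadd ?_ (show v ∈ W from ⟨hv, hm⟩)
  · rintro v ⟨hv, hm⟩
    refine ⟨hM.stab x hx.mem v hv, ?_⟩
    rw [Matrix.mulVec_mulVec, ← E.comm, ← Matrix.mulVec_mulVec, hm, Matrix.mulVec_smul]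
  · rintro v ⟨hv, hm⟩ hv0 T hT
    refine he v hv hv0 T hT ?_
    have h1 := E.wt_val ha hT
    rw [hm] at h1
    have h2 : ((m : ℂ) - ip T t) • v = 0 := by rw [sub_smul, h1, sub_self]
    rcases smul_eq_zero.1 h2 with h3 | h3
    · have := sub_eq_zero.1 h3
      exact_mod_cast this.symm
    · exact absurd h3 hv0

/-- The action of the nonnegative part on the extreme eigenspace. -/
lemma act0 (hM : Mdl h V) (hx : IsReg h x) (ha : IsId h 𝔞) {d : ℝ} (hd : 0 ≤ d)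
    {z : Matrix ι ι ℂ} (hz : z ∈ 𝔞) (hzd : z ∈ EA t d) :
    ∃ c : ℂ, ∀ v ∈ V, t *ᵥ v = (m : ℂ) • v → z *ᵥ v = c • v := by
  refine ad_ind hx.herm (h := 𝔞 ⊓ EA t d) ?_
    (P := fun z => ∃ c : ℂ, ∀ v ∈ V, t *ᵥ v = (m : ℂ) • v → z *ᵥ v = c • v) ?_ ?_ ?_
    (show z ∈ 𝔞 ⊓ EA t d from ⟨hz, hzd⟩)
  · rintro z ⟨hz, hzd⟩
    exact ⟨ha.lb x hx.mem z hz, EA_stable E.comm.symm d z hzd⟩
  · exact ⟨0, fun v _ _ => by rw [Matrix.zero_mulVec, zero_smul]⟩
  · rintro z w ⟨c, hc⟩ ⟨c', hc'⟩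
    exact ⟨c + c', fun v hv hm => by rw [Matrix.add_mulVec, hc v hv hm, hc' v hv hm, add_smul]⟩
  rintro s z ⟨hz, hzd⟩ hs
  by_cases hz0 : z = 0
  · exact ⟨0, fun v _ _ => by rw [hz0, Matrix.zero_mulVec, zero_smul]⟩
  by_cases hs0 : s = 0
  · refine ⟨(t * z).trace, fun v hv hm => ?_⟩
    have hzc : z ∈ ct h x := ⟨ha.le hz, by
      have : x * z - z * x = 0 := by rw [hs, hs0, Complex.ofReal_zero, zero_smul]
      exact sub_eq_zero.1 this⟩
    refine E.ind hM hx ha (P := fun v => z *ᵥ v = (t * z).trace • v)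
      (by rw [Matrix.mulVec_zero, smul_zero])
      (fun v w hv hw => by rw [Matrix.mulVec_add, hv, hw, smul_add]) ?_ hv hm
    intro v hv hv0 T hT hTm
    have h1 := E.eq T ⟨v, hv, hv0, hT⟩ hTm
    have h2 := h1.2 zᴴ (ha.star hM hz)
    rw [Matrix.conjTranspose_conjTranspose, Matrix.mul_sub, Matrix.trace_sub, sub_eq_zero] at h2
    rw [hT.val z hzc, Matrix.trace_mul_comm, h2, Matrix.trace_mul_comm]
  · refine ⟨0, fun v hv hm => ?_⟩
    have hrv : IsRV h x z := ⟨ha.le hz, hz0, s, hs0, hs⟩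
    have hval : ip (Rt z) t = d := by
      have h1 := hrv.val hM.la hx (E.tct ha)
      rw [tr_ip (hrv.herm hM.la hx) E.herm] at h1
      have h2 : br t z = (d : ℂ) • z := hzd
      rw [h2] at h1
      have h3 : ((d : ℂ) - ip (Rt z) t) • z = 0 := by rw [sub_smul, h1, sub_self]
      rcases smul_eq_zero.1 h3 with h4 | h4
      · have := sub_eq_zero.1 h4
        exact_mod_cast this.symm
      · exact absurd h4 hz0
    refine E.ind hM hx ha (P := fun v => z *ᵥ v = (0 : ℂ) • v)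
      (by rw [Matrix.mulVec_zero, smul_zero])
      (fun v w hv hw => by rw [Matrix.mulVec_add, hv, hw, smul_add]) ?_ hv hm
    intro v hv hv0 T hT hTm
    rw [zero_smul]
    by_contra hne
    have hup := wt_root_mem hM hx hv hT hrv hne
    have h1 := E.le _ hup
    rw [ip_add, hTm, hval] at h1
    have hd0 : d = 0 := by linarith
    have h2 := E.eq _ hup (by rw [ip_add, hTm, hval, hd0, add_zero])
    have h3 := E.eq T ⟨v, hv, hv0, hT⟩ hTm
    have h4 : Rt z ∈ cpl h 𝔞 := by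
      have := Submodule.sub_mem _ h2 h3
      have e1 : T + Rt z - t - (T - t) = Rt z := by abel
      rwa [e1] at this
    exact hrv.Rt_ne hM.la hx (cpl_disj (Rt_mem hM ha hz) h4)

end Ext

/-- The matrices which kill the extreme eigenspace. -/
def kil (V : Submodule ℂ (ι → ℂ)) (t : Matrix ι ι ℂ) (m : ℝ) : Submodule ℂ (Matrix ι ι ℂ) where
  carrier := {k | ∀ v ∈ V, t *ᵥ v = (m : ℂ) • v → k *ᵥ v = 0}
  add_mem' {a b} ha hb v hv hm := by rw [Matrix.add_mulVec, ha v hv hm, hb v hv hm, add_zero]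
  zero_mem' v _ _ := Matrix.zero_mulVec v
  smul_mem' c a ha v hv hm := by rw [Matrix.smul_mulVec, ha v hv hm, smul_zero]

/-- The matrices generated by lowering operators. -/
def lwm (V : Submodule ℂ (ι → ℂ)) (𝔞 : Submodule ℂ (Matrix ι ι ℂ)) (t : Matrix ι ι ℂ) (m : ℝ) :
    Submodule ℂ (Matrix ι ι ℂ) :=
  sInf {W | kil V t m ≤ W ∧ 1 ∈ W ∧ ∀ a : ℝ, a < 0 → ∀ e ∈ 𝔞, e ∈ EA t a → ∀ k ∈ W, e * k ∈ W}

lemma lwm_le {t : Matrix ι ι ℂ} {m : ℝ} {W : Submodule ℂ (Matrix ι ι ℂ)} (h1 : kil V t m ≤ W)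
    (h2 : 1 ∈ W) (h3 : ∀ a : ℝ, a < 0 → ∀ e ∈ 𝔞, e ∈ EA t a → ∀ k ∈ W, e * k ∈ W) :
    lwm V 𝔞 t m ≤ W := sInf_le ⟨h1, h2, h3⟩

lemma kil_le_lwm {t : Matrix ι ι ℂ} {m : ℝ} : kil V t m ≤ lwm V 𝔞 t m :=
  le_sInf fun _ hW => hW.1

lemma one_mem_lwm {t : Matrix ι ι ℂ} {m : ℝ} : (1 : Matrix ι ι ℂ) ∈ lwm V 𝔞 t m := by
  rw [lwm, Submodule.mem_sInf]
  exact fun W hW => hW.2.1

lemma lwm_step {t : Matrix ι ι ℂ} {m : ℝ} {a : ℝ} (ha : a < 0) {e : Matrix ι ι ℂ} (he : e ∈ 𝔞)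
    (hea : e ∈ EA t a) {k : Matrix ι ι ℂ} (hk : k ∈ lwm V 𝔞 t m) : e * k ∈ lwm V 𝔞 t m := by
  rw [lwm, Submodule.mem_sInf] at hk ⊢
  exact fun W hW => hW.2.2 a ha e he hea k (hk W hW)

namespace Ext

variable {t : Matrix ι ι ℂ} {m : ℝ} (E : Ext h V x 𝔞 t m)

include E

lemma lwm_mul (hM : Mdl h V) (hx : IsReg h x) (ha : IsId h 𝔞) :
    ∀ z ∈ 𝔞, ∀ k ∈ lwm V 𝔞 t m, z * k ∈ lwm V 𝔞 t m := by
  have hla := ha.la hM
  -- the nonnegative part
  have hnn : ∀ k ∈ lwm V 𝔞 t m, ∀ d : ℝ, 0 ≤ d → ∀ z ∈ 𝔞, z ∈ EA t d →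
      z * k ∈ lwm V 𝔞 t m := by
    let W : Submodule ℂ (Matrix ι ι ℂ) :=
      { carrier := {k | k ∈ lwm V 𝔞 t m ∧ ∀ d : ℝ, 0 ≤ d → ∀ z ∈ 𝔞, z ∈ EA t d →
          z * k ∈ lwm V 𝔞 t m}
        add_mem' := by
          rintro u w ⟨hu, hu'⟩ ⟨hw, hw'⟩
          refine ⟨Submodule.add_mem _ hu hw, fun d hd z hz hzd => ?_⟩
          rw [Matrix.mul_add]
          exact Submodule.add_mem _ (hu' d hd z hz hzd) (hw' d hd z hz hzd)
        zero_mem' := ⟨Submodule.zero_mem _, fun d hd z hz hzd => by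
          rw [Matrix.mul_zero]; exact Submodule.zero_mem _⟩
        smul_mem' := by
          rintro r w ⟨hw, hw'⟩
          refine ⟨Submodule.smul_mem _ r hw, fun d hd z hz hzd => ?_⟩
          rw [Matrix.mul_smul]
          exact Submodule.smul_mem _ r (hw' d hd z hz hzd) }
    have hW : lwm V 𝔞 t m ≤ W := by
      refine lwm_le ?_ ?_ ?_
      · intro k hk
        refine ⟨kil_le_lwm hk, fun d hd z hz hzd => kil_le_lwm ?_⟩
        intro v hv hm
        rw [← Matrix.mulVec_mulVec, hk v hv hm, Matrix.mulVec_zero]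
      · refine ⟨one_mem_lwm, fun d hd z hz hzd => ?_⟩
        obtain ⟨c, hc⟩ := E.act0 hM hx ha hd hz hzd
        have h1 : z - c • (1 : Matrix ι ι ℂ) ∈ lwm V 𝔞 t m := by
          refine kil_le_lwm ?_
          intro v hv hm
          rw [Matrix.sub_mulVec, hc v hv hm, Matrix.smul_mulVec, Matrix.one_mulVec, sub_self]
        have h2 := Submodule.add_mem _ h1 (Submodule.smul_mem _ c
          (one_mem_lwm (V := V) (𝔞 := 𝔞) (t := t) (m := m)))
        rw [sub_add_cancel] at h2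
        rw [Matrix.mul_one]
        exact h2
      · rintro a ha' e he hea k ⟨hk, hk'⟩
        refine ⟨lwm_step ha' he hea hk, fun d hd z hz hzd => ?_⟩
        have e1 : z * (e * k) = e * (z * k) + br z e * k := by
          rw [br, Matrix.sub_mul, Matrix.mul_assoc, Matrix.mul_assoc]; abel
        rw [e1]
        refine Submodule.add_mem _ (lwm_step ha' he hea (hk' d hd z hz hzd)) ?_
        have h2 : br z e ∈ EA t ((d + a : ℝ) : ℂ) := by
          have := EA_br hzd hea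
          rwa [← Complex.ofReal_add] at this
        have h3 : br z e ∈ 𝔞 := hla.lie z hz e he
        rcases lt_or_ge (d + a) 0 with h4 | h4
        · exact lwm_step h4 h3 h2 hk
        · exact hk' (d + a) h4 _ h3 h2
    exact fun k hk => (hW hk).2
  intro z hz k hk
  refine ad_ind E.herm (h := 𝔞) (fun z hz => hla.lie t E.mem z hz)
    (P := fun z => z * k ∈ lwm V 𝔞 t m) (by rw [Matrix.zero_mul]; exact Submodule.zero_mem _)
    (fun z w hz hw => by rw [Matrix.add_mul]; exact Submodule.add_mem _ hz hw) ?_ hz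
  intro d z hz hd
  rcases lt_or_ge d 0 with h4 | h4
  · exact lwm_step h4 hz hd hk
  · exact hnn k hk d h4 z hz hd

lemma adj_mem (hM : Mdl h V) (hx : IsReg h x) (ha : IsId h 𝔞) {b : Matrix ι ι ℂ}
    (hb : b ∈ Algebra.adjoin ℂ (𝔞 : Set (Matrix ι ι ℂ))) : b ∈ lwm V 𝔞 t m := by
  have key : ∀ k ∈ lwm V 𝔞 t m, b * k ∈ lwm V 𝔞 t m := by
    induction hb using Algebra.adjoin_induction with
    | mem z hz => exact E.lwm_mul hM hx ha z hz
    | algebraMap r =>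
      intro k hk
      rw [Algebra.algebraMap_eq_smul_one, Matrix.smul_mul, Matrix.one_mul]
      exact Submodule.smul_mem _ r hk
    | add u w _ _ hu hw =>
      intro k hk
      rw [Matrix.add_mul]
      exact Submodule.add_mem _ (hu k hk) (hw k hk)
    | mul u w _ _ hu hw =>
      intro k hk
      rw [Matrix.mul_assoc]
      exact hu _ (hw k hk)
  have := key 1 one_mem_lwm
  rwa [Matrix.mul_one] at this

end Ext

lemma EA_vec {t e : Matrix ι ι ℂ} {a d : ℝ} (he : e ∈ EA t a) {v : ι → ℂ}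
    (hv : t *ᵥ v = (d : ℂ) • v) : t *ᵥ (e *ᵥ v) = ((d + a : ℝ) : ℂ) • (e *ᵥ v) := by
  have h1 : t * e = e * t + (a : ℂ) • e := by rw [← mem_EA.1 he]; abel
  rw [Matrix.mulVec_mulVec, h1, Matrix.add_mulVec, ← Matrix.mulVec_mulVec, hv,
    Matrix.mulVec_smul, Matrix.smul_mulVec, Complex.ofReal_add, add_smul]

lemma TL_EA {t e : Matrix ι ι ℂ} {a m : ℝ} (ha : a ≤ 0) (he : e ∈ EA t a) {w : ι → ℂ}
    (hw : w ∈ TL t m) : e *ᵥ w ∈ TL t m := by
  rw [TL] at hw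
  induction hw using Submodule.span_induction with
  | mem v hv =>
    obtain ⟨d, hd, hv⟩ := hv
    exact Submodule.subset_span ⟨d + a, by linarith, EA_vec he hv⟩
  | zero => rw [Matrix.mulVec_zero]; exact Submodule.zero_mem _
  | add u w _ _ hu hw => rw [Matrix.mulVec_add]; exact Submodule.add_mem _ hu hw
  | smul r u _ hu => rw [Matrix.mulVec_smul]; exact Submodule.smul_mem _ r hu

lemma lwm_val {t : Matrix ι ι ℂ} {m : ℝ} {k : Matrix ι ι ℂ} (hk : k ∈ lwm V 𝔞 t m) :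
    ∃ c : ℂ, ∀ v ∈ V, t *ᵥ v = (m : ℂ) • v → k *ᵥ v - c • v ∈ TL t m := by
  let W : Submodule ℂ (Matrix ι ι ℂ) :=
    { carrier := {k | ∃ c : ℂ, ∀ v ∈ V, t *ᵥ v = (m : ℂ) • v → k *ᵥ v - c • v ∈ TL t m}
      add_mem' := by
        rintro u w ⟨c, hc⟩ ⟨c', hc'⟩
        refine ⟨c + c', fun v hv hm => ?_⟩
        have : (u + w) *ᵥ v - (c + c') • v = (u *ᵥ v - c • v) + (w *ᵥ v - c' • v) := by
          rw [Matrix.add_mulVec, add_smul]; abel
        rw [this]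
        exact Submodule.add_mem _ (hc v hv hm) (hc' v hv hm)
      zero_mem' := ⟨0, fun v _ _ => by
        rw [Matrix.zero_mulVec, zero_smul, sub_zero]; exact Submodule.zero_mem _⟩
      smul_mem' := by
        rintro r w ⟨c, hc⟩
        refine ⟨r * c, fun v hv hm => ?_⟩
        rw [Matrix.smul_mulVec, mul_smul, ← smul_sub]
        exact Submodule.smul_mem _ r (hc v hv hm) }
  have hW : lwm V 𝔞 t m ≤ W := by
    refine lwm_le ?_ ?_ ?_
    · intro k hk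
      exact ⟨0, fun v hv hm => by
        rw [hk v hv hm, zero_smul, sub_zero]; exact Submodule.zero_mem _⟩
    · exact ⟨1, fun v hv hm => by
        rw [Matrix.one_mulVec, one_smul, sub_self]; exact Submodule.zero_mem _⟩
    · rintro a ha e he hea k ⟨c, hc⟩
      refine ⟨0, fun v hv hm => ?_⟩
      have h1 := TL_EA ha.le hea (hc v hv hm)
      have h2 : e *ᵥ (c • v) ∈ TL t m := by
        rw [Matrix.mulVec_smul]
        exact Submodule.smul_mem _ c (Submodule.subset_span ⟨m + a, by linarith, EA_vec hea hm⟩)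
      have h3 : (e * k) *ᵥ v - (0 : ℂ) • v = e *ᵥ (k *ᵥ v - c • v) + e *ᵥ (c • v) := by
        rw [zero_smul, sub_zero, Matrix.mulVec_sub, sub_add_cancel, Matrix.mulVec_mulVec]
      rw [h3]
      exact Submodule.add_mem _ h1 h2
  exact hW hk

lemma TL_comm {t x : Matrix ι ι ℂ} {m : ℝ} (hx : x * t = t * x) {w : ι → ℂ}
    (hw : w ∈ TL t m) : x *ᵥ w ∈ TL t m := by
  rw [TL] at hw
  induction hw using Submodule.span_induction with
  | mem v hv =>
    obtain ⟨d, hd, hv⟩ := hv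
    refine Submodule.subset_span ⟨d, hd, ?_⟩
    rw [Matrix.mulVec_mulVec, ← hx, ← Matrix.mulVec_mulVec, hv, Matrix.mulVec_smul]
  | zero => rw [Matrix.mulVec_zero]; exact Submodule.zero_mem _
  | add u w _ _ hu hw => rw [Matrix.mulVec_add]; exact Submodule.add_mem _ hu hw
  | smul r u _ hu => rw [Matrix.mulVec_smul]; exact Submodule.smul_mem _ r hu

lemma TL_mono {t : Matrix ι ι ℂ} {m m' : ℝ} (hm : m ≤ m') : TL t m ≤ TL t m' :=
  Submodule.span_mono fun _ ⟨d, hd, hv⟩ => ⟨d, lt_of_lt_of_le hd hm, hv⟩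

/-- The property of the product of two lowering operators. -/
structure Bad (V : Submodule ℂ (ι → ℂ)) (𝔞 : Submodule ℂ (Matrix ι ι ℂ))
    (f f' : Matrix ι ι ℂ) : Prop where
  f1 : f ∈ 𝔞
  f2 : f' ∈ 𝔞
  comm : f * f' = f' * f
  ne : ∃ v ∈ V, (f * f') *ᵥ v ≠ 0
  one : ∀ b ∈ Algebra.adjoin ℂ (𝔞 : Set (Matrix ι ι ℂ)), ∃ c : ℂ, ∀ v ∈ V,
    (f * f') *ᵥ (b *ᵥ ((f * f') *ᵥ v)) = c • ((f * f') *ᵥ v)

/-- **The second outcome.** -/
theorem out2 (hM : Mdl h V) (hx : IsReg h x) (hI : IsInv h V N) (hNc : N ∈ ct h x)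
    (hS : IsTop h x V S) {T₀ β β' : Matrix ι ι ℂ} (hT₀ : T₀ ∈ wts h x V)
    (hβ : β ∈ srt h (gen h N) x) (hβ' : β' ∈ srt h (gen h N) x) (hne : β ≠ β')
    (h1 : ip β β' = 0) (h3 : 2 * ip T₀ β = ip β β)
    (h4 : 2 * ip T₀ β' = ip β' β')
    (h5 : ∀ ε ∈ srt h (gen h N) x, 2 * ip T₀ ε - ip β ε - ip β' ε = 0) :
    ∃ f f', Bad V (gen h N) f f' := by
  have hid := gen_id hM hI.mem
  have hβm := srt_mem hM hid hβ
  have hβm' := srt_mem hM hid hβ'
  have hβH := srt_herm hM hx hβ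
  have hβH' := srt_herm hM hx hβ'
  obtain ⟨a, e, hs, he, hea, hex, he0, hβe⟩ := hβ
  obtain ⟨a', e', hs', he', hea', hex', he0', hβe'⟩ := hβ'
  have hrv := simple_rv hs he hex he0
  have hrv' := simple_rv hs' he' hex' he0'
  have hβx : x * β = β * x := by rw [hβe]; exact (hrv.ct hM.la hx).2
  have hβx' : x * β' = β' * x := by rw [hβe']; exact (hrv'.ct hM.la hx).2
  obtain ⟨t, ht⟩ : ∃ t : Matrix ι ι ℂ, t = ((1 / 2 : ℝ)) • (β + β') := ⟨_, rfl⟩
  have htm : t ∈ gen h N := by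
    have e1 : t = ((1 / 2 : ℝ) : ℂ) • (β + β') := by
      rw [ht]; exact (Complex.coe_smul _ _).symm
    rw [e1]
    exact Submodule.smul_mem _ _ (Submodule.add_mem _ hβm hβm')
  have htH : tᴴ = t := by
    rw [ht, Matrix.conjTranspose_smul, Matrix.conjTranspose_add, hβH, hβH', star_trivial]
  have htx : x * t = t * x := by
    rw [ht, Matrix.mul_smul, Matrix.smul_mul, Matrix.mul_add, Matrix.add_mul, hβx, hβx']
  -- the component of `T₀`
  obtain ⟨T₁, hT₁, T₂, hT₂, hTT⟩ := cpl_dec hid (wts_ct hT₀).1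
  obtain ⟨hT₁H, hT₂H⟩ := dec_herm hM hid (wts_herm hT₀) hT₁ hT₂ hTT
  obtain ⟨hT₁x, hT₂x⟩ := dec_comm hM hid hx.mem hT₁ hT₂ hTT (wts_ct hT₀).2
  have hT₁t : T₁ = t := by
    rw [← sub_eq_zero]
    refine orth_zero hM hx hid (Submodule.sub_mem _ hT₁ htm)
      (by rw [Matrix.conjTranspose_sub, hT₁H, htH]) ?_ ?_
    · rw [Matrix.mul_sub, Matrix.sub_mul, hT₁x, htx]
    · intro ε hε
      have h6 : ip ε T₀ = ip ε T₁ := by
        rw [hTT, ip_add', cpl_ip (srt_mem hM hid hε) (srt_herm hM hx hε) hT₂, add_zero]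
      have h7 := h5 ε hε
      rw [ip_sub', ← h6, ht, ip_rsmul', ip_add', ip_comm ε T₀, ip_comm ε β, ip_comm ε β']
      linarith
  have hT₀t : T₀ - t ∈ cpl h (gen h N) := by
    rw [← hT₁t, hTT, add_sub_cancel_left]; exact hT₂
  have E := mk_Ext hM hx hI hNc hS htm htH htx hT₀ hT₀t
  have hm : ip t t = (ip β β + ip β' β') / 4 := by
    rw [ht, ip_rsmul, ip_rsmul', ip_add, ip_add', ip_add', ip_comm β' β, h1]
    ring
  have hSq := sq0 hM hx hI hNc hrv hea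
  have hSq' := sq0 hM hx hI hNc hrv' hea'
  -- `F v ≠ 0` implies the extreme value
  have hval : ∀ v ∈ V, v ≠ 0 → ∀ T, IsWt h x v T → (eᴴ * e'ᴴ) *ᵥ v ≠ 0 →
      ip T t = ip t t := by
    intro v hv hv0 T hT hF
    rw [← Matrix.mulVec_mulVec] at hF
    have h6 : e'ᴴ *ᵥ v ≠ 0 := fun h0 => hF (by rw [h0, Matrix.mulVec_zero])
    have h7 := A1 hM hx hrv' hSq' hv hT h6
    have hT' : IsWt h x (e'ᴴ *ᵥ v) (T - Rt e') := by
      have := wt_root hM hx hT (hrv'.star hM.la hx).1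
      rwa [(hrv'.star hM.la hx).2, ← sub_eq_add_neg] at this
    have h8 := A1 hM hx hrv hSq (hM.stab _ (hM.la.star _ he') v hv) hT' hF
    rw [← hβe, ← hβe', ip_sub, ip_comm β' β, h1, sub_zero] at h8
    rw [← hβe'] at h7
    rw [hm, ht, ip_rsmul', ip_add']
    linarith
  have hsub : gen h N ≤ h := hid.le
  have hF1 : eᴴ ∈ gen h N := hid.star hM hea
  have hF2 : e'ᴴ ∈ gen h N := hid.star hM hea'
  have hFV : ∀ v ∈ V, (eᴴ * e'ᴴ) *ᵥ v ∈ V := fun v hv => by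
    rw [← Matrix.mulVec_mulVec]
    exact hM.stab _ (hM.la.star _ he) _ (hM.stab _ (hM.la.star _ he') v hv)
  -- `F` kills the lower part
  have hkill : ∀ w ∈ V, w ∈ TL t (ip t t) → (eᴴ * e'ᴴ) *ᵥ w = 0 := by
    intro w hw hwT
    refine wt_ind hM hx (W := V ⊓ TL t (ip t t)) ?_
      (P := fun w => (eᴴ * e'ᴴ) *ᵥ w = 0) (Matrix.mulVec_zero _)
      (fun u w hu hw => by rw [Matrix.mulVec_add, hu, hw, add_zero]) ?_
      (show w ∈ V ⊓ TL t (ip t t) from ⟨hw, hwT⟩)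
    · rintro v ⟨hv, hvT⟩
      exact ⟨hM.stab x hx.mem v hv, TL_comm htx hvT⟩
    · rintro v ⟨hv, hvT⟩ hv0 T hT
      by_contra h0
      have h6 := hval v hv hv0 T hT h0
      have h7 := E.wt_val hid hT
      rw [h6] at h7
      exact hv0 (TL_zero hvT h7)
  have hbV : ∀ b ∈ Algebra.adjoin ℂ ((gen h N : Submodule ℂ (Matrix ι ι ℂ)) :
      Set (Matrix ι ι ℂ)), ∀ v ∈ V, b *ᵥ v ∈ V := by
    intro b hb
    induction hb using Algebra.adjoin_induction with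
    | mem z hz => exact hM.stab z (hsub hz)
    | algebraMap r =>
      intro v hv
      rw [Algebra.algebraMap_eq_smul_one, Matrix.smul_mulVec, Matrix.one_mulVec]
      exact V.smul_mem r hv
    | add u w _ _ hu hw =>
      intro v hv
      rw [Matrix.add_mulVec]
      exact V.add_mem (hu v hv) (hw v hv)
    | mul u w _ _ hu hw =>
      intro v hv
      rw [← Matrix.mulVec_mulVec]
      exact hu _ (hw v hv)
  have hvalne : a ≠ a' := by
    rintro rfl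
    obtain ⟨c, hc⟩ := root_unique hM.la hx hs.pos.ne' he hex he0 he' hex'
    have hc0 : c ≠ 0 := by rintro rfl; rw [zero_smul] at hc; exact he0' hc
    rw [hβe, hβe', hc, Rt_smul hc0] at hne
    exact hne rfl
  refine ⟨eᴴ, e'ᴴ, hF1, hF2, ?_, ?_, ?_⟩
  · have h6 : br e e' = 0 := br_orth hM hx hs hs' hvalne he hex he0 he' hex' he0' (by
      rw [← hβe, ← hβe']; exact h1)
    have h7 : (br e e')ᴴ = 0 := by rw [h6, Matrix.conjTranspose_zero]
    rw [br_star] at h7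
    exact (br_eq_zero.1 h7).symm
  · obtain ⟨v, hv, hv0, hvT⟩ := hT₀
    have hpos := Rt_pos hM hx hrv
    have hpos' := Rt_pos hM hx hrv'
    obtain ⟨h6, h7⟩ := move hM.la hx hvT hv0 hrv' (by rw [← hβe'] at hpos' ⊢; linarith)
    obtain ⟨h8, h9⟩ := move hM.la hx h7 h6 hrv (by
      rw [← hβe] at hpos ⊢
      rw [← hβe', ip_sub, ip_comm β' β, h1]; linarith)
    exact ⟨v, hv, by rw [← Matrix.mulVec_mulVec]; exact h8⟩
  · intro b hb
    have hbF : b * (eᴴ * e'ᴴ) ∈ Algebra.adjoin ℂ ((gen h N : Submodule ℂ (Matrix ι ι ℂ)) :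
        Set (Matrix ι ι ℂ)) :=
      Subalgebra.mul_mem _ hb (Subalgebra.mul_mem _ (Algebra.subset_adjoin hF1)
        (Algebra.subset_adjoin hF2))
    obtain ⟨c, hc⟩ := lwm_val (E.adj_mem hM hx hid hbF)
    refine ⟨c, fun v hv => ?_⟩
    refine wt_ind hM hx (W := V) (fun v hv => hM.stab x hx.mem v hv)
      (P := fun v => (eᴴ * e'ᴴ) *ᵥ (b *ᵥ ((eᴴ * e'ᴴ) *ᵥ v)) = c • ((eᴴ * e'ᴴ) *ᵥ v)) ?_ ?_ ?_ hv
    · rw [Matrix.mulVec_zero, Matrix.mulVec_zero, Matrix.mulVec_zero, smul_zero]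
    · intro v w hv hw
      rw [Matrix.mulVec_add, Matrix.mulVec_add, Matrix.mulVec_add, hv, hw, smul_add]
    · intro v hv hv0 T hT
      by_cases h0 : (eᴴ * e'ᴴ) *ᵥ v = 0
      · rw [h0, Matrix.mulVec_zero, Matrix.mulVec_zero, smul_zero]
      have h6 := hval v hv hv0 T hT h0
      have h7 := E.wt_val hid hT
      rw [h6] at h7
      have h8 := hc v hv h7
      have h9 : (b * (eᴴ * e'ᴴ)) *ᵥ v - c • v ∈ V := by
        refine V.sub_mem ?_ (V.smul_mem c hv)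
        rw [← Matrix.mulVec_mulVec]
        exact hbV b hb _ (hFV v hv)
      have h10 := hkill _ h9 h8
      have h11 : (b * (eᴴ * e'ᴴ)) *ᵥ v = b *ᵥ ((eᴴ * e'ᴴ) *ᵥ v) := (Matrix.mulVec_mulVec _ _ _).symm
      rw [Matrix.mulVec_sub, Matrix.mulVec_smul, sub_eq_zero, h11] at h10
      exact h10

end Run7.h226.Wts
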