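import Pool.Agent.Run7.h226.Star
import Pool.Agent.Run7.h226.Comb2

/-!
# The trichotomy
-/

set_option linter.unusedSectionVars false

namespace Run7.h226.Wts

open Matrix Pool.Agent.N996.BP Pool.Agent.N996.FP ComplexOrder

variable {ι : Type} [Fintype ι] [DecidableEq ι] {h : Submodule ℂ (Matrix ι ι ℂ)}
  {V : Submodule ℂ (ι → ℂ)} {x y g N S : Matrix ι ι ℂ} {𝔞 𝔟 : Submodule ℂ (Matrix ι ι ℂ)}
  {n : ℕ}

/-- The weights with the same component in the complement as the highest weight. -/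
def PA (h : Submodule ℂ (Matrix ι ι ℂ)) (x : Matrix ι ι ℂ) (V : Submodule ℂ (ι → ℂ))
    (S : Matrix ι ι ℂ) (𝔞 : Submodule ℂ (Matrix ι ι ℂ)) : Set (Matrix ι ι ℂ) :=
  {T | T ∈ wts h x V ∧ T - S ∈ 𝔞}

/-- A weight which is half the sum of orthogonal simple roots. -/
structure Half (h : Submodule ℂ (Matrix ι ι ℂ)) (x : Matrix ι ι ℂ) (V : Submodule ℂ (ι → ℂ))
    (S : Matrix ι ι ℂ) (𝔞 : Submodule ℂ (Matrix ι ι ℂ)) (T₀ : Matrix ι ι ℂ)
    (D : Finset (Matrix ι ι ℂ)) : Prop where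
  mem : T₀ ∈ PA h x V S 𝔞
  srt : ∀ β ∈ D, β ∈ srt h 𝔞 x
  orth : ∀ β ∈ D, ∀ β' ∈ D, β ≠ β' → ip β β' = 0
  val : ∀ β ∈ D, 2 * ip T₀ β = ip β β
  eq : ∀ ε ∈ Wts.srt h 𝔞 x, 2 * ip T₀ ε = ∑ β ∈ D, ip β ε

variable (hM : Mdl h V) (hx : IsReg h x) (G : Gd n h V x y g) (hI : IsInv h V N)
  (hNc : N ∈ ct h x) (hga : ∀ z ∈ gen h N, g * z * gᴴ ∈ gen h N)
  (hga' : ∀ z ∈ gen h N, gᴴ * z * g ∈ gen h N) (hS : IsTop h x V S)

include hM hx G hI hNc hga hga' hS

/-- **The trichotomy.** -/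
theorem trich (hn : 2 ≤ n) : (∀ T ∈ wts h x V, T - S ∈ gen h N → g * T * gᴴ = T) ∨
    ∃ T₀ D, Half h x V S (gen h N) T₀ D ∧
      (Even D.card ∨ ∃ k : ℕ, 1 ≤ k ∧ D.card = 2 * k + 1 ∧
        (PA h x V S (gen h N)).ncard = Nat.choose (4 * k + 2) (2 * k + 1)) := by
  classical
  have hW := mkWD hM hx G hI hNc hga hga' hS hn
  rcases Comb.trichotomy hW with h1 | ⟨T₀, hT₀, D, h1, h2, h3, h4, h5⟩
  · left
    intro T hT hTS
    have h2 := h1 ⟨T, wts_herm hT⟩ ⟨hT, hTS⟩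
    exact congrArg (fun R : HE ι => (R : Matrix ι ι ℂ)) h2
  · right
    have hinj : Function.Injective (fun R : HE ι => (R : Matrix ι ι ℂ)) := Subtype.val_injective
    refine ⟨T₀, D.map ⟨_, hinj⟩, ⟨hT₀, ?_, ?_, ?_, ?_⟩, ?_⟩
    · intro β hβ
      obtain ⟨γ, hγ, rfl⟩ := Finset.mem_map.1 hβ
      exact h1 γ hγ
    · intro β hβ β' hβ' hne
      obtain ⟨γ, hγ, rfl⟩ := Finset.mem_map.1 hβ
      obtain ⟨γ', hγ', rfl⟩ := Finset.mem_map.1 hβ'
      exact h2 γ hγ γ' hγ' (fun h0 => hne (by rw [h0]))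
    · intro β hβ
      obtain ⟨γ, hγ, rfl⟩ := Finset.mem_map.1 hβ
      exact h3 γ hγ
    · intro ε hε
      rw [Finset.sum_map]
      exact h4 ⟨ε, srt_herm hM hx hε⟩ hε
    · rw [Finset.card_map]
      rcases h5 with h5 | ⟨k, hk, h5, h6⟩
      · exact Or.inl h5
      · right
        refine ⟨k, hk, h5, ?_⟩
        rw [← h6]
        have h7 : PA h x V S (gen h N) = (fun R : HE ι => (R : Matrix ι ι ℂ)) ''
            {T : HE ι | (T : Matrix ι ι ℂ) ∈ wts h x V ∧ (T : Matrix ι ι ℂ) - S ∈ gen h N} := by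
          ext T
          constructor
          · rintro ⟨hT, hTS⟩
            exact ⟨⟨T, wts_herm hT⟩, ⟨hT, hTS⟩, rfl⟩
          · rintro ⟨T, hT, rfl⟩
            exact hT
        rw [h7, Set.ncard_image_of_injective _ hinj]

/-- **The trichotomy with the degree.** -/
theorem trich' (hn : 2 ≤ n) : (∀ T ∈ wts h x V, T - S ∈ gen h N → g * T * gᴴ = T) ∨
    ∃ T₀ D, Half h x V S (gen h N) T₀ D ∧
      (Even D.card ∨ n = 2 ∧ ∃ k : ℕ, 1 ≤ k ∧ D.card = 2 * k + 1 ∧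
        (PA h x V S (gen h N)).ncard = Nat.choose (4 * k + 2) (2 * k + 1)) := by
  classical
  rcases Nat.lt_or_ge n 3 with h3 | h3
  · have h2 : n = 2 := by omega
    rcases trich hM hx G hI hNc hga hga' hS hn with h1 | ⟨T₀, D, h1, h4⟩
    · exact Or.inl h1
    · right
      refine ⟨T₀, D, h1, ?_⟩
      rcases h4 with h4 | h4
      · exact Or.inl h4
      · exact Or.inr ⟨h2, h4⟩
  · rcases dich hM hx G hI hNc hga hga' hS h3 with h1 |
      ⟨T₀, hT₀, hTS, β, hβ, β', hβ', h1, h2, h3, h4, h5, h6⟩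
    · exact Or.inl h1
    · right
      refine ⟨T₀, {β, β'}, ⟨⟨hT₀, hTS⟩, ?_, ?_, ?_, ?_⟩, ?_⟩
      · intro γ hγ
        rw [Finset.mem_insert, Finset.mem_singleton] at hγ
        rcases hγ with rfl | rfl
        · exact hβ
        · exact hβ'
      · intro γ hγ γ' hγ' hne
        rw [Finset.mem_insert, Finset.mem_singleton] at hγ hγ'
        rcases hγ with rfl | rfl <;> rcases hγ' with rfl | rfl
        · exact absurd rfl hne
        · exact h2
        · rw [ip_comm]; exact h2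
        · exact absurd rfl hne
      · intro γ hγ
        rw [Finset.mem_insert, Finset.mem_singleton] at hγ
        rcases hγ with rfl | rfl
        · exact h4
        · exact h5
      · intro ε hε
        have h7 := h6 ε hε
        rw [Finset.sum_pair h1]
        linarith
      · left
        rw [Finset.card_pair h1]
        exact even_two

end Run7.h226.Wts
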