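import Pool.Agent.Run7.h226.Out
import Pool.Agent.Run7.h226.Tri

/-!
# The second outcome for several orthogonal simple roots
-/

set_option linter.unusedSectionVars false

namespace Run7.h226.Wts

open Matrix Pool.Agent.N996.BP Pool.Agent.N996.FP ComplexOrder

variable {ι : Type} [Fintype ι] [DecidableEq ι] {h : Submodule ℂ (Matrix ι ι ℂ)}
  {V : Submodule ℂ (ι → ℂ)} {x y g N S : Matrix ι ι ℂ} {𝔞 𝔟 : Submodule ℂ (Matrix ι ι ℂ)}
  {n : ℕ}

/-- The properties of the product of several lowering operators. -/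
structure BadL (V : Submodule ℂ (ι → ℂ)) (𝔞 : Submodule ℂ (Matrix ι ι ℂ))
    (L : List (Matrix ι ι ℂ)) : Prop where
  mem : ∀ f ∈ L, f ∈ 𝔞
  rev : L.reverse.prod = L.prod
  ne : ∃ v ∈ V, L.prod *ᵥ v ≠ 0
  one : ∀ b ∈ Algebra.adjoin ℂ (𝔞 : Set (Matrix ι ι ℂ)), ∃ c : ℂ, ∀ v ∈ V,
    L.prod *ᵥ (b *ᵥ (L.prod *ᵥ v)) = c • (L.prod *ᵥ v)

/-- The product of the lowering operators. -/
noncomputable def low (Ls : List (Matrix ι ι ℂ)) : Matrix ι ι ℂ := (Ls.map fun e => eᴴ).prod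

/-- Lists of root vectors with square zero to orthogonal roots. -/
structure OL (h : Submodule ℂ (Matrix ι ι ℂ)) (V : Submodule ℂ (ι → ℂ))
    (𝔞 : Submodule ℂ (Matrix ι ι ℂ)) (x : Matrix ι ι ℂ) (Ls : List (Matrix ι ι ℂ)) : Prop where
  mem : ∀ e ∈ Ls, e ∈ 𝔞
  rv : ∀ e ∈ Ls, IsRV h x e
  sq : ∀ e ∈ Ls, Sq0 V e
  orth : Ls.Pairwise fun e e' => ip (Rt e) (Rt e') = 0

lemma low_nil : low ([] : List (Matrix ι ι ℂ)) = 1 := rfl

lemma low_cons (e : Matrix ι ι ℂ) (Ls : List (Matrix ι ι ℂ)) : low (e :: Ls) = eᴴ * low Ls := by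
  rw [low, low, List.map_cons, List.prod_cons]

lemma OL.tail {e : Matrix ι ι ℂ} {Ls : List (Matrix ι ι ℂ)} (O : OL h V 𝔞 x (e :: Ls)) :
    OL h V 𝔞 x Ls where
  mem f hf := O.mem f (List.mem_cons_of_mem _ hf)
  rv f hf := O.rv f (List.mem_cons_of_mem _ hf)
  sq f hf := O.sq f (List.mem_cons_of_mem _ hf)
  orth := (List.pairwise_cons.1 O.orth).2

lemma ip_lsum (Ls : List (Matrix ι ι ℂ)) (A : Matrix ι ι ℂ) :
    (∀ e ∈ Ls, ip A (Rt e) = 0) → ip (Ls.map Rt).sum A = 0 := by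
  induction Ls with
  | nil => intro _; rw [List.map_nil, List.sum_nil, ip_zero]
  | cons e Ls ih =>
    intro h0
    rw [List.map_cons, List.sum_cons, ip_add, ip_comm, h0 e List.mem_cons_self,
      ih fun f hf => h0 f (List.mem_cons_of_mem _ hf), add_zero]

lemma OL.orth_sum {e : Matrix ι ι ℂ} {Ls : List (Matrix ι ι ℂ)} (O : OL h V 𝔞 x (e :: Ls)) :
    ip (Ls.map Rt).sum (Rt e) = 0 :=
  ip_lsum Ls _ (List.pairwise_cons.1 O.orth).1

lemma low_V (hM : Mdl h V) {Ls : List (Matrix ι ι ℂ)} (O : OL h V 𝔞 x Ls) :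
    ∀ v ∈ V, low Ls *ᵥ v ∈ V := by
  induction Ls with
  | nil => intro v hv; rw [low_nil, Matrix.one_mulVec]; exact hv
  | cons e Ls ih =>
    intro v hv
    rw [low_cons, ← Matrix.mulVec_mulVec]
    exact hM.stab _ (hM.la.star _ (O.rv e List.mem_cons_self).mem) _ (ih O.tail v hv)

lemma low_wt (hM : Mdl h V) (hx : IsReg h x) {Ls : List (Matrix ι ι ℂ)} (O : OL h V 𝔞 x Ls)
    {v : ι → ℂ} {T : Matrix ι ι ℂ} (hT : IsWt h x v T) :
    IsWt h x (low Ls *ᵥ v) (T - (Ls.map Rt).sum) := by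
  induction Ls with
  | nil => rw [low_nil, Matrix.one_mulVec, List.map_nil, List.sum_nil, sub_zero]; exact hT
  | cons e Ls ih =>
    have h1 := ih O.tail
    have hs := (O.rv e List.mem_cons_self).star hM.la hx
    have h2 := wt_root hM hx h1 hs.1
    rw [hs.2, ← sub_eq_add_neg] at h2
    rw [low_cons, ← Matrix.mulVec_mulVec, List.map_cons, List.sum_cons]
    have h3 : T - (Rt e + (Ls.map Rt).sum) = T - (Ls.map Rt).sum - Rt e := by abel
    rw [h3]
    exact h2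

lemma low_A1 (hM : Mdl h V) (hx : IsReg h x) {Ls : List (Matrix ι ι ℂ)} (O : OL h V 𝔞 x Ls)
    {v : ι → ℂ} (hv : v ∈ V) {T : Matrix ι ι ℂ} (hT : IsWt h x v T) (hne : low Ls *ᵥ v ≠ 0) :
    ∀ e ∈ Ls, 2 * ip T (Rt e) = ip (Rt e) (Rt e) := by
  induction Ls with
  | nil => intro e he; exact absurd he List.not_mem_nil
  | cons e Ls ih =>
    rw [low_cons, ← Matrix.mulVec_mulVec] at hne
    have h1 : low Ls *ᵥ v ≠ 0 := fun h0 => hne (by rw [h0, Matrix.mulVec_zero])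
    have h2 := ih O.tail h1
    have h3 := A1 hM hx (O.rv e List.mem_cons_self) (O.sq e List.mem_cons_self)
      (low_V hM O.tail v hv) (low_wt hM hx O.tail hT) hne
    rw [ip_sub, O.orth_sum, sub_zero] at h3
    intro f hf
    rcases List.mem_cons.1 hf with rfl | hf
    · exact h3
    · exact h2 f hf

lemma low_ne (hM : Mdl h V) (hx : IsReg h x) {Ls : List (Matrix ι ι ℂ)} (O : OL h V 𝔞 x Ls)
    {v : ι → ℂ} (hv0 : v ≠ 0) {T : Matrix ι ι ℂ} (hT : IsWt h x v T)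
    (he : ∀ e ∈ Ls, 2 * ip T (Rt e) = ip (Rt e) (Rt e)) : low Ls *ᵥ v ≠ 0 := by
  induction Ls with
  | nil => rw [low_nil, Matrix.one_mulVec]; exact hv0
  | cons e Ls ih =>
    have h1 := ih O.tail fun f hf => he f (List.mem_cons_of_mem _ hf)
    have h2 := low_wt hM hx O.tail hT
    have hpos := Rt_pos hM hx (O.rv e List.mem_cons_self)
    have h3 := he e List.mem_cons_self
    rw [low_cons, ← Matrix.mulVec_mulVec]
    exact (move hM.la hx h2 h1 (O.rv e List.mem_cons_self) (by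
      rw [ip_sub, O.orth_sum, sub_zero]; linarith)).1

lemma ip_fsum (D : Finset (Matrix ι ι ℂ)) (A : Matrix ι ι ℂ) :
    ip A (∑ β ∈ D, β) = ∑ β ∈ D, ip A β := by
  classical
  induction D using Finset.induction_on with
  | empty => rw [Finset.sum_empty, Finset.sum_empty, ip_comm, ip_zero]
  | insert a s ha ih => rw [Finset.sum_insert ha, Finset.sum_insert ha, ip_add', ih]

/-- **The second outcome.** -/
theorem outL (hM : Mdl h V) (hx : IsReg h x) (hI : IsInv h V N) (hNc : N ∈ ct h x)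
    (hS : IsTop h x V S) {T₀ : Matrix ι ι ℂ} {D : Finset (Matrix ι ι ℂ)}
    (H : Half h x V S (gen h N) T₀ D) :
    ∃ Ls : List (Matrix ι ι ℂ), OL h V (gen h N) x Ls ∧ Ls.length = D.card ∧
      (∀ e ∈ Ls, Rt e ∈ srt h (gen h N) x ∧ 2 * ip T₀ (Rt e) = ip (Rt e) (Rt e)) ∧
      (∀ v ∈ V, ∀ T, IsWt h x v T → low Ls *ᵥ v ≠ 0 → T - T₀ ∈ cpl h (gen h N)) ∧
      BadL V (gen h N) (Ls.map fun e => eᴴ) := by
  classical
  have hid := gen_id hM hI.mem
  have hT₀ := H.mem.1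
  have hβm : ∀ β ∈ D, β ∈ gen h N := fun β hβ => srt_mem hM hid (H.srt β hβ)
  have hβH : ∀ β ∈ D, βᴴ = β := fun β hβ => srt_herm hM hx (H.srt β hβ)
  have hex : ∀ β ∈ D, ∃ (a : ℝ) (e : Matrix ι ι ℂ), IsSimple h x a ∧ e ∈ h ∧ e ∈ gen h N ∧
      e ∈ EA x a ∧ e ≠ 0 ∧ β = Rt e := fun β hβ => H.srt β hβ
  choose! a e hs he hea hex he0 hβe using hex
  have hrv : ∀ β ∈ D, IsRV h x (e β) := fun β hβ =>
    simple_rv (hs β hβ) (he β hβ) (hex β hβ) (he0 β hβ)
  have hβx : ∀ β ∈ D, x * β = β * x := by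
    intro β hβ
    rw [hβe β hβ]; exact ((hrv β hβ).ct hM.la hx).2
  -- the list
  obtain ⟨Ls, hLs⟩ : ∃ Ls : List (Matrix ι ι ℂ), Ls = D.toList.map e := ⟨_, rfl⟩
  have hLm : ∀ f ∈ Ls, ∃ β ∈ D, f = e β := by
    intro f hf
    rw [hLs, List.mem_map] at hf
    obtain ⟨β, hβ, rfl⟩ := hf
    exact ⟨β, Finset.mem_toList.1 hβ, rfl⟩
  have hO : OL h V (gen h N) x Ls := by
    refine ⟨?_, ?_, ?_, ?_⟩
    · intro f hf
      obtain ⟨β, hβ, rfl⟩ := hLm f hf
      exact hea β hβ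
    · intro f hf
      obtain ⟨β, hβ, rfl⟩ := hLm f hf
      exact hrv β hβ
    · intro f hf
      obtain ⟨β, hβ, rfl⟩ := hLm f hf
      exact sq0 hM hx hI hNc (hrv β hβ) (hea β hβ)
    · rw [hLs, List.pairwise_map]
      refine D.nodup_toList.pairwise_of_forall_ne fun β hβ β' hβ' hne => ?_
      rw [Finset.mem_toList] at hβ hβ'
      rw [← hβe β hβ, ← hβe β' hβ']
      exact H.orth β hβ β' hβ' hne
  have hRt : ∀ f ∈ Ls, Rt f ∈ D := by
    intro f hf
    obtain ⟨β, hβ, rfl⟩ := hLm f hf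
    rw [← hβe β hβ]; exact hβ
  have hall : ∀ T : Matrix ι ι ℂ, (∀ f ∈ Ls, 2 * ip T (Rt f) = ip (Rt f) (Rt f)) →
      ∀ β ∈ D, 2 * ip T β = ip β β := by
    intro T hT β hβ
    have h1 : e β ∈ Ls := by
      rw [hLs]; exact List.mem_map.2 ⟨β, Finset.mem_toList.2 hβ, rfl⟩
    have h2 := hT _ h1
    rwa [← hβe β hβ] at h2
  -- the element `t`
  obtain ⟨t, ht⟩ : ∃ t : Matrix ι ι ℂ, t = ((1 / 2 : ℝ)) • ∑ β ∈ D, β := ⟨_, rfl⟩
  have htm : t ∈ gen h N := by
    have e1 : t = ((1 / 2 : ℝ) : ℂ) • ∑ β ∈ D, β := by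
      rw [ht]; exact (Complex.coe_smul _ _).symm
    rw [e1]
    exact Submodule.smul_mem _ _ (Submodule.sum_mem _ hβm)
  have htH : tᴴ = t := by
    rw [ht, Matrix.conjTranspose_smul, Matrix.conjTranspose_sum, star_trivial,
      Finset.sum_congr rfl hβH]
  have htx : x * t = t * x := by
    rw [ht, Matrix.mul_smul, Matrix.smul_mul, Finset.mul_sum, Finset.sum_mul,
      Finset.sum_congr rfl hβx]
  have hipt : ∀ T : Matrix ι ι ℂ, ip T t = (1 / 2) * ∑ β ∈ D, ip T β := by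
    intro T
    rw [ht, ip_rsmul', ip_fsum]
  -- the component of `T₀`
  obtain ⟨T₁, hT₁, T₂, hT₂, hTT⟩ := cpl_dec hid (wts_ct hT₀).1
  obtain ⟨hT₁H, hT₂H⟩ := dec_herm hM hid (wts_herm hT₀) hT₁ hT₂ hTT
  obtain ⟨hT₁x, hT₂x⟩ := dec_comm hM hid hx.mem hT₁ hT₂ hTT (wts_ct hT₀).2
  have hT₁t : T₁ = t := by
    rw [← sub_eq_zero]
    refine orth_zero hM hx hid (Submodule.sub_mem _ hT₁ htm)
      (by rw [Matrix.conjTranspose_sub, hT₁H, htH]) ?_ ?_
    · rw [Matrix.mul_sub, Matrix.sub_mul, hT₁x, htx]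
    · intro ε hε
      have h6 : ip ε T₀ = ip ε T₁ := by
        rw [hTT, ip_add', cpl_ip (srt_mem hM hid hε) (srt_herm hM hx hε) hT₂, add_zero]
      have h7 := H.eq ε hε
      have h8 : ∑ β ∈ D, ip ε β = ∑ β ∈ D, ip β ε :=
        Finset.sum_congr rfl fun β _ => ip_comm _ _
      rw [ip_sub', ← h6, hipt, ip_comm ε T₀, h8]
      linarith
  have hT₀t : T₀ - t ∈ cpl h (gen h N) := by
    rw [← hT₁t, hTT, add_sub_cancel_left]; exact hT₂
  have E := mk_Ext hM hx hI hNc hS htm htH htx hT₀ hT₀t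
  have hm : ip t t = (∑ β ∈ D, ip β β) / 4 := by
    have h1 : ∀ β ∈ D, ip t β = (1 / 2) * ip β β := by
      intro β hβ
      rw [ip_comm, hipt, Finset.sum_eq_single β]
      · intro γ hγ hne
        exact H.orth β hβ γ hγ (Ne.symm hne)
      · intro h0; exact absurd hβ h0
    rw [hipt, Finset.sum_congr rfl h1, ← Finset.mul_sum]
    ring
  -- `F v ≠ 0` implies the extreme value
  obtain ⟨F, hF⟩ : ∃ F, F = low Ls := ⟨_, rfl⟩
  have hval : ∀ v ∈ V, ∀ T, IsWt h x v T → F *ᵥ v ≠ 0 → ip T t = ip t t := by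
    intro v hv T hT hFv
    rw [hF] at hFv
    have h6 := hall T (low_A1 hM hx hO hv hT hFv)
    have h7 : ∑ β ∈ D, ip T β = (∑ β ∈ D, ip β β) / 2 := by
      rw [Finset.sum_div]
      refine Finset.sum_congr rfl fun β hβ => ?_
      have := h6 β hβ
      linarith
    rw [hm, hipt, h7]
    ring
  have hsub : gen h N ≤ h := hid.le
  have hFV : ∀ v ∈ V, F *ᵥ v ∈ V := by
    rw [hF]
    exact low_V hM hO
  -- `F` kills the lower part
  have hkill : ∀ w ∈ V, w ∈ TL t (ip t t) → F *ᵥ w = 0 := by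
    intro w hw hwT
    refine wt_ind hM hx (W := V ⊓ TL t (ip t t)) ?_
      (P := fun w => F *ᵥ w = 0) (Matrix.mulVec_zero _)
      (fun u w hu hw => by rw [Matrix.mulVec_add, hu, hw, add_zero]) ?_
      (show w ∈ V ⊓ TL t (ip t t) from ⟨hw, hwT⟩)
    · rintro v ⟨hv, hvT⟩
      exact ⟨hM.stab x hx.mem v hv, TL_comm htx hvT⟩
    · rintro v ⟨hv, hvT⟩ hv0 T hT
      by_contra h0
      have h6 := hval v hv T hT h0
      have h7 := E.wt_val hid hT
      rw [h6] at h7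
      exact hv0 (TL_zero hvT h7)
  have hbV : ∀ b ∈ Algebra.adjoin ℂ ((gen h N : Submodule ℂ (Matrix ι ι ℂ)) :
      Set (Matrix ι ι ℂ)), ∀ v ∈ V, b *ᵥ v ∈ V := by
    intro b hb
    induction hb using Algebra.adjoin_induction with
    | mem z hz => exact hM.stab z (hsub hz)
    | algebraMap r =>
      intro v hv
      rw [Algebra.algebraMap_eq_smul_one, Matrix.smul_mulVec, Matrix.one_mulVec]
      exact V.smul_mem r hv
    | add u w _ _ hu hw =>
      intro v hv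
      rw [Matrix.add_mulVec]
      exact V.add_mem (hu v hv) (hw v hv)
    | mul u w _ _ hu hw =>
      intro v hv
      rw [← Matrix.mulVec_mulVec]
      exact hu _ (hw v hv)
  have hFalg : F ∈ Algebra.adjoin ℂ ((gen h N : Submodule ℂ (Matrix ι ι ℂ)) :
      Set (Matrix ι ι ℂ)) := by
    rw [hF]
    refine Subalgebra.list_prod_mem _ fun f hf => ?_
    obtain ⟨f', hf', rfl⟩ := List.mem_map.1 hf
    exact Algebra.subset_adjoin (hid.star hM (hO.mem f' hf'))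
  have hvne : ∀ β ∈ D, ∀ β' ∈ D, β ≠ β' → a β ≠ a β' := by
    intro β hβ β' hβ' hne haa
    obtain ⟨c, hc⟩ := root_unique hM.la hx (hs β hβ).pos.ne' (he β hβ) (hex β hβ) (he0 β hβ)
      (he β' hβ') (by rw [haa]; exact hex β' hβ')
    have hc0 : c ≠ 0 := by rintro rfl; rw [zero_smul] at hc; exact he0 β' hβ' hc
    apply hne
    rw [hβe β hβ, hβe β' hβ', hc, Rt_smul hc0]
  refine ⟨Ls, hO, by rw [hLs, List.length_map, Finset.length_toList], ?_, ?_, ?_, ?_, ?_, ?_⟩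
  · intro f hf
    exact ⟨H.srt _ (hRt f hf), H.val _ (hRt f hf)⟩
  · intro v hv T hT hFv
    rw [← hF] at hFv
    have h1 := hval v hv T hT hFv
    have hv0 : v ≠ 0 := by rintro rfl; exact hFv (Matrix.mulVec_zero _)
    have h2 := E.eq T ⟨v, hv, hv0, hT⟩ h1
    have h3 := Submodule.sub_mem _ h2 hT₀t
    have e1 : T - t - (T₀ - t) = T - T₀ := by abel
    rwa [e1] at h3
  · intro f hf
    obtain ⟨f', hf', rfl⟩ := List.mem_map.1 hf
    exact hid.star hM (hO.mem f' hf')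
  · refine List.Perm.prod_eq' (List.reverse_perm _) ?_
    have h1 : (Ls.map fun e => eᴴ).Pairwise Commute := by
      rw [hLs, List.map_map, List.pairwise_map]
      refine D.nodup_toList.pairwise_of_forall_ne fun β hβ β' hβ' hne => ?_
      rw [Finset.mem_toList] at hβ hβ'
      have h6 : br (e β) (e β') = 0 := br_orth hM hx (hs β hβ) (hs β' hβ')
        (hvne β hβ β' hβ' hne) (he β hβ) (hex β hβ) (he0 β hβ) (he β' hβ') (hex β' hβ')
        (he0 β' hβ') (by rw [← hβe β hβ, ← hβe β' hβ']; exact H.orth β hβ β' hβ' hne)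
      have h7 : (br (e β) (e β'))ᴴ = 0 := by rw [h6, Matrix.conjTranspose_zero]
      rw [br_star] at h7
      exact (br_eq_zero.1 h7).symm
    exact List.pairwise_reverse.2 (h1.imp fun hab => hab.symm)
  · obtain ⟨v, hv, hv0, hvT⟩ := hT₀
    exact ⟨v, hv, low_ne hM hx hO hv0 hvT fun f hf => H.val _ (hRt f hf)⟩
  · intro b hb
    have hFe : (Ls.map fun e => eᴴ).prod = F := by rw [hF, low]
    rw [hFe]
    have hbF := Subalgebra.mul_mem _ hb hFalg
    obtain ⟨c, hc⟩ := lwm_val (E.adj_mem hM hx hid hbF)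
    refine ⟨c, fun v hv => ?_⟩
    refine wt_ind hM hx (W := V) (fun v hv => hM.stab x hx.mem v hv)
      (P := fun v => F *ᵥ (b *ᵥ (F *ᵥ v)) = c • (F *ᵥ v)) ?_ ?_ ?_ hv
    · rw [Matrix.mulVec_zero, Matrix.mulVec_zero, Matrix.mulVec_zero, smul_zero]
    · intro v w hv hw
      rw [Matrix.mulVec_add, Matrix.mulVec_add, Matrix.mulVec_add, hv, hw, smul_add]
    · intro v hv hv0 T hT
      by_cases h0 : F *ᵥ v = 0
      · rw [h0, Matrix.mulVec_zero, Matrix.mulVec_zero, smul_zero]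
      have h6 := hval v hv T hT h0
      have h7 := E.wt_val hid hT
      rw [h6] at h7
      have h8 := hc v hv h7
      have h9 : (b * F) *ᵥ v - c • v ∈ V := by
        refine V.sub_mem ?_ (V.smul_mem c hv)
        rw [← Matrix.mulVec_mulVec]
        exact hbV b hb _ (hFV v hv)
      have h10 := hkill _ h9 h8
      have h11 : (b * F) *ᵥ v = b *ᵥ (F *ᵥ v) := (Matrix.mulVec_mulVec _ _ _).symm
      rw [Matrix.mulVec_sub, Matrix.mulVec_smul, sub_eq_zero, h11] at h10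
      exact h10

end Run7.h226.Wts
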