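import Pool.Agent.N996.FP.Hd

/-!
# Substructures of polarised Hodge structures
-/

set_option linter.unusedSectionVars false

open TensorProduct

namespace Run7.h226.Phs

open Module Matrix ComplexConjugate Pool.Agent.N996.BP
open Pool.Agent.H914 (sig sig_tmul sig_smul)

variable {K : Type} [Field K] [CharZero K] [Algebra K ℂ] {V : Type} [AddCommGroup V] [Module K V]

/-- The inclusion. -/
noncomputable def jU (U : Submodule K V) : ℂ ⊗[K] U →ₗ[ℂ] ℂ ⊗[K] V := U.subtype.baseChange ℂ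

lemma jU_tmul (U : Submodule K V) (z : ℂ) (u : U) : jU U (z ⊗ₜ u) = z ⊗ₜ (u : V) := rfl

lemma jU_inj (U : Submodule K V) : Function.Injective (jU U) := by
  have h := Module.Flat.lTensor_preserves_injective_linearMap (M := ℂ) (U.subtype)
    U.injective_subtype
  exact h

lemma jU_range (U : Submodule K V) {x : ℂ ⊗[K] V} (hx : x ∈ U.baseChange ℂ) : ∃ y, jU U y = x := by
  exact hx

lemma jU_sig (U : Submodule K V) (τ : ℂ ≃ₐ[K] ℂ) (y : ℂ ⊗[K] U) :
    jU U (sig τ y) = sig τ (jU U y) := by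
  refine tmul_ind (P := fun y => jU U (sig τ y) = sig τ (jU U y)) ?_ ?_ y
  · intro z v
    rw [sig_tmul, jU_tmul, jU_tmul, sig_tmul]
  · intro a b ha hb
    rw [map_add, map_add, ha, hb, map_add, map_add]

/-- The induced types. -/
noncomputable def FU (F : ℤ × ℤ → Submodule ℂ (ℂ ⊗[K] V)) (U : Submodule K V) :
    ℤ × ℤ → Submodule ℂ (ℂ ⊗[K] U) := fun r => (F r).comap (jU U)

lemma form_jU (ψ : LinearMap.BilinForm K V) (U : Submodule K V) (x y : ℂ ⊗[K] U) :
    (ψ.restrict U).baseChange ℂ x y = ψ.baseChange ℂ (jU U x) (jU U y) := by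
  refine tmul_ind (P := fun x => (ψ.restrict U).baseChange ℂ x y =
    ψ.baseChange ℂ (jU U x) (jU U y)) ?_ ?_ x
  · intro z v
    refine tmul_ind (P := fun y => (ψ.restrict U).baseChange ℂ (z ⊗ₜ v) y =
      ψ.baseChange ℂ (jU U (z ⊗ₜ v)) (jU U y)) ?_ ?_ y
    · intro z' v'
      rw [jU_tmul, jU_tmul]
      rfl
    · intro a b ha hb
      rw [map_add, map_add, map_add, ha, hb]
  · intro a b ha hb
    rw [map_add, map_add, map_add, LinearMap.add_apply, LinearMap.add_apply, ha, hb]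

/-- Substructures. -/
theorem sub {τ : ℂ ≃ₐ[K] ℂ} {F : ℤ × ℤ → Submodule ℂ (ℂ ⊗[K] V)} {ψ : LinearMap.BilinForm K V}
    {d d' : ℕ} (h : IsPHS τ F ψ d) (U : Submodule K V)
    (hU : ∀ r, ∀ x ∈ U.baseChange ℂ, h.pr r x ∈ U.baseChange ℂ)
    (hr : ∀ p q, ∀ x ∈ U.baseChange ℂ, x ∈ F (p, q) → x ≠ 0 → 0 ≤ p ∧ p ≤ d' ∧ 0 ≤ q ∧ q ≤ d') :
    IsPHS τ (FU F U) (ψ.restrict U) d' where
  rat := h.rat
  tau := h.tau
  int := by
    refine DirectSum.isInternal_submodule_of_iSupIndep_of_iSup_eq_top ?_ ?_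
    · intro r
      rw [Submodule.disjoint_def]
      intro x hx hx'
      have h1 : jU U x ∈ ⨆ s, ⨆ (_ : s ≠ r), F s := by
        have h2 : (⨆ s, ⨆ (_ : s ≠ r), FU F U s) ≤ (⨆ s, ⨆ (_ : s ≠ r), F s).comap (jU U) := by
          refine iSup₂_le fun s hs y hy => ?_
          exact Submodule.mem_iSup_of_mem s (Submodule.mem_iSup_of_mem hs hy)
        exact h2 hx'
      have h3 := Submodule.disjoint_def.1 (h.int.submodule_iSupIndep r) _ hx h1
      exact jU_inj U (by rw [h3, map_zero])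
    · rw [eq_top_iff]
      intro x _
      have hx : jU U x ∈ U.baseChange ℂ := ⟨x, rfl⟩
      choose y hy using fun r => jU_range U (hU r _ hx)
      have h1 : x = ∑ r ∈ IsPHS.box d, y r := by
        refine jU_inj U ?_
        rw [map_sum, h.sum_pr (jU U x)]
        exact (Finset.sum_congr rfl fun r _ => (hy r).symm)
      rw [h1]
      refine Submodule.sum_mem _ fun r _ => Submodule.mem_iSup_of_mem r ?_
      change jU U (y r) ∈ F r
      rw [hy]
      exact h.pr_mem r _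
  range := by
    intro p q h0
    obtain ⟨x, hx, hx0⟩ := Submodule.exists_mem_ne_zero_of_ne_bot h0
    refine hr p q (jU U x) ?_ hx fun h1 => hx0 (jU_inj U (by rw [h1, map_zero]))
    exact ⟨x, rfl⟩
  cnj := by
    intro p q x hx
    change jU U (sig τ x) ∈ F (q, p)
    rw [jU_sig]
    exact h.cnj p q _ hx
  orth := by
    intro p q r s x hx y hy hrs
    rw [form_jU]
    exact h.orth p q r s _ hx _ hy hrs
  pos := by
    intro p q x hx hx0
    obtain ⟨r, hr, hr'⟩ := h.pos p q (jU U x) hx fun h1 => hx0 (jU_inj U (by rw [h1, map_zero]))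
    refine ⟨r, hr, ?_⟩
    rw [form_jU, jU_sig]
    exact hr'

/-- Diagonal operators of a substructure. -/
lemma jU_dG {F : ℤ × ℤ → Submodule ℂ (ℂ ⊗[K] V)} (hF : DirectSum.IsInternal F) (U : Submodule K V)
    (hFU : DirectSum.IsInternal (FU F U)) (f : ℤ → ℂ) (y : ℂ ⊗[K] U) :
    jU U (dG hFU f y) = dG hF f (jU U y) := by
  refine F_ind hFU (P := fun y => jU U (dG hFU f y) = dG hF f (jU U y)) ?_ ?_ ?_ y
  · intro p q x hx
    rw [dG_apply hFU f hx, map_smul, dG_apply hF f (p := p) (q := q) hx]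
  · intro a b ha hb
    rw [map_add, map_add, map_add, map_add, ha, hb]
  · simp only [map_zero]

end Run7.h226.Phs
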