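import Pool.Agent.Run7.h226.Wts

/-!
# Simple roots and root vectors with square zero
-/

set_option linter.unusedSectionVars false

namespace Run7.h226.Wts

open Matrix Pool.Agent.N996.BP Pool.Agent.N996.FP ComplexOrder

variable {ι : Type} [Fintype ι] [DecidableEq ι] {h : Submodule ℂ (Matrix ι ι ℂ)}
  {V : Submodule ℂ (ι → ℂ)} {x : Matrix ι ι ℂ}

lemma nsq_smul (c : ℂ) (e : Matrix ι ι ℂ) : nsq (c • e) = (star c * c) * nsq e := by
  rw [nsq, nsq, Matrix.conjTranspose_smul, Matrix.smul_mul, Matrix.mul_smul, smul_smul,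
    Matrix.trace_smul, smul_eq_mul]

lemma Rt_smul {c : ℂ} (hc : c ≠ 0) (e : Matrix ι ι ℂ) : Rt (c • e) = Rt e := by
  have hcc : star c * c ≠ 0 := mul_ne_zero (star_ne_zero.2 hc) hc
  have h1 : br (c • e) (c • e)ᴴ = (star c * c) • br e eᴴ := by
    rw [br, br, Matrix.conjTranspose_smul, Matrix.smul_mul, Matrix.mul_smul, Matrix.smul_mul,
      Matrix.mul_smul, smul_smul, smul_smul, smul_sub, mul_comm c (star c)]
  rw [Rt, Rt, nsq_smul, h1, smul_smul, mul_inv, mul_comm (star c * c)⁻¹, mul_assoc,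
    inv_mul_cancel₀ hcc, mul_one]

lemma Rt_pos (hM : Mdl h V) (hx : IsReg h x) {e : Matrix ι ι ℂ} (he : IsRV h x e) :
    0 < ip (Rt e) (Rt e) := ip_self_pos (he.herm hM.la hx) (he.Rt_ne hM.la hx)

lemma br_Rt {e : Matrix ι ι ℂ} (he : e ≠ 0) : br e eᴴ = nsq e • Rt e := by
  rw [Rt, smul_smul, mul_inv_cancel₀ (nsq_pos he).ne', one_smul]

/-- Simple roots. -/
def srt (h 𝔞 : Submodule ℂ (Matrix ι ι ℂ)) (x : Matrix ι ι ℂ) : Set (Matrix ι ι ℂ) :=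
  {R | ∃ (a : ℝ) (e : Matrix ι ι ℂ), IsSimple h x a ∧ e ∈ h ∧ e ∈ 𝔞 ∧ e ∈ EA x a ∧ e ≠ 0 ∧
    R = Rt e}

lemma simple_rv {a : ℝ} {e : Matrix ι ι ℂ} (hs : IsSimple h x a) (he : e ∈ h) (hea : e ∈ EA x a)
    (he0 : e ≠ 0) : IsRV h x e := rv_of he hea hs.pos.ne' he0

/-- Different simple roots form obtuse angles. -/
lemma srt_obt (hM : Mdl h V) (hx : IsReg h x) {𝔞 𝔞' : Submodule ℂ (Matrix ι ι ℂ)}
    {R R' : Matrix ι ι ℂ} (hR : R ∈ srt h 𝔞 x) (hR' : R' ∈ srt h 𝔞' x) (hne : R ≠ R') :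
    ip R R' ≤ 0 := by
  obtain ⟨a, e, hs, he, _, hea, he0, rfl⟩ := hR
  obtain ⟨b, f, hs', hf, _, hfb, hf0, rfl⟩ := hR'
  have hab : b ≠ a := by
    rintro rfl
    obtain ⟨c, rfl⟩ := root_unique hM.la hx hs.pos.ne' he hea he0 hf hfb
    have hc : c ≠ 0 := by rintro rfl; exact hf0 (zero_smul _ _)
    exact hne (Rt_smul hc e).symm
  have h1 := obtuse hM.la hx hs' hs hab hf hfb he hea he0
  have h2 : (br e eᴴ * br f fᴴ).trace = (nsq e * nsq f) * (ip (Rt e) (Rt f) : ℂ) := by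
    rw [← tr_ip ((simple_rv hs he hea he0).herm hM.la hx)
      ((simple_rv hs' hf hfb hf0).herm hM.la hx), br_Rt he0, br_Rt hf0, Matrix.smul_mul,
      Matrix.mul_smul, Matrix.trace_smul, Matrix.trace_smul, smul_eq_mul, smul_eq_mul, mul_assoc]
  have h3 : (0 : ℝ) < (nsq e).re := by
    have := nsq_pos he0; exact (Complex.lt_def.1 this).1
  have h4 : (0 : ℝ) < (nsq f).re := by
    have := nsq_pos hf0; exact (Complex.lt_def.1 this).1
  rw [h2, ← nsq_real e, ← nsq_real f] at h1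
  have h5 : ((nsq e).re * (nsq f).re) * ip (Rt e) (Rt f) ≤ 0 := by
    have : (((nsq e).re : ℂ) * ((nsq f).re : ℂ) * (ip (Rt e) (Rt f) : ℂ)).re =
        (nsq e).re * (nsq f).re * ip (Rt e) (Rt f) := by
      rw [← Complex.ofReal_mul, ← Complex.ofReal_mul, Complex.ofReal_re]
    rwa [this] at h1
  by_contra hcon
  push Not at hcon
  have := mul_pos (mul_pos h3 h4) hcon
  linarith

/-! ### Root vectors with square zero -/

/-- The square of the matrix vanishes on `V`. -/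
def Sq0 (V : Submodule ℂ (ι → ℂ)) (e : Matrix ι ι ℂ) : Prop := ∀ v ∈ V, e *ᵥ (e *ᵥ v) = 0

lemma Sq0.star (hM : Mdl h V) {e : Matrix ι ι ℂ} (he : e ∈ h) (h0 : Sq0 V e) : Sq0 V eᴴ := by
  intro v hv
  have h1 : ∀ u ∈ V, Star.star u ⬝ᵥ (eᴴ *ᵥ (eᴴ *ᵥ v)) = 0 := by
    intro u hu
    have h2 : Star.star u ⬝ᵥ (eᴴ *ᵥ (eᴴ *ᵥ v)) = Star.star (e *ᵥ (e *ᵥ u)) ⬝ᵥ v := by
      rw [Matrix.star_mulVec, Matrix.star_mulVec, ← Matrix.dotProduct_mulVec,
        ← Matrix.dotProduct_mulVec]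
    rw [h2, h0 u hu, star_zero, zero_dotProduct]
  have h2 := h1 _ (hM.stab _ (hM.la.star e he) _ (hM.stab _ (hM.la.star e he) v hv))
  exact dotProduct_star_self_eq_zero.1 h2

lemma A1 (hM : Mdl h V) (hx : IsReg h x) {e T : Matrix ι ι ℂ} (he : IsRV h x e)
    (h0 : Sq0 V e) {v : ι → ℂ} (hv : v ∈ V) (hT : IsWt h x v T) (hne : eᴴ *ᵥ v ≠ 0) :
    2 * ip T (Rt e) = ip (Rt e) (Rt e) := by
  have h0' := h0.star hM he.mem
  have hs := he.star hM.la hx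
  have hT' : IsWt h x (eᴴ *ᵥ v) (T - Rt e) := by
    have := wt_root hM hx hT hs.1
    rwa [hs.2, ← sub_eq_add_neg] at this
  have hct := he.ct hM.la hx
  have e1 : br e eᴴ *ᵥ v = (nsq e * (ip T (Rt e) : ℂ)) • v := by
    rw [br_Rt he.ne, Matrix.smul_mulVec, hT.val _ hct, tr_ip hT.herm (he.herm hM.la hx), smul_smul]
  have e2 : br e eᴴ *ᵥ (eᴴ *ᵥ v) = (nsq e * (ip (T - Rt e) (Rt e) : ℂ)) • (eᴴ *ᵥ v) := by
    rw [br_Rt he.ne, Matrix.smul_mulVec, hT'.val _ hct, tr_ip hT'.herm (he.herm hM.la hx),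
      smul_smul]
  have e3 : br e eᴴ *ᵥ v = e *ᵥ (eᴴ *ᵥ v) - eᴴ *ᵥ (e *ᵥ v) := by
    rw [br, Matrix.sub_mulVec, Matrix.mulVec_mulVec, Matrix.mulVec_mulVec]
  have e4 : br e eᴴ *ᵥ (eᴴ *ᵥ v) = e *ᵥ (eᴴ *ᵥ (eᴴ *ᵥ v)) - eᴴ *ᵥ (e *ᵥ (eᴴ *ᵥ v)) := by
    rw [br, Matrix.sub_mulVec, ← Matrix.mulVec_mulVec, ← Matrix.mulVec_mulVec]
  rw [h0' v hv, Matrix.mulVec_zero, zero_sub] at e4
  have e5 : eᴴ *ᵥ (e *ᵥ (eᴴ *ᵥ v)) = (nsq e * (ip T (Rt e) : ℂ)) • (eᴴ *ᵥ v) := by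
    have h1 := congrArg (fun w => eᴴ *ᵥ w) (e3.symm.trans e1)
    simp only [Matrix.mulVec_sub, Matrix.mulVec_smul] at h1
    rw [h0' _ (hM.stab e he.mem v hv), sub_zero] at h1
    exact h1
  rw [e5, e2, ← sub_eq_zero, sub_neg_eq_add, ← add_smul] at e4
  rcases smul_eq_zero.1 e4 with h1 | h1
  · rw [← mul_add] at h1
    rcases mul_eq_zero.1 h1 with h2 | h2
    · exact absurd h2 (nsq_pos he.ne).ne'
    · have h3 : ip (T - Rt e) (Rt e) + ip T (Rt e) = 0 := by exact_mod_cast h2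
      rw [ip_sub] at h3
      linarith
  · exact absurd h1 hne

lemma A2 (hM : Mdl h V) (hx : IsReg h x) {e T : Matrix ι ι ℂ} (he : IsRV h x e)
    (h0 : Sq0 V e) {v : ι → ℂ} (hv : v ∈ V) (hT : IsWt h x v T) (hne : e *ᵥ v ≠ 0) :
    2 * ip T (Rt e) = - ip (Rt e) (Rt e) := by
  have hs := he.star hM.la hx
  have h1 := A1 hM hx hs.1 (h0.star hM he.mem) hv hT (by
    rwa [Matrix.conjTranspose_conjTranspose])
  have e1 : ip T (-Rt e) = - ip T (Rt e) := by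
    rw [ip, Matrix.mul_neg, Matrix.trace_neg, Complex.neg_re, ip]
  have e2 : ip (-Rt e) (-Rt e) = ip (Rt e) (Rt e) := by
    rw [ip, neg_mul_neg, ip]
  rw [hs.2, e1, e2] at h1
  linarith

lemma A3 (hM : Mdl h V) (hx : IsReg h x) {e T : Matrix ι ι ℂ} (he : IsRV h x e)
    (h0 : Sq0 V e) (hT : T ∈ wts h x V) :
    2 * ip T (Rt e) = ip (Rt e) (Rt e) ∨ 2 * ip T (Rt e) = 0 ∨
      2 * ip T (Rt e) = - ip (Rt e) (Rt e) := by
  obtain ⟨v, hv, hv0, hT⟩ := hT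
  by_cases h1 : eᴴ *ᵥ v = 0
  · by_cases h2 : e *ᵥ v = 0
    · right; left
      have e3 : br e eᴴ *ᵥ v = e *ᵥ (eᴴ *ᵥ v) - eᴴ *ᵥ (e *ᵥ v) := by
        rw [br, Matrix.sub_mulVec, Matrix.mulVec_mulVec, Matrix.mulVec_mulVec]
      rw [h1, h2, Matrix.mulVec_zero, Matrix.mulVec_zero, sub_zero, br_Rt he.ne,
        Matrix.smul_mulVec, hT.val _ (he.ct hM.la hx), tr_ip hT.herm (he.herm hM.la hx),
        smul_smul] at e3
      rcases smul_eq_zero.1 e3 with h3 | h3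
      · rcases mul_eq_zero.1 h3 with h4 | h4
        · exact absurd h4 (nsq_pos he.ne).ne'
        · have : ip T (Rt e) = 0 := by exact_mod_cast h4
          rw [this, mul_zero]
      · exact absurd h3 hv0
    · right; right
      exact A2 hM hx he h0 hv hT h2
  · left
    exact A1 hM hx he h0 hv hT h1

lemma A4 (hM : Mdl h V) (hx : IsReg h x) {e T : Matrix ι ι ℂ} (he : IsRV h x e)
    (h0 : Sq0 V e) (hT : T ∈ wts h x V) :
    2 * ip T (Rt e) = ip (Rt e) (Rt e) ↔ T - Rt e ∈ wts h x V := by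
  have hpos := Rt_pos hM hx he
  constructor
  · intro h1
    obtain ⟨v, hv, hv0, hT⟩ := hT
    obtain ⟨h2, h3⟩ := move hM.la hx hT hv0 he (by linarith)
    exact ⟨_, hM.stab _ (hM.la.star e he.mem) v hv, h2, h3⟩
  · intro h1
    have h2 := A3 hM hx he h0 h1
    have h3 := A3 hM hx he h0 hT
    rw [ip_sub] at h2
    rcases h2 with h2 | h2 | h2 <;> rcases h3 with h3 | h3 | h3 <;> linarith

lemma A5 (hM : Mdl h V) (hx : IsReg h x) {e T : Matrix ι ι ℂ} (he : IsRV h x e)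
    (h0 : Sq0 V e) (hT : T ∈ wts h x V) :
    2 * ip T (Rt e) = - ip (Rt e) (Rt e) ↔ T + Rt e ∈ wts h x V := by
  have hs := he.star hM.la hx
  have h1 := A4 hM hx hs.1 (h0.star hM he.mem) hT
  have e1 : ip T (-Rt e) = - ip T (Rt e) := by
    rw [ip, Matrix.mul_neg, Matrix.trace_neg, Complex.neg_re, ip]
  have e2 : ip (-Rt e) (-Rt e) = ip (Rt e) (Rt e) := by
    rw [ip, neg_mul_neg, ip]
  rw [hs.2, e1, e2, sub_neg_eq_add] at h1
  rw [← h1]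
  constructor <;> intro h2 <;> linarith

/-! ### The third power -/

/-- Brackets of raising operators with lowering operators of simple roots. -/
lemma br_simple (hM : Mdl h V) (hx : IsReg h x) {a d : ℝ} (ha : 0 < a) (hs : IsSimple h x d)
    (hlt : a < d) {e f : Matrix ι ι ℂ} (he : e ∈ h) (hea : e ∈ EA x a) (hf : f ∈ h)
    (hfd : f ∈ EA x d) : br e fᴴ = 0 := by
  obtain ⟨k, hk⟩ : ∃ k, k = br e fᴴ := ⟨_, rfl⟩
  have hkh : k ∈ h := by rw [hk]; exact hM.la.lie _ he _ (hM.la.star _ hf)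
  have hkx : k ∈ EA x ((a - d : ℝ) : ℂ) := by
    have h1 := EA_br hea (EA_star hx.herm hfd)
    have h2 : (a : ℂ) + ((-d : ℝ) : ℂ) = ((a - d : ℝ) : ℂ) := by push_cast; ring
    rw [h2] at h1
    rw [hk]
    exact h1
  have hks : kᴴ ∈ EA x ((d - a : ℝ) : ℂ) := by
    have := EA_star hx.herm hkx
    rwa [neg_sub] at this
  have h1 : br e kᴴ = 0 := hs.ind a (d - a) ha (sub_pos.2 hlt) (by ring) e he hea kᴴ
    (hM.la.star _ hkh) hks
  -- `nsq k = tr (kᴴ [e, fᴴ]) = tr ([kᴴ, e] fᴴ)`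
  have h2 : nsq k = 0 := by
    have h3 : nsq k = (kᴴ * br e fᴴ).trace := by rw [nsq, ← hk]
    rw [h3, ← tr_br, br_swap, h1, neg_zero, Matrix.zero_mul, Matrix.trace_zero]
  rw [← hk]
  exact nsq_eq_zero h2

end Run7.h226.Wts
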