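import Pool.Agent.Run7.h226.Kaq

/-!
# Hodge classes of small codimension
-/

set_option linter.unusedSectionVars false

open CategoryTheory AlgebraicGeometry TensorProduct

universe u

namespace Run7.h226.Geo

open Module Matrix
open Pool.Agent.H914 Pool.Agent.H914.VarClass Pool.Agent.H914.VarClass.Obj
  Pool.Agent.H914.WeilCohomology
open Pool.Agent.Y133.Half Pool.Agent.Y121.AH
open Pool.Agent.N996.BP Pool.Agent.N996.BP.Geo Pool.Agent.N996.FP Pool.Agent.N996.FP.Geo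
open Run7.h226.Phs Run7.h226.Wts

section Mat

variable {κ : Type} [Fintype κ] [DecidableEq κ] {H : HData κ}

/-- The operators respect the parity. -/
lemma l_off (hneg : H.l (-1) = (2 : ℂ) • cQ (E0 H) - 1) {t : ℂ} {i j : κ}
    (hij : (i = H.D.o ∧ j ≠ H.D.o) ∨ (i ≠ H.D.o ∧ j = H.D.o)) : H.l t i j = 0 := by
  have h3 : H.l t * cQ (Sg H) = cQ (Sg H) * H.l t := by
    rw [cQ_Sg hneg, HData.l_mul, HData.l_mul, mul_comm]
  have h4 := congrFun (congrFun h3 i) j
  have h5 : cQ (Sg H) = diagonal fun i => if i = H.D.o then (1 : ℂ) else -1 := by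
    ext a b
    rw [cQ, Matrix.map_apply, Sg, Matrix.diagonal_apply, Matrix.diagonal_apply]
    split_ifs <;> norm_num
  rw [h5, Matrix.mul_diagonal, Matrix.diagonal_mul] at h4
  rcases hij with ⟨h1, h2⟩ | ⟨h1, h2⟩
  · rw [if_neg h2, if_pos h1] at h4
    linear_combination (-1 / 2 : ℂ) * h4
  · rw [if_pos h2, if_neg h1] at h4
    linear_combination (1 / 2 : ℂ) * h4

/-- The parts of Hodge classes are Hodge classes. -/
lemma part_BB (hneg : H.l (-1) = (2 : ℂ) • cQ (E0 H) - 1) {p : κ → Fin 2}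
    (hp1 : ∀ i, i ≠ H.D.o → p i = 1) {n : ℕ} (ε : Fin (n + 1) → Fin 2)
    {a : (Fin (n + 1) → κ) → ℚ} (ha : a ∈ BB H (Fin (n + 1))) :
    part p ε a ∈ BB H (Fin (n + 1)) := by
  intro t ht
  have h1 := ha t ht
  have h2 : ∀ w w' : Fin (n + 1) → κ, p ∘ w ≠ p ∘ w' → kp (Fin (n + 1)) (H.l t) w w' = 0 := by
    intro w w' h
    obtain ⟨k, hk⟩ := Function.ne_iff.1 h
    rw [kp_apply, Finset.prod_eq_zero (Finset.mem_univ k)]
    apply l_off hneg
    by_cases h3 : w k = H.D.o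
    · left
      refine ⟨h3, fun h4 => hk ?_⟩
      rw [Function.comp_apply, Function.comp_apply, h3, h4]
    · right
      refine ⟨h3, ?_⟩
      by_contra h4
      apply hk
      rw [Function.comp_apply, Function.comp_apply, hp1 _ h3, hp1 _ h4]
  funext w
  rw [Matrix.mulVec, dotProduct]
  by_cases hw : p ∘ w = ε
  · have h3 := congrFun h1 w
    rw [Matrix.mulVec, dotProduct] at h3
    rw [ca, part, if_pos hw]
    refine Eq.trans (Finset.sum_congr rfl fun w' _ => ?_) h3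
    by_cases h4 : p ∘ w' = ε
    · rw [ca, part, if_pos h4, ca]
    · rw [h2 w w' fun h5 => h4 (h5.symm.trans hw), zero_mul, zero_mul]
  · rw [ca, part, if_neg hw, Rat.cast_zero]
    refine Finset.sum_eq_zero fun w' _ => ?_
    by_cases h4 : p ∘ w' = ε
    · rw [h2 w w' fun h5 => hw (h5.trans h4), zero_mul]
    · rw [ca, part, if_neg h4, Rat.cast_zero, mul_zero]

end Mat

variable {k : Type u} [Field k] {𝒱 : VarClass k} {ops : CycleOps 𝒱} {T : HodgeTheory ops}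
  {X : 𝒱.Obj} {ψ : LinearMap.BilinForm T.W.K (T.W.H X)}
  {ι : Type} [Fintype ι] [DecidableEq ι] {e : Basis ι T.W.K (T.W.H X)} {deg : ι → ℕ} {o : ι}
  {p : ι → Fin 2}

lemma wb_deg (hdeg : ∀ j, e j ∈ T.W.gr X (deg j)) : ∀ (n : ℕ) (w : Fin (n + 1) → ι),
    wb e n w ∈ T.W.gr (pw X n) (∑ k, deg (w k))
  | 0, w => by
    rw [wb_zero, Fin.sum_univ_one]
    exact hdeg (w 0)
  | n + 1, w => by
    rw [wb_succ, Fin.sum_univ_castSucc]
    exact T.W.mul_mem (T.W.map_mem _ (wb_deg hdeg n _)) (T.W.map_mem _ (hdeg _))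

/-- The projection of a power to a smaller power preserves the property. -/
lemma down_mem {S : CSys T.W X} {N j : ℕ}
    (h : ∀ c, IsHodge T (pw X N) j c → c ∈ S.C N) {n : ℕ} (hn : n ≤ N) {c : T.W.H (pw X n)}
    (hc : IsHodge T (pw X n) j c) : c ∈ S.C n := by
  have h1 : T.W.map (down X hn) c ∈ S.C N := h _ (hc.map (down X hn))
  have h2 := S.map (up X n N) (isCd_up n N) h1
  rwa [← T.W.map_comp, up_down, T.W.map_id] at h2

/-- **Hodge classes on few factors.** -/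
lemma small (hψ : IsPHS (tauT T) (Fx T X) ψ X.dim) (hdeg : ∀ j, e j ∈ T.W.gr X (deg j))
    (hp : ∀ j, (p j : ℕ) = deg j % 2) (ho : e o = 1) (hd : deg o = 0) {H : HData (Lt deg o)}
    (hHo : H.D.o = ⟨o, Or.inl rfl⟩)
    (hl : ∀ t : ℂ, t ≠ 0 → ∀ v : Lt deg o → ℂ,
      mG hψ.int e (fun k => t ^ k) *ᵥ ext v = ext (H.l t *ᵥ v)) {S : CSys T.W X} {N : ℕ}
    (h : ∀ j ≤ (N + 1) / 2, ∀ c, IsHodge T (pw X N) j c → c ∈ S.C N) {n : ℕ} (hn : n ≤ N) :
    BB H (Fin (n + 1)) ≤ fam e deg o p S n := by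
  intro a ha ε
  have hneg := l_neg hψ hdeg ho hHo hl
  have hp1 : ∀ i : Lt deg o, i ≠ H.D.o → p i.1 = 1 := by
    intro i hi
    apply Fin.ext
    rw [hp]
    rcases i.2 with h1 | h1
    · exact absurd (by rw [hHo]; exact Subtype.ext h1) hi
    · rw [h1]; rfl
  have h1 := part_BB (p := fun j : Lt deg o => p j.1) hneg hp1 ε ha
  have h2 := (inv_xA hψ ho hl _).2 h1
  set c := clw e n (xA (part (fun j : Lt deg o => p j.1) ε a)) with hc
  have h3 : c ∈ T.W.gr (pw X n) (∑ k, (ε k : ℕ)) := by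
    rw [hc, clw]
    refine Submodule.sum_mem _ fun w _ => ?_
    by_cases hw : ∀ k, w k = o ∨ deg (w k) = 1
    · by_cases hw' : ∀ k, p (w k) = ε k
      · refine Submodule.smul_mem _ _ ?_
        have h4 := wb_deg hdeg n w
        have h5 : ∑ k, deg (w k) = ∑ k, (ε k : ℕ) := by
          refine Finset.sum_congr rfl fun k _ => ?_
          rw [← hw' k, hp]
          rcases hw k with h6 | h6
          · rw [h6, hd]
          · rw [h6]
        rwa [h5] at h4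
      · rw [xA, dif_pos hw, part, if_neg, Rat.cast_zero, zero_smul]
        · exact Submodule.zero_mem _
        · intro h4
          exact hw' fun k => congrFun h4 k
    · rw [xA_out _ hw, Rat.cast_zero, zero_smul]
      exact Submodule.zero_mem _
  change c ∈ S.C n
  rcases Nat.even_or_odd' (∑ k, (ε k : ℕ)) with ⟨j, hj | hj⟩
  · rw [hj] at h3
    have h4 : IsHodge T (pw X n) j c := isHodge_of_fix h3 (by
      rw [← lop_two]
      exact h2 2 two_ne_zero)
    refine down_mem (h j ?_) hn h4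
    have h5 : ∑ k, (ε k : ℕ) ≤ n + 1 := by
      calc ∑ k, (ε k : ℕ) ≤ ∑ _k : Fin (n + 1), 1 :=
            Finset.sum_le_sum fun k _ => by have := (ε k).2; omega
        _ = n + 1 := by simp
    omega
  · have h4 : c = 0 := proj_odd (by omega) h3 (h2 (-1) (neg_ne_zero.2 one_ne_zero))
    rw [h4]
    exact Submodule.zero_mem _

/-- **The class of the contraction.** -/
lemma exists_qq (hψ : IsPHS (tauT T) (Fx T X) ψ X.dim) (hdeg : ∀ j, e j ∈ T.W.gr X (deg j))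
    (hp : ∀ j, (p j : ℕ) = deg j % 2) (ho : e o = 1) (hd : deg o = 0) {H : HData (Lt deg o)}
    (hHo : H.D.o = ⟨o, Or.inl rfl⟩)
    (hl : ∀ t : ℂ, t ≠ 0 → ∀ v : Lt deg o → ℂ,
      mG hψ.int e (fun k => t ^ k) *ᵥ ext v = ext (H.l t *ᵥ v)) {S : CSys T.W X} {N : ℕ}
    (hN : 1 ≤ N) (hg : 1 ≤ X.dim)
    (h : ∀ j ≤ (N + 1) / 2, ∀ c, IsHodge T (pw X N) j c → c ∈ S.C N) :
    ∃ q : T.W.H (X.prod X), (show T.W.H (pw X 1) from q) ∈ S.C 1 ∧
      ∀ i j : Lt deg o, T.W.tr (X.prod X) (xp T.W (e i.1) (e j.1) * q) =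
        ((H.Qr i j : ℚ) : T.W.K) := by
  have hneg := l_neg hψ hdeg ho hHo hl
  obtain ⟨D, hD, hHL, -⟩ := T.dec.polar X
  -- the matrix of the form
  choose V0 hV0 using fun i j : ι => T.rat (T.W.tr X (e i * e j * wc T.W X D))
  let V : Matrix (Lt deg o) (Lt deg o) ℚ := fun i j => V0 i.1 j.1
  have hV : ∀ i j, ((V i j : ℚ) : T.W.K) = T.W.tr X (e i.1 * e j.1 * wc T.W X D) :=
    fun i j => hV0 i.1 j.1
  obtain ⟨Vi, hVi⟩ := V_inv hD hHL hg hdeg ho hV
  set P : Matrix (Lt deg o) (Lt deg o) ℚ := Sg H * Vi * H.Qr * Viᵀ with hP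
  have hPB : a2 P ∈ BB H (Fin (1 + 1)) :=
    a2_BB fun t ht => P_hodge hneg hVi (fun t ht => V_hodge hψ hD hl hV ht) ht
  -- parities
  have hPH : ∀ i, e i ∈ PH T.W X (p i : ℕ) := fun i =>
    PH.of' (by rw [hp]; omega) (hdeg i)
  have hVp : ∀ i j : Lt deg o, (p i.1 : ℕ) ≠ p j.1 → V i j = 0 := by
    intro i j hij
    have h1 : T.W.tr X (e i.1 * e j.1 * wc T.W X D) = 0 := by
      refine PH.tr_odd (PH.mul (PH.mul (hPH i.1) (hPH j.1)) (wc_PH hD)) ?_
      have h2 := (p i.1).2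
      have h3 := (p j.1).2
      omega
    rw [← hV] at h1
    exact_mod_cast h1
  -- the class
  have hcl : ∀ c, IsHodge T X 1 c → (show T.W.H (pw X 0) from c) ∈ S.C 0 := fun c hc =>
    down_mem (h 1 (by omega)) (Nat.zero_le N) hc
  have h1S : (show T.W.H (pw X 0) from (1 : T.W.H X)) ∈ S.C 0 :=
    down_mem (h 0 (Nat.zero_le _)) (Nat.zero_le N) isHodge_one
  have hpow : ∀ m : ℕ, (show T.W.H (pw X 0) from (T.W.cl X D ^ m)) ∈ S.C 0 := by
    intro m
    induction m with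
    | zero => rw [pow_zero]; exact h1S
    | succ m ih =>
      rw [pow_succ]
      exact S.mul ih (hcl _ (IsHodge.cl hD))
  have hw : (show T.W.H (pw X 0) from wc T.W X D) ∈ S.C 0 :=
    Submodule.add_mem _ (hpow _) (hpow _)
  have hc : clw e 1 (xA (a2 P)) ∈ S.C 1 := fam_clw (small hψ hdeg hp ho hd hHo hl h hN hPB)
  have hww : (show T.W.H (pw X 1) from xp T.W (wc T.W X D) (wc T.W X D)) ∈ S.C 1 := by
    refine S.mul ?_ ?_
    · refine S.map (pfst X 0) (fun i => ⟨Fin.castSucc i, ?_⟩) hw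
      rw [prj_castSucc]
    · refine S.map (n := 0) (psnd X 0) (fun i => ⟨Fin.last 1, ?_⟩) hw
      have hi : i = 0 := Subsingleton.elim (α := Fin 1) i 0
      rw [hi, prj_last]
      exact Category.comp_id _
  obtain ⟨c2, hc2, hc2S⟩ : ∃ c2 : T.W.H (X.prod X), c2 = (show T.W.H (X.prod X) from
      clw e 1 (xA (a2 P))) ∧ (show T.W.H (pw X 1) from c2) ∈ S.C 1 := ⟨_, rfl, hc⟩
  refine ⟨xp T.W (wc T.W X D) (wc T.W X D) * c2, S.mul hww hc2S, fun i j => ?_⟩
  have hval : ∀ a b : ι, T.W.tr (X.prod X) (xp T.W (e i.1) (e j.1) *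
      (xp T.W (wc T.W X D) (wc T.W X D) * xp T.W (e a) (e b))) =
      ((((-1) ^ ((p j.1 : ℕ) * (p a : ℕ)) * V0 i.1 a * V0 j.1 b : ℚ)) : T.W.K) := by
    intro a b
    rw [xp_mul (wc T.W X D) (e a) (wc T.W X D) (e b) (wc_PH hD) (hPH a), zero_mul, pow_zero,
      one_smul]
    have h1 : wc T.W X D * e a ∈ PH T.W X (p a : ℕ) := by
      have h2 := PH.mul (wc_PH hD) (hPH a)
      rwa [zero_add] at h2
    rw [xp_mul (e i.1) (wc T.W X D * e a) (e j.1) (wc T.W X D * e b) (hPH j.1) h1, map_smul,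
      tr_xp, PH.even_comm (wc_PH hD) (e a), PH.even_comm (wc_PH hD) (e b), ← mul_assoc,
      ← mul_assoc, smul_eq_mul]
    push_cast
    rw [hV0, hV0]
    ring
  have hwb : ∀ v : Fin (1 + 1) → ι, wb e 1 v = xp T.W (e (v 0)) (e (v 1)) := by
    intro v
    rw [wb_succ]
    have h5 : wb e 0 (fun i => v i.castSucc) = e (v 0) := wb_zero e _
    rw [h5]
    rfl
  have hc2' : c2 = ∑ v : Fin (1 + 1) → ι, ((xA (a2 P) v : ℚ) : T.W.K) •
      xp T.W (e (v 0)) (e (v 1)) := by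
    rw [hc2]
    refine Finset.sum_congr rfl fun v _ => ?_
    rw [hwb]
    rfl
  have h1 : xp T.W (e i.1) (e j.1) * (xp T.W (wc T.W X D) (wc T.W X D) *
      c2) = ∑ v : Fin (1 + 1) → ι, ((xA (a2 P) v : ℚ) : T.W.K) •
        (xp T.W (e i.1) (e j.1) * (xp T.W (wc T.W X D) (wc T.W X D) *
          xp T.W (e (v 0)) (e (v 1)))) := by
    rw [hc2', Finset.mul_sum, Finset.mul_sum]
    refine Finset.sum_congr rfl fun v _ => ?_
    rw [mul_smul_comm, mul_smul_comm]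
  rw [h1, map_sum]
  have h2 : ∀ v : Fin (1 + 1) → ι, T.W.tr (X.prod X) (((xA (a2 P) v : ℚ) : T.W.K) •
        (xp T.W (e i.1) (e j.1) * (xp T.W (wc T.W X D) (wc T.W X D) *
          xp T.W (e (v 0)) (e (v 1))))) =
      ((((-1) ^ ((p j.1 : ℕ) * (p (v 0) : ℕ)) * V0 i.1 (v 0) * V0 j.1 (v 1) *
        xA (a2 P) v : ℚ)) : T.W.K) := by
    intro v
    rw [map_smul, hval, smul_eq_mul, ← Rat.cast_mul, mul_comm]
  rw [Finset.sum_congr rfl fun v _ => h2 v, ← Rat.cast_sum]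
  congr 1
  rw [sum_xA (fun v : Fin (1 + 1) → ι =>
    (-1) ^ ((p j.1 : ℕ) * (p (v 0) : ℕ)) * V0 i.1 (v 0) * V0 j.1 (v 1)) (a2 P)]
  have h3 := contr_id hneg hVi (p := fun i : Lt deg o => (p i.1 : ℕ))
    (by rw [hp, hHo]; change deg o % 2 = 0; rw [hd])
    (fun i hi => by
      rw [hp]
      rcases i.2 with h1 | h1
      · exact absurd (by rw [hHo]; exact Subtype.ext h1) hi
      · rw [h1]) hVp i j
  rw [← h3, ← sum_w2]
  refine Finset.sum_congr rfl fun v _ => ?_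
  rw [a2]
  ring

end Run7.h226.Geo
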