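import Pool.Agent.Run7.h226.Smc
import Pool.Agent.Run7.h226.Lift

/-!
# The cohomology of the powers is generated in degree one
-/

set_option linter.unusedSectionVars false

open CategoryTheory AlgebraicGeometry TensorProduct

universe u

namespace Run7.h226.Geo

open Module Matrix
open Pool.Agent.H914 Pool.Agent.H914.VarClass Pool.Agent.H914.VarClass.Obj
  Pool.Agent.H914.WeilCohomology
open Pool.Agent.Y133.Half Pool.Agent.Y121.AH
open Pool.Agent.N996.BP Pool.Agent.N996.BP.Geo Pool.Agent.N996.FP Pool.Agent.N996.FP.Geo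
open Run7.h226.Phs Run7.h226.Wts

variable {k : Type u} [Field k] {𝒱 : VarClass k} {ops : CycleOps 𝒱} {T : HodgeTheory ops}
  {X : 𝒱.Obj} {ψ : LinearMap.BilinForm T.W.K (T.W.H X)}
  {ι : Type} [Fintype ι] [DecidableEq ι] {e : Basis ι T.W.K (T.W.H X)} {deg : ι → ℕ} {o : ι}

/-- The coordinate map. -/
noncomputable def dl (X : 𝒱.Obj) {n m : ℕ} (g : Fin (m + 1) → Fin (n + 1)) : pw X n ⟶ pw X m :=
  liftN X m fun i => prj X n (g i)

lemma isCd_dl {n m : ℕ} (g : Fin (m + 1) → Fin (n + 1)) : IsCd (dl X g) := isCd_liftN _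

lemma dl_wb {n m : ℕ} (g : Fin (m + 1) → Fin (n + 1)) (w : Fin (m + 1) → ι) :
    T.W.map (dl X g) (wb e m w) =
      (List.ofFn fun i => T.W.map (prj X n (g i)) (e (w i))).prod := by
  rw [wb_eq, map_list_prod, List.map_ofFn]
  congr 2
  funext i
  rw [Function.comp_apply, ← T.W.map_comp, dl, liftN_prj]

/-- The images of words. -/
def Gn (e : Basis ι T.W.K (T.W.H X)) (deg : ι → ℕ) (o : ι) (n : ℕ) : Set (T.W.H (pw X n)) :=
  {x | ∃ (m : ℕ) (g : Fin (m + 1) → Fin (n + 1)) (w : Fin (m + 1) → Lt deg o),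
    T.W.map (dl X g) (wb e m fun k => (w k).1) = x}

/-- **The cohomology of the powers is spanned by the images of words.** -/
theorem span_Gn (hgen : Algebra.adjoin T.W.K (T.W.gr X 1 : Set (T.W.H X)) = ⊤)
    (hdeg : ∀ j, e j ∈ T.W.gr X (deg j)) (ho : e o = 1) (n : ℕ) :
    Submodule.span T.W.K (Gn e deg o n) = ⊤ := by
  set F : Fin (n + 1) × Lt deg o → T.W.H (pw X n) :=
    fun x => T.W.map (prj X n x.1) (e x.2.1) with hF
  have hA1 : ∀ (i : Fin (n + 1)) (c : T.W.H X),
      T.W.map (prj X n i) c ∈ Algebra.adjoin T.W.K (Set.range F) := by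
    intro i c
    have h1 : c ∈ Algebra.adjoin T.W.K (T.W.gr X 1 : Set (T.W.H X)) := by rw [hgen]; trivial
    induction h1 using Algebra.adjoin_induction with
    | mem c hc =>
      rw [← e.sum_repr c, map_sum]
      refine Subalgebra.sum_mem _ fun j _ => ?_
      by_cases hj : deg j = 1
      · rw [map_smul]
        have h2 : F (i, ⟨j, Or.inr hj⟩) ∈ Algebra.adjoin T.W.K (Set.range F) :=
          Algebra.subset_adjoin (Set.mem_range_self _)
        exact Subalgebra.smul_mem _ h2 _
      · rw [repr_gr (T.W.isInternal X) hdeg hc hj, zero_smul, map_zero]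
        exact Subalgebra.zero_mem _
    | algebraMap r =>
      rw [AlgHom.commutes]
      exact Subalgebra.algebraMap_mem _ _
    | add a b _ _ ha hb => rw [map_add]; exact Subalgebra.add_mem _ ha hb
    | mul a b _ _ ha hb => rw [map_mul]; exact Subalgebra.mul_mem _ ha hb
  have hA : Algebra.adjoin T.W.K (Set.range F) = ⊤ := by
    rw [eq_top_iff]
    intro x _
    rw [← (wb e n).sum_repr x]
    refine Subalgebra.sum_mem _ fun w _ => Subalgebra.smul_mem _ ?_ _
    rw [wb_eq]
    refine Subalgebra.list_prod_mem _ fun y hy => ?_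
    obtain ⟨i, rfl⟩ := (List.mem_ofFn' _ _).1 hy
    exact hA1 _ _
  have h1 := congrArg Subalgebra.toSubmodule hA
  rw [Algebra.adjoin_eq_span, Algebra.top_toSubmodule] at h1
  rw [eq_top_iff, ← h1, Submodule.span_le]
  intro x hx
  obtain ⟨l, hl, rfl⟩ := Submonoid.exists_list_of_mem_closure hx
  apply Submodule.subset_span
  have hne : ∀ l : List (T.W.H (pw X n)), l ≠ [] → (∀ y ∈ l, y ∈ Set.range F) →
      l.prod ∈ Gn e deg o n := by
    intro l hl0 hl
    obtain ⟨m, hm⟩ : ∃ m, l.length = m + 1 := by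
      rcases l with _ | ⟨a, l⟩
      · exact absurd rfl hl0
      · exact ⟨l.length, rfl⟩
    have hl' : ∀ i : Fin (m + 1), ∃ x, F x = l.get (Fin.cast hm.symm i) :=
      fun i => hl _ (List.get_mem _ _)
    choose f hf using hl'
    refine ⟨m, fun i => (f i).1, fun i => (f i).2, ?_⟩
    rw [dl_wb]
    congr 1
    have h2 : l = List.ofFn (fun i : Fin (m + 1) => l.get (Fin.cast hm.symm i)) := by
      have h3 := (List.ofFn_get l).symm
      refine h3.trans ?_
      rw [List.ofFn_congr hm]
    rw [h2]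
    congr 1
    funext i
    rw [← hf i]
  by_cases h0 : l = []
  · rw [h0, List.prod_nil]
    have h2 := hne [1] (by simp) (by
      intro y hy
      rw [List.mem_singleton] at hy
      refine ⟨(0, ⟨o, Or.inl rfl⟩), ?_⟩
      rw [hy, hF]
      change T.W.map (prj X n 0) (e o) = 1
      rw [ho, map_one])
    rwa [List.prod_singleton] at h2
  · exact hne l h0 hl

end Run7.h226.Geo
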