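import Pool.Agent.Run7.h226.Conn
import Pool.Agent.Run7.h226.Comb

/-!
# The dichotomy
-/

set_option linter.unusedSectionVars false

namespace Run7.h226.Wts

open Matrix Pool.Agent.N996.BP Pool.Agent.N996.FP ComplexOrder

variable {ι : Type} [Fintype ι] [DecidableEq ι] {h : Submodule ℂ (Matrix ι ι ℂ)}
  {V : Submodule ℂ (ι → ℂ)} {x y g N S : Matrix ι ι ℂ} {𝔞 𝔟 : Submodule ℂ (Matrix ι ι ℂ)}
  {n : ℕ}

/-- The Hermitian matrices. -/
def HE (ι : Type) [Fintype ι] : Submodule ℝ (Matrix ι ι ℂ) where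
  carrier := {T | Tᴴ = T}
  add_mem' {a b} ha hb := by
    change (a + b)ᴴ = a + b
    rw [Matrix.conjTranspose_add, show aᴴ = a from ha, show bᴴ = b from hb]
  zero_mem' := Matrix.conjTranspose_zero
  smul_mem' c a ha := by
    change (c • a)ᴴ = c • a
    rw [Matrix.conjTranspose_smul, show aᴴ = a from ha, star_trivial]

lemma mem_HE {T : Matrix ι ι ℂ} : T ∈ HE ι ↔ Tᴴ = T := Iff.rfl

lemma ip_rsmul (r : ℝ) (A B : Matrix ι ι ℂ) : ip (r • A) B = r * ip A B := by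
  rw [ip, ip, Matrix.smul_mul, Matrix.trace_smul, Complex.real_smul, Complex.re_ofReal_mul]

lemma ip_add' (A B C : Matrix ι ι ℂ) : ip A (B + C) = ip A B + ip A C := by
  rw [ip_comm, ip_add, ip_comm B, ip_comm C]

lemma ip_sub' (A B C : Matrix ι ι ℂ) : ip A (B - C) = ip A B - ip A C := by
  rw [ip_comm, ip_sub, ip_comm B, ip_comm C]

lemma ip_rsmul' (r : ℝ) (A B : Matrix ι ι ℂ) : ip A (r • B) = r * ip A B := by
  rw [ip_comm, ip_rsmul, ip_comm]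

/-- The form. -/
noncomputable def bH (ι : Type) [Fintype ι] [DecidableEq ι] : LinearMap.BilinForm ℝ (HE ι) :=
  LinearMap.mk₂ ℝ (fun u v => ip (u : Matrix ι ι ℂ) v) (fun u v w => ip_add _ _ _)
    (fun r u v => ip_rsmul _ _ _) (fun u v w => ip_add' _ _ _) (fun r u v => ip_rsmul' _ _ _)

lemma bH_apply (u v : HE ι) : bH ι u v = ip (u : Matrix ι ι ℂ) v := rfl

/-- The linear form. -/
noncomputable def fH (x : Matrix ι ι ℂ) : HE ι →ₗ[ℝ] ℝ where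
  toFun u := ip (u : Matrix ι ι ℂ) x
  map_add' u v := ip_add _ _ _
  map_smul' r u := ip_rsmul _ _ _

lemma fH_apply (x : Matrix ι ι ℂ) (u : HE ι) : fH x u = ip (u : Matrix ι ι ℂ) x := rfl

/-- The isometry. -/
noncomputable def aH (g : Matrix ι ι ℂ) : HE ι →ₗ[ℝ] HE ι where
  toFun u := ⟨g * (u : Matrix ι ι ℂ) * gᴴ, by
    rw [mem_HE, Matrix.conjTranspose_mul, Matrix.conjTranspose_mul, mem_HE.1 u.2,
      Matrix.conjTranspose_conjTranspose, Matrix.mul_assoc]⟩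
  map_add' u v := by
    ext1
    change g * ((u : Matrix ι ι ℂ) + v) * gᴴ = g * (u : Matrix ι ι ℂ) * gᴴ + g * v * gᴴ
    rw [Matrix.mul_add, Matrix.add_mul]
  map_smul' r u := by
    ext1
    change g * (r • (u : Matrix ι ι ℂ)) * gᴴ = r • (g * (u : Matrix ι ι ℂ) * gᴴ)
    rw [Matrix.mul_smul, Matrix.smul_mul]

lemma aH_coe (g : Matrix ι ι ℂ) (u : HE ι) :
    ((aH g u : HE ι) : Matrix ι ι ℂ) = g * (u : Matrix ι ι ℂ) * gᴴ := rfl

lemma wts_herm {T : Matrix ι ι ℂ} (hT : T ∈ wts h x V) : Tᴴ = T := by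
  obtain ⟨v, _, _, hT⟩ := hT
  exact hT.herm

lemma wts_ct {T : Matrix ι ι ℂ} (hT : T ∈ wts h x V) : T ∈ ct h x := by
  obtain ⟨v, _, _, hT⟩ := hT
  exact hT.mem

lemma srt_herm (hM : Mdl h V) (hx : IsReg h x) {T : Matrix ι ι ℂ} (hT : T ∈ srt h 𝔞 x) :
    Tᴴ = T := by
  obtain ⟨a, e, hs, he, _, hex, he0, rfl⟩ := hT
  exact (simple_rv hs he hex he0).herm hM.la hx

lemma Rt_mem (hM : Mdl h V) (ha : IsId h 𝔞) {e : Matrix ι ι ℂ} (he : e ∈ 𝔞) : Rt e ∈ 𝔞 :=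
  Submodule.smul_mem _ _ (ha.lb e (ha.le he) _ (ha.star hM he))

lemma srt_mem (hM : Mdl h V) (ha : IsId h 𝔞) {T : Matrix ι ι ℂ} (hT : T ∈ srt h 𝔞 x) :
    T ∈ 𝔞 := by
  obtain ⟨a, e, hs, he, hea, hex, he0, rfl⟩ := hT
  exact Rt_mem hM ha hea

lemma cpl_ip {a b : Matrix ι ι ℂ} (ha : a ∈ 𝔞) (haH : aᴴ = a) (hb : b ∈ cpl h 𝔞) :
    ip a b = 0 := by
  have h1 := hb.2 a ha
  rw [haH] at h1
  rw [ip, h1, Complex.zero_re]

/-- The components of the regular element. -/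
lemma x_dec (hM : Mdl h V) (hx : IsReg h x) (ha : IsId h 𝔞) :
    ∃ xa ∈ 𝔞, ∃ xb ∈ cpl h 𝔞, x = xa + xb ∧ xaᴴ = xa ∧ xbᴴ = xb ∧ x * xa = xa * x ∧
      x * xb = xb * x := by
  obtain ⟨xa, hxa, xb, hxb, hxx⟩ := cpl_dec ha hx.mem
  obtain ⟨h1, h2⟩ := dec_herm hM ha hx.herm hxa hxb hxx
  obtain ⟨h3, h4⟩ := dec_comm hM ha hx.mem hxa hxb hxx rfl
  exact ⟨xa, hxa, xb, hxb, hxx, h1, h2, h3, h4⟩

/-- Values at the component of the complement. -/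
lemma val_b (hM : Mdl h V) (hx : IsReg h x) (ha : IsId h 𝔞) {xa xb : Matrix ι ι ℂ}
    (hxa : xa ∈ 𝔞) (hxb : xb ∈ cpl h 𝔞) (hxx : x = xa + xb) (hxaH : xaᴴ = xa)
    {e : Matrix ι ι ℂ} (he : IsRV h x e) :
    (e ∈ 𝔞 → ip (Rt e) xb = 0) ∧ (e ∈ cpl h 𝔞 → ip (Rt e) xb = ip (Rt e) x) := by
  constructor
  · intro hea
    exact cpl_ip (Rt_mem hM ha hea) (he.herm hM.la hx) hxb
  · intro heb
    have h1 : Rt e ∈ cpl h 𝔞 := Rt_mem hM (cpl_id hM ha) heb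
    rw [hxx, ip_add', ip_comm (Rt e) xa, cpl_ip hxa hxaH h1, zero_add]

/-- The highest weight is maximal on the complement. -/
lemma top_b (hM : Mdl h V) (hx : IsReg h x) (ha : IsId h 𝔞) (hS : IsTop h x V S)
    {xa xb : Matrix ι ι ℂ} (hxa : xa ∈ 𝔞) (hxb : xb ∈ cpl h 𝔞) (hxx : x = xa + xb)
    (hxaH : xaᴴ = xa) {T : Matrix ι ι ℂ} (hT : T ∈ wts h x V) : ip T xb ≤ ip S xb := by
  by_contra hcon
  push Not at hcon
  have hfin : {T | T ∈ wts h x V ∧ ip S xb < ip T xb}.Finite :=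
    (wts_finite hM hx).subset fun T hT => hT.1
  obtain ⟨T₁, ⟨hT₁, hlt⟩, hmax⟩ := Set.exists_max_image _ (fun T => ip T x) hfin ⟨T, hT, hcon⟩
  have hne : T₁ ≠ S := by rintro rfl; exact lt_irrefl _ hlt
  obtain ⟨v, hv, hv0, hvT⟩ := hT₁
  obtain ⟨a, e, hs, he, hea, hev⟩ := exists_up hM hx hS hv hv0 hvT hne
  have he0 : e ≠ 0 := by rintro rfl; exact hev (Matrix.zero_mulVec v)
  have hrv := simple_rv hs he hea he0
  have hup := wt_root_mem hM hx hv hvT hrv hev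
  have hval := rv_val hM hx hrv hea
  obtain ⟨h1, h2⟩ := val_b hM hx ha hxa hxb hxx hxaH hrv
  have h3 : 0 ≤ ip (Rt e) xb := by
    rcases root_dich hM hx ha hs.pos.ne' he hea with h4 | h4
    · rw [h1 h4]
    · rw [h2 h4, hval]; exact hs.pos.le
  have h4 := hmax (T₁ + Rt e) ⟨hup, by rw [ip_add]; linarith⟩
  simp only [ip_add] at h4
  rw [hval] at h4
  have := hs.pos
  linarith

/-- Raising the weights by simple roots of the ideal. -/
lemma up_a (hM : Mdl h V) (hx : IsReg h x) (ha : IsId h 𝔞) (hS : IsTop h x V S)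
    {T : Matrix ι ι ℂ} (hT : T ∈ wts h x V) (hTS : T - S ∈ 𝔞) (hne : T ≠ S) :
    ∃ β ∈ srt h 𝔞 x, T + β ∈ wts h x V := by
  obtain ⟨xa, hxa, xb, hxb, hxx, hxaH, hxbH, hc1, hc2⟩ := x_dec hM hx ha
  have hT' := hT
  obtain ⟨v, hv, hv0, hvT⟩ := hT
  obtain ⟨a, e, hs, he, hea, hev⟩ := exists_up hM hx hS hv hv0 hvT hne
  have he0 : e ≠ 0 := by rintro rfl; exact hev (Matrix.zero_mulVec v)
  have hrv := simple_rv hs he hea he0
  have hup := wt_root_mem hM hx hv hvT hrv hev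
  have hval := rv_val hM hx hrv hea
  obtain ⟨h1, h2⟩ := val_b hM hx ha hxa hxb hxx hxaH hrv
  rcases root_dich hM hx ha hs.pos.ne' he hea with h4 | h4
  · exact ⟨Rt e, ⟨a, e, hs, he, h4, hea, he0, rfl⟩, hup⟩
  · exfalso
    have h5 := top_b hM hx ha hS hxa hxb hxx hxaH hup
    rw [ip_add, h2 h4, hval] at h5
    have h6 : ip (T - S) xb = 0 := by
      refine cpl_ip hTS ?_ hxb
      rw [Matrix.conjTranspose_sub, wts_herm hT', wts_herm hS.mem]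
    rw [ip_sub] at h6
    have := hs.pos
    linarith

variable (hM : Mdl h V) (hx : IsReg h x) (G : Gd n h V x y g) (hI : IsInv h V N)
  (hNc : N ∈ ct h x) (hga : ∀ z ∈ gen h N, g * z * gᴴ ∈ gen h N)
  (hga' : ∀ z ∈ gen h N, gᴴ * z * g ∈ gen h N) (hS : IsTop h x V S)

include hM hx G hI hNc hga hga' hS

/-- The combinatorial data. -/
theorem mkWD (hn : 2 ≤ n) : Comb.WD (bH ι) (fH x) {R : HE ι | (R : Matrix ι ι ℂ) ∈ srt h (gen h N) x}
    {T : HE ι | (T : Matrix ι ι ℂ) ∈ wts h x V ∧ (T : Matrix ι ι ℂ) - S ∈ gen h N} (aH g)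
    ⟨S, wts_herm hS.mem⟩ := by
  have hsim := gen_sim hM hI.mem hI.herm hI.sq
  have hid := hsim.id
  have hSw := hS.mem
  have hfixS : g * S * gᴴ = S := G.al_fix hM hx hS.mem (t1 (by omega) hM hx G.C hS)
  have hP : ∀ {T β : Matrix ι ι ℂ}, T ∈ wts h x V → T - S ∈ gen h N → β ∈ srt h (gen h N) x →
      (2 * ip T β = ip β β ∨ 2 * ip T β = 0 ∨ 2 * ip T β = - ip β β) ∧
      (2 * ip T β = ip β β ↔ T - β ∈ wts h x V) ∧
      (2 * ip T β = - ip β β ↔ T + β ∈ wts h x V) := by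
    intro T β hT hTS hβ
    obtain ⟨a, e, hs, he, hea, hex, he0, rfl⟩ := hβ
    have hrv := simple_rv hs he hex he0
    have h0 := sq0 hM hx hI hNc hrv hea
    exact ⟨A3 hM hx hrv h0 hT, A4 hM hx hrv h0 hT, A5 hM hx hrv h0 hT⟩
  have hSrt : ∀ {β : Matrix ι ι ℂ}, β ∈ srt h (gen h N) x → β ∈ gen h N :=
    fun hβ => srt_mem hM hid hβ
  constructor
  · intro u v
    exact ip_comm _ _
  · intro v hv
    exact ip_self_pos v.2 (fun h0 => hv (Subtype.ext h0))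
  · intro u v
    exact ip_conj G.u2 _ _
  · rintro T ⟨hT, hTS⟩
    refine ⟨G.al_mem hM hx hT, ?_⟩
    have h1 := hga _ hTS
    rw [Matrix.mul_sub, Matrix.sub_mul, hfixS] at h1
    exact h1
  · intro β hβ
    exact G.al_srt hM hx hga hβ
  · intro ε hε
    refine ⟨⟨gᴴ * (ε : Matrix ι ι ℂ) * g, ?_⟩, G.al_srt' hM hx hga' hε, ?_⟩
    · rw [mem_HE, Matrix.conjTranspose_mul, Matrix.conjTranspose_mul, mem_HE.1 ε.2,
        Matrix.conjTranspose_conjTranspose, Matrix.mul_assoc]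
    · ext1
      exact conj_inv G.u1
  · intro β hβ γ hγ hne
    exact srt_obt hM hx hβ hγ (fun h0 => hne (Subtype.ext h0))
  · intro β hβ
    obtain ⟨a, e, hs, he, hea, hex, he0, hβe⟩ := hβ
    rw [fH_apply, hβe, rv_val hM hx (simple_rv hs he hex he0) hex]
    exact hs.pos
  · rintro T ⟨hT, hTS⟩ β hβ
    exact (hP hT hTS hβ).1
  · rintro T ⟨hT, hTS⟩ β hβ
    rw [bH_apply, bH_apply, (hP hT hTS hβ).2.1]
    refine ⟨fun h1 => ⟨h1, ?_⟩, fun h1 => h1.1⟩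
    have : (T : Matrix ι ι ℂ) - β - S = (T - S) - β := by abel
    change (T : Matrix ι ι ℂ) - β - S ∈ gen h N
    rw [this]
    exact Submodule.sub_mem _ hTS (hSrt hβ)
  · rintro T ⟨hT, hTS⟩ β hβ
    rw [bH_apply, bH_apply, (hP hT hTS hβ).2.2]
    refine ⟨fun h1 => ⟨h1, ?_⟩, fun h1 => h1.1⟩
    have : (T : Matrix ι ι ℂ) + β - S = (T - S) + β := by abel
    change (T : Matrix ι ι ℂ) + β - S ∈ gen h N
    rw [this]
    exact Submodule.add_mem _ hTS (hSrt hβ)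
  · refine Set.Finite.of_finite_image (f := fun T : HE ι => (T : Matrix ι ι ℂ)) ?_
      Subtype.val_injective.injOn
    refine (wts_finite hM hx).subset ?_
    rintro _ ⟨T, hT, rfl⟩
    exact hT.1
  · exact ⟨hS.mem, by rw [sub_self]; exact Submodule.zero_mem _⟩
  · ext1
    exact hfixS
  · rintro T ⟨hT, hTS⟩ hne
    obtain ⟨β, hβ, hup⟩ := up_a hM hx hid hS hT hTS (fun h0 => hne (Subtype.ext h0))
    refine ⟨⟨β, srt_herm hM hx hβ⟩, hβ, hup, ?_⟩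
    have : (T : Matrix ι ι ℂ) + β - S = (T - S) + β := by abel
    change (T : Matrix ι ι ℂ) + β - S ∈ gen h N
    rw [this]
    exact Submodule.add_mem _ hTS (hSrt hβ)
  · intro β hβ hup
    obtain ⟨a, e, hs, he, hea, hex, he0, hβe⟩ := hβ
    have h1 := hS.max _ hup.1
    change ip (S + (β : Matrix ι ι ℂ)) x ≤ ip S x at h1
    rw [hβe, ip_add, rv_val hM hx (simple_rv hs he hex he0) hex] at h1
    have := hs.pos
    linarith
  · intro β hβ hdn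
    ext1
    have h1 : (S - (β : Matrix ι ι ℂ)) ∈ wts h x V := hdn.1
    obtain ⟨a, e, hs, he, hea, hex, he0, hβe⟩ := hβ
    have hrv := simple_rv hs he hex he0
    rw [hβe] at h1
    have h2 := (A4 hM hx hrv (sq0 hM hx hI hNc hrv hea) hS.mem).2 h1
    have h3 := Rt_pos hM hx hrv
    have h4 := t2 (by omega) hM hx G.C hS hs he hex he0 (by linarith)
    rw [aH_coe]
    change g * (S - (β : Matrix ι ι ℂ)) * gᴴ = S - (β : Matrix ι ι ℂ)
    rw [hβe]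
    exact G.al_fix hM hx h1 h4
  · intro D hD hne hcl
    have h1 := srt_con hM hx hsim (D := (fun R : HE ι => (R : Matrix ι ι ℂ)) '' D) ?_ ?_ ?_
    · intro ε hε
      obtain ⟨ε', hε', he⟩ := h1 hε
      have : ε' = ε := Subtype.ext he
      rw [← this]
      exact hε'
    · rintro _ ⟨R, hR, rfl⟩
      exact hD hR
    · exact hne.image _
    · rintro _ ⟨γ, hγ, rfl⟩ ε hε h2
      exact ⟨⟨ε, srt_herm hM hx hε⟩, hcl γ hγ ⟨ε, srt_herm hM hx hε⟩ hε h2, rfl⟩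

/-- The third condition. -/
theorem mkW3 (hn : 3 ≤ n) :
    ∀ δ ∈ {R : HE ι | (R : Matrix ι ι ℂ) ∈ srt h (gen h N) x},
    ∀ β ∈ {R : HE ι | (R : Matrix ι ι ℂ) ∈ srt h (gen h N) x},
    (⟨S, wts_herm hS.mem⟩ - δ : HE ι) ∈
      {T : HE ι | (T : Matrix ι ι ℂ) ∈ wts h x V ∧ (T : Matrix ι ι ℂ) - S ∈ gen h N} →
    (⟨S, wts_herm hS.mem⟩ - β : HE ι) ∉
      {T : HE ι | (T : Matrix ι ι ℂ) ∈ wts h x V ∧ (T : Matrix ι ι ℂ) - S ∈ gen h N} →
    (⟨S, wts_herm hS.mem⟩ - δ - β : HE ι) ∈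
      {T : HE ι | (T : Matrix ι ι ℂ) ∈ wts h x V ∧ (T : Matrix ι ι ℂ) - S ∈ gen h N} →
    aH g (⟨S, wts_herm hS.mem⟩ - δ - β) = ⟨S, wts_herm hS.mem⟩ - δ - β := by
  intro δ hδ β hβ h1 h2 h3
  have hid := (gen_sim hM hI.mem hI.herm hI.sq).id
  have hSrt : ∀ {β : Matrix ι ι ℂ}, β ∈ srt h (gen h N) x → β ∈ gen h N :=
    fun hβ => srt_mem hM hid hβ
  ext1
  have h1' : (S - (δ : Matrix ι ι ℂ)) ∈ wts h x V := h1.1
  have h3' : (S - (δ : Matrix ι ι ℂ) - β) ∈ wts h x V := h3.1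
  have h2' : (S - (β : Matrix ι ι ℂ)) ∉ wts h x V := by
    intro h4
    apply h2
    refine ⟨h4, ?_⟩
    have : S - (β : Matrix ι ι ℂ) - S = -β := by abel
    change S - (β : Matrix ι ι ℂ) - S ∈ gen h N
    rw [this]
    exact Submodule.neg_mem _ (hSrt hβ)
  obtain ⟨a, e, hs, he, hea, hex, he0, hδe⟩ := hδ
  obtain ⟨b, f, hs', hf, hfa, hfx, hf0, hβf⟩ := hβ
  have hrv := simple_rv hs he hex he0
  have hrv' := simple_rv hs' hf hfx hf0
  rw [hδe] at h1' h3'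
  rw [hβf] at h2' h3'
  have h4 := (A4 hM hx hrv (sq0 hM hx hI hNc hrv hea) hS.mem).2 h1'
  have h5 := Rt_pos hM hx hrv
  have h6 := (A4 hM hx hrv' (sq0 hM hx hI hNc hrv' hfa) h1').2 h3'
  have h7 := Rt_pos hM hx hrv'
  have h8 := t3 hn hM hx G.C hS hs he hex he0 (by linarith) hs' hf hfx hf0 (by linarith) h2'
  rw [aH_coe]
  change g * (S - (δ : Matrix ι ι ℂ) - (β : Matrix ι ι ℂ)) * gᴴ =
    S - (δ : Matrix ι ι ℂ) - (β : Matrix ι ι ℂ)
  rw [hδe, hβf]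
  exact G.al_fix hM hx h3' h8

/-- **The dichotomy.** -/
theorem dich (hn : 3 ≤ n) : (∀ T ∈ wts h x V, T - S ∈ gen h N → g * T * gᴴ = T) ∨
    ∃ T₀ ∈ wts h x V, T₀ - S ∈ gen h N ∧ ∃ β ∈ srt h (gen h N) x, ∃ β' ∈ srt h (gen h N) x,
      β ≠ β' ∧ ip β β' = 0 ∧ ip β β = ip β' β' ∧ 2 * ip T₀ β = ip β β ∧
      2 * ip T₀ β' = ip β' β' ∧
      ∀ ε ∈ srt h (gen h N) x, 2 * ip T₀ ε - ip β ε - ip β' ε = 0 := by
  have hW := mkWD hM hx G hI hNc hga hga' hS (by omega)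
  rcases Comb.dichotomy hW (mkW3 hM hx G hI hNc hga hga' hS hn) with h1 | ⟨T₀, hT₀, β, hβ, β', hβ', h1, h2, h3, h4, h5, h6⟩
  · left
    intro T hT hTS
    have h2 := h1 ⟨T, wts_herm hT⟩ ⟨hT, hTS⟩
    exact congrArg (fun R : HE ι => (R : Matrix ι ι ℂ)) h2
  · right
    refine ⟨T₀, hT₀.1, hT₀.2, β, hβ, β', hβ', fun h0 => h1 (Subtype.ext h0), h2, h3, h4, h5, ?_⟩
    intro ε hε
    have h7 := h6 ⟨ε, srt_herm hM hx hε⟩ hε
    simp only [map_sub, map_smul, LinearMap.sub_apply, LinearMap.smul_apply, smul_eq_mul,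
      bH_apply] at h7
    exact h7

end Run7.h226.Wts
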