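import Pool.Agent.Run7.h226.Cdefs

/-!
# Galois actions, Tate classes and the Tate conjecture: definitions

In the intended use `k` is an algebraic closure of a finitely generated field `k₁` of
characteristic zero, the varieties are the smooth projective varieties over `k`, the theory `T` is
`X ↦ H(ρ X, ℚ)` for an embedding `ρ` of `k` into the field of complex numbers, `X` is an abelian
variety which is defined over `k₁`, and `Γ` is the Galois group of `k₁`, which acts on
`H(X ^ n, ℚ_ℓ) = H(ρ X ^ n, ℚ) ⊗ ℚ_ℓ`. The Tate twists are suppressed: `H(X, ℚ_ℓ)(j)` is `H(X, ℚ_ℓ)`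
with the action multiplied by the power with exponent `-j` of the character `χ`.
-/

open CategoryTheory AlgebraicGeometry

universe u

namespace Run7.h226

open Pool.Agent.H914 Pool.Agent.H914.VarClass Pool.Agent.H914.VarClass.Obj
  Pool.Agent.H914.WeilCohomology
open Pool.Agent.Y121.AHS
open Pool.Agent.Y133.Half (pw)
open Pool.Agent.N996.FP

section Rep

variable (K : Type) [Field K] [TopologicalSpace K] (G : Type*) [Group G] [TopologicalSpace G]
  (V : Type) [AddCommGroup V] [Module K V]

/-- A continuous character of the group `G` with values in `K`. -/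
structure ContChar where
  /-- the character -/
  χ : G →* K
  cont : Continuous χ

/-- A linear representation of the group `G` on the vector space `V` with continuous matrix
coefficients. -/
structure ContRep where
  /-- the operators -/
  ρ : G →* Module.End K V
  cont : ∀ (v : V) (φ : V →ₗ[K] K), Continuous fun g => φ (ρ g v)

variable {K G V}

/-- The image of the vector `v` under `g`. -/
def ContRep.act (r : ContRep K G V) (g : G) (v : V) : V := r.ρ g v

/-- An open subgroup of `G` acts on the vector `v` by the power `χ ^ j` of the character. -/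
def ContRep.Eigen (r : ContRep K G V) (c : ContChar K G) (j : ℕ) (v : V) : Prop :=
  ∃ U : Subgroup G, IsOpen (U : Set G) ∧ ∀ g ∈ U, r.ρ g v = c.χ g ^ j • v

/-- The representation is semisimple: for every open subgroup `U` of `G`, every subspace which is
stable under `U` has a stable complement. -/
def ContRep.Semisimple (r : ContRep K G V) : Prop :=
  ∀ U : Subgroup G, IsOpen (U : Set G) → ∀ W : Submodule K V,
    (∀ g ∈ U, ∀ v ∈ W, r.ρ g v ∈ W) → ∃ W' : Submodule K V,
      IsCompl W W' ∧ ∀ g ∈ U, ∀ v ∈ W', r.ρ g v ∈ W'

/-- Every element of the set `A` belongs to the span of the set `B`. -/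
def InSpan (K : Type) [Field K] {V : Type} [AddCommGroup V] [Module K V] (A B : V → Prop) : Prop :=
  ∀ v, A v → v ∈ Submodule.span K {w | B w}

end Rep

variable {k : Type u} [Field k] {𝒱 : VarClass k} {ops : CycleOps 𝒱}

/-- A prime number `ℓ`, and the field `ℚ_ℓ` as an extension of the field of coefficients of the
Hodge theory (which is the field of rational numbers). -/
structure PrimeNumber (T : HodgeTheory ops) where
  /-- the prime number -/
  ℓ : ℕ
  [prime : Fact ℓ.Prime]
  [alg : Algebra T.W.K ℚ_[ℓ]]

attribute [instance] PrimeNumber.prime PrimeNumber.alg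

section Coh

variable {T : HodgeTheory ops} (E : PrimeNumber T) {Y Z : 𝒱.Obj}

/-- The `ℓ`-adic cohomology `H(Y, ℚ_ℓ)`. -/
def PrimeNumber.H (Y : 𝒱.Obj) : Type := HL T.W ℚ_[E.ℓ] Y

noncomputable instance instAddE (Y : 𝒱.Obj) : AddCommGroup (E.H Y) := instAddHL T.W ℚ_[E.ℓ] Y

noncomputable instance instModE (Y : 𝒱.Obj) : Module ℚ_[E.ℓ] (E.H Y) := instModHL T.W ℚ_[E.ℓ] Y

/-- The class `1 ⊗ c`. -/
noncomputable def PrimeNumber.em (c : T.W.H Y) : E.H Y := emL T.W ℚ_[E.ℓ] c

variable {E}

/-- The product. -/
noncomputable def mulE (a b : E.H Y) : E.H Y := mulL a b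

/-- The pull-back. -/
noncomputable def mapE (f : Y ⟶ Z) (b : E.H Z) : E.H Y := mapL f b

/-- The class is of degree `i`. -/
def IsDegE (i : ℕ) (a : E.H Y) : Prop := IsDeg i a

/-- The class comes from a class of an algebraic cycle of codimension `j`. -/
def IsAlg (j : ℕ) (a : E.H Y) : Prop := ∃ z, Y.IsCyc j z ∧ a = E.em (T.W.cl Y z)

/-- The class comes from a Hodge class of codimension `j`. -/
def IsHdg (j : ℕ) (a : E.H Y) : Prop := ∃ c, IsHodge T Y j c ∧ a = E.em c

/-- The topology of the field `ℚ_ℓ`. -/
noncomputable instance instTopE : TopologicalSpace ℚ_[E.ℓ] := inferInstance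

/-- A continuous representation of `Γ` on the `ℓ`-adic cohomology of `Y`. -/
def PrimeNumber.Rep (E : PrimeNumber T) (Γ : Type*) [Group Γ] [TopologicalSpace Γ] (Y : 𝒱.Obj) :
    Type _ := ContRep ℚ_[E.ℓ] Γ (E.H Y)

/-- The image of the class `a` under `γ`. -/
noncomputable def PrimeNumber.Rep.act {Γ : Type*} [Group Γ] [TopologicalSpace Γ] (r : E.Rep Γ Y)
    (γ : Γ) (a : E.H Y) : E.H Y := ContRep.act r γ a

end Coh

/-- A continuous action of the topological group `Γ` on the `ℓ`-adic cohomology of the powers of
`X`, by automorphisms of graded algebras which commute with the pull-backs along the coordinate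
maps, and a continuous character of `Γ` with values in `ℚ_ℓ` (the inverse of the cyclotomic
character). Here `pw X n` is `X ^ (n + 1)`. -/
structure GaloisAction {T : HodgeTheory ops} (E : PrimeNumber T) (X : 𝒱.Obj) (Γ : Type*) [Group Γ]
    [TopologicalSpace Γ] where
  /-- the character -/
  c : ContChar ℚ_[E.ℓ] Γ
  /-- the action on the cohomology of `X ^ (n + 1)` -/
  r : ∀ n, E.Rep Γ (pw X n)
  mul : ∀ n γ a b, (r n).act γ (mulE a b) = mulE ((r n).act γ a) ((r n).act γ b)
  deg : ∀ n γ i a, IsDegE i a → IsDegE i ((r n).act γ a)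
  map : ∀ n m (f : pw X m ⟶ pw X n), IsCoordinateMap f →
    ∀ γ a, (r m).act γ (mapE f a) = mapE f ((r n).act γ a)

variable {T : HodgeTheory ops} {E : PrimeNumber T} {X : 𝒱.Obj} {Γ : Type*} [Group Γ]
  [TopologicalSpace Γ] (R : GaloisAction E X Γ)

/-- The class `a` on `X ^ (n + 1)` is a Tate class of codimension `j`: it has degree `2 j`, and
some open subgroup of `Γ` acts on it by the power `χ ^ j` of the character. -/
def IsTate (n j : ℕ) (a : E.H (pw X n)) : Prop :=
  IsDegE (2 * j) a ∧ ContRep.Eigen (R.r n) R.c j a

/-- The Tate conjecture for `X ^ (n + 1)` in codimension `j`: every Tate class of codimension `j`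
is a `ℚ_ℓ`-linear combination of classes of algebraic cycles of codimension `j`. -/
def TateConjectureIn (n j : ℕ) : Prop := InSpan ℚ_[E.ℓ] (IsTate R n j) (IsAlg j)

/-- Tate classes of codimension `j` on `X ^ (n + 1)` are `ℚ_ℓ`-linear combinations of Hodge
classes of codimension `j`. -/
def TateIsHodgeIn (n j : ℕ) : Prop := InSpan ℚ_[E.ℓ] (IsTate R n j) (IsHdg j)

/-- Hodge classes on the powers of `X` are Tate classes. (This is a theorem of Deligne for abelian
varieties.) -/
def HodgeIsTate : Prop := ∀ n j a, IsHdg j a → IsTate R n j a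

/-- The `ℓ`-adic cohomology of `X × X` is semisimple. (This is a theorem of Faltings for abelian
varieties.) -/
def SemisimpleSquare : Prop := ContRep.Semisimple (R.r 1)

end Run7.h226
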