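import Pool.Agent.Run7.h226.Alt

/-!
# The highest weights of the first three exterior powers
-/

set_option linter.unusedSectionVars false

namespace Run7.h226.Wts

open Matrix Pool.Agent.N996.BP Pool.Agent.N996.FP ComplexOrder

variable {ι : Type} [Fintype ι] [DecidableEq ι] {h : Submodule ℂ (Matrix ι ι ℂ)}
  {V : Submodule ℂ (ι → ℂ)} {x y g g' : Matrix ι ι ℂ} {n : ℕ}

/-- The regular element `y` is conjugate to `x` and in the same chamber, by a matrix which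
preserves the stable subspaces of the small tensor powers. -/
structure Cj (n : ℕ) (h : Submodule ℂ (Matrix ι ι ℂ)) (x y g g' : Matrix ι ι ℂ) : Prop where
  inv : g * g' = 1
  yx : y = g * x * g'
  mem : y ∈ h
  herm : yᴴ = y
  comm : x * y = y * x
  pos : IsPosFor h x y
  pr : ∀ k ≤ n, Pres h (dkL (Fin k)) (kp (Fin k) g) ∧ Pres h (dkL (Fin k)) (kp (Fin k) g')

lemma Cj.test (hM : Mdl h V) (C : Cj n h x y g g') {k : ℕ} (hk : k ≤ n) :
    Test h V hM.stab x y k (dkL (Fin k)) (altPi V k) (kp (Fin k) g) (kp (Fin k) g') where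
  brk a b := dk_br (κ := Fin k) a b
  act z hz v := altPi_act hM.stab k z hz v
  ne v hv := altPi_ne k v hv
  inv := by rw [← kp_mul, C.inv, kp_one]
  stab W hW := ⟨(C.pr k hk).1 W hW, (C.pr k hk).2 W hW⟩
  conj := by
    have h1 := kp_dk (κ := Fin k) (mul_eq_one_comm.1 C.inv) x
    rw [← C.yx] at h1
    exact h1

lemma li_of_inj {k : ℕ} {v : Fin k → V} {c : Fin k → ℝ} (hc : Function.Injective c)
    (hv : ∀ j, x *ᵥ (v j : ι → ℂ) = (c j : ℂ) • (v j : ι → ℂ)) (h0 : ∀ j, (v j : ι → ℂ) ≠ 0) :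
    LinearIndependent ℂ v := by
  have h1 : LinearIndependent ℂ fun j => (v j : ι → ℂ) := by
    refine Module.End.eigenvectors_linearIndependent' (Matrix.mulVecLin x) (fun j => (c j : ℂ))
      (fun i j hij => hc (Complex.ofReal_injective hij)) _ fun j => ⟨?_, h0 j⟩
    rw [Module.End.mem_eigenspace_iff]
    exact hv j
  exact LinearIndependent.of_comp V.subtype h1

lemma wt_y (C : Cj n h x y g g') {v : ι → ℂ} {T : Matrix ι ι ℂ}
    (hT : IsWt h x v T) : y *ᵥ v = (ip T y : ℂ) • v := by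
  rw [hT.val y ⟨C.mem, C.comm⟩, tr_ip hT.herm C.herm]

/-- The general form. -/
lemma sum_eq (hM : Mdl h V) (hx : IsReg h x) (C : Cj n h x y g g') {k : ℕ} (hk : k ≤ n)
    {v : Fin k → V} {T : Fin k → Matrix ι ι ℂ} (hT : ∀ j, IsWt h x (v j) (T j))
    (h0 : ∀ j, (v j : ι → ℂ) ≠ 0) (hinj : Function.Injective fun j => ip (T j) x)
    (hr : ∀ a : ℝ, 0 < a → ∀ e (he : e ∈ h), e ∈ EA x a → ∀ j,
      (⟨e *ᵥ (v j : ι → ℂ), hM.stab e he _ (v j).2⟩ : V) ∈ Submodule.span ℂ (v '' {i | i < j})) :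
    ∑ j, ip (T j) x = ∑ j, ip (T j) y :=
  (C.test hM hk).sum_eq hM.la hx C.mem C.herm C.comm C.pos
    (li_of_inj hinj (fun j => wt_x hx (hT j)) h0) (fun j => wt_x hx (hT j))
    (fun j => wt_y C (hT j)) hr

lemma span_of (k : ℕ) {v : Fin k → V} {j i : Fin k} (hij : i < j) {w : ι → ℂ} (hw : w ∈ V)
    (hh : ∃ c : ℂ, w = c • (v i : ι → ℂ)) :
    (⟨w, hw⟩ : V) ∈ Submodule.span ℂ (v '' {i | i < j}) := by
  obtain ⟨c, hc⟩ := hh
  have : (⟨w, hw⟩ : V) = c • v i := Subtype.ext hc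
  rw [this]
  exact Submodule.smul_mem _ _ (Submodule.subset_span ⟨i, hij, rfl⟩)

lemma span_zero (k : ℕ) {v : Fin k → V} {j : Fin k} {w : ι → ℂ} (hw : w ∈ V) (h0 : w = 0) :
    (⟨w, hw⟩ : V) ∈ Submodule.span ℂ (v '' {i | i < j}) := by
  have : (⟨w, hw⟩ : V) = 0 := Subtype.ext h0
  rw [this]
  exact Submodule.zero_mem _

/-- The first test. -/
lemma t1 (hn : 1 ≤ n) (hM : Mdl h V) (hx : IsReg h x) (C : Cj n h x y g g') {S : Matrix ι ι ℂ}
    (hS : IsTop h x V S) : ip S x = ip S y := by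
  obtain ⟨v, hv, hv0, hvS⟩ := hS.mem
  have h1 := sum_eq hM hx C (k := 1) (by omega) (v := fun _ => ⟨v, hv⟩) (T := fun _ => S)
    (fun _ => hvS) (fun _ => hv0) (fun i j _ => Subsingleton.elim i j) (by
      intro a ha e he hea j
      exact span_zero 1 _ (top_raise hM hx hS hv hvS ha he hea))
  rwa [Fin.sum_univ_one, Fin.sum_univ_one] at h1

/-- Raising operators on the vector `eᴴ v`. -/
lemma raise2 (hM : Mdl h V) (hx : IsReg h x) {S : Matrix ι ι ℂ} (hS : IsTop h x V S)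
    {v : ι → ℂ} (hv : v ∈ V) (hvS : IsWt h x v S) {d : ℝ} {f : Matrix ι ι ℂ}
    (hs : IsSimple h x d) (hf : f ∈ h) (hfd : f ∈ EA x d) {a : ℝ} (ha : 0 < a)
    {e : Matrix ι ι ℂ} (he : e ∈ h) (hea : e ∈ EA x a) :
    ∃ c : ℂ, e *ᵥ (fᴴ *ᵥ v) = c • v := by
  have h1 : e *ᵥ (fᴴ *ᵥ v) = br e fᴴ *ᵥ v := by
    rw [br, Matrix.sub_mulVec, ← Matrix.mulVec_mulVec, ← Matrix.mulVec_mulVec,
      top_raise hM hx hS hv hvS ha he hea, Matrix.mulVec_zero, sub_zero]
  have hk : br e fᴴ ∈ h := hM.la.lie _ he _ (hM.la.star _ hf)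
  have hkx : br e fᴴ ∈ EA x ((a - d : ℝ) : ℂ) := by
    have h1 := EA_br hea (EA_star hx.herm hfd)
    have h2 : (a : ℂ) + ((-d : ℝ) : ℂ) = ((a - d : ℝ) : ℂ) := by push_cast; ring
    rwa [h2] at h1
  rw [h1]
  rcases lt_trichotomy a d with hlt | heq | hlt
  · exact ⟨0, by rw [br_simple hM hx ha hs hlt he hea hf hfd, Matrix.zero_mulVec, zero_smul]⟩
  · rw [heq, sub_self, Complex.ofReal_zero] at hkx
    exact ⟨_, hvS.val _ ⟨hk, EA_zero hkx⟩⟩
  · exact ⟨0, by rw [top_raise hM hx hS hv hvS (sub_pos.2 hlt) hk hkx, zero_smul]⟩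

/-- The second test. -/
lemma t2 (hn : 2 ≤ n) (hM : Mdl h V) (hx : IsReg h x) (C : Cj n h x y g g') {S : Matrix ι ι ℂ}
    (hS : IsTop h x V S) {d : ℝ} {f : Matrix ι ι ℂ} (hs : IsSimple h x d) (hf : f ∈ h)
    (hfd : f ∈ EA x d) (hf0 : f ≠ 0) (hpos : 0 < ip S (Rt f)) :
    ip (S - Rt f) x = ip (S - Rt f) y := by
  obtain ⟨v, hv, hv0, hvS⟩ := hS.mem
  have hr := simple_rv hs hf hfd hf0
  obtain ⟨h1, h2⟩ := move hM.la hx hvS hv0 hr hpos
  have hw : fᴴ *ᵥ v ∈ V := hM.stab _ (hM.la.star f hf) v hv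
  have hval := rv_val hM hx hr hfd
  have h3 := sum_eq hM hx C (k := 2) (by omega) (v := ![⟨v, hv⟩, ⟨fᴴ *ᵥ v, hw⟩])
    (T := ![S, S - Rt f]) (by
      intro j; fin_cases j
      · exact hvS
      · exact h2) (by
      intro j; fin_cases j
      · exact hv0
      · exact h1) (by
      have e1 : ip (S - Rt f) x < ip S x := by rw [ip_sub, hval]; linarith [hs.pos]
      intro i j hij
      fin_cases i <;> fin_cases j
      · rfl
      · exact absurd hij e1.ne'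
      · exact absurd hij e1.ne
      · rfl) (by
      intro a ha e he hea j
      fin_cases j
      · exact span_zero 2 _ (top_raise hM hx hS hv hvS ha he hea)
      · exact span_of 2 (i := 0) (j := 1) Fin.zero_lt_one _
          (raise2 hM hx hS hv hvS hs hf hfd ha he hea))
  rw [Fin.sum_univ_two, Fin.sum_univ_two] at h3
  have h4 := t1 (by omega) hM hx C hS
  change ip S x + ip (S - Rt f) x = ip S y + ip (S - Rt f) y at h3
  linarith

/-- The third test. -/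
lemma t3 (hn : 3 ≤ n) (hM : Mdl h V) (hx : IsReg h x) (C : Cj n h x y g g') {S : Matrix ι ι ℂ}
    (hS : IsTop h x V S) {d b : ℝ} {f e₁ : Matrix ι ι ℂ} (hs : IsSimple h x d) (hf : f ∈ h)
    (hfd : f ∈ EA x d) (hf0 : f ≠ 0) (hpos : 0 < ip S (Rt f)) (hs' : IsSimple h x b)
    (he₁ : e₁ ∈ h) (he₁b : e₁ ∈ EA x b) (he₁0 : e₁ ≠ 0) (hpos' : 0 < ip (S - Rt f) (Rt e₁))
    (hno : S - Rt e₁ ∉ wts h x V) :
    ip (S - Rt f - Rt e₁) x = ip (S - Rt f - Rt e₁) y := by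
  obtain ⟨v, hv, hv0, hvS⟩ := hS.mem
  have hr := simple_rv hs hf hfd hf0
  have hr' := simple_rv hs' he₁ he₁b he₁0
  obtain ⟨h1, h2⟩ := move hM.la hx hvS hv0 hr hpos
  have hw : fᴴ *ᵥ v ∈ V := hM.stab _ (hM.la.star f hf) v hv
  obtain ⟨h3, h4⟩ := move hM.la hx h2 h1 hr' hpos'
  have hu : e₁ᴴ *ᵥ (fᴴ *ᵥ v) ∈ V := hM.stab _ (hM.la.star e₁ he₁) _ hw
  have hval := rv_val hM hx hr hfd
  have hval' := rv_val hM hx hr' he₁b
  -- the lowering operator of `e₁` kills `v`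
  have hkill : e₁ᴴ *ᵥ v = 0 := by
    by_contra h0
    have hst := hr'.star hM.la hx
    apply hno
    have := wt_root_mem hM hx hv hvS hst.1 h0
    rwa [hst.2, ← sub_eq_add_neg] at this
  have h5 := sum_eq hM hx C (k := 3) (by omega)
    (v := ![⟨v, hv⟩, ⟨fᴴ *ᵥ v, hw⟩, ⟨e₁ᴴ *ᵥ (fᴴ *ᵥ v), hu⟩])
    (T := ![S, S - Rt f, S - Rt f - Rt e₁]) (by
      intro j; fin_cases j
      · exact hvS
      · exact h2
      · exact h4) (by
      intro j; fin_cases j
      · exact hv0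
      · exact h1
      · exact h3) (by
      have e1 : ip (S - Rt f) x < ip S x := by rw [ip_sub, hval]; linarith [hs.pos]
      have e2 : ip (S - Rt f - Rt e₁) x < ip (S - Rt f) x := by
        rw [ip_sub (S - Rt f), hval']; linarith [hs'.pos]
      intro i j hij
      fin_cases i <;> fin_cases j
      · rfl
      · exact absurd hij e1.ne'
      · exact absurd hij (e2.trans e1).ne'
      · exact absurd hij e1.ne
      · rfl
      · exact absurd hij e2.ne'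
      · exact absurd hij (e2.trans e1).ne
      · exact absurd hij e2.ne
      · rfl) (by
      intro a ha e he hea j
      fin_cases j
      · exact span_zero 3 _ (top_raise hM hx hS hv hvS ha he hea)
      · exact span_of 3 (i := 0) (j := 1) (by decide) _
          (raise2 hM hx hS hv hvS hs hf hfd ha he hea)
      · -- `e e₁ᴴ fᴴ v = [e, e₁ᴴ] fᴴ v + e₁ᴴ e fᴴ v`
        obtain ⟨c, hc⟩ := raise2 hM hx hS hv hvS hs hf hfd ha he hea
        have k1 : e *ᵥ (e₁ᴴ *ᵥ (fᴴ *ᵥ v)) = br e e₁ᴴ *ᵥ (fᴴ *ᵥ v) := by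
          have k2 : br e e₁ᴴ *ᵥ (fᴴ *ᵥ v) =
              e *ᵥ (e₁ᴴ *ᵥ (fᴴ *ᵥ v)) - e₁ᴴ *ᵥ (e *ᵥ (fᴴ *ᵥ v)) := by
            rw [br, Matrix.sub_mulVec, ← Matrix.mulVec_mulVec, ← Matrix.mulVec_mulVec]
          rw [k2, hc, Matrix.mulVec_smul, hkill, smul_zero, sub_zero]
        have hk : br e e₁ᴴ ∈ h := hM.la.lie _ he _ (hM.la.star _ he₁)
        have hkx : br e e₁ᴴ ∈ EA x ((a - b : ℝ) : ℂ) := by
          have h1 := EA_br hea (EA_star hx.herm he₁b)
          have h2 : (a : ℂ) + ((-b : ℝ) : ℂ) = ((a - b : ℝ) : ℂ) := by push_cast; ring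
          rwa [h2] at h1
        rcases lt_trichotomy a b with hlt | heq | hlt
        · refine span_zero 3 _ ?_
          change e *ᵥ (e₁ᴴ *ᵥ (fᴴ *ᵥ v)) = 0
          rw [k1, br_simple hM hx ha hs' hlt he hea he₁ he₁b, Matrix.zero_mulVec]
        · rw [heq, sub_self, Complex.ofReal_zero] at hkx
          refine span_of 3 (i := 1) (j := 2) (by decide) _
            ⟨((S - Rt f) * br e e₁ᴴ).trace, ?_⟩
          change e *ᵥ (e₁ᴴ *ᵥ (fᴴ *ᵥ v)) = ((S - Rt f) * br e e₁ᴴ).trace • (fᴴ *ᵥ v)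
          rw [k1, h2.val _ ⟨hk, EA_zero hkx⟩]
        · refine span_of 3 (i := 0) (j := 2) (by decide) _ ?_
          change ∃ c : ℂ, e *ᵥ (e₁ᴴ *ᵥ (fᴴ *ᵥ v)) = c • v
          rw [k1]
          exact raise2 hM hx hS hv hvS hs hf hfd (sub_pos.2 hlt) hk hkx)
  rw [Fin.sum_univ_three, Fin.sum_univ_three] at h5
  have h6 := t2 (by omega) hM hx C hS hs hf hfd hf0 hpos
  have h7 := t1 (by omega) hM hx C hS
  change ip S x + ip (S - Rt f) x + ip (S - Rt f - Rt e₁) x =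
    ip S y + ip (S - Rt f) y + ip (S - Rt f - Rt e₁) y at h5
  linarith

end Run7.h226.Wts
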