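import Mathlib

/-!
# Extension of the coefficients: spans of vectors with coefficients in a subfield
-/

set_option linter.unusedSectionVars false

namespace Run7.h226.Tt

open Module

variable {K L : Type} [Field K] [Field L] [Algebra K L] {κ : Type} [Fintype κ]

lemma dual_sep {x : L} (h : ∀ φ : L →ₗ[K] K, φ x = 0) : x = 0 :=
  (Module.forall_dual_apply_eq_zero_iff K x).1 h

lemma dual_sep_fn {V : Type*} {x : V → L} (h : ∀ φ : L →ₗ[K] K, (fun k => φ (x k)) = 0) :
    x = 0 := funext fun k => dual_sep fun φ => congrFun (h φ) k

/-- The span over the larger field. -/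
def spn (L : Type) [Field L] [Algebra K L] (S : Submodule K (κ → K)) : Submodule L (κ → L) :=
  Submodule.span L ((fun (x : κ → K) k => algebraMap K L (x k)) '' (S : Set (κ → K)))

/-- The functional multiplied by a scalar. -/
noncomputable def tw (φ : L →ₗ[K] K) (l : L) : L →ₗ[K] K := φ ∘ₗ LinearMap.mulLeft K l

lemma tw_apply (φ : L →ₗ[K] K) (l x : L) : tw φ l x = φ (l * x) := rfl

/-- Membership in the span is tested by functionals. -/
theorem mem_spn {S : Submodule K (κ → K)} {x : κ → L} :
    x ∈ spn L S ↔ ∀ φ : L →ₗ[K] K, (fun k => φ (x k)) ∈ S := by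
  constructor
  · intro hx
    induction hx using Submodule.span_induction with
    | mem y hy =>
      obtain ⟨s, hs, rfl⟩ := hy
      intro φ
      have h1 : (fun k => φ (algebraMap K L (s k))) = φ 1 • s := by
        funext k
        rw [Algebra.algebraMap_eq_smul_one, map_smul, Pi.smul_apply, smul_eq_mul, smul_eq_mul,
          mul_comm]
      rw [h1]
      exact S.smul_mem _ hs
    | zero =>
      intro φ
      have h1 : (fun k => φ ((0 : κ → L) k)) = 0 := by
        funext k
        rw [Pi.zero_apply, map_zero, Pi.zero_apply]
      rw [h1]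
      exact S.zero_mem
    | add a b _ _ ha hb =>
      intro φ
      have h1 : (fun k => φ ((a + b) k)) = (fun k => φ (a k)) + fun k => φ (b k) := by
        funext k
        rw [Pi.add_apply, map_add, Pi.add_apply]
      rw [h1]
      exact S.add_mem (ha φ) (hb φ)
    | smul c a _ ha =>
      intro φ
      exact ha (tw φ c)
  · intro hx
    classical
    let b := Basis.ofVectorSpace K L
    let s : Finset (Basis.ofVectorSpaceIndex K L) :=
      Finset.univ.biUnion fun k => (b.repr (x k)).support
    have h1 : x = ∑ i ∈ s, b i • fun k => algebraMap K L (b.coord i (x k)) := by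
      funext k
      rw [Finset.sum_apply]
      have h2 : x k = ∑ i ∈ (b.repr (x k)).support, (b.repr (x k)) i • b i := by
        conv_lhs => rw [← b.linearCombination_repr (x k)]
        rfl
      have h3 : ∑ i ∈ (b.repr (x k)).support, (b.repr (x k)) i • b i =
          ∑ i ∈ s, (b.repr (x k)) i • b i := by
        refine Finset.sum_subset ?_ ?_
        · intro i hi
          exact Finset.mem_biUnion.2 ⟨k, Finset.mem_univ _, hi⟩
        · intro i _ hi
          rw [Finsupp.notMem_support_iff.1 hi, zero_smul]
      rw [h2.trans h3]
      refine Finset.sum_congr rfl fun i _ => ?_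
      rw [Pi.smul_apply, smul_eq_mul, Algebra.smul_def, mul_comm]
      congr 1
    rw [h1]
    exact Submodule.sum_mem _ fun i _ => Submodule.smul_mem _ _
      (Submodule.subset_span ⟨_, hx (b.coord i), rfl⟩)

end Run7.h226.Tt
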