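import Pool.Agent.Run7.h475.MT.Log
import Pool.Agent.Run7.h615.MT.Kron
import Pool.Agent.N996.BP.Kp

/-!
# `ℓ`-adic logarithms and Tate classes
-/

set_option linter.unusedSectionVars false

namespace Run7.h226.Tt

open Matrix Filter Topology Run7.h457.MT Run7.h475.MT Run7.h615.MT Pool.Agent.N996.BP

variable {ℓ : ℕ} [Fact ℓ.Prime] {ι : Type} [Fintype ι] [DecidableEq ι]

/-- The logarithm of a scalar. -/
def IsLogS (c u : ℚ_[ℓ]) : Prop :=
  Tendsto (fun n : ℕ => ((ℓ : ℚ_[ℓ]) ^ n)⁻¹ * (c ^ ℓ ^ n - 1)) atTop (𝓝 u)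

lemma isLogS_iff {c u : ℚ_[ℓ]} : IsLogS c u ↔
    IsLog (Matrix.diagonal fun _ : Unit => c) (Matrix.diagonal fun _ : Unit => u) := by
  have h1 : ∀ n : ℕ, ((ℓ : ℚ_[ℓ]) ^ n)⁻¹ • ((Matrix.diagonal fun _ : Unit => c) ^ ℓ ^ n - 1) =
      Matrix.diagonal fun _ : Unit => ((ℓ : ℚ_[ℓ]) ^ n)⁻¹ * (c ^ ℓ ^ n - 1) := by
    intro n
    rw [Matrix.diagonal_pow]
    ext i j
    have hij : i = j := Subsingleton.elim _ _
    subst hij
    simp
  unfold IsLog IsLogS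
  simp only [h1]
  constructor
  · intro h
    refine tendsto_pi_nhds.2 fun i => tendsto_pi_nhds.2 fun j => ?_
    have hij : i = j := Subsingleton.elim _ _
    subst hij
    simpa [Matrix.diagonal_apply_eq] using h
  · intro h
    have h2 := (tendsto_pi_nhds.1 ((tendsto_pi_nhds.1 h) ())) ()
    simpa [Matrix.diagonal_apply_eq] using h2

lemma exists_logS {c : ℚ_[ℓ]} (hc : ‖c - 1‖ ≤ ((ℓ : ℝ) ^ 2)⁻¹) : ∃ u, IsLogS c u := by
  obtain ⟨L, hL⟩ := t_LOGEX ℓ Unit (Matrix.diagonal fun _ : Unit => c) (by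
    intro i j
    have hij : i = j := Subsingleton.elim _ _
    subst hij
    simpa using hc)
  refine ⟨L () (), isLogS_iff.2 ?_⟩
  have h1 : (Matrix.diagonal fun _ : Unit => L () ()) = L := by
    ext i j
    have hij : i = j := Subsingleton.elim _ _
    subst hij
    rw [Matrix.diagonal_apply_eq]
  rw [h1]
  exact hL

lemma lt_tendsto : Tendsto (fun n : ℕ => (ℓ : ℚ_[ℓ]) ^ n) atTop (𝓝 0) := by
  refine tendsto_pow_atTop_nhds_zero_of_norm_lt_one ?_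
  exact Padic.norm_p_lt_one

lemma lne (n : ℕ) : (ℓ : ℚ_[ℓ]) ^ n ≠ 0 :=
  pow_ne_zero _ (by exact_mod_cast (Fact.out : ℓ.Prime).ne_zero)

/-- The powers tend to one. -/
lemma pow_one {κ : Type} [Fintype κ] [DecidableEq κ] {g Z : Matrix κ κ ℚ_[ℓ]} (h : IsLog g Z) :
    Tendsto (fun n : ℕ => g ^ ℓ ^ n) atTop (𝓝 1) := by
  have h1 : (fun n : ℕ => g ^ ℓ ^ n) = fun n : ℕ =>
      (ℓ : ℚ_[ℓ]) ^ n • (((ℓ : ℚ_[ℓ]) ^ n)⁻¹ • (g ^ ℓ ^ n - 1)) + 1 := by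
    funext n
    rw [smul_smul, mul_inv_cancel₀ (lne n), one_smul, sub_add_cancel]
  rw [h1]
  have h2 : Tendsto (fun n : ℕ => (ℓ : ℚ_[ℓ]) ^ n • (((ℓ : ℚ_[ℓ]) ^ n)⁻¹ • (g ^ ℓ ^ n - 1)) + 1)
      atTop (𝓝 ((0 : ℚ_[ℓ]) • Z + 1)) := (lt_tendsto.smul h).add tendsto_const_nhds
  rwa [zero_smul, zero_add] at h2

/-- The logarithm of a power. -/
lemma log_pow {κ : Type} [Fintype κ] [DecidableEq κ] {g Z : Matrix κ κ ℚ_[ℓ]} (h : IsLog g Z)
    (e : ℕ) : IsLog (g ^ e) ((e : ℚ_[ℓ]) • Z) := by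
  have h1 : (fun n : ℕ => ((ℓ : ℚ_[ℓ]) ^ n)⁻¹ • ((g ^ e) ^ ℓ ^ n - 1)) = fun n : ℕ =>
      (∑ i ∈ Finset.range e, (g ^ ℓ ^ n) ^ i) * (((ℓ : ℚ_[ℓ]) ^ n)⁻¹ • (g ^ ℓ ^ n - 1)) := by
    funext n
    rw [mul_smul_comm, geom_sum_mul, ← pow_mul, ← pow_mul, mul_comm e]
  unfold IsLog
  rw [h1]
  have h2 : Tendsto (fun n : ℕ => ∑ i ∈ Finset.range e, (g ^ ℓ ^ n) ^ i) atTop
      (𝓝 (∑ i ∈ Finset.range e, (1 : Matrix κ κ ℚ_[ℓ]) ^ i)) :=
    tendsto_finsetSum _ fun i _ => (pow_one h).pow i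
  have h3 : (e : ℚ_[ℓ]) • Z = (∑ i ∈ Finset.range e, (1 : Matrix κ κ ℚ_[ℓ]) ^ i) * Z := by
    simp only [one_pow, Finset.sum_const, Finset.card_range]
    rw [nsmul_eq_mul, mul_one, Nat.cast_smul_eq_nsmul, nsmul_eq_mul]
  rw [h3]
  exact h2.mul h

lemma logS_pow {c u : ℚ_[ℓ]} (h : IsLogS c u) (e : ℕ) : IsLogS (c ^ e) (e * u) := by
  rw [isLogS_iff] at h ⊢
  have h1 := log_pow h e
  rw [Matrix.diagonal_pow] at h1
  have h2 : (e : ℚ_[ℓ]) • (Matrix.diagonal fun _ : Unit => u) =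
      Matrix.diagonal fun _ : Unit => (e : ℚ_[ℓ]) * u := by
    ext i j
    have hij : i = j := Subsingleton.elim _ _
    subst hij
    simp
  rw [h2] at h1
  exact h1

/-- **Eigenvectors of the group are eigenvectors of the logarithm.** -/
lemma log_eig {κ : Type} [Fintype κ] [DecidableEq κ] {g Z : Matrix κ κ ℚ_[ℓ]} (h : IsLog g Z)
    {c u : ℚ_[ℓ]} (hc : IsLogS c u) {a : κ → ℚ_[ℓ]} (ha : g *ᵥ a = c • a) : Z *ᵥ a = u • a := by
  have h1 : ∀ m : ℕ, (g ^ m) *ᵥ a = c ^ m • a := by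
    intro m
    induction m with
    | zero => rw [pow_zero, pow_zero, Matrix.one_mulVec, one_smul]
    | succ m ih =>
      rw [pow_succ, pow_succ, ← Matrix.mulVec_mulVec, ha, Matrix.mulVec_smul, ih, smul_smul,
        mul_comm]
  have h2 : Tendsto (fun n : ℕ => (((ℓ : ℚ_[ℓ]) ^ n)⁻¹ • (g ^ ℓ ^ n - 1)) *ᵥ a) atTop
      (𝓝 (Z *ᵥ a)) := by
    have h3 : Continuous fun M : Matrix κ κ ℚ_[ℓ] => M *ᵥ a := by
      exact continuous_id.matrix_mulVec continuous_const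
    exact (h3.tendsto _).comp h
  have h4 : Tendsto (fun n : ℕ => (((ℓ : ℚ_[ℓ]) ^ n)⁻¹ * (c ^ ℓ ^ n - 1)) • a) atTop
      (𝓝 (u • a)) := hc.smul_const a
  have h5 : (fun n : ℕ => (((ℓ : ℚ_[ℓ]) ^ n)⁻¹ • (g ^ ℓ ^ n - 1)) *ᵥ a) =
      fun n : ℕ => (((ℓ : ℚ_[ℓ]) ^ n)⁻¹ * (c ^ ℓ ^ n - 1)) • a := by
    funext n
    rw [Matrix.smul_mulVec, Matrix.sub_mulVec, h1, Matrix.one_mulVec, ← smul_smul, sub_smul,
      one_smul]
  rw [h5] at h2
  exact tendsto_nhds_unique h2 h4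

/-- The Kronecker power over any field. -/
lemma kron_kp {F : Type} [Field F] (κ : Type) [Fintype κ] [DecidableEq κ] (g : Matrix ι ι F) :
    kron (fun _ : κ => g) = kp κ g := rfl

/-- The derivation over any field. -/
noncomputable def dF {F : Type} [Field F] (κ : Type) [Fintype κ] [DecidableEq κ]
    (x : Matrix ι ι F) : Matrix (κ → ι) (κ → ι) F := dkron fun _ : κ => x

/-- **Classes fixed by a power, up to the character, are eigenvectors of the logarithm.** -/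
lemma kill {g Z : Matrix ι ι ℚ_[ℓ]} (hg : IsLog g Z) {c u : ℚ_[ℓ]} (hc : IsLogS c u) {e : ℕ}
    (he : 0 < e) {κ : Type} [Fintype κ] [DecidableEq κ] {a : (κ → ι) → ℚ_[ℓ]} {j : ℕ}
    (h : kp κ (g ^ e) *ᵥ a = (c ^ e) ^ j • a) : dF κ Z *ᵥ a = ((j : ℚ_[ℓ]) * u) • a := by
  have h1 : IsLog (kp κ (g ^ e)) ((e : ℚ_[ℓ]) • dF κ Z) := by
    have h2 := log_pow (klog (fun _ : κ => g) (fun _ : κ => Z) fun _ => hg) e
    rw [kron_pow] at h2
    exact h2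
  have h3 := logS_pow (logS_pow hc e) j
  have h4 := log_eig h1 h3 h
  have he' : (e : ℚ_[ℓ]) ≠ 0 := by exact_mod_cast he.ne'
  rw [Matrix.smul_mulVec] at h4
  have h5 : (e : ℚ_[ℓ])⁻¹ • ((e : ℚ_[ℓ]) • (dF κ Z *ᵥ a)) =
      (e : ℚ_[ℓ])⁻¹ • (((j : ℚ_[ℓ]) * (e * u)) • a) := by rw [h4]
  rw [smul_smul, smul_smul, inv_mul_cancel₀ he', one_smul] at h5
  rw [h5]
  congr 1
  field_simp

/-- **Matrices commuting with the logarithm commute with the matrix.** -/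
lemma comm_of_log {g Z x : Matrix ι ι ℚ_[ℓ]} (hn : NearOne 2 g) (hg : IsLog g Z)
    (hx : x * Z = Z * x) : x * g = g * x := by
  let G : Matrix (ι ⊕ ι) (ι ⊕ ι) ℚ_[ℓ] := Matrix.fromBlocks g 0 0 g
  let Y : Matrix (ι ⊕ ι) (ι ⊕ ι) ℚ_[ℓ] := Matrix.fromBlocks Z 0 0 Z
  have hG : NearOne 2 G := by
    have h0 : (0 : ℝ) ≤ ((ℓ : ℝ) ^ 2)⁻¹ := by positivity
    rintro (i | i) (j | j)
    · have h1 : (G - 1) (Sum.inl i) (Sum.inl j) = (g - 1) i j := by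
        simp only [G, Matrix.sub_apply, Matrix.fromBlocks_apply₁₁, Matrix.one_apply,
          Sum.inl.injEq]
      rw [h1]; exact hn i j
    · have h1 : (G - 1) (Sum.inl i) (Sum.inr j) = 0 := by
        simp [G, Matrix.sub_apply]
      rw [h1, norm_zero]; exact h0
    · have h1 : (G - 1) (Sum.inr i) (Sum.inl j) = 0 := by
        simp [G, Matrix.sub_apply]
      rw [h1, norm_zero]; exact h0
    · have h1 : (G - 1) (Sum.inr i) (Sum.inr j) = (g - 1) i j := by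
        simp only [G, Matrix.sub_apply, Matrix.fromBlocks_apply₂₂, Matrix.one_apply,
          Sum.inr.injEq]
      rw [h1]; exact hn i j
  have hL : IsLog G Y := by
    have h1 : ∀ n : ℕ, ((ℓ : ℚ_[ℓ]) ^ n)⁻¹ • (G ^ ℓ ^ n - 1) =
        Matrix.fromBlocks (((ℓ : ℚ_[ℓ]) ^ n)⁻¹ • (g ^ ℓ ^ n - 1)) 0 0
          (((ℓ : ℚ_[ℓ]) ^ n)⁻¹ • (g ^ ℓ ^ n - 1)) := by
      intro n
      rw [Matrix.fromBlocks_diagonal_pow]
      ext i j
      rcases i with i | i <;> rcases j with j | j <;>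
        simp [Matrix.sub_apply, Matrix.one_apply]
    unfold IsLog
    simp only [h1]
    have h2 := hg
    unfold IsLog at h2
    refine tendsto_pi_nhds.2 fun i => tendsto_pi_nhds.2 fun j => ?_
    rcases i with i | i <;> rcases j with j | j
    · exact (tendsto_pi_nhds.1 ((tendsto_pi_nhds.1 h2) i)) j
    · exact tendsto_const_nhds
    · exact tendsto_const_nhds
    · exact (tendsto_pi_nhds.1 ((tendsto_pi_nhds.1 h2) i)) j
  let A : Submodule ℚ_[ℓ] (ι ⊕ ι → ℚ_[ℓ]) :=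
    { carrier := {w | (fun i => w (Sum.inr i)) = x *ᵥ fun i => w (Sum.inl i)}
      add_mem' := by
        intro a b ha hb
        have h1 : (fun i => (a + b) (Sum.inl i)) = (fun i => a (Sum.inl i)) +
          fun i => b (Sum.inl i) := rfl
        have h2 : (fun i => (a + b) (Sum.inr i)) = (fun i => a (Sum.inr i)) +
          fun i => b (Sum.inr i) := rfl
        change (fun i => (a + b) (Sum.inr i)) = x *ᵥ fun i => (a + b) (Sum.inl i)
        rw [h1, h2, Matrix.mulVec_add]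
        exact congrArg₂ _ ha hb
      zero_mem' := by
        change (fun _ => (0 : ℚ_[ℓ])) = x *ᵥ fun _ => (0 : ℚ_[ℓ])
        have h1 : (fun _ : ι => (0 : ℚ_[ℓ])) = 0 := rfl
        rw [h1, Matrix.mulVec_zero]
      smul_mem' := by
        intro c a ha
        have h1 : (fun i => (c • a) (Sum.inl i)) = c • fun i => a (Sum.inl i) := rfl
        have h2 : (fun i => (c • a) (Sum.inr i)) = c • fun i => a (Sum.inr i) := rfl
        change (fun i => (c • a) (Sum.inr i)) = x *ᵥ fun i => (c • a) (Sum.inl i)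
        rw [h1, h2, Matrix.mulVec_smul]
        exact congrArg _ ha }
  have hblk : ∀ (M : Matrix ι ι ℚ_[ℓ]) (w : ι ⊕ ι → ℚ_[ℓ]),
      (fun i => (Matrix.fromBlocks M 0 0 M *ᵥ w) (Sum.inl i)) = M *ᵥ (fun i => w (Sum.inl i)) ∧
      (fun i => (Matrix.fromBlocks M 0 0 M *ᵥ w) (Sum.inr i)) = M *ᵥ fun i => w (Sum.inr i) := by
    intro M w
    rw [Matrix.fromBlocks_mulVec]
    constructor
    · funext i
      rw [Sum.elim_inl, Matrix.zero_mulVec, add_zero]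
      rfl
    · funext i
      rw [Sum.elim_inr, Matrix.zero_mulVec, zero_add]
      rfl
  have hst := t_LOGSTAB ℓ (ι ⊕ ι) G Y hG hL A (by
    intro w hw
    change (fun i => (Y *ᵥ w) (Sum.inr i)) = x *ᵥ fun i => (Y *ᵥ w) (Sum.inl i)
    rw [(hblk Z w).1, (hblk Z w).2, Matrix.mulVec_mulVec, hx, ← Matrix.mulVec_mulVec]
    exact congrArg _ hw)
  ext i j
  have h1 := hst (Sum.elim (Pi.single j 1) (x *ᵥ Pi.single j 1)) (by
    change (fun i => Sum.elim (Pi.single j 1) (x *ᵥ Pi.single j 1) (Sum.inr i)) =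
      x *ᵥ fun i => Sum.elim (Pi.single j (1 : ℚ_[ℓ])) (x *ᵥ Pi.single j 1) (Sum.inl i)
    rfl)
  have h2 : (fun i => (G *ᵥ Sum.elim (Pi.single j 1) (x *ᵥ Pi.single j 1)) (Sum.inr i)) =
      x *ᵥ fun i => (G *ᵥ Sum.elim (Pi.single j 1) (x *ᵥ Pi.single j 1)) (Sum.inl i) := h1
  rw [(hblk g _).1, (hblk g _).2] at h2
  have h3 : g *ᵥ (x *ᵥ Pi.single j (1 : ℚ_[ℓ])) = x *ᵥ (g *ᵥ Pi.single j (1 : ℚ_[ℓ])) := h2
  have h4 := congrFun h3 i
  rw [Matrix.mulVec_mulVec, Matrix.mulVec_mulVec, Matrix.mulVec_single_one,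
    Matrix.mulVec_single_one] at h4
  exact h4.symm

/-- The logarithm of a conjugate. -/
lemma log_conj {g Z s s' : Matrix ι ι ℚ_[ℓ]} (h : IsLog g Z) (hs : s' * s = 1) :
    IsLog (s * g * s') (s * Z * s') := by
  have hss : s * s' = 1 := mul_eq_one_comm.1 hs
  have h1 : ∀ m : ℕ, (s * g * s') ^ m = s * g ^ m * s' := by
    intro m
    induction m with
    | zero => rw [pow_zero, pow_zero, mul_one, hss]
    | succ m ih =>
      rw [pow_succ, ih, pow_succ]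
      simp only [mul_assoc]
      rw [← mul_assoc s' s, hs, one_mul]
  have h2 : (fun n : ℕ => ((ℓ : ℚ_[ℓ]) ^ n)⁻¹ • ((s * g * s') ^ ℓ ^ n - 1)) = fun n : ℕ =>
      s * (((ℓ : ℚ_[ℓ]) ^ n)⁻¹ • (g ^ ℓ ^ n - 1)) * s' := by
    funext n
    rw [h1, mul_smul_comm, smul_mul_assoc, mul_sub, sub_mul, mul_one, hss]
  unfold IsLog
  rw [h2]
  exact (tendsto_const_nhds.mul h).mul tendsto_const_nhds

end Run7.h226.Tt
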