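import Pool.Agent.Run7.h226.Tt1
import Pool.Agent.Run7.h226.Tt2
import Pool.Agent.N996.BP.Core
import Pool.Agent.N996.FP.Cha

/-!
# Tate classes and the Lie algebra of the Hodge group: the logarithms
-/

set_option linter.unusedSectionVars false

namespace Run7.h226.Tt

open Matrix Filter Topology Run7.h457.MT Run7.h475.MT Run7.h615.MT Pool.Agent.N996.BP
  Pool.Agent.N996.FP

variable {ι : Type} [Fintype ι] [DecidableEq ι]

/-- The array is homogeneous of degree `2 j`. -/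
def Hm {R : Type} [Zero R] (deg : ι → ℕ) {κ : Type} [Fintype κ] (j : ℕ) (a : (κ → ι) → R) : Prop :=
  ∀ w, a w ≠ 0 → ∑ k, deg (w k) = 2 * j

variable (ι) in
/-- The data: a Galois representation in coordinates. -/
structure GD (ℓ : ℕ) [Fact ℓ.Prime] (Γ : Type*) [Group Γ] where
  deg : ι → ℕ
  S : Γ →* Matrix ι ι ℚ_[ℓ]
  χ : Γ →* ℚ_[ℓ]
  hdeg : ∀ γ i j, S γ i j ≠ 0 → deg i = deg j
  P : Subgroup Γ → Prop
  P_inf : ∀ {Δ Δ' : Subgroup Γ}, P Δ → P Δ' → P (Δ ⊓ Δ')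
  P_pow : ∀ {Δ : Subgroup Γ}, P Δ → ∀ γ : Γ, ∃ e : ℕ, 0 < e ∧ γ ^ e ∈ Δ
  near : ∃ Δ : Subgroup Γ, P Δ ∧ ∀ γ ∈ Δ, NearOne 2 (S γ) ∧ ‖χ γ - 1‖ ≤ ((ℓ : ℝ) ^ 2)⁻¹

variable {ℓ : ℕ} [Fact ℓ.Prime] {Γ : Type*} [Group Γ] (G : GD ι ℓ Γ)

/-- Tate classes. -/
def Tat {κ : Type} [Fintype κ] [DecidableEq κ] (j : ℕ) (a : (κ → ι) → ℚ_[ℓ]) : Prop :=
  Hm G.deg j a ∧ ∃ Δ : Subgroup Γ, G.P Δ ∧ ∀ γ ∈ Δ, kp κ (G.S γ) *ᵥ a = G.χ γ ^ j • a

/-- The matrix of the degrees. -/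
noncomputable def Dg (R : Type) [Ring R] : Matrix ι ι R := Matrix.diagonal fun i => (G.deg i : R)

/-- The normalised logarithms. -/
def LL : Set (Matrix ι ι ℚ_[ℓ]) :=
  {y | ∃ (γ : Γ) (Z : Matrix ι ι ℚ_[ℓ]) (u : ℚ_[ℓ]), IsLog (G.S γ) Z ∧ IsLogS (G.χ γ) u ∧
    y = Z - (u / 2) • Dg G ℚ_[ℓ]}

variable {G}

lemma S_inv (γ : Γ) : G.S γ⁻¹ * G.S γ = 1 := by rw [← map_mul, inv_mul_cancel, map_one]

lemma S_inv' (γ : Γ) : G.S γ * G.S γ⁻¹ = 1 := by rw [← map_mul, mul_inv_cancel, map_one]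

/-- Matrices preserving the degrees commute with the matrix of the degrees. -/
lemma Dg_comm {R : Type} [CommRing R] {x : Matrix ι ι R} (hx : ∀ i j, x i j ≠ 0 → G.deg i = G.deg j) :
    x * Dg G R = Dg G R * x := by
  ext i j
  rw [Dg, Matrix.mul_diagonal, Matrix.diagonal_mul]
  by_cases h : x i j = 0
  · rw [h, zero_mul, mul_zero]
  · rw [hx i j h, mul_comm]

/-- Conjugates of logarithms. -/
lemma LL_conj {y : Matrix ι ι ℚ_[ℓ]} (hy : y ∈ LL G) (σ : Γ) :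
    G.S σ * y * G.S σ⁻¹ ∈ LL G := by
  obtain ⟨γ, Z, u, hZ, hu, rfl⟩ := hy
  refine ⟨σ * γ * σ⁻¹, G.S σ * Z * G.S σ⁻¹, u, ?_, ?_, ?_⟩
  · rw [map_mul, map_mul]
    exact log_conj hZ (S_inv σ)
  · have h1 : G.χ (σ * γ * σ⁻¹) = G.χ γ := by
      rw [map_mul, map_mul, mul_comm (G.χ σ), mul_assoc, ← map_mul G.χ σ, mul_inv_cancel, map_one,
        mul_one]
    rw [h1]
    exact hu
  · rw [mul_sub, sub_mul, mul_smul_comm, smul_mul_assoc, Dg_comm (G.hdeg σ), mul_assoc (Dg G ℚ_[ℓ]),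
      S_inv', mul_one]

/-- The derivation of a diagonal matrix. -/
lemma dF_diag {F : Type} [Field F] {κ : Type} [Fintype κ] [DecidableEq κ] (d : ι → F)
    (a : (κ → ι) → F) : dF κ (Matrix.diagonal d) *ᵥ a = fun w => (∑ k, d (w k)) * a w := by
  have h1 : dF κ (Matrix.diagonal d) = Matrix.diagonal fun w : κ → ι => ∑ k, d (w k) := by
    ext v w
    rw [dF, dkron_apply]
    by_cases h : v = w
    · subst h
      rw [Matrix.diagonal_apply_eq]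
      refine Finset.sum_congr rfl fun s _ => ?_
      rw [Matrix.diagonal_apply_eq, Finset.prod_eq_one fun k _ => Matrix.one_apply_eq _, mul_one]
    · rw [Matrix.diagonal_apply_ne _ h]
      refine Finset.sum_eq_zero fun s _ => ?_
      obtain ⟨k, hk⟩ := Function.ne_iff.1 h
      by_cases hs : k = s
      · subst hs
        rw [Matrix.diagonal_apply_ne _ hk, zero_mul]
      · have h0 : ∏ k ∈ Finset.univ.erase s, (1 : Matrix ι ι F) (v k) (w k) = 0 :=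
          Finset.prod_eq_zero (Finset.mem_erase.2 ⟨hs, Finset.mem_univ k⟩)
            (Matrix.one_apply_ne hk)
        exact mul_eq_zero_of_right _ h0
  rw [h1]
  funext w
  rw [Matrix.mulVec_diagonal]

lemma dF_sub_smul {F : Type} [Field F] {κ : Type} [Fintype κ] [DecidableEq κ]
    (x y : Matrix ι ι F) (c : F) : dF κ (x - c • y) = dF κ x - c • dF κ y := by
  have h1 := (klin (S := κ) (I := fun _ => ι) (RingHom.id F) (fun _ => x) (fun _ => (-c) • y) 0).1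
  have h2 := (klin (S := κ) (I := fun _ => ι) (RingHom.id F) (fun _ => y) (fun _ => y) (-c)).2.1
  have h3 : x - c • y = x + (-c) • y := by rw [neg_smul, sub_eq_add_neg]
  rw [h3]
  refine (h1.trans (congrArg _ h2)).trans ?_
  rw [neg_smul, ← sub_eq_add_neg]
  rfl

/-- **The normalised logarithms kill the Tate classes.** -/
lemma LL_kill {y : Matrix ι ι ℚ_[ℓ]} (hy : y ∈ LL G) {κ : Type} [Fintype κ] [DecidableEq κ]
    {j : ℕ} {a : (κ → ι) → ℚ_[ℓ]} (ha : Tat G j a) : dF κ y *ᵥ a = 0 := by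
  obtain ⟨γ, Z, u, hZ, hu, rfl⟩ := hy
  obtain ⟨h1, Δ, hΔ, h2⟩ := ha
  obtain ⟨e, he, h3⟩ := G.P_pow hΔ γ
  have h4 := h2 _ h3
  rw [map_pow, map_pow] at h4
  have h5 := kill hZ hu he h4
  rw [dF_sub_smul, Matrix.sub_mulVec, h5, Matrix.smul_mulVec, Dg, dF_diag]
  funext w
  rw [Pi.sub_apply, Pi.smul_apply, Pi.smul_apply, Pi.zero_apply, smul_eq_mul, smul_eq_mul]
  by_cases hw : a w = 0
  · rw [hw, mul_zero, mul_zero, mul_zero, sub_zero]
  · have h6 := h1 w hw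
    have h7 : ∑ k, (G.deg (w k) : ℚ_[ℓ]) = 2 * j := by exact_mod_cast h6
    rw [h7]
    ring

variable (τ : ℚ_[ℓ] →+* ℂ)

lemma dF_map {κ : Type} [Fintype κ] [DecidableEq κ] (y : Matrix ι ι ℚ_[ℓ]) :
    dk κ (y.map τ) = (dF κ y).map τ := by
  have h1 := (klin (S := κ) (I := fun _ => ι) τ (fun _ => y) (fun _ => y) 0).2.2.1
  rw [dF, h1]
  rfl

lemma LL_kill' {y : Matrix ι ι ℚ_[ℓ]} (hy : y ∈ LL G) {κ : Type} [Fintype κ] [DecidableEq κ]
    {j : ℕ} {a : (κ → ι) → ℚ_[ℓ]} (ha : Tat G j a) :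
    dk κ (y.map τ) *ᵥ (fun w => τ (a w)) = 0 := by
  rw [dF_map]
  funext w
  have h1 := congrFun (LL_kill hy ha) w
  have h2 := congrArg τ h1
  rw [Matrix.mulVec, dotProduct, map_sum, Pi.zero_apply, map_zero] at h2
  rw [Matrix.mulVec, dotProduct, Pi.zero_apply, ← h2]
  refine Finset.sum_congr rfl fun v _ => ?_
  rw [Matrix.map_apply, map_mul]

end Run7.h226.Tt
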