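import Pool.Agent.Run7.h226.Tt3
import Pool.Agent.Run7.h226.Ideal

/-!
# Tate classes and the Lie algebra of the Hodge group: the ideal
-/

set_option linter.unusedSectionVars false

namespace Run7.h226.Tt

open Matrix Filter Topology Run7.h457.MT Run7.h475.MT Run7.h615.MT Pool.Agent.N996.BP
  Pool.Agent.N996.FP Run7.h226.Wts

variable {ι : Type} [Fintype ι] [DecidableEq ι] {H : HData ι}

/-- **The complement.** -/
theorem compl_le {A : Submodule ℂ (Matrix ι ι ℂ)} (hA : A ≤ ho H)
    (hid : ∀ z ∈ ho H, ∀ a ∈ A, br z a ∈ A)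
    (hc : ∀ x ∈ ho H, (∀ a ∈ A, x * a = a * x) → x = 0) : ho H ≤ A := by
  let 𝔞 : Submodule ℂ (Matrix ι ι ℂ) :=
    { carrier := {x | cj H x ∈ A}
      add_mem' := fun {x y} hx hy => by
        change cj H (x + y) ∈ A
        rw [cj, Matrix.mul_add, Matrix.add_mul]
        exact A.add_mem hx hy
      zero_mem' := by
        change cj H 0 ∈ A
        rw [cj, Matrix.mul_zero, Matrix.zero_mul]
        exact A.zero_mem
      smul_mem' := fun c x hx => by
        change cj H (c • x) ∈ A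
        rw [cj, Matrix.mul_smul, Matrix.smul_mul]
        exact A.smul_mem c hx }
  have h𝔞 : IsId (hn H) 𝔞 := ⟨fun x hx => hA hx, fun z hz a ha => by
    change cj H (br z a) ∈ A
    rw [cj_br]
    exact hid _ hz _ ha⟩
  have hla := isLA_hn H
  intro z hz
  have hw : cji H z ∈ hn H := by
    rw [mem_hn, cj_cji]
    exact hz
  obtain ⟨a, ha, b, hb, hab⟩ := cpl_dec h𝔞 hw
  have hb0 : cj H b = 0 := by
    refine hc _ hb.1 fun y hy => ?_
    -- `[b, y] = 0`
    have hy' : cji H y ∈ 𝔞 := by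
      change cj H (cji H y) ∈ A
      rw [cj_cji]
      exact hy
    have h1 : br (cji H y) b ∈ 𝔞 := by
      have h2 := h𝔞.lb b hb.1 _ hy'
      have h3 : br (cji H y) b = (-1 : ℂ) • br b (cji H y) := by
        rw [br, br, neg_one_smul, neg_sub]
      rw [h3]
      exact Submodule.smul_mem _ _ h2
    have h4 : br (cji H y) b ∈ cpl (hn H) 𝔞 := by
      refine ⟨h𝔞.le h1, fun c hc' => ?_⟩
      have h5 : (cji H y)ᴴ ∈ hn H := hla.star _ (h𝔞.le hy')
      have h6 := hb.2 _ (h𝔞.lb _ h5 _ hc')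
      have h7 : (cᴴ * br (cji H y) b).trace = ((br (cji H y)ᴴ c)ᴴ * b).trace := by
        rw [br, br, Matrix.conjTranspose_sub, Matrix.conjTranspose_mul, Matrix.conjTranspose_mul,
          Matrix.conjTranspose_conjTranspose, Matrix.mul_sub, Matrix.sub_mul, Matrix.trace_sub,
          Matrix.trace_sub, ← Matrix.mul_assoc, ← Matrix.mul_assoc]
        congr 1
        rw [Matrix.trace_mul_comm, ← Matrix.mul_assoc]
      rw [h7]
      exact h6
    have h8 := cpl_disj h1 h4
    have h9 : cji H y * b = b * cji H y := sub_eq_zero.1 h8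
    have h10 := congrArg (cj H) h9
    rw [cj_mul, cj_mul, cj_cji] at h10
    exact h10.symm
  have h11 : z = cj H a := by
    rw [← cj_cji H z, hab, cj, Matrix.mul_add, Matrix.add_mul]
    have h12 : Mi H * b * Mm H = 0 := hb0
    rw [h12, add_zero]
    rfl
  rw [h11]
  exact ha

/-- The Lie algebra commutes with the rational matrices which commute with the Hodge cocharacter. -/
lemma ho_comm' {z : Matrix ι ι ℂ} (hz : z ∈ ho H) {x : Matrix ι ι ℚ}
    (hx : ∀ t : ℂ, t ≠ 0 → H.l t * cQ x = cQ x * H.l t) : z * cQ x = cQ x * z := by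
  have h1 := ho_comm hz hx
  have h2 := ho_skew hz
  have h3 : cQ H.Qir * zᵀ = -(z * cQ H.Qir) := by
    rw [eq_neg_iff_add_eq_zero, add_comm]
    exact h2
  rw [cQ_mul, Matrix.mul_assoc (cQ x), h3, Matrix.mul_neg, ← sub_eq_add_neg, sub_eq_zero,
    ← Matrix.mul_assoc, ← Matrix.mul_assoc] at h1
  have h4 : cQ H.Qir * cQ H.Qr = 1 := by
    rw [← cQ_mul, mul_eq_one_comm.1 H.Qr_Qir, cQ_one]
  have h5 := congrArg (· * cQ H.Qr) h1
  simp only [Matrix.mul_assoc, h4, Matrix.mul_one] at h5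
  exact h5

/-- Arrays killed by the Lie algebra are combinations of Hodge classes. -/
lemma killed_span {κ : Type} [Fintype κ] [DecidableEq κ] {d : (κ → ι) → ℂ}
    (hd : ∀ z ∈ ho H, dk κ z *ᵥ d = 0) : d ∈ Submodule.span ℂ (ca '' (BB H κ : Set _)) := by
  have h0 : ∀ g ∈ GG H, kp κ g *ᵥ d = d := fun g hg => fix_of_NgT (fun σ => hd _ (Ng_mem σ)) hg
  let C : Submodule ℂ ((κ → ι) → ℂ) :=
    { carrier := {v | ∀ g ∈ GG H, kp κ g *ᵥ v = v}
      add_mem' := fun {a b} ha hb g hg => by rw [Matrix.mulVec_add, ha g hg, hb g hg]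
      zero_mem' := fun g _ => Matrix.mulVec_zero _
      smul_mem' := fun c a ha g hg => by rw [Matrix.mulVec_smul, ha g hg] }
  have hC : ∀ (σ : ℂ ≃+* ℂ), ∀ v ∈ C, (fun i => σ (v i)) ∈ C := by
    intro σ v h1 g hg
    have h5 := h1 (g.map σ.symm) (GG_map H σ.symm hg)
    funext i
    have h6 := congrArg σ (congrFun h5 i)
    rw [Matrix.mulVec, dotProduct, map_sum] at h6
    rw [Matrix.mulVec, dotProduct, ← h6]
    refine Finset.sum_congr rfl fun j _ => ?_
    rw [map_mul, kp_apply, kp_apply, map_prod]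
    congr 1
    refine Finset.prod_congr rfl fun k _ => ?_
    rw [Matrix.map_apply, RingEquiv.apply_symm_apply]
  have hdC : d ∈ C := h0
  rw [Pool.Agent.W437.HD.span_rational C hC] at hdC
  refine Submodule.span_mono ?_ hdC
  rintro v ⟨h1, u, rfl⟩
  exact ⟨u, fun t ht => h1 _ (Submonoid.subset_closure (l_mem_gens H ht)), rfl⟩

end Run7.h226.Tt
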