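import Pool.Agent.Run7.h226.Tt4

/-!
# Tate classes and the Lie algebra of the Hodge group: preparations
-/

set_option linter.unusedSectionVars false

namespace Run7.h226.Tt

open Matrix Filter Topology Run7.h457.MT Run7.h475.MT Run7.h615.MT Pool.Agent.N996.BP
  Pool.Agent.N996.FP Run7.h226.Wts

variable {ι : Type} [Fintype ι] [DecidableEq ι] {ℓ : ℕ} [Fact ℓ.Prime] {Γ : Type*} [Group Γ]

/-- The projector to the letters of degree one. -/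
def E1 (G : GD ι ℓ Γ) : Matrix ι ι ℚ := Matrix.diagonal fun i => if G.deg i = 1 then 1 else 0

/-- The hypotheses. -/
structure Cor (H : HData ι) (G : GD ι ℓ Γ) : Prop where
  hl : ∀ t : ℂ, t ≠ 0 → ∀ i j, H.l t i j ≠ 0 → G.deg i = G.deg j
  hl1 : H.l (-1) = Matrix.diagonal fun i => (-1) ^ G.deg i
  hQ : ∀ i j, H.Qir i j ≠ 0 → G.deg i = G.deg j
  del : ∀ (κ : Type) [Fintype κ] [DecidableEq κ] (j : ℕ) (a : (κ → ι) → ℚ), a ∈ BB H κ →
    Hm G.deg j a → Tat G j fun w => ((a w : ℚ) : ℚ_[ℓ])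
  tc : ∀ (κ : Type) [Fintype κ] [DecidableEq κ] (j : ℕ), Fintype.card κ = 2 * j → j = 1 ∨ j = 2 →
    ∀ a : (κ → ι) → ℚ_[ℓ], Tat G j a → (∀ w, a w ≠ 0 → ∀ k, G.deg (w k) = 1) →
    a ∈ spn ℚ_[ℓ] (BB H κ)
  semi : ∀ Δ : Subgroup Γ, G.P Δ →
    ∀ U : Submodule ℚ_[ℓ] ((Unit ⊕ Unit → ι) → ℚ_[ℓ]),
    (∀ γ ∈ Δ, ∀ u ∈ U, kp (Unit ⊕ Unit) (G.S γ) *ᵥ u ∈ U) →
    ∃ U' : Submodule ℚ_[ℓ] ((Unit ⊕ Unit → ι) → ℚ_[ℓ]), IsCompl U U' ∧
      ∀ γ ∈ Δ, ∀ u ∈ U', kp (Unit ⊕ Unit) (G.S γ) *ᵥ u ∈ U'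
  faith : ∀ x ∈ ho H, x * cQ (E1 G) = 0 → x = 0
  sc : ∀ Y : Matrix ι ι ℚ, (∀ t : ℂ, t ≠ 0 → H.l t * cQ Y = cQ Y * H.l t) → E1 G * Y = Y →
    Y * E1 G = Y → ∃ r : ℚ, Y = r • E1 G

variable {H : HData ι} {G : GD ι ℓ Γ}

/-- The part of degree `d` of an array. -/
def prt (deg : ι → ℕ) {κ : Type} [Fintype κ] (d : ℕ) (a : (κ → ι) → ℚ) : (κ → ι) → ℚ :=
  fun w => if ∑ k, deg (w k) = d then a w else 0

lemma kp_deg {R : Type} [CommRing R] {deg : ι → ℕ} {g : Matrix ι ι R}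
    (hg : ∀ i j, g i j ≠ 0 → deg i = deg j) {κ : Type} [Fintype κ] [DecidableEq κ] {v w : κ → ι}
    (h : kp κ g v w ≠ 0) : ∑ k, deg (v k) = ∑ k, deg (w k) := by
  refine Finset.sum_congr rfl fun k _ => ?_
  apply hg
  intro h1
  apply h
  rw [kp_apply]
  exact Finset.prod_eq_zero (Finset.mem_univ k) h1

lemma prt_BB (hC : Cor H G) {κ : Type} [Fintype κ] [DecidableEq κ] {a : (κ → ι) → ℚ}
    (ha : a ∈ BB H κ) (d : ℕ) : prt G.deg d a ∈ BB H κ := by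
  intro t ht
  have h1 := ha t ht
  funext v
  have h2 : (kp κ (H.l t) *ᵥ ca (prt G.deg d a)) v =
      if ∑ k, G.deg (v k) = d then (kp κ (H.l t) *ᵥ ca a) v else 0 := by
    rw [Matrix.mulVec, dotProduct]
    split_ifs with hv
    · rw [Matrix.mulVec, dotProduct]
      refine Finset.sum_congr rfl fun w _ => ?_
      by_cases h3 : kp κ (H.l t) v w = 0
      · rw [h3, zero_mul, zero_mul]
      · have h4 := kp_deg (hC.hl t ht) h3
        rw [ca, ca, prt, if_pos (h4 ▸ hv)]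
    · refine Finset.sum_eq_zero fun w _ => ?_
      by_cases h3 : kp κ (H.l t) v w = 0
      · rw [h3, zero_mul]
      · have h4 := kp_deg (hC.hl t ht) h3
        rw [ca, prt, if_neg (h4 ▸ hv), Rat.cast_zero, mul_zero]
  rw [h2, h1, ca, ca, prt]
  split_ifs <;> simp

lemma prt_odd (hC : Cor H G) {κ : Type} [Fintype κ] [DecidableEq κ] {a : (κ → ι) → ℚ}
    (ha : a ∈ BB H κ) {d : ℕ} (hd : d % 2 = 1) : prt G.deg d a = 0 := by
  have h1 := prt_BB hC ha d (-1) (by norm_num)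
  rw [hC.hl1, kp_diag] at h1
  funext w
  have h2 := congrFun h1 w
  rw [Matrix.mulVec_diagonal, Finset.prod_pow_eq_pow_sum] at h2
  rw [Pi.zero_apply]
  by_cases hw : ∑ k, G.deg (w k) = d
  · rw [hw, Odd.neg_one_pow (Nat.odd_iff.2 hd)] at h2
    have h3 : ca (prt G.deg d a) w = 0 := by linear_combination (-1 / 2 : ℂ) * h2
    rw [ca] at h3
    exact_mod_cast h3
  · rw [prt, if_neg hw]

lemma sum_prt {deg : ι → ℕ} {κ : Type} [Fintype κ] [DecidableEq κ] (a : (κ → ι) → ℚ) :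
    ∃ D : ℕ, a = ∑ d ∈ Finset.range D, prt deg d a := by
  refine ⟨(Finset.univ.sup fun w : κ → ι => ∑ k, deg (w k)) + 1, ?_⟩
  funext w
  rw [Finset.sum_apply]
  simp only [prt]
  rw [Finset.sum_ite_eq, if_pos]
  rw [Finset.mem_range]
  exact Nat.lt_succ_of_le (Finset.le_sup (f := fun w : κ → ι => ∑ k, deg (w k))
    (Finset.mem_univ w))

variable (τ : ℚ_[ℓ] →+* ℂ)

/-- **The normalised logarithms belong to the Lie algebra.** -/
theorem LL_ho (hC : Cor H G) {y : Matrix ι ι ℚ_[ℓ]} (hy : y ∈ LL G) : y.map τ ∈ ho H := by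
  intro κ _ _ a ha
  obtain ⟨D, hD⟩ := sum_prt (deg := G.deg) a
  have h1 : ca a = ∑ d ∈ Finset.range D, ca (prt G.deg d a) := by
    conv_lhs => rw [hD]
    funext w
    rw [ca, Finset.sum_apply, Rat.cast_sum, Finset.sum_apply]
    rfl
  rw [h1, Matrix.mulVec_sum]
  refine Finset.sum_eq_zero fun d _ => ?_
  rcases Nat.mod_two_eq_zero_or_one d with hd | hd
  · obtain ⟨j, rfl⟩ : ∃ j, d = 2 * j := ⟨d / 2, by omega⟩
    have h2 := hC.del κ j _ (prt_BB hC ha (2 * j)) (by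
      intro w hw
      by_contra h
      exact hw (by rw [prt, if_neg h]))
    have h3 := LL_kill' τ hy h2
    have h4 : (fun w => τ (((prt G.deg (2 * j) a w : ℚ) : ℚ_[ℓ]))) = ca (prt G.deg (2 * j) a) := by
      funext w
      rw [map_ratCast, ca]
    rw [h4] at h3
    exact h3
  · rw [prt_odd hC ha hd]
    have h2 : ca (0 : (κ → ι) → ℚ) = 0 := by
      funext w
      rw [ca, Pi.zero_apply, Rat.cast_zero, Pi.zero_apply]
    rw [h2, Matrix.mulVec_zero]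

/-- The complex span of the normalised logarithms. -/
def AA (G : GD ι ℓ Γ) : Submodule ℂ (Matrix ι ι ℂ) :=
  Submodule.span ℂ {x | ∃ y ∈ LL G, x = y.map τ}

lemma AA_ho (hC : Cor H G) : AA τ G ≤ ho H := by
  rw [AA, Submodule.span_le]
  rintro x ⟨y, hy, rfl⟩
  exact LL_ho τ hC hy

/-- The array of a matrix. -/
def ar2 {R : Type} (M : Matrix ι ι R) : (Unit ⊕ Unit → ι) → R :=
  fun w => M (w (Sum.inl ())) (w (Sum.inr ()))

lemma ar2_inj {R : Type} {M N : Matrix ι ι R} (h : ar2 M = ar2 N) : M = N := by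
  ext i j
  exact congrFun h (Sum.elim (fun _ => i) fun _ => j)

lemma ar2_arr {R : Type} [CommRing R] (M : Matrix ι ι R) : ar2 M = arr (kp Unit M) := by
  funext w
  rw [ar2, arr, kp_apply, Fintype.prod_unique]
  rfl

lemma kp_ar2 {R : Type} [CommRing R] (g M : Matrix ι ι R) :
    kp (Unit ⊕ Unit) g *ᵥ ar2 M = ar2 (g * M * gᵀ) := by
  rw [ar2_arr, kp_arr, ar2_arr, kp_mul, kp_mul, kp_transpose]

lemma dk_ar2 (z M : Matrix ι ι ℂ) : dk (Unit ⊕ Unit) z *ᵥ ar2 M = ar2 (z * M + M * zᵀ) := by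
  rw [← arr_mat (dk (Unit ⊕ Unit) z *ᵥ ar2 M), mat_dk, ar2_arr, mat_arr]
  funext w
  rw [arr, Matrix.add_apply, ar2, Matrix.add_apply]
  congr 1
  · rw [Matrix.mul_apply, Matrix.mul_apply, ← Equiv.sum_comp (Equiv.funUnique Unit ι)]
    refine Finset.sum_congr rfl fun v _ => ?_
    rw [dk_unit, kp_apply, Fintype.prod_unique]
    rfl
  · rw [Matrix.mul_apply, Matrix.mul_apply, ← Equiv.sum_comp (Equiv.funUnique Unit ι)]
    refine Finset.sum_congr rfl fun v _ => ?_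
    rw [Matrix.transpose_apply, dk_unit, kp_apply, Fintype.prod_unique]
    rfl

/-- Extension of coefficients. -/
noncomputable def cL (ℓ : ℕ) [Fact ℓ.Prime] {m n : Type} (M : Matrix m n ℚ) : Matrix m n ℚ_[ℓ] :=
  M.map fun q : ℚ => (q : ℚ_[ℓ])

lemma cL_mul {m n p : Type} [Fintype n] (M : Matrix m n ℚ) (N : Matrix n p ℚ) :
    cL ℓ (M * N) = cL ℓ M * cL ℓ N :=
  Matrix.map_mul (f := Rat.castHom ℚ_[ℓ])

lemma cL_one {n : Type} [DecidableEq n] : cL ℓ (1 : Matrix n n ℚ) = 1 :=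
  Matrix.map_one _ Rat.cast_zero Rat.cast_one

lemma cL_map {m n : Type} (M : Matrix m n ℚ) : (cL ℓ M).map τ = cQ M := by
  ext i j
  rw [Matrix.map_apply, cL, Matrix.map_apply, map_ratCast]
  rfl

lemma mapM_mul {m n p : Type} [Fintype n] (M : Matrix m n ℚ_[ℓ]) (N : Matrix n p ℚ_[ℓ]) :
    (M * N).map τ = M.map τ * N.map τ := Matrix.map_mul (f := τ)

lemma mapM_mulVec {m n : Type} [Fintype n] (M : Matrix m n ℚ_[ℓ]) (v : n → ℚ_[ℓ]) :
    (fun i => τ ((M *ᵥ v) i)) = M.map τ *ᵥ fun i => τ (v i) := by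
  funext i
  rw [Matrix.mulVec, dotProduct, map_sum, Matrix.mulVec, dotProduct]
  refine Finset.sum_congr rfl fun j _ => ?_
  rw [map_mul, Matrix.map_apply]

/-- Matrices preserving the degrees commute with the projector. -/
lemma E1_comm {R : Type} [CommRing R] (f : ℚ →+* R) {x : Matrix ι ι R}
    (hx : ∀ i j, x i j ≠ 0 → G.deg i = G.deg j) : x * (E1 G).map f = (E1 G).map f * x := by
  have h0 : (E1 G).map f = Matrix.diagonal fun i => if G.deg i = 1 then (1 : R) else 0 := by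
    ext i j
    rw [Matrix.map_apply, E1, Matrix.diagonal_apply, Matrix.diagonal_apply]
    split_ifs <;> simp
  rw [h0]
  ext i j
  rw [Matrix.mul_diagonal, Matrix.diagonal_mul]
  by_cases h : x i j = 0
  · rw [h, zero_mul, mul_zero]
  · rw [hx i j h, mul_comm]

lemma E1_cQ : cQ (E1 G) = (E1 G).map (Rat.castHom ℂ) := rfl

lemma E1_cL : cL ℓ (E1 G) = (E1 G).map (Rat.castHom ℚ_[ℓ]) := rfl

lemma E1_E1 : E1 G * E1 G = E1 G := by
  rw [E1, Matrix.diagonal_mul_diagonal]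
  congr 1
  funext i
  split_ifs <;> simp

lemma Cor.lE (hC : Cor H G) {t : ℂ} (ht : t ≠ 0) : H.l t * cQ (E1 G) = cQ (E1 G) * H.l t :=
  E1_comm (Rat.castHom ℂ) (hC.hl t ht)

lemma Cor.zE (hC : Cor H G) {z : Matrix ι ι ℂ} (hz : z ∈ ho H) :
    z * cQ (E1 G) = cQ (E1 G) * z := ho_comm' hz fun _ ht => hC.lE ht

lemma Cor.QE (hC : Cor H G) : H.Qir * E1 G = E1 G * H.Qir := by
  have h1 := E1_comm (G := G) (RingHom.id ℚ) hC.hQ
  have h2 : (E1 G).map (RingHom.id ℚ) = E1 G := Matrix.map_id _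
  rwa [h2] at h1

lemma SE (γ : Γ) : G.S γ * cL ℓ (E1 G) = cL ℓ (E1 G) * G.S γ :=
  E1_comm (Rat.castHom ℚ_[ℓ]) (G.hdeg γ)

/-- The inverse form on the letters of degree one. -/
def Q1 (H : HData ι) (G : GD ι ℓ Γ) : Matrix ι ι ℚ := E1 G * H.Qir

lemma Q1_Qr : Q1 H G * H.Qr = E1 G := by
  rw [Q1, Matrix.mul_assoc, mul_eq_one_comm.1 H.Qr_Qir, Matrix.mul_one]

lemma E1_Q1 : E1 G * Q1 H G = Q1 H G := by rw [Q1, ← Matrix.mul_assoc, E1_E1]

lemma Cor.Q1_E1 (hC : Cor H G) : Q1 H G * E1 G = Q1 H G := by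
  rw [Q1, Matrix.mul_assoc, hC.QE, ← Matrix.mul_assoc, E1_E1]

lemma lQl {t : ℂ} (ht : t ≠ 0) : H.l t * cQ H.Qir * (H.l t)ᵀ = cQ H.Qir := by
  have h1 := H.l_Q (inv_ne_zero ht)
  -- `l⁻ᵀ Q l⁻¹ = Q`
  have h2 : cQ H.Qr * cQ H.Qir = 1 := by rw [← cQ_mul, H.Qr_Qir, cQ_one]
  have h3 : H.l t * H.l t⁻¹ = 1 := H.l_inv ht
  have h4 : (H.l t)ᵀ * (H.l t⁻¹)ᵀ = 1 := by
    rw [← Matrix.transpose_mul, H.l_inv' ht, Matrix.transpose_one]
  have h5 := H.l_tr ht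
  -- `lᵀ Q = Q l⁻¹`
  have h6 : (H.l t)ᵀ = cQ H.Qr * H.l t⁻¹ * cQ H.Qir := by
    rw [← h5, Matrix.mul_assoc, h2, Matrix.mul_one]
  have h7 : cQ H.Qir * cQ H.Qr = 1 := mul_eq_one_comm.1 h2
  rw [h6]
  calc H.l t * cQ H.Qir * (cQ H.Qr * H.l t⁻¹ * cQ H.Qir)
      = H.l t * ((cQ H.Qir * cQ H.Qr) * H.l t⁻¹) * cQ H.Qir := by
        simp only [Matrix.mul_assoc]
    _ = cQ H.Qir := by rw [h7, Matrix.one_mul, h3, Matrix.one_mul]

lemma ca_ar2 (M : Matrix ι ι ℚ) : ca (ar2 M) = ar2 (cQ M) := rfl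

/-- Matrices as Hodge classes. -/
lemma ar2_BB {M : Matrix ι ι ℚ} :
    ar2 M ∈ BB H (Unit ⊕ Unit) ↔ ∀ t : ℂ, t ≠ 0 → H.l t * cQ M * (H.l t)ᵀ = cQ M := by
  constructor
  · intro h t ht
    have h1 := h t ht
    rw [ca_ar2, kp_ar2] at h1
    exact ar2_inj h1
  · intro h t ht
    rw [ca_ar2, kp_ar2, h t ht]

lemma Cor.Q1_BB (hC : Cor H G) : ar2 (Q1 H G) ∈ BB H (Unit ⊕ Unit) := by
  rw [ar2_BB]
  intro t ht
  rw [Q1, cQ_mul, ← Matrix.mul_assoc, hC.lE ht, Matrix.mul_assoc (cQ (E1 G)),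
    Matrix.mul_assoc (cQ (E1 G)), lQl ht]

lemma Q1_deg (hC : Cor H G) {i j : ι} (h : Q1 H G i j ≠ 0) : G.deg i = 1 ∧ G.deg j = 1 := by
  rw [Q1, E1, Matrix.diagonal_mul] at h
  have h1 : G.deg i = 1 := by
    by_contra h2
    rw [if_neg h2, zero_mul] at h
    exact h rfl
  rw [if_pos h1, one_mul] at h
  exact ⟨h1, (hC.hQ _ _ h) ▸ h1⟩

/-- The form is a Tate class. -/
lemma Cor.exQ (hC : Cor H G) : ∃ Δ : Subgroup Γ, G.P Δ ∧ ∀ σ ∈ Δ,
    G.S σ * cL ℓ (Q1 H G) * (G.S σ)ᵀ = G.χ σ • cL ℓ (Q1 H G) := by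
  obtain ⟨-, Δ, hΔ, h⟩ := hC.del (Unit ⊕ Unit) 1 _ hC.Q1_BB (by
    intro w hw
    obtain ⟨h1, h2⟩ := Q1_deg hC hw
    rw [Fintype.sum_sum_type, Fintype.sum_unique, Fintype.sum_unique]
    change G.deg (w (Sum.inl ())) + G.deg (w (Sum.inr ())) = 2 * 1
    rw [h1, h2])
  refine ⟨Δ, hΔ, fun σ hσ => ?_⟩
  have h1 := h σ hσ
  rw [_root_.pow_one] at h1
  have h2 : (fun w => ((ar2 (Q1 H G) w : ℚ) : ℚ_[ℓ])) = ar2 (cL ℓ (Q1 H G)) := rfl
  rw [h2, kp_ar2] at h1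
  exact ar2_inj h1

lemma spn_kill {κ : Type} [Fintype κ] [DecidableEq κ] {t : (κ → ι) → ℚ_[ℓ]}
    (ht : t ∈ spn ℚ_[ℓ] (BB H κ)) {z : Matrix ι ι ℂ} (hz : z ∈ ho H) :
    dk κ z *ᵥ (fun w => τ (t w)) = 0 := by
  induction ht using Submodule.span_induction with
  | mem y hy =>
    obtain ⟨s, hs, rfl⟩ := hy
    have h1 : (fun w => τ ((fun k => algebraMap ℚ ℚ_[ℓ] (s k)) w)) = ca s := by
      funext w
      change τ (algebraMap ℚ ℚ_[ℓ] (s w)) = ca s w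
      rw [eq_ratCast, map_ratCast, ca]
    rw [h1]
    exact hz κ s hs
  | zero =>
    have h1 : (fun w => τ ((0 : (κ → ι) → ℚ_[ℓ]) w)) = 0 := by
      funext w
      rw [Pi.zero_apply, map_zero, Pi.zero_apply]
    rw [h1, Matrix.mulVec_zero]
  | add a b _ _ ha hb =>
    have h1 : (fun w => τ ((a + b) w)) = (fun w => τ (a w)) + fun w => τ (b w) := by
      funext w
      rw [Pi.add_apply, map_add, Pi.add_apply]
    rw [h1, Matrix.mulVec_add, ha, hb, add_zero]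
  | smul c a _ ha =>
    have h1 : (fun w => τ ((c • a) w)) = τ c • fun w => τ (a w) := by
      funext w
      rw [Pi.smul_apply, smul_eq_mul, map_mul, Pi.smul_apply, smul_eq_mul]
    rw [h1, Matrix.mulVec_smul, ha, smul_zero]

lemma slot_transpose {κ : Type} [Fintype κ] [DecidableEq κ] (k : κ) (x : Matrix ι ι ℂ) :
    (slot k x)ᵀ = slot k xᵀ := by
  ext i j
  rw [Matrix.transpose_apply, slot_apply, slot_apply, Matrix.transpose_apply]
  congr 1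
  refine Finset.prod_congr rfl fun m _ => ?_
  rw [Matrix.one_apply, Matrix.one_apply]
  simp only [eq_comm]

lemma dk_transpose {κ : Type} [Fintype κ] [DecidableEq κ] (x : Matrix ι ι ℂ) :
    (dk κ x)ᵀ = dk κ xᵀ := by
  rw [dk_def, dk_def, Matrix.transpose_sum]
  exact Finset.sum_congr rfl fun k _ => slot_transpose k x

lemma dk_neg {κ : Type} [Fintype κ] [DecidableEq κ] (x : Matrix ι ι ℂ) :
    dk κ (-x) = - dk κ x := (dkL κ).map_neg x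

/-- The derivation and the form. -/
lemma dk_Q {κ : Type} [Fintype κ] [DecidableEq κ] {z : Matrix ι ι ℂ} (hz : z ∈ ho H) :
    kp κ (cQ H.Qir) * (dk κ z)ᵀ = -(dk κ z * kp κ (cQ H.Qir)) := by
  have h2 : cQ H.Qr * cQ H.Qir = 1 := by rw [← cQ_mul, H.Qr_Qir, cQ_one]
  have h7 : cQ H.Qir * cQ H.Qr = 1 := mul_eq_one_comm.1 h2
  rw [dk_transpose, kp_dk h2]
  have h3 : cQ H.Qir * zᵀ = -(z * cQ H.Qir) := by
    rw [eq_neg_iff_add_eq_zero, add_comm]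
    exact ho_skew hz
  rw [h3, Matrix.neg_mul, Matrix.mul_assoc, h7, Matrix.mul_one, dk_neg, Matrix.neg_mul]

end Run7.h226.Tt
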