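import Pool.Agent.Run7.h226.Tt5

/-!
# Tate classes and the Lie algebra of the Hodge group: the ideal
-/

set_option linter.unusedSectionVars false

namespace Run7.h226.Tt

open Matrix Filter Topology Run7.h457.MT Run7.h475.MT Run7.h615.MT Pool.Agent.N996.BP
  Pool.Agent.N996.FP Run7.h226.Wts

variable {ι : Type} [Fintype ι] [DecidableEq ι] {ℓ : ℕ} [Fact ℓ.Prime] {Γ : Type*} [Group Γ]
  {H : HData ι} {G : GD ι ℓ Γ}

/-- An equivariant projector. -/
lemma exists_proj {N : Type} [Fintype N] [DecidableEq N] {F : Type} [Field F]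
    {U U' : Submodule F (N → F)} (h : IsCompl U U') {T : Set (Matrix N N F)}
    (hU : ∀ g ∈ T, ∀ u ∈ U, g *ᵥ u ∈ U) (hU' : ∀ g ∈ T, ∀ u ∈ U', g *ᵥ u ∈ U') :
    ∃ P : Matrix N N F, (∀ v, P *ᵥ v ∈ U) ∧ (∀ u ∈ U, P *ᵥ u = u) ∧ ∀ g ∈ T, g * P = P * g := by
  let f : (N → F) →ₗ[F] (N → F) := U.subtype ∘ₗ Submodule.projectionOnto U U' h
  have hf : ∀ u ∈ U, f u = u := by
    intro u hu
    have h1 := Submodule.projectionOnto_apply_left h ⟨u, hu⟩
    exact congrArg Subtype.val h1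
  have hf' : ∀ u ∈ U', f u = 0 := by
    intro u hu
    have h1 := Submodule.projectionOnto_apply_right h ⟨u, hu⟩
    exact congrArg Subtype.val h1
  have hfv : ∀ v, f v ∈ U := fun v => (Submodule.projectionOnto U U' h v).2
  have hdec : ∀ v : N → F, ∃ u ∈ U, ∃ u' ∈ U', v = u + u' := by
    intro v
    have h1 : v ∈ U ⊔ U' := by rw [h.sup_eq_top]; trivial
    obtain ⟨u, hu, u', hu', h2⟩ := Submodule.mem_sup.1 h1
    exact ⟨u, hu, u', hu', h2.symm⟩
  refine ⟨LinearMap.toMatrix' f, fun v => ?_, fun u hu => ?_, fun g hg => ?_⟩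
  · rw [LinearMap.toMatrix'_mulVec]
    exact hfv v
  · rw [LinearMap.toMatrix'_mulVec]
    exact hf u hu
  · have key : ∀ v, (g * LinearMap.toMatrix' f) *ᵥ v = (LinearMap.toMatrix' f * g) *ᵥ v := by
      intro v
      rw [← Matrix.mulVec_mulVec, ← Matrix.mulVec_mulVec, LinearMap.toMatrix'_mulVec,
        LinearMap.toMatrix'_mulVec]
      obtain ⟨u, hu, u', hu', rfl⟩ := hdec v
      rw [map_add, hf u hu, hf' u' hu', add_zero, Matrix.mulVec_add, map_add,
        hf _ (hU g hg u hu), hf' _ (hU' g hg u' hu'), add_zero]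
    ext i j
    have h1 := congrFun (key (Pi.single j 1)) i
    rw [Matrix.mulVec_single_one, Matrix.mulVec_single_one] at h1
    exact h1

variable (τ : ℚ_[ℓ] →+* ℂ)

/-- Complex combinations of the columns. -/
lemma map_mem {N : Type} [Fintype N] [DecidableEq N] {U : Submodule ℚ_[ℓ] (N → ℚ_[ℓ])}
    {P : Matrix N N ℚ_[ℓ]} (hP : ∀ v, P *ᵥ v ∈ U) (v : N → ℂ) :
    P.map τ *ᵥ v ∈ Submodule.span ℂ {x | ∃ u ∈ U, x = fun i => τ (u i)} := by
  have h1 : P.map τ *ᵥ v = ∑ j, v j • fun i => τ ((P *ᵥ Pi.single j 1) i) := by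
    funext i
    rw [Matrix.mulVec, dotProduct, Finset.sum_apply]
    refine Finset.sum_congr rfl fun j _ => ?_
    rw [Matrix.mulVec_single_one, Pi.smul_apply, smul_eq_mul, mul_comm]
    rfl
  rw [h1]
  exact Submodule.sum_mem _ fun j _ => Submodule.smul_mem _ _
    (Submodule.subset_span ⟨_, hP _, rfl⟩)

lemma ar2_smul {R : Type} [CommRing R] (c : R) (M : Matrix ι ι R) : ar2 (c • M) = c • ar2 M := rfl

/-- **The span of the logarithms is an ideal.** -/
theorem ideal (hC : Cor H G) {z : Matrix ι ι ℂ} (hz : z ∈ ho H) {a : Matrix ι ι ℂ}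
    (ha : a ∈ AA τ G) : br z a ∈ AA τ G := by
  classical
  obtain ⟨Δ, hΔ, hq⟩ := hC.exQ
  let κ : Type := Unit ⊕ Unit
  let q : Matrix ι ι ℚ_[ℓ] := cL ℓ (Q1 H G)
  let e : Matrix ι ι ℚ_[ℓ] := cL ℓ (E1 G)
  have hee : e * e = e := by rw [← cL_mul, E1_E1]
  have heq : e * q = q := by rw [← cL_mul, E1_Q1]
  have hqe : q * e = q := by rw [← cL_mul, hC.Q1_E1]
  have heT : eᵀ = e := by
    change (cL ℓ (E1 G))ᵀ = cL ℓ (E1 G)
    rw [cL, ← Matrix.transpose_map, E1, Matrix.diagonal_transpose]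
  let U : Submodule ℚ_[ℓ] ((κ → ι) → ℚ_[ℓ]) := Submodule.span ℚ_[ℓ] {u | ∃ y ∈ LL G, u = ar2 (y * q)}
  -- the logarithms commute with `e`
  have hye : ∀ y ∈ LL G, y * e = e * y := by
    intro y hy
    have h1 := hC.zE (LL_ho τ hC hy)
    have h2 : (y * e).map τ = (e * y).map τ := by
      rw [mapM_mul, mapM_mul, cL_map]
      exact h1
    ext i j
    exact τ.injective (congrFun (congrFun h2 i) j)
  have hUe : ∀ u ∈ U, kp κ e *ᵥ u = u := by
    intro u hu
    induction hu using Submodule.span_induction with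
    | mem u hu =>
      obtain ⟨y, hy, rfl⟩ := hu
      rw [kp_ar2, heT, ← Matrix.mul_assoc, ← hye y hy, Matrix.mul_assoc y, heq, Matrix.mul_assoc,
        hqe]
    | zero => exact Matrix.mulVec_zero _
    | add a b _ _ ha hb => rw [Matrix.mulVec_add, ha, hb]
    | smul c a _ ha => rw [Matrix.mulVec_smul, ha]
  have hUst : ∀ σ ∈ Δ, ∀ u ∈ U, kp κ (G.S σ) *ᵥ u ∈ U := by
    intro σ hσ u hu
    induction hu using Submodule.span_induction with
    | mem u hu =>
      obtain ⟨y, hy, rfl⟩ := hu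
      have h1 : G.S σ * (y * q) * (G.S σ)ᵀ = G.χ σ • ((G.S σ * y * G.S σ⁻¹) * q) := by
        calc G.S σ * (y * q) * (G.S σ)ᵀ
            = G.S σ * y * (G.S σ⁻¹ * G.S σ) * q * (G.S σ)ᵀ := by
              rw [S_inv, Matrix.mul_one, ← Matrix.mul_assoc]
          _ = (G.S σ * y * G.S σ⁻¹) * (G.S σ * q * (G.S σ)ᵀ) := by
              simp only [Matrix.mul_assoc]
          _ = _ := by rw [hq σ hσ, Matrix.mul_smul]
      rw [kp_ar2, h1, ar2_smul]
      exact U.smul_mem _ (Submodule.subset_span ⟨_, LL_conj hy σ, rfl⟩)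
    | zero => rw [Matrix.mulVec_zero]; exact U.zero_mem
    | add a b _ _ ha hb => rw [Matrix.mulVec_add]; exact U.add_mem ha hb
    | smul c a _ ha => rw [Matrix.mulVec_smul]; exact U.smul_mem _ ha
  obtain ⟨U', hcomp, hU'⟩ := hC.semi Δ hΔ U hUst
  obtain ⟨P, hP1, hP2, hP3⟩ := exists_proj hcomp (T := {g | ∃ σ ∈ Δ, g = kp κ (G.S σ)})
    (by rintro g ⟨σ, hσ, rfl⟩ u hu; exact hUst σ hσ u hu)
    (by rintro g ⟨σ, hσ, rfl⟩ u hu; exact hU' σ hσ u hu)
  -- the projector on the letters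
  let P' : Matrix (κ → ι) (κ → ι) ℚ_[ℓ] := kp κ e * P * kp κ e
  have hkee : kp κ e * kp κ e = kp κ e := by rw [← kp_mul, hee]
  have h1 : ∀ v, P' *ᵥ v ∈ U := by
    intro v
    have h2 : P' *ᵥ v = kp κ e *ᵥ (P *ᵥ (kp κ e *ᵥ v)) := by
      rw [Matrix.mulVec_mulVec, Matrix.mulVec_mulVec]
    rw [h2, hUe _ (hP1 _)]
    exact hP1 _
  have h2 : ∀ u ∈ U, P' *ᵥ u = u := by
    intro u hu
    have h2 : P' *ᵥ u = kp κ e *ᵥ (P *ᵥ (kp κ e *ᵥ u)) := by
      rw [Matrix.mulVec_mulVec, Matrix.mulVec_mulVec]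
    rw [h2, hUe u hu, hP2 u hu, hUe u hu]
  have hSe : ∀ σ, kp κ (G.S σ) * kp κ e = kp κ e * kp κ (G.S σ) := by
    intro σ
    rw [← kp_mul, ← kp_mul]
    exact congrArg _ (SE σ)
  have h3 : ∀ σ ∈ Δ, kp κ (G.S σ) * P' = P' * kp κ (G.S σ) := by
    intro σ hσ
    have h4 := hP3 _ ⟨σ, hσ, rfl⟩
    calc kp κ (G.S σ) * (kp κ e * P * kp κ e)
        = (kp κ (G.S σ) * kp κ e) * P * kp κ e := by simp only [Matrix.mul_assoc]
      _ = kp κ e * (kp κ (G.S σ) * P) * kp κ e := by rw [hSe]; simp only [Matrix.mul_assoc]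
      _ = kp κ e * P * (kp κ (G.S σ) * kp κ e) := by rw [h4]; simp only [Matrix.mul_assoc]
      _ = kp κ e * P * kp κ e * kp κ (G.S σ) := by rw [hSe]; simp only [Matrix.mul_assoc]
  -- the quartic class
  let Qi : Matrix ι ι ℚ_[ℓ] := cL ℓ H.Qir
  have heQ : e * Qi = q := by rw [← cL_mul]; rfl
  have hQe : Qi * e = q := by rw [← cL_mul, hC.QE]; rfl
  have hPe : P' * kp κ e = P' := by
    change kp κ e * P * kp κ e * kp κ e = _
    rw [Matrix.mul_assoc, hkee]
  let M : Matrix (κ → ι) (κ → ι) ℚ_[ℓ] := P' * kp κ Qi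
  have hMq : M = P' * kp κ q := by
    change P' * kp κ Qi = _
    rw [← heQ, kp_mul, ← Matrix.mul_assoc, hPe]
  have hTat : Tat G 2 (arr M : (κ ⊕ κ → ι) → ℚ_[ℓ]) ∧
      ∀ w, (arr M : (κ ⊕ κ → ι) → ℚ_[ℓ]) w ≠ 0 → ∀ k, G.deg (w k) = 1 := by
    have hlet : ∀ w, (arr M : (κ ⊕ κ → ι) → ℚ_[ℓ]) w ≠ 0 → ∀ k, G.deg (w k) = 1 := by
      intro w hw
      have hdiag : kp κ e = Matrix.diagonal fun v : κ → ι =>
          ∏ k, (if G.deg (v k) = 1 then (1 : ℚ_[ℓ]) else 0) := by
        ext v v'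
        rw [kp_apply]
        by_cases hv : v = v'
        · subst hv
          rw [Matrix.diagonal_apply_eq]
          refine Finset.prod_congr rfl fun k _ => ?_
          change (cL ℓ (E1 G)) (v k) (v k) = _
          rw [cL, Matrix.map_apply, E1, Matrix.diagonal_apply_eq]
          split_ifs <;> simp
        · rw [Matrix.diagonal_apply_ne _ hv]
          obtain ⟨k, hk⟩ := Function.ne_iff.1 hv
          refine Finset.prod_eq_zero (Finset.mem_univ k) ?_
          change (cL ℓ (E1 G)) (v k) (v' k) = _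
          rw [cL, Matrix.map_apply, E1, Matrix.diagonal_apply_ne _ hk, Rat.cast_zero]
      have hM1 : M = kp κ e * (P * kp κ q) := by
        rw [hMq]
        change kp κ e * P * kp κ e * kp κ q = _
        rw [Matrix.mul_assoc (kp κ e * P), ← kp_mul, heq, Matrix.mul_assoc]
      have hM2 : M = (P' * kp κ q) * kp κ e := by
        rw [Matrix.mul_assoc, ← kp_mul, hqe, hMq]
      have hw' : M (w ∘ Sum.inl) (w ∘ Sum.inr) ≠ 0 := hw
      rintro (k | k)
      · by_contra hk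
        rw [hM1, hdiag, Matrix.diagonal_mul] at hw'
        apply hw'
        rw [Finset.prod_eq_zero (Finset.mem_univ k) (if_neg hk), zero_mul]
      · by_contra hk
        rw [hM2, hdiag, Matrix.mul_diagonal] at hw'
        apply hw'
        rw [Finset.prod_eq_zero (Finset.mem_univ k) (if_neg hk), mul_zero]
    refine ⟨⟨fun w hw => ?_, Δ, hΔ, fun σ hσ => ?_⟩, hlet⟩
    · have h5 := hlet w hw
      rw [Finset.sum_congr rfl fun k _ => h5 k, Finset.sum_const, Finset.card_univ]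
      rfl
    · have h6 : kp κ (G.S σ) * M * (kp κ (G.S σ))ᵀ = G.χ σ ^ 2 • M := by
        calc kp κ (G.S σ) * M * (kp κ (G.S σ))ᵀ
            = (kp κ (G.S σ) * P') * kp κ q * (kp κ (G.S σ))ᵀ := by
              rw [hMq, Matrix.mul_assoc (kp κ (G.S σ)) P']
          _ = P' * (kp κ (G.S σ) * kp κ q * (kp κ (G.S σ))ᵀ) := by
              rw [h3 σ hσ]; simp only [Matrix.mul_assoc]
          _ = P' * kp κ (G.S σ * q * (G.S σ)ᵀ) := by
              rw [kp_mul, kp_mul, kp_transpose]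
          _ = P' * (G.χ σ ^ 2 • kp κ q) := by
              rw [hq σ hσ, kp_smul]
              rfl
          _ = _ := by rw [Matrix.mul_smul, hMq]
      rw [kp_arr, h6]
      rfl
  have hspn := hC.tc (κ ⊕ κ) 2 rfl (Or.inr rfl) _ hTat.1 hTat.2
  have hk := spn_kill τ hspn hz
  have hkm : dk κ z * M.map τ + M.map τ * (dk κ z)ᵀ = 0 := by
    have h7 := mat_dk (κ := κ) (l := κ) z (fun w => τ ((arr M : (κ ⊕ κ → ι) → ℚ_[ℓ]) w))
    rw [hk] at h7
    have h8 : mat (fun w => τ ((arr M : (κ ⊕ κ → ι) → ℚ_[ℓ]) w)) = M.map τ := by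
      ext i j
      rw [mat_apply, arr_elim, Matrix.map_apply]
    rw [h8] at h7
    rw [← h7]
    rfl
  have hMmap : M.map τ = P'.map τ * kp κ (cQ H.Qir) := by
    change (P' * kp κ Qi).map τ = _
    rw [mapM_mul]
    congr 1
    rw [← kp_map τ, cL_map]
  have hcomm : dk κ z * P'.map τ = P'.map τ * dk κ z := by
    rw [hMmap, Matrix.mul_assoc (P'.map τ), dk_Q hz, Matrix.mul_neg, ← sub_eq_add_neg, sub_eq_zero,
      ← Matrix.mul_assoc, ← Matrix.mul_assoc] at hkm
    have h2' : cQ H.Qr * cQ H.Qir = 1 := by rw [← cQ_mul, H.Qr_Qir, cQ_one]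
    have h7' : cQ H.Qir * cQ H.Qr = 1 := mul_eq_one_comm.1 h2'
    have h9 := congrArg (· * kp κ (cQ H.Qr)) hkm
    simp only [Matrix.mul_assoc, ← kp_mul, h7', kp_one, Matrix.mul_one] at h9
    exact h9
  -- the bracket
  induction ha using Submodule.span_induction with
  | mem a ha =>
    obtain ⟨y, hy, rfl⟩ := ha
    have hyU : ar2 (y * q) ∈ U := Submodule.subset_span ⟨y, hy, rfl⟩
    have h10 : (fun i => τ ((ar2 (y * q) : (κ → ι) → ℚ_[ℓ]) i)) =
        ar2 (y.map τ * cQ (Q1 H G)) := by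
      have h11 : (y * q).map τ = y.map τ * cQ (Q1 H G) := by rw [mapM_mul, cL_map]
      rw [← h11]
      rfl
    have h12 : dk κ z *ᵥ ar2 (y.map τ * cQ (Q1 H G)) = ar2 (br z (y.map τ) * cQ (Q1 H G)) := by
      rw [dk_ar2]
      congr 1
      have h13 : cQ (Q1 H G) * zᵀ = -(z * cQ (Q1 H G)) := by
        have h14 : cQ H.Qir * zᵀ = -(z * cQ H.Qir) := by
          rw [eq_neg_iff_add_eq_zero, add_comm]
          exact ho_skew hz
        rw [Q1, cQ_mul, Matrix.mul_assoc, h14, Matrix.mul_neg, ← Matrix.mul_assoc, ← hC.zE hz,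
          Matrix.mul_assoc]
      rw [Matrix.mul_assoc (y.map τ), h13, Matrix.mul_neg, br, Matrix.sub_mul, ← sub_eq_add_neg,
        Matrix.mul_assoc, Matrix.mul_assoc]
    have h15 : ar2 (br z (y.map τ) * cQ (Q1 H G)) ∈
        Submodule.span ℂ {x | ∃ u ∈ U, x = fun i => τ (u i)} := by
      have h16 : dk κ z *ᵥ (fun i => τ ((ar2 (y * q) : (κ → ι) → ℚ_[ℓ]) i)) =
          P'.map τ *ᵥ (dk κ z *ᵥ fun i => τ ((ar2 (y * q) : (κ → ι) → ℚ_[ℓ]) i)) := by
        conv_lhs => rw [← h2 _ hyU]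
        rw [mapM_mulVec, Matrix.mulVec_mulVec, Matrix.mulVec_mulVec, hcomm]
      rw [← h12, ← h10, h16]
      exact map_mem τ h1 _
    let F : Matrix ι ι ℂ →ₗ[ℂ] ((κ → ι) → ℂ) :=
      { toFun := fun x => ar2 (x * cQ (Q1 H G))
        map_add' := fun x x' => by rw [Matrix.add_mul]; rfl
        map_smul' := fun c x => by rw [Matrix.smul_mul]; rfl }
    have h17 : Submodule.span ℂ {x : (κ → ι) → ℂ | ∃ u ∈ U, x = fun i => τ (u i)} ≤
        (AA τ G).map F := by
      rw [Submodule.span_le]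
      rintro _ ⟨u, hu, rfl⟩
      induction hu using Submodule.span_induction with
      | mem u hu =>
        obtain ⟨y', hy', rfl⟩ := hu
        refine ⟨y'.map τ, Submodule.subset_span ⟨y', hy', rfl⟩, ?_⟩
        change ar2 (y'.map τ * cQ (Q1 H G)) = _
        have h11 : (y' * q).map τ = y'.map τ * cQ (Q1 H G) := by rw [mapM_mul, cL_map]
        rw [← h11]
        rfl
      | zero =>
        have h18 : (fun i => τ ((0 : (κ → ι) → ℚ_[ℓ]) i)) = 0 := by
          funext i; rw [Pi.zero_apply, map_zero, Pi.zero_apply]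
        rw [h18]
        exact Submodule.zero_mem _
      | add a b _ _ ha hb =>
        have h18 : (fun i => τ ((a + b) i)) = (fun i => τ (a i)) + fun i => τ (b i) := by
          funext i; rw [Pi.add_apply, map_add, Pi.add_apply]
        rw [h18]
        exact Submodule.add_mem _ ha hb
      | smul c a _ ha =>
        have h18 : (fun i => τ ((c • a) i)) = τ c • fun i => τ (a i) := by
          funext i
          rw [Pi.smul_apply, smul_eq_mul, map_mul, Pi.smul_apply, smul_eq_mul]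
        rw [h18]
        exact Submodule.smul_mem _ _ ha
    obtain ⟨x, hx, h19⟩ := h17 h15
    have h20 : x * cQ (Q1 H G) = br z (y.map τ) * cQ (Q1 H G) := ar2_inj h19
    have h21 : x * cQ (E1 G) = br z (y.map τ) * cQ (E1 G) := by
      have h22 := congrArg (· * cQ H.Qr) h20
      simp only [Matrix.mul_assoc, ← cQ_mul, Q1_Qr] at h22
      exact h22
    have h23 : br z (y.map τ) - x = 0 := by
      refine hC.faith _ ?_ ?_
      · exact Submodule.sub_mem _ (ho_br hz (LL_ho τ hC hy)) (AA_ho τ hC hx)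
      · rw [Matrix.sub_mul, h21, sub_self]
    rw [sub_eq_zero.1 h23]
    exact hx
  | zero =>
    have h24 : br z 0 = 0 := by rw [br, Matrix.mul_zero, Matrix.zero_mul, sub_zero]
    rw [h24]
    exact Submodule.zero_mem _
  | add a b _ _ ha hb =>
    have h24 : br z (a + b) = br z a + br z b := by
      rw [br, br, br, Matrix.mul_add, Matrix.add_mul]
      abel
    rw [h24]
    exact Submodule.add_mem _ ha hb
  | smul c a _ ha =>
    have h24 : br z (c • a) = c • br z a := by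
      rw [br, br, Matrix.mul_smul, Matrix.smul_mul, smul_sub]
    rw [h24]
    exact Submodule.smul_mem _ _ ha

end Run7.h226.Tt
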