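import Pool.Agent.Run7.h226.Tt6

/-!
# Tate classes and the Lie algebra of the Hodge group: the theorem in coordinates
-/

set_option linter.unusedSectionVars false

namespace Run7.h226.Tt

open Matrix Filter Topology Run7.h457.MT Run7.h475.MT Run7.h615.MT Pool.Agent.N996.BP
  Pool.Agent.N996.FP Run7.h226.Wts

variable {ι : Type} [Fintype ι] [DecidableEq ι] {ℓ : ℕ} [Fact ℓ.Prime] {Γ : Type*} [Group Γ]
  {H : HData ι} {G : GD ι ℓ Γ}

section emb

open Cardinal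

lemma card_padic (p : ℕ) [Fact p.Prime] : #ℚ_[p] ≤ continuum := by
  have h1 : #(CauSeq ℚ (padicNorm p)) ≤ continuum := by
    have h2 : Function.Injective (fun f : CauSeq ℚ (padicNorm p) => (f : ℕ → ℚ)) := by
      intro f g h
      exact Subtype.ext h
    calc #(CauSeq ℚ (padicNorm p)) ≤ #(ℕ → ℚ) := mk_le_of_injective h2
      _ = continuum := by simp
  refine le_trans ?_ h1
  exact mk_le_of_surjective (f := fun f : CauSeq ℚ (padicNorm p) =>
    (Quotient.mk _ f : ℚ_[p])) Quotient.mk_surjective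

theorem emb (p : ℕ) [Fact p.Prime] : Nonempty (ℚ_[p] →+* ℂ) := by
  have h1 : #(AlgebraicClosure ℚ_[p]) ≤ continuum := by
    refine (Algebra.IsAlgebraic.cardinalMk_le_max ℚ_[p] (AlgebraicClosure ℚ_[p])).trans ?_
    exact max_le (card_padic p) aleph0_le_continuum
  have h2 : continuum ≤ #(AlgebraicClosure ℚ_[p]) := by
    refine (continuum_le_cardinal_of_nontriviallyNormedField ℚ_[p]).trans ?_
    exact mk_le_of_injective (algebraMap ℚ_[p] (AlgebraicClosure ℚ_[p])).injective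
  have h3 : #(AlgebraicClosure ℚ_[p]) = #ℂ := by
    rw [Cardinal.mk_complex]
    exact le_antisymm h1 h2
  obtain ⟨e⟩ := Cardinal.eq.1 h3
  obtain ⟨f⟩ := IsAlgClosed.ringEquiv_of_equiv_of_charZero (K := AlgebraicClosure ℚ_[p]) (L := ℂ)
    (aleph0_lt_continuum.trans_le h2) ⟨e⟩
  exact ⟨f.toRingHom.comp (algebraMap ℚ_[p] (AlgebraicClosure ℚ_[p]))⟩

end emb

/-- The projector to the letters of degree `d`. -/
def Ed (G : GD ι ℓ Γ) (d : ℕ) : Matrix ι ι ℚ := Matrix.diagonal fun i => if G.deg i = d then 1 else 0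

lemma Ed_comm {d : ℕ} {x : Matrix ι ι ℂ} (hx : ∀ i j, x i j ≠ 0 → G.deg i = G.deg j) :
    x * cQ (Ed G d) = cQ (Ed G d) * x := by
  have h0 : cQ (Ed G d) = Matrix.diagonal fun i => if G.deg i = d then (1 : ℂ) else 0 := by
    ext i j
    change ((Ed G d i j : ℚ) : ℂ) = _
    rw [Ed, Matrix.diagonal_apply, Matrix.diagonal_apply]
    split_ifs <;> simp
  rw [h0]
  ext i j
  rw [Matrix.mul_diagonal, Matrix.diagonal_mul]
  by_cases h : x i j = 0
  · rw [h, zero_mul, mul_zero]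
  · rw [hx i j h, mul_comm]

/-- Members of the Lie algebra preserve the degrees. -/
lemma Cor.z_deg (hC : Cor H G) {z : Matrix ι ι ℂ} (hz : z ∈ ho H) :
    ∀ i j, z i j ≠ 0 → G.deg i = G.deg j := by
  intro i j hij
  by_contra h
  have h1 := ho_comm' hz (x := Ed G (G.deg j)) fun t ht => Ed_comm (hC.hl t ht)
  have h0 : cQ (Ed G (G.deg j)) = Matrix.diagonal fun i => if G.deg i = G.deg j then (1 : ℂ) else 0 := by
    ext i' j'
    change ((Ed G (G.deg j) i' j' : ℚ) : ℂ) = _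
    rw [Ed, Matrix.diagonal_apply, Matrix.diagonal_apply]
    split_ifs <;> simp
  rw [h0] at h1
  have h2 := congrFun (congrFun h1 i) j
  rw [Matrix.mul_diagonal, Matrix.diagonal_mul, if_pos rfl, if_neg h, mul_one, zero_mul] at h2
  exact hij h2

/-- The functional applied to a product. -/
lemma map_phi_mul [Algebra ℚ_[ℓ] ℂ] (φ : ℂ →ₗ[ℚ_[ℓ]] ℚ_[ℓ]) (x : Matrix ι ι ℂ)
    (M : Matrix ι ι ℚ_[ℓ]) : (x * M.map (algebraMap ℚ_[ℓ] ℂ)).map φ = x.map φ * M := by
  ext i j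
  rw [Matrix.map_apply, Matrix.mul_apply, map_sum, Matrix.mul_apply]
  refine Finset.sum_congr rfl fun k _ => ?_
  rw [Matrix.map_apply, Matrix.map_apply, mul_comm, ← Algebra.smul_def, map_smul, smul_eq_mul,
    mul_comm]

lemma map_mul_phi [Algebra ℚ_[ℓ] ℂ] (φ : ℂ →ₗ[ℚ_[ℓ]] ℚ_[ℓ]) (x : Matrix ι ι ℂ)
    (M : Matrix ι ι ℚ_[ℓ]) : (M.map (algebraMap ℚ_[ℓ] ℂ) * x).map φ = M * x.map φ := by
  ext i j
  rw [Matrix.map_apply, Matrix.mul_apply, map_sum, Matrix.mul_apply]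
  refine Finset.sum_congr rfl fun k _ => ?_
  rw [Matrix.map_apply, Matrix.map_apply, ← Algebra.smul_def, map_smul, smul_eq_mul]

/-- The matrix of an array. -/
def m2 {R : Type} (a : (Unit ⊕ Unit → ι) → R) : Matrix ι ι R :=
  fun i j => a (Sum.elim (fun _ => i) fun _ => j)

lemma m2_ar2 {R : Type} (M : Matrix ι ι R) : m2 (ar2 M) = M := rfl

lemma ar2_m2 {R : Type} (a : (Unit ⊕ Unit → ι) → R) : ar2 (m2 a) = a := by
  funext w
  change a _ = a w
  congr 1
  funext k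
  rcases k with k | k <;> rfl

lemma Cor.QrE (hC : Cor H G) : H.Qr * E1 G = E1 G * H.Qr := by
  have h1 := hC.QE
  have h2 : H.Qir * H.Qr = 1 := mul_eq_one_comm.1 H.Qr_Qir
  calc H.Qr * E1 G = H.Qr * E1 G * (H.Qir * H.Qr) := by rw [h2, Matrix.mul_one]
    _ = H.Qr * (E1 G * H.Qir) * H.Qr := by simp only [Matrix.mul_assoc]
    _ = H.Qr * (H.Qir * E1 G) * H.Qr := by rw [h1]
    _ = (H.Qr * H.Qir) * (E1 G * H.Qr) := by simp only [Matrix.mul_assoc]
    _ = _ := by rw [H.Qr_Qir, Matrix.one_mul]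

/-- Rational classes of type one. -/
lemma Cor.rat (hC : Cor H G) {M : Matrix ι ι ℚ} (hM : ar2 M ∈ BB H (Unit ⊕ Unit)) :
    ∃ r : ℚ, E1 G * M * (E1 G * H.Qr) = r • E1 G := by
  refine hC.sc _ (fun t ht => ?_) ?_ ?_
  · have h1 := ar2_BB.1 hM t ht
    have h2 : H.l t * cQ (M * H.Qr) = cQ (M * H.Qr) * H.l t := by
      rw [cQ_mul]
      calc H.l t * (cQ M * cQ H.Qr) = H.l t * cQ M * (cQ H.Qr * (H.l t⁻¹ * H.l t)) := by
            rw [H.l_inv' ht, Matrix.mul_one, Matrix.mul_assoc]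
        _ = H.l t * cQ M * ((cQ H.Qr * H.l t⁻¹) * H.l t) := by simp only [Matrix.mul_assoc]
        _ = (H.l t * cQ M * (H.l t)ᵀ) * cQ H.Qr * H.l t := by
            rw [← H.l_tr ht]; simp only [Matrix.mul_assoc]
        _ = _ := by rw [h1]
    have h3 : E1 G * M * (E1 G * H.Qr) = E1 G * (M * H.Qr) * E1 G := by
      rw [← hC.QrE]; simp only [Matrix.mul_assoc]
    rw [h3, cQ_mul, cQ_mul]
    calc H.l t * (cQ (E1 G) * cQ (M * H.Qr) * cQ (E1 G))
        = (H.l t * cQ (E1 G)) * cQ (M * H.Qr) * cQ (E1 G) := by simp only [Matrix.mul_assoc]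
      _ = cQ (E1 G) * (H.l t * cQ (M * H.Qr)) * cQ (E1 G) := by
          rw [hC.lE ht]; simp only [Matrix.mul_assoc]
      _ = cQ (E1 G) * cQ (M * H.Qr) * (H.l t * cQ (E1 G)) := by
          rw [h2]; simp only [Matrix.mul_assoc]
      _ = _ := by rw [hC.lE ht]; simp only [Matrix.mul_assoc]
  · simp only [← Matrix.mul_assoc, E1_E1]
  · rw [← hC.QrE]
    simp only [Matrix.mul_assoc]
    rw [E1_E1]

lemma Cor.spn_rat (hC : Cor H G) {a : (Unit ⊕ Unit → ι) → ℚ_[ℓ]}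
    (ha : a ∈ spn ℚ_[ℓ] (BB H (Unit ⊕ Unit))) :
    ∃ c : ℚ_[ℓ], cL ℓ (E1 G) * m2 a * cL ℓ (E1 G * H.Qr) = c • cL ℓ (E1 G) := by
  induction ha using Submodule.span_induction with
  | mem y hy =>
    obtain ⟨s, hs, rfl⟩ := hy
    have h0 : ar2 (m2 s) ∈ BB H (Unit ⊕ Unit) := by rw [ar2_m2]; exact hs
    obtain ⟨r, hr⟩ := hC.rat h0
    refine ⟨(r : ℚ_[ℓ]), ?_⟩
    have h1 : m2 (fun k => algebraMap ℚ ℚ_[ℓ] (s k)) = cL ℓ (m2 s) := by
      ext i j
      change algebraMap ℚ ℚ_[ℓ] _ = _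
      rw [eq_ratCast]
      rfl
    rw [h1, ← cL_mul, ← cL_mul, hr]
    ext i j
    rw [cL, Matrix.map_apply, Matrix.smul_apply, Matrix.smul_apply, smul_eq_mul, Rat.cast_mul, cL,
      Matrix.map_apply, smul_eq_mul]
  | zero =>
    refine ⟨0, ?_⟩
    have h1 : m2 (0 : (Unit ⊕ Unit → ι) → ℚ_[ℓ]) = 0 := rfl
    rw [h1, Matrix.mul_zero, Matrix.zero_mul, zero_smul]
  | add a b _ _ ha hb =>
    obtain ⟨c, hc⟩ := ha
    obtain ⟨d, hd⟩ := hb
    refine ⟨c + d, ?_⟩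
    have h1 : m2 (a + b) = m2 a + m2 b := rfl
    rw [h1, Matrix.mul_add, Matrix.add_mul, hc, hd, add_smul]
  | smul r a _ ha =>
    obtain ⟨c, hc⟩ := ha
    refine ⟨r * c, ?_⟩
    have h1 : m2 (r • a) = r • m2 a := rfl
    rw [h1, Matrix.mul_smul, Matrix.smul_mul, hc, smul_smul]

variable (τ : ℚ_[ℓ] →+* ℂ)

/-- **The centraliser is trivial.** -/
theorem noCent (hC : Cor H G) {x : Matrix ι ι ℂ} (hx : x ∈ ho H)
    (hc : ∀ a ∈ AA τ G, x * a = a * x) : x = 0 := by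
  let _ : Algebra ℚ_[ℓ] ℂ := τ.toAlgebra
  have hτ : algebraMap ℚ_[ℓ] ℂ = τ := rfl
  obtain ⟨Δ0, hΔ0, hn⟩ := G.near
  obtain ⟨Δ, hΔ, hq⟩ := hC.exQ
  have hdeg := hC.z_deg hx
  have hDg : x * (Dg G ℚ_[ℓ]).map τ = (Dg G ℚ_[ℓ]).map τ * x := by
    have h1 : (Dg G ℚ_[ℓ]).map τ = Dg G ℂ := by
      ext i j
      rw [Matrix.map_apply, Dg, Dg, Matrix.diagonal_apply, Matrix.diagonal_apply]
      split_ifs
      · rw [map_natCast]
      · rw [map_zero]
    rw [h1]
    exact Dg_comm hdeg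
  let e : Matrix ι ι ℚ_[ℓ] := cL ℓ (E1 G)
  let q : Matrix ι ι ℚ_[ℓ] := cL ℓ (Q1 H G)
  have hee : e * e = e := by rw [← cL_mul, E1_E1]
  have heq : e * q = q := by rw [← cL_mul, E1_Q1]
  have hqe : q * e = q := by rw [← cL_mul, hC.Q1_E1]
  have key : ∀ φ : ℂ →ₗ[ℚ_[ℓ]] ℚ_[ℓ], ∃ c : ℚ_[ℓ], (x * cQ (E1 G)).map φ = c • e := by
    intro φ
    let X : Matrix ι ι ℚ_[ℓ] := x.map φ
    have hXS : ∀ γ ∈ Δ0, X * G.S γ = G.S γ * X := by
      intro γ hγ
      obtain ⟨h1, h2⟩ := hn γ hγ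
      obtain ⟨Z, hZ⟩ := t_LOGEX ℓ ι (G.S γ) h1
      obtain ⟨u, hu⟩ := exists_logS h2
      refine comm_of_log h1 hZ ?_
      have h3 := hc _ (Submodule.subset_span ⟨_, ⟨γ, Z, u, hZ, hu, rfl⟩, rfl⟩)
      have h4 : (Z - (u / 2) • Dg G ℚ_[ℓ]).map τ = Z.map τ - τ (u / 2) • (Dg G ℚ_[ℓ]).map τ := by
        ext i j
        rw [Matrix.map_apply, Matrix.sub_apply, Matrix.smul_apply, smul_eq_mul, map_sub, map_mul]
        rfl
      rw [h4, Matrix.mul_sub, Matrix.sub_mul, Matrix.mul_smul, Matrix.smul_mul, hDg,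
        sub_left_inj] at h3
      have h5 := congrArg (fun M => M.map φ) h3
      change (x * Z.map (algebraMap ℚ_[ℓ] ℂ)).map φ = (Z.map (algebraMap ℚ_[ℓ] ℂ) * x).map φ at h5
      rwa [map_phi_mul, map_mul_phi] at h5
    have hXe : X * e = (x * cQ (E1 G)).map φ := by
      have h1 := map_phi_mul φ x e
      rw [hτ, cL_map] at h1
      exact h1.symm
    have heX : e * X = (cQ (E1 G) * x).map φ := by
      have h1 := map_mul_phi φ x e
      rw [hτ, cL_map] at h1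
      exact h1.symm
    have hXe' : X * e = e * X := by rw [hXe, heX, hC.zE hx]
    -- the class
    let y : Matrix ι ι ℚ_[ℓ] := X * e
    have hye : y * e = y := by
      change X * e * e = X * e
      rw [Matrix.mul_assoc, hee]
    have hey : e * y = y := by
      change e * (X * e) = X * e
      rw [← Matrix.mul_assoc, ← hXe', Matrix.mul_assoc, hee]
    have hyS : ∀ γ ∈ Δ0, G.S γ * y = y * G.S γ := by
      intro γ hγ
      change G.S γ * (X * e) = X * e * G.S γ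
      rw [← Matrix.mul_assoc, ← hXS γ hγ, Matrix.mul_assoc, SE, Matrix.mul_assoc]
    have hlet : ∀ w, (ar2 (y * q) : (Unit ⊕ Unit → ι) → ℚ_[ℓ]) w ≠ 0 → ∀ k, G.deg (w k) = 1 := by
      intro w hw
      have hediag : e = Matrix.diagonal fun i => if G.deg i = 1 then (1 : ℚ_[ℓ]) else 0 := by
        ext i j
        change (cL ℓ (E1 G)) i j = _
        rw [cL, Matrix.map_apply, E1, Matrix.diagonal_apply, Matrix.diagonal_apply]
        split_ifs <;> simp
      have h1 : y * q = e * (y * q) := by rw [← Matrix.mul_assoc, hey]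
      have h2 : y * q = (y * q) * e := by rw [Matrix.mul_assoc y, hqe]
      have hw' : (y * q) (w (Sum.inl ())) (w (Sum.inr ())) ≠ 0 := hw
      rintro (k | k)
      · by_contra hk
        rw [h1, hediag, Matrix.diagonal_mul] at hw'
        rw [if_neg hk, zero_mul] at hw'
        exact hw' rfl
      · by_contra hk
        rw [h2, hediag, Matrix.mul_diagonal] at hw'
        rw [if_neg hk, mul_zero] at hw'
        exact hw' rfl
    have hTat : Tat G 1 (ar2 (y * q) : (Unit ⊕ Unit → ι) → ℚ_[ℓ]) := by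
      refine ⟨fun w hw => ?_, Δ0 ⊓ Δ, G.P_inf hΔ0 hΔ, fun σ hσ => ?_⟩
      · have h5 := hlet w hw
        rw [Finset.sum_congr rfl fun k _ => h5 k, Finset.sum_const, Finset.card_univ]
        rfl
      · have h1 : G.S σ * (y * q) * (G.S σ)ᵀ = G.χ σ • (y * q) := by
          calc G.S σ * (y * q) * (G.S σ)ᵀ = (G.S σ * y) * q * (G.S σ)ᵀ := by
                simp only [Matrix.mul_assoc]
            _ = y * (G.S σ * q * (G.S σ)ᵀ) := by
                rw [hyS σ hσ.1]; simp only [Matrix.mul_assoc]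
            _ = _ := by rw [hq σ hσ.2, Matrix.mul_smul]
        rw [kp_ar2, h1, ar2_smul, _root_.pow_one]
    have hspn := hC.tc (Unit ⊕ Unit) 1 rfl (Or.inl rfl) _ hTat hlet
    obtain ⟨c, hcc⟩ := hC.spn_rat hspn
    refine ⟨c, ?_⟩
    rw [m2_ar2] at hcc
    have h6 : e * (y * q) * cL ℓ (E1 G * H.Qr) = y := by
      have h7 : q * cL ℓ (E1 G * H.Qr) = e := by
        change cL ℓ (Q1 H G) * cL ℓ (E1 G * H.Qr) = cL ℓ (E1 G)
        rw [← cL_mul, ← Matrix.mul_assoc, hC.Q1_E1, Q1_Qr]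
      calc e * (y * q) * cL ℓ (E1 G * H.Qr) = (e * y) * (q * cL ℓ (E1 G * H.Qr)) := by
            simp only [Matrix.mul_assoc]
        _ = y := by rw [hey, h7, hye]
    rw [← hXe]
    exact h6.symm.trans hcc
  -- over the complex numbers
  have hsc : ∃ c : ℂ, x * cQ (E1 G) = c • cQ (E1 G) := by
    by_cases hi : ∃ i0, G.deg i0 = 1
    · obtain ⟨i0, hi0⟩ := hi
      refine ⟨(x * cQ (E1 G)) i0 i0, ?_⟩
      rw [← sub_eq_zero]
      ext i j
      refine dual_sep (K := ℚ_[ℓ]) fun φ => ?_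
      obtain ⟨c, hcφ⟩ := key φ
      have h1 : φ ((x * cQ (E1 G)) i j) = c * e i j := congrFun (congrFun hcφ i) j
      have h2 : φ ((x * cQ (E1 G)) i0 i0) = c * e i0 i0 := congrFun (congrFun hcφ i0) i0
      have h3 : e i0 i0 = 1 := by
        change (cL ℓ (E1 G)) i0 i0 = 1
        rw [cL, Matrix.map_apply, E1, Matrix.diagonal_apply_eq, if_pos hi0, Rat.cast_one]
      have h4 : cQ (E1 G) i j = algebraMap ℚ_[ℓ] ℂ (e i j) := by
        rw [hτ, ← cL_map τ, Matrix.map_apply]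
      rw [h3, mul_one] at h2
      have h5 : φ ((x * cQ (E1 G)) i0 i0 * algebraMap ℚ_[ℓ] ℂ (e i j)) = e i j * c := by
        rw [mul_comm ((x * cQ (E1 G)) i0 i0), ← Algebra.smul_def, map_smul, h2, smul_eq_mul]
      rw [Matrix.sub_apply, Matrix.smul_apply, smul_eq_mul, map_sub, h1, h4, h5, mul_comm c,
        sub_self]
    · refine ⟨0, ?_⟩
      have h1 : E1 G = 0 := by
        ext i j
        rw [E1, Matrix.diagonal_apply]
        push Not at hi
        rw [if_neg (hi i), Matrix.zero_apply, ite_self]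
      have h2 : cQ (0 : Matrix ι ι ℚ) = 0 := Matrix.map_zero _ Rat.cast_zero
      rw [h1, h2, Matrix.mul_zero, smul_zero]
  obtain ⟨c, hc1⟩ := hsc
  have hET : (cQ (E1 G))ᵀ = cQ (E1 G) := by
    change ((E1 G).map _)ᵀ = _
    rw [← Matrix.transpose_map, E1, Matrix.diagonal_transpose]
    rfl
  have hEE : cQ (E1 G) * cQ (E1 G) = cQ (E1 G) := by rw [← cQ_mul, E1_E1]
  have h1 := ho_skew hx
  have h2 : c • cQ (Q1 H G) + c • cQ (Q1 H G) = 0 := by
    have h3 := congrArg (fun M => cQ (E1 G) * M * cQ (E1 G)) h1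
    simp only [Matrix.mul_add, Matrix.add_mul, Matrix.mul_zero, Matrix.zero_mul] at h3
    have h4 : cQ (E1 G) * (x * cQ H.Qir) * cQ (E1 G) = c • cQ (Q1 H G) := by
      rw [← Matrix.mul_assoc, ← hC.zE hx, hc1, Matrix.smul_mul, Matrix.smul_mul, ← cQ_mul,
        ← cQ_mul]
      congr 2
      exact hC.Q1_E1
    have h5 : cQ (E1 G) * (cQ H.Qir * xᵀ) * cQ (E1 G) = c • cQ (Q1 H G) := by
      have h6 : xᵀ * cQ (E1 G) = c • cQ (E1 G) := by
        have h7 := congrArg Matrix.transpose hc1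
        rw [hC.zE hx, Matrix.transpose_mul, hET, Matrix.transpose_smul, hET] at h7
        exact h7
      rw [← Matrix.mul_assoc, Matrix.mul_assoc _ xᵀ, h6, Matrix.mul_smul, ← cQ_mul, ← cQ_mul]
      congr 2
      exact hC.Q1_E1
    rw [h4, h5] at h3
    exact h3
  have h3 : c • cQ (E1 G) = 0 := by
    have h4 := congrArg (· * cQ H.Qr) h2
    simp only [Matrix.add_mul, Matrix.smul_mul, ← cQ_mul, Q1_Qr, Matrix.zero_mul] at h4
    have h5 : (2 : ℂ) • (c • cQ (E1 G)) = 0 := by rw [two_smul]; exact h4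
    exact (smul_eq_zero.1 h5).resolve_left two_ne_zero
  exact hC.faith x hx (by rw [hc1, h3])

/-- **The Lie algebra of the Hodge group is spanned by the normalised logarithms.** -/
theorem AA_eq (hC : Cor H G) : ho H ≤ AA τ G :=
  compl_le (AA_ho τ hC) (fun _ hz _ ha => ideal τ hC hz ha) fun _ hx h => noCent τ hC hx h

lemma dk_lin {κ : Type} [Fintype κ] [DecidableEq κ] (d : (κ → ι) → ℂ)
    {A : Submodule ℂ (Matrix ι ι ℂ)} {s : Set (Matrix ι ι ℂ)} (hA : A = Submodule.span ℂ s)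
    (h : ∀ x ∈ s, dk κ x *ᵥ d = 0) : ∀ x ∈ A, dk κ x *ᵥ d = 0 := by
  subst hA
  intro x hx
  induction hx using Submodule.span_induction with
  | mem x hx => exact h x hx
  | zero =>
    have h1 : dk κ (0 : Matrix ι ι ℂ) = 0 := (dkL κ).map_zero
    rw [h1, Matrix.zero_mulVec]
  | add a b _ _ ha hb =>
    have h1 : dk κ (a + b) = dk κ a + dk κ b := (dkL κ).map_add a b
    rw [h1, Matrix.add_mulVec, ha, hb, add_zero]
  | smul c a _ ha =>
    have h1 : dk κ (c • a) = c • dk κ a := (dkL κ).map_smul c a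
    rw [h1, Matrix.smul_mulVec, ha, smul_zero]

/-- **Every Tate class is a combination of Hodge classes, in coordinates.** -/
theorem tat_spn (hC : Cor H G) {κ : Type} [Fintype κ] [DecidableEq κ] {j : ℕ}
    {a : (κ → ι) → ℚ_[ℓ]} (ha : Tat G j a) : a ∈ spn ℚ_[ℓ] (BB H κ) := by
  obtain ⟨τ⟩ := emb ℓ
  have h1 : ∀ z ∈ ho H, dk κ z *ᵥ (fun w => τ (a w)) = 0 := by
    intro z hz
    refine dk_lin _ rfl ?_ z (AA_eq τ hC hz)
    rintro x ⟨y, hy, rfl⟩
    exact LL_kill' τ hy ha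
  have h2 := killed_span h1
  have h3 : (fun w => τ (a w)) ∈ spn ℂ (BB H κ) := by
    have h4 : (fun (x : (κ → ι) → ℚ) k => algebraMap ℚ ℂ (x k)) = ca := by
      funext x k
      rw [eq_ratCast]
      rfl
    rw [spn, h4]
    exact h2
  rw [mem_spn] at h3 ⊢
  intro φ
  let τ' : ℚ_[ℓ] →ₗ[ℚ] ℂ := (τ.toRatAlgHom).toLinearMap
  have hker : LinearMap.ker τ' = ⊥ := LinearMap.ker_eq_bot.2 fun x y hxy => τ.injective hxy
  obtain ⟨g, hg⟩ := LinearMap.exists_leftInverse_of_injective τ' hker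
  have h5 := h3 (φ ∘ₗ g)
  have h6 : (fun k => (φ ∘ₗ g) (τ (a k))) = fun k => φ (a k) := by
    funext k
    have h7 := LinearMap.congr_fun hg (a k)
    exact congrArg φ h7
  rw [h6] at h5
  exact h5

end Run7.h226.Tt
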