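import Pool.Agent.Run7.h226.Tt7
import Pool.Agent.Run7.h226.Fin3

/-!
# Galois actions on the cohomology of the powers, in coordinates
-/

set_option linter.unusedSectionVars false

open CategoryTheory AlgebraicGeometry TensorProduct

universe u

namespace Run7.h226.Tt

open Module Matrix
open Pool.Agent.H914 Pool.Agent.H914.VarClass Pool.Agent.H914.VarClass.Obj
  Pool.Agent.H914.WeilCohomology
open Pool.Agent.Y133.Half Pool.Agent.Y121.AH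
open Pool.Agent.N996.BP Pool.Agent.N996.BP.Geo Pool.Agent.N996.FP Pool.Agent.N996.FP.Geo
open Run7.h226.Wts Run7.h226.Geo Run7.h457.MT

variable {k : Type u} [Field k] {𝒱 : VarClass k} {ops : CycleOps 𝒱} {T : HodgeTheory ops}
  {X Y Z : 𝒱.Obj} {ℓ : ℕ} [Fact ℓ.Prime] [Algebra T.W.K ℚ_[ℓ]] {Γ : Type*} [Group Γ]

/-- The cohomology with `ℓ`-adic coefficients. -/
abbrev HT (T : HodgeTheory ops) (ℓ : ℕ) [Fact ℓ.Prime] [Algebra T.W.K ℚ_[ℓ]] (X : 𝒱.Obj) : Type :=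
  ℚ_[ℓ] ⊗[T.W.K] T.W.H X

/-- The pull-back. -/
noncomputable def mp (f : X ⟶ Y) : HT T ℓ Y →ₗ[ℚ_[ℓ]] HT T ℓ X :=
  (T.W.map f).toLinearMap.baseChange ℚ_[ℓ]

lemma mp_tm (f : X ⟶ Y) (a : T.W.H Y) :
    (mp f ((1 : ℚ_[ℓ]) ⊗ₜ[T.W.K] a) : HT T ℓ X) = 1 ⊗ₜ[T.W.K] T.W.map f a := rfl

lemma mp_mp (f : X ⟶ Y) (g : Y ⟶ Z) (x : HT T ℓ Z) : mp f (mp g x) = mp (f ≫ g) x := by
  have h1 : (mp f : HT T ℓ Y →ₗ[ℚ_[ℓ]] HT T ℓ X) ∘ₗ mp g = mp (f ≫ g) := by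
    rw [mp, mp, mp, ← LinearMap.baseChange_comp]
    congr 1
    ext a
    exact (T.W.map_comp f g a).symm
  exact LinearMap.congr_fun h1 x

lemma mp_id (x : HT T ℓ X) : mp (𝟙 X) x = x := by
  have h1 : (mp (𝟙 X) : HT T ℓ X →ₗ[ℚ_[ℓ]] HT T ℓ X) = LinearMap.id := by
    rw [mp, ← LinearMap.baseChange_id]
    congr 1
    ext a
    change T.W.map (𝟙 X) a = a
    rw [T.W.map_id]
  exact LinearMap.congr_fun h1 x

variable (T X ℓ Γ) in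
/-- An action of the group on the cohomology of the powers. -/
structure Act where
  χ : Γ →* ℚ_[ℓ]
  ρ : ∀ n, Γ →* Module.End ℚ_[ℓ] (HT T ℓ (pw X n))
  mul : ∀ n γ a b, ρ n γ (a * b) = ρ n γ a * ρ n γ b
  map : ∀ {n m : ℕ} (f : pw X m ⟶ pw X n), IsCd f → ∀ γ x, ρ m γ (mp f x) = mp f (ρ n γ x)
  deg : ∀ n γ i x, x ∈ (T.W.gr (pw X n) i).baseChange ℚ_[ℓ] →
    ρ n γ x ∈ (T.W.gr (pw X n) i).baseChange ℚ_[ℓ]
  P : Subgroup Γ → Prop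
  P_top : P ⊤
  P_inf : ∀ {Δ Δ' : Subgroup Γ}, P Δ → P Δ' → P (Δ ⊓ Δ')
  P_pow : ∀ {Δ : Subgroup Γ}, P Δ → ∀ γ : Γ, ∃ e : ℕ, 0 < e ∧ γ ^ e ∈ Δ
  cχ : ∃ Δ : Subgroup Γ, P Δ ∧ ∀ γ ∈ Δ, ‖χ γ - 1‖ ≤ ((ℓ : ℝ) ^ 2)⁻¹
  cρ : ∀ (x : HT T ℓ (pw X 0)) (φ : HT T ℓ (pw X 0) →ₗ[ℚ_[ℓ]] ℚ_[ℓ]),
    ∃ Δ : Subgroup Γ, P Δ ∧ ∀ γ ∈ Δ, ‖φ (ρ 0 γ x - x)‖ ≤ ((ℓ : ℝ) ^ 2)⁻¹

variable (R : Act T X ℓ Γ) {ι : Type} [Fintype ι] [DecidableEq ι] (e : Basis ι T.W.K (T.W.H X))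

/-- The Tate classes. -/
def IsT (n j : ℕ) (x : HT T ℓ (pw X n)) : Prop :=
  x ∈ (T.W.gr (pw X n) (2 * j)).baseChange ℚ_[ℓ] ∧
    ∃ Δ : Subgroup Γ, R.P Δ ∧ ∀ γ ∈ Δ, R.ρ n γ x = R.χ γ ^ j • x

/-- The action on the cohomology of `X`. -/
def Act.r0 : Γ →* Module.End ℚ_[ℓ] (HT T ℓ X) := R.ρ 0

/-- The matrices of the action. -/
noncomputable def SM : Γ →* Matrix ι ι ℚ_[ℓ] :=
  (LinearMap.toMatrixAlgEquiv (e.baseChange ℚ_[ℓ])).toAlgHom.toRingHom.toMonoidHom.comp R.r0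

lemma SM_eq (γ : Γ) : SM R e γ = LinearMap.toMatrix (e.baseChange ℚ_[ℓ]) (e.baseChange ℚ_[ℓ])
    (R.r0 γ) := rfl

lemma SM_apply (γ : Γ) (j : ι) :
    R.r0 γ ((1 : ℚ_[ℓ]) ⊗ₜ[T.W.K] e j) = ∑ i, SM R e γ i j • ((1 : ℚ_[ℓ]) ⊗ₜ[T.W.K] e i) := by
  have h := (e.baseChange ℚ_[ℓ]).sum_repr (R.r0 γ ((1 : ℚ_[ℓ]) ⊗ₜ[T.W.K] e j))
  rw [← h]
  refine Finset.sum_congr rfl fun i _ => ?_
  rw [SM_eq, LinearMap.toMatrix_apply, Basis.baseChange_apply, Basis.baseChange_apply]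

/-- The matrix of an operator with respect to a family of rational classes. -/
def IsM (φ : Module.End ℚ_[ℓ] (HT T ℓ Z)) {κ : Type} [Fintype κ] (b : κ → T.W.H Z)
    (g : Matrix κ κ ℚ_[ℓ]) : Prop :=
  ∀ w, φ ((1 : ℚ_[ℓ]) ⊗ₜ[T.W.K] b w) = ∑ v, g v w • ((1 : ℚ_[ℓ]) ⊗ₜ[T.W.K] b v)

lemma isM_zero {φ : Module.End ℚ_[ℓ] (HT T ℓ X)} {g : Matrix ι ι ℚ_[ℓ]} (h0 : IsM φ e g) :
    IsM φ (fun w : Fin 1 → ι => e (w 0)) (kp (Fin 1) g) := by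
  intro w
  rw [← Equiv.sum_comp (Equiv.funUnique (Fin 1) ι).symm]
  refine (h0 (w 0)).trans (Finset.sum_congr rfl fun i _ => ?_)
  rw [kp_apply, Fintype.prod_unique]
  rfl

lemma isM_zero' (γ : Γ) : IsM (Z := pw X 0) (R.ρ 0 γ) (wb e 0) (kp (Fin (0 + 1)) (SM R e γ)) := by
  have h1 : (wb e 0 : (Fin 1 → ι) → T.W.H X) = fun w => e (w 0) := funext fun w => wb_zero e w
  have h2 := isM_zero e (φ := R.r0 γ) (SM_apply R e γ)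
  rw [← h1] at h2
  exact h2

lemma isCd_pfst (n : ℕ) : IsCd (pfst X n) := fun i => ⟨i.castSucc, (prj_castSucc n i).symm⟩

/-- The projection to the last factor. -/
noncomputable def ps (X : 𝒱.Obj) (n : ℕ) : pw X (n + 1) ⟶ pw X 0 := psnd X n

lemma isCd_ps (n : ℕ) : IsCd (ps X n) := fun i => ⟨Fin.last _, by
  rw [prj_last, prj_zero]
  exact Category.comp_id (psnd X n)⟩

lemma tm_mul (a b : T.W.H Z) : ((1 : ℚ_[ℓ]) ⊗ₜ[T.W.K] (a * b) : HT T ℓ Z) =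
    ((1 : ℚ_[ℓ]) ⊗ₜ[T.W.K] a) * ((1 : ℚ_[ℓ]) ⊗ₜ[T.W.K] b) := by
  rw [Algebra.TensorProduct.tmul_mul_tmul, one_mul]

lemma isM_succ (γ : Γ) (n : ℕ)
    (ih : IsM (Z := pw X n) (R.ρ n γ) (wb e n) (kp (Fin (n + 1)) (SM R e γ))) :
    IsM (Z := pw X (n + 1)) (R.ρ (n + 1) γ) (wb e (n + 1)) (kp (Fin (n + 1 + 1)) (SM R e γ)) := by
  intro w
  rw [wb_succ, tm_mul, ← mp_tm, ← mp_tm, R.mul]
  have h1 := R.map (pfst X n) (isCd_pfst n) γ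
    ((1 : ℚ_[ℓ]) ⊗ₜ[T.W.K] wb e n fun i => w i.castSucc)
  have h2 : R.ρ (n + 1) γ (mp (psnd X n) ((1 : ℚ_[ℓ]) ⊗ₜ[T.W.K] e (w (Fin.last _)))) =
      mp (psnd X n) (R.r0 γ ((1 : ℚ_[ℓ]) ⊗ₜ[T.W.K] e (w (Fin.last _)))) :=
    R.map (ps X n) (isCd_ps n) γ ((1 : ℚ_[ℓ]) ⊗ₜ[T.W.K] e (w (Fin.last _)))
  refine (congrArg₂ (· * ·) h1 h2).trans ?_
  rw [ih, SM_apply, map_sum, map_sum, Finset.sum_mul_sum, sum_snoc]
  refine Finset.sum_congr rfl fun v _ => Finset.sum_congr rfl fun x _ => ?_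
  rw [map_smul, map_smul, smul_mul_smul_comm, mp_tm, mp_tm, ← tm_mul, ← wb_snoc, kp_snoc]

/-- The action on the words. -/
lemma isM_wb (γ : Γ) (n : ℕ) :
    IsM (Z := pw X n) (R.ρ n γ) (wb e n) (kp (Fin (n + 1)) (SM R e γ)) := by
  induction n with
  | zero => exact isM_zero' R e γ
  | succ n ih => exact isM_succ R e γ n ih

/-- The classes given by arrays. -/
noncomputable def eL (n : ℕ) : ((Fin (n + 1) → ι) → ℚ_[ℓ]) ≃ₗ[ℚ_[ℓ]] HT T ℓ (pw X n) :=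
  ((wb e n).baseChange ℚ_[ℓ]).equivFun.symm

lemma eL_apply (n : ℕ) (a : (Fin (n + 1) → ι) → ℚ_[ℓ]) :
    (eL e n a : HT T ℓ (pw X n)) = ∑ w, a w • ((1 : ℚ_[ℓ]) ⊗ₜ[T.W.K] wb e n w) := by
  rw [eL, Basis.equivFun_symm_apply]
  exact Finset.sum_congr rfl fun w _ => by rw [Basis.baseChange_apply]

lemma act_eL (γ : Γ) (n : ℕ) (a : (Fin (n + 1) → ι) → ℚ_[ℓ]) :
    R.ρ n γ (eL e n a) = eL e n (kp (Fin (n + 1)) (SM R e γ) *ᵥ a) := by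
  rw [eL_apply, eL_apply, map_sum]
  have h1 : ∀ w, R.ρ n γ (a w • ((1 : ℚ_[ℓ]) ⊗ₜ[T.W.K] wb e n w)) =
      ∑ v, (kp (Fin (n + 1)) (SM R e γ) v w * a w) • ((1 : ℚ_[ℓ]) ⊗ₜ[T.W.K] wb e n v) := by
    intro w
    rw [map_smul, isM_wb R e γ n w, Finset.smul_sum]
    refine Finset.sum_congr rfl fun v _ => ?_
    rw [smul_smul, mul_comm]
  rw [Finset.sum_congr rfl fun w _ => h1 w, Finset.sum_comm]
  refine Finset.sum_congr rfl fun v _ => ?_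
  rw [← Finset.sum_smul]
  rfl

section Gr

variable {K : Type} [Field K] [CharZero K] [Algebra K ℂ] {L : Type} [Field L] [Algebra K L]
  {B : Type} [Ring B] [Algebra K B] {κ : Type} [Fintype κ] [DecidableEq κ] {b : Basis κ K B}
  {gr : ℕ → Submodule K B} {d : κ → ℕ}

lemma bc_gr (hint : DirectSum.IsInternal gr) (hdeg : ∀ j, b j ∈ gr (d j)) {i : ℕ} {x : L ⊗[K] B} :
    x ∈ (gr i).baseChange L ↔ ∀ j, (b.baseChange L).repr x j ≠ 0 → d j = i := by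
  constructor
  · intro hx j hj
    by_contra hji
    apply hj
    clear hj
    rw [Submodule.baseChange_eq_span] at hx
    induction hx using Submodule.span_induction with
    | mem x hx =>
      obtain ⟨c, hc, rfl⟩ := hx
      change (b.baseChange L).repr ((1 : L) ⊗ₜ[K] c) j = 0
      rw [Basis.baseChange_repr_tmul, repr_gr hint hdeg hc hji, zero_smul]
    | zero => rw [map_zero]; rfl
    | add x y _ _ hx hy => rw [map_add, Finsupp.add_apply, hx, hy, add_zero]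
    | smul c x _ hx => rw [map_smul, Finsupp.smul_apply, hx, smul_zero]
  · intro h
    rw [← (b.baseChange L).sum_repr x]
    refine Submodule.sum_mem _ fun j _ => ?_
    by_cases hj : (b.baseChange L).repr x j = 0
    · rw [hj, zero_smul]
      exact Submodule.zero_mem _
    · rw [Basis.baseChange_apply]
      exact Submodule.smul_mem _ _ (Submodule.tmul_mem_baseChange_of_mem _ (h j hj ▸ hdeg j))

end Gr

variable {deg : ι → ℕ} {e}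

/-- Classes of degree `2 j`. -/
lemma eL_gr (hdeg : ∀ j, e j ∈ T.W.gr X (deg j)) {n j : ℕ} {a : (Fin (n + 1) → ι) → ℚ_[ℓ]} :
    (eL e n a : HT T ℓ (pw X n)) ∈ (T.W.gr (pw X n) (2 * j)).baseChange ℚ_[ℓ] ↔ Hm deg j a := by
  have h1 := bc_gr (L := ℚ_[ℓ]) (b := wb e n) (T.W.isInternal (pw X n)) (wb_deg hdeg n)
    (i := 2 * j) (x := eL e n a)
  have h2 : ∀ w, ((wb e n).baseChange ℚ_[ℓ]).repr (eL e n a) w = a w := by
    intro w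
    have h3 := congrFun (((wb e n).baseChange ℚ_[ℓ]).equivFun.apply_symm_apply a) w
    exact h3
  simp only [h2] at h1
  exact h1

end Run7.h226.Tt
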