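import Pool.Agent.Run7.h226.Tt8

/-!
# Galois actions on the cohomology of the powers: the hypotheses in coordinates
-/

set_option linter.unusedSectionVars false

open CategoryTheory AlgebraicGeometry TensorProduct

universe u

namespace Run7.h226.Tt

open Module Matrix
open Pool.Agent.H914 Pool.Agent.H914.VarClass Pool.Agent.H914.VarClass.Obj
  Pool.Agent.H914.WeilCohomology
open Pool.Agent.Y133.Half Pool.Agent.Y121.AH
open Pool.Agent.N996.BP Pool.Agent.N996.BP.Geo Pool.Agent.N996.FP Pool.Agent.N996.FP.Geo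
open Run7.h226.Wts Run7.h226.Geo Run7.h457.MT

section Rei

variable {ι : Type} [Fintype ι] [DecidableEq ι] {ℓ : ℕ} [Fact ℓ.Prime] {Γ : Type*} [Group Γ]
  {H : HData ι} {G : GD ι ℓ Γ} {κ l : Type} [Fintype κ] [DecidableEq κ] [Fintype l]
  [DecidableEq l]

lemma Hm_rei {R : Type} [Zero R] {deg : ι → ℕ} (ε : κ ≃ l) {j : ℕ} {a : (κ → ι) → R}
    (ha : Hm deg j a) : Hm deg j (Pool.Agent.N996.BP.rei ε a) := by
  intro w hw
  have h1 := ha (w ∘ ε) hw
  rw [← h1, ← Equiv.sum_comp ε]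
  rfl

lemma Tat_rei (ε : κ ≃ l) {j : ℕ} {a : (κ → ι) → ℚ_[ℓ]} (ha : Tat G j a) :
    Tat G j (Pool.Agent.N996.BP.rei ε a) := by
  obtain ⟨h1, Δ, hΔ, h2⟩ := ha
  refine ⟨Hm_rei ε h1, Δ, hΔ, fun γ hγ => ?_⟩
  rw [kp_rei, h2 γ hγ]
  rfl

lemma symm_rei {R : Type} (ε : κ ≃ l) (a : (κ → ι) → R) : Pool.Agent.N996.BP.rei ε.symm (Pool.Agent.N996.BP.rei ε a) = a :=
  rei_symm_rei ε.symm a

lemma spn_rei (ε : κ ≃ l) {a : (κ → ι) → ℚ_[ℓ]} (ha : a ∈ spn ℚ_[ℓ] (BB H κ)) :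
    Pool.Agent.N996.BP.rei ε a ∈ spn ℚ_[ℓ] (BB H l) := by
  rw [mem_spn] at ha ⊢
  intro φ
  exact RFam.BB_rei ε (ha φ)

end Rei

variable {k : Type u} [Field k] {𝒱 : VarClass k} {ops : CycleOps 𝒱} {T : HodgeTheory ops}
  {X Y Z : 𝒱.Obj} {ℓ : ℕ} [Fact ℓ.Prime] [Algebra T.W.K ℚ_[ℓ]] {Γ : Type*} [Group Γ]
  (R : Act T X ℓ Γ) {ι : Type} [Fintype ι] [DecidableEq ι] (e : Basis ι T.W.K (T.W.H X))
  {deg : ι → ℕ}

lemma fin_inf {α : Type} [DecidableEq α] (Q : α → Γ → Prop)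
    (h : ∀ a, ∃ Δ : Subgroup Γ, R.P Δ ∧ ∀ γ ∈ Δ, Q a γ) (s : Finset α) :
    ∃ Δ : Subgroup Γ, R.P Δ ∧ ∀ γ ∈ Δ, ∀ a ∈ s, Q a γ := by
  induction s using Finset.induction_on with
  | empty => exact ⟨⊤, R.P_top, fun γ _ a ha => absurd ha (Finset.notMem_empty a)⟩
  | insert a s _ ih =>
    obtain ⟨Δ, h1, h2⟩ := ih
    obtain ⟨Δ', h3, h4⟩ := h a
    refine ⟨Δ ⊓ Δ', R.P_inf h1 h3, fun γ hγ b hb => ?_⟩
    rcases Finset.mem_insert.1 hb with rfl | hb
    · exact h4 γ hγ.2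
    · exact h2 γ hγ.1 b hb

/-- The coordinates of the action. -/
noncomputable def gd (hdeg : ∀ j, e j ∈ T.W.gr X (deg j)) : GD ι ℓ Γ where
  deg := deg
  S := SM R e
  χ := R.χ
  hdeg := by
    intro γ i j h
    have h1 : R.r0 γ ((1 : ℚ_[ℓ]) ⊗ₜ[T.W.K] e j) ∈ (T.W.gr X (deg j)).baseChange ℚ_[ℓ] :=
      R.deg 0 γ (deg j) ((1 : ℚ_[ℓ]) ⊗ₜ[T.W.K] e j) (Submodule.tmul_mem_baseChange_of_mem _ (hdeg j))
    refine (bc_gr (L := ℚ_[ℓ]) (b := e) (T.W.isInternal X) hdeg).1 h1 i ?_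
    rw [SM_eq, LinearMap.toMatrix_apply, Basis.baseChange_apply] at h
    exact h
  P := R.P
  P_inf := R.P_inf
  P_pow := R.P_pow
  near := by
    obtain ⟨Δ0, h0, h1⟩ := R.cχ
    obtain ⟨Δ, h2, h3⟩ := fin_inf R (fun (x : ι × ι) γ =>
      ‖(SM R e γ - 1) x.1 x.2‖ ≤ ((ℓ : ℝ) ^ 2)⁻¹) (by
        rintro ⟨i, j⟩
        obtain ⟨Δ, h2, h3⟩ := R.cρ ((1 : ℚ_[ℓ]) ⊗ₜ[T.W.K] e j) ((e.baseChange ℚ_[ℓ]).coord i)
        refine ⟨Δ, h2, fun γ hγ => ?_⟩
        have h4 : (SM R e γ - 1) i j = (e.baseChange ℚ_[ℓ]).coord i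
            (R.r0 γ ((1 : ℚ_[ℓ]) ⊗ₜ[T.W.K] e j) - (1 : ℚ_[ℓ]) ⊗ₜ[T.W.K] e j) := by
          rw [map_sub, Matrix.sub_apply, SM_eq, LinearMap.toMatrix_apply, Basis.baseChange_apply,
            Basis.coord_apply, Basis.coord_apply]
          congr 1
          rw [← Basis.baseChange_apply, Basis.repr_self, Finsupp.single_apply, Matrix.one_apply]
          simp only [eq_comm]
        change ‖(SM R e γ - 1) i j‖ ≤ _
        rw [h4]
        exact h3 γ hγ) Finset.univ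
    exact ⟨Δ0 ⊓ Δ, R.P_inf h0 h2, fun γ hγ => ⟨fun i j => h3 γ hγ.2 (i, j) (Finset.mem_univ _),
      h1 γ hγ.1⟩⟩

variable {e}

/-- Tate classes in coordinates. -/
lemma isT_iff (hdeg : ∀ j, e j ∈ T.W.gr X (deg j)) {n j : ℕ} {a : (Fin (n + 1) → ι) → ℚ_[ℓ]} :
    IsT R n j (eL e n a) ↔ Tat (gd R e hdeg) j a := by
  have key : ∀ γ, R.ρ n γ (eL e n a) = R.χ γ ^ j • (eL e n a : HT T ℓ (pw X n)) ↔
      kp (Fin (n + 1)) (SM R e γ) *ᵥ a = R.χ γ ^ j • a := by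
    intro γ
    rw [act_eL R e, ← map_smul]
    exact (eL e n).injective.eq_iff
  constructor
  · rintro ⟨h1, Δ, hΔ, h2⟩
    exact ⟨(eL_gr hdeg).1 h1, Δ, hΔ, fun γ hγ => (key γ).1 (h2 γ hγ)⟩
  · rintro ⟨h1, Δ, hΔ, h2⟩
    exact ⟨(eL_gr hdeg).2 h1, Δ, hΔ, fun γ hγ => (key γ).2 (h2 γ hγ)⟩

lemma eL_rat (n : ℕ) (a : (Fin (n + 1) → ι) → ℚ) :
    (eL e n fun w => ((a w : ℚ) : ℚ_[ℓ])) = (1 : ℚ_[ℓ]) ⊗ₜ[T.W.K] cls e n a := by
  rw [eL_apply, cls, TensorProduct.tmul_sum]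
  refine Finset.sum_congr rfl fun w _ => ?_
  rw [TensorProduct.tmul_smul, ← algebraMap_smul ℚ_[ℓ] ((a w : ℚ) : T.W.K), map_ratCast]

variable (T ℓ) in
/-- The combinations of Hodge classes. -/
noncomputable def HS (Y : 𝒱.Obj) (j : ℕ) : Submodule ℚ_[ℓ] (HT T ℓ Y) :=
  Submodule.span ℚ_[ℓ] {y | ∃ c, IsHodge T Y j c ∧ y = (1 : ℚ_[ℓ]) ⊗ₜ[T.W.K] c}

section Cor

variable {ψ : LinearMap.BilinForm T.W.K (T.W.H X)} {HF : HData ι} {o : ι}

/-- Homogeneous fixed classes are Hodge classes. -/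
lemma hodge_of_BB (hψ : IsPHS (tauT T) (Fx T X) ψ X.dim) (hdeg : ∀ j, e j ∈ T.W.gr X (deg j))
    (hHF : ∀ t : ℂ, t ≠ 0 → HF.l t = mG hψ.int e (fun k => t ^ k)) {n j : ℕ}
    {a : (Fin (n + 1) → ι) → ℚ} (ha : a ∈ BB HF (Fin (n + 1))) (hj : Hm deg j a) :
    IsHodge T (pw X n) j (cls e n a) := by
  have h1 : cls e n a ∈ T.W.gr (pw X n) (2 * j) := by
    rw [cls]
    refine Submodule.sum_mem _ fun w _ => ?_
    by_cases hw : a w = 0
    · rw [hw, Rat.cast_zero, zero_smul]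
      exact Submodule.zero_mem _
    · have h2 := wb_deg hdeg n w
      rw [hj w hw] at h2
      exact Submodule.smul_mem _ _ h2
  have h2 := (inv_cls (hF := hψ.int) e hHF n a).2 ha
  exact isHodge_of_fix h1 (by
    rw [← lop_two]
    exact h2 2 two_ne_zero)

/-- Combinations of Hodge classes in coordinates. -/
lemma spn_of_HS (hψ : IsPHS (tauT T) (Fx T X) ψ X.dim)
    (hHF : ∀ t : ℂ, t ≠ 0 → HF.l t = mG hψ.int e (fun k => t ^ k)) {n j : ℕ}
    {a : (Fin (n + 1) → ι) → ℚ_[ℓ]} (ha : (eL e n a : HT T ℓ (pw X n)) ∈ HS T ℓ (pw X n) j) :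
    a ∈ spn ℚ_[ℓ] (BB HF (Fin (n + 1))) := by
  have key : ∀ x ∈ HS T ℓ (pw X n) j, (eL e n).symm x ∈ spn ℚ_[ℓ] (BB HF (Fin (n + 1))) := by
    intro x hx
    induction hx using Submodule.span_induction with
    | mem x hx =>
      obtain ⟨c, hc, rfl⟩ := hx
      obtain ⟨b, rfl⟩ := cls_surj e n c
      rw [← eL_rat, LinearEquiv.symm_apply_apply]
      have h1 : b ∈ BB HF (Fin (n + 1)) :=
        (inv_cls (hF := hψ.int) e hHF n b).1 (inv_iff.2 (ClassPred.sp_of (Q := hodgePred T) hc))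
      refine Submodule.subset_span ⟨b, h1, ?_⟩
      funext w
      exact eq_ratCast _ _
    | zero => rw [map_zero]; exact Submodule.zero_mem _
    | add x y _ _ hx hy => rw [map_add]; exact Submodule.add_mem _ hx hy
    | smul c x _ hx => rw [map_smul]; exact Submodule.smul_mem _ _ hx
  have h1 := key _ ha
  rwa [LinearEquiv.symm_apply_apply] at h1

/-- The sign of a homogeneous class. -/
lemma lsgn_gr {i : ℕ} {y : ℂ ⊗[T.W.K] T.W.H X}
    (hy : y ∈ (T.W.gr X i).baseChange ℂ) (hF : DirectSum.IsInternal (Fx T X)) :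
    dG hF (fun k => (-1 : ℂ) ^ k) y = (-1 : ℂ) ^ i • y := by
  rw [Submodule.baseChange_eq_span] at hy
  have key : ∀ x ∈ (⨆ s : {s : ℤ × ℤ // s.1 + s.2 = i}, Fx T X s.1),
      dG hF (fun k => (-1 : ℂ) ^ k) x = (-1 : ℂ) ^ i • x := by
    intro x hx
    refine Submodule.iSup_induction (fun s : {s : ℤ × ℤ // s.1 + s.2 = i} => Fx T X s.1)
      (motive := fun x => dG hF (fun k => (-1 : ℂ) ^ k) x = (-1 : ℂ) ^ i • x) hx ?_ ?_ ?_
    · rintro ⟨⟨a, b⟩, hr⟩ x hx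
      rw [dG_apply hF _ hx]
      have hr' : a + b = i := hr
      congr 1
      have h1 : a - b = (i : ℤ) + 2 * (-b) := by omega
      rw [h1, zpow_add₀ (by norm_num), zpow_natCast, _root_.zpow_mul]
      norm_num
    · rw [map_zero, smul_zero]
    · intro x y hx hy; rw [map_add, hx, hy, smul_add]
  induction hy using Submodule.span_induction with
  | mem x hx =>
    obtain ⟨c, hc, rfl⟩ := hx
    exact key _ (T.dec.span hc)
  | zero => rw [map_zero, smul_zero]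
  | add x y _ _ hx hy => rw [map_add, hx, hy, smul_add]
  | smul c x _ hx => rw [map_smul, hx, smul_comm]

lemma hl1_of (hψ : IsPHS (tauT T) (Fx T X) ψ X.dim) (hdeg : ∀ j, e j ∈ T.W.gr X (deg j))
    (hHF : ∀ t : ℂ, t ≠ 0 → HF.l t = mG hψ.int e (fun k => t ^ k)) :
    HF.l (-1) = Matrix.diagonal fun i => (-1) ^ deg i := by
  rw [hHF (-1) (neg_ne_zero.2 one_ne_zero)]
  ext i j
  have h1 := congrFun (congrArg (crd e) (lsgn_gr (Submodule.tmul_mem_baseChange_of_mem (1 : ℂ)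
    (hdeg j)) hψ.int)) i
  rw [crd_dG, crd_ext_smul, Pi.smul_apply, crd_tm, smul_eq_mul] at h1
  have h2 : crd e ((1 : ℂ) ⊗ₜ[T.W.K] e j) = Pi.single j 1 := by
    funext i
    rw [crd_tm, Pi.single_apply]
    simp only [eq_comm]
  rw [h2, Matrix.mulVec_single_one] at h1
  have h3 : mG hψ.int e (fun k => (-1 : ℂ) ^ k) i j = (-1 : ℂ) ^ deg j * if j = i then 1 else 0 := h1
  rw [h3, Matrix.diagonal_apply]
  by_cases hij : i = j
  · subst hij
    rw [if_pos rfl, if_pos rfl, mul_one]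
  · rw [if_neg hij, if_neg fun h => hij h.symm, mul_zero]

/-- The form respects the degrees. -/
lemma fM_deg (hψ : IsPHS (tauT T) (Fx T X) ψ X.dim) (hdeg : ∀ j, e j ∈ T.W.gr X (deg j)) {i j : ι}
    (h : fM e ψ i j ≠ 0) : deg i = deg j := by
  by_contra hij
  apply h
  have key : ∀ x ∈ (T.W.gr X (deg i)).baseChange ℂ, ∀ y ∈ (T.W.gr X (deg j)).baseChange ℂ,
      ψ.baseChange ℂ x y = 0 := by
    have key1 : ∀ x ∈ (⨆ s : {s : ℤ × ℤ // s.1 + s.2 = deg i}, Fx T X s.1),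
        ∀ y ∈ (⨆ s : {s : ℤ × ℤ // s.1 + s.2 = deg j}, Fx T X s.1), ψ.baseChange ℂ x y = 0 := by
      intro x hx y hy
      refine Submodule.iSup_induction (fun s : {s : ℤ × ℤ // s.1 + s.2 = deg i} => Fx T X s.1)
        (motive := fun x => ψ.baseChange ℂ x y = 0) hx ?_ ?_ ?_
      · rintro ⟨⟨a, b⟩, hr⟩ x hx
        refine Submodule.iSup_induction (fun s : {s : ℤ × ℤ // s.1 + s.2 = deg j} => Fx T X s.1)
          (motive := fun y => ψ.baseChange ℂ x y = 0) hy ?_ ?_ ?_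
        · rintro ⟨⟨c, d⟩, hs⟩ y hy
          have hr' : a + b = deg i := hr
          have hs' : c + d = deg j := hs
          refine hψ.orth a b c d x hx y hy ?_
          by_contra hcd
          push Not at hcd
          omega
        · rw [map_zero]
        · intro y z hy hz; rw [map_add, hy, hz, add_zero]
      · rw [map_zero, LinearMap.zero_apply]
      · intro x z hx hz; rw [map_add, LinearMap.add_apply, hx, hz, add_zero]
    intro x hx y hy
    rw [Submodule.baseChange_eq_span] at hx hy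
    induction hx using Submodule.span_induction with
    | mem x hx =>
      obtain ⟨c, hc, rfl⟩ := hx
      induction hy using Submodule.span_induction with
      | mem y hy =>
        obtain ⟨c', hc', rfl⟩ := hy
        exact key1 _ (T.dec.span hc) _ (T.dec.span hc')
      | zero => rw [map_zero]
      | add y z _ _ hy hz => rw [map_add, hy, hz, add_zero]
      | smul c y _ hy => rw [map_smul, hy, smul_zero]
    | zero => rw [map_zero, LinearMap.zero_apply]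
    | add x z _ _ hx hz => rw [map_add, LinearMap.add_apply, hx, hz, add_zero]
    | smul c x _ hx => rw [map_smul, LinearMap.smul_apply, hx, smul_zero]
  have h1 := key _ (Submodule.tmul_mem_baseChange_of_mem (1 : ℂ) (hdeg i)) _
    (Submodule.tmul_mem_baseChange_of_mem (1 : ℂ) (hdeg j))
  rw [LinearMap.BilinForm.baseChange_tmul] at h1
  rw [fM, Matrix.of_apply]
  simpa [Algebra.smul_def] using h1

end Cor

end Run7.h226.Tt
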