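import Pool.Agent.Run7.h226.Tt9

/-!
# Tate classes on the powers are combinations of Hodge classes
-/

set_option linter.unusedSectionVars false

open CategoryTheory AlgebraicGeometry TensorProduct

universe u

namespace Run7.h226.Tt

open Module Matrix
open Pool.Agent.H914 Pool.Agent.H914.VarClass Pool.Agent.H914.VarClass.Obj
  Pool.Agent.H914.WeilCohomology
open Pool.Agent.Y133.Half Pool.Agent.Y121.AH
open Pool.Agent.N996.BP Pool.Agent.N996.BP.Geo Pool.Agent.N996.FP Pool.Agent.N996.FP.Geo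
open Run7.h226.Wts Run7.h226.Geo Run7.h457.MT

/-- The inverse respects the degrees. -/
lemma inv_deg {ι : Type} [Fintype ι] [DecidableEq ι] {deg : ι → ℕ} {A B : Matrix ι ι ℚ}
    (hAB : A * B = 1) (hA : ∀ i j, A i j ≠ 0 → deg i = deg j) :
    ∀ i j, B i j ≠ 0 → deg i = deg j := by
  intro i j hij
  by_contra h
  apply hij
  let D : Matrix ι ι ℚ := Matrix.diagonal fun i => if deg i = deg j then 1 else 0
  have hBA : B * A = 1 := mul_eq_one_comm.1 hAB
  have h1 : A * D = D * A := by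
    ext a b
    rw [Matrix.mul_diagonal, Matrix.diagonal_mul]
    by_cases hab : A a b = 0
    · rw [hab, zero_mul, mul_zero]
    · rw [hA a b hab, mul_comm]
  have h2 : B * D = D * B := by
    calc B * D = B * D * (A * B) := by rw [hAB, Matrix.mul_one]
      _ = B * (D * A) * B := by simp only [Matrix.mul_assoc]
      _ = B * (A * D) * B := by rw [h1]
      _ = (B * A) * (D * B) := by simp only [Matrix.mul_assoc]
      _ = D * B := by rw [hBA, Matrix.one_mul]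
  have h3 := congrFun (congrFun h2 i) j
  rw [Matrix.mul_diagonal, Matrix.diagonal_mul, if_pos rfl, if_neg h, mul_one, zero_mul] at h3
  exact h3

section ReiL

variable {ι : Type} [Fintype ι] [DecidableEq ι] {ℓ : ℕ} [Fact ℓ.Prime] {κ l : Type} [Fintype κ]
  [DecidableEq κ] [Fintype l] [DecidableEq l]

/-- Reindexing as a linear equivalence. -/
def reiL (ε : κ ≃ l) : ((κ → ι) → ℚ_[ℓ]) ≃ₗ[ℚ_[ℓ]] ((l → ι) → ℚ_[ℓ]) where
  toFun := Pool.Agent.N996.BP.rei ε
  invFun := Pool.Agent.N996.BP.rei ε.symm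
  map_add' _ _ := rfl
  map_smul' _ _ := rfl
  left_inv := symm_rei ε
  right_inv := fun x => rei_symm_rei ε x

end ReiL

variable {k : Type u} [Field k] {𝒱 : VarClass k} {ops : CycleOps 𝒱} {T : HodgeTheory ops}
  {X Y Z : 𝒱.Obj} {ℓ : ℕ} [Fact ℓ.Prime] [Algebra T.W.K ℚ_[ℓ]] {Γ : Type*} [Group Γ]
  {R : Act T X ℓ Γ} {ι : Type} [Fintype ι] [DecidableEq ι] {e : Basis ι T.W.K (T.W.H X)}
  {deg : ι → ℕ} {ψ : LinearMap.BilinForm T.W.K (T.W.H X)} {HF : HData ι}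

/-- Scalar endomorphisms in coordinates. -/
lemma sc_of (hψ : IsPHS (tauT T) (Fx T X) ψ X.dim)
    (hgen : Algebra.adjoin T.W.K (T.W.gr X 1 : Set (T.W.H X)) = ⊤)
    (hdeg : ∀ j, e j ∈ T.W.gr X (deg j)) (ho : e HF.D.o = 1)
    (hHF : ∀ t : ℂ, t ≠ 0 → HF.l t = mG hψ.int e (fun k => t ^ k))
    (hsc : ∀ f, End1 T X f → ∃ r : T.W.K, ∀ c ∈ T.W.gr X 1, f c = r • c) (Y : Matrix ι ι ℚ)
    (h1 : ∀ t : ℂ, t ≠ 0 → HF.l t * cQ Y = cQ Y * HF.l t) (h2 : E1 (gd R e hdeg) * Y = Y)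
    (h3 : Y * E1 (gd R e hdeg) = Y) : ∃ r : ℚ, Y = r • E1 (gd R e hdeg) := by
  have hHE : (DD hψ hdeg ho hHF hgen).IsHE1 Y := ⟨h1, h2, h3⟩
  obtain ⟨r, hr⟩ := hsc _ (end1_lmap hψ hdeg ho hHF hgen hHE)
  obtain ⟨q, hq⟩ := T.rat r
  refine ⟨q, ?_⟩
  ext i j
  by_cases hj : deg j = 1
  · have h4 := hr (e j) (by have h5 := hdeg j; rw [hj] at h5; exact h5)
    have h5 : e.repr (lmap e Y (e j)) i = ((Y i j : ℚ) : T.W.K) := by
      rw [lmap, Matrix.toLin_self, map_sum, Finsupp.coe_finsetSum, Finset.sum_apply,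
        Finset.sum_eq_single i]
      · rw [map_smul, Basis.repr_self, Finsupp.smul_apply, Finsupp.single_eq_same, smul_eq_mul,
          mul_one, Matrix.map_apply]
      · intro l _ hl'
        rw [map_smul, Basis.repr_self, Finsupp.smul_apply,
          Finsupp.single_eq_of_ne (Ne.symm hl'), smul_zero]
      · intro h; exact absurd (Finset.mem_univ _) h
    rw [h4, map_smul, Basis.repr_self, Finsupp.smul_apply, Finsupp.single_apply, smul_eq_mul,
      ← hq] at h5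
    have h6 : ((q * (if j = i then 1 else 0) : ℚ) : T.W.K) = ((Y i j : ℚ) : T.W.K) := by
      rw [← h5]
      split_ifs <;> simp
    have h7 := Rat.cast_injective h6
    rw [← h7, Matrix.smul_apply, E1, Matrix.diagonal_apply, smul_eq_mul]
    congr 1
    by_cases hij : i = j
    · subst hij
      rw [if_pos rfl, if_pos rfl]
      exact (if_pos hj).symm
    · rw [if_neg hij, if_neg fun h => hij h.symm]
  · have h4 := congrFun (congrFun h3 i) j
    have h5 : ¬ (gd R e hdeg).deg j = 1 := hj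
    rw [E1, Matrix.mul_diagonal, if_neg h5, mul_zero] at h4
    rw [← h4, Matrix.smul_apply, E1, Matrix.diagonal_apply]
    by_cases hij : i = j
    · subst hij
      rw [if_pos rfl, if_neg h5, smul_zero]
    · rw [if_neg hij, smul_zero]

/-- **The hypotheses in coordinates.** -/
theorem cor_of (hψ : IsPHS (tauT T) (Fx T X) ψ X.dim)
    (hgen : Algebra.adjoin T.W.K (T.W.gr X 1 : Set (T.W.H X)) = ⊤)
    (hdeg : ∀ j, e j ∈ T.W.gr X (deg j)) (ho : e HF.D.o = 1)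
    (hHF : ∀ t : ℂ, t ≠ 0 → HF.l t = mG hψ.int e (fun k => t ^ k))
    {r : ℂ} (hQ : cQ HF.Qr = r • (fM e ψ)ᵀ)
    (hsc : ∀ f, End1 T X f → ∃ r : T.W.K, ∀ c ∈ T.W.gr X 1, f c = r • c)
    (hD : ∀ n j c, IsHodge T (pw X n) j c → IsT R n j ((1 : ℚ_[ℓ]) ⊗ₜ[T.W.K] c))
    (htc : ∀ n j, n + 1 = 2 * j → j = 1 ∨ j = 2 → ∀ x : HT T ℓ (pw X n), IsT R n j x →
      x ∈ HS T ℓ (pw X n) j)
    (hsemi : ∀ Δ, R.P Δ → ∀ U : Submodule ℚ_[ℓ] (HT T ℓ (pw X 1)),
      (∀ γ ∈ Δ, ∀ u ∈ U, R.ρ 1 γ u ∈ U) → ∃ U' : Submodule ℚ_[ℓ] (HT T ℓ (pw X 1)),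
        IsCompl U U' ∧ ∀ γ ∈ Δ, ∀ u ∈ U', R.ρ 1 γ u ∈ U') :
    Cor HF (gd R e hdeg) where
  hl := by
    intro t ht i j hij
    by_contra h
    exact hij ((DD hψ hdeg ho hHF hgen).ldeg t ht i j h)
  hl1 := hl1_of hψ hdeg hHF
  hQ := by
    refine inv_deg HF.Qr_Qir fun i j h => ?_
    have h1 : cQ HF.Qr i j ≠ 0 := by
      change ((HF.Qr i j : ℚ) : ℂ) ≠ 0
      exact_mod_cast h
    rw [hQ, Matrix.smul_apply, Matrix.transpose_apply, smul_eq_mul] at h1
    exact (fM_deg hψ hdeg (right_ne_zero_of_mul h1)).symm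
  del := by
    intro κ _ _ j a ha hj
    rcases isEmpty_or_nonempty κ with hκ | hκ
    · refine ⟨fun w hw => hj w fun h => hw (by change ((a w : ℚ) : ℚ_[ℓ]) = 0; rw [h, Rat.cast_zero]), ⊤, R.P_top, fun γ _ => ?_⟩
      funext w
      rw [Matrix.mulVec, dotProduct, Fintype.sum_unique, kp_apply, Fintype.prod_empty, one_mul,
        Subsingleton.elim default w, Pi.smul_apply, smul_eq_mul]
      by_cases hw : a w = 0
      · rw [hw, Rat.cast_zero, mul_zero]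
      · have h1 := hj w hw
        rw [Finset.univ_eq_empty, Finset.sum_empty] at h1
        have h2 : j = 0 := by omega
        rw [h2, _root_.pow_zero, one_mul]
    · obtain ⟨n, ⟨ε⟩⟩ := RFam.exists_eqv κ
      have h1 := hodge_of_BB hψ hdeg hHF (RFam.BB_rei ε ha) (Hm_rei ε hj)
      have h2 := hD n j _ h1
      rw [← eL_rat, isT_iff R hdeg] at h2
      have h3 := Tat_rei ε.symm h2
      have h4 : Pool.Agent.N996.BP.rei ε.symm
          (fun w => ((Pool.Agent.N996.BP.rei ε a w : ℚ) : ℚ_[ℓ])) = fun w => ((a w : ℚ) : ℚ_[ℓ]) :=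
        symm_rei ε fun w => ((a w : ℚ) : ℚ_[ℓ])
      rw [h4] at h3
      exact h3
  tc := by
    intro κ _ _ j hκ hj a ha _
    have hne : Nonempty κ := by
      rw [← Fintype.card_pos_iff]
      omega
    obtain ⟨n, ⟨ε⟩⟩ := RFam.exists_eqv κ
    have hn : n + 1 = 2 * j := by
      rw [← hκ, Fintype.card_congr ε, Fintype.card_fin]
    have h1 := htc n j hn hj _ ((isT_iff R hdeg).2 (Tat_rei ε ha))
    have h2 := spn_rei ε.symm (spn_of_HS hψ hHF h1)
    rwa [symm_rei] at h2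
  semi := by
    intro Δ hΔ U hU
    let ε : Unit ⊕ Unit ≃ Fin (1 + 1) := Fintype.equivOfCardEq rfl
    let Φ : ((Unit ⊕ Unit → ι) → ℚ_[ℓ]) ≃ₗ[ℚ_[ℓ]] HT T ℓ (pw X 1) := (reiL ε).trans (eL e 1)
    have hΦ : ∀ γ u, R.ρ 1 γ (Φ u) = Φ (kp (Unit ⊕ Unit) (SM R e γ) *ᵥ u) := by
      intro γ u
      change R.ρ 1 γ (eL e 1 (Pool.Agent.N996.BP.rei ε u)) =
        eL e 1 (Pool.Agent.N996.BP.rei ε (kp (Unit ⊕ Unit) (SM R e γ) *ᵥ u))
      rw [act_eL R e, kp_rei]
    obtain ⟨U', hc, hU'⟩ := hsemi Δ hΔ (U.map Φ.toLinearMap) (by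
      rintro γ hγ _ ⟨u, hu, rfl⟩
      refine ⟨kp (Unit ⊕ Unit) (SM R e γ) *ᵥ u, hU γ hγ u hu, ?_⟩
      exact (hΦ γ u).symm)
    refine ⟨U'.comap Φ.toLinearMap, ?_, ?_⟩
    · have h1 := hc.map (Submodule.orderIsoMapComap Φ).symm
      have h2 : (Submodule.orderIsoMapComap Φ).symm (U.map Φ.toLinearMap) = U :=
        Submodule.comap_map_eq_of_injective Φ.injective U
      rw [h2] at h1
      exact h1
    · intro γ hγ u hu
      have h1 := hU' γ hγ _ hu
      change R.ρ 1 γ (Φ u) ∈ U' at h1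
      rw [hΦ] at h1
      exact h1
  faith := by
    intro x hx h0
    refine (DD hψ hdeg ho hHF hgen).der_zero hx fun v hv => ?_
    have h1 := (AData.mem_V' (D := DD hψ hdeg ho hHF hgen)).1 hv
    have h2 : cQ (E1 (gd R e hdeg)) *ᵥ v = v := h1
    rw [← h2, Matrix.mulVec_mulVec, h0, Matrix.zero_mulVec]
  sc := sc_of hψ hgen hdeg ho hHF hsc

/-- The homogeneous arrays. -/
def HmS (deg : ι → ℕ) (j : ℕ) (κ : Type) [Fintype κ] : Submodule ℚ ((κ → ι) → ℚ) where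
  carrier := {a | Hm deg j a}
  add_mem' := by
    intro a b ha hb w hw
    by_cases h : a w = 0
    · refine hb w fun h' => hw ?_
      rw [Pi.add_apply, h, h', add_zero]
    · exact ha w h
  zero_mem' := fun w hw => absurd rfl hw
  smul_mem' := by
    intro c a ha w hw
    refine ha w fun h => hw ?_
    rw [Pi.smul_apply, h, smul_zero]

/-- **Tate classes on the powers are combinations of Hodge classes.** -/
theorem tate_hodge (hψ : IsPHS (tauT T) (Fx T X) ψ X.dim)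
    (hgen : Algebra.adjoin T.W.K (T.W.gr X 1 : Set (T.W.H X)) = ⊤)
    (hsc : ∀ f, End1 T X f → ∃ r : T.W.K, ∀ c ∈ T.W.gr X 1, f c = r • c)
    (hD : ∀ n j c, IsHodge T (pw X n) j c → IsT R n j ((1 : ℚ_[ℓ]) ⊗ₜ[T.W.K] c))
    (htc : ∀ n j, n + 1 = 2 * j → j = 1 ∨ j = 2 → ∀ x : HT T ℓ (pw X n), IsT R n j x →
      x ∈ HS T ℓ (pw X n) j)
    (hsemi : ∀ Δ, R.P Δ → ∀ U : Submodule ℚ_[ℓ] (HT T ℓ (pw X 1)),
      (∀ γ ∈ Δ, ∀ u ∈ U, R.ρ 1 γ u ∈ U) → ∃ U' : Submodule ℚ_[ℓ] (HT T ℓ (pw X 1)),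
        IsCompl U U' ∧ ∀ γ ∈ Δ, ∀ u ∈ U', R.ρ 1 γ u ∈ U')
    {n j : ℕ} {x : HT T ℓ (pw X n)} (hx : IsT R n j x) : x ∈ HS T ℓ (pw X n) j := by
  rcases subsingleton_or_nontrivial (T.W.H X) with hs | hs
  · have h1 : Subsingleton (T.W.H (pw X n)) := by
      have h2 : finrank T.W.K (T.W.H (pw X n)) = 0 := by
        rw [finrank_pw, finrank_zero_of_subsingleton, zero_pow (Nat.succ_ne_zero n)]
      exact finrank_zero_iff.1 h2
    have h2 : ∀ x : HT T ℓ (pw X n), x = 0 := by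
      intro x
      induction x using TensorProduct.induction_on with
      | zero => rfl
      | tmul a b => rw [Subsingleton.elim b 0, TensorProduct.tmul_zero]
      | add a b ha hb => rw [ha, hb, add_zero]
    rw [h2 x]
    exact Submodule.zero_mem _
  obtain ⟨ι, _, _, e, o, deg, heo, hdeg⟩ := exists_ubasis T.W X
  have ho : (1 : ℂ) ⊗ₜ[T.W.K] e o ∈ Fx T X (0, 0) := by
    rw [heo]
    exact one_F
  obtain ⟨HF, hHo, -, hHF, r, -, hQ⟩ := hψ.exists_hdata2 e o ho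
  have hC : Cor HF (gd R e hdeg) :=
    cor_of hψ hgen hdeg (by rw [hHo]; exact heo) hHF hQ hsc hD htc hsemi
  obtain ⟨a, rfl⟩ := (eL e n).surjective x
  have hT := (isT_iff R hdeg).1 hx
  have h1 := tat_spn hC hT
  have h2 : a ∈ spn ℚ_[ℓ] (BB HF (Fin (n + 1)) ⊓ HmS deg j (Fin (n + 1))) := by
    rw [mem_spn] at h1 ⊢
    refine fun φ => ⟨h1 φ, fun w hw => hT.1 w fun h => hw ?_⟩
    change φ (a w) = 0
    rw [h, map_zero]
  clear h1 hT hx
  induction h2 using Submodule.span_induction with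
  | mem y hy =>
    obtain ⟨s, hs, rfl⟩ := hy
    have h3 : (fun (x : (Fin (n + 1) → ι) → ℚ) k => algebraMap ℚ ℚ_[ℓ] (x k)) s =
        fun w => ((s w : ℚ) : ℚ_[ℓ]) := funext fun w => eq_ratCast _ _
    rw [h3, eL_rat]
    exact Submodule.subset_span ⟨_, hodge_of_BB hψ hdeg hHF hs.1 hs.2, rfl⟩
  | zero => rw [map_zero]; exact Submodule.zero_mem _
  | add x y _ _ hx hy => rw [map_add]; exact Submodule.add_mem _ hx hy
  | smul c x _ hx => rw [map_smul]; exact Submodule.smul_mem _ _ hx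

end Run7.h226.Tt
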