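import Pool.Agent.Run7.h226.TtA
import Pool.Agent.Run7.h226.Tdefs

/-!
# The Tate conjecture in codimension two and the Tate and Hodge conjectures for all powers
-/

set_option linter.unusedSectionVars false

open CategoryTheory AlgebraicGeometry TensorProduct

universe u

namespace Run7.h226.Tt

open Module Matrix
open Pool.Agent.H914 Pool.Agent.H914.VarClass Pool.Agent.H914.VarClass.Obj
  Pool.Agent.H914.WeilCohomology
open Pool.Agent.Y133.Half Pool.Agent.Y121.AH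
open Pool.Agent.N996.BP Pool.Agent.N996.BP.Geo Pool.Agent.N996.FP Pool.Agent.N996.FP.Geo
open Run7.h226.Wts Run7.h226.Geo Run7.h457.MT

/-- Descent of membership. -/
lemma desc {K L B : Type} [Field K] [Field L] [Algebra K L] [AddCommGroup B] [Module K B]
    {S : Submodule K B} {c : B} (h : (1 : L) ⊗ₜ[K] c ∈ S.baseChange L) : c ∈ S := by
  by_contra hc
  obtain ⟨f, hf, hS⟩ := Submodule.exists_le_ker_of_notMem hc
  have key : ∀ x ∈ S.baseChange L, f.baseChange L x = 0 := by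
    intro x hx
    rw [Submodule.baseChange_eq_span] at hx
    induction hx using Submodule.span_induction with
    | mem x hx =>
      obtain ⟨c, hc, rfl⟩ := hx
      change f.baseChange L ((1 : L) ⊗ₜ[K] c) = 0
      rw [LinearMap.baseChange_tmul, LinearMap.mem_ker.1 (hS hc), TensorProduct.tmul_zero]
    | zero => rw [map_zero]
    | add x y _ _ hx hy => rw [map_add, hx, hy, add_zero]
    | smul c x _ hx => rw [map_smul, hx, smul_zero]
  have h1 := key _ h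
  rw [LinearMap.baseChange_tmul] at h1
  have h2 := congrArg (TensorProduct.AlgebraTensorModule.rid K L L) h1
  rw [TensorProduct.AlgebraTensorModule.rid_tmul, map_zero, Algebra.smul_def, mul_one] at h2
  exact hf ((map_eq_zero_iff _ (algebraMap K L).injective).1 h2)

variable {k : Type u} [Field k] {𝒱 : VarClass k} {ops : CycleOps 𝒱} {T : HodgeTheory ops}
  {X Y Z : 𝒱.Obj} {ℓ : ℕ} [Fact ℓ.Prime] [Algebra T.W.K ℚ_[ℓ]] {Γ : Type*} [Group Γ]
  {R : Act T X ℓ Γ}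

lemma HS_map (f : Y ⟶ Z) {j : ℕ} {x : HT T ℓ Z} (hx : x ∈ HS T ℓ Z j) : mp f x ∈ HS T ℓ Y j := by
  induction hx using Submodule.span_induction with
  | mem x hx =>
    obtain ⟨c, hc, rfl⟩ := hx
    rw [mp_tm]
    exact Submodule.subset_span ⟨_, hc.map f, rfl⟩
  | zero => rw [map_zero]; exact Submodule.zero_mem _
  | add x y _ _ hx hy => rw [map_add]; exact Submodule.add_mem _ hx hy
  | smul c x _ hx => rw [map_smul]; exact Submodule.smul_mem _ _ hx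

lemma gr_mp (f : Y ⟶ Z) {i : ℕ} {x : HT T ℓ Z} (hx : x ∈ (T.W.gr Z i).baseChange ℚ_[ℓ]) :
    mp f x ∈ (T.W.gr Y i).baseChange ℚ_[ℓ] := by
  rw [Submodule.baseChange_eq_span] at hx
  induction hx using Submodule.span_induction with
  | mem x hx =>
    obtain ⟨c, hc, rfl⟩ := hx
    change mp f ((1 : ℚ_[ℓ]) ⊗ₜ[T.W.K] c) ∈ _
    rw [mp_tm]
    exact Submodule.tmul_mem_baseChange_of_mem _ (T.W.map_mem f hc)
  | zero => rw [map_zero]; exact Submodule.zero_mem _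
  | add x y _ _ hx hy => rw [map_add]; exact Submodule.add_mem _ hx hy
  | smul c x _ hx => rw [map_smul]; exact Submodule.smul_mem _ _ hx

lemma isT_map {n m j : ℕ} (f : pw X m ⟶ pw X n) (hf : IsCd f) {x : HT T ℓ (pw X n)}
    (hx : IsT R n j x) : IsT R m j (mp f x) := by
  obtain ⟨h1, Δ, hΔ, h2⟩ := hx
  refine ⟨gr_mp f h1, Δ, hΔ, fun γ hγ => ?_⟩
  rw [R.map f hf, h2 γ hγ, map_smul]

lemma isT_small {n N j : ℕ} (hn : n ≤ N)
    (h : ∀ x : HT T ℓ (pw X N), IsT R N j x → x ∈ HS T ℓ (pw X N) j) {x : HT T ℓ (pw X n)}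
    (hx : IsT R n j x) : x ∈ HS T ℓ (pw X n) j := by
  have h1 := HS_map (up X n N) (h _ (isT_map (down X hn) (isCd_down hn) hx))
  rwa [mp_mp, up_down, mp_id] at h1

variable (T ℓ) in
/-- The combinations of classes of cycles. -/
noncomputable def CS (Y : 𝒱.Obj) (j : ℕ) : Submodule ℚ_[ℓ] (HT T ℓ Y) :=
  Submodule.span ℚ_[ℓ] {y | ∃ z, Y.IsCyc j z ∧ y = (1 : ℚ_[ℓ]) ⊗ₜ[T.W.K] T.W.cl Y z}

lemma CS_le {j : ℕ} : CS T ℓ Y j ≤ HS T ℓ Y j := by
  refine Submodule.span_mono ?_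
  rintro y ⟨z, hz, rfl⟩
  exact ⟨_, IsHodge.cl hz, rfl⟩

/-- Descent of algebraicity. -/
lemma desc_alg {j : ℕ} {c : T.W.H Y} (h : (1 : ℚ_[ℓ]) ⊗ₜ[T.W.K] c ∈ CS T ℓ Y j) :
    c ∈ Pool.Agent.H281R3.HT.algSpan T.W Y := by
  refine desc (L := ℚ_[ℓ]) ((?_ : CS T ℓ Y j ≤
    (Pool.Agent.H281R3.HT.algSpan T.W Y).baseChange ℚ_[ℓ]) h)
  rw [CS, Submodule.span_le]
  rintro y ⟨z, hz, rfl⟩
  exact Submodule.tmul_mem_baseChange_of_mem _
    (Submodule.subset_span (Set.mem_iUnion.2 ⟨j, z, hz, rfl⟩))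

end Run7.h226.Tt

namespace Run7.h226

open Module
open Pool.Agent.H914 Pool.Agent.H914.VarClass Pool.Agent.H914.VarClass.Obj
  Pool.Agent.H914.WeilCohomology
open Pool.Agent.Y121.AHS
open Pool.Agent.Y133.Half (pw ClassPred Sys pfst)
open Pool.Agent.Y121.AH (hodgePred)
open Pool.Agent.N996 Pool.Agent.N996.FP Pool.Agent.N996.BP.Geo Pool.Agent.N996.FP.Geo
open Run7.h226.Tt (Act IsT HT HS CS)

/-- Small open subgroups. -/
lemma exists_open {ℓ : ℕ} [Fact ℓ.Prime] {Γ : Type*} [Group Γ] [TopologicalSpace Γ]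
    [IsTopologicalGroup Γ] [CompactSpace Γ] {f : Γ → ℚ_[ℓ]} (hf : Continuous f) {c : ℚ_[ℓ]}
    (h1 : f 1 = c) :
    ∃ U : Subgroup Γ, IsOpen (U : Set Γ) ∧ ∀ γ ∈ U, ‖f γ - c‖ ≤ ((ℓ : ℝ) ^ 2)⁻¹ := by
  have hℓ : (0 : ℝ) < ℓ := by exact_mod_cast (Fact.out : ℓ.Prime).pos
  have h0 : ((ℓ : ℝ) ^ 2)⁻¹ ≠ 0 := by positivity
  have hW : IsClopen (f ⁻¹' (Metric.closedBall c ((ℓ : ℝ) ^ 2)⁻¹)) :=
    (IsUltrametricDist.isClopen_closedBall c h0).preimage hf
  obtain ⟨U, hU⟩ := IsTopologicalGroup.exist_openSubgroup_sub_clopen_nhds_of_one hW (by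
    rw [Set.mem_preimage, h1]
    exact Metric.mem_closedBall_self (by positivity))
  refine ⟨U.toSubgroup, U.isOpen, fun γ hγ => ?_⟩
  have h2 := hU hγ
  rw [Set.mem_preimage, Metric.mem_closedBall, dist_eq_norm] at h2
  exact h2

variable {k : Type u} [Field k] {𝒱 : VarClass k} {ops : CycleOps 𝒱} {T : HodgeTheory ops}
  {E : PrimeNumber T} {X : 𝒱.Obj} {Γ : Type*} [Group Γ] [TopologicalSpace Γ]
  [IsTopologicalGroup Γ] [CompactSpace Γ]

/-- The conversion of the actions. -/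
noncomputable def toAct (R : GaloisAction E X Γ) : Act (toH T) X E.ℓ Γ where
  χ := R.c.χ
  ρ n := (R.r n).ρ
  mul := R.mul
  map {n m} f hf γ x := R.map n m f (isCoordinateMap_iff.2 (BP.isCoordinateMap_iff.2 hf)) γ x
  deg := R.deg
  P U := IsOpen (U : Set Γ)
  P_top := isOpen_univ
  P_inf h h' := h.inter h'
  P_pow {U} hU γ := by
    have h1 : Finite (Γ ⧸ U) := U.quotient_finite_of_isOpen hU
    have h2 : U.index ≠ 0 := Subgroup.index_ne_zero_of_finite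
    obtain ⟨e, he, -, h3⟩ := Subgroup.exists_pow_mem_of_index_ne_zero h2 γ
    exact ⟨e, Nat.pos_of_ne_zero (by omega), h3⟩
  cχ := exists_open R.c.cont (map_one R.c.χ)
  cρ x φ := by
    obtain ⟨U, h1, h2⟩ := exists_open ((R.r 0).cont x φ) (c := φ x) (by rw [map_one]; rfl)
    refine ⟨U, h1, fun γ hγ => ?_⟩
    exact (congrArg norm (φ.map_sub ((R.r 0).ρ γ x) x)).le.trans (h2 γ hγ)

lemma tt_D {R : GaloisAction E X Γ} (hD : HodgeIsTate R) :
    ∀ n j c, Pool.Agent.Y121.AH.IsHodge (toH T) (pw X n) j c →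
      IsT (toAct R) n j ((1 : ℚ_[E.ℓ]) ⊗ₜ[(toH T).W.K] c) :=
  fun n j c hc => hD n j (E.em c) ⟨c, hc, rfl⟩

lemma tt_E (hE : OnlyScalars T X) : ∀ f, Pool.Agent.N996.FP.Geo.End1 (toH T) X f →
    ∃ r : (toH T).W.K, ∀ c ∈ (toH T).W.gr X 1, f c = r • c :=
  fun f hf => hE f (isEnd_iff.2 hf)

lemma tt_T {R : GaloisAction E X Γ} (hT : ∀ j ≤ 2, TateIsHodgeIn R 3 j) :
    ∀ n j, n + 1 = 2 * j → j = 1 ∨ j = 2 → ∀ x : HT (toH T) E.ℓ (pw X n), IsT (toAct R) n j x →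
      x ∈ HS (toH T) E.ℓ (pw X n) j := by
  intro n j hn hj x hx
  refine Run7.h226.Tt.isT_small (N := 3) (by omega) (fun x hx => ?_) hx
  exact hT j (by omega) x hx

/-- Algebraic Tate classes are combinations of Hodge classes. -/
lemma tateIsHodgeUpTo {R : GaloisAction E X Γ} {m N : ℕ} (hm : 2 ≤ m) (hN : N + 1 = 2 * m)
    (hT : ∀ j ≤ m, TateConjectureIn R N j) : ∀ j ≤ 2, TateIsHodgeIn R 3 j := by
  intro j hj a ha
  have h0 : IsT (toAct R) 3 j a := ha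
  have h1 := Run7.h226.Tt.isT_small (N := N) (by omega) (fun x hx => Run7.h226.Tt.CS_le (by
    exact hT j (by omega) x hx)) h0
  exact h1

lemma tt_F {R : GaloisAction E X Γ} (hF : SemisimpleSquare R) :
    ∀ Δ, (toAct R).P Δ → ∀ U : Submodule ℚ_[E.ℓ] (HT (toH T) E.ℓ (pw X 1)),
      (∀ γ ∈ Δ, ∀ u ∈ U, (toAct R).ρ 1 γ u ∈ U) →
      ∃ U' : Submodule ℚ_[E.ℓ] (HT (toH T) E.ℓ (pw X 1)),
        IsCompl U U' ∧ ∀ γ ∈ Δ, ∀ u ∈ U', (toAct R).ρ 1 γ u ∈ U' :=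
  fun U hU V hV => hF U hU V hV

/-- **Tate classes are combinations of Hodge classes.** -/
theorem tateIsHodge {ψ : RForm T.W X} (hψ : IsPolarisation T X ψ) (hX : OfAbelianType T X)
    (hE : OnlyScalars T X) {R : GaloisAction E X Γ} (hF : SemisimpleSquare R)
    (hD : HodgeIsTate R) (hT : ∀ j ≤ 2, TateIsHodgeIn R 3 j) (n j : ℕ) : TateIsHodgeIn R n j := by
  intro a ha
  have h0 : IsT (toAct R) n j a := ha
  have h1 := Run7.h226.Tt.tate_hodge (T := toH T) (R := toAct R) hψ.toBP.isPHS hX.1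
    (tt_E hE) (tt_D hD) (tt_T hT) (tt_F hF) h0
  exact h1

/-- **The Hodge conjecture for the powers.** -/
theorem hodge_of_tate {ψ : RForm T.W X} (hψ : IsPolarisation T X ψ) (hX : OfAbelianType T X)
    (hE : OnlyScalars T X) {R : GaloisAction E X Γ}
    (hD : HodgeIsTate R) {m N : ℕ} (hm : 2 ≤ m) (hN : N + 1 = 2 * m)
    (hexc : m = 2 → ¬ IsExceptional (2 * X.dim)) (hT : ∀ j ≤ m, TateConjectureIn R N j) (n : ℕ) :
    HodgeConjecture T (pw X n) := by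
  have h1 := cod_c hψ hX hE hm hN hexc ((Pool.Agent.Y133.Half.algSys T.W).csys X)
    (fun n => ClassPred.alg_le (Q := hodgePred (toH T)))
    (fun j hj c hc => Run7.h226.Tt.desc_alg (T := toH T) (ℓ := E.ℓ) (j := j)
      (hT j hj _ (hD N j (E.em c) ⟨c, hc, rfl⟩))) n
  exact hodgeConjecture_BP.2 (BP.hodgeConjecture_iff.2 h1)

/-- **The Tate conjecture for the powers.** -/
theorem tate_of_tate {ψ : RForm T.W X} (hψ : IsPolarisation T X ψ) (hX : OfAbelianType T X)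
    (hE : OnlyScalars T X) {R : GaloisAction E X Γ} (hF : SemisimpleSquare R)
    (hD : HodgeIsTate R) {m N : ℕ} (hm : 2 ≤ m) (hN : N + 1 = 2 * m)
    (hexc : m = 2 → ¬ IsExceptional (2 * X.dim)) (hT : ∀ j ≤ m, TateConjectureIn R N j)
    (n j : ℕ) : TateConjectureIn R n j := by
  intro a ha
  have h1 := tateIsHodge hψ hX hE hF hD (tateIsHodgeUpTo hm hN hT) n j a ha
  refine (Submodule.span_le.2 ?_ : Submodule.span ℚ_[E.ℓ] {w | IsHdg j w} ≤
    Submodule.span ℚ_[E.ℓ] {w : E.H (pw X n) | IsAlg j w}) h1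
  rintro _ ⟨c, hc, rfl⟩
  obtain ⟨z, hz, h2⟩ := hodge_of_tate hψ hX hE hD hm hN hexc hT n j c hc
  exact Submodule.subset_span ⟨z, hz, by rw [h2]⟩

end Run7.h226
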