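import Pool.Agent.N996.FP.Hw

/-!
# Weights of irreducible modules
-/

set_option linter.unusedSectionVars false

namespace Run7.h226.Wts

open Matrix Pool.Agent.N996.BP Pool.Agent.N996.FP

variable {ι : Type} [Fintype ι] [DecidableEq ι] {h : Submodule ℂ (Matrix ι ι ℂ)}
  {V : Submodule ℂ (ι → ℂ)} {x : Matrix ι ι ℂ}

/-- The module `V` is irreducible and faithful for the Lie algebra `h` with trivial centre. -/
structure Mdl (h : Submodule ℂ (Matrix ι ι ℂ)) (V : Submodule ℂ (ι → ℂ)) : Prop where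
  la : IsLA h
  stab : ∀ z ∈ h, ∀ v ∈ V, z *ᵥ v ∈ V
  faith : ∀ z ∈ h, (∀ v ∈ V, z *ᵥ v = 0) → z = 0
  irr : ∀ W : Submodule ℂ (ι → ℂ), W ≤ V → (∀ z ∈ h, ∀ w ∈ W, z *ᵥ w ∈ W) → W ≠ ⊥ → W = V
  ne : V ≠ ⊥
  cen : ∀ z ∈ h, (∀ w ∈ h, z * w = w * z) → z = 0

/-- The weights of the vectors of `V`. -/
def wts (h : Submodule ℂ (Matrix ι ι ℂ)) (x : Matrix ι ι ℂ) (V : Submodule ℂ (ι → ℂ)) :
    Set (Matrix ι ι ℂ) := {T | ∃ v ∈ V, v ≠ 0 ∧ IsWt h x v T}

lemma ct_self (hx : IsReg h x) : x ∈ ct h x := ⟨hx.mem, rfl⟩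

lemma wt_x (hx : IsReg h x) {v : ι → ℂ} {T : Matrix ι ι ℂ} (hT : IsWt h x v T) :
    x *ᵥ v = (ip T x : ℂ) • v := by
  rw [hT.val x (ct_self hx), tr_ip hT.herm hx.herm]

lemma wts_inj (hM : Mdl h V) (hx : IsReg h x) {T T' : Matrix ι ι ℂ} (hT : T ∈ wts h x V)
    (hT' : T' ∈ wts h x V) (he : ip T x = ip T' x) : T = T' := by
  obtain ⟨v, _, hv, hvT⟩ := hT
  obtain ⟨w, _, hw, hwT⟩ := hT'
  refine wt_eq hM.la hx hv hw hvT hwT ?_
  rw [tr_ip hvT.herm hx.herm, tr_ip hwT.herm hx.herm, he]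

lemma finite_eig (x : Matrix ι ι ℂ) : {d : ℝ | ∃ v : ι → ℂ, v ≠ 0 ∧ x *ᵥ v = (d : ℂ) • v}.Finite := by
  let f : Module.End ℂ (ι → ℂ) := Matrix.mulVecLin x
  have h1 : {μ : ℂ | f.HasEigenvalue μ}.Finite := Module.End.finite_hasEigenvalue f
  refine Set.Finite.of_finite_image (f := fun d : ℝ => (d : ℂ)) (h1.subset ?_)
    (Complex.ofReal_injective.injOn)
  rintro _ ⟨d, ⟨v, hv, hd⟩, rfl⟩
  exact Module.End.hasEigenvalue_of_hasEigenvector (x := v)
    ⟨Module.End.mem_eigenspace_iff.2 hd, hv⟩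

lemma wts_finite (hM : Mdl h V) (hx : IsReg h x) : (wts h x V).Finite := by
  refine Set.Finite.of_finite_image (f := fun T => ip T x) ((finite_eig x).subset ?_)
    (fun T hT T' hT' he => wts_inj hM hx hT hT' he)
  rintro _ ⟨T, ⟨v, _, hv, hT⟩, rfl⟩
  exact ⟨v, hv, wt_x hx hT⟩

/-- Induction on sums of weight vectors. -/
lemma wt_ind (hM : Mdl h V) (hx : IsReg h x) {W : Submodule ℂ (ι → ℂ)}
    (hW : ∀ v ∈ W, x *ᵥ v ∈ W) {P : (ι → ℂ) → Prop} (h0 : P 0)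
    (hadd : ∀ v w, P v → P w → P (v + w))
    (he : ∀ v ∈ W, v ≠ 0 → ∀ T, IsWt h x v T → P v) {v : ι → ℂ} (hv : v ∈ W) : P v := by
  refine vec_ind hx.herm hW h0 hadd ?_ hv
  intro d z hz hzd
  by_cases h1 : z = 0
  · rw [h1]; exact h0
  · obtain ⟨T, hT⟩ := exists_wt hM.la hx h1 hzd
    exact he z hz h1 T hT

lemma wts_nonempty (hM : Mdl h V) (hx : IsReg h x) : (wts h x V).Nonempty := by
  by_contra hne
  apply hM.ne
  rw [Submodule.eq_bot_iff]
  intro v hv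
  refine wt_ind hM hx (W := V) (fun v hv => hM.stab x hx.mem v hv) (P := fun v => v = 0) rfl
    (fun v w hv hw => by rw [hv, hw, add_zero]) ?_ hv
  intro v hv hv0 T hT
  exact absurd ⟨T, v, hv, hv0, hT⟩ hne

/-- The highest weight. -/
structure IsTop (h : Submodule ℂ (Matrix ι ι ℂ)) (x : Matrix ι ι ℂ) (V : Submodule ℂ (ι → ℂ))
    (S : Matrix ι ι ℂ) : Prop where
  mem : S ∈ wts h x V
  max : ∀ T ∈ wts h x V, ip T x ≤ ip S x

lemma exists_top (hM : Mdl h V) (hx : IsReg h x) : ∃ S, IsTop h x V S := by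
  obtain ⟨S, hS, hmax⟩ := Set.exists_max_image _ (fun T => ip T x) (wts_finite hM hx)
    (wts_nonempty hM hx)
  exact ⟨S, hS, hmax⟩

/-- Root vectors shift the weights. -/
lemma wt_root (hM : Mdl h V) (hx : IsReg h x) {v : ι → ℂ} {T e : Matrix ι ι ℂ}
    (hT : IsWt h x v T) (he : IsRV h x e) : IsWt h x (e *ᵥ v) (T + Rt e) := by
  refine ⟨(ct h x).add_mem hT.mem (he.ct hM.la hx), ?_, fun t ht => ?_⟩
  · rw [Matrix.conjTranspose_add, hT.herm, he.herm hM.la hx]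
  · have h3 := he.val hM.la hx ht
    have h4 : t * e = (Rt e * t).trace • e + e * t := by
      rw [← h3, br]; abel
    rw [Matrix.mulVec_mulVec, h4, Matrix.add_mulVec, ← Matrix.mulVec_mulVec, hT.val t ht,
      Matrix.smul_mulVec, Matrix.mulVec_smul, Matrix.add_mul, Matrix.trace_add, ← add_smul]
    congr 1
    ring

lemma wt_root_mem (hM : Mdl h V) (hx : IsReg h x) {v : ι → ℂ} {T e : Matrix ι ι ℂ} (hv : v ∈ V)
    (hT : IsWt h x v T) (he : IsRV h x e) (h0 : e *ᵥ v ≠ 0) : T + Rt e ∈ wts h x V :=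
  ⟨_, hM.stab e he.mem v hv, h0, wt_root hM hx hT he⟩

lemma rv_of {a : ℝ} {e : Matrix ι ι ℂ} (he : e ∈ h) (hea : e ∈ EA x a) (ha : a ≠ 0)
    (h0 : e ≠ 0) : IsRV h x e := ⟨he, h0, a, ha, hea⟩

/-- The value of the root. -/
lemma rv_val (hM : Mdl h V) (hx : IsReg h x) {a : ℝ} {e : Matrix ι ι ℂ} (he : IsRV h x e)
    (hea : e ∈ EA x a) : ip (Rt e) x = a := by
  have h1 := he.val hM.la hx (ct_self hx)
  have h2 : br x e = (a : ℂ) • e := hea
  rw [h2, tr_ip (he.herm hM.la hx) hx.herm, ← sub_eq_zero, ← sub_smul] at h1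
  rcases smul_eq_zero.1 h1 with h3 | h3
  · rw [sub_eq_zero] at h3
    exact_mod_cast h3.symm
  · exact absurd h3 he.ne

lemma mem_EA_val (hM : Mdl h V) (hx : IsReg h x) {e : Matrix ι ι ℂ} (he : IsRV h x e) :
    e ∈ EA x (ip (Rt e) x : ℝ) := by
  obtain ⟨a, ha, hea⟩ := he.ex
  rw [rv_val hM hx he hea]
  exact hea

lemma rv_val_ne (hM : Mdl h V) (hx : IsReg h x) {e : Matrix ι ι ℂ} (he : IsRV h x e) :
    ip (Rt e) x ≠ 0 := by
  obtain ⟨a, ha, hea⟩ := he.ex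
  rw [rv_val hM hx he hea]
  exact ha

/-- Raising operators kill the highest weight vectors. -/
lemma top_raise (hM : Mdl h V) (hx : IsReg h x) {S : Matrix ι ι ℂ} (hS : IsTop h x V S)
    {v : ι → ℂ} (hv : v ∈ V) (hvS : IsWt h x v S) {a : ℝ} (ha : 0 < a) {e : Matrix ι ι ℂ}
    (he : e ∈ h) (hea : e ∈ EA x a) : e *ᵥ v = 0 := by
  by_contra h0
  have he0 : e ≠ 0 := by rintro rfl; exact h0 (Matrix.zero_mulVec _)
  have hr := rv_of he hea ha.ne' he0
  have h1 := hS.max _ (wt_root_mem hM hx hv hvS hr h0)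
  rw [ip_add, rv_val hM hx hr hea] at h1
  linarith

/-- The module generated by a highest weight vector. -/
lemma hw_gen (hM : Mdl h V) (hx : IsReg h x) {w : ι → ℂ} (hw : w ∈ V) (hw0 : w ≠ 0)
    {T : Matrix ι ι ℂ} (hT : IsWt h x w T)
    (hp : ∀ a : ℝ, 0 < a → ∀ e ∈ h, e ∈ EA x a → e *ᵥ w = 0) :
    V ≤ Submodule.span ℂ {w} ⊔ TL x (ip T x) := by
  have hst := low_h hM.la hx (ρ := LinearMap.id) (fun a b => rfl) (w := w)
    (fun t ht htx => ⟨_, hT.val t ⟨ht, htx⟩⟩) hp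
  have hV : low h x LinearMap.id w = V := by
    refine hM.irr _ (low_le _ _ hw ?_) hst ?_
    · intro a _ e he _ v hv
      exact hM.stab e he v hv
    · intro h0
      have := low_mem (h := h) (x := x) LinearMap.id w
      rw [h0, Submodule.mem_bot] at this
      exact hw0 this
  rw [← hV]
  refine low_le _ _ (Submodule.mem_sup_left (Submodule.mem_span_singleton_self _)) ?_
  intro a ha e he hea v hv
  have h1 : br x e = (a : ℂ) • e := hea
  have key : ∀ (d : ℝ) (v : ι → ℂ), d ≤ ip T x → x *ᵥ v = (d : ℂ) • v →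
      e *ᵥ v ∈ TL x (ip T x) := by
    intro d v hd hv
    refine Submodule.subset_span ⟨d + a, by linarith, ?_⟩
    have h2 := rho_mul (ρ := LinearMap.id) (fun a b => rfl) x e v
    simp only [LinearMap.id_apply] at h2
    rw [h2, hv, h1, Matrix.smul_mulVec, Matrix.mulVec_smul, ← add_smul]
    push_cast
    rfl
  obtain ⟨v₁, hv₁, v₂, hv₂, rfl⟩ := Submodule.mem_sup.1 hv
  change e *ᵥ (v₁ + v₂) ∈ _
  rw [Matrix.mulVec_add]
  refine Submodule.mem_sup_right (Submodule.add_mem _ ?_ ?_)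
  · obtain ⟨r, rfl⟩ := Submodule.mem_span_singleton.1 hv₁
    rw [Matrix.mulVec_smul]
    exact Submodule.smul_mem _ r (key _ w le_rfl (wt_x hx hT))
  · clear hv
    induction hv₂ using Submodule.span_induction with
    | mem v hv =>
      obtain ⟨d, hd, hv⟩ := hv
      exact key d v hd.le hv
    | zero => rw [Matrix.mulVec_zero]; exact Submodule.zero_mem _
    | add u v _ _ hu hv => rw [Matrix.mulVec_add]; exact Submodule.add_mem _ hu hv
    | smul c u _ hu => rw [Matrix.mulVec_smul]; exact Submodule.smul_mem _ _ hu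

/-- The space of the highest weight has dimension one. -/
lemma top_unique (hM : Mdl h V) (hx : IsReg h x) {S : Matrix ι ι ℂ} (hS : IsTop h x V S)
    {v w : ι → ℂ} (hv : v ∈ V) (hv0 : v ≠ 0) (hvS : IsWt h x v S) (hw : w ∈ V)
    (hwS : x *ᵥ w = (ip S x : ℂ) • w) : ∃ c : ℂ, w = c • v := by
  have h1 := hw_gen hM hx hv hv0 hvS (fun a ha e he hea => top_raise hM hx hS hv hvS ha he hea) hw
  obtain ⟨a, ha, b, hb, hab⟩ := Submodule.mem_sup.1 h1
  obtain ⟨c, rfl⟩ := Submodule.mem_span_singleton.1 ha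
  have hb' : b = w - c • v := by rw [← hab]; abel
  have hb0 : b = 0 := by
    refine TL_zero hb ?_
    rw [hb', Matrix.mulVec_sub, Matrix.mulVec_smul, hwS, wt_x hx hvS, smul_sub, smul_comm c]
  rw [hb0] at hb'
  exact ⟨c, (sub_eq_zero.1 hb'.symm)⟩

/-- The roots as a finite set of values. -/
lemma finite_vals (h : Submodule ℂ (Matrix ι ι ℂ)) (x : Matrix ι ι ℂ) :
    {a : ℝ | ∃ e ∈ h, e ∈ EA x a ∧ e ≠ 0}.Finite := by
  classical
  by_contra hinf
  obtain ⟨D, hD, hDc⟩ := (show {a : ℝ | ∃ e ∈ h, e ∈ EA x a ∧ e ≠ 0}.Infinite from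
    hinf).exists_subset_card_eq (Module.finrank ℂ (Matrix ι ι ℂ) + 1)
  have h1 := card_le (x := x) (D := D) (fun d hd => by
    obtain ⟨e, _, he, he0⟩ := hD hd
    exact ⟨e, he0, he⟩)
  omega

/-- **Weights which are not the highest weight can be raised by a simple root.** -/
lemma exists_up (hM : Mdl h V) (hx : IsReg h x) {S T : Matrix ι ι ℂ} (hS : IsTop h x V S)
    {v : ι → ℂ} (hv : v ∈ V) (hv0 : v ≠ 0) (hT : IsWt h x v T) (hne : T ≠ S) :
    ∃ (a : ℝ) (e : Matrix ι ι ℂ), IsSimple h x a ∧ e ∈ h ∧ e ∈ EA x a ∧ e *ᵥ v ≠ 0 := by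
  by_contra hcon
  push Not at hcon
  -- all raising operators kill `v`
  have hall : ∀ a : ℝ, 0 < a → ∀ e ∈ h, e ∈ EA x a → e *ᵥ v = 0 := by
    by_contra hc2
    push Not at hc2
    obtain ⟨a₀, ha₀, e₀, he₀, hea₀, hev₀⟩ := hc2
    obtain ⟨a, ⟨ha, e, he, hea, hev⟩, hmin⟩ : ∃ a ∈ {a : ℝ | 0 < a ∧ ∃ e ∈ h, e ∈ EA x a ∧
        e *ᵥ v ≠ 0}, ∀ b ∈ {a : ℝ | 0 < a ∧ ∃ e ∈ h, e ∈ EA x a ∧ e *ᵥ v ≠ 0}, a ≤ b := by
      refine Set.exists_min_image _ (fun a => a) ((finite_vals h x).subset ?_)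
        ⟨a₀, ha₀, e₀, he₀, hea₀, hev₀⟩
      rintro a ⟨_, e, he, hea, hev⟩
      exact ⟨e, he, hea, by rintro rfl; exact hev (Matrix.zero_mulVec _)⟩
    have he0 : e ≠ 0 := by rintro rfl; exact hev (Matrix.zero_mulVec _)
    have hns : ¬ IsSimple h x a := fun hs => hev (hcon a e hs he hea)
    have h1 : ∃ b c : ℝ, 0 < b ∧ 0 < c ∧ b + c = a ∧ ∃ f ∈ h, f ∈ EA x b ∧ ∃ g ∈ h,
        g ∈ EA x c ∧ br f g ≠ 0 := by
      by_contra h2
      push Not at h2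
      exact hns ⟨ha, ⟨e, he, hea, he0⟩, fun b c hb hc hbc f hf hfb g hg hgc =>
        h2 b c hb hc hbc f hf hfb g hg hgc⟩
    obtain ⟨b, c, hb, hc, hbc, f, hf, hfb, g, hg, hgc, hfg⟩ := h1
    have hfg1 : br f g ∈ h := hM.la.lie f hf g hg
    have hfg2 : br f g ∈ EA x (a : ℝ) := by
      have := EA_br hfb hgc
      rw [← hbc]
      push_cast
      exact this
    obtain ⟨r, hr⟩ := root_unique hM.la hx ha.ne' hfg1 hfg2 hfg he hea
    apply hev
    have hfv : f *ᵥ v = 0 := by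
      by_contra h3
      have := hmin b ⟨hb, f, hf, hfb, h3⟩
      linarith
    have hgv : g *ᵥ v = 0 := by
      by_contra h3
      have := hmin c ⟨hc, g, hg, hgc, h3⟩
      linarith
    rw [hr, Matrix.smul_mulVec, br, Matrix.sub_mulVec, ← Matrix.mulVec_mulVec,
      ← Matrix.mulVec_mulVec, hfv, hgv, Matrix.mulVec_zero, Matrix.mulVec_zero, sub_zero,
      smul_zero]
  have h1 := hw_gen hM hx hv hv0 hT hall
  have hle : ip T x ≤ ip S x := hS.max T ⟨v, hv, hv0, hT⟩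
  have hlt : ip T x < ip S x := lt_of_le_of_ne hle
    (fun he => hne (wts_inj hM hx ⟨v, hv, hv0, hT⟩ hS.mem he))
  obtain ⟨s, hs, hs0, hsS⟩ := hS.mem
  have h2 : Submodule.span ℂ {v} ⊔ TL x (ip T x) ≤ TE x (ip T x) := by
    refine sup_le ?_ ?_
    · rw [Submodule.span_singleton_le_iff_mem]
      exact Submodule.subset_span ⟨_, le_rfl, wt_x hx hT⟩
    · exact Submodule.span_mono fun w ⟨d, hd, hw⟩ => ⟨d, hd.le, hw⟩
  exact absurd (le_of_TE (h2 (h1 hs)) hs0 (wt_x hx hsS)) (not_le.2 hlt)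

end Run7.h226.Wts
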